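import Pool.Agent.Lib.MP_7ed9c3_nt.Tz.SpecZ

/-!
# MP_7ed9c3_nt, part Pz: many zeros in windows of fixed height.  Definitions and main statements

See note 5286.  `log Z` is the large parameter (`Z` a small power of the height `Y`).
-/

set_option autoImplicit false

namespace MP7ed9c3.Pz

open NumberField IsDedekindDomain MP7ed9c3 MP7ed9c3.Tw MP7ed9c3.Tz

/-- For every prime number `p > 3`: the coefficients `β p i` of a local factor at `p^i` and the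
coefficients `ν p i` of its inverse, functions of a point `a` with period `p`. -/
def LocData {ι : Type} [Fintype ι] (D : ℕ) (β ν : ℕ → ℕ → (ι → ℤ) → ℝ) : Prop :=
  ∀ p : ℕ, p.Prime → 3 < p →
    (∀ i, Per p (β p i) ∧ Per p (ν p i)) ∧
    (∀ a, β p 0 a = 1 ∧ ν p 0 a = 1 ∧ ν p 1 a = -β p 1 a) ∧
    (∀ i a, |β p i a| ≤ ((i : ℝ) + 1) ^ D * √(p : ℝ) ^ i ∧
      |ν p i a| ≤ ((i : ℝ) + 1) ^ D * √(p : ℝ) ^ i) ∧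
    (∀ k, 1 ≤ k → ∀ a, ∑ i ∈ Finset.range (k + 1), ν p i a * β p (k - i) a = 0) ∧
    mean p (β p 1) = 0

/-- The multiplicative function of `m` with the values `u p i` at `p^i` (`0` if `gcd(m,6) ≠ 1`). -/
noncomputable def mulf {ι : Type} (u : ℕ → ℕ → (ι → ℤ) → ℝ) (m : ℕ) (a : ι → ℤ) : ℝ :=
  if m.Coprime 6 then ∏ p ∈ m.primeFactors, u p (m.factorization p) a else 0

open Classical in
/-- The coefficient of `m^(-s)` in the product of the series of `β` and the mollifier: the sum over the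
divisors `k ≤ X` of `m` without prime factors `> z` of `ν_k β_(m/k)`. -/
noncomputable def dco {ι : Type} (β ν : ℕ → ℕ → (ι → ℤ) → ℝ) (z X m : ℕ) (a : ι → ℤ) : ℝ :=
  ∑ k ∈ m.divisors with (k ≤ X ∧ ∀ p ∈ k.primeFactors, p ≤ z), mulf ν k a * mulf β (m / k) a

/-- `z = exp((log Z)^(1-e))`. -/
noncomputable def zf (e : ℝ) (Z : ℕ) : ℕ := ⌊Real.exp (Real.log Z ^ (1 - e))⌋₊

/-- The point `A₀ + a`. -/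
def sh {ι : Type} {L : ℕ} (A₀ : ι → ℤ) (a : ι → Fin L) : ι → ℤ := fun i => A₀ i + ((a i : ℕ) : ℤ)

open Classical in
/-- **MT, the moment theorem** (part M). -/
def S_MT : Prop :=
  ∀ (ι : Type) [Fintype ι] [Nonempty ι] (D : ℕ) (C₁ c₂ η : ℝ), 0 < C₁ → 0 < c₂ → 0 < η →
  ∃ (e : ℝ) (Z₀ : ℕ), 0 < e ∧ e < 1 / 3 ∧
    ∀ β ν : ℕ → ℕ → (ι → ℤ) → ℝ, LocData D β ν →
    ∀ (Z X L : ℕ) (A₀ : ι → ℤ) (K : ℕ → ℕ → ℝ), Z₀ ≤ Z → η * Real.log Z ≤ Real.log X → Z ^ 24 ≤ L →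
      (∀ l m, K l m = K m l) →
      (∀ x : ℕ → ℝ, 0 ≤ ∑ l ∈ Finset.Icc 1 Z, ∑ m ∈ Finset.Icc 1 Z, x l * x m * K l m) →
      (∀ l ∈ Finset.Icc 1 Z, ∀ m ∈ Finset.Icc 1 Z, |K l m| ≤ C₁ / ((l : ℝ) * m) ∧
        (Real.log Z ^ (2 / 3 : ℝ) < |Real.log l - Real.log m| →
          |K l m| ≤ Real.exp (-(Real.log Z ^ (1 / 4 : ℝ))) / ((l : ℝ) * m))) →
      c₂ ≤ ∑ p ∈ pr (zf e Z) Z, mean p (fun a => β p 1 a ^ 2) * K p p →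
      ((Finset.univ.filter (fun a : ι → Fin L =>
        ∑ l ∈ Finset.Icc 1 Z, ∑ m ∈ Finset.Icc 1 Z,
          dco β ν (zf e Z) X l (sh A₀ a) * dco β ν (zf e Z) X m (sh A₀ a) * K l m ≤
            Real.log Z ^ (-(1 / 10 : ℝ)))).card : ℝ) ≤
        (L : ℝ) ^ Fintype.card ι * Real.log Z ^ (-(3 / 10 : ℝ))

/-- The kernel `exp(μ sinh(π (u - σ₂)/(2 h₂)))`. -/
noncomputable def kap (σ₂ h₂ μ : ℝ) (u : ℂ) : ℂ :=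
  Complex.exp (μ * Complex.sinh (Real.pi * (u - σ₂) / (2 * h₂)))

/-- `G(k)`, the integral of `exp(-k u) kap(u)` over `u = 3 + i y`, `|y| ≤ h₂`. -/
noncomputable def Gf (σ₂ h₂ μ k : ℝ) : ℂ :=
  ∫ y in (-h₂)..h₂, Complex.exp (-(k : ℂ) * (3 + y * Complex.I)) * kap σ₂ h₂ μ (3 + y * Complex.I)

/-- `m^(-i t₀) G(log m + r)`. -/
noncomputable def xf (σ₂ h₂ μ t₀ : ℝ) (m r : ℕ) : ℂ :=
  Complex.exp (-(t₀ * Real.log m : ℝ) * Complex.I) * Gf σ₂ h₂ μ (Real.log m + r)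

/-- `a₁ = π (1 - σ₂)/(2 h₂)`. -/
noncomputable def a1 (σ₂ h₂ : ℝ) : ℝ := Real.pi * (1 - σ₂) / (2 * h₂)

/-- `k* = μ (π/(2 h₂)) cosh a₁`. -/
noncomputable def kst (σ₂ h₂ μ : ℝ) : ℝ := μ * (Real.pi / (2 * h₂)) * Real.cosh (a1 σ₂ h₂)

/-- The normalised kernel `K(l, m)`. -/
noncomputable def Kf (σ₂ h₂ μ t₀ : ℝ) (R l m : ℕ) : ℝ :=
  √μ * Real.exp (-(2 * μ * Real.sinh (a1 σ₂ h₂))) *
    ∑ r ∈ Finset.range (R + 1), Real.exp (2 * r) *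
      (xf σ₂ h₂ μ t₀ l r * (starRingEnd ℂ) (xf σ₂ h₂ μ t₀ m r)).re

/-- **K1, the bounds for the kernel** (part K).  `lam` is the large parameter. -/
def S_K1 : Prop :=
  ∀ σ₂ h₂ m₁ m₂ : ℝ, 1 / 2 < σ₂ → σ₂ < 1 → 0 < h₂ → h₂ ≤ 1 / 2 → 0 < m₁ → m₁ ≤ m₂ →
  ∃ C₁ c₁ lam₀ : ℝ, 0 < C₁ ∧ 0 < c₁ ∧ ∀ (lam μ t₀ : ℝ) (R : ℕ), lam₀ ≤ lam → m₁ * lam ≤ μ → μ ≤ m₂ * lam →
    (R : ℝ) ≤ μ →
    (∀ l m : ℕ, 1 ≤ l → 1 ≤ m → Real.log l ≤ lam → Real.log m ≤ lam →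
      |Kf σ₂ h₂ μ t₀ R l m| ≤ C₁ / ((l : ℝ) * m) ∧
      (lam ^ (2 / 3 : ℝ) < |Real.log l - Real.log m| →
        |Kf σ₂ h₂ μ t₀ R l m| ≤ Real.exp (-(lam ^ (1 / 4 : ℝ))) / ((l : ℝ) * m))) ∧
    ∀ p : ℕ, 1 ≤ p → Real.log p ≤ kst σ₂ h₂ μ - lam ^ (2 / 3 : ℝ) →
      kst σ₂ h₂ μ + lam ^ (2 / 3 : ℝ) ≤ Real.log p + R → c₁ / (p : ℝ) ^ 2 ≤ Kf σ₂ h₂ μ t₀ R p p

/-- **K2, the functional is small on small functions** (part K). -/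
def S_K2 : Prop :=
  ∀ σ₁ σ₂ h h₂ C₀ : ℝ, 1 / 2 < σ₁ → σ₁ < σ₂ → σ₂ < 1 → 0 < h₂ → h₂ < h → h₂ ≤ 1 / 2 → 0 < C₀ →
  ∃ C : ℝ, 0 < C ∧ ∀ (Z : ℕ) (μ t₀ B : ℝ) (f : ℂ → ℂ) (d : ℕ → ℝ), 1 ≤ Z → 0 < μ → 0 ≤ B →
    μ * Real.sinh (Real.pi * (3 - σ₂) / (2 * h₂)) ≤ Real.log Z →
    DifferentiableOn ℂ f (box σ₁ t₀ h) →
    (∀ s : ℂ, σ₂ ≤ s.re → s.re ≤ 3 → |s.im - t₀| ≤ h₂ → ‖f s‖ ≤ B) →
    (∀ m : ℕ, 1 ≤ m → |d m| ≤ C₀ * (m : ℝ) ^ (3 / 5 : ℝ)) →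
    (∀ t : ℝ, |t - t₀| ≤ h₂ → f (3 + t * Complex.I) = ∑' m : ℕ, (d (m + 1) : ℂ) *
      ((m + 1 : ℕ) : ℂ) ^ (-(3 + t * Complex.I))) →
    ∀ r : ℕ, ‖∑ m ∈ Finset.Icc 1 Z, (d m : ℂ) * xf σ₂ h₂ μ t₀ m r‖ ≤ C * (B + 1)

/-- **A, few points with the value `a`** (part A, helper46). -/
def S_FewPoints : Prop :=
  ∀ (σ₁ h C₀ B : ℝ) (a : ℂ), σ₁ < 1 → 0 < h → 0 < C₀ → 0 < B → a ≠ 1 → ∀ c₃ : ℝ, 0 < c₃ →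
  ∃ ε lam₀ : ℝ, 0 < ε ∧ ∀ (lam t₀ : ℝ) (F : ℂ → ℂ), lam₀ ≤ lam →
    DifferentiableOn ℂ F (box σ₁ t₀ h) → (∀ s ∈ box σ₁ t₀ h, ‖F s‖ ≤ Real.exp (C₀ * lam)) →
    (∀ s ∈ box σ₁ t₀ h, 3 ≤ s.re → ‖F s - 1‖ ≤ B * (2 : ℝ) ^ (-s.re)) →
    (∀ S : Finset ℂ, (∀ ρ ∈ S, ρ ∈ box σ₁ t₀ h ∧ F ρ = a) →
      ∑ ρ ∈ S, (analyticOrderNatAt (fun s => F s - a) ρ : ℝ) ≤ ε * lam) →
    ∀ s : ℂ, (σ₁ + 1) / 2 ≤ s.re → s.re ≤ 3 → |s.im - t₀| ≤ h / 2 → ‖F s‖ ≤ Real.exp (c₃ * lam)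

/-- **H1, the local data** (part H): `β p i`, `ν p i` are the coefficients of the product over the `v`
above `p` of the naive local factors and of its inverse. -/
def S_Local : Prop :=
  ∀ (K : Type) [Field K] [NumberField K], ∃ (D : ℕ) (β ν : ℕ → ℕ → (Ix K ⊕ Ix K → ℤ) → ℝ),
    LocData D β ν ∧
    (∀ p : ℕ, p.Prime → 3 < p → ∀ a, β p 1 a = ∑ v ∈ D1 K p, trp v a) ∧
    ∀ η : ℝ, 0 < η → ∃ C : ℝ, 0 < C ∧ ∀ (Y : ℝ) (a : Ix K ⊕ Ix K → ℤ)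
      (M : HeightOneSpectrum (𝓞 K) → WeierstrassCurve (𝓞 K)), 1 ≤ Y →
      House (pt (fun i => a (Sum.inl i))) Y → House (pt (fun i => a (Sum.inr i))) Y →
      4 * pt (fun i => a (Sum.inl i)) ^ 3 + 27 * pt (fun i => a (Sum.inr i)) ^ 2 ≠ 0 →
      (∀ v, IsMinAt (crv (pt (fun i => a (Sum.inl i))) (pt (fun i => a (Sum.inr i)))) v (M v)) →
      ∃ Ψ : ℂ → ℂ, DifferentiableOn ℂ Ψ {s : ℂ | 1 / 2 < s.re} ∧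
        (∀ s : ℂ, 9 / 10 ≤ s.re → ‖Ψ s‖ ≤ C * Y ^ η) ∧
        ∀ s : ℂ, s.re = 3 → (∏' v : HeightOneSpectrum (𝓞 K), (locDen (M v) v s)⁻¹) * Ψ s =
          ∑' m : ℕ, (mulf β (m + 1) a : ℂ) * ((m + 1 : ℕ) : ℂ) ^ (-s)

/-- **H2, the mollifier** (part H). -/
def S_Moll : Prop :=
  ∀ (ι : Type) [Fintype ι] (D : ℕ), ∃ C : ℝ, 0 < C ∧
    ∀ β ν : ℕ → ℕ → (ι → ℤ) → ℝ, LocData D β ν → ∀ (z X : ℕ) (a : ι → ℤ), 1 ≤ X →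
    (∀ m : ℕ, 1 ≤ m → |dco β ν z X m a| ≤ C * (m : ℝ) ^ (3 / 5 : ℝ)) ∧
    ∃ Mo : ℂ → ℂ, Differentiable ℂ Mo ∧ (∀ s : ℂ, 9 / 10 ≤ s.re → ‖Mo s‖ ≤ C * X) ∧
      ∀ s : ℂ, s.re = 3 → (∑' m : ℕ, (mulf β (m + 1) a : ℂ) * ((m + 1 : ℕ) : ℂ) ^ (-s)) * Mo s =
        ∑' m : ℕ, (dco β ν z X (m + 1) a : ℂ) * ((m + 1 : ℕ) : ℂ) ^ (-s)

/-- **H3, the Euler product is close to 1 far to the right** (part H). -/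
def S_Right : Prop :=
  ∀ (K : Type) [Field K] [NumberField K], ∃ B : ℝ, 0 < B ∧
    ∀ (M : HeightOneSpectrum (𝓞 K) → WeierstrassCurve (𝓞 K)) (s : ℂ), 3 ≤ s.re →
      ‖(∏' v : HeightOneSpectrum (𝓞 K), (locDen (M v) v s)⁻¹) - 1‖ ≤ B * (2 : ℝ) ^ (-s.re)

open Classical in
/-- **N, primes of degree one** (part N): in some window `[θ u, u]`, `α lam ≤ u ≤ b lam`, the sum of `r_p/p`
is at least `c`. -/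
def S_Win : Prop :=
  ∀ (K : Type) [Field K] [NumberField K] (θ b : ℝ), 0 < θ → θ < 1 → 0 < b →
  ∃ α c lam₀ : ℝ, 0 < α ∧ α < b ∧ 0 < c ∧ ∀ lam : ℝ, lam₀ ≤ lam → ∃ u : ℝ, α * lam ≤ u ∧ u ≤ b * lam ∧
    c ≤ ∑ p ∈ (pr 3 ⌊Real.exp u⌋₊).filter (fun p : ℕ => θ * u ≤ Real.log p), ((D1 K p).card : ℝ) / p

open Classical in
/-- **PZ, the main theorem**: the bad pairs have a window centred at a height `t₀` with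
`|t₀ - T₀| ≤ (log Y)^(1/20)` and a continuation to it with fewer than `c log Y` points where it is `w`. -/
def S_PZ : Prop :=
  ∀ (K : Type) [Field K] [NumberField K] (σ₁ h C₀ : ℝ) (w : ℂ), σ₁ < 1 → 0 < h → 0 < C₀ → w ≠ 1 →
  ∃ c Y₀ : ℝ, 0 < c ∧ ∀ Y T₀ : ℝ, Y₀ ≤ Y → ∀ S : Finset (𝓞 K × 𝓞 K),
    (∀ z ∈ S, House z.1 Y ∧ House z.2 Y ∧ 4 * z.1 ^ 3 + 27 * z.2 ^ 2 ≠ 0 ∧
      ∃ (t₀ : ℝ) (M : HeightOneSpectrum (𝓞 K) → WeierstrassCurve (𝓞 K)) (F : ℂ → ℂ),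
        |t₀ - T₀| ≤ Real.log Y ^ (1 / 20 : ℝ) ∧
        (∀ v, IsMinAt (crv z.1 z.2) v (M v)) ∧ DifferentiableOn ℂ F (box σ₁ t₀ h) ∧
        (∀ s ∈ box σ₁ t₀ h, ‖F s‖ ≤ Y ^ C₀) ∧
        (∀ s ∈ box σ₁ t₀ h, 3 / 2 < s.re →
          F s = ∏' v : HeightOneSpectrum (𝓞 K), (locDen (M v) v s)⁻¹) ∧
        ∀ T : Finset ℂ, (∀ ρ ∈ T, ρ ∈ box σ₁ t₀ h ∧ F ρ = w) →
          ∑ ρ ∈ T, (analyticOrderNatAt (fun s => F s - w) ρ : ℝ) < c * Real.log Y) →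
    (S.card : ℝ) ≤ Y ^ (2 * (Module.finrank ℚ K : ℝ)) * Real.log Y ^ (-(1 / 5 : ℝ))

end MP7ed9c3.Pz
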