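import Pool.Agent.Lib.MP_7ed9c3_nt.Pz.SpecMa

/-!
# MP_7ed9c3_nt, part Pz, module Ma: primes in a unit interval
-/

set_option autoImplicit false

namespace MP7ed9c3.Pz

theorem tMa : S_Ma := by
  intro u S hu hS
  have hu0 : 0 < u := by linarith
  have key : ∀ p ∈ S, (1 : ℝ) / p ≤ Real.exp (-u) / u * Real.log p := by
    intro p hp
    obtain ⟨hpp, h1, h2⟩ := hS p hp
    have hp0 : (0 : ℝ) < p := by exact_mod_cast hpp.pos
    have h3 : Real.exp u ≤ p := by
      have h := Real.exp_le_exp.mpr h1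
      rwa [Real.exp_log hp0] at h
    have h4 : (1 : ℝ) / p ≤ Real.exp (-u) := by
      rw [Real.exp_neg, ← one_div]
      exact one_div_le_one_div_of_le (Real.exp_pos u) h3
    have h5 : 1 ≤ Real.log p / u := (one_le_div hu0).mpr h1
    calc (1 : ℝ) / p ≤ Real.exp (-u) * 1 := by rw [mul_one]; exact h4
      _ ≤ Real.exp (-u) * (Real.log p / u) := mul_le_mul_of_nonneg_left h5 (Real.exp_pos _).le
      _ = Real.exp (-u) / u * Real.log p := by ring
  have hsum : ∑ p ∈ S, Real.log p ≤ Chebyshev.theta (Real.exp (u + 1)) := by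
    unfold Chebyshev.theta
    refine Finset.sum_le_sum_of_subset_of_nonneg ?_ ?_
    · intro p hp
      obtain ⟨hpp, h1, h2⟩ := hS p hp
      have hp0 : (0 : ℝ) < p := by exact_mod_cast hpp.pos
      rw [Finset.mem_filter, Finset.mem_Ioc]
      refine ⟨⟨hpp.pos, ?_⟩, hpp⟩
      refine Nat.le_floor ?_
      have h := Real.exp_le_exp.mpr h2
      rwa [Real.exp_log hp0] at h
    · intro p _ _
      exact Real.log_natCast_nonneg p
  have hth := Chebyshev.theta_le_log4_mul_x (Real.exp_pos (u + 1)).le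
  have hlog4 : Real.log 4 ≤ 1.3864 := by
    have h : Real.log 4 = 2 * Real.log 2 := by
      rw [show (4 : ℝ) = 2 ^ 2 by norm_num, Real.log_pow]
      norm_num
    rw [h]
    have h2 := Real.log_two_lt_d9
    linarith
  have he : Real.exp 1 ≤ 2.7183 := by
    have h := Real.exp_one_lt_d9
    linarith
  have h41 : Real.log 4 * Real.exp 1 ≤ 4 := by
    have h0 : 0 ≤ Real.log 4 := Real.log_nonneg (by norm_num)
    calc Real.log 4 * Real.exp 1 ≤ 1.3864 * 2.7183 :=
          mul_le_mul hlog4 he (Real.exp_pos 1).le (by norm_num)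
      _ ≤ 4 := by norm_num
  have hee : Real.exp (-u) * Real.exp (u + 1) = Real.exp 1 := by
    rw [← Real.exp_add]
    congr 1
    ring
  calc ∑ p ∈ S, (1 : ℝ) / p ≤ ∑ p ∈ S, Real.exp (-u) / u * Real.log p := Finset.sum_le_sum key
    _ = Real.exp (-u) / u * ∑ p ∈ S, Real.log p := by rw [Finset.mul_sum]
    _ ≤ Real.exp (-u) / u * (Real.log 4 * Real.exp (u + 1)) :=
        mul_le_mul_of_nonneg_left (hsum.trans hth) (by positivity)
    _ = Real.log 4 * (Real.exp (-u) * Real.exp (u + 1)) / u := by ring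
    _ = Real.log 4 * Real.exp 1 / u := by rw [hee]
    _ ≤ 4 / u := div_le_div_of_nonneg_right h41 hu0.le

end MP7ed9c3.Pz
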