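import Pool.Agent.Lib.MP_7ed9c3_nt.Pz.SpecMa

set_option autoImplicit false

namespace MP7ed9c3.Pz

theorem tMb (hMa : S_Ma) : S_Mb := by
  intro u x W S hu hW hS
  have hu0 : (0 : ℝ) < u := by linarith
  obtain ⟨y, hy⟩ : ∃ y : ℝ, y = max u (x - W) := ⟨_, rfl⟩
  have hyu : u ≤ y := by rw [hy]; exact le_max_left _ _
  have hyx : x - W ≤ y := by rw [hy]; exact le_max_right _ _
  have hlow : ∀ p ∈ S, y ≤ Real.log p := by
    intro p hp
    obtain ⟨-, h1, h2⟩ := hS p hp
    rw [hy]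
    exact max_le h1 (by have := (abs_le.1 h2).1; linarith)
  have hupp : ∀ p ∈ S, Real.log p - y ≤ 2 * W := by
    intro p hp
    obtain ⟨-, -, h2⟩ := hS p hp
    have := (abs_le.1 h2).2
    linarith
  have hmaps : ∀ p ∈ S, ⌊Real.log p - y⌋₊ ∈ Finset.range (⌊2 * W⌋₊ + 1) := by
    intro p hp
    rw [Finset.mem_range]
    exact Nat.lt_succ_of_le (Nat.floor_le_floor (hupp p hp))
  rw [← Finset.sum_fiberwise_of_maps_to hmaps]
  have hj : ∀ j ∈ Finset.range (⌊2 * W⌋₊ + 1),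
      ∑ p ∈ S.filter (fun p : ℕ => ⌊Real.log p - y⌋₊ = j), (1 : ℝ) / p ≤ 4 / u := by
    intro j _
    have hj0 : (0 : ℝ) ≤ (j : ℝ) := Nat.cast_nonneg j
    have h1 : ∑ p ∈ S.filter (fun p : ℕ => ⌊Real.log p - y⌋₊ = j), (1 : ℝ) / p ≤ 4 / (y + j) := by
      refine hMa (y + j) _ (by linarith) ?_
      intro p hp
      rw [Finset.mem_filter] at hp
      obtain ⟨hpS, hpj⟩ := hp
      have h0 : 0 ≤ Real.log p - y := by
        have := hlow p hpS
        linarith
      refine ⟨(hS p hpS).1, ?_, ?_⟩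
      · have h2 := Nat.floor_le h0
        rw [hpj] at h2
        linarith
      · have h2 := Nat.lt_floor_add_one (Real.log p - y)
        rw [hpj] at h2
        linarith
    refine h1.trans ?_
    exact div_le_div_of_nonneg_left (by norm_num) hu0 (by linarith)
  refine (Finset.sum_le_sum hj).trans ?_
  rw [Finset.sum_const, Finset.card_range, nsmul_eq_mul]
  have hfl : ((⌊2 * W⌋₊ : ℕ) : ℝ) ≤ 2 * W := Nat.floor_le (by linarith)
  rw [mul_div_assoc', div_le_div_iff_of_pos_right hu0]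
  push_cast
  linarith

end MP7ed9c3.Pz
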