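import Pool.Agent.Lib.MP_7ed9c3_nt.Pz.SpecMa

/-!
# MP_7ed9c3_nt, part Pz, Mc: an upper bound for the sum of `1/p`
-/

set_option autoImplicit false

namespace MP7ed9c3.Pz

private lemma Mc_step (u : ℝ) (hu : 1 ≤ u) (n : ℕ) :
    ∑ j ∈ Finset.range (n + 1), 4 / (u + (j : ℝ)) ≤ 4 + 4 * Real.log ((u + n) / u) := by
  have hu0 : 0 < u := by linarith
  induction n with
  | zero =>
    simp only [zero_add, Finset.range_one, Finset.sum_singleton, Nat.cast_zero, add_zero]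
    rw [div_self hu0.ne', Real.log_one, mul_zero, add_zero, div_le_iff₀ hu0]
    linarith
  | succ n ih =>
    rw [Finset.sum_range_succ]
    have hn : (0 : ℝ) ≤ (n : ℝ) := Nat.cast_nonneg n
    have h1 : 0 < u + (n : ℝ) := by linarith
    have h2 : 0 < u + ((n + 1 : ℕ) : ℝ) := by push_cast; linarith
    have h3 := Real.one_sub_inv_le_log_of_pos (x := (u + ((n + 1 : ℕ) : ℝ)) / (u + n))
      (div_pos h2 h1)
    have h4 : 1 - ((u + ((n + 1 : ℕ) : ℝ)) / (u + n))⁻¹ = 1 / (u + ((n + 1 : ℕ) : ℝ)) := by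
      rw [inv_div]
      field_simp
      push_cast
      ring
    rw [h4] at h3
    have h5 : Real.log ((u + ((n + 1 : ℕ) : ℝ)) / u) =
        Real.log ((u + ((n + 1 : ℕ) : ℝ)) / (u + n)) + Real.log ((u + n) / u) := by
      rw [← Real.log_mul (div_pos h2 h1).ne' (div_pos h1 hu0).ne']
      congr 1
      field_simp
    have h6 : 4 / (u + ((n + 1 : ℕ) : ℝ)) = 4 * (1 / (u + ((n + 1 : ℕ) : ℝ))) := by ring
    rw [h5, h6]
    linarith

theorem tMc (hMa : S_Ma) : S_Mc := by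
  classical
  intro u v S hu huv hS
  have hu0 : 0 < u := by linarith
  have hmaps : ∀ p ∈ S, ⌊Real.log p - u⌋₊ ∈ Finset.range (⌊v - u⌋₊ + 1) := by
    intro p hp
    rw [Finset.mem_range, Nat.lt_succ_iff]
    exact Nat.floor_mono (by linarith [(hS p hp).2.2])
  rw [← Finset.sum_fiberwise_of_maps_to hmaps]
  refine (Finset.sum_le_sum (g := fun j : ℕ => 4 / (u + (j : ℝ))) ?_).trans ?_
  · intro j _
    have hj : (0 : ℝ) ≤ (j : ℝ) := Nat.cast_nonneg j
    apply hMa (u + j) _ (by linarith)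
    intro p hp
    rw [Finset.mem_filter] at hp
    obtain ⟨hpS, hpj⟩ := hp
    obtain ⟨hpp, h1, h2⟩ := hS p hpS
    have h3 : ((⌊Real.log p - u⌋₊ : ℕ) : ℝ) ≤ Real.log p - u := Nat.floor_le (by linarith)
    have h4 : Real.log p - u < ((⌊Real.log p - u⌋₊ : ℕ) : ℝ) + 1 := Nat.lt_floor_add_one _
    rw [hpj] at h3 h4
    exact ⟨hpp, by linarith, by linarith⟩
  · refine (Mc_step u hu _).trans ?_
    have h1 : ((⌊v - u⌋₊ : ℕ) : ℝ) ≤ v - u := Nat.floor_le (by linarith)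
    have h2 : (0 : ℝ) ≤ ((⌊v - u⌋₊ : ℕ) : ℝ) := Nat.cast_nonneg _
    have h3 : Real.log ((u + ((⌊v - u⌋₊ : ℕ) : ℝ)) / u) ≤ Real.log (v / u) := by
      apply Real.log_le_log
      · exact div_pos (by linarith) hu0
      · exact div_le_div_of_nonneg_right (by linarith) hu0.le
    linarith

end MP7ed9c3.Pz
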