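import Pool.Agent.Lib.MP_7ed9c3_nt.Pz.SpecMa

/-!
# MP_7ed9c3_nt, part Pz, module Md: a finite Euler product
-/

set_option autoImplicit false

namespace MP7ed9c3.Pz

/-- the exponents of `N` at the elements of `S` -/
private def Md_F (S : Finset ℕ) (N : ℕ) : ∀ p ∈ S, ℕ := fun p _ => N.factorization p

open Classical in
theorem tMd : S_Md := by
  intro S T φ J hφ hT
  rw [Finset.prod_sum]
  have h1 : ∑ N ∈ T, ∏ p ∈ S, φ p (N.factorization p) =
      ∑ N ∈ T, ∏ x ∈ S.attach, φ x.1 (Md_F S N x.1 x.2) := by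
    refine Finset.sum_congr rfl fun N _ => ?_
    exact (Finset.prod_attach S fun p => φ p (N.factorization p)).symm
  have hinj : Set.InjOn (Md_F S) (T : Set ℕ) := by
    intro N hN N' hN' h
    obtain ⟨h0, hs, _⟩ := hT N hN
    obtain ⟨h0', hs', _⟩ := hT N' hN'
    refine Nat.eq_of_factorization_eq h0 h0' fun p => ?_
    by_cases hp : p ∈ S
    · exact congrFun (congrFun h p) hp
    · rw [Finsupp.notMem_support_iff.1 fun hc => hp (hs (by simpa using hc)),
        Finsupp.notMem_support_iff.1 fun hc => hp (hs' (by simpa using hc))]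
  have h2 : ∑ N ∈ T, ∏ x ∈ S.attach, φ x.1 (Md_F S N x.1 x.2) =
      ∑ e ∈ T.image (Md_F S), ∏ x ∈ S.attach, φ x.1 (e x.1 x.2) := by
    rw [Finset.sum_image hinj]
  rw [h1, h2]
  refine Finset.sum_le_sum_of_subset_of_nonneg ?_ ?_
  · intro e he
    obtain ⟨N, hN, rfl⟩ := Finset.mem_image.1 he
    exact Finset.mem_pi.2 fun p hp => Finset.mem_range.2 ((hT N hN).2.2 p hp)
  · intro e _ _
    exact Finset.prod_nonneg fun x _ => hφ x.1 x.2 _

end MP7ed9c3.Pz
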