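import Pool.Agent.Lib.MP_7ed9c3_nt.Pz.SpecMa

/-!
# MP_7ed9c3_nt, part Pz: Me, the local sum
-/

set_option autoImplicit false

namespace MP7ed9c3.Pz

lemma Me_summable (C : ℕ) : Summable (fun i : ℕ => (13 / 25 : ℝ) ^ i * ((i : ℝ) + 3) ^ C) := by
  have h1 : Summable (fun n : ℕ => (n : ℝ) ^ C * (13 / 25 : ℝ) ^ n) :=
    summable_pow_mul_geometric_of_norm_lt_one C (by rw [Real.norm_eq_abs, abs_of_pos] <;> norm_num)
  have h2 : Summable (fun i : ℕ => ((i + 3 : ℕ) : ℝ) ^ C * (13 / 25 : ℝ) ^ (i + 3)) :=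
    (summable_nat_add_iff 3).mpr h1
  have h3 := h2.mul_left ((13 / 25 : ℝ) ^ 3)⁻¹
  refine h3.congr fun i => ?_
  push_cast
  field_simp
  ring

theorem tMe : S_Me := by
  intro C
  have hs := Me_summable C
  refine ⟨2 * (∑' i : ℕ, (13 / 25 : ℝ) ^ i * ((i : ℝ) + 3) ^ C) + 1, ?_, ?_⟩
  · have : 0 ≤ ∑' i : ℕ, (13 / 25 : ℝ) ^ i * ((i : ℝ) + 3) ^ C := tsum_nonneg fun i => by positivity
    linarith
  · intro p x J hp hx hxp
    have hp0 : (0 : ℝ) < p := by
      have : (5 : ℝ) ≤ p := by exact_mod_cast hp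
      linarith
    have hp5 : (5 : ℝ) ≤ p := by exact_mod_cast hp
    have hsq : 0 < √(p : ℝ) := Real.sqrt_pos.mpr hp0
    have hss : √(p : ℝ) * √(p : ℝ) = p := Real.mul_self_sqrt hp0.le
    have hs5 : (11 / 5 : ℝ) ≤ √(p : ℝ) := by
      apply Real.le_sqrt_of_sq_le
      norm_num
      linarith
    have hxq : x ≤ 13 / 25 := by
      refine hxp.trans ?_
      rw [div_le_iff₀ hsq]
      linarith
    have hx2 : x ^ 2 ≤ 2 / p := by
      have h1 : x * √(p : ℝ) ≤ 8 / 7 := by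
        rwa [le_div_iff₀ hsq] at hxp
      have h2 : (x * √(p : ℝ)) ^ 2 ≤ (8 / 7) ^ 2 :=
        pow_le_pow_left₀ (mul_nonneg hx hsq.le) h1 2
      rw [le_div_iff₀ hp0]
      have h3 : (x * √(p : ℝ)) ^ 2 = x ^ 2 * p := by rw [mul_pow, sq (√(p : ℝ)), hss]
      rw [h3] at h2
      linarith
    set f : ℕ → ℝ := fun j => if j = 1 then 0 else x ^ j * ((j : ℝ) + 1) ^ C with hf
    have hf0 : ∀ j, 0 ≤ f j := by
      intro j
      simp only [hf]
      split_ifs
      · exact le_rfl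
      · positivity
    have hstep : ∑ j ∈ Finset.range J, f j ≤ ∑ j ∈ Finset.range (J + 2), f j :=
      Finset.sum_le_sum_of_subset_of_nonneg (Finset.range_mono (by omega)) fun j _ _ => hf0 j
    have hsplit : ∑ j ∈ Finset.range (J + 2), f j = ∑ j ∈ Finset.range J, f (j + 2) + 1 := by
      rw [Finset.sum_range_succ', Finset.sum_range_succ']
      have e0 : f 0 = 1 := by simp [hf]
      have e1 : f (0 + 1) = 0 := by simp [hf]
      rw [e0, e1]
      ring_nf
    have hterm : ∀ j ∈ Finset.range J, f (j + 2) ≤ 2 / p * ((13 / 25 : ℝ) ^ j * ((j : ℝ) + 3) ^ C) := by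
      intro j _
      have e : f (j + 2) = x ^ 2 * (x ^ j * ((j : ℝ) + 3) ^ C) := by
        simp only [hf]
        rw [if_neg (by omega)]
        push_cast
        rw [show (j : ℝ) + 2 + 1 = (j : ℝ) + 3 by ring]
        ring
      rw [e]
      apply mul_le_mul hx2 _ (by positivity) (by positivity)
      apply mul_le_mul_of_nonneg_right _ (by positivity)
      exact pow_le_pow_left₀ hx hxq j
    have hsum : ∑ j ∈ Finset.range J, f (j + 2) ≤
        2 / p * ∑' i : ℕ, (13 / 25 : ℝ) ^ i * ((i : ℝ) + 3) ^ C := by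
      refine (Finset.sum_le_sum hterm).trans ?_
      rw [← Finset.mul_sum]
      apply mul_le_mul_of_nonneg_left _ (by positivity)
      exact hs.sum_le_tsum _ fun i _ => by positivity
    calc ∑ j ∈ Finset.range J, (if j = 1 then 0 else x ^ j * ((j : ℝ) + 1) ^ C)
        = ∑ j ∈ Finset.range J, f j := rfl
      _ ≤ ∑ j ∈ Finset.range J, f (j + 2) + 1 := by rw [← hsplit]; exact hstep
      _ ≤ 2 / p * (∑' i : ℕ, (13 / 25 : ℝ) ^ i * ((i : ℝ) + 3) ^ C) + 1 := by linarith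
      _ ≤ 1 + (2 * (∑' i : ℕ, (13 / 25 : ℝ) ^ i * ((i : ℝ) + 3) ^ C) + 1) / p := by
          have h1 : 0 ≤ 1 / (p : ℝ) := by positivity
          have h2 : (2 * (∑' i : ℕ, (13 / 25 : ℝ) ^ i * ((i : ℝ) + 3) ^ C) + 1) / p =
            2 / p * (∑' i : ℕ, (13 / 25 : ℝ) ^ i * ((i : ℝ) + 3) ^ C) + 1 / p := by ring
          rw [h2]
          linarith

end MP7ed9c3.Pz
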