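import Pool.Agent.Lib.MP_7ed9c3_nt.Pz.SpecMa

/-!
# MP_7ed9c3_nt, part Pz, module Mf: sums over integers without exact primes (helper48)
-/

set_option autoImplicit false

namespace MP7ed9c3.Pz

private noncomputable def Mf_x (z δ : ℝ) (p : ℕ) : ℝ :=
  (√(p : ℝ))⁻¹ * (if (p : ℝ) ≤ z then (p : ℝ) ^ δ else 1)

private noncomputable def Mf_phi (C : ℕ) (z δ : ℝ) (p j : ℕ) : ℝ :=
  if j = 1 then 0 else Mf_x z δ p ^ j * ((j : ℝ) + 1) ^ C

private theorem Mf_x_nonneg (z δ : ℝ) (p : ℕ) : 0 ≤ Mf_x z δ p := by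
  unfold Mf_x
  refine mul_nonneg (inv_nonneg.2 (Real.sqrt_nonneg _)) ?_
  split_ifs
  · exact Real.rpow_nonneg (Nat.cast_nonneg _) _
  · exact zero_le_one

private theorem Mf_x_le (z δ : ℝ) (hδ : 0 ≤ δ) (hz : z ^ δ ≤ 8 / 7) (p : ℕ) :
    Mf_x z δ p ≤ 8 / 7 / √(p : ℝ) := by
  unfold Mf_x
  rw [div_eq_mul_inv (8 / 7 : ℝ) (√(p : ℝ)), mul_comm]
  refine mul_le_mul_of_nonneg_right ?_ (inv_nonneg.2 (Real.sqrt_nonneg _))
  split_ifs with h
  · exact (Real.rpow_le_rpow (Nat.cast_nonneg _) h hδ).trans hz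
  · norm_num

private theorem Mf_phi_nonneg (C : ℕ) (z δ : ℝ) (p j : ℕ) : 0 ≤ Mf_phi C z δ p j := by
  unfold Mf_phi
  split_ifs
  · exact le_refl _
  · exact mul_nonneg (pow_nonneg (Mf_x_nonneg z δ p) _) (by positivity)

private theorem Mf_sqrt (N : ℕ) (hN : N ≠ 0) :
    (√(N : ℝ))⁻¹ = ∏ p ∈ N.primeFactors, ((√(p : ℝ))⁻¹) ^ N.factorization p := by
  have h1 : (N : ℝ) = ∏ p ∈ N.primeFactors, (p : ℝ) ^ N.factorization p := by
    conv_lhs => rw [← Nat.prod_factorization_pow_eq_self hN]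
    rw [Finsupp.prod, Nat.support_factorization]
    push_cast
    rfl
  have h2 : √(N : ℝ) = ∏ p ∈ N.primeFactors, (√(p : ℝ)) ^ N.factorization p := by
    rw [Real.sqrt_eq_iff_mul_self_eq (Nat.cast_nonneg _)
      (Finset.prod_nonneg fun p _ => pow_nonneg (Real.sqrt_nonneg _) _), ← Finset.prod_mul_distrib, h1]
    refine Finset.prod_congr rfl fun p _ => ?_
    rw [← mul_pow, Real.mul_self_sqrt (Nat.cast_nonneg _)]
  rw [h2, ← Finset.prod_inv_distrib]
  exact Finset.prod_congr rfl fun p _ => (inv_pow _ _).symm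

private theorem Mf_smz (z δ : ℝ) (N : ℕ) :
    (smz z N : ℝ) ^ δ =
      ∏ p ∈ N.primeFactors, (if (p : ℝ) ≤ z then (p : ℝ) ^ δ else 1) ^ N.factorization p := by
  classical
  have h1 : (smz z N : ℝ) = ∏ p ∈ N.primeFactors.filter (fun p : ℕ => (p : ℝ) ≤ z),
      (p : ℝ) ^ N.factorization p := by
    unfold smz
    push_cast
    refine Finset.prod_congr ?_ fun _ _ => rfl
    ext p
    simp only [Finset.mem_filter]
  rw [h1, ← Real.finset_prod_rpow _ _ (fun p _ => pow_nonneg (Nat.cast_nonneg _) _), Finset.prod_filter]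
  refine Finset.prod_congr rfl fun p _ => ?_
  by_cases h : (p : ℝ) ≤ z
  · rw [if_pos h, if_pos h, ← Real.rpow_natCast, ← Real.rpow_natCast, ← Real.rpow_mul (Nat.cast_nonneg _),
      ← Real.rpow_mul (Nat.cast_nonneg _), mul_comm]
  · rw [if_neg h, if_neg h, one_pow]

private theorem Mf_term (C : ℕ) (z δ : ℝ) (S : Finset ℕ) (N : ℕ) (hN : N ≠ 0) (hS : N.primeFactors ⊆ S)
    (hP : Pw N) :
    (√(N : ℝ))⁻¹ * tc C N * (smz z N : ℝ) ^ δ = ∏ p ∈ S, Mf_phi C z δ p (N.factorization p) := by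
  have h1 : ∏ p ∈ S, Mf_phi C z δ p (N.factorization p) =
      ∏ p ∈ N.primeFactors, Mf_phi C z δ p (N.factorization p) := by
    refine (Finset.prod_subset hS fun p _ hp => ?_).symm
    have h0 : N.factorization p = 0 := by
      rw [← Nat.support_factorization] at hp
      exact Finsupp.notMem_support_iff.1 hp
    rw [h0]
    unfold Mf_phi
    simp
  have h2 : ∏ p ∈ N.primeFactors, Mf_phi C z δ p (N.factorization p) =
      ∏ p ∈ N.primeFactors, (((√(p : ℝ))⁻¹) ^ N.factorization p *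
        (if (p : ℝ) ≤ z then (p : ℝ) ^ δ else 1) ^ N.factorization p *
        ((N.factorization p : ℝ) + 1) ^ C) := by
    refine Finset.prod_congr rfl fun p hp => ?_
    have hp1 := hP p (Nat.prime_of_mem_primeFactors hp)
    unfold Mf_phi Mf_x
    rw [if_neg hp1, mul_pow]
  have h3 : tc C N = ∏ p ∈ N.primeFactors, ((N.factorization p : ℝ) + 1) ^ C := by
    unfold tc
    rw [Nat.card_divisors hN, Finset.prod_pow]
    push_cast
    rfl
  rw [h1, h2, Finset.prod_mul_distrib, Finset.prod_mul_distrib, ← Mf_sqrt N hN, ← Mf_smz, ← h3]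
  ring

theorem tMf (hMd : S_Md) (hMe : S_Me) : S_Mf := by
  intro C
  obtain ⟨D, hD, hE⟩ := hMe C
  refine ⟨D, hD, ?_⟩
  intro S T z δ hδ hz hS hT
  have h1 : ∑ N ∈ T, (√(N : ℝ))⁻¹ * tc C N * (smz z N : ℝ) ^ δ =
      ∑ N ∈ T, ∏ p ∈ S, Mf_phi C z δ p (N.factorization p) :=
    Finset.sum_congr rfl fun N hN => Mf_term C z δ S N (hT N hN).1 (hT N hN).2.1 (hT N hN).2.2
  rw [h1]
  refine (hMd S T (Mf_phi C z δ) (1 + ∑ N ∈ T, N) (fun p _ j => Mf_phi_nonneg C z δ p j) ?_).trans ?_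
  · intro N hN
    refine ⟨(hT N hN).1, (hT N hN).2.1, fun p _ => ?_⟩
    have h2 := Nat.factorization_lt p (hT N hN).1
    have h3 : N ≤ ∑ N ∈ T, N := Finset.single_le_sum (f := fun N : ℕ => N) (fun _ _ => Nat.zero_le _) hN
    omega
  · rw [Finset.mul_sum, Real.exp_sum]
    refine Finset.prod_le_prod (fun p _ => Finset.sum_nonneg fun j _ => Mf_phi_nonneg C z δ p j) ?_
    intro p hp
    refine (hE p (Mf_x z δ p) _ (hS p hp).2 (Mf_x_nonneg z δ p) (Mf_x_le z δ hδ hz p)).trans ?_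
    rw [mul_one_div, add_comm]
    exact Real.add_one_le_exp _

end MP7ed9c3.Pz
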