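import Pool.Agent.Lib.MP_7ed9c3_nt.Pz.SpecMa

/-!
# MP_7ed9c3_nt, part Pz, module Mg (helper26): from tuples to products
-/

set_option autoImplicit false

namespace MP7ed9c3.Pz

theorem tMg : S_Mg := by
  classical
  intro κ _ B G hG hB
  rw [← Finset.sum_fiberwise_of_maps_to (s := B) (t := B.image (fun m => ∏ i, m i))
    (g := fun m => ∏ i, m i) (fun m hm => Finset.mem_image_of_mem _ hm)]
  apply Finset.sum_le_sum
  intro N hN
  have h1 : ∑ m ∈ B with (∏ i, m i) = N, G (∏ i, m i) =
      ((B.filter (fun m => (∏ i, m i) = N)).card : ℝ) * G N := by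
    rw [← nsmul_eq_mul, ← Finset.sum_const]
    apply Finset.sum_congr rfl
    intro m hm
    rw [(Finset.mem_filter.mp hm).2]
  rw [h1]
  apply mul_le_mul_of_nonneg_right _ (hG N)
  have h2 : B.filter (fun m => (∏ i, m i) = N) ⊆ Fintype.piFinset (fun _ => N.divisors) := by
    intro m hm
    obtain ⟨hm1, hm2⟩ := Finset.mem_filter.mp hm
    rw [Fintype.mem_piFinset]
    intro i
    rw [Nat.mem_divisors]
    constructor
    · rw [← hm2]
      exact Finset.dvd_prod_of_mem m (Finset.mem_univ i)
    · rw [← hm2]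
      exact Finset.prod_ne_zero_iff.mpr fun i _ => hB m hm1 i
  have h3 := Finset.card_le_card h2
  rw [Fintype.card_piFinset, Finset.prod_const, Finset.card_univ] at h3
  unfold tc
  exact_mod_cast h3

end MP7ed9c3.Pz
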