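import Pool.Agent.Lib.MP_7ed9c3_nt.Pz.SpecMx

/-!
# MP_7ed9c3_nt, part Pz, module X1: the structure of dco
-/

set_option autoImplicit false

namespace MP7ed9c3.Pz

open MP7ed9c3.Tz

variable {ι : Type}

private theorem X1_one (u : ℕ → ℕ → (ι → ℤ) → ℝ) (a : ι → ℤ) : mulf u 1 a = 1 := by
  unfold mulf
  rw [if_pos (by decide), Nat.primeFactors_one, Finset.prod_empty]

private theorem X1_zero (u : ℕ → ℕ → (ι → ℤ) → ℝ) (a : ι → ℤ) : mulf u 0 a = 0 := by
  unfold mulf
  rw [if_neg (by decide)]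

private theorem X1_mul (u : ℕ → ℕ → (ι → ℤ) → ℝ) (a : ι → ℤ) {m n : ℕ} (h : m.Coprime n) :
    mulf u (m * n) a = mulf u m a * mulf u n a := by
  classical
  rcases Nat.eq_zero_or_pos m with hm | hm
  · subst hm
    rw [zero_mul, X1_zero, zero_mul]
  rcases Nat.eq_zero_or_pos n with hn | hn
  · subst hn
    rw [mul_zero, X1_zero, mul_zero]
  unfold mulf
  by_cases hc : m.Coprime 6
  · by_cases hd : n.Coprime 6
    · rw [if_pos (Nat.Coprime.mul_left hc hd), if_pos hc, if_pos hd, h.primeFactors_mul,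
        Finset.prod_union h.disjoint_primeFactors]
      congr 1
      · refine Finset.prod_congr rfl fun p hp => ?_
        have : n.factorization p = 0 := by
          rw [← Finsupp.notMem_support_iff, Nat.support_factorization]
          exact Finset.disjoint_left.1 h.disjoint_primeFactors hp
        rw [Nat.factorization_mul hm.ne' hn.ne', Finsupp.add_apply, this, add_zero]
      · refine Finset.prod_congr rfl fun p hp => ?_
        have : m.factorization p = 0 := by
          rw [← Finsupp.notMem_support_iff, Nat.support_factorization]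
          exact Finset.disjoint_right.1 h.disjoint_primeFactors hp
        rw [Nat.factorization_mul hm.ne' hn.ne', Finsupp.add_apply, this, zero_add]
    · rw [if_neg hd, mul_zero, if_neg]
      exact fun h' => hd (Nat.Coprime.coprime_mul_left h')
  · rw [if_neg hc, zero_mul, if_neg]
    exact fun h' => hc (Nat.Coprime.coprime_mul_right h')

/-- the arithmetic function -/
private noncomputable def X1_af (u : ℕ → ℕ → (ι → ℤ) → ℝ) (a : ι → ℤ) : ArithmeticFunction ℝ :=
  ⟨fun m => mulf u m a, X1_zero u a⟩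

private theorem X1_afm (u : ℕ → ℕ → (ι → ℤ) → ℝ) (a : ι → ℤ) : (X1_af u a).IsMultiplicative :=
  ⟨X1_one u a, fun h => X1_mul u a h⟩

private theorem X1_pp (u : ℕ → ℕ → (ι → ℤ) → ℝ) (a : ι → ℤ) {p : ℕ} (hp : p.Prime) (h3 : 3 < p)
    (h0 : u p 0 a = 1) (k : ℕ) : mulf u (p ^ k) a = u p k a := by
  rcases Nat.eq_zero_or_pos k with hk | hk
  · subst hk
    rw [pow_zero, X1_one, h0]
  have hc : (p ^ k).Coprime 6 := by
    refine Nat.Coprime.pow_left k ?_
    rw [hp.coprime_iff_not_dvd]
    intro h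
    have h1 : p ∣ 2 * 3 := by
      norm_num
      exact h
    rcases (Nat.Prime.dvd_mul hp).1 h1 with h2 | h2
    · have := Nat.le_of_dvd (by norm_num) h2
      omega
    · have := Nat.le_of_dvd (by norm_num) h2
      omega
  unfold mulf
  rw [if_pos hc, Nat.primeFactors_prime_pow hk.ne' hp, Finset.prod_singleton, hp.factorization_pow,
    Finsupp.single_eq_same]

/-- the convolution of the two functions vanishes except at 1 -/
private theorem X1_conv [Fintype ι] (D : ℕ) (β ν : ℕ → ℕ → (ι → ℤ) → ℝ) (hL : LocData D β ν) (a : ι → ℤ)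
    {s : ℕ} (hs : 1 < s) (hc : s.Coprime 6) :
    ∑ k ∈ s.divisors, mulf ν k a * mulf β (s / k) a = 0 := by
  have e1 : ∑ k ∈ s.divisors, mulf ν k a * mulf β (s / k) a = (X1_af ν a * X1_af β a) s := by
    rw [ArithmeticFunction.mul_apply, Nat.sum_divisorsAntidiagonal (fun x y => (X1_af ν a) x * (X1_af β a) y)]
    rfl
  rw [e1, ((X1_afm ν a).mul (X1_afm β a)).multiplicative_factorization _ (by omega), Finsupp.prod,
    Nat.support_factorization]
  obtain ⟨p, hp⟩ := (Nat.nonempty_primeFactors.2 hs)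
  refine Finset.prod_eq_zero hp ?_
  have hpp := Nat.prime_of_mem_primeFactors hp
  have hpd := Nat.dvd_of_mem_primeFactors hp
  have h3 : 3 < p := by
    by_contra hcon
    have h1 : p.Coprime 6 := Nat.Coprime.coprime_dvd_left hpd hc
    have h2 := hpp.two_le
    have h3 : p = 2 ∨ p = 3 := by omega
    rcases h3 with rfl | rfl
    · exact absurd h1 (by decide)
    · exact absurd h1 (by decide)
  obtain ⟨_, h0, _, hsum, _⟩ := hL p hpp h3
  have hk : 1 ≤ s.factorization p := by
    have := (Nat.support_factorization s).symm ▸ hp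
    have h4 := Finsupp.mem_support_iff.1 this
    omega
  rw [ArithmeticFunction.mul_apply, Nat.sum_divisorsAntidiagonal (fun x y => (X1_af ν a) x * (X1_af β a) y),
    Nat.sum_divisors_prime_pow hpp]
  rw [← hsum _ hk a]
  refine Finset.sum_congr rfl fun i hi => ?_
  have hi2 : i ≤ s.factorization p := Nat.lt_succ_iff.1 (Finset.mem_range.1 hi)
  rw [Nat.pow_div hi2 hpp.pos]
  have f1 : (X1_af ν a) (p ^ i) = ν p i a := X1_pp ν a hpp h3 (h0 a).2.1 i
  have f2 : (X1_af β a) (p ^ (s.factorization p - i)) = β p (s.factorization p - i) a :=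
    X1_pp β a hpp h3 (h0 a).1 _
  rw [f1, f2]


open Classical in
/-- the structure of `dco` -/
private theorem X1_dco (β ν : ℕ → ℕ → (ι → ℤ) → ℝ) (z X s r : ℕ) (hs0 : s ≠ 0) (hr0 : r ≠ 0)
    (hcop : s.Coprime r) (hsz : ∀ p ∈ s.primeFactors, p ≤ z) (hrz : ∀ p ∈ r.primeFactors, z < p)
    (hX : s ≤ X) (a : ι → ℤ) :
    dco β ν z X (s * r) a = (∑ k ∈ s.divisors, mulf ν k a * mulf β (s / k) a) * mulf β r a := by
  unfold dco
  have e1 : (s * r).divisors.filter (fun k => k ≤ X ∧ ∀ p ∈ k.primeFactors, p ≤ z) = s.divisors := by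
    ext k
    rw [Finset.mem_filter, Nat.mem_divisors, Nat.mem_divisors]
    constructor
    · rintro ⟨⟨h1, _⟩, _, h3⟩
      refine ⟨?_, hs0⟩
      have hkr : k.Coprime r := by
        rw [Nat.coprime_iff_gcd_eq_one]
        by_contra hcon
        obtain ⟨p, hp, hpg⟩ := Nat.exists_prime_and_dvd hcon
        have hk0 : k ≠ 0 := by
          rintro rfl
          exact (Nat.mul_ne_zero hs0 hr0) (Nat.eq_zero_of_zero_dvd h1)
        have g1 := h3 p (Nat.mem_primeFactors.2 ⟨hp, hpg.trans (Nat.gcd_dvd_left _ _), hk0⟩)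
        have g2 := hrz p (Nat.mem_primeFactors.2 ⟨hp, hpg.trans (Nat.gcd_dvd_right _ _), hr0⟩)
        omega
      exact hkr.dvd_of_dvd_mul_right h1
    · rintro ⟨h1, _⟩
      refine ⟨⟨h1.trans (dvd_mul_right _ _), Nat.mul_ne_zero hs0 hr0⟩,
        (Nat.le_of_dvd (Nat.pos_of_ne_zero hs0) h1).trans hX, fun p hp => hsz p (Nat.primeFactors_mono h1 hs0 hp)⟩
  rw [e1, Finset.sum_mul]
  refine Finset.sum_congr rfl fun k hk => ?_
  have hkd := Nat.dvd_of_mem_divisors hk
  have e2 : s * r / k = s / k * r := Nat.div_mul_right_comm hkd r |>.symm ▸ rfl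
  rw [e2, X1_mul β a (Nat.Coprime.coprime_dvd_left (Nat.div_dvd_of_dvd hkd) hcop), mul_assoc]

/-- the smooth and the rough part -/
private theorem X1_split (z : ℕ) (m : ℕ) (hm : m ≠ 0) :
    ∃ r : ℕ, r ≠ 0 ∧ m = smz (z : ℝ) m * r ∧ smz (z : ℝ) m ≠ 0 ∧ (smz (z : ℝ) m).Coprime r ∧
      (∀ p ∈ (smz (z : ℝ) m).primeFactors, p ≤ z) ∧ ∀ p ∈ r.primeFactors, z < p := by
  classical
  set A := m.primeFactors.filter (fun p : ℕ => (p : ℝ) ≤ (z : ℝ)) with hA
  set B := m.primeFactors.filter (fun p : ℕ => ¬ (p : ℝ) ≤ (z : ℝ)) with hB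
  have hs : smz (z : ℝ) m = ∏ p ∈ A, p ^ m.factorization p := by
    unfold smz
    rw [hA]
  have hpA : ∀ p ∈ A, p.Prime ∧ p ≤ z := fun p hp =>
    ⟨Nat.prime_of_mem_primeFactors (Finset.mem_filter.1 hp).1, by exact_mod_cast (Finset.mem_filter.1 hp).2⟩
  have hpB : ∀ p ∈ B, p.Prime ∧ z < p := fun p hp =>
    ⟨Nat.prime_of_mem_primeFactors (Finset.mem_filter.1 hp).1, by
      have := (Finset.mem_filter.1 hp).2
      rw [not_le] at this
      exact_mod_cast this⟩
  have hpr : ∀ (C : Finset ℕ), (∀ p ∈ C, p.Prime) → ∀ q ∈ (∏ p ∈ C, p ^ m.factorization p).primeFactors, q ∈ C := by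
    intro C hC q hq
    have hq1 := Nat.prime_of_mem_primeFactors hq
    obtain ⟨p, hp, hqp⟩ := (Prime.dvd_finsetProd_iff hq1.prime _).1 (Nat.dvd_of_mem_primeFactors hq)
    have h1 := hq1.dvd_of_dvd_pow hqp
    rw [(Nat.prime_dvd_prime_iff_eq hq1 (hC p hp)).1 h1]
    exact hp
  refine ⟨∏ p ∈ B, p ^ m.factorization p, ?_, ?_, ?_, ?_, ?_, ?_⟩
  · exact Finset.prod_ne_zero_iff.2 fun p hp => pow_ne_zero _ (hpB p hp).1.ne_zero
  · rw [hs, hA, hB, Finset.prod_filter_mul_prod_filter_not]
    have h1 := Nat.prod_factorization_pow_eq_self hm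
    rw [Finsupp.prod, Nat.support_factorization] at h1
    exact h1.symm
  · rw [hs]
    exact Finset.prod_ne_zero_iff.2 fun p hp => pow_ne_zero _ (hpA p hp).1.ne_zero
  · rw [hs]
    refine Nat.Coprime.prod_left fun p hp => Nat.Coprime.prod_right fun q hq => ?_
    refine Nat.Coprime.pow _ _ ?_
    rw [Nat.coprime_primes (hpA p hp).1 (hpB q hq).1]
    have h1 := (hpA p hp).2
    have h2 := (hpB q hq).2
    omega
  · intro p hp
    rw [hs] at hp
    exact (hpA p (hpr A (fun p hp => (hpA p hp).1) p hp)).2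
  · intro p hp
    exact (hpB p (hpr B (fun p hp => (hpB p hp).1) p hp)).2

/-- the sum over the divisors of a number `> 1` vanishes -/
private theorem X1_conv' [Fintype ι] (D : ℕ) (β ν : ℕ → ℕ → (ι → ℤ) → ℝ) (hL : LocData D β ν) (a : ι → ℤ)
    {s : ℕ} (hs : 1 < s) :
    ∑ k ∈ s.divisors, mulf ν k a * mulf β (s / k) a = 0 := by
  by_cases hc : s.Coprime 6
  · exact X1_conv D β ν hL a hs hc
  · refine Finset.sum_eq_zero fun k hk => ?_
    have hkd := Nat.dvd_of_mem_divisors hk
    by_cases h1 : k.Coprime 6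
    · have h2 : ¬ (s / k).Coprime 6 := by
        intro h2
        apply hc
        have := Nat.Coprime.mul_left h1 h2
        rwa [Nat.mul_div_cancel' hkd] at this
      unfold mulf
      rw [if_neg h2, mul_zero]
    · unfold mulf
      rw [if_neg h1, zero_mul]

theorem tX1 : S_X1 := by
  intro ι _ D β ν hL z X a hX
  constructor
  · intro p hp h3 hz
    have h := X1_dco β ν z X 1 p one_ne_zero hp.ne_zero (Nat.coprime_one_left p)
      (by simp) (by
        intro q hq
        rw [Nat.Prime.primeFactors hp, Finset.mem_singleton] at hq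
        rw [hq]
        exact hz) hX a
    rw [one_mul] at h
    rw [h, Nat.divisors_one, Finset.sum_singleton, Nat.div_one, X1_one, X1_one, one_mul, one_mul]
    have h0 := ((hL p hp h3).2.1 a).1
    have h2 := X1_pp β a hp h3 h0 1
    rwa [pow_one] at h2
  · intro m hm h1 h2
    obtain ⟨r, hr0, hmr, hs0, hcop, hs, hr⟩ := X1_split z m (by omega)
    have h := X1_dco β ν z X (smz (z : ℝ) m) r hs0 hr0 hcop hs hr h2 a
    rw [← hmr] at h
    rw [h, X1_conv' D β ν hL a h1, zero_mul]

end MP7ed9c3.Pz
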