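import Pool.Agent.Lib.MP_7ed9c3_nt.Pz.SpecMx

/-!
PROJECT PZ, module X10 (helper2): the terms with a large smooth part.
-/

set_option autoImplicit false

namespace MP7ed9c3.Pz

open MP7ed9c3.Tz Filter Topology

private theorem X10_asym (C₁ η e : ℝ) (D' : ℕ) (hη : 0 < η) (he : 0 < e) :
    ∀ᶠ x : ℝ in atTop,
      C₁ * (Real.exp (-(η / 10) * x ^ e) * x ^ D' + Real.exp (-x)) ≤ x⁻¹ := by
  have h1 : Tendsto (fun x : ℝ => (x ^ e) ^ (((D' : ℝ) + 1) / e) * Real.exp (-(η / 10) * x ^ e))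
      atTop (𝓝 0) :=
    (tendsto_rpow_mul_exp_neg_mul_atTop_nhds_zero (((D' : ℝ) + 1) / e) (η / 10)
      (by positivity)).comp (tendsto_rpow_atTop he)
  have h2 : Tendsto (fun x : ℝ => x ^ 1 * Real.exp (-x)) atTop (𝓝 0) :=
    Real.tendsto_pow_mul_exp_neg_atTop_nhds_zero 1
  have h3 : Tendsto (fun x : ℝ => C₁ * ((x ^ e) ^ (((D' : ℝ) + 1) / e) *
      Real.exp (-(η / 10) * x ^ e) + x ^ 1 * Real.exp (-x))) atTop (𝓝 (C₁ * (0 + 0))) :=
    (h1.add h2).const_mul C₁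
  rw [add_zero, mul_zero] at h3
  filter_upwards [h3.eventually (gt_mem_nhds (show (0 : ℝ) < 1 by norm_num)),
    eventually_gt_atTop (0 : ℝ)] with x hx hx0
  have h4 : (x ^ e) ^ (((D' : ℝ) + 1) / e) = x ^ D' * x := by
    rw [← Real.rpow_mul hx0.le, mul_div_cancel₀ _ he.ne', Real.rpow_add hx0, Real.rpow_one,
      Real.rpow_natCast]
  rw [h4] at hx
  rw [← one_div, le_div_iff₀ hx0]
  calc C₁ * (Real.exp (-(η / 10) * x ^ e) * x ^ D' + Real.exp (-x)) * x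
      = C₁ * (x ^ D' * x * Real.exp (-(η / 10) * x ^ e) + x ^ 1 * Real.exp (-x)) := by ring
    _ ≤ 1 := hx.le

private theorem X10_lin {ι : Type} [Fintype ι] (L : ℕ) (A₀ : ι → ℤ) (S : Finset ℕ)
    (f : ℕ → ℕ → (ι → ℤ) → ℝ) (K : ℕ → ℕ → ℝ) :
    bsum L A₀ (fun a => ∑ l ∈ S, ∑ m ∈ S, f l m a * K l m) =
      ∑ l ∈ S, ∑ m ∈ S, bsum L A₀ (f l m) * K l m := by
  unfold bsum
  rw [Finset.sum_comm]
  refine Finset.sum_congr rfl fun l _ => ?_
  rw [Finset.sum_comm]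
  refine Finset.sum_congr rfl fun m _ => ?_
  rw [Finset.sum_mul]

private theorem X10_smz {z : ℝ} {l m : ℕ} (hl : l ≠ 0) (hm : m ≠ 0) :
    smz z l ≤ smz z (l * m) := by
  classical
  have hlm : l * m ≠ 0 := mul_ne_zero hl hm
  have hpos : 0 < smz z (l * m) := by
    unfold smz
    refine Finset.prod_pos fun p hp => ?_
    exact pow_pos (Nat.prime_of_mem_primeFactors (Finset.mem_filter.mp hp).1).pos _
  refine Nat.le_of_dvd hpos ?_
  unfold smz
  have h1 : ∏ p ∈ l.primeFactors.filter (fun p : ℕ => (p : ℝ) ≤ z), p ^ l.factorization p ∣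
      ∏ p ∈ l.primeFactors.filter (fun p : ℕ => (p : ℝ) ≤ z), p ^ (l * m).factorization p := by
    refine Finset.prod_dvd_prod_of_dvd _ _ fun p _ => ?_
    exact pow_dvd_pow p ((Nat.factorization_le_iff_dvd hl hlm).mpr (Dvd.intro m rfl) p)
  refine h1.trans (Finset.prod_dvd_prod_of_subset _ _ _ ?_)
  exact Finset.filter_subset_filter _ (Nat.primeFactors_mono (Dvd.intro m rfl) hlm)

private theorem X10_exp : Real.exp (1 / 10) ≤ 8 / 7 := by
  have h1 : Real.exp (1 / 10) ^ 10 < (8 / 7 : ℝ) ^ 10 := by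
    rw [← Real.exp_nat_mul]
    have h2 : ((10 : ℕ) : ℝ) * (1 / 10) = 1 := by norm_num
    rw [h2]
    have := Real.exp_one_lt_d9
    norm_num
    linarith
  exact (lt_of_pow_lt_pow_left₀ 10 (by norm_num) h1).le

theorem tX10 (h2 : S_X2) (h3 : S_X3) (h4 : S_X4) : S_X10 := by
  classical
  intro ι _ D C₁ η e hC₁ hη he he'
  obtain ⟨C, Z₂, h2⟩ := h2 ι D
  obtain ⟨D', Z₄, h4⟩ := h4 (C + 2)
  have hev := (Real.tendsto_log_atTop.comp tendsto_natCast_atTop_atTop).eventually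
    ((X10_asym C₁ η e D' hη he).and (eventually_ge_atTop (1 : ℝ)))
  obtain ⟨Z₁, hZ₁⟩ := eventually_atTop.mp hev
  refine ⟨max (max Z₂ Z₄) Z₁, ?_⟩
  intro β ν hloc Z X L A₀ K S hZ hX hL hK hS
  have hZ2 : Z₂ ≤ Z := (le_max_left _ _).trans ((le_max_left _ _).trans hZ)
  have hZ4 : Z₄ ≤ Z := (le_max_right _ _).trans ((le_max_left _ _).trans hZ)
  obtain ⟨hasym, hlam1⟩ := hZ₁ Z ((le_max_right _ _).trans hZ)
  simp only [Function.comp_apply] at hasym hlam1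
  set lam : ℝ := Real.log Z with hlam
  have hlam0 : 0 < lam := lt_of_lt_of_le one_pos hlam1
  have hZpos : 0 < Z := by
    rcases Nat.eq_zero_or_pos Z with h | h
    · rw [hlam, h] at hlam0
      simp at hlam0
    · exact h
  have hZr : (0 : ℝ) < Z := by exact_mod_cast hZpos
  have hZ1r : (1 : ℝ) ≤ Z := by exact_mod_cast hZpos
  -- z₀
  set z₀ : ℕ := zf e Z with hz₀
  have hp1 : 1 ≤ lam ^ (1 - e) := Real.one_le_rpow hlam1 (by linarith)
  have hz2 : 2 ≤ z₀ := by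
    rw [hz₀]
    unfold zf
    refine Nat.le_floor ?_
    have h5 : Real.exp 1 ≤ Real.exp (lam ^ (1 - e)) := Real.exp_le_exp.mpr hp1
    have := Real.exp_one_gt_d9
    push_cast
    linarith
  have hz2r : (2 : ℝ) ≤ z₀ := by exact_mod_cast hz2
  have hz0r : (0 : ℝ) < z₀ := by linarith
  have hlz0 : 0 < Real.log z₀ := Real.log_pos (by linarith)
  have hlz : Real.log z₀ ≤ lam ^ (1 - e) := by
    rw [Real.log_le_iff_le_exp hz0r, hz₀]
    unfold zf
    exact Nat.floor_le (Real.exp_pos _).le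
  set δ : ℝ := 1 / (10 * Real.log z₀) with hδ
  have hδ0 : 0 < δ := by positivity
  have hzδ : (z₀ : ℝ) ^ δ ≤ 8 / 7 := by
    rw [Real.rpow_def_of_pos hz0r]
    have h5 : Real.log z₀ * δ = 1 / 10 := by
      rw [hδ]
      field_simp
    rw [h5]
    exact X10_exp
  -- X
  have hlX : 0 < Real.log X := lt_of_lt_of_le (mul_pos hη hlam0) hX
  have hXpos : 0 < X := by
    rcases Nat.eq_zero_or_pos X with h | h
    · rw [h] at hlX
      simp at hlX
    · exact h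
  have hXr : (0 : ℝ) < X := by exact_mod_cast hXpos
  have hXδ : (X : ℝ) ^ (-δ) ≤ Real.exp (-(η / 10) * lam ^ e) := by
    rw [Real.rpow_def_of_pos hXr]
    apply Real.exp_le_exp.mpr
    have h5 : lam = lam ^ (1 - e) * lam ^ e := by
      rw [← Real.rpow_add hlam0]
      have : 1 - e + e = 1 := by ring
      rw [this, Real.rpow_one]
    have h6 : 0 < lam ^ (1 - e) := by linarith
    have h7 : 0 < lam ^ e := Real.rpow_pos_of_pos hlam0 _
    have h8 : η / 10 * lam ^ e ≤ Real.log X * δ := by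
      rw [hδ, mul_one_div, le_div_iff₀ (by positivity)]
      calc η / 10 * lam ^ e * (10 * Real.log z₀) = η * lam ^ e * Real.log z₀ := by ring
        _ ≤ η * lam ^ e * lam ^ (1 - e) := mul_le_mul_of_nonneg_left hlz (by positivity)
        _ = η * (lam ^ (1 - e) * lam ^ e) := by ring
        _ = η * lam := by rw [← h5]
        _ ≤ Real.log X := hX
    linarith
  have hmem : ∀ m ∈ S, m ∈ Finset.Icc 1 Z := fun m hm => (hS m hm).1
  have hne : ∀ m ∈ S, m ≠ 0 := fun m hm => by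
    have := (Finset.mem_Icc.mp (hmem m hm)).1
    omega
  have hgw0 : ∀ N, 0 ≤ gw C N := by
    intro N
    unfold gw
    split_ifs
    · unfold tc
      positivity
    · exact le_rfl
  have hLn : (0 : ℝ) ≤ (L : ℝ) ^ Fintype.card ι := by positivity
  -- one term
  have hterm : ∀ l ∈ S, ∀ m ∈ S,
      bsum L A₀ (fun a => dco β ν z₀ X l a * dco β ν z₀ X m a) * K l m ≤
        (L : ℝ) ^ Fintype.card ι * C₁ * (gw C (l * m) + ((Z : ℝ) ^ 14)⁻¹) := by
    intro l hl m hm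
    have h5 := (h2 β ν hloc z₀ X Z L A₀ hZ2 hL l (hmem l hl) m (hmem m hm)).1
    have h6 := (hK.2 l (hmem l hl) m (hmem m hm)).1
    have hl1 : (1 : ℝ) ≤ l := by exact_mod_cast (Finset.mem_Icc.mp (hmem l hl)).1
    have hm1 : (1 : ℝ) ≤ m := by exact_mod_cast (Finset.mem_Icc.mp (hmem m hm)).1
    have hlm : (1 : ℝ) ≤ (l : ℝ) * m := one_le_mul_of_one_le_of_one_le hl1 hm1
    have hlm0 : (0 : ℝ) < (l : ℝ) * m := by linarith
    have h7 : (0 : ℝ) ≤ ((Z : ℝ) ^ 14)⁻¹ := by positivity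
    calc bsum L A₀ (fun a => dco β ν z₀ X l a * dco β ν z₀ X m a) * K l m
        ≤ |bsum L A₀ (fun a => dco β ν z₀ X l a * dco β ν z₀ X m a) * K l m| := le_abs_self _
      _ = |bsum L A₀ (fun a => dco β ν z₀ X l a * dco β ν z₀ X m a)| * |K l m| := abs_mul _ _
      _ ≤ ((L : ℝ) ^ Fintype.card ι * (((l * m : ℕ) : ℝ) * gw C (l * m) + ((Z : ℝ) ^ 14)⁻¹)) *
            (C₁ / ((l : ℝ) * m)) := by
          refine mul_le_mul h5 h6 (abs_nonneg _) ?_
          have := hgw0 (l * m)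
          positivity
      _ = (L : ℝ) ^ Fintype.card ι * C₁ *
            (gw C (l * m) + ((Z : ℝ) ^ 14)⁻¹ / ((l : ℝ) * m)) := by
          push_cast
          field_simp
      _ ≤ (L : ℝ) ^ Fintype.card ι * C₁ * (gw C (l * m) + ((Z : ℝ) ^ 14)⁻¹) := by
          refine mul_le_mul_of_nonneg_left ?_ (mul_nonneg hLn hC₁.le)
          have := div_le_self h7 hlm
          linarith
  rw [X10_lin L A₀ S (fun l m a => dco β ν z₀ X l a * dco β ν z₀ X m a) K]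
  have hsum1 : ∑ l ∈ S, ∑ m ∈ S,
      bsum L A₀ (fun a => dco β ν z₀ X l a * dco β ν z₀ X m a) * K l m ≤
      ∑ l ∈ S, ∑ m ∈ S, (L : ℝ) ^ Fintype.card ι * C₁ * (gw C (l * m) + ((Z : ℝ) ^ 14)⁻¹) :=
    Finset.sum_le_sum fun l hl => Finset.sum_le_sum fun m hm => hterm l hl m hm
  refine hsum1.trans ?_
  have hcard : (S.card : ℝ) ≤ Z := by
    have h5 : S.card ≤ (Finset.Icc 1 Z).card := Finset.card_le_card fun m hm => hmem m hm
    rw [Nat.card_Icc] at h5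
    have h6 : S.card ≤ Z := by omega
    exact_mod_cast h6
  have heq : ∑ l ∈ S, ∑ m ∈ S, (L : ℝ) ^ Fintype.card ι * C₁ *
      (gw C (l * m) + ((Z : ℝ) ^ 14)⁻¹) = (L : ℝ) ^ Fintype.card ι * C₁ *
      (∑ q ∈ S ×ˢ S, gw C (q.1 * q.2) + (S.card : ℝ) * S.card * ((Z : ℝ) ^ 14)⁻¹) := by
    rw [Finset.sum_product, mul_add, Finset.mul_sum]
    simp only [mul_add, Finset.sum_add_distrib, Finset.mul_sum, Finset.sum_const, nsmul_eq_mul]
    ring
  rw [heq]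
  have hgsum : ∑ q ∈ S ×ˢ S, gw C (q.1 * q.2) ≤
      Real.exp (-(η / 10) * lam ^ e) * lam ^ D' := by
    have h5 : ∀ q ∈ S ×ˢ S, gw C (q.1 * q.2) ≤
        (X : ℝ) ^ (-δ) * (gw C (q.1 * q.2) * (smz z₀ (q.1 * q.2) : ℝ) ^ δ) := by
      intro q hq
      rw [Finset.mem_product] at hq
      have h6 : X < smz (z₀ : ℝ) q.1 := (hS q.1 hq.1).2
      have h7 : smz (z₀ : ℝ) q.1 ≤ smz z₀ (q.1 * q.2) := X10_smz (hne _ hq.1) (hne _ hq.2)
      have h8 : (X : ℝ) ≤ (smz z₀ (q.1 * q.2) : ℝ) := by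
        exact_mod_cast h6.le.trans h7
      have h9 : 1 ≤ (X : ℝ) ^ (-δ) * (smz z₀ (q.1 * q.2) : ℝ) ^ δ := by
        have h10 : (X : ℝ) ^ δ ≤ (smz z₀ (q.1 * q.2) : ℝ) ^ δ :=
          Real.rpow_le_rpow hXr.le h8 hδ0.le
        have h11 : (X : ℝ) ^ (-δ) * (X : ℝ) ^ δ = 1 := by
          rw [← Real.rpow_add hXr, neg_add_cancel, Real.rpow_zero]
        calc (1 : ℝ) = (X : ℝ) ^ (-δ) * (X : ℝ) ^ δ := h11.symm
          _ ≤ _ := mul_le_mul_of_nonneg_left h10 (Real.rpow_nonneg hXr.le _)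
      calc gw C (q.1 * q.2) = gw C (q.1 * q.2) * 1 := (mul_one _).symm
        _ ≤ gw C (q.1 * q.2) * ((X : ℝ) ^ (-δ) * (smz z₀ (q.1 * q.2) : ℝ) ^ δ) :=
            mul_le_mul_of_nonneg_left h9 (hgw0 _)
        _ = _ := by ring
    have h6 := h3.2.1 C (S ×ˢ S) (fun N => (smz z₀ N : ℝ) ^ δ)
      (fun N => Real.rpow_nonneg (Nat.cast_nonneg _) _)
      (fun q hq => ⟨hne _ (Finset.mem_product.mp hq).1, hne _ (Finset.mem_product.mp hq).2⟩)
    have h7 := h4 Z z₀ δ ((S ×ˢ S).image (fun q : ℕ × ℕ => q.1 * q.2)) hZ4 hδ0.le hzδ (by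
      intro N hN
      rw [Finset.mem_image] at hN
      obtain ⟨q, hq, rfl⟩ := hN
      rw [Finset.mem_product] at hq
      have h8 := (Finset.mem_Icc.mp (hmem _ hq.1)).2
      have h9 := (Finset.mem_Icc.mp (hmem _ hq.2)).2
      calc q.1 * q.2 ≤ Z * Z := Nat.mul_le_mul h8 h9
        _ = Z ^ 2 := (sq Z).symm
        _ ≤ Z ^ 4 := Nat.pow_le_pow_right hZpos (by norm_num))
    calc ∑ q ∈ S ×ˢ S, gw C (q.1 * q.2)
        ≤ ∑ q ∈ S ×ˢ S, (X : ℝ) ^ (-δ) * (gw C (q.1 * q.2) * (smz z₀ (q.1 * q.2) : ℝ) ^ δ) :=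
          Finset.sum_le_sum h5
      _ = (X : ℝ) ^ (-δ) * ∑ q ∈ S ×ˢ S, gw C (q.1 * q.2) * (smz z₀ (q.1 * q.2) : ℝ) ^ δ := by
          rw [Finset.mul_sum]
      _ ≤ Real.exp (-(η / 10) * lam ^ e) * lam ^ D' := by
          refine mul_le_mul hXδ (h6.trans h7) ?_ (Real.exp_pos _).le
          exact Finset.sum_nonneg fun q _ =>
            mul_nonneg (hgw0 _) (Real.rpow_nonneg (Nat.cast_nonneg _) _)
  have htail : (S.card : ℝ) * S.card * ((Z : ℝ) ^ 14)⁻¹ ≤ Real.exp (-lam) := by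
    have h5 : Real.exp (-lam) = (Z : ℝ)⁻¹ := by
      rw [Real.exp_neg, hlam, Real.exp_log hZr]
    rw [h5]
    have h6 : (S.card : ℝ) * S.card ≤ Z * Z :=
      mul_le_mul hcard hcard (Nat.cast_nonneg _) hZr.le
    calc (S.card : ℝ) * S.card * ((Z : ℝ) ^ 14)⁻¹ ≤ Z * Z * ((Z : ℝ) ^ 14)⁻¹ :=
          mul_le_mul_of_nonneg_right h6 (by positivity)
      _ = ((Z : ℝ) ^ 12)⁻¹ := by
          field_simp
      _ ≤ (Z : ℝ)⁻¹ := by
          refine inv_anti₀ hZr ?_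
          calc (Z : ℝ) = Z ^ 1 := (pow_one _).symm
            _ ≤ Z ^ 12 := pow_le_pow_right₀ hZ1r (by norm_num)
  calc (L : ℝ) ^ Fintype.card ι * C₁ *
        (∑ q ∈ S ×ˢ S, gw C (q.1 * q.2) + (S.card : ℝ) * S.card * ((Z : ℝ) ^ 14)⁻¹)
      ≤ (L : ℝ) ^ Fintype.card ι * C₁ *
        (Real.exp (-(η / 10) * lam ^ e) * lam ^ D' + Real.exp (-lam)) :=
        mul_le_mul_of_nonneg_left (add_le_add hgsum htail) (mul_nonneg hLn hC₁.le)
    _ = (L : ℝ) ^ Fintype.card ι *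
        (C₁ * (Real.exp (-(η / 10) * lam ^ e) * lam ^ D' + Real.exp (-lam))) := by ring
    _ ≤ (L : ℝ) ^ Fintype.card ι * lam⁻¹ := mul_le_mul_of_nonneg_left hasym hLn

end MP7ed9c3.Pz
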