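import Pool.Agent.Lib.MP_7ed9c3_nt.Pz.SpecMx

/-!
# MP_7ed9c3_nt, part Pz.  X11: the diagonal (from `Tz.S_Equi`)
-/

set_option autoImplicit false

namespace MP7ed9c3.Pz

open MP7ed9c3.Tz

private lemma X11_mean_le {ι : Type} [Fintype ι] (p : ℕ) (hp : 0 < p) (h : (ι → ℤ) → ℝ) (H : ℝ)
    (h0 : ∀ a, 0 ≤ h a) (hH : ∀ a, h a ≤ H) : 0 ≤ mean p h ∧ mean p h ≤ H := by
  classical
  have hp' : (0 : ℝ) < (p : ℝ) ^ Fintype.card ι := by positivity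
  unfold mean
  refine ⟨div_nonneg (Finset.sum_nonneg fun _ _ => h0 _) hp'.le, ?_⟩
  rw [div_le_iff₀ hp']
  refine (Finset.sum_le_sum fun a _ => hH _).trans_eq ?_
  rw [Finset.sum_const, Finset.card_univ, nsmul_eq_mul, Fintype.card_fun, Fintype.card_fin]
  push_cast
  ring

private lemma X11_mean_sub {ι : Type} [Fintype ι] (p : ℕ) (hp : 0 < p) (h : (ι → ℤ) → ℝ) :
    mean p (fun a => h a - mean p h) = 0 := by
  classical
  have hp' : (p : ℝ) ^ Fintype.card ι ≠ 0 := by positivity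
  obtain ⟨c, hc⟩ : ∃ c, mean p h = c := ⟨_, rfl⟩
  rw [hc]
  unfold mean at hc ⊢
  rw [Finset.sum_sub_distrib, Finset.sum_const, Finset.card_univ, nsmul_eq_mul, Fintype.card_fun,
    Fintype.card_fin, sub_div, hc]
  push_cast
  field_simp
  ring

private lemma X11_expand {ι : Type} [Fintype ι] (L : ℕ) (A₀ : ι → ℤ) (T : Finset ℕ) (w : ℕ → ℝ)
    (f : ℕ → (ι → ℤ) → ℝ) :
    bsum L A₀ (fun a => (∑ p ∈ T, w p * f p a) ^ 2) =
      ∑ p ∈ T, ∑ q ∈ T, w p * w q * bsum L A₀ (fun a => f p a * f q a) := by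
  classical
  unfold bsum
  have h1 : ∀ a : ι → Fin L, (∑ p ∈ T, w p * f p (fun i => A₀ i + ((a i : ℕ) : ℤ))) ^ 2 =
      ∑ p ∈ T, ∑ q ∈ T, (w p * f p (fun i => A₀ i + ((a i : ℕ) : ℤ))) *
        (w q * f q (fun i => A₀ i + ((a i : ℕ) : ℤ))) := by
    intro a
    rw [sq, Finset.sum_mul_sum]
  rw [Finset.sum_congr rfl fun a _ => h1 a, Finset.sum_comm]
  refine Finset.sum_congr rfl fun p _ => ?_
  rw [Finset.sum_comm]
  refine Finset.sum_congr rfl fun q _ => ?_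
  rw [Finset.mul_sum]
  refine Finset.sum_congr rfl fun a _ => ?_
  ring

private lemma X11_diag {ι : Type} [Fintype ι] (L : ℕ) (A₀ : ι → ℤ) (f : (ι → ℤ) → ℝ) (H : ℝ)
    (hf : ∀ a, |f a| ≤ H) :
    |bsum L A₀ (fun a => f a * f a)| ≤ (L : ℝ) ^ Fintype.card ι * H ^ 2 := by
  classical
  unfold bsum
  refine (Finset.abs_sum_le_sum_abs _ _).trans ?_
  have h1 : ∀ a ∈ (Finset.univ : Finset (ι → Fin L)),
      |f (fun i => A₀ i + ((a i : ℕ) : ℤ)) * f (fun i => A₀ i + ((a i : ℕ) : ℤ))| ≤ H ^ 2 := by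
    intro a _
    rw [abs_mul, sq]
    have h2 := hf (fun i => A₀ i + ((a i : ℕ) : ℤ))
    exact mul_le_mul h2 h2 (abs_nonneg _) ((abs_nonneg _).trans h2)
  refine (Finset.sum_le_sum h1).trans_eq ?_
  rw [Finset.sum_const, Finset.card_univ, nsmul_eq_mul, Fintype.card_fun, Fintype.card_fin]
  push_cast
  ring

private lemma X11_pair (h : MP7ed9c3.Tz.S_Equi) {ι : Type} [Fintype ι] (L : ℕ) (A₀ : ι → ℤ)
    (f : ℕ → (ι → ℤ) → ℝ) (H : ℕ → ℝ) (p q : ℕ) (hpq : p ≠ q) (hp : p.Prime) (hq : q.Prime)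
    (hPp : Per p (f p)) (hPq : Per q (f q)) (hHp : ∀ a, |f p a| ≤ H p) (hHq : ∀ a, |f q a| ≤ H q)
    (hm : mean p (f p) = 0) (hL : p * q ≤ L) :
    |bsum L A₀ (fun a => f p a * f q a)| * L ≤
      2 * Fintype.card ι * ((p : ℝ) * q) * (L : ℝ) ^ Fintype.card ι * (H p * H q) := by
  have h1 := h ι {p, q} f H L A₀ (by
    intro x hx
    rw [Finset.mem_insert, Finset.mem_singleton] at hx
    rcases hx with rfl | rfl
    · exact ⟨hp, hPp, hHp⟩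
    · exact ⟨hq, hPq, hHq⟩) (by rw [Finset.prod_pair hpq]; exact hL)
  rw [Finset.prod_pair hpq, Finset.prod_pair hpq, Finset.prod_pair hpq, hm, zero_mul, mul_zero,
    sub_zero] at h1
  have h2 : (fun a => ∏ x ∈ ({p, q} : Finset ℕ), f x a) = fun a => f p a * f q a := by
    funext a
    rw [Finset.prod_pair hpq]
  rw [h2] at h1
  exact h1

private lemma X11_sum (z Z : ℕ) (hz : 3 ≤ z) (hzZ : z ≤ Z) :
    ∑ p ∈ pr z Z, ((p : ℝ) ^ 2)⁻¹ ≤ 1 / z := by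
  have h1 : ∑ p ∈ pr z Z, ((p : ℝ) ^ 2)⁻¹ ≤ ∑ p ∈ Finset.Ioc z Z, ((p : ℝ) ^ 2)⁻¹ := by
    refine Finset.sum_le_sum_of_subset_of_nonneg (Finset.filter_subset _ _) fun p _ _ => ?_
    positivity
  have h2 := sum_Ioc_inv_sq_le_sub (α := ℝ) (by omega : z ≠ 0) hzZ
  have h3 : (0 : ℝ) ≤ (Z : ℝ)⁻¹ := by positivity
  rw [one_div]
  linarith

private lemma X11_card (z Z : ℕ) : ((pr z Z).card : ℝ) ≤ Z := by
  have h1 : (pr z Z).card ≤ (Finset.Ioc z Z).card := Finset.card_filter_le _ _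
  rw [Nat.card_Ioc] at h1
  exact_mod_cast h1.trans (Nat.sub_le _ _)

theorem tX11 (hE : MP7ed9c3.Tz.S_Equi) : S_X11 := by
  intro ι _ D C₁ hC₁
  obtain ⟨n, hn⟩ : ∃ n : ℕ, Fintype.card ι = n := ⟨_, rfl⟩
  obtain ⟨E, hEdef⟩ : ∃ E : ℝ, (2 ^ D) ^ 2 = E := ⟨_, rfl⟩
  have hE0 : 0 < E := by
    rw [← hEdef]
    positivity
  refine ⟨(2 * n + 1) * E ^ 2 * C₁ ^ 2, by positivity, ?_⟩
  intro β ν hLD z Z L A₀ w hz hzZ hZL hw
  rw [hn]
  obtain ⟨f, hf⟩ : ∃ f : ℕ → (ι → ℤ) → ℝ,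
      f = fun p a => β p 1 a ^ 2 - mean p (fun a => β p 1 a ^ 2) := ⟨_, rfl⟩
  have hmem : ∀ p ∈ pr z Z, p.Prime ∧ 3 < p ∧ p ≤ Z := by
    intro p hp
    unfold pr at hp
    rw [Finset.mem_filter, Finset.mem_Ioc] at hp
    exact ⟨hp.2, by omega, hp.1.2⟩
  have hsq : ∀ p ∈ pr z Z, ∀ a, 0 ≤ β p 1 a ^ 2 ∧ β p 1 a ^ 2 ≤ E * p := by
    intro p hp a
    obtain ⟨hp1, hp2, -⟩ := hmem p hp
    refine ⟨sq_nonneg _, ?_⟩
    have h1 := ((hLD p hp1 hp2).2.2.1 1 a).1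
    have h2 : (((1 : ℕ) : ℝ) + 1) ^ D * √(p : ℝ) ^ 1 = 2 ^ D * √(p : ℝ) := by norm_num
    rw [h2] at h1
    have h3 : β p 1 a ^ 2 = |β p 1 a| ^ 2 := (sq_abs _).symm
    rw [h3]
    have h4 : |β p 1 a| ^ 2 ≤ (2 ^ D * √(p : ℝ)) ^ 2 := pow_le_pow_left₀ (abs_nonneg _) h1 2
    rw [mul_pow, hEdef, Real.sq_sqrt (Nat.cast_nonneg _)] at h4
    exact h4
  have hfb : ∀ p ∈ pr z Z, ∀ a, |f p a| ≤ E * p := by
    intro p hp a
    obtain ⟨hp1, -, -⟩ := hmem p hp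
    obtain ⟨m0, m1⟩ := X11_mean_le p hp1.pos (fun a => β p 1 a ^ 2) (E * p)
      (fun a => (hsq p hp a).1) (fun a => (hsq p hp a).2)
    obtain ⟨b0, b1⟩ := hsq p hp a
    rw [hf, abs_le]
    constructor
    · show -(E * p) ≤ β p 1 a ^ 2 - mean p (fun a => β p 1 a ^ 2)
      linarith
    · show β p 1 a ^ 2 - mean p (fun a => β p 1 a ^ 2) ≤ E * p
      linarith
  have hfP : ∀ p ∈ pr z Z, Per p (f p) := by
    intro p hp a b
    obtain ⟨hp1, hp2, -⟩ := hmem p hp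
    rw [hf]
    show β p 1 (a + (p : ℤ) • b) ^ 2 - _ = β p 1 a ^ 2 - _
    rw [((hLD p hp1 hp2).1 1).1 a b]
  have hfm : ∀ p ∈ pr z Z, mean p (f p) = 0 := by
    intro p hp
    obtain ⟨hp1, -, -⟩ := hmem p hp
    rw [hf]
    exact X11_mean_sub p hp1.pos _
  have hexp := X11_expand L A₀ (pr z Z) w f
  have hgoal : (fun a => (∑ p ∈ pr z Z, w p * (β p 1 a ^ 2 - mean p (fun a => β p 1 a ^ 2))) ^ 2) =
      fun a => (∑ p ∈ pr z Z, w p * f p a) ^ 2 := by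
    rw [hf]
  rw [hgoal, hexp]
  have hz0 : (0 : ℝ) < z := by
    have : 0 < z := by omega
    exact_mod_cast this
  have hZ0 : (0 : ℝ) < Z := by
    have : 0 < Z := by omega
    exact_mod_cast this
  have hLpos : 0 < L := lt_of_lt_of_le (pow_pos (by omega) 24) hZL
  have hL0 : (0 : ℝ) < L := by exact_mod_cast hLpos
  obtain ⟨A, hA⟩ : ∃ A : ℝ, (L : ℝ) ^ n = A := ⟨_, rfl⟩
  have hA0 : 0 ≤ A := by
    rw [← hA]
    positivity
  rw [hA]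
  have hterm : ∀ p ∈ pr z Z, ∀ q ∈ pr z Z,
      w p * w q * bsum L A₀ (fun a => f p a * f q a) ≤
        (if p = q then A * (E ^ 2 * C₁ ^ 2) * ((p : ℝ) ^ 2)⁻¹ else 0) +
          A * (2 * n * E ^ 2 * C₁ ^ 2) / L := by
    intro p hp q hq
    obtain ⟨hp1, hp2, hp3⟩ := hmem p hp
    obtain ⟨hq1, hq2, hq3⟩ := hmem q hq
    have hp0 : (0 : ℝ) < p := by exact_mod_cast hp1.pos
    have hq0 : (0 : ℝ) < q := by exact_mod_cast hq1.pos
    have hs : 0 ≤ A * (2 * n * E ^ 2 * C₁ ^ 2) / L := by positivity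
    refine (le_abs_self _).trans ?_
    rw [abs_mul, abs_mul]
    have hww : |w p| * |w q| ≤ C₁ / (p : ℝ) ^ 2 * (C₁ / (q : ℝ) ^ 2) :=
      mul_le_mul (hw p hp) (hw q hq) (abs_nonneg _) (by positivity)
    by_cases hpq : p = q
    · subst hpq
      rw [if_pos rfl]
      have h1 := X11_diag L A₀ (f p) (E * p) (hfb p hp)
      rw [hn, hA] at h1
      have h2 : |w p| * |w p| * |bsum L A₀ (fun a => f p a * f p a)| ≤
          C₁ / (p : ℝ) ^ 2 * (C₁ / (p : ℝ) ^ 2) * (A * (E * p) ^ 2) :=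
        mul_le_mul hww h1 (abs_nonneg _) (by positivity)
      have h3 : C₁ / (p : ℝ) ^ 2 * (C₁ / (p : ℝ) ^ 2) * (A * (E * p) ^ 2) =
          A * (E ^ 2 * C₁ ^ 2) * ((p : ℝ) ^ 2)⁻¹ := by
        field_simp
      rw [h3] at h2
      linarith
    · rw [if_neg hpq, zero_add]
      have hpqL : p * q ≤ L := by
        have h4 : p * q ≤ Z * Z := Nat.mul_le_mul hp3 hq3
        have h5 : Z * Z ≤ Z ^ 24 := by
          rw [← sq]
          exact Nat.pow_le_pow_right (by omega) (by norm_num)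
        exact h4.trans (h5.trans hZL)
      have h1 := X11_pair hE L A₀ f (fun x => E * x) p q hpq hp1 hq1 (hfP p hp) (hfP q hq)
        (hfb p hp) (hfb q hq) (hfm p hp) hpqL
      rw [hn, hA] at h1
      have h2 : |bsum L A₀ (fun a => f p a * f q a)| ≤
          2 * n * ((p : ℝ) * q) * A * (E * p * (E * q)) / L := by
        rw [le_div_iff₀ hL0]
        exact h1
      have h3 : |w p| * |w q| * |bsum L A₀ (fun a => f p a * f q a)| ≤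
          C₁ / (p : ℝ) ^ 2 * (C₁ / (q : ℝ) ^ 2) *
            (2 * n * ((p : ℝ) * q) * A * (E * p * (E * q)) / L) :=
        mul_le_mul hww h2 (abs_nonneg _) (by positivity)
      have h4 : C₁ / (p : ℝ) ^ 2 * (C₁ / (q : ℝ) ^ 2) *
            (2 * n * ((p : ℝ) * q) * A * (E * p * (E * q)) / L) =
          A * (2 * n * E ^ 2 * C₁ ^ 2) / L := by
        field_simp
      rw [h4] at h3
      exact h3
  have hS1 : ∑ p ∈ pr z Z, ∑ q ∈ pr z Z, w p * w q * bsum L A₀ (fun a => f p a * f q a) ≤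
      ∑ p ∈ pr z Z, ∑ q ∈ pr z Z, ((if p = q then A * (E ^ 2 * C₁ ^ 2) * ((p : ℝ) ^ 2)⁻¹ else 0) +
          A * (2 * n * E ^ 2 * C₁ ^ 2) / L) :=
    Finset.sum_le_sum fun p hp => Finset.sum_le_sum fun q hq => hterm p hp q hq
  have hS2 : ∑ p ∈ pr z Z, ∑ q ∈ pr z Z, ((if p = q then A * (E ^ 2 * C₁ ^ 2) * ((p : ℝ) ^ 2)⁻¹
      else 0) + A * (2 * n * E ^ 2 * C₁ ^ 2) / L) =
      A * (E ^ 2 * C₁ ^ 2) * ∑ p ∈ pr z Z, ((p : ℝ) ^ 2)⁻¹ +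
        ((pr z Z).card : ℝ) * (((pr z Z).card : ℝ) * (A * (2 * n * E ^ 2 * C₁ ^ 2) / L)) := by
    have h1 : ∀ p ∈ pr z Z, ∑ q ∈ pr z Z, ((if p = q then A * (E ^ 2 * C₁ ^ 2) * ((p : ℝ) ^ 2)⁻¹
        else 0) + A * (2 * n * E ^ 2 * C₁ ^ 2) / L) = A * (E ^ 2 * C₁ ^ 2) * ((p : ℝ) ^ 2)⁻¹ +
          ((pr z Z).card : ℝ) * (A * (2 * n * E ^ 2 * C₁ ^ 2) / L) := by
      intro p hp
      rw [Finset.sum_add_distrib, Finset.sum_ite_eq, if_pos hp, Finset.sum_const, nsmul_eq_mul]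
    rw [Finset.sum_congr rfl h1, Finset.sum_add_distrib, Finset.sum_const, nsmul_eq_mul,
      Finset.mul_sum]
  rw [hS2] at hS1
  refine hS1.trans ?_
  have h1 := X11_sum z Z hz hzZ
  have h2 := X11_card z Z
  have h3 : A * (E ^ 2 * C₁ ^ 2) * ∑ p ∈ pr z Z, ((p : ℝ) ^ 2)⁻¹ ≤
      A * (E ^ 2 * C₁ ^ 2) * (1 / z) := mul_le_mul_of_nonneg_left h1 (by positivity)
  have h4 : ((pr z Z).card : ℝ) * (((pr z Z).card : ℝ) * (A * (2 * n * E ^ 2 * C₁ ^ 2) / L)) ≤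
      (Z : ℝ) * ((Z : ℝ) * (A * (2 * n * E ^ 2 * C₁ ^ 2) / L)) := by
    have h5 : 0 ≤ A * (2 * n * E ^ 2 * C₁ ^ 2) / L := by positivity
    exact mul_le_mul h2 (mul_le_mul_of_nonneg_right h2 h5) (by positivity) (by positivity)
  have h5 : (Z : ℝ) * Z / L ≤ 1 / z := by
    rw [div_le_div_iff₀ hL0 hz0, one_mul]
    have h6 : Z * Z * z ≤ L := by
      have h7 : Z * Z * z ≤ Z * Z * Z := Nat.mul_le_mul_left _ hzZ
      have h8 : Z * Z * Z = Z ^ 3 := by ring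
      have h9 : Z ^ 3 ≤ Z ^ 24 := Nat.pow_le_pow_right (by omega) (by norm_num)
      rw [h8] at h7
      exact h7.trans (h9.trans hZL)
    exact_mod_cast h6
  have h6 : (Z : ℝ) * ((Z : ℝ) * (A * (2 * n * E ^ 2 * C₁ ^ 2) / L)) =
      A * (2 * n * E ^ 2 * C₁ ^ 2) * ((Z : ℝ) * Z / L) := by ring
  have h7 : A * (2 * n * E ^ 2 * C₁ ^ 2) * ((Z : ℝ) * Z / L) ≤
      A * (2 * n * E ^ 2 * C₁ ^ 2) * (1 / z) := mul_le_mul_of_nonneg_left h5 (by positivity)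
  have h8 : A * ((2 * n + 1) * E ^ 2 * C₁ ^ 2 / z) =
      A * (E ^ 2 * C₁ ^ 2) * (1 / z) + A * (2 * n * E ^ 2 * C₁ ^ 2) * (1 / z) := by ring
  rw [h8]
  linarith

end MP7ed9c3.Pz
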