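import Pool.Agent.Lib.MP_7ed9c3_nt.Pz.SpecMx

/-!
# MP_7ed9c3_nt, part Pz, module X3 (helper61): from pairs and quadruples to products
-/

set_option autoImplicit false

namespace MP7ed9c3.Pz

open MP7ed9c3.Tz

private theorem X3_gen (hg : S_Mg) {α : Type} {κ : Type} [Fintype κ] (T : α → κ → ℕ)
    (hT : Function.Injective T) (Q : Finset α) (P : α → ℕ) (hP : ∀ q, ∏ i, T q i = P q) (G : ℕ → ℝ)
    (hG : ∀ N, 0 ≤ G N) (h0 : ∀ q ∈ Q, ∀ i, T q i ≠ 0) :
    ∑ q ∈ Q, G (P q) ≤ ∑ N ∈ Q.image P, tc (Fintype.card κ) N * G N := by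
  classical
  have h := hg κ (Q.image T) G hG (by
    intro m hm i
    obtain ⟨q, hq, rfl⟩ := Finset.mem_image.mp hm
    exact h0 q hq i)
  rw [Finset.sum_image (fun a _ b _ hab => hT hab), Finset.image_image] at h
  have h1 : ((fun m : κ → ℕ => ∏ i, m i) ∘ T) = P := funext hP
  rw [h1] at h
  simpa only [hP] using h

private theorem X3_gw_nonneg (C N : ℕ) : 0 ≤ gw C N := by
  unfold gw
  split_ifs
  · unfold tc
    positivity
  · exact le_rfl

private theorem X3_tc_gw (j C N : ℕ) : tc j N * gw C N = gw (C + j) N := by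
  unfold gw
  split_ifs
  · unfold tc
    rw [pow_add]
    ring
  · simp

private theorem X3_pair : Function.Injective (fun q : ℕ × ℕ => ![q.1, q.2]) := by
  intro a b hab
  have h0 := congrFun hab 0
  have h1 := congrFun hab 1
  simp only [Matrix.cons_val_zero, Matrix.cons_val_one] at h0 h1
  exact Prod.ext h0 h1

private theorem X3_quad :
    Function.Injective (fun q : (ℕ × ℕ) × (ℕ × ℕ) => ![q.1.1, q.1.2, q.2.1, q.2.2]) := by
  intro a b hab
  have h0 := congrFun hab 0
  have h1 := congrFun hab 1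
  have h2 := congrFun hab 2
  have h3 := congrFun hab 3
  simp only [Matrix.cons_val_zero, Matrix.cons_val_one, Matrix.cons_val] at h0 h1 h2 h3
  exact Prod.ext (Prod.ext h0 h1) (Prod.ext h2 h3)

theorem tX3 (hg : S_Mg) : S_X3 := by
  have key : ∀ (C : ℕ) (Q : Finset (ℕ × ℕ)) (G : ℕ → ℝ), (∀ N, 0 ≤ G N) →
      (∀ q ∈ Q, q.1 ≠ 0 ∧ q.2 ≠ 0) →
      ∑ q ∈ Q, gw C (q.1 * q.2) * G (q.1 * q.2) ≤
        ∑ N ∈ Q.image (fun q => q.1 * q.2), gw (C + 2) N * G N := by
    intro C Q G hG hQ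
    have h := X3_gen hg (fun q : ℕ × ℕ => ![q.1, q.2]) X3_pair Q (fun q => q.1 * q.2)
      (fun q => by simp [Fin.prod_univ_two]) (fun N => gw C N * G N)
      (fun N => mul_nonneg (X3_gw_nonneg C N) (hG N)) (by
        intro q hq i
        fin_cases i
        · exact (hQ q hq).1
        · exact (hQ q hq).2)
    refine h.trans (le_of_eq (Finset.sum_congr rfl fun N _ => ?_))
    rw [Fintype.card_fin, ← mul_assoc, X3_tc_gw]
  refine ⟨?_, key, ?_⟩
  · intro C Q hQ
    have h := key C Q (fun _ => 1) (fun _ => zero_le_one) hQ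
    simpa only [mul_one] using h
  · intro C Q hQ
    have h := X3_gen hg (fun q : (ℕ × ℕ) × (ℕ × ℕ) => ![q.1.1, q.1.2, q.2.1, q.2.2]) X3_quad Q
      (fun q => q.1.1 * q.1.2 * (q.2.1 * q.2.2))
      (fun q => by simp [Fin.prod_univ_four, mul_assoc]) (fun N => gw C N)
      (fun N => X3_gw_nonneg C N) (by
        intro q hq i
        fin_cases i
        · exact (hQ q hq).1.1
        · exact (hQ q hq).1.2
        · exact (hQ q hq).2.1
        · exact (hQ q hq).2.2)
    refine h.trans (le_of_eq (Finset.sum_congr rfl fun N _ => ?_))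
    rw [Fintype.card_fin, X3_tc_gw]

end MP7ed9c3.Pz
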