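import Pool.Agent.Lib.MP_7ed9c3_nt.Pz.SpecMx

/-! MP_7ed9c3_nt, part Pz, module X4: the sum over all powerful integers. -/

set_option autoImplicit false

namespace MP7ed9c3.Pz

open MP7ed9c3.Tz

private lemma X4_five {N p : ℕ} (hN : N.Coprime 6) (hp : p ∈ N.primeFactors) : 5 ≤ p := by
  have hpp := Nat.prime_of_mem_primeFactors hp
  have hd := Nat.dvd_of_mem_primeFactors hp
  by_contra h
  have h2 := hpp.two_le
  have h4 : p = 2 ∨ p = 3 ∨ p = 4 := by omega
  have hco : p.Coprime 6 := Nat.Coprime.coprime_dvd_left hd hN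
  rcases h4 with h4 | h4 | h4
  · rw [h4] at hco
    exact absurd hco (by decide)
  · rw [h4] at hco
    exact absurd hco (by decide)
  · rw [h4] at hpp
    exact absurd hpp (by decide)

private lemma X4_log {p : ℕ} (hp : 5 ≤ p) : 1 ≤ Real.log p := by
  have h5 : (5 : ℝ) ≤ p := by exact_mod_cast hp
  rw [Real.le_log_iff_exp_le (by linarith)]
  linarith [Real.exp_one_lt_d9]

theorem tX4 (hf : S_Mf) (hc : S_Mc) : S_X4 := by
  classical
  intro C
  obtain ⟨D, hD0, hD⟩ := hf C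
  refine ⟨⌈8 * D⌉₊, ⌈Real.exp (4 * Real.exp 1)⌉₊, ?_⟩
  intro Z z δ T hZ hδ hz hT
  have hZe : Real.exp (4 * Real.exp 1) ≤ (Z : ℝ) :=
    (Nat.le_ceil _).trans (by exact_mod_cast hZ)
  have hZ0 : (0 : ℝ) < Z := lt_of_lt_of_le (Real.exp_pos _) hZe
  have hlam : 4 * Real.exp 1 ≤ Real.log Z := (Real.le_log_iff_exp_le hZ0).2 hZe
  have he1 : (1 : ℝ) ≤ Real.exp 1 := by
    have := Real.add_one_le_exp (1 : ℝ)
    linarith
  have hlam0 : 0 < Real.log Z := by linarith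
  set S : Finset ℕ := (Finset.range (Z ^ 4 + 1)).filter (fun p => p.Prime ∧ 5 ≤ p) with hS
  have hS1 : ∀ p ∈ S, p.Prime ∧ 5 ≤ p := fun p hp => (Finset.mem_filter.1 hp).2
  -- drop the terms which are zero
  have h1 : ∑ N ∈ T, gw C N * (smz z N : ℝ) ^ δ =
      ∑ N ∈ T.filter Pg, (√(N : ℝ))⁻¹ * tc C N * (smz z N : ℝ) ^ δ := by
    rw [Finset.sum_filter]
    refine Finset.sum_congr rfl fun N _ => ?_
    unfold gw
    by_cases h : Pg N
    · rw [if_pos h, if_pos h]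
    · rw [if_neg h, if_neg h, zero_mul]
  have h2 : ∑ N ∈ T.filter Pg, (√(N : ℝ))⁻¹ * tc C N * (smz z N : ℝ) ^ δ ≤
      Real.exp (D * ∑ p ∈ S, (1 : ℝ) / p) := by
    refine hD S (T.filter Pg) z δ hδ hz hS1 ?_
    intro N hN
    obtain ⟨hNT, h0, hP, hco⟩ := Finset.mem_filter.1 hN
    refine ⟨h0, fun p hp => ?_, hP⟩
    refine Finset.mem_filter.2 ⟨Finset.mem_range.2 ?_, Nat.prime_of_mem_primeFactors hp,
      X4_five hco hp⟩
    exact Nat.lt_succ_of_le ((Nat.le_of_mem_primeFactors hp).trans (hT N hNT))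
  have h3 : ∑ p ∈ S, (1 : ℝ) / p ≤ 4 + 4 * Real.log (4 * Real.log Z / 1) := by
    refine hc 1 (4 * Real.log Z) S le_rfl (by linarith) ?_
    intro p hp
    obtain ⟨hp1, hp5⟩ := hS1 p hp
    refine ⟨hp1, X4_log hp5, ?_⟩
    have hpZ : (p : ℝ) ≤ (Z : ℝ) ^ 4 := by
      have := Nat.lt_succ_iff.1 (Finset.mem_range.1 (Finset.mem_filter.1 hp).1)
      exact_mod_cast this
    have hp0 : (0 : ℝ) < p := by exact_mod_cast hp1.pos
    calc Real.log p ≤ Real.log ((Z : ℝ) ^ 4) := Real.log_le_log hp0 hpZ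
      _ = 4 * Real.log Z := by
        rw [Real.log_pow]
        norm_num
  have h4 : 1 + Real.log 4 ≤ Real.log (Real.log Z) := by
    have h5 : Real.log (4 * Real.exp 1) = Real.log 4 + 1 := by
      rw [Real.log_mul (by norm_num) (Real.exp_pos 1).ne', Real.log_exp]
    have h6 : Real.log (4 * Real.exp 1) ≤ Real.log (Real.log Z) :=
      Real.log_le_log (by positivity) hlam
    linarith
  have h7 : Real.log (4 * Real.log Z / 1) = Real.log 4 + Real.log (Real.log Z) := by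
    rw [div_one, Real.log_mul (by norm_num) hlam0.ne']
  have h8 : 0 ≤ Real.log (Real.log Z) := by
    have : 0 ≤ Real.log 4 := Real.log_nonneg (by norm_num)
    linarith
  have h9 : D * ∑ p ∈ S, (1 : ℝ) / p ≤ (⌈8 * D⌉₊ : ℝ) * Real.log (Real.log Z) := by
    have h10 : ∑ p ∈ S, (1 : ℝ) / p ≤ 8 * Real.log (Real.log Z) := by
      rw [h7] at h3
      linarith
    calc D * ∑ p ∈ S, (1 : ℝ) / p ≤ D * (8 * Real.log (Real.log Z)) :=
          mul_le_mul_of_nonneg_left h10 hD0.le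
      _ = 8 * D * Real.log (Real.log Z) := by ring
      _ ≤ _ := mul_le_mul_of_nonneg_right (Nat.le_ceil _) h8
  rw [h1]
  refine h2.trans ((Real.exp_le_exp.2 h9).trans (le_of_eq ?_))
  rw [Real.exp_nat_mul, Real.exp_log hlam0]

end MP7ed9c3.Pz
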