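import Pool.Agent.Lib.MP_7ed9c3_nt.Pz.SpecMx

/-!
# MP_7ed9c3_nt, part Pz.  X5: powerful integers without small prime factors
-/

set_option autoImplicit false

namespace MP7ed9c3.Pz

open MP7ed9c3.Tz

private theorem X5_sum_eq (C : ℕ) (T : Finset ℕ) : ∃ T' : Finset ℕ,
    (∀ N, N ∈ T' ↔ N ∈ T ∧ Pg N) ∧
    ∑ N ∈ T, gw C N = ∑ N ∈ T', (√(N : ℝ))⁻¹ * tc C N * (smz 1 N : ℝ) ^ (0 : ℝ) := by
  classical
  refine ⟨T.filter (fun N => Pg N), fun N => Finset.mem_filter, ?_⟩
  rw [Finset.sum_filter]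
  refine Finset.sum_congr rfl fun N _ => ?_
  unfold gw
  by_cases h : Pg N
  · simp [h]
  · simp [h]

private theorem X5_five {p N : ℕ} (hp : p.Prime) (hN : N.Coprime 6) (hpN : p ∣ N) : 5 ≤ p := by
  have h2 : p ≠ 2 := by
    rintro rfl
    have h := Nat.dvd_gcd hpN (by norm_num : 2 ∣ 6)
    rw [hN] at h
    norm_num at h
  have h3 : p ≠ 3 := by
    rintro rfl
    have h := Nat.dvd_gcd hpN (by norm_num : 3 ∣ 6)
    rw [hN] at h
    norm_num at h
  have h4 : p ≠ 4 := by
    rintro rfl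
    norm_num at hp
  have := hp.two_le
  omega

theorem tX5 (hf : S_Mf) (hc : S_Mc) : S_X5 := by
  intro C
  obtain ⟨D, hD, hfD⟩ := hf C
  refine ⟨4 * D + 1, by positivity, ?_⟩
  intro e he he3
  set A : ℝ := 4 * D * (1 + Real.log 4) / e with hA
  have hlog4 : 0 ≤ Real.log 4 := Real.log_nonneg (by norm_num)
  have hA0 : 0 ≤ A := by positivity
  refine ⟨⌈Real.exp (Real.exp A)⌉₊, ?_⟩
  intro Z T hZ hT
  have hZr : Real.exp (Real.exp A) ≤ (Z : ℝ) := (Nat.le_ceil _).trans (by exact_mod_cast hZ)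
  have hZpos : (0 : ℝ) < Z := (Real.exp_pos _).trans_le hZr
  have hlam : Real.exp A ≤ Real.log Z := by
    rw [Real.le_log_iff_exp_le hZpos]
    exact hZr
  have hlam1 : (1 : ℝ) ≤ Real.log Z := (Real.one_le_exp hA0).trans hlam
  have hlam0 : (0 : ℝ) < Real.log Z := by linarith
  have hloglam : A ≤ Real.log (Real.log Z) := by
    rw [Real.le_log_iff_exp_le hlam0]
    exact hlam
  obtain ⟨T', hT'mem, hsum⟩ := X5_sum_eq C T
  rw [hsum]
  set S : Finset ℕ := (Finset.range (Z ^ 4 + 1)).filter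
    (fun p => p.Prime ∧ 5 ≤ p ∧ zf e Z < p) with hS
  have h1 := hfD S T' 1 0 le_rfl (by norm_num)
    (fun p hp => by
      rw [hS, Finset.mem_filter] at hp
      exact ⟨hp.2.1, hp.2.2.1⟩)
    (fun N hN => by
      obtain ⟨hNT, hN0, hPw, hcop⟩ := (hT'mem N).1 hN
      refine ⟨hN0, ?_, hPw⟩
      intro p hp
      have hpp := Nat.prime_of_mem_primeFactors hp
      have hpd := Nat.dvd_of_mem_primeFactors hp
      rw [hS, Finset.mem_filter, Finset.mem_range]
      refine ⟨?_, hpp, X5_five hpp hcop hpd, (hT N hNT).2 p hp⟩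
      have := Nat.le_of_dvd (Nat.pos_of_ne_zero hN0) hpd
      have := (hT N hNT).1
      omega)
  refine h1.trans ?_
  have hu1 : (1 : ℝ) ≤ Real.log Z ^ (1 - e) := Real.one_le_rpow hlam1 (by linarith)
  have huv : Real.log Z ^ (1 - e) ≤ 4 * Real.log Z := by
    have : Real.log Z ^ (1 - e) ≤ Real.log Z ^ (1 : ℝ) :=
      Real.rpow_le_rpow_of_exponent_le hlam1 (by linarith)
    rw [Real.rpow_one] at this
    linarith
  have h2 := hc (Real.log Z ^ (1 - e)) (4 * Real.log Z) S hu1 huv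
    (fun p hp => by
      rw [hS, Finset.mem_filter, Finset.mem_range] at hp
      obtain ⟨hple, hpp, -, hpz⟩ := hp
      have hp0 : (0 : ℝ) < p := by exact_mod_cast hpp.pos
      refine ⟨hpp, ?_, ?_⟩
      · rw [Real.le_log_iff_exp_le hp0]
        have h3 : Real.exp (Real.log Z ^ (1 - e)) < (zf e Z : ℝ) + 1 := by
          unfold zf
          exact Nat.lt_floor_add_one _
        have h4 : (zf e Z : ℝ) + 1 ≤ p := by exact_mod_cast hpz
        linarith
      · have h3 : (p : ℝ) ≤ (Z : ℝ) ^ 4 := by exact_mod_cast (by omega : p ≤ Z ^ 4)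
        have h4 := Real.log_le_log hp0 h3
        rw [Real.log_pow] at h4
        push_cast at h4
        exact h4)
  have hdiv : Real.log (4 * Real.log Z / Real.log Z ^ (1 - e)) =
      Real.log 4 + e * Real.log (Real.log Z) := by
    rw [Real.log_div (by positivity) (by positivity), Real.log_mul (by norm_num) hlam0.ne',
      Real.log_rpow hlam0]
    ring
  rw [hdiv] at h2
  have hA' : 4 * D * (1 + Real.log 4) ≤ e * Real.log (Real.log Z) := by
    have h3 : A * e ≤ Real.log (Real.log Z) * e := mul_le_mul_of_nonneg_right hloglam he.le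
    have h4 : A * e = 4 * D * (1 + Real.log 4) := by
      rw [hA]
      field_simp
    linarith
  rw [Real.rpow_def_of_pos hlam0]
  refine Real.exp_le_exp.2 ?_
  have h5 : D * ∑ p ∈ S, (1 : ℝ) / p ≤ D * (4 + 4 * (Real.log 4 + e * Real.log (Real.log Z))) :=
    mul_le_mul_of_nonneg_left h2 hD.le
  refine h5.trans ?_
  nlinarith [h5, hA']

end MP7ed9c3.Pz
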