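import Pool.Agent.Lib.MP_7ed9c3_nt.Pz.SpecMx

/-!
# MP_7ed9c3_nt, part Pz, module X6: the second moment of a quadratic form (helper48)
-/

set_option autoImplicit false

namespace MP7ed9c3.Pz

open MP7ed9c3.Tz

private theorem X6_lim (M : ℝ) (D' : ℕ) : ∃ Z₀ : ℕ, ∀ Z : ℕ, Z₀ ≤ Z →
    M * Real.exp (-(Real.log Z ^ (1 / 4 : ℝ))) * Real.log Z ^ D' * Real.log Z ≤ 1 / 2 := by
  have t1 : Filter.Tendsto (fun Z : ℕ => Real.log Z ^ (1 / 4 : ℝ)) Filter.atTop Filter.atTop :=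
    (tendsto_rpow_atTop (by norm_num)).comp (Real.tendsto_log_atTop.comp tendsto_natCast_atTop_atTop)
  have t2 := (Real.tendsto_pow_mul_exp_neg_atTop_nhds_zero (4 * (D' + 1))).comp t1
  have t3 := t2.const_mul M
  rw [mul_zero] at t3
  have t4 := t3.eventually (gt_mem_nhds (show (0 : ℝ) < 1 / 2 by norm_num))
  obtain ⟨Z₀, hZ₀⟩ := Filter.eventually_atTop.1 t4
  refine ⟨max Z₀ 1, fun Z hZ => ?_⟩
  have h1 := hZ₀ Z ((le_max_left _ _).trans hZ)
  have h2 : 1 ≤ Z := (le_max_right _ _).trans hZ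
  have h3 : (0 : ℝ) ≤ Real.log Z := Real.log_nonneg (by exact_mod_cast h2)
  have h4 : (Real.log Z ^ (1 / 4 : ℝ)) ^ (4 * (D' + 1)) = Real.log Z ^ D' * Real.log Z := by
    rw [pow_mul, ← Real.rpow_natCast (Real.log Z ^ (1 / 4 : ℝ)) 4, ← Real.rpow_mul h3]
    norm_num
    rw [pow_succ]
  simp only [Function.comp] at h1
  rw [h4] at h1
  calc M * Real.exp (-(Real.log Z ^ (1 / 4 : ℝ))) * Real.log Z ^ D' * Real.log Z
      = M * (Real.log Z ^ D' * Real.log Z * Real.exp (-(Real.log Z ^ (1 / 4 : ℝ)))) := by ring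
    _ ≤ 1 / 2 := h1.le

private theorem X6_gw (C N : ℕ) : 0 ≤ gw C N := by
  unfold gw tc
  split_ifs
  · positivity
  · exact le_refl _

/-- the bound of one term -/
private theorem X6_term {C₁ M E s t k l G LL g q : ℝ} (hC : 0 < C₁) (hM : C₁ ≤ M)
    (hE : 0 ≤ E) (hs : 1 ≤ s) (ht : 1 ≤ t) (hk : |k| ≤ C₁ / s) (hl : |l| ≤ C₁ / t)
    (hG : |G| ≤ LL * (s * t * g + q)) (hLL : 0 ≤ LL) (hg : 0 ≤ g) (hq : 0 ≤ q) (P : Prop) [Decidable P]
    (hP : ¬ P → |k| ≤ E / s ∨ |l| ≤ E / t) :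
    k * l * G ≤ LL * ((if P then C₁ ^ 2 * g else 0) + M * E * g + C₁ ^ 2 * q) := by
  have hs0 : 0 < s := by linarith
  have ht0 : 0 < t := by linarith
  have hM0 : 0 ≤ M := hC.le.trans hM
  have h1 : |k| * s ≤ C₁ := (le_div_iff₀ hs0).1 hk
  have h2 : |l| * t ≤ C₁ := (le_div_iff₀ ht0).1 hl
  have h3 : |k| * |l| * (s * t) ≤ C₁ ^ 2 := by
    calc |k| * |l| * (s * t) = (|k| * s) * (|l| * t) := by ring
      _ ≤ C₁ * C₁ := mul_le_mul h1 h2 (by positivity) hC.le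
      _ = C₁ ^ 2 := by ring
  have h4 : |k| * |l| ≤ C₁ ^ 2 := by
    refine le_trans ?_ h3
    refine le_mul_of_one_le_right (by positivity) ?_
    nlinarith
  have h5 : |k| * |l| * (s * t) ≤ (if P then C₁ ^ 2 else 0) + M * E := by
    split_ifs with hp
    · have : 0 ≤ M * E := mul_nonneg hM0 hE
      linarith
    · rw [zero_add]
      rcases hP hp with h | h
      · have h' : |k| * s ≤ E := (le_div_iff₀ hs0).1 h
        calc |k| * |l| * (s * t) = (|l| * t) * (|k| * s) := by ring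
          _ ≤ M * E := mul_le_mul (h2.trans hM) h' (by positivity) hM0
      · have h' : |l| * t ≤ E := (le_div_iff₀ ht0).1 h
        calc |k| * |l| * (s * t) = (|k| * s) * (|l| * t) := by ring
          _ ≤ M * E := mul_le_mul (h1.trans hM) h' (by positivity) hM0
  have h6 : k * l * G ≤ |k| * |l| * |G| := by
    rw [← abs_mul, ← abs_mul]
    exact le_abs_self _
  have h7 : |k| * |l| * |G| ≤ |k| * |l| * (LL * (s * t * g + q)) :=
    mul_le_mul_of_nonneg_left hG (by positivity)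
  refine h6.trans (h7.trans ?_)
  have h8 : |k| * |l| * (LL * (s * t * g + q)) = LL * (|k| * |l| * (s * t) * g + |k| * |l| * q) := by ring
  rw [h8]
  refine mul_le_mul_of_nonneg_left ?_ hLL
  have h9 : |k| * |l| * (s * t) * g ≤ ((if P then C₁ ^ 2 else 0) + M * E) * g :=
    mul_le_mul_of_nonneg_right h5 hg
  have h10 : |k| * |l| * q ≤ C₁ ^ 2 * q := mul_le_mul_of_nonneg_right h4 hq
  have h11 : ((if P then C₁ ^ 2 else 0) + M * E) * g = (if P then C₁ ^ 2 * g else 0) + M * E * g := by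
    split_ifs <;> ring
  rw [h11] at h9
  linarith

open Classical in
theorem tX6 (h2 : S_X2) (h3 : S_X3) (h4 : S_X4) : S_X6 := by
  intro ι _ D C₁ hC₁
  obtain ⟨C, Z2, hX2⟩ := h2 ι D
  obtain ⟨D', Z4, hX4⟩ := h4 (C + 4)
  obtain ⟨Z5, hlim⟩ := X6_lim (max C₁ 1) D'
  refine ⟨C, max (max Z2 Z4) (max Z5 (max 3 ⌈2 * C₁ ^ 2⌉₊)), ?_⟩
  intro β ν hLD z X Z L A₀ K U hZ hZL hK hU
  have z2 : Z2 ≤ Z := ((le_max_left _ _).trans (le_max_left _ _)).trans hZ
  have z4 : Z4 ≤ Z := ((le_max_right _ _).trans (le_max_left _ _)).trans hZ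
  have z5 : Z5 ≤ Z := ((le_max_left _ _).trans (le_max_right _ _)).trans hZ
  have z6 : 3 ≤ Z := (((le_max_left _ _).trans (le_max_right _ _)).trans (le_max_right _ _)).trans hZ
  have z7 : ⌈2 * C₁ ^ 2⌉₊ ≤ Z :=
    (((le_max_right _ _).trans (le_max_right _ _)).trans (le_max_right _ _)).trans hZ
  have z8 : 2 * C₁ ^ 2 ≤ (Z : ℝ) := (Nat.le_ceil _).trans (by exact_mod_cast z7)
  have z9 : (3 : ℝ) ≤ Z := by exact_mod_cast z6
  have hlam : 0 < Real.log Z := Real.log_pos (by linarith)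
  set M : ℝ := max C₁ 1 with hM
  set E : ℝ := Real.exp (-(Real.log Z ^ (1 / 4 : ℝ))) with hE
  set q : ℝ := ((Z : ℝ) ^ 14)⁻¹ with hq
  set LL : ℝ := (L : ℝ) ^ Fintype.card ι with hLL
  have hE0 : 0 ≤ E := (Real.exp_pos _).le
  have hq0 : 0 ≤ q := by positivity
  have hLL0 : 0 ≤ LL := by positivity
  have e1 : bsum L A₀ (fun a => (∑ u ∈ U, dco β ν z X u.1 a * dco β ν z X u.2 a * K u.1 u.2) ^ 2) =
      ∑ u ∈ U, ∑ v ∈ U, K u.1 u.2 * K v.1 v.2 * bsum L A₀ (fun a =>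
        dco β ν z X u.1 a * dco β ν z X u.2 a * (dco β ν z X v.1 a * dco β ν z X v.2 a)) := by
    unfold bsum
    simp_rw [sq, Finset.sum_mul_sum, Finset.mul_sum]
    rw [Finset.sum_comm]
    refine Finset.sum_congr rfl fun u _ => ?_
    rw [Finset.sum_comm]
    refine Finset.sum_congr rfl fun v _ => Finset.sum_congr rfl fun a _ => ?_
    ring
  rw [e1]
  have e2 : ∀ u ∈ U, ∀ v ∈ U, K u.1 u.2 * K v.1 v.2 * bsum L A₀ (fun a =>
        dco β ν z X u.1 a * dco β ν z X u.2 a * (dco β ν z X v.1 a * dco β ν z X v.2 a)) ≤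
      LL * ((if (|Real.log u.1 - Real.log u.2| ≤ Real.log Z ^ (2 / 3 : ℝ) ∧
        |Real.log v.1 - Real.log v.2| ≤ Real.log Z ^ (2 / 3 : ℝ)) then
          C₁ ^ 2 * gw C (u.1 * u.2 * (v.1 * v.2)) else 0) + M * E * gw C (u.1 * u.2 * (v.1 * v.2)) +
            C₁ ^ 2 * q) := by
    intro u hu v hv
    have u1 := Finset.mem_Icc.1 (hU u hu).1
    have u2 := Finset.mem_Icc.1 (hU u hu).2
    have v1 := Finset.mem_Icc.1 (hU v hv).1
    have v2 := Finset.mem_Icc.1 (hU v hv).2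
    have r1 : (1 : ℝ) ≤ u.1 := by exact_mod_cast u1.1
    have r2 : (1 : ℝ) ≤ u.2 := by exact_mod_cast u2.1
    have r3 : (1 : ℝ) ≤ v.1 := by exact_mod_cast v1.1
    have r4 : (1 : ℝ) ≤ v.2 := by exact_mod_cast v2.1
    have k1 := hK.2 u.1 (hU u hu).1 u.2 (hU u hu).2
    have k2 := hK.2 v.1 (hU v hv).1 v.2 (hU v hv).2
    have b1 := (hX2 β ν hLD z X Z L A₀ z2 hZL u.1 (hU u hu).1 u.2 (hU u hu).2).2 v.1 (hU v hv).1 v.2
      (hU v hv).2
    refine X6_term hC₁ (le_max_left _ _) hE0 (s := (u.1 : ℝ) * u.2) (t := (v.1 : ℝ) * v.2)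
      (by nlinarith) (by nlinarith) k1.1 k2.1 ?_ hLL0 (X6_gw _ _) hq0 _ ?_
    · refine b1.trans (le_of_eq ?_)
      push_cast
      rfl
    · intro hn
      rw [not_and_or, not_le, not_le] at hn
      exact hn.imp k1.2 k2.2
  refine (Finset.sum_le_sum fun u hu => Finset.sum_le_sum fun v hv => e2 u hu v hv).trans ?_
  have e3 : ∑ u ∈ U, ∑ v ∈ U, LL * ((if (|Real.log u.1 - Real.log u.2| ≤ Real.log Z ^ (2 / 3 : ℝ) ∧
        |Real.log v.1 - Real.log v.2| ≤ Real.log Z ^ (2 / 3 : ℝ)) then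
          C₁ ^ 2 * gw C (u.1 * u.2 * (v.1 * v.2)) else 0) + M * E * gw C (u.1 * u.2 * (v.1 * v.2)) +
            C₁ ^ 2 * q) =
      LL * (C₁ ^ 2 *
        (∑ u ∈ U.filter (fun u => |Real.log u.1 - Real.log u.2| ≤ Real.log Z ^ (2 / 3 : ℝ)),
          ∑ v ∈ U.filter (fun u => |Real.log u.1 - Real.log u.2| ≤ Real.log Z ^ (2 / 3 : ℝ)),
            gw C (u.1 * u.2 * (v.1 * v.2))) +
        (M * E * (∑ u ∈ U, ∑ v ∈ U, gw C (u.1 * u.2 * (v.1 * v.2))) +
          (U.card : ℝ) ^ 2 * (C₁ ^ 2 * q))) := by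
    have f1 : ∑ u ∈ U, ∑ v ∈ U, (if (|Real.log u.1 - Real.log u.2| ≤ Real.log Z ^ (2 / 3 : ℝ) ∧
        |Real.log v.1 - Real.log v.2| ≤ Real.log Z ^ (2 / 3 : ℝ)) then
          C₁ ^ 2 * gw C (u.1 * u.2 * (v.1 * v.2)) else 0) = C₁ ^ 2 *
        (∑ u ∈ U.filter (fun u => |Real.log u.1 - Real.log u.2| ≤ Real.log Z ^ (2 / 3 : ℝ)),
          ∑ v ∈ U.filter (fun u => |Real.log u.1 - Real.log u.2| ≤ Real.log Z ^ (2 / 3 : ℝ)),
            gw C (u.1 * u.2 * (v.1 * v.2))) := by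
      rw [Finset.mul_sum, Finset.sum_filter]
      refine Finset.sum_congr rfl fun u _ => ?_
      by_cases hu : |Real.log u.1 - Real.log u.2| ≤ Real.log Z ^ (2 / 3 : ℝ)
      · rw [if_pos hu, Finset.mul_sum, Finset.sum_filter]
        refine Finset.sum_congr rfl fun v _ => ?_
        by_cases hv : |Real.log v.1 - Real.log v.2| ≤ Real.log Z ^ (2 / 3 : ℝ)
        · rw [if_pos hv, if_pos ⟨hu, hv⟩]
        · rw [if_neg hv, if_neg fun h => hv h.2]
      · rw [if_neg hu]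
        refine Finset.sum_eq_zero fun v _ => ?_
        rw [if_neg fun h => hu h.1]
    have f2 : ∑ u ∈ U, ∑ v ∈ U, M * E * gw C (u.1 * u.2 * (v.1 * v.2)) =
        M * E * (∑ u ∈ U, ∑ v ∈ U, gw C (u.1 * u.2 * (v.1 * v.2))) := by
      rw [Finset.mul_sum]
      refine Finset.sum_congr rfl fun u _ => ?_
      rw [Finset.mul_sum]
    have f3 : ∑ u ∈ U, ∑ v ∈ U, C₁ ^ 2 * q = (U.card : ℝ) ^ 2 * (C₁ ^ 2 * q) := by
      rw [Finset.sum_const, Finset.sum_const, nsmul_eq_mul, nsmul_eq_mul]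
      ring
    rw [← f1, ← f2, ← f3, ← Finset.sum_add_distrib, ← Finset.sum_add_distrib, Finset.mul_sum]
    refine Finset.sum_congr rfl fun u _ => ?_
    rw [← Finset.sum_add_distrib, ← Finset.sum_add_distrib, Finset.mul_sum]
    refine Finset.sum_congr rfl fun v _ => ?_
    rw [add_assoc]
  rw [e3]
  refine mul_le_mul_of_nonneg_left (add_le_add (le_refl _) ?_) hLL0
  have g1 : ∑ u ∈ U, ∑ v ∈ U, gw C (u.1 * u.2 * (v.1 * v.2)) ≤ Real.log Z ^ D' := by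
    have i1 := h3.2.2 C (U ×ˢ U) (by
      intro p hp
      have hp' := Finset.mem_product.1 hp
      have u1 := Finset.mem_Icc.1 (hU p.1 hp'.1).1
      have u2 := Finset.mem_Icc.1 (hU p.1 hp'.1).2
      have v1 := Finset.mem_Icc.1 (hU p.2 hp'.2).1
      have v2 := Finset.mem_Icc.1 (hU p.2 hp'.2).2
      exact ⟨⟨by omega, by omega⟩, ⟨by omega, by omega⟩⟩)
    rw [Finset.sum_product] at i1
    refine i1.trans ?_
    have i2 := hX4 Z 1 0 ((U ×ˢ U).image (fun q => q.1.1 * q.1.2 * (q.2.1 * q.2.2))) z4 (le_refl _)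
      (by rw [Real.rpow_zero]; norm_num) (by
        intro N hN
        obtain ⟨p, hp, rfl⟩ := Finset.mem_image.1 hN
        have hp' := Finset.mem_product.1 hp
        have u1 := (Finset.mem_Icc.1 (hU p.1 hp'.1).1).2
        have u2 := (Finset.mem_Icc.1 (hU p.1 hp'.1).2).2
        have v1 := (Finset.mem_Icc.1 (hU p.2 hp'.2).1).2
        have v2 := (Finset.mem_Icc.1 (hU p.2 hp'.2).2).2
        calc p.1.1 * p.1.2 * (p.2.1 * p.2.2) ≤ Z * Z * (Z * Z) :=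
              Nat.mul_le_mul (Nat.mul_le_mul u1 u2) (Nat.mul_le_mul v1 v2)
          _ = Z ^ 4 := by ring)
    refine le_trans (le_of_eq (Finset.sum_congr rfl fun N _ => ?_)) i2
    rw [Real.rpow_zero, mul_one]
  have g2 : (U.card : ℝ) ≤ (Z : ℝ) ^ 2 := by
    have i1 : U ⊆ Finset.Icc 1 Z ×ˢ Finset.Icc 1 Z := fun u hu => Finset.mem_product.2 (hU u hu)
    have i2 := Finset.card_le_card i1
    rw [Finset.card_product, Nat.card_Icc, Nat.add_sub_cancel] at i2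
    have i3 : ((U.card : ℕ) : ℝ) ≤ ((Z * Z : ℕ) : ℝ) := by exact_mod_cast i2
    refine i3.trans (le_of_eq ?_)
    push_cast
    ring
  have hM0 : 0 ≤ M := le_trans zero_le_one (le_max_right _ _)
  have g3 : M * E * (∑ u ∈ U, ∑ v ∈ U, gw C (u.1 * u.2 * (v.1 * v.2))) * Real.log Z ≤ 1 / 2 := by
    refine le_trans ?_ (hlim Z z5)
    exact mul_le_mul_of_nonneg_right (mul_le_mul_of_nonneg_left g1 (mul_nonneg hM0 hE0)) hlam.le
  have g4 : (U.card : ℝ) ^ 2 * (C₁ ^ 2 * q) * Real.log Z ≤ 1 / 2 := by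
    have i1 : (U.card : ℝ) ^ 2 ≤ ((Z : ℝ) ^ 2) ^ 2 := pow_le_pow_left₀ (Nat.cast_nonneg _) g2 2
    have i2 : Real.log Z ≤ (Z : ℝ) := (Real.log_le_sub_one_of_pos (by linarith)).trans (by linarith)
    have i3 : (0 : ℝ) < Z := by linarith
    calc (U.card : ℝ) ^ 2 * (C₁ ^ 2 * q) * Real.log Z
        ≤ ((Z : ℝ) ^ 2) ^ 2 * (C₁ ^ 2 * q) * Z := by
          refine mul_le_mul (mul_le_mul_of_nonneg_right i1 (by positivity)) i2 hlam.le (by positivity)
      _ = C₁ ^ 2 * ((Z : ℝ) ^ 9)⁻¹ := by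
          rw [hq]
          field_simp
      _ ≤ C₁ ^ 2 * (Z : ℝ)⁻¹ := by
          refine mul_le_mul_of_nonneg_left ?_ (by positivity)
          refine inv_anti₀ i3 ?_
          exact le_self_pow₀ (by linarith) (by norm_num)
      _ ≤ 1 / 2 := by
          rw [← div_eq_mul_inv, div_le_iff₀ i3]
          linarith
  rw [← mul_le_mul_iff_left₀ hlam, inv_mul_cancel₀ hlam.ne', add_mul]
  linarith

end MP7ed9c3.Pz
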