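import Pool.Agent.Lib.MP_7ed9c3_nt.Pz.SpecMx

/-!
# MP_7ed9c3_nt, part Pz, module X7: off diagonal pairs of primes
-/

set_option autoImplicit false

namespace MP7ed9c3.Pz

open MP7ed9c3.Tz

private theorem X7_fac (p q p' q' r : ℕ) (hp : p.Prime) (hq : q.Prime) (hp' : p'.Prime)
    (hq' : q'.Prime) :
    (p * q * (p' * q')).factorization r =
      (if p = r then 1 else 0) + (if q = r then 1 else 0) +
        ((if p' = r then 1 else 0) + (if q' = r then 1 else 0)) := by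
  rw [Nat.factorization_mul (mul_ne_zero hp.ne_zero hq.ne_zero)
      (mul_ne_zero hp'.ne_zero hq'.ne_zero),
    Nat.factorization_mul hp.ne_zero hq.ne_zero, Nat.factorization_mul hp'.ne_zero hq'.ne_zero,
    hp.factorization, hq.factorization, hp'.factorization, hq'.factorization]
  simp only [Finsupp.add_apply, Finsupp.single_apply]

private theorem X7_pair (p q p' q' : ℕ) (hp : p.Prime) (hq : q.Prime) (hp' : p'.Prime)
    (hq' : q'.Prime) (h : p ≠ q) (hw : Pw (p * q * (p' * q'))) :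
    (p' = p ∧ q' = q) ∨ (p' = q ∧ q' = p) := by
  have h1 := hw p hp
  have h2 := hw q hq
  rw [X7_fac p q p' q' _ hp hq hp' hq'] at h1 h2
  rw [if_pos rfl, if_neg (Ne.symm h)] at h1
  rw [if_neg h, if_pos rfl] at h2
  by_cases a : p' = p
  · by_cases b : q' = q
    · exact Or.inl ⟨a, b⟩
    · exfalso
      have c : p' ≠ q := by rw [a]; exact h
      rw [if_neg c, if_neg b] at h2
      exact h2 rfl
  · by_cases c : q' = p
    · right
      refine ⟨?_, c⟩
      by_contra d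
      have f : q' ≠ q := by rw [c]; exact h
      rw [if_neg d, if_neg f] at h2
      exact h2 rfl
    · exfalso
      rw [if_neg a, if_neg c] at h1
      exact h1 rfl

private theorem X7_card (p q : ℕ) (hp : p.Prime) (hq : q.Prime) (h : p ≠ q) :
    (p * q * (p * q)).divisors.card = 9 := by
  have e : p * q * (p * q) = p ^ 2 * q ^ 2 := by ring
  have hc : (p ^ 2).Coprime (q ^ 2) := Nat.Coprime.pow 2 2 ((Nat.coprime_primes hp hq).mpr h)
  rw [e, hc.card_divisors_mul, Nat.divisors_prime_pow hp, Nat.divisors_prime_pow hq,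
    Finset.card_map, Finset.card_map, Finset.card_range]

private theorem X7_gw (C p q : ℕ) (hp : p.Prime) (hq : q.Prime) (h : p ≠ q) :
    gw C (p * q * (p * q)) ≤ 9 ^ C * (1 / (p : ℝ) * (1 / (q : ℝ))) := by
  unfold gw
  split_ifs
  · unfold tc
    rw [X7_card p q hp hq h]
    have e : √((p * q * (p * q) : ℕ) : ℝ) = (p : ℝ) * q := by
      push_cast
      exact Real.sqrt_mul_self (by positivity)
    rw [e]
    push_cast
    rw [mul_inv, one_div, one_div]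
    exact le_of_eq (by ring)
  · positivity

private theorem X7_row (C p q : ℕ) (hp : p.Prime) (hq : q.Prime) (h : p ≠ q)
    (V : Finset (ℕ × ℕ)) (hV : ∀ v ∈ V, v.1.Prime ∧ v.2.Prime) :
    ∑ v ∈ V, gw C (p * q * (v.1 * v.2)) ≤ 2 * (9 ^ C * (1 / (p : ℝ) * (1 / (q : ℝ)))) := by
  obtain ⟨K, hK⟩ : ∃ K : ℝ, K = 9 ^ C * (1 / (p : ℝ) * (1 / (q : ℝ))) := ⟨_, rfl⟩
  have hK0 : 0 ≤ K := by rw [hK]; positivity
  have hg : gw C (p * q * (p * q)) ≤ K := by rw [hK]; exact X7_gw C p q hp hq h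
  rw [← hK]
  have h1 : ∀ v ∈ V, gw C (p * q * (v.1 * v.2)) ≤
      (if v = (p, q) then K else 0) + (if v = (q, p) then K else 0) := by
    intro v hv
    obtain ⟨a, b⟩ := hV v hv
    by_cases hw : Pw (p * q * (v.1 * v.2))
    · rcases X7_pair p q v.1 v.2 hp hq a b h hw with ⟨c, d⟩ | ⟨c, d⟩
      · have e : v = (p, q) := Prod.ext c d
        rw [c, d, if_pos e]
        split_ifs <;> linarith
      · have e : v = (q, p) := Prod.ext c d
        rw [c, d, if_pos e, mul_comm q p]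
        split_ifs <;> linarith
    · have e : gw C (p * q * (v.1 * v.2)) = 0 := by
        unfold gw
        rw [if_neg (fun hh => hw hh.2.1)]
      rw [e]
      split_ifs <;> linarith
  refine (Finset.sum_le_sum h1).trans ?_
  rw [Finset.sum_add_distrib, Finset.sum_ite_eq', Finset.sum_ite_eq']
  split_ifs <;> linarith

private theorem X7_ev (A e : ℝ) (hA : 0 < A) (he : 0 < e) :
    ∀ᶠ x : ℝ in Filter.atTop, 1 ≤ x ∧ A * (1 + e * Real.log x) ≤ x ^ e := by
  have h1 := (isLittleO_log_rpow_atTop he).bound (show (0 : ℝ) < 1 / (2 * A * e) by positivity)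
  have h2 := (tendsto_rpow_atTop he).eventually_ge_atTop (2 * A)
  filter_upwards [h1, h2, Filter.eventually_ge_atTop 1] with x hx hx2 hx1
  refine ⟨hx1, ?_⟩
  have h3 : 0 ≤ x ^ e := Real.rpow_nonneg (by linarith) _
  rw [Real.norm_of_nonneg h3, Real.norm_eq_abs] at hx
  have h4 : Real.log x ≤ 1 / (2 * A * e) * x ^ e := (le_abs_self _).trans hx
  have h5 : A * e * Real.log x ≤ A * e * (1 / (2 * A * e) * x ^ e) :=
    mul_le_mul_of_nonneg_left h4 (by positivity)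
  have h6 : A * e * (1 / (2 * A * e) * x ^ e) = x ^ e / 2 := by
    field_simp
  nlinarith

theorem tX7 (hb : S_Mb) (hc : S_Mc) : S_X7 := by
  intro C e he he3
  have ev2 : ∀ᶠ Z : ℕ in Filter.atTop, (1 ≤ Real.log (Z : ℝ) ∧
      (128 * 9 ^ C : ℝ) * (1 + e * Real.log (Real.log (Z : ℝ))) ≤ Real.log (Z : ℝ) ^ e) :=
    (Real.tendsto_log_atTop.comp tendsto_natCast_atTop_atTop).eventually
      (X7_ev (128 * 9 ^ C) e (by positivity) he)
  obtain ⟨Z₀, hZ₀⟩ := Filter.eventually_atTop.mp ev2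
  refine ⟨Z₀, fun Z V hZ hV => ?_⟩
  obtain ⟨hl1, hl2⟩ := hZ₀ Z hZ
  have hP0 : ∀ p ∈ pr (zf e Z) Z, p.Prime ∧ Real.log Z ^ (1 - e) ≤ Real.log p ∧
      Real.log p ≤ Real.log Z := by
    intro p hp
    obtain ⟨hp1, hp2⟩ := Finset.mem_filter.mp hp
    obtain ⟨hp3, hp4⟩ := Finset.mem_Ioc.mp hp1
    have hp0 : (0 : ℝ) < p := by exact_mod_cast hp2.pos
    refine ⟨hp2, ?_, ?_⟩
    · unfold zf at hp3
      have h1 : Real.exp (Real.log Z ^ (1 - e)) < p := Nat.lt_of_floor_lt hp3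
      rw [Real.le_log_iff_exp_le hp0]
      exact h1.le
    · exact Real.log_le_log hp0 (by exact_mod_cast hp4)
  obtain ⟨P, hPd⟩ : ∃ P : Finset ℕ, P = pr (zf e Z) Z := ⟨_, rfl⟩
  rw [← hPd] at hV hP0
  obtain ⟨lam, hlam⟩ : ∃ lam : ℝ, lam = Real.log (Z : ℝ) := ⟨_, rfl⟩
  rw [← hlam] at hl1 hl2 hV hP0 ⊢
  have hlam0 : 0 < lam := by linarith
  obtain ⟨u₀, hu₀⟩ : ∃ u₀ : ℝ, u₀ = lam ^ (1 - e) := ⟨_, rfl⟩
  obtain ⟨W, hW⟩ : ∃ W : ℝ, W = lam ^ (2 / 3 : ℝ) := ⟨_, rfl⟩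
  rw [← hu₀] at hP0
  rw [← hW] at hV
  have hu1 : 1 ≤ u₀ := by rw [hu₀]; exact Real.one_le_rpow hl1 (by linarith)
  have hu0 : 0 < u₀ := by linarith
  have hW1 : 1 ≤ W := by rw [hW]; exact Real.one_le_rpow hl1 (by norm_num)
  have hul : u₀ ≤ lam := by
    rw [hu₀]
    calc lam ^ (1 - e) ≤ lam ^ (1 : ℝ) :=
          Real.rpow_le_rpow_of_exponent_le hl1 (by linarith)
      _ = lam := Real.rpow_one _
  have hrow : ∀ u ∈ V, ∑ v ∈ V, gw C (u.1 * u.2 * (v.1 * v.2)) ≤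
      2 * (9 ^ C * (1 / (u.1 : ℝ) * (1 / (u.2 : ℝ)))) := fun u hu =>
    X7_row C u.1 u.2 (hP0 _ (hV u hu).1).1 (hP0 _ (hV u hu).2.1).1 (hV u hu).2.2.1 V
      (fun v hv => ⟨(hP0 _ (hV v hv).1).1, (hP0 _ (hV v hv).2.1).1⟩)
  have hsum : ∑ u ∈ V, (1 / (u.1 : ℝ) * (1 / (u.2 : ℝ))) ≤
      ∑ p ∈ P, ∑ q ∈ P.filter (fun q : ℕ => |Real.log q - Real.log p| ≤ W),
        (1 / (p : ℝ) * (1 / (q : ℝ))) := by
    calc ∑ u ∈ V, (1 / (u.1 : ℝ) * (1 / (u.2 : ℝ)))
        ≤ ∑ u ∈ (P ×ˢ P).filter (fun u : ℕ × ℕ => |Real.log u.2 - Real.log u.1| ≤ W),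
          (1 / (u.1 : ℝ) * (1 / (u.2 : ℝ))) := by
          refine Finset.sum_le_sum_of_subset_of_nonneg ?_ ?_
          · intro u hu
            obtain ⟨a, b, _, d⟩ := hV u hu
            rw [Finset.mem_filter, Finset.mem_product]
            refine ⟨⟨a, b⟩, ?_⟩
            rw [abs_sub_comm]
            exact d
          · intro u _ _
            positivity
      _ = _ := by
          rw [Finset.sum_filter, Finset.sum_product]
          refine Finset.sum_congr rfl fun p _ => ?_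
          rw [Finset.sum_filter]
  have hin : ∀ p ∈ P, ∑ q ∈ P.filter (fun q : ℕ => |Real.log q - Real.log p| ≤ W),
      (1 / (p : ℝ) * (1 / (q : ℝ))) ≤ 1 / (p : ℝ) * (8 * (W + 1) / u₀) := by
    intro p _
    rw [← Finset.mul_sum]
    refine mul_le_mul_of_nonneg_left ?_ (by positivity)
    refine hb u₀ (Real.log p) W _ hu1 (by linarith) (fun q hq => ?_)
    obtain ⟨hq1, hq2⟩ := Finset.mem_filter.mp hq
    exact ⟨(hP0 q hq1).1, (hP0 q hq1).2.1, hq2⟩
  have hout : ∑ p ∈ P, (1 : ℝ) / p ≤ 4 + 4 * Real.log (lam / u₀) := hc u₀ lam P hu1 hul hP0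
  have hlog : Real.log (lam / u₀) = e * Real.log lam := by
    rw [Real.log_div hlam0.ne' hu0.ne', hu₀, Real.log_rpow hlam0]
    ring
  have hloglam : 0 ≤ Real.log lam := Real.log_nonneg hl1
  have hWu : 8 * (W + 1) / u₀ ≤ 16 * lam ^ (-(1 / 3) + e) := by
    have h1 : W / u₀ = lam ^ (-(1 / 3) + e) := by
      rw [hW, hu₀, ← Real.rpow_sub hlam0]
      congr 1
      ring
    rw [← h1, ← mul_div_assoc]
    refine div_le_div_of_nonneg_right ?_ hu0.le
    linarith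
  have hfin : lam ^ e * lam ^ (-(1 / 3) + e) = lam ^ (-(1 / 3) + 2 * e) := by
    rw [← Real.rpow_add hlam0]
    congr 1
    ring
  calc ∑ u ∈ V, ∑ v ∈ V, gw C (u.1 * u.2 * (v.1 * v.2))
      ≤ ∑ u ∈ V, 2 * (9 ^ C * (1 / (u.1 : ℝ) * (1 / (u.2 : ℝ)))) := Finset.sum_le_sum hrow
    _ = 2 * 9 ^ C * ∑ u ∈ V, (1 / (u.1 : ℝ) * (1 / (u.2 : ℝ))) := by
        rw [Finset.mul_sum]
        refine Finset.sum_congr rfl fun u _ => ?_
        ring
    _ ≤ 2 * 9 ^ C * ∑ p ∈ P, 1 / (p : ℝ) * (8 * (W + 1) / u₀) :=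
        mul_le_mul_of_nonneg_left (hsum.trans (Finset.sum_le_sum hin)) (by positivity)
    _ = 2 * 9 ^ C * ((∑ p ∈ P, (1 : ℝ) / p) * (8 * (W + 1) / u₀)) := by
        rw [Finset.sum_mul]
    _ ≤ 2 * 9 ^ C * ((4 + 4 * (e * Real.log lam)) * (16 * lam ^ (-(1 / 3) + e))) := by
        rw [hlog] at hout
        refine mul_le_mul_of_nonneg_left ?_ (by positivity)
        refine mul_le_mul hout hWu (by positivity) (by positivity)
    _ = (128 * 9 ^ C * (1 + e * Real.log lam)) * lam ^ (-(1 / 3) + e) := by ring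
    _ ≤ lam ^ e * lam ^ (-(1 / 3) + e) :=
        mul_le_mul_of_nonneg_right hl2 (Real.rpow_nonneg hlam0.le _)
    _ = lam ^ (-(1 / 3) + 2 * e) := hfin

end MP7ed9c3.Pz
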