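import Pool.Agent.Lib.MP_7ed9c3_nt.Pz.SpecMx

/-!
# MP_7ed9c3_nt, module Pz X8: the pattern of the mixed terms
-/

set_option autoImplicit false

namespace MP7ed9c3.Pz

open MP7ed9c3.Tz

private lemma X8_one {y : ℝ} {l : ℕ} (hl : 1 ≤ l)
    (hq : ∀ q ∈ l.primeFactors, y < Real.log q) (h : Real.log l ≤ y) : l = 1 := by
  by_contra hne
  have hp := Nat.minFac_prime hne
  have hd := Nat.minFac_dvd l
  have hmem : l.minFac ∈ l.primeFactors := Nat.mem_primeFactors.2 ⟨hp, hd, by omega⟩
  have h1 := hq _ hmem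
  have h2 : Real.log (l.minFac : ℝ) ≤ Real.log l :=
    Real.log_le_log (by exact_mod_cast hp.pos) (by exact_mod_cast Nat.minFac_le (by omega))
  linarith

private lemma X8_cof {y W c : ℝ} {p m : ℕ} (hWy : c < y) (hp : p.Prime) (hm : 1 ≤ m)
    (hq : ∀ q ∈ m.primeFactors, y < Real.log q) (hnp : ¬ m.Prime)
    (h : Real.log m - Real.log p ≤ c) : ¬ p ∣ m := by
  rintro ⟨l, rfl⟩
  have hl : 1 ≤ l := by
    rcases Nat.eq_zero_or_pos l with h0 | h0
    · subst h0
      simp at hm
    · exact h0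
  have hlog : Real.log ((p * l : ℕ) : ℝ) = Real.log p + Real.log l := by
    push_cast
    rw [Real.log_mul]
    · exact_mod_cast hp.ne_zero
    · exact_mod_cast (by omega : l ≠ 0)
  rw [hlog] at h
  have h1 : l = 1 := by
    refine X8_one hl (fun q hql => hq q ?_) (by linarith)
    rw [Nat.mem_primeFactors] at hql ⊢
    exact ⟨hql.1, Dvd.dvd.mul_left hql.2.1 p, by
      have := hp.pos
      positivity⟩
  subst h1
  exact hnp (by simpa using hp)

private lemma X8_fac {p m p' m' q : ℕ} (hp : p ≠ 0) (hm : m ≠ 0) (hp' : p' ≠ 0) (hm' : m' ≠ 0) :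
    (p * m * (p' * m')).factorization q =
      p.factorization q + m.factorization q + (p'.factorization q + m'.factorization q) := by
  rw [Nat.factorization_mul (mul_ne_zero hp hm) (mul_ne_zero hp' hm'),
    Nat.factorization_mul hp hm, Nat.factorization_mul hp' hm']
  rfl

private lemma X8_dvd {p m p' m' : ℕ} (hp : p.Prime) (hp' : p'.Prime) (hm : m ≠ 0) (hm' : m' ≠ 0)
    (hne : p ≠ p') (hpm : ¬ p ∣ m) (h : Pw (p * m * (p' * m'))) : p ∣ m' := by
  have h1 := h p hp
  rw [X8_fac hp.ne_zero hm hp'.ne_zero hm', hp.factorization_self,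
    Nat.factorization_eq_zero_of_not_dvd hpm,
    Nat.factorization_eq_zero_of_not_dvd (fun hd => hne ((Nat.prime_dvd_prime_iff_eq hp hp').1 hd))]
    at h1
  by_contra hc
  rw [Nat.factorization_eq_zero_of_not_dvd hc] at h1
  omega

/-- Module X8. -/
theorem tX8 : S_X8 := by
  intro y W p m p' m' hW hWy hp hp' hyp hyp' hm hm' hqm hqm' hnm hnm' hc hc' hPw
  have hm0 : m ≠ 0 := by omega
  have hm0' : m' ≠ 0 := by omega
  rw [abs_le] at hc hc'
  have hpm : ¬ p ∣ m := X8_cof (W := W) (c := 2 * W) hWy hp hm hqm hnm (by linarith [hc.1])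
  have hpm' : ¬ p' ∣ m' := X8_cof (W := W) (c := 2 * W) hWy hp' hm' hqm' hnm' (by linarith [hc'.1])
  have heq : p = p' := by
    by_contra hne
    have h1 : p ∣ m' := X8_dvd hp hp' hm0 hm0' hne hpm hPw
    have hPw' : Pw (p' * m' * (p * m)) := by
      rw [mul_comm]
      exact hPw
    have h2 : p' ∣ m := X8_dvd hp' hp hm0' hm0 (Ne.symm hne) hpm' hPw'
    have hlogm' : Real.log p ≤ Real.log m' :=
      Real.log_le_log (by exact_mod_cast hp.pos) (by exact_mod_cast Nat.le_of_dvd (by omega) h1)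
    exact X8_cof (W := W) (c := 2 * W) hWy hp' hm hqm hnm (by linarith [hc.1, hc'.1]) h2
  subst heq
  refine ⟨rfl, hpm, hpm', ?_⟩
  intro q hq
  rw [Nat.factorization_mul hm0 hm0', Finsupp.add_apply]
  by_cases hqp : q = p
  · subst hqp
    rw [Nat.factorization_eq_zero_of_not_dvd hpm, Nat.factorization_eq_zero_of_not_dvd hpm']
    omega
  · have h1 := hPw q hq
    have h0 : p.factorization q = 0 :=
      Nat.factorization_eq_zero_of_not_dvd
        (fun hd => hqp ((Nat.prime_dvd_prime_iff_eq hq hp).1 hd))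
    rw [X8_fac hp.ne_zero hm0 hp.ne_zero hm0', h0] at h1
    omega

end MP7ed9c3.Pz
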