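import Pool.Agent.Lib.MP_7ed9c3_nt.Pz.SpecMx

/-!
# MP_7ed9c3_nt, part Pz.  X9, mixed terms
-/

set_option autoImplicit false

namespace MP7ed9c3.Pz

open MP7ed9c3.Tz

private theorem X9_gw_nonneg (C N : ℕ) : 0 ≤ gw C N := by
  unfold gw tc
  split_ifs
  · positivity
  · exact le_rfl

/-- The value at `p² m m'`. -/
private theorem X9_gw (C p m m' : ℕ) (hp : p.Prime) (h1 : ¬ p ∣ m) (h2 : ¬ p ∣ m')
    (hg : Pg (p * m * (p * m'))) (hw : Pw (m * m')) :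
    gw C (p * m * (p * m')) = 3 ^ C * (p : ℝ)⁻¹ * gw C (m * m') := by
  have hN : p * m * (p * m') = p ^ 2 * (m * m') := by ring
  have hc : Nat.Coprime (p ^ 2) (m * m') := by
    apply Nat.Coprime.pow_left
    rw [Nat.Prime.coprime_iff_not_dvd hp]
    intro h
    rcases (Nat.Prime.dvd_mul hp).1 h with h | h
    · exact h1 h
    · exact h2 h
  have hM : Pg (m * m') := by
    refine ⟨?_, hw, ?_⟩
    · intro h0
      exact hg.1 (by rw [hN, h0, mul_zero])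
    · exact Nat.Coprime.coprime_dvd_left (by rw [hN]; exact Dvd.intro_left _ rfl) hg.2.2
  have hcard : (p ^ 2 * (m * m')).divisors.card = 3 * (m * m').divisors.card := by
    rw [Nat.Coprime.card_divisors_mul hc, Nat.divisors_prime_pow hp, Finset.card_map,
      Finset.card_range]
  have hg' : Pg (p ^ 2 * (m * m')) := hN ▸ hg
  rw [hN]
  unfold gw
  rw [if_pos hg', if_pos hM]
  unfold tc
  rw [hcard]
  push_cast
  rw [Real.sqrt_mul (by positivity), Real.sqrt_sq (by positivity), mul_inv, mul_pow]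
  ring

/-- The double sum is a sum over pairs of second coordinates. -/
private theorem X9_sum (V : Finset (ℕ × ℕ)) (f : ℕ × ℕ → ℕ × ℕ → ℝ) (G : ℕ → ℕ → ℝ) (B : ℝ)
    (hG : ∀ m m', 0 ≤ G m m')
    (hf : ∀ u ∈ V, ∀ v ∈ V, u.1 = v.1 → f u v ≤ (u.1 : ℝ)⁻¹ * G u.2 v.2)
    (hf0 : ∀ u ∈ V, ∀ v ∈ V, u.1 ≠ v.1 → f u v ≤ 0)
    (hB : ∀ m, ∑ p ∈ (V.filter (fun u => u.2 = m)).image Prod.fst, (1 : ℝ) / p ≤ B) :
    ∑ u ∈ V, ∑ v ∈ V, f u v ≤
      B * ∑ q ∈ (V.image Prod.snd) ×ˢ (V.image Prod.snd), G q.1 q.2 := by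
  classical
  set R := V.image Prod.snd with hR
  have h1 : ∀ u ∈ V, ∑ v ∈ V, f u v ≤ (u.1 : ℝ)⁻¹ * ∑ m' ∈ R, G u.2 m' := by
    intro u hu
    have hA : ∑ v ∈ V, f u v ≤ ∑ v ∈ V.filter (fun v => u.1 = v.1), (u.1 : ℝ)⁻¹ * G u.2 v.2 := by
      rw [Finset.sum_filter]
      refine Finset.sum_le_sum fun v hv => ?_
      split_ifs with h
      · exact hf u hu v hv h
      · exact hf0 u hu v hv h
    refine hA.trans ?_
    rw [← Finset.mul_sum]
    refine mul_le_mul_of_nonneg_left ?_ (by positivity)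
    have hinj : Set.InjOn Prod.snd (↑(V.filter (fun v => u.1 = v.1)) : Set (ℕ × ℕ)) := by
      intro a ha b hb hab
      have ha' := (Finset.mem_filter.1 (Finset.mem_coe.1 ha)).2
      have hb' := (Finset.mem_filter.1 (Finset.mem_coe.1 hb)).2
      exact Prod.ext (ha'.symm.trans hb') hab
    have hsum : ∑ v ∈ V.filter (fun v => u.1 = v.1), G u.2 v.2 =
        ∑ m' ∈ (V.filter (fun v => u.1 = v.1)).image Prod.snd, G u.2 m' :=
      (Finset.sum_image (f := fun m' => G u.2 m') hinj).symm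
    rw [hsum]
    exact Finset.sum_le_sum_of_subset_of_nonneg
      (Finset.image_subset_image (Finset.filter_subset _ _)) fun m' _ _ => hG _ _
  have h2 : ∑ u ∈ V, (u.1 : ℝ)⁻¹ * ∑ m' ∈ R, G u.2 m' =
      ∑ m ∈ R, ∑ u ∈ V.filter (fun u => u.2 = m), (u.1 : ℝ)⁻¹ * ∑ m' ∈ R, G u.2 m' :=
    (Finset.sum_fiberwise_of_maps_to (fun u hu => Finset.mem_image_of_mem _ hu) _).symm
  have h3 : ∀ m ∈ R, ∑ u ∈ V.filter (fun u => u.2 = m), (u.1 : ℝ)⁻¹ * ∑ m' ∈ R, G u.2 m' ≤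
      B * ∑ m' ∈ R, G m m' := by
    intro m _
    have hS0 : 0 ≤ ∑ m' ∈ R, G m m' := Finset.sum_nonneg fun m' _ => hG _ _
    have hinj : Set.InjOn Prod.fst (↑(V.filter (fun u => u.2 = m)) : Set (ℕ × ℕ)) := by
      intro a ha b hb hab
      have ha' := (Finset.mem_filter.1 (Finset.mem_coe.1 ha)).2
      have hb' := (Finset.mem_filter.1 (Finset.mem_coe.1 hb)).2
      exact Prod.ext hab (ha'.trans hb'.symm)
    calc ∑ u ∈ V.filter (fun u => u.2 = m), (u.1 : ℝ)⁻¹ * ∑ m' ∈ R, G u.2 m'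
        = ∑ u ∈ V.filter (fun u => u.2 = m), (1 : ℝ) / u.1 * ∑ m' ∈ R, G m m' := by
          refine Finset.sum_congr rfl fun u hu => ?_
          rw [(Finset.mem_filter.1 hu).2, one_div]
      _ = (∑ u ∈ V.filter (fun u => u.2 = m), (1 : ℝ) / u.1) * ∑ m' ∈ R, G m m' := by
          rw [Finset.sum_mul]
      _ = (∑ p ∈ (V.filter (fun u => u.2 = m)).image Prod.fst, (1 : ℝ) / p) *
            ∑ m' ∈ R, G m m' := by
          rw [Finset.sum_image (f := fun p : ℕ => (1 : ℝ) / p) hinj]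
      _ ≤ B * ∑ m' ∈ R, G m m' := mul_le_mul_of_nonneg_right (hB m) hS0
  calc ∑ u ∈ V, ∑ v ∈ V, f u v ≤ ∑ u ∈ V, (u.1 : ℝ)⁻¹ * ∑ m' ∈ R, G u.2 m' :=
        Finset.sum_le_sum h1
    _ = ∑ m ∈ R, ∑ u ∈ V.filter (fun u => u.2 = m), (u.1 : ℝ)⁻¹ * ∑ m' ∈ R, G u.2 m' := h2
    _ ≤ ∑ m ∈ R, B * ∑ m' ∈ R, G m m' := Finset.sum_le_sum h3
    _ = B * ∑ q ∈ R ×ˢ R, G q.1 q.2 := by
        rw [← Finset.mul_sum, Finset.sum_product]

/-- `log Z` is large. -/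
private theorem X9_large (x e : ℝ) (he : 0 < e) (he3 : e < 1 / 3) :
    ∃ Z₀ : ℕ, ∀ Z : ℕ, Z₀ ≤ Z → 1 ≤ Real.log Z ∧ x ≤ Real.log Z ^ e ∧
      2 * Real.log Z ^ (2 / 3 : ℝ) < Real.log Z ^ (1 - e) ∧ 1 ≤ Z := by
  have t1 : Filter.Tendsto (fun Z : ℕ => Real.log (Z : ℝ)) Filter.atTop Filter.atTop :=
    Real.tendsto_log_atTop.comp tendsto_natCast_atTop_atTop
  have t2 : Filter.Tendsto (fun Z : ℕ => Real.log (Z : ℝ) ^ e) Filter.atTop Filter.atTop :=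
    (tendsto_rpow_atTop he).comp t1
  have t3 : Filter.Tendsto (fun Z : ℕ => Real.log (Z : ℝ) ^ (1 / 3 - e)) Filter.atTop
      Filter.atTop := (tendsto_rpow_atTop (by linarith)).comp t1
  obtain ⟨Z₀, hZ⟩ := Filter.eventually_atTop.1 ((t1.eventually_ge_atTop 1).and
    ((t2.eventually_ge_atTop x).and ((t3.eventually_gt_atTop 2).and
      (Filter.eventually_ge_atTop 1))))
  refine ⟨Z₀, fun Z h => ?_⟩
  obtain ⟨h1, h2, h3, h4⟩ := hZ Z h
  refine ⟨h1, h2, ?_, h4⟩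
  have h0 : 0 < Real.log (Z : ℝ) := by linarith
  have h5 : Real.log (Z : ℝ) ^ (1 - e) = Real.log (Z : ℝ) ^ (1 / 3 - e) *
      Real.log (Z : ℝ) ^ (2 / 3 : ℝ) := by
    rw [← Real.rpow_add h0]; congr 1; ring
  rw [h5]
  exact mul_lt_mul_of_pos_right h3 (Real.rpow_pos_of_pos h0 _)

private theorem X9_logp (e : ℝ) (Z q : ℕ) (h : zf e Z < q) :
    Real.log Z ^ (1 - e) < Real.log q := by
  unfold zf at h
  have h1 : Real.exp (Real.log Z ^ (1 - e)) < q := Nat.lt_of_floor_lt h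
  have h2 := Real.log_lt_log (Real.exp_pos _) h1
  rwa [Real.log_exp] at h2

theorem tX9 (h3 : S_X3) (h5 : S_X5) (h8 : S_X8) (hb : S_Mb) : S_X9 := by
  intro C
  obtain ⟨D, hD, h5'⟩ := h5 (C + 2)
  refine ⟨D + 2, by linarith, fun e he he3 => ?_⟩
  obtain ⟨Z₁, hZ₁⟩ := h5' e he he3
  obtain ⟨Z₂, hZ₂⟩ := X9_large (16 * 3 ^ C) e he he3
  refine ⟨max Z₁ Z₂, fun Z V hZ hV => ?_⟩
  have hZ1 := hZ₁ Z
  obtain ⟨l1, l2, l3, l4⟩ := hZ₂ Z ((le_max_right _ _).trans hZ)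
  set lam := Real.log (Z : ℝ) with hlam
  have l0 : 0 < lam := by linarith
  set W := lam ^ (2 / 3 : ℝ) with hW
  set y := lam ^ (1 - e) with hy
  have hW0 : 0 ≤ W := Real.rpow_nonneg l0.le _
  have hW1 : 1 ≤ W := Real.one_le_rpow l1 (by norm_num)
  have hy0 : 0 < y := Real.rpow_pos_of_pos l0 _
  have hy1 : 1 ≤ y := Real.one_le_rpow l1 (by linarith)
  -- facts on the members of V
  have fp : ∀ u ∈ V, u.1.Prime ∧ y < Real.log u.1 := by
    intro u hu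
    have h := (hV u hu).1
    unfold pr at h
    obtain ⟨ha, hb'⟩ := Finset.mem_filter.1 h
    exact ⟨hb', X9_logp e Z u.1 (Finset.mem_Ioc.1 ha).1⟩
  have fm : ∀ u ∈ V, 1 ≤ u.2 ∧ u.2 ≤ Z ∧ (∀ q ∈ u.2.primeFactors, zf e Z < q) ∧ ¬ u.2.Prime := by
    intro u hu
    have h := (hV u hu).2.1
    unfold Rset at h
    obtain ⟨ha, hb', hc⟩ := Finset.mem_filter.1 h
    exact ⟨(Finset.mem_Icc.1 ha).1, (Finset.mem_Icc.1 ha).2, hb', hc⟩
  have key : ∑ u ∈ V, ∑ v ∈ V, gw C (u.1 * u.2 * (v.1 * v.2)) ≤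
      (8 * (W + 1) / y) * ∑ q ∈ (V.image Prod.snd) ×ˢ (V.image Prod.snd),
        (3 : ℝ) ^ C * gw C (q.1 * q.2) := by
    have hmain : ∀ u ∈ V, ∀ v ∈ V, Pg (u.1 * u.2 * (v.1 * v.2)) →
        u.1 = v.1 ∧ ¬ u.1 ∣ u.2 ∧ ¬ u.1 ∣ v.2 ∧ Pw (u.2 * v.2) := by
      intro u hu v hv hg
      exact h8 y W u.1 u.2 v.1 v.2 hW0 l3 (fp u hu).1 (fp v hv).1 (fp u hu).2 (fp v hv).2
        (fm u hu).1 (fm v hv).1 (fun q hq => X9_logp e Z q ((fm u hu).2.2.1 q hq))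
        (fun q hq => X9_logp e Z q ((fm v hv).2.2.1 q hq)) (fm u hu).2.2.2 (fm v hv).2.2.2
        (hV u hu).2.2 (hV v hv).2.2 hg.2.1
    have hzero : ∀ N : ℕ, ¬ Pg N → gw C N = 0 := by
      intro N hN
      unfold gw
      rw [if_neg hN]
    refine X9_sum V (fun u v => gw C (u.1 * u.2 * (v.1 * v.2)))
      (fun m m' => (3 : ℝ) ^ C * gw C (m * m')) (8 * (W + 1) / y)
      (fun m m' => mul_nonneg (by positivity) (X9_gw_nonneg _ _)) ?_ ?_ ?_
    · intro u hu v hv huv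
      by_cases hg : Pg (u.1 * u.2 * (v.1 * v.2))
      · obtain ⟨-, b1, b2, b3⟩ := hmain u hu v hv hg
        have hg' : Pg (u.1 * u.2 * (u.1 * v.2)) := by
          have := hg
          rwa [← huv] at this
        have := X9_gw C u.1 u.2 v.2 (fp u hu).1 b1 b2 hg' b3
        show gw C (u.1 * u.2 * (v.1 * v.2)) ≤ _
        rw [← huv, this]
        exact le_of_eq (by ring)
      · show gw C (u.1 * u.2 * (v.1 * v.2)) ≤ _
        rw [hzero _ hg]
        exact mul_nonneg (by positivity) (mul_nonneg (by positivity) (X9_gw_nonneg _ _))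
    · intro u hu v hv huv
      show gw C (u.1 * u.2 * (v.1 * v.2)) ≤ 0
      rw [hzero _ fun hg => huv (hmain u hu v hv hg).1]
    · intro m
      refine hb y (Real.log m) W _ hy1 hW0 fun p hp => ?_
      obtain ⟨u, hu, rfl⟩ := Finset.mem_image.1 hp
      obtain ⟨hu1, hu2⟩ := Finset.mem_filter.1 hu
      refine ⟨(fp u hu1).1, (fp u hu1).2.le, ?_⟩
      have := (hV u hu1).2.2
      rwa [hu2] at this
  -- the sum over the pairs of integers
  set Q := (V.image Prod.snd) ×ˢ (V.image Prod.snd) with hQ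
  have hQm : ∀ q ∈ Q, ∃ u ∈ V, ∃ v ∈ V, u.2 = q.1 ∧ v.2 = q.2 := by
    intro q hq
    obtain ⟨a, b⟩ := Finset.mem_product.1 hq
    obtain ⟨u, hu, h1⟩ := Finset.mem_image.1 a
    obtain ⟨v, hv, h2⟩ := Finset.mem_image.1 b
    exact ⟨u, hu, v, hv, h1, h2⟩
  have s1 : ∑ q ∈ Q, gw C (q.1 * q.2) ≤ lam ^ (D * e) := by
    refine (h3.1 C Q fun q hq => ?_).trans ?_
    · obtain ⟨u, hu, v, hv, h1, h2⟩ := hQm q hq
      have := (fm u hu).1
      have := (fm v hv).1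
      omega
    · refine hZ1 (Q.image fun q => q.1 * q.2) ((le_max_left _ _).trans hZ) fun N hN => ?_
      obtain ⟨q, hq, rfl⟩ := Finset.mem_image.1 hN
      obtain ⟨u, hu, v, hv, h1, h2⟩ := hQm q hq
      have a1 := fm u hu
      have a2 := fm v hv
      rw [h1] at a1
      rw [h2] at a2
      constructor
      · calc q.1 * q.2 ≤ Z * Z := Nat.mul_le_mul a1.2.1 a2.2.1
          _ = Z ^ 2 := (sq Z).symm
          _ ≤ Z ^ 4 := Nat.pow_le_pow_right l4 (by norm_num)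
      · intro p hp
        rw [Nat.primeFactors_mul (by omega) (by omega), Finset.mem_union] at hp
        rcases hp with hp | hp
        · exact a1.2.2.1 p hp
        · exact a2.2.2.1 p hp
  have s2 : 8 * (W + 1) / y ≤ 16 * lam ^ (-(1 / 3) + e) := by
    rw [div_le_iff₀ hy0]
    have : lam ^ (-(1 / 3) + e) * y = W := by
      rw [hy, hW, ← Real.rpow_add l0]; congr 1; ring
    calc 8 * (W + 1) ≤ 16 * W := by linarith
      _ = 16 * (lam ^ (-(1 / 3) + e) * y) := by rw [this]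
      _ = _ := by ring
  have hS0 : 0 ≤ ∑ q ∈ Q, gw C (q.1 * q.2) := Finset.sum_nonneg fun q _ => X9_gw_nonneg _ _
  calc ∑ u ∈ V, ∑ v ∈ V, gw C (u.1 * u.2 * (v.1 * v.2))
      ≤ (8 * (W + 1) / y) * ∑ q ∈ Q, (3 : ℝ) ^ C * gw C (q.1 * q.2) := key
    _ = (8 * (W + 1) / y) * (3 ^ C * ∑ q ∈ Q, gw C (q.1 * q.2)) := by
        rw [Finset.mul_sum (s := Q) (a := (3 : ℝ) ^ C)]
    _ ≤ (16 * lam ^ (-(1 / 3) + e)) * (3 ^ C * lam ^ (D * e)) := by
        refine mul_le_mul s2 (mul_le_mul_of_nonneg_left s1 (by positivity))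
          (mul_nonneg (by positivity) hS0) (by positivity)
    _ = (16 * 3 ^ C) * lam ^ (-(1 / 3) + e + D * e) := by
        rw [Real.rpow_add l0 (-(1 / 3) + e) (D * e)]; ring
    _ ≤ lam ^ e * lam ^ (-(1 / 3) + e + D * e) :=
        mul_le_mul_of_nonneg_right l2 (by positivity)
    _ = lam ^ (-(1 / 3) + (D + 2) * e) := by
        rw [← Real.rpow_add l0]; congr 1; ring

end MP7ed9c3.Pz
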