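import Mathlib

/-!
# MP_7ed9c3_nt, part Pz: the end of the moment argument (finite statement)
-/

set_option autoImplicit false

namespace MP7ed9c3.Pz

/-- The bilinear form of the kernel `K` on `1..Z`. -/
noncomputable def Qf (Z : ℕ) (K : ℕ → ℕ → ℝ) (x y : ℕ → ℝ) : ℝ :=
  ∑ l ∈ Finset.Icc 1 Z, ∑ m ∈ Finset.Icc 1 Z, x l * y m * K l m

theorem Qf_symm {Z : ℕ} {K : ℕ → ℕ → ℝ} (hK : ∀ l m, K l m = K m l) (x y : ℕ → ℝ) :
    Qf Z K x y = Qf Z K y x := by
  unfold Qf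
  rw [Finset.sum_comm]
  refine Finset.sum_congr rfl fun l _ => Finset.sum_congr rfl fun m _ => ?_
  rw [hK m l]
  ring

theorem Qf_add_left (Z : ℕ) (K : ℕ → ℕ → ℝ) (x x' y : ℕ → ℝ) :
    Qf Z K (fun m => x m + x' m) y = Qf Z K x y + Qf Z K x' y := by
  unfold Qf
  rw [← Finset.sum_add_distrib]
  refine Finset.sum_congr rfl fun l _ => ?_
  rw [← Finset.sum_add_distrib]
  exact Finset.sum_congr rfl fun m _ => by ring

theorem Qf_smul_left (Z : ℕ) (K : ℕ → ℕ → ℝ) (c : ℝ) (x y : ℕ → ℝ) :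
    Qf Z K (fun m => c * x m) y = c * Qf Z K x y := by
  unfold Qf
  rw [Finset.mul_sum]
  refine Finset.sum_congr rfl fun l _ => ?_
  rw [Finset.mul_sum]
  exact Finset.sum_congr rfl fun m _ => by ring

theorem Qf_add_right {Z : ℕ} {K : ℕ → ℕ → ℝ} (hK : ∀ l m, K l m = K m l) (x y y' : ℕ → ℝ) :
    Qf Z K x (fun m => y m + y' m) = Qf Z K x y + Qf Z K x y' := by
  rw [Qf_symm hK, Qf_add_left, Qf_symm hK y x, Qf_symm hK y' x]

theorem Qf_smul_right {Z : ℕ} {K : ℕ → ℕ → ℝ} (hK : ∀ l m, K l m = K m l) (c : ℝ) (x y : ℕ → ℝ) :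
    Qf Z K x (fun m => c * y m) = c * Qf Z K x y := by
  rw [Qf_symm hK, Qf_smul_left, Qf_symm hK y x]

/-- Cauchy's inequality. -/
theorem Qf_cauchy {Z : ℕ} {K : ℕ → ℕ → ℝ} (hK : ∀ l m, K l m = K m l)
    (hP : ∀ x : ℕ → ℝ, 0 ≤ Qf Z K x x) (x y : ℕ → ℝ) :
    Qf Z K x y ^ 2 ≤ Qf Z K x x * Qf Z K y y := by
  have h : ∀ c : ℝ, 0 ≤ Qf Z K y y * (c * c) + 2 * Qf Z K x y * c + Qf Z K x x := by
    intro c
    have h1 := hP (fun m => x m + c * y m)
    rw [Qf_add_left, Qf_add_right hK, Qf_smul_left, Qf_add_right hK, Qf_smul_right hK,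
      Qf_smul_right hK, Qf_symm hK y x] at h1
    linarith
  have h2 := discrim_le_zero h
  unfold discrim at h2
  nlinarith

theorem Qf_sub_le {Z : ℕ} {K : ℕ → ℕ → ℝ} (hK : ∀ l m, K l m = K m l)
    (hP : ∀ x : ℕ → ℝ, 0 ≤ Qf Z K x x) (x y : ℕ → ℝ) :
    Qf Z K (fun m => x m + (-1) * y m) (fun m => x m + (-1) * y m) ≤
      2 * Qf Z K x x + 2 * Qf Z K y y := by
  have e1 := hP (fun m => x m + y m)
  have e2 : Qf Z K (fun m => x m + y m) (fun m => x m + y m) =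
      Qf Z K x x + 2 * Qf Z K x y + Qf Z K y y := by
    rw [Qf_add_left, Qf_add_right hK, Qf_add_right hK, Qf_symm hK y x]
    ring
  have e3 : Qf Z K (fun m => x m + (-1) * y m) (fun m => x m + (-1) * y m) =
      Qf Z K x x - 2 * Qf Z K x y + Qf Z K y y := by
    rw [Qf_add_left, Qf_smul_left, Qf_add_right hK, Qf_add_right hK, Qf_smul_right hK,
      Qf_smul_right hK, Qf_symm hK y x]
    ring
  linarith

/-- **The end of the moment argument.** -/
theorem Mp_end {A : Type} [Fintype A] {Z : ℕ} {K : ℕ → ℕ → ℝ} (hK : ∀ l m, K l m = K m l)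
    (hP : ∀ x : ℕ → ℝ, 0 ≤ Qf Z K x x) (t r1 r2 : A → ℕ → ℝ) {E τ v w u : ℝ} (hE : 0 < E)
    (hτ : 0 < τ) (hEτ : 32 * τ ≤ E)
    (hv : ∑ a, (Qf Z K (t a) (t a) - E) ^ 2 ≤ v) (hw : ∑ a, Qf Z K (t a) (r1 a) ^ 2 ≤ w)
    (hu : ∑ a, Qf Z K (r2 a) (r2 a) ≤ u) (B : Finset A)
    (hB : ∀ a ∈ B, Qf Z K (fun m => t a m + r1 a m + r2 a m) (fun m => t a m + r1 a m + r2 a m) ≤ τ) :
    (B.card : ℝ) ≤ 4 * v / E ^ 2 + 16 * w / E ^ 2 + u / τ := by
  classical
  set B1 := Finset.univ.filter (fun a => Qf Z K (t a) (t a) < E / 2) with hB1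
  set B2 := Finset.univ.filter (fun a => E / 4 ≤ |Qf Z K (t a) (r1 a)|) with hB2
  set B3 := Finset.univ.filter (fun a => τ < Qf Z K (r2 a) (r2 a)) with hB3
  have hsub : B ⊆ B1 ∪ B2 ∪ B3 := by
    intro a ha
    by_contra hno
    simp only [hB1, hB2, hB3, Finset.mem_union, Finset.mem_filter, Finset.mem_univ, true_and,
      not_or, not_lt, not_le] at hno
    obtain ⟨⟨h1, h2⟩, h3⟩ := hno
    have hd := hB a ha
    set d : ℕ → ℝ := fun m => t a m + r1 a m + r2 a m with hdd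
    have hs : (fun m => t a m + r1 a m) = (fun m => d m + (-1) * r2 a m) := by
      funext m
      simp only [hdd]
      ring
    -- the square of t + r1
    have hss : Qf Z K (fun m => t a m + r1 a m) (fun m => t a m + r1 a m) ≤ 4 * τ := by
      rw [hs]
      have e1 := Qf_sub_le hK hP d (r2 a)
      linarith
    have hc := Qf_cauchy hK hP (t a) (fun m => t a m + r1 a m)
    have he : Qf Z K (t a) (fun m => t a m + r1 a m) = Qf Z K (t a) (t a) + Qf Z K (t a) (r1 a) :=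
      Qf_add_right hK _ _ _
    have hA : 0 < Qf Z K (t a) (t a) := by linarith
    have h4 : Qf Z K (t a) (fun m => t a m + r1 a m) ^ 2 ≤ (Qf Z K (t a) (t a) / 2) ^ 2 := by
      calc Qf Z K (t a) (fun m => t a m + r1 a m) ^ 2 ≤ Qf Z K (t a) (t a) * (4 * τ) :=
            hc.trans (mul_le_mul_of_nonneg_left hss hA.le)
        _ ≤ (Qf Z K (t a) (t a) / 2) ^ 2 := by nlinarith
    have h5 := abs_le_of_sq_le_sq' h4 (by linarith)
    rw [he] at h5
    have h6 : |Qf Z K (t a) (r1 a)| < E / 4 := h2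
    rw [abs_lt] at h6
    linarith [h5.2, h6.1]
  have c1 : (B1.card : ℝ) ≤ 4 * v / E ^ 2 := by
    have : (B1.card : ℝ) * (E / 2) ^ 2 ≤ v := by
      calc (B1.card : ℝ) * (E / 2) ^ 2 = ∑ _a ∈ B1, (E / 2) ^ 2 := by
            rw [Finset.sum_const, nsmul_eq_mul]
        _ ≤ ∑ a ∈ B1, (Qf Z K (t a) (t a) - E) ^ 2 := by
            refine Finset.sum_le_sum fun a ha => ?_
            rw [hB1, Finset.mem_filter] at ha
            nlinarith [ha.2]
        _ ≤ ∑ a, (Qf Z K (t a) (t a) - E) ^ 2 :=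
            Finset.sum_le_sum_of_subset_of_nonneg (Finset.subset_univ _) fun _ _ _ => sq_nonneg _
        _ ≤ v := hv
    rw [le_div_iff₀ (by positivity)]
    nlinarith
  have c2 : (B2.card : ℝ) ≤ 16 * w / E ^ 2 := by
    have : (B2.card : ℝ) * (E / 4) ^ 2 ≤ w := by
      calc (B2.card : ℝ) * (E / 4) ^ 2 = ∑ _a ∈ B2, (E / 4) ^ 2 := by
            rw [Finset.sum_const, nsmul_eq_mul]
        _ ≤ ∑ a ∈ B2, Qf Z K (t a) (r1 a) ^ 2 := by
            refine Finset.sum_le_sum fun a ha => ?_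
            rw [hB2, Finset.mem_filter] at ha
            rw [← sq_abs (Qf Z K (t a) (r1 a))]
            exact pow_le_pow_left₀ (by positivity) ha.2 2
        _ ≤ ∑ a, Qf Z K (t a) (r1 a) ^ 2 :=
            Finset.sum_le_sum_of_subset_of_nonneg (Finset.subset_univ _) fun _ _ _ => sq_nonneg _
        _ ≤ w := hw
    rw [le_div_iff₀ (by positivity)]
    nlinarith
  have c3 : (B3.card : ℝ) ≤ u / τ := by
    have : (B3.card : ℝ) * τ ≤ u := by
      calc (B3.card : ℝ) * τ = ∑ _a ∈ B3, τ := by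
            rw [Finset.sum_const, nsmul_eq_mul]
        _ ≤ ∑ a ∈ B3, Qf Z K (r2 a) (r2 a) := by
            refine Finset.sum_le_sum fun a ha => ?_
            rw [hB3, Finset.mem_filter] at ha
            exact ha.2.le
        _ ≤ ∑ a, Qf Z K (r2 a) (r2 a) :=
            Finset.sum_le_sum_of_subset_of_nonneg (Finset.subset_univ _) fun _ _ _ => hP _
        _ ≤ u := hu
    rwa [le_div_iff₀ hτ]
  have h7 : (B.card : ℝ) ≤ B1.card + B2.card + B3.card := by
    have e1 := Finset.card_le_card hsub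
    have e2 := Finset.card_union_le (B1 ∪ B2) B3
    have e3 := Finset.card_union_le B1 B2
    exact_mod_cast (by omega : B.card ≤ B1.card + B2.card + B3.card)
  linarith

end MP7ed9c3.Pz
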