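import Pool.Agent.Lib.MP_7ed9c3_nt.Pz.SpecMx
import Pool.Agent.Lib.MP_7ed9c3_nt.Pz.MpE

/-!
# MP_7ed9c3_nt, part Pz: assembly of the moment theorem
-/

set_option autoImplicit false

namespace MP7ed9c3.Pz

open MP7ed9c3.Tz

private theorem XEnd_zf {e : ℝ} (he : 0 < e) (he1 : e ≤ 1 / 100) {Z : ℕ} (hl : 30 ≤ Real.log Z) :
    3 ≤ zf e Z ∧ zf e Z ≤ Z ∧ Real.log Z ≤ zf e Z := by
  have hZ0 : (0 : ℝ) < Z := by
    rcases Nat.eq_zero_or_pos Z with h | h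
    · rw [h, Nat.cast_zero, Real.log_zero] at hl
      linarith
    · exact_mod_cast h
  set lam := Real.log Z with hlam
  have h1 : lam ^ (1 / 2 : ℝ) ≤ lam ^ (1 - e) :=
    Real.rpow_le_rpow_of_exponent_le (by linarith) (by linarith)
  have h2 : lam ^ (1 - e) ≤ lam := by
    calc lam ^ (1 - e) ≤ lam ^ (1 : ℝ) := Real.rpow_le_rpow_of_exponent_le (by linarith) (by linarith)
      _ = lam := Real.rpow_one _
  have h3 : lam + 4 ≤ Real.exp (lam ^ (1 - e)) := by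
    have h4 := Real.pow_div_factorial_le_exp (lam ^ (1 / 2 : ℝ)) (by positivity) 4
    have h5 : (lam ^ (1 / 2 : ℝ)) ^ 4 = lam ^ 2 := by
      rw [← Real.rpow_natCast, ← Real.rpow_mul (by linarith)]
      norm_num
    rw [h5] at h4
    have h6 : ((4 : ℕ).factorial : ℝ) = 24 := by norm_num [Nat.factorial]
    rw [h6] at h4
    have h7 : lam + 4 ≤ lam ^ 2 / 24 := by nlinarith
    exact h7.trans (h4.trans (Real.exp_le_exp.2 h1))
  have h8 : Real.exp (lam ^ (1 - e)) - 1 < (zf e Z : ℝ) := by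
    unfold zf
    exact Nat.sub_one_lt_floor _
  refine ⟨?_, ?_, by linarith⟩
  · have : (3 : ℝ) ≤ zf e Z := by linarith
    exact_mod_cast this
  · have h9 : (zf e Z : ℝ) ≤ Z := by
      calc (zf e Z : ℝ) ≤ Real.exp (lam ^ (1 - e)) := Nat.floor_le (Real.exp_pos _).le
        _ ≤ Real.exp lam := Real.exp_le_exp.2 h2
        _ = Z := by rw [hlam, Real.exp_log hZ0]
    exact_mod_cast h9

private theorem XEnd_ite_sum {Z : ℕ} {S : Finset ℕ} (hS : S ⊆ Finset.Icc 1 Z) (f : ℕ → ℝ) :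
    ∑ m ∈ Finset.Icc 1 Z, (if m ∈ S then f m else 0) = ∑ m ∈ S, f m := by
  classical
  rw [← Finset.sum_filter]
  refine Finset.sum_congr ?_ fun _ _ => rfl
  ext m
  rw [Finset.mem_filter]
  exact ⟨fun h => h.2, fun h => ⟨hS h, h⟩⟩

private theorem XEnd_Qf {Z : ℕ} (K : ℕ → ℕ → ℝ) {S T : Finset ℕ} (hS : S ⊆ Finset.Icc 1 Z)
    (hT : T ⊆ Finset.Icc 1 Z) (f g : ℕ → ℝ) :
    Qf Z K (fun m => if m ∈ S then f m else 0) (fun m => if m ∈ T then g m else 0) =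
      ∑ u ∈ S ×ˢ T, f u.1 * g u.2 * K u.1 u.2 := by
  classical
  rw [Finset.sum_product]
  unfold Qf
  have h1 : ∀ l ∈ Finset.Icc 1 Z, ∑ m ∈ Finset.Icc 1 Z,
      (if l ∈ S then f l else 0) * (if m ∈ T then g m else 0) * K l m =
      if l ∈ S then ∑ m ∈ T, f l * g m * K l m else 0 := by
    intro l _
    by_cases hl : l ∈ S
    · simp only [hl, if_true]
      rw [← XEnd_ite_sum hT (fun m => f l * g m * K l m)]
      refine Finset.sum_congr rfl fun m _ => ?_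
      split_ifs <;> ring
    · simp only [hl, if_false]
      refine Finset.sum_eq_zero fun m _ => by ring
  rw [Finset.sum_congr rfl h1, XEnd_ite_sum hS]

/-- **The moment theorem** (from X6, X7, X9, X10, X11, X12 and `Mp_end`). -/
theorem mtA (h6 : S_X6) (h7 : S_X7) (h9 : S_X9) (h10 : S_X10) (h11 : S_X11) (h12 : S_X12) :
    S_MT := by
  classical
  intro ι _ _ D C₁ c₂ η hC₁ hc₂ hη
  obtain ⟨C6, Z6, H6⟩ := h6 ι D C₁ hC₁
  obtain ⟨D9, hD9, H9⟩ := h9 C6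
  obtain ⟨e, he, he1, he2⟩ : ∃ e : ℝ, 0 < e ∧ e ≤ 1 / 100 ∧ D9 * e ≤ 1 / 100 := by
    refine ⟨1 / (100 * (D9 + 1)), by positivity, ?_, ?_⟩
    · rw [div_le_div_iff₀ (by positivity) (by norm_num)]
      nlinarith
    · rw [mul_one_div, div_le_div_iff₀ (by positivity) (by norm_num)]
      nlinarith
  obtain ⟨Z7, H7⟩ := h7 C6 e he (by linarith)
  obtain ⟨Z9, H9'⟩ := H9 e he (by linarith)
  obtain ⟨Z10, H10⟩ := h10 ι D C₁ η e hC₁ hη he (by linarith)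
  obtain ⟨C11, hC11, H11⟩ := h11 ι D C₁ hC₁
  set A : ℝ := (8 * C11 + 24 * C₁ ^ 2 + 24) / c₂ ^ 2 + 1 with hA
  -- large Z
  obtain ⟨Z1, hZ1⟩ : ∃ Z1 : ℕ, ∀ Z : ℕ, Z1 ≤ Z → 30 ≤ Real.log Z ∧
      32 * (Real.log Z) ^ (-(1 / 10 : ℝ)) ≤ c₂ ∧ A ≤ (Real.log Z) ^ (1 / 100 : ℝ) := by
    have hl : Filter.Tendsto (fun Z : ℕ => Real.log Z) Filter.atTop Filter.atTop :=
      Real.tendsto_log_atTop.comp tendsto_natCast_atTop_atTop
    have e1 := hl.eventually_ge_atTop 30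
    have e2 := ((tendsto_rpow_neg_atTop (by norm_num : (0 : ℝ) < 1 / 10)).comp hl).eventually_le_const
      (show (0 : ℝ) < c₂ / 32 by positivity)
    have e3 := ((tendsto_rpow_atTop (by norm_num : (0 : ℝ) < 1 / 100)).comp hl).eventually_ge_atTop A
    obtain ⟨Z1, h⟩ := Filter.eventually_atTop.1 (e1.and (e2.and e3))
    refine ⟨Z1, fun Z hZ => ?_⟩
    obtain ⟨a1, a2, a3⟩ := h Z hZ
    simp only [Function.comp_apply] at a2 a3
    exact ⟨a1, by linarith, a3⟩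
  refine ⟨e, max Z1 (max Z6 (max Z7 (max Z9 Z10))), he, by linarith, ?_⟩
  intro β ν hLD Z X L A₀ K hZ hX hL hK hPSD hKb hc
  have hz1 : Z1 ≤ Z := (le_max_left _ _).trans hZ
  have hz' := (le_max_right Z1 _).trans hZ
  have hz6 : Z6 ≤ Z := (le_max_left _ _).trans hz'
  have hz'' := (le_max_right Z6 _).trans hz'
  have hz7 : Z7 ≤ Z := (le_max_left _ _).trans hz''
  have hz''' := (le_max_right Z7 _).trans hz''
  have hz9 : Z9 ≤ Z := (le_max_left _ _).trans hz'''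
  have hz10 : Z10 ≤ Z := (le_max_right _ _).trans hz'''
  obtain ⟨hl30, hτc, hAl⟩ := hZ1 Z hz1
  obtain ⟨hz3, hzZ, hzl⟩ := XEnd_zf he he1 hl30
  set lam := Real.log Z with hlam
  set z := zf e Z with hz
  have hlam0 : 0 < lam := by linarith
  have hX1 : 1 ≤ X := by
    rcases Nat.eq_zero_or_pos X with h | h
    · rw [h, Nat.cast_zero, Real.log_zero] at hX
      have : 0 < η * lam := by positivity
      linarith
    · exact h
  have hKB : KB C₁ Z K := ⟨hK, hKb⟩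
  set P := pr z Z with hP
  have hPI : P ⊆ Finset.Icc 1 Z := by
    intro p hp
    rw [hP, pr, Finset.mem_filter, Finset.mem_Ioc] at hp
    rw [Finset.mem_Icc]
    omega
  have hRI : Rset z Z ⊆ Finset.Icc 1 Z := Finset.filter_subset _ _
  set S := (Finset.Icc 1 Z).filter (fun m => X < smz (z : ℝ) m) with hS
  have hSI : S ⊆ Finset.Icc 1 Z := Finset.filter_subset _ _
  set n := Fintype.card ι with hn
  -- the three parts
  set t : (ι → Fin L) → ℕ → ℝ := fun a m => if m ∈ P then β m 1 (sh A₀ a) else 0 with ht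
  set r1 : (ι → Fin L) → ℕ → ℝ :=
    fun a m => if m ∈ Rset z Z then dco β ν z X m (sh A₀ a) else 0 with hr1
  set r2 : (ι → Fin L) → ℕ → ℝ := fun a m => if m ∈ S then dco β ν z X m (sh A₀ a) else 0 with hr2
  have hdec : ∀ (a : ι → Fin L), ∀ m ∈ Finset.Icc 1 Z,
      dco β ν z X m (sh A₀ a) = t a m + r1 a m + r2 a m := by
    intro a m hm
    have h := (h12 ι D β ν hLD z X Z (sh A₀ a) hz3 hX1 m hm).1
    rw [h]
    simp only [ht, hr1, hr2]
    congr 1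
    have : (m ∈ S) ↔ X < smz (z : ℝ) m := by
      rw [hS, Finset.mem_filter]
      exact ⟨fun h => h.2, fun h => ⟨hm, h⟩⟩
    by_cases hc' : X < smz (z : ℝ) m
    · simp only [hc', if_true, this.2 hc']
    · have h' : m ∉ S := fun h => hc' (this.1 h)
      simp only [hc', if_false, h']
  have hpd : ∀ (a : ι → Fin L), ∀ p ∈ P, β p 1 (sh A₀ a) = dco β ν z X p (sh A₀ a) := by
    intro a p hp
    exact ((h12 ι D β ν hLD z X Z (sh A₀ a) hz3 hX1 p (hPI hp)).2 hp).symm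
  set E : ℝ := ∑ p ∈ P, mean p (fun a => β p 1 a ^ 2) * K p p with hE
  have hEc : c₂ ≤ E := hc
  have hE0 : 0 < E := by linarith
  set τ : ℝ := lam ^ (-(1 / 10 : ℝ)) with hτ
  have hτ0 : 0 < τ := by positivity
  have hPSD' : ∀ x : ℕ → ℝ, 0 ≤ Qf Z K x x := hPSD
  -- the error exponents
  set s0 : ℝ := lam ^ (-(31 / 100 : ℝ)) with hs0
  have hs00 : 0 < s0 := by positivity
  have hx7 : lam ^ (-(1 / 3) + 2 * e) ≤ s0 :=
    Real.rpow_le_rpow_of_exponent_le (by linarith) (by linarith)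
  have hx9 : lam ^ (-(1 / 3) + D9 * e) ≤ s0 :=
    Real.rpow_le_rpow_of_exponent_le (by linarith) (by linarith)
  have hxi : lam⁻¹ ≤ s0 := by
    rw [← Real.rpow_neg_one]
    exact Real.rpow_le_rpow_of_exponent_le (by linarith) (by norm_num)
  have hLn : (0 : ℝ) ≤ (L : ℝ) ^ n := by positivity
  -- (1) the variance
  set U7 : Finset (ℕ × ℕ) := (P ×ˢ P).filter (fun u => u.1 ≠ u.2) with hU7
  have hU7I : ∀ u ∈ U7, u.1 ∈ Finset.Icc 1 Z ∧ u.2 ∈ Finset.Icc 1 Z := by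
    intro u hu
    rw [hU7, Finset.mem_filter, Finset.mem_product] at hu
    exact ⟨hPI hu.1.1, hPI hu.1.2⟩
  have hQtt : ∀ a : ι → Fin L, Qf Z K (t a) (t a) - E =
      (∑ p ∈ P, K p p * (β p 1 (sh A₀ a) ^ 2 - mean p (fun a => β p 1 a ^ 2))) +
      ∑ u ∈ U7, dco β ν z X u.1 (sh A₀ a) * dco β ν z X u.2 (sh A₀ a) * K u.1 u.2 := by
    intro a
    have q1 : Qf Z K (t a) (t a) = ∑ u ∈ P ×ˢ P, β u.1 1 (sh A₀ a) * β u.2 1 (sh A₀ a) * K u.1 u.2 := by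
      simp only [ht]
      exact XEnd_Qf K hPI hPI (fun m => β m 1 (sh A₀ a)) (fun m => β m 1 (sh A₀ a))
    rw [q1, ← Finset.sum_filter_add_sum_filter_not (P ×ˢ P) (fun u => u.1 = u.2)]
    have q2 : ∑ u ∈ (P ×ˢ P).filter (fun u => u.1 = u.2),
        β u.1 1 (sh A₀ a) * β u.2 1 (sh A₀ a) * K u.1 u.2 = ∑ p ∈ P, β p 1 (sh A₀ a) ^ 2 * K p p := by
      symm
      refine Finset.sum_bij (fun p _ => (p, p)) ?_ ?_ ?_ ?_
      · intro p hp
        rw [Finset.mem_filter, Finset.mem_product]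
        exact ⟨⟨hp, hp⟩, rfl⟩
      · intro p _ q _ h
        exact (Prod.ext_iff.1 h).1
      · intro u hu
        rw [Finset.mem_filter, Finset.mem_product] at hu
        exact ⟨u.1, hu.1.1, Prod.ext rfl hu.2⟩
      · intro p _
        ring
    rw [q2]
    have q3 : ∑ u ∈ (P ×ˢ P).filter (fun u => ¬ u.1 = u.2),
        β u.1 1 (sh A₀ a) * β u.2 1 (sh A₀ a) * K u.1 u.2 =
        ∑ u ∈ U7, dco β ν z X u.1 (sh A₀ a) * dco β ν z X u.2 (sh A₀ a) * K u.1 u.2 := by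
      refine Finset.sum_congr rfl fun u hu => ?_
      rw [Finset.mem_filter, Finset.mem_product] at hu
      rw [hpd a u.1 hu.1.1, hpd a u.2 hu.1.2]
    rw [q3, hE]
    have q4 : ∑ p ∈ P, K p p * (β p 1 (sh A₀ a) ^ 2 - mean p (fun a => β p 1 a ^ 2)) =
        ∑ p ∈ P, β p 1 (sh A₀ a) ^ 2 * K p p - ∑ p ∈ P, mean p (fun a => β p 1 a ^ 2) * K p p := by
      rw [← Finset.sum_sub_distrib]
      exact Finset.sum_congr rfl fun p _ => by ring
    rw [q4]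
    ring
  have hv : ∑ a : ι → Fin L, (Qf Z K (t a) (t a) - E) ^ 2 ≤
      (L : ℝ) ^ n * (2 * C11 + 2 * C₁ ^ 2 + 2) * s0 := by
    have g1 : ∑ a : ι → Fin L, (∑ p ∈ P, K p p * (β p 1 (sh A₀ a) ^ 2 -
        mean p (fun a => β p 1 a ^ 2))) ^ 2 ≤ (L : ℝ) ^ n * (C11 / z) := by
      have := H11 β ν hLD z Z L A₀ (fun p => K p p) hz3 hzZ hL (by
        intro p hp
        have hp1 := hPI hp
        have := (hKb p hp1 p hp1).1
        rw [sq]
        exact this)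
      exact this
    have g2 : ∑ a : ι → Fin L, (∑ u ∈ U7, dco β ν z X u.1 (sh A₀ a) * dco β ν z X u.2 (sh A₀ a) *
        K u.1 u.2) ^ 2 ≤ (L : ℝ) ^ n * (C₁ ^ 2 * s0 + s0) := by
      have h := H6 β ν hLD z X Z L A₀ K U7 hz6 hL hKB hU7I
      have h' := H7 Z (U7.filter (fun u => |Real.log u.1 - Real.log u.2| ≤ Real.log Z ^ (2 / 3 : ℝ))) hz7 (by
        intro u hu
        rw [Finset.mem_filter] at hu
        have h1 := hu.1
        rw [hU7, Finset.mem_filter, Finset.mem_product] at h1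
        exact ⟨h1.1.1, h1.1.2, h1.2, hu.2⟩)
      refine h.trans (mul_le_mul_of_nonneg_left ?_ hLn)
      refine add_le_add (mul_le_mul_of_nonneg_left (h'.trans hx7) (by positivity)) hxi
    have g3 : C11 / z ≤ C11 * s0 := by
      rw [div_eq_mul_inv]
      refine mul_le_mul_of_nonneg_left ?_ hC11.le
      refine (inv_anti₀ hlam0 hzl).trans hxi
    calc ∑ a : ι → Fin L, (Qf Z K (t a) (t a) - E) ^ 2
        ≤ ∑ a : ι → Fin L, (2 * (∑ p ∈ P, K p p * (β p 1 (sh A₀ a) ^ 2 -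
            mean p (fun a => β p 1 a ^ 2))) ^ 2 +
          2 * (∑ u ∈ U7, dco β ν z X u.1 (sh A₀ a) * dco β ν z X u.2 (sh A₀ a) * K u.1 u.2) ^ 2) := by
          refine Finset.sum_le_sum fun a _ => ?_
          rw [hQtt a]
          nlinarith [sq_nonneg ((∑ p ∈ P, K p p * (β p 1 (sh A₀ a) ^ 2 -
            mean p (fun a => β p 1 a ^ 2))) -
            ∑ u ∈ U7, dco β ν z X u.1 (sh A₀ a) * dco β ν z X u.2 (sh A₀ a) * K u.1 u.2)]
      _ ≤ 2 * ((L : ℝ) ^ n * (C11 / z)) + 2 * ((L : ℝ) ^ n * (C₁ ^ 2 * s0 + s0)) := by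
          rw [Finset.sum_add_distrib, ← Finset.mul_sum, ← Finset.mul_sum]
          linarith
      _ ≤ 2 * ((L : ℝ) ^ n * (C11 * s0)) + 2 * ((L : ℝ) ^ n * (C₁ ^ 2 * s0 + s0)) := by
          have := mul_le_mul_of_nonneg_left g3 hLn
          linarith
      _ = (L : ℝ) ^ n * (2 * C11 + 2 * C₁ ^ 2 + 2) * s0 := by ring
  -- (2) the mixed term
  have hw : ∑ a : ι → Fin L, Qf Z K (t a) (r1 a) ^ 2 ≤ (L : ℝ) ^ n * (C₁ ^ 2 + 1) * s0 := by
    have q1 : ∀ a : ι → Fin L, Qf Z K (t a) (r1 a) = ∑ u ∈ P ×ˢ Rset z Z,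
        dco β ν z X u.1 (sh A₀ a) * dco β ν z X u.2 (sh A₀ a) * K u.1 u.2 := by
      intro a
      simp only [ht, hr1]
      rw [XEnd_Qf K hPI hRI (fun m => β m 1 (sh A₀ a)) (fun m => dco β ν z X m (sh A₀ a))]
      refine Finset.sum_congr rfl fun u hu => ?_
      rw [Finset.mem_product] at hu
      rw [hpd a u.1 hu.1]
    have h := H6 β ν hLD z X Z L A₀ K (P ×ˢ Rset z Z) hz6 hL hKB (by
      intro u hu
      rw [Finset.mem_product] at hu
      exact ⟨hPI hu.1, hRI hu.2⟩)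
    have h' := H9' Z ((P ×ˢ Rset z Z).filter (fun u => |Real.log u.1 - Real.log u.2| ≤
      Real.log Z ^ (2 / 3 : ℝ))) hz9 (by
        intro u hu
        rw [Finset.mem_filter, Finset.mem_product] at hu
        exact ⟨hu.1.1, hu.1.2, hu.2⟩)
    calc ∑ a : ι → Fin L, Qf Z K (t a) (r1 a) ^ 2 = ∑ a : ι → Fin L, (∑ u ∈ P ×ˢ Rset z Z,
        dco β ν z X u.1 (sh A₀ a) * dco β ν z X u.2 (sh A₀ a) * K u.1 u.2) ^ 2 :=
          Finset.sum_congr rfl fun a _ => by rw [q1 a]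
      _ ≤ (L : ℝ) ^ n * (C₁ ^ 2 * s0 + s0) := by
          refine h.trans (mul_le_mul_of_nonneg_left ?_ hLn)
          exact add_le_add (mul_le_mul_of_nonneg_left (h'.trans hx9) (by positivity)) hxi
      _ = (L : ℝ) ^ n * (C₁ ^ 2 + 1) * s0 := by ring
  -- (3) the smooth part
  have hu : ∑ a : ι → Fin L, Qf Z K (r2 a) (r2 a) ≤ (L : ℝ) ^ n * lam⁻¹ := by
    have q1 : ∀ a : ι → Fin L, Qf Z K (r2 a) (r2 a) = ∑ l ∈ S, ∑ m ∈ S,
        dco β ν z X l (sh A₀ a) * dco β ν z X m (sh A₀ a) * K l m := by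
      intro a
      simp only [hr2]
      rw [XEnd_Qf K hSI hSI (fun m => dco β ν z X m (sh A₀ a)) (fun m => dco β ν z X m (sh A₀ a)),
        Finset.sum_product]
    have h := H10 β ν hLD Z X L A₀ K S hz10 hX hL hKB (by
      intro m hm
      rw [hS, Finset.mem_filter] at hm
      exact hm)
    calc ∑ a : ι → Fin L, Qf Z K (r2 a) (r2 a) = ∑ a : ι → Fin L, ∑ l ∈ S, ∑ m ∈ S,
        dco β ν z X l (sh A₀ a) * dco β ν z X m (sh A₀ a) * K l m :=
          Finset.sum_congr rfl fun a _ => q1 a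
      _ ≤ (L : ℝ) ^ n * lam⁻¹ := h
  -- the end
  set Bd := Finset.univ.filter (fun a : ι → Fin L =>
        ∑ l ∈ Finset.Icc 1 Z, ∑ m ∈ Finset.Icc 1 Z,
          dco β ν z X l (sh A₀ a) * dco β ν z X m (sh A₀ a) * K l m ≤ τ) with hBd
  have hB : ∀ a ∈ Bd, Qf Z K (fun m => t a m + r1 a m + r2 a m)
      (fun m => t a m + r1 a m + r2 a m) ≤ τ := by
    intro a ha
    rw [hBd, Finset.mem_filter] at ha
    refine le_trans (le_of_eq ?_) ha.2
    unfold Qf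
    refine Finset.sum_congr rfl fun l hl => Finset.sum_congr rfl fun m hm => ?_
    rw [hdec a l hl, hdec a m hm]
  have hend := Mp_end hK hPSD' t r1 r2 hE0 hτ0 (by linarith) hv hw hu Bd hB
  refine hend.trans ?_
  have hE2 : c₂ ^ 2 ≤ E ^ 2 := pow_le_pow_left₀ hc₂.le hEc 2
  have k1 : 4 * ((L : ℝ) ^ n * (2 * C11 + 2 * C₁ ^ 2 + 2) * s0) / E ^ 2 ≤
      4 * ((L : ℝ) ^ n * (2 * C11 + 2 * C₁ ^ 2 + 2) * s0) / c₂ ^ 2 :=
    div_le_div_of_nonneg_left (by positivity) (by positivity) hE2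
  have k2 : 16 * ((L : ℝ) ^ n * (C₁ ^ 2 + 1) * s0) / E ^ 2 ≤
      16 * ((L : ℝ) ^ n * (C₁ ^ 2 + 1) * s0) / c₂ ^ 2 :=
    div_le_div_of_nonneg_left (by positivity) (by positivity) hE2
  have k3 : (L : ℝ) ^ n * lam⁻¹ / τ ≤ (L : ℝ) ^ n * s0 := by
    rw [mul_div_assoc]
    refine mul_le_mul_of_nonneg_left ?_ hLn
    rw [hτ, hs0, ← Real.rpow_neg_one, ← Real.rpow_sub hlam0]
    exact Real.rpow_le_rpow_of_exponent_le (by linarith) (by norm_num)
  have k4 : 4 * ((L : ℝ) ^ n * (2 * C11 + 2 * C₁ ^ 2 + 2) * s0) / c₂ ^ 2 +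
      16 * ((L : ℝ) ^ n * (C₁ ^ 2 + 1) * s0) / c₂ ^ 2 + (L : ℝ) ^ n * s0 =
      (L : ℝ) ^ n * (A * s0) := by
    rw [hA]
    field_simp
    ring
  have k5 : A * s0 ≤ lam ^ (-(3 / 10 : ℝ)) := by
    calc A * s0 ≤ lam ^ (1 / 100 : ℝ) * s0 := mul_le_mul_of_nonneg_right hAl hs00.le
      _ = lam ^ (-(3 / 10 : ℝ)) := by
        rw [hs0, ← Real.rpow_add hlam0]
        norm_num
  calc 4 * ((L : ℝ) ^ n * (2 * C11 + 2 * C₁ ^ 2 + 2) * s0) / E ^ 2 +
      16 * ((L : ℝ) ^ n * (C₁ ^ 2 + 1) * s0) / E ^ 2 + (L : ℝ) ^ n * lam⁻¹ / τ ≤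
      (L : ℝ) ^ n * (A * s0) := by linarith
    _ ≤ (L : ℝ) ^ n * lam ^ (-(3 / 10 : ℝ)) := mul_le_mul_of_nonneg_left k5 hLn

end MP7ed9c3.Pz
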