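import Pool.Agent.Lib.MP_7ed9c3_nt.Tz.Equi
import Pool.Agent.Lib.MP_7ed9c3_nt.Pz.Ma
import Pool.Agent.Lib.MP_7ed9c3_nt.Pz.Mb
import Pool.Agent.Lib.MP_7ed9c3_nt.Pz.Mc
import Pool.Agent.Lib.MP_7ed9c3_nt.Pz.Md
import Pool.Agent.Lib.MP_7ed9c3_nt.Pz.Me
import Pool.Agent.Lib.MP_7ed9c3_nt.Pz.Mf
import Pool.Agent.Lib.MP_7ed9c3_nt.Pz.Mg
import Pool.Agent.Lib.MP_7ed9c3_nt.Pz.X1
import Pool.Agent.Lib.MP_7ed9c3_nt.Pz.X2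
import Pool.Agent.Lib.MP_7ed9c3_nt.Pz.X3
import Pool.Agent.Lib.MP_7ed9c3_nt.Pz.X4
import Pool.Agent.Lib.MP_7ed9c3_nt.Pz.X5
import Pool.Agent.Lib.MP_7ed9c3_nt.Pz.X6
import Pool.Agent.Lib.MP_7ed9c3_nt.Pz.X7
import Pool.Agent.Lib.MP_7ed9c3_nt.Pz.X8
import Pool.Agent.Lib.MP_7ed9c3_nt.Pz.X9
import Pool.Agent.Lib.MP_7ed9c3_nt.Pz.X10
import Pool.Agent.Lib.MP_7ed9c3_nt.Pz.X11
import Pool.Agent.Lib.MP_7ed9c3_nt.Pz.X12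
import Pool.Agent.Lib.MP_7ed9c3_nt.Pz.XEnd

/-!
# MP_7ed9c3_nt, part Pz: the moment theorem
-/

set_option autoImplicit false

namespace MP7ed9c3.Pz

open NumberField IsDedekindDomain MP7ed9c3 MP7ed9c3.Tw MP7ed9c3.Tz

theorem mbA : S_Mb := tMb tMa

theorem mcA : S_Mc := tMc tMa

theorem mfA : S_Mf := tMf tMd tMe

theorem x2A : S_X2 := tX2 equi

theorem x3A : S_X3 := tX3 tMg

theorem x4A : S_X4 := tX4 mfA mcA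

theorem x5A : S_X5 := tX5 mfA mcA

theorem x6A : S_X6 := tX6 x2A x3A x4A

theorem x9A : S_X9 := tX9 x3A x5A tX8 mbA

theorem mt : S_MT :=
  mtA x6A (tX7 mbA mcA) x9A (tX10 x2A x3A x4A) (tX11 equi) (tX12 tX1)

end MP7ed9c3.Pz
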