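import Pool.Agent.Lib.MP_7ed9c3_nt.Pz.Parts
import Pool.Agent.Lib.MP_7ed9c3_nt.Pz.MtAll

/-!
# MP_7ed9c3_nt, part Pz: assembly
-/

set_option autoImplicit false

namespace MP7ed9c3.Pz

theorem pzAll : S_PZ := pzOf mt

end MP7ed9c3.Pz
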