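import Pool.Agent.Lib.MP_7ed9c3_nt.Tz.FF

/-!
# MP_7ed9c3_nt, part Pz, FibF: the cubic equations `y² = x³ + a x + b` with fixed `a`, over a finite field
-/

set_option autoImplicit false

namespace MP7ed9c3.Pz

open NumberField IsDedekindDomain Filter Topology MP7ed9c3.Tw MP7ed9c3.Zs MP7ed9c3.Tz
open MP7ed9c3.Tz.FFM

namespace FibFM

variable {F : Type} [Field F] [Fintype F] [DecidableEq F]

theorem X_mul (u w : F) : X (u * w) = X u * X w := by
  unfold X
  rw [map_mul]
  push_cast
  rfl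

theorem X_sq {u : F} (hu : u ≠ 0) : X (u ^ 2) = 1 := by
  unfold X
  rw [map_pow, quadraticChar_sq_one hu]
  simp

theorem X_zero : X (0 : F) = 0 := by
  unfold X
  simp

theorem X_one : X (1 : F) = 1 := by
  unfold X
  simp

theorem X_le (u : F) : X u ≤ 1 := by
  rcases eq_or_ne u 0 with h | h
  · subst h
    rw [X_zero]
    norm_num
  · have h1 : X u ^ 2 = 1 := by
      unfold X
      rw [← Int.cast_pow, quadraticChar_sq_one h]
      simp
    nlinarith [sq_nonneg (X u - 1)]

/-- `∑_t X(t) X(α t + γ) = -X(α)` for `γ ≠ 0` -/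
theorem jac (h2 : (2 : F) ≠ 0) (α γ : F) (hγ : γ ≠ 0) :
    ∑ t : F, X t * X (α * t + γ) = -X α := by
  have h1 : ∀ t : F, t ≠ 0 → X t * X (α * t + γ) = X (γ * t⁻¹ + α) := by
    intro t ht
    have e : α * t + γ = t * (γ * t⁻¹ + α) := by
      field_simp
      ring
    rw [e, X_mul, ← mul_assoc, ← X_mul, ← pow_two, X_sq ht, one_mul]
  have h3 : ∑ t : F, X t * X (α * t + γ) = ∑ t ∈ Finset.univ.erase (0 : F), X (γ * t⁻¹ + α) := by
    rw [← Finset.add_sum_erase Finset.univ _ (Finset.mem_univ (0 : F)), X_zero, zero_mul, zero_add]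
    exact Finset.sum_congr rfl fun t ht => h1 t (Finset.ne_of_mem_erase ht)
  have h4 : ∑ t : F, X (γ * t⁻¹ + α) = 0 := by
    have e1 : ∑ t : F, X (γ * t⁻¹ + α) = ∑ t : F, X (γ * t + α) :=
      Equiv.sum_comp (Equiv.inv F) (fun t => X (γ * t + α))
    rw [e1]
    have e2 : ∑ t : F, X (γ * t + α) = ∑ t : F, X (t * γ + α) :=
      Finset.sum_congr rfl fun t _ => by rw [mul_comm]
    rw [e2, sum_affine X γ α hγ, sum_X h2]
  rw [← Finset.add_sum_erase Finset.univ _ (Finset.mem_univ (0 : F)), inv_zero, mul_zero,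
    zero_add] at h4
  rw [h3]
  linarith

/-- the number of square roots -/
theorem roots (h2 : (2 : F) ≠ 0) (m : F) :
    ((Finset.univ.filter fun u : F => u ^ 2 = m).card : ℝ) = X m + 1 := by
  have h := quadraticChar_card_sqrts (W2.ringChar_ne h2) m
  have h1 : ({x : F | x ^ 2 = m} : Set F).toFinset = Finset.univ.filter fun u : F => u ^ 2 = m := by
    ext x
    simp
  rw [h1] at h
  have h3 := congrArg (fun z : ℤ => (z : ℝ)) h
  push_cast at h3
  exact h3

/-- `∑_y X(α y² + γ) = -X(α)` for `α, γ ≠ 0` -/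
theorem quad (h2 : (2 : F) ≠ 0) (α γ : F) (hα : α ≠ 0) (hγ : γ ≠ 0) :
    ∑ y : F, X (α * y ^ 2 + γ) = -X α := by
  have h1 : ∑ y : F, X (α * y ^ 2 + γ) =
      ∑ t : F, ∑ y ∈ Finset.univ.filter (fun u : F => u ^ 2 = t), X (α * t + γ) := by
    rw [← Finset.sum_fiberwise (s := Finset.univ) (g := fun y : F => y ^ 2)
      (f := fun y : F => X (α * y ^ 2 + γ))]
    refine Finset.sum_congr rfl fun t _ => Finset.sum_congr rfl fun y hy => ?_
    rw [(Finset.mem_filter.1 hy).2]
  rw [h1]
  have h3 : ∀ t : F, ∑ y ∈ Finset.univ.filter (fun u : F => u ^ 2 = t), X (α * t + γ) =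
      X t * X (α * t + γ) + X (t * α + γ) := by
    intro t
    rw [Finset.sum_const, nsmul_eq_mul, roots h2 t, mul_comm t α]
    ring
  rw [Finset.sum_congr rfl fun t _ => h3 t, Finset.sum_add_distrib, jac h2 α γ hγ,
    sum_affine X α γ hα, sum_X h2, add_zero]

/-- the number of points of the conic `x² + x y + y² = m` -/
theorem conic (h2 : (2 : F) ≠ 0) (h3 : (3 : F) ≠ 0) (m : F) (hm : m ≠ 0) :
    (Fintype.card F : ℝ) - 1 ≤
      ((Finset.univ.filter fun z : F × F => z.1 ^ 2 + z.1 * z.2 + z.2 ^ 2 = m).card : ℝ) := by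
  have h4 : (4 : F) ≠ 0 := by
    have : (4 : F) = 2 * 2 := by norm_num
    rw [this]
    exact mul_ne_zero h2 h2
  have h1 : ((Finset.univ.filter fun z : F × F => z.1 ^ 2 + z.1 * z.2 + z.2 ^ 2 = m).card : ℝ) =
      ∑ y : F, (X (-3 * y ^ 2 + 4 * m) + 1) := by
    have e1 : (Finset.univ.filter fun z : F × F => z.1 ^ 2 + z.1 * z.2 + z.2 ^ 2 = m).card =
        ∑ y : F, (Finset.univ.filter fun u : F => u ^ 2 = -3 * y ^ 2 + 4 * m).card := by
      rw [← Finset.card_sigma]
      refine Finset.card_bij' (fun z _ => (⟨z.2, 2 * z.1 + z.2⟩ : Σ _ : F, F))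
        (fun w _ => ((w.2 - w.1) / 2, w.1)) ?_ ?_ ?_ ?_
      · intro z hz
        have hz' := (Finset.mem_filter.1 hz).2
        refine Finset.mem_sigma.2 ⟨Finset.mem_univ _, Finset.mem_filter.2 ⟨Finset.mem_univ _, ?_⟩⟩
        show (2 * z.1 + z.2) ^ 2 = -3 * z.2 ^ 2 + 4 * m
        rw [← hz']
        ring
      · intro w hw
        have hw' := (Finset.mem_filter.1 (Finset.mem_sigma.1 hw).2).2
        refine Finset.mem_filter.2 ⟨Finset.mem_univ _, ?_⟩
        show ((w.2 - w.1) / 2) ^ 2 + (w.2 - w.1) / 2 * w.1 + w.1 ^ 2 = m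
        have e2 : 4 * (((w.2 - w.1) / 2) ^ 2 + (w.2 - w.1) / 2 * w.1 + w.1 ^ 2) = 4 * m := by
          have e3 : 4 * (((w.2 - w.1) / 2) ^ 2 + (w.2 - w.1) / 2 * w.1 + w.1 ^ 2) =
              w.2 ^ 2 + 3 * w.1 ^ 2 := by
            field_simp
            ring
          rw [e3]
          rw [hw']
          ring
        exact mul_left_cancel₀ h4 e2
      · intro z _
        show ((2 * z.1 + z.2 - z.2) / 2, z.2) = z
        rw [add_sub_cancel_right, mul_div_cancel_left₀ _ h2]
      · intro w _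
        show (⟨w.1, 2 * ((w.2 - w.1) / 2) + w.1⟩ : Σ _ : F, F) = w
        rw [mul_div_cancel₀ _ h2, sub_add_cancel]
    rw [e1]
    push_cast
    exact Finset.sum_congr rfl fun y _ => roots h2 _
  rw [h1, Finset.sum_add_distrib, quad h2 (-3) (4 * m) (neg_ne_zero.2 h3) (mul_ne_zero h4 hm),
    Finset.sum_const, Finset.card_univ, nsmul_eq_mul, mul_one]
  have := X_le (-3 : F)
  linarith

/-- the number of pairs with the same value -/
theorem pairs (h2 : (2 : F) ≠ 0) (h3 : (3 : F) ≠ 0) (a : F) (ha : a ≠ 0) :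
    2 * (Fintype.card F : ℝ) - 3 ≤
      ((Finset.univ.filter fun z : F × F =>
        z.1 ^ 3 + a * z.1 = z.2 ^ 3 + a * z.2).card : ℝ) := by
  classical
  set D : Finset (F × F) := Finset.univ.filter fun z => z.1 = z.2 with hD
  set Q : Finset (F × F) := Finset.univ.filter fun z => z.1 ^ 2 + z.1 * z.2 + z.2 ^ 2 = -a with hQ
  set N : Finset (F × F) := Finset.univ.filter fun z => z.1 ^ 3 + a * z.1 = z.2 ^ 3 + a * z.2
    with hN
  have h4 : D ∪ Q ⊆ N := by
    intro z hz
    refine Finset.mem_filter.2 ⟨Finset.mem_univ _, ?_⟩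
    rcases Finset.mem_union.1 hz with h | h
    · rw [(Finset.mem_filter.1 h).2]
    · have h5 := (Finset.mem_filter.1 h).2
      have h6 : z.1 ^ 3 + a * z.1 - (z.2 ^ 3 + a * z.2) =
          (z.1 - z.2) * (z.1 ^ 2 + z.1 * z.2 + z.2 ^ 2 + a) := by ring
      rw [h5, neg_add_cancel, mul_zero] at h6
      exact sub_eq_zero.1 h6
  have h5 : D.card = Fintype.card F := by
    have e : D = Finset.univ.image (fun x : F => (x, x)) := by
      ext z
      simp only [hD, Finset.mem_filter, Finset.mem_univ, true_and, Finset.mem_image]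
      constructor
      · intro h
        exact ⟨z.1, Prod.ext rfl h⟩
      · rintro ⟨x, rfl⟩
        rfl
    rw [e, Finset.card_image_of_injective _ (fun x y h => congrArg Prod.fst h), Finset.card_univ]
  have h6 : (D ∩ Q).card ≤ 2 := by
    have e : D ∩ Q ⊆ (Finset.univ.filter fun u : F => u ^ 2 = -a / 3).image (fun x => (x, x)) := by
      intro z hz
      obtain ⟨hz1, hz2⟩ := Finset.mem_inter.1 hz
      have e1 := (Finset.mem_filter.1 hz1).2
      have e2 := (Finset.mem_filter.1 hz2).2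
      refine Finset.mem_image.2 ⟨z.1, Finset.mem_filter.2 ⟨Finset.mem_univ _, ?_⟩, Prod.ext rfl e1⟩
      rw [← e1] at e2
      rw [eq_div_iff h3, ← e2]
      ring
    have e3 : ((Finset.univ.filter fun u : F => u ^ 2 = -a / 3).card : ℝ) ≤ 2 := by
      rw [roots h2]
      have := X_le (-a / 3)
      linarith
    have e4 : (Finset.univ.filter fun u : F => u ^ 2 = -a / 3).card ≤ 2 := by exact_mod_cast e3
    exact (Finset.card_le_card e).trans (Finset.card_image_le.trans e4)
  have h7 := Finset.card_union_add_card_inter D Q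
  have h8 := Finset.card_le_card h4
  have h9 : D.card + Q.card ≤ N.card + 2 := by omega
  have h10 : (D.card : ℝ) + Q.card ≤ N.card + 2 := by exact_mod_cast h9
  have h11 := conic h2 h3 (-a) (neg_ne_zero.2 ha)
  rw [h5] at h10
  linarith

/-- the sums over `b` -/
theorem fibsum (h2 : (2 : F) ≠ 0) (u w : F) :
    ∑ b : F, X (u + b) * X (w + b) = if u = w then (Fintype.card F : ℝ) - 1 else -1 := by
  split_ifs with h
  · subst h
    rw [sum_shift (fun u => X u * X u) u, ← sum_X2]
    exact Finset.sum_congr rfl fun u _ => (pow_two _).symm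
  · have h1 : ∑ b : F, X (u + b) * X (w + b) = ∑ t : F, X t * X (1 * t + (w - u)) := by
      rw [← sum_shift (fun t => X t * X (1 * t + (w - u))) u]
      refine Finset.sum_congr rfl fun b _ => ?_
      have e : 1 * (u + b) + (w - u) = w + b := by ring
      rw [e]
    rw [h1, jac h2 1 (w - u) (sub_ne_zero.2 fun h' => h h'.symm), X_one]

end FibFM

open FibFM in
/-- **the cubic equations with fixed `a`** -/
theorem fibF (F : Type) [Field F] [Fintype F] (h2 : (2 : F) ≠ 0) (h3 : (3 : F) ≠ 0) (a : F) :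
    (∑ b : F, ((shortCount a b : ℝ) - Fintype.card F) = 0) ∧
    (a ≠ 0 → (Fintype.card F : ℝ) * (Fintype.card F - 3) ≤
      ∑ b : F, ((shortCount a b : ℝ) - Fintype.card F) ^ 2) := by
  classical
  constructor
  · simp only [count_X h2]
    rw [Finset.sum_comm]
    refine Finset.sum_eq_zero fun x _ => ?_
    rw [sum_shift X (x ^ 3 + a * x), sum_X h2]
  · intro ha
    simp only [count_X h2]
    set q : ℝ := (Fintype.card F : ℝ) with hq
    have hq0 : 0 ≤ q := Nat.cast_nonneg _
    have e1 : ∑ b : F, (∑ x : F, X (x ^ 3 + a * x + b)) ^ 2 =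
        ∑ z : F × F, (if z.1 ^ 3 + a * z.1 = z.2 ^ 3 + a * z.2 then q - 1 else -1) := by
      have e2 : ∀ b : F, (∑ x : F, X (x ^ 3 + a * x + b)) ^ 2 =
          ∑ z : F × F, X (z.1 ^ 3 + a * z.1 + b) * X (z.2 ^ 3 + a * z.2 + b) := by
        intro b
        rw [pow_two, Finset.sum_mul_sum, Fintype.sum_prod_type]
      rw [Finset.sum_congr rfl fun b _ => e2 b, Finset.sum_comm]
      exact Finset.sum_congr rfl fun z _ => fibsum h2 _ _
    have e3 : ∑ z : F × F, (if z.1 ^ 3 + a * z.1 = z.2 ^ 3 + a * z.2 then q - 1 else -1) =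
        q * ((Finset.univ.filter fun z : F × F =>
          z.1 ^ 3 + a * z.1 = z.2 ^ 3 + a * z.2).card : ℝ) - q ^ 2 := by
      have e4 : ∀ z : F × F, (if z.1 ^ 3 + a * z.1 = z.2 ^ 3 + a * z.2 then q - 1 else -1) =
          (if z.1 ^ 3 + a * z.1 = z.2 ^ 3 + a * z.2 then q else 0) - 1 := by
        intro z
        split_ifs <;> ring
      rw [Finset.sum_congr rfl fun z _ => e4 z, Finset.sum_sub_distrib, ← Finset.sum_filter,
        Finset.sum_const, Finset.sum_const, Finset.card_univ, Fintype.card_prod, nsmul_eq_mul,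
        nsmul_eq_mul]
      push_cast
      ring
    rw [e1, e3]
    have h4 := pairs h2 h3 a ha
    rw [← hq] at h4
    nlinarith

end MP7ed9c3.Pz
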