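import Pool.Agent.Lib.MP_7ed9c3_nt.Pz.FibSpec
import Pool.Agent.Lib.MP_7ed9c3_nt.Pz.FibF
import Pool.Agent.Lib.MP_7ed9c3_nt.Tz.TrMean
import Pool.Agent.Lib.MP_7ed9c3_nt.Tz.Hom

/-!
# MP_7ed9c3_nt, part Pz, FibM: mean values of the traces for fixed `A`
-/

set_option autoImplicit false

namespace MP7ed9c3.Pz

open NumberField IsDedekindDomain Filter Topology MP7ed9c3.Tw MP7ed9c3.Zs MP7ed9c3.Tz
open MP7ed9c3.Tz.TrMeanM

namespace FibMM

variable {K : Type} [Field K] [NumberField K]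

/-- The residue of the second coordinate. -/
noncomputable def psi (v : HeightOneSpectrum (𝓞 K)) : (Ix K → ℤ) →+ (𝓞 K ⧸ v.asIdeal) where
  toFun b := Ideal.Quotient.mk v.asIdeal (pt b)
  map_zero' := by rw [pt_zero, map_zero]
  map_add' a b := by rw [pt_add, map_add]

theorem trp_fib (v : HeightOneSpectrum (𝓞 K)) (c b : Ix K → ℤ) :
    trp v (Sum.elim c b) = cf v (Ideal.Quotient.mk v.asIdeal (pt c), psi v b) :=
  trp_eq v (Sum.elim c b)

theorem psi_surj (v : HeightOneSpectrum (𝓞 K)) : Function.Surjective (psi v) := by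
  intro x
  obtain ⟨A, rfl⟩ := Ideal.Quotient.mk_surjective x
  obtain ⟨a, ha⟩ := pt_surj A
  exact ⟨a, by rw [← ha]; rfl⟩

theorem psi2_surj (v w : HeightOneSpectrum (𝓞 K)) (hvw : w ≠ v) :
    Function.Surjective ((psi v).prod (psi w)) := by
  rintro ⟨x, y⟩
  obtain ⟨A, hA1, hA2⟩ := crt v w hvw x y
  obtain ⟨a, ha⟩ := pt_surj A
  refine ⟨a, ?_⟩
  rw [AddMonoidHom.prod_apply, Prod.mk.injEq]
  constructor
  · rw [← hA1, ← ha]
    rfl
  · rw [← hA2, ← ha]
    rfl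

theorem sumsF (v : HeightOneSpectrum (𝓞 K)) (h2 : (2 : 𝓞 K) ∉ v.asIdeal)
    (h3 : (3 : 𝓞 K) ∉ v.asIdeal) [Fintype (𝓞 K ⧸ v.asIdeal)] (x : 𝓞 K ⧸ v.asIdeal) :
    Fintype.card (𝓞 K ⧸ v.asIdeal) = nm v ∧ ∑ g, cf v (x, g) = 0 ∧
      (x ≠ 0 → (nm v : ℝ) * (nm v - 3) ≤ ∑ g, cf v (x, g) ^ 2) := by
  let _ : Field (𝓞 K ⧸ v.asIdeal) := Ideal.Quotient.field v.asIdeal
  have hcard : Fintype.card (𝓞 K ⧸ v.asIdeal) = nm v := by
    rw [← Nat.card_eq_fintype_card]
    unfold nm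
    rw [Ideal.absNorm_apply, Submodule.cardQuot_apply]
  have h20 : (2 : 𝓞 K ⧸ v.asIdeal) ≠ 0 := by
    intro h0
    refine h2 (Ideal.Quotient.eq_zero_iff_mem.mp ?_)
    rw [map_ofNat]
    exact h0
  have h30 : (3 : 𝓞 K ⧸ v.asIdeal) ≠ 0 := by
    intro h0
    refine h3 (Ideal.Quotient.eq_zero_iff_mem.mp ?_)
    rw [map_ofNat]
    exact h0
  obtain ⟨e1, e2⟩ := fibF (𝓞 K ⧸ v.asIdeal) h20 h30 x
  have key : ∀ b, cf v (x, b) =
      -((shortCount x b : ℝ) - Fintype.card (𝓞 K ⧸ v.asIdeal)) := by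
    intro b
    unfold cf
    rw [W3.affCount_short, hcard]
    unfold shortCount
    ring
  refine ⟨hcard, ?_, ?_⟩
  · simp only [key, Finset.sum_neg_distrib, e1, neg_zero]
  · intro hx
    simp only [key, neg_sq]
    have := e2 hx
    rw [hcard] at this
    rw [hcard]
    exact this

theorem mean_sum {ι : Type} [Fintype ι] {J : Type} (s : Finset J) (p : ℕ)
    (f : J → (ι → ℤ) → ℝ) :
    mean p (fun a => ∑ j ∈ s, f j a) = ∑ j ∈ s, mean p (f j) := by
  classical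
  unfold mean
  rw [Finset.sum_comm, Finset.sum_div]

theorem mean_nonneg {ι : Type} [Fintype ι] (p : ℕ) (f : (ι → ℤ) → ℝ) :
    0 ≤ mean p (fun a => f a ^ 2) := by
  unfold mean
  exact div_nonneg (Finset.sum_nonneg fun _ _ => sq_nonneg _) (pow_nonneg (Nat.cast_nonneg _) _)

end FibMM

open FibMM in
/-- **F1.** -/
theorem meanF : S_MeanF := by
  classical
  intro K _ _ p hp hp3 c
  have hD : ∀ w : HeightOneSpectrum (𝓞 K), w ∈ D1 K p → nm w = p ∧
      ((p : ℕ) : 𝓞 K) ∈ w.asIdeal ∧ (2 : 𝓞 K) ∉ w.asIdeal ∧ (3 : 𝓞 K) ∉ w.asIdeal := by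
    intro w hw
    have hn : nm w = p := (Set.Finite.mem_toFinset (fin_nm K p)).1 hw
    have hm : ((p : ℕ) : 𝓞 K) ∈ w.asIdeal := overz_mem w (k := 1) (by rw [pow_one]; exact hn)
    refine ⟨hn, hm, ?_, ?_⟩
    · have := not_mem w p hm 2 ((Nat.coprime_primes Nat.prime_two hp).2 (by omega))
      exact_mod_cast this
    · have := not_mem w p hm 3 ((Nat.coprime_primes Nat.prime_three hp).2 (by omega))
      exact_mod_cast this
  have hpR : (0 : ℝ) < p := by exact_mod_cast hp.pos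
  -- one prime
  have hone : ∀ v ∈ D1 K p, mean p (fun b : Ix K → ℤ => trp v (Sum.elim c b)) = 0 ∧
      (pt c ∉ v.asIdeal → (p : ℝ) - 3 ≤ mean p (fun b : Ix K → ℤ => trp v (Sum.elim c b) ^ 2)) := by
    intro v hv
    obtain ⟨hn, hm, h20, h30⟩ := hD v hv
    have fv : Finite (𝓞 K ⧸ v.asIdeal) := Ideal.finiteQuotientOfFreeOfNeBot v.asIdeal v.ne_bot
    let _ : Fintype (𝓞 K ⧸ v.asIdeal) := Fintype.ofFinite _
    obtain ⟨c1, c2, c3⟩ := sumsF v h20 h30 (Ideal.Quotient.mk v.asIdeal (pt c))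
    have hs : ∀ g : 𝓞 K ⧸ v.asIdeal, p • g = 0 := smul_zero' v p hm
    constructor
    · have h := (hom _ _ (psi v) p (fun g => cf v (Ideal.Quotient.mk v.asIdeal (pt c), g))
        (psi_surj v) hp.pos hs).2
      simp only [← trp_fib] at h
      rw [h, c2, zero_div]
    · intro hc
      have hx : Ideal.Quotient.mk v.asIdeal (pt c) ≠ 0 := fun h0 =>
        hc (Ideal.Quotient.eq_zero_iff_mem.mp h0)
      have h := (hom _ _ (psi v) p (fun g => cf v (Ideal.Quotient.mk v.asIdeal (pt c), g) ^ 2)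
        (psi_surj v) hp.pos hs).2
      simp only [← trp_fib] at h
      rw [h, c1, hn, le_div_iff₀ hpR]
      have h4 := c3 hx
      rw [hn] at h4
      linarith
  -- two primes
  have htwo : ∀ v ∈ D1 K p, ∀ w ∈ D1 K p, w ≠ v →
      mean p (fun b : Ix K → ℤ => trp v (Sum.elim c b) * trp w (Sum.elim c b)) = 0 := by
    intro v hv w hw hwv
    obtain ⟨hn, hm, h20, h30⟩ := hD v hv
    obtain ⟨hn', hm', h20', h30'⟩ := hD w hw
    have fv : Finite (𝓞 K ⧸ v.asIdeal) := Ideal.finiteQuotientOfFreeOfNeBot v.asIdeal v.ne_bot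
    let _ : Fintype (𝓞 K ⧸ v.asIdeal) := Fintype.ofFinite _
    have fw : Finite (𝓞 K ⧸ w.asIdeal) := Ideal.finiteQuotientOfFreeOfNeBot w.asIdeal w.ne_bot
    let _ : Fintype (𝓞 K ⧸ w.asIdeal) := Fintype.ofFinite _
    obtain ⟨-, c2, -⟩ := sumsF v h20 h30 (Ideal.Quotient.mk v.asIdeal (pt c))
    have hs2 : ∀ g : (𝓞 K ⧸ v.asIdeal) × (𝓞 K ⧸ w.asIdeal), p • g = 0 := by
      rintro ⟨x, y⟩
      rw [Prod.smul_mk, smul_zero' v p hm, smul_zero' w p hm']
      rfl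
    have h := (hom _ _ ((psi v).prod (psi w)) p
      (fun g => cf v (Ideal.Quotient.mk v.asIdeal (pt c), g.1) *
        cf w (Ideal.Quotient.mk w.asIdeal (pt c), g.2))
      (psi2_surj v w hwv) hp.pos hs2).2
    simp only [AddMonoidHom.prod_apply, ← trp_fib] at h
    have h5 : ∑ x : 𝓞 K ⧸ v.asIdeal, ∑ y : 𝓞 K ⧸ w.asIdeal,
        cf v (Ideal.Quotient.mk v.asIdeal (pt c), x) *
          cf w (Ideal.Quotient.mk w.asIdeal (pt c), y) = 0 := by
      rw [← Finset.sum_mul_sum, c2, zero_mul]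
    rw [h, Fintype.sum_prod_type, h5, zero_div]
  constructor
  · rw [mean_sum]
    exact Finset.sum_eq_zero fun v hv => (hone v hv).1
  · have e : (fun b : Ix K → ℤ => (∑ v ∈ D1 K p, trp v (Sum.elim c b)) ^ 2) =
        fun b => ∑ v ∈ D1 K p, ∑ w ∈ D1 K p, trp v (Sum.elim c b) * trp w (Sum.elim c b) := by
      funext b
      rw [sq, Finset.sum_mul_sum]
    have e2 : ∀ v ∈ D1 K p,
        mean p (fun b : Ix K → ℤ => ∑ w ∈ D1 K p, trp v (Sum.elim c b) * trp w (Sum.elim c b)) =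
          mean p (fun b : Ix K → ℤ => trp v (Sum.elim c b) ^ 2) := by
      intro v hv
      rw [mean_sum, Finset.sum_eq_single_of_mem v hv (fun w hw hwv => htwo v hv w hw hwv)]
      congr 1
      funext b
      ring
    rw [e, mean_sum, Finset.sum_congr rfl e2]
    have e3 : ((p : ℝ) - 3) * (((D1 K p).filter (fun v => pt c ∉ v.asIdeal)).card : ℝ) =
        ∑ v ∈ (D1 K p).filter (fun v => pt c ∉ v.asIdeal), ((p : ℝ) - 3) := by
      rw [Finset.sum_const, nsmul_eq_mul, mul_comm]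
    rw [e3]
    calc ∑ v ∈ (D1 K p).filter (fun v => pt c ∉ v.asIdeal), ((p : ℝ) - 3)
        ≤ ∑ v ∈ (D1 K p).filter (fun v => pt c ∉ v.asIdeal),
            mean p (fun b : Ix K → ℤ => trp v (Sum.elim c b) ^ 2) :=
          Finset.sum_le_sum fun v hv => (hone v (Finset.mem_filter.1 hv).1).2
            (Finset.mem_filter.1 hv).2
      _ ≤ _ := Finset.sum_le_sum_of_subset_of_nonneg (Finset.filter_subset _ _)
          fun v _ _ => mean_nonneg p _

end MP7ed9c3.Pz
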