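import Pool.Agent.Lib.MP_7ed9c3_nt.Pz.SpecZ
import Pool.Agent.Lib.MP_7ed9c3_nt.Few.FPtU

/-!
# MP_7ed9c3_nt, part Pz: few `w`-points for some `w` imply a small quadratic form (uniform in `w`)
-/

set_option autoImplicit false

namespace MP7ed9c3.Pz

open NumberField IsDedekindDomain MP7ed9c3 MP7ed9c3.Tw MP7ed9c3.Tz
open Filter Topology

private theorem SU_num1 (s₁ δ A : ℝ) (hs : 0 < s₁) (hδ : 0 < δ) (hA : 0 ≤ A) :
    ∃ L₀ : ℝ, ∀ L : ℝ, L₀ ≤ L → 1 ≤ L ∧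
      A * ((1 + L) * (1 + s₁ * L) * Real.exp (-(δ * L))) ≤ L ^ (-(1 / 10 : ℝ)) := by
  have ht := tendsto_rpow_mul_exp_neg_mul_atTop_nhds_zero (2 + 1 / 10) δ hδ
  have hC : 0 < 2 * (1 + s₁) * A + 1 := by positivity
  have he : ∀ᶠ L : ℝ in atTop, L ^ (2 + 1 / 10 : ℝ) * Real.exp (-δ * L) <
      1 / (2 * (1 + s₁) * A + 1) := ht.eventually_lt_const (by positivity)
  obtain ⟨L₀, hL₀⟩ := eventually_atTop.mp he
  refine ⟨max L₀ 1, fun L hL => ?_⟩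
  have hL1 : 1 ≤ L := (le_max_right _ _).trans hL
  have hL0 : 0 < L := by linarith
  refine ⟨hL1, ?_⟩
  have h1 := hL₀ L ((le_max_left _ _).trans hL)
  rw [lt_div_iff₀ hC, Real.rpow_add hL0, Real.rpow_two] at h1
  rw [Real.rpow_neg hL0.le, ← one_div, le_div_iff₀ (Real.rpow_pos_of_pos hL0 _)]
  have hE : Real.exp (-(δ * L)) = Real.exp (-δ * L) := by congr 1; ring
  rw [hE]
  have hEpos := Real.exp_pos (-δ * L)
  have hPpos := Real.rpow_pos_of_pos hL0 (1 / 10)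
  have h2 : (1 + L) * (1 + s₁ * L) ≤ 2 * (1 + s₁) * L ^ 2 := by
    have h5 : (1 + L) * (1 + s₁ * L) ≤ (2 * L) * ((1 + s₁) * L) :=
      mul_le_mul (by linarith) (by nlinarith) (by positivity) (by positivity)
    linarith
  have h3 : A * ((1 + L) * (1 + s₁ * L) * Real.exp (-δ * L)) * L ^ (1 / 10 : ℝ) ≤
      A * ((2 * (1 + s₁) * L ^ 2) * Real.exp (-δ * L)) * L ^ (1 / 10 : ℝ) := by
    gcongr
  refine h3.trans ?_
  have h4 : 0 ≤ L ^ 2 * L ^ (1 / 10 : ℝ) * Real.exp (-δ * L) := by positivity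
  nlinarith

/-- the numeric chain -/
private theorem SU_num2 (m₀ s₁ μ L lam CΨ CM C X G Q : ℝ) (R : ℕ) (hm : 0 < m₀) (hs : 0 < s₁)
    (hμ1 : m₀ * L ≤ μ) (hμ2 : μ ≤ L) (hR : (R : ℝ) ≤ μ * s₁ / 2) (hL : 1 ≤ L)
    (hlam : lam ≤ 48 * L) (hLl : L ≤ lam) (hCΨ : 0 < CΨ) (hCM : 0 < CM) (hC : 0 < C)
    (hX : X ≤ 2 * Real.exp (m₀ * s₁ / 1000 * L))
    (hG0 : 0 ≤ G)
    (hG : G ≤ C * (Real.exp (m₀ * s₁ / 1000 * lam) * (CΨ * Real.exp (m₀ * s₁ / 1000 * lam)) *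
      (CM * X) + 1))
    (hQ : Q ≤ √μ * Real.exp (-(2 * μ * s₁)) * ((R + 1) * Real.exp (2 * R) * G ^ 2)) :
    Q ≤ (C * (2 * CΨ * CM + 1)) ^ 2 * ((1 + L) * (1 + s₁ * L) *
      Real.exp (-(2 / 3 * m₀ * s₁ * L))) := by
  have hκ : 0 < m₀ * s₁ / 1000 := by positivity
  set κ := m₀ * s₁ / 1000 with hκd
  have hμ0 : 0 < μ := lt_of_lt_of_le (by positivity) hμ1
  have hG2 : G ≤ C * (2 * CΨ * CM + 1) * Real.exp (m₀ * s₁ * L / 6) := by
    have h1 : Real.exp (κ * lam) * (CΨ * Real.exp (κ * lam)) * (CM * X) ≤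
        2 * CΨ * CM * Real.exp (3 * κ * lam) := by
      have : X ≤ 2 * Real.exp (κ * lam) := hX.trans (by gcongr)
      calc Real.exp (κ * lam) * (CΨ * Real.exp (κ * lam)) * (CM * X) ≤
          Real.exp (κ * lam) * (CΨ * Real.exp (κ * lam)) * (CM * (2 * Real.exp (κ * lam))) := by
            gcongr
        _ = 2 * CΨ * CM * (Real.exp (κ * lam) * Real.exp (κ * lam) * Real.exp (κ * lam)) := by
            ring
        _ = 2 * CΨ * CM * Real.exp (3 * κ * lam) := by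
            rw [← Real.exp_add, ← Real.exp_add]
            congr 2
            ring
    have h2 : Real.exp (3 * κ * lam) ≤ Real.exp (m₀ * s₁ * L / 6) := by
      apply Real.exp_le_exp.mpr
      have h3 : 3 * κ * lam ≤ 3 * κ * (48 * L) := by gcongr
      have h4 : 3 * κ * (48 * L) = 144 / 1000 * (m₀ * s₁ * L) := by
        rw [hκd]
        ring
      have h5 : 0 < m₀ * s₁ * L := by positivity
      linarith
    have h3 : (1 : ℝ) ≤ Real.exp (m₀ * s₁ * L / 6) := Real.one_le_exp (by positivity)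
    calc G ≤ _ := hG
      _ ≤ C * (2 * CΨ * CM * Real.exp (m₀ * s₁ * L / 6) + Real.exp (m₀ * s₁ * L / 6)) := by
          have := h1.trans (mul_le_mul_of_nonneg_left h2 (by positivity))
          gcongr
      _ = _ := by ring
  have hsq : √μ ≤ 1 + L := by
    rw [Real.sqrt_le_left (by linarith)]
    nlinarith
  have hR1 : (R : ℝ) + 1 ≤ 1 + s₁ * L := by nlinarith
  have hexp : Real.exp (-(2 * μ * s₁)) * Real.exp (2 * R) ≤ Real.exp (-(m₀ * L * s₁)) := by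
    rw [← Real.exp_add]
    apply Real.exp_le_exp.mpr
    have : m₀ * L * s₁ ≤ μ * s₁ := by gcongr
    linarith
  have hG3 : G ^ 2 ≤ (C * (2 * CΨ * CM + 1)) ^ 2 * Real.exp (m₀ * s₁ * L / 3) := by
    calc G ^ 2 ≤ (C * (2 * CΨ * CM + 1) * Real.exp (m₀ * s₁ * L / 6)) ^ 2 := by gcongr
      _ = (C * (2 * CΨ * CM + 1)) ^ 2 * (Real.exp (m₀ * s₁ * L / 6) *
          Real.exp (m₀ * s₁ * L / 6)) := by ring
      _ = _ := by
          rw [← Real.exp_add]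
          congr 2
          ring
  calc Q ≤ _ := hQ
    _ = √μ * (R + 1) * (Real.exp (-(2 * μ * s₁)) * Real.exp (2 * R)) * G ^ 2 := by ring
    _ ≤ (1 + L) * (1 + s₁ * L) * Real.exp (-(m₀ * L * s₁)) *
        ((C * (2 * CΨ * CM + 1)) ^ 2 * Real.exp (m₀ * s₁ * L / 3)) := by gcongr
    _ = (C * (2 * CΨ * CM + 1)) ^ 2 * ((1 + L) * (1 + s₁ * L) *
        (Real.exp (-(m₀ * L * s₁)) * Real.exp (m₀ * s₁ * L / 3))) := by ring
    _ = _ := by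
        rw [← Real.exp_add]
        congr 3
        ring

private theorem SU_sumb (R : ℕ) (N : ℕ → ℝ) (G : ℝ) (h0 : ∀ r, 0 ≤ N r) (h1 : ∀ r, N r ≤ G) :
    ∑ r ∈ Finset.range (R + 1), Real.exp (2 * r) * N r ^ 2 ≤
      (R + 1) * Real.exp (2 * R) * G ^ 2 := by
  have : ∀ r ∈ Finset.range (R + 1), Real.exp (2 * r) * N r ^ 2 ≤ Real.exp (2 * R) * G ^ 2 := by
    intro r hr
    have hr' : (r : ℝ) ≤ R := by
      exact_mod_cast Nat.lt_succ_iff.mp (Finset.mem_range.mp hr)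
    have := h0 r
    have := h1 r
    gcongr
  refine (Finset.sum_le_sum this).trans ?_
  rw [Finset.sum_const, Finset.card_range, nsmul_eq_mul]
  push_cast
  exact le_of_eq (by ring)

/-- **Z2, uniform in `w`**: few points with some value `w`, `κ' ≤ ‖1 - w‖`, `‖w‖ ≤ Y^δ`, imply a small
quadratic form. -/
def S_SmallU : Prop :=
  ∀ (K : Type) [Field K] [NumberField K] (σ₁ h C₀ κ' : ℝ), 9 / 10 ≤ σ₁ → σ₁ < 1 → 0 < h →
    h ≤ 1 → 0 < C₀ → 0 < κ' →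
    ∀ (D : ℕ) (β ν : ℕ → ℕ → (Ix K ⊕ Ix K → ℤ) → ℝ), LocData D β ν → LocProp K β →
    ∀ m₀ : ℝ, 0 < m₀ → ∃ η c δ Y₀ : ℝ, 0 < η ∧ 0 < c ∧ 0 < δ ∧
    ∀ (Y t₀ μ : ℝ) (R z : ℕ) (a : Ix K ⊕ Ix K → ℤ)
      (M : HeightOneSpectrum (𝓞 K) → WeierstrassCurve (𝓞 K)) (F : ℂ → ℂ) (w : ℂ), Y₀ ≤ Y →
      m₀ * Real.log ⌊Y ^ (1 / 24 : ℝ)⌋₊ ≤ μ →
      μ * Real.sinh (Real.pi * (3 - (σ₁ + 1) / 2) / (2 * (h / 2))) ≤
        Real.log ⌊Y ^ (1 / 24 : ℝ)⌋₊ →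
      (R : ℝ) ≤ μ * Real.sinh (a1 ((σ₁ + 1) / 2) (h / 2)) / 2 →
      House (pt (fun i => a (Sum.inl i))) Y → House (pt (fun i => a (Sum.inr i))) Y →
      4 * pt (fun i => a (Sum.inl i)) ^ 3 + 27 * pt (fun i => a (Sum.inr i)) ^ 2 ≠ 0 →
      (∀ v, IsMinAt (crv (pt (fun i => a (Sum.inl i))) (pt (fun i => a (Sum.inr i)))) v (M v)) →
      DifferentiableOn ℂ F (box σ₁ t₀ h) → (∀ s ∈ box σ₁ t₀ h, ‖F s‖ ≤ Y ^ C₀) →
      (∀ s ∈ box σ₁ t₀ h, 3 / 2 < s.re →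
        F s = ∏' v : HeightOneSpectrum (𝓞 K), (locDen (M v) v s)⁻¹) →
      κ' ≤ ‖1 - w‖ → ‖w‖ ≤ Y ^ δ →
      (∀ T : Finset ℂ, (∀ ρ ∈ T, ρ ∈ box σ₁ t₀ h ∧ F ρ = w) →
        ∑ ρ ∈ T, (analyticOrderNatAt (fun s => F s - w) ρ : ℝ) < c * Real.log Y) →
      ∑ l ∈ Finset.Icc 1 ⌊Y ^ (1 / 24 : ℝ)⌋₊, ∑ m ∈ Finset.Icc 1 ⌊Y ^ (1 / 24 : ℝ)⌋₊,
        dco β ν z ⌈(⌊Y ^ (1 / 24 : ℝ)⌋₊ : ℝ) ^ η⌉₊ l a * dco β ν z ⌈(⌊Y ^ (1 / 24 : ℝ)⌋₊ : ℝ) ^ η⌉₊ m a *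
          Kf ((σ₁ + 1) / 2) (h / 2) μ t₀ R l m ≤
        Real.log ⌊Y ^ (1 / 24 : ℝ)⌋₊ ^ (-(1 / 10 : ℝ))

theorem smallU (h1 : S_Quad) (h2 : MP7ed9c3.Few.S_FPtU) (h3 : S_Moll) (h4 : S_Right) (h5 : S_K2) :
    S_SmallU := by
  intro K _ _ σ₁ h C₀ κ' hσ hσ' hh hh' hC₀ hκ' D β ν hLD hLoc m₀ hm₀
  have hh2 : 0 < h / 2 := by linarith
  have ha1 : 0 < a1 ((σ₁ + 1) / 2) (h / 2) := by
    unfold a1
    apply div_pos (mul_pos Real.pi_pos (by linarith)) (by linarith)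
  set s₁ : ℝ := Real.sinh (a1 ((σ₁ + 1) / 2) (h / 2)) with hs₁
  have hs : 0 < s₁ := Real.sinh_pos_iff.mpr ha1
  set κ : ℝ := m₀ * s₁ / 1000 with hκd
  have hκ : 0 < κ := by positivity
  obtain ⟨B, hB, hRight⟩ := h4 K
  obtain ⟨ε, lam₀, hε, hFew⟩ := h2 σ₁ h C₀ B κ' hσ' hh hC₀ hB hκ' κ hκ
  obtain ⟨CΨ, hCΨ, hΨ⟩ := hLoc κ hκ
  obtain ⟨CM, hCM, hMoll⟩ := h3 (Ix K ⊕ Ix K) D
  obtain ⟨C, hC, hK2⟩ := h5 σ₁ ((σ₁ + 1) / 2) h (h / 2) CM (by linarith) (by linarith)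
    (by linarith) hh2 (by linarith) (by linarith) hCM
  obtain ⟨L₀, hL₀⟩ := SU_num1 s₁ (2 / 3 * m₀ * s₁) ((C * (2 * CΨ * CM + 1)) ^ 2) hs (by positivity)
    (by positivity)
  refine ⟨κ, ε, κ / 4, Real.exp (max lam₀ (max (48 * Real.log 2) (48 * max L₀ 1))), hκ, hε,
    by positivity, ?_⟩
  intro Y t₀ μ R z a M F w hY hμ1 hμ2 hR hHA hHB hdisc hM hFd hFb hFe hw1 hw2 hFp
  have hYpos : 0 < Y := lt_of_lt_of_le (Real.exp_pos _) hY
  have hlam : max lam₀ (max (48 * Real.log 2) (48 * max L₀ 1)) ≤ Real.log Y := by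
    rw [Real.le_log_iff_exp_le hYpos]
    exact hY
  set lam := Real.log Y with hlamd
  have hl1 : lam₀ ≤ lam := (le_max_left _ _).trans hlam
  have hl2 : 48 * Real.log 2 ≤ lam := (le_max_left _ _).trans ((le_max_right _ _).trans hlam)
  have hl3 : 48 * max L₀ 1 ≤ lam := (le_max_right _ _).trans ((le_max_right _ _).trans hlam)
  have hlog2 : 0 < Real.log 2 := Real.log_pos (by norm_num)
  have hlam0 : 0 < lam := by linarith
  have hYexp : Y = Real.exp lam := (Real.exp_log hYpos).symm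
  have hY1 : 1 ≤ Y := by
    rw [hYexp]
    exact Real.one_le_exp hlam0.le
  set Z : ℕ := ⌊Y ^ (1 / 24 : ℝ)⌋₊ with hZd
  have hYr : Y ^ (1 / 24 : ℝ) = Real.exp (lam / 24) := by
    rw [Real.rpow_def_of_pos hYpos]
    congr 1
    ring
  have hYr2 : 2 ≤ Y ^ (1 / 24 : ℝ) := by
    rw [hYr, ← Real.log_le_iff_le_exp (by norm_num)]
    linarith
  have hZlow : Y ^ (1 / 24 : ℝ) / 2 ≤ Z := by
    have := Nat.lt_floor_add_one (Y ^ (1 / 24 : ℝ))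
    rw [← hZd] at this
    linarith
  have hZup : (Z : ℝ) ≤ Y ^ (1 / 24 : ℝ) := Nat.floor_le (by positivity)
  have hZpos : (0 : ℝ) < Z := by linarith
  have hZ1 : 1 ≤ Z := by exact_mod_cast (by exact_mod_cast hZpos : 0 < Z)
  set L := Real.log Z with hLd
  have hLl : L ≤ lam / 24 := by
    rw [hLd, Real.log_le_iff_le_exp hZpos, ← hYr]
    exact hZup
  have hLlow : lam / 48 ≤ L := by
    have : lam / 24 - Real.log 2 ≤ L := by
      rw [hLd, Real.le_log_iff_exp_le hZpos, Real.exp_sub, Real.exp_log (by norm_num), ← hYr]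
      exact hZlow
    linarith
  have hLL : L₀ ≤ L := (le_max_left _ _).trans (by linarith : max L₀ 1 ≤ L)
  obtain ⟨hL1, hfin⟩ := hL₀ L hLL
  have hZexp : (Z : ℝ) = Real.exp L := (Real.exp_log hZpos).symm
  have hμ0 : 0 < μ := lt_of_lt_of_le (by positivity) hμ1
  have hsinh1 : 1 ≤ Real.sinh (Real.pi * (3 - (σ₁ + 1) / 2) / (2 * (h / 2))) := by
    have h6 : 1 ≤ Real.pi * (3 - (σ₁ + 1) / 2) / (2 * (h / 2)) := by
      rw [le_div_iff₀ (by linarith)]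
      have := Real.pi_gt_three
      nlinarith
    exact h6.trans (Real.self_le_sinh_iff.mpr (by linarith))
  have hμL : μ ≤ L := by nlinarith
  set X : ℕ := ⌈(Z : ℝ) ^ κ⌉₊ with hXd
  have hZκ : (Z : ℝ) ^ κ = Real.exp (κ * L) := by
    rw [Real.rpow_def_of_pos hZpos]
    congr 1
    ring
  have hZκ1 : 1 ≤ (Z : ℝ) ^ κ := by
    rw [hZκ]
    exact Real.one_le_exp (by positivity)
  have hX1 : 1 ≤ X := Nat.one_le_iff_ne_zero.mpr (by
    rw [hXd, Ne, Nat.ceil_eq_zero, not_le]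
    linarith)
  have hXup : (X : ℝ) ≤ 2 * Real.exp (m₀ * s₁ / 1000 * L) := by
    have := (Nat.ceil_lt_add_one (by positivity : 0 ≤ (Z : ℝ) ^ κ)).le
    rw [← hXd] at this
    rw [← hκd, ← hZκ]
    linarith
  have hw3 : ‖w‖ ≤ Real.exp (κ / 4 * lam) := by
    rw [Real.rpow_def_of_pos hYpos] at hw2
    rw [mul_comm (κ / 4)]
    exact hw2
  have hFq := hFew lam t₀ F w hl1 hw1 hw3 hFd (fun s hs' => by
      have := hFb s hs'
      rw [Real.rpow_def_of_pos hYpos] at this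
      rw [mul_comm C₀]
      exact this) (fun s hs' hs3 => by
      rw [hFe s hs' (by linarith)]
      exact hRight M s hs3) (fun T hT => (hFp T hT).le)
  obtain ⟨Ψ, hΨd, hΨb, hΨe⟩ := hΨ Y a M hY1 hHA hHB hdisc hM
  obtain ⟨hdb, Mo, hMod, hMob, hMoe⟩ := hMoll β ν hLD z X a hX1
  have hbd : DifferentiableOn ℂ (fun s => F s * Ψ s * Mo s) (box σ₁ t₀ h) := by
    refine (hFd.mul (hΨd.mono fun s hs' => ?_)).mul hMod.differentiableOn
    have := hs'.1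
    change 1 / 2 < s.re
    linarith
  have hYκ : Y ^ κ = Real.exp (κ * lam) := by
    rw [Real.rpow_def_of_pos hYpos]
    congr 1
    ring
  have hBf : ∀ s : ℂ, (σ₁ + 1) / 2 ≤ s.re → s.re ≤ 3 → |s.im - t₀| ≤ h / 2 →
      ‖F s * Ψ s * Mo s‖ ≤ Real.exp (κ * lam) * (CΨ * Real.exp (κ * lam)) * (CM * X) := by
    intro s hs1 hs2 hs3
    rw [norm_mul, norm_mul]
    have e1 := hFq s hs1 hs2 hs3
    have e2 := hΨb s (by linarith)
    have e3 := hMob s (by linarith)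
    rw [hYκ] at e2
    gcongr
  have hk := hK2 Z μ t₀ (Real.exp (κ * lam) * (CΨ * Real.exp (κ * lam)) * (CM * X))
    (fun s => F s * Ψ s * Mo s) (fun m => dco β ν z X m a) hZ1 hμ0 (by positivity) hμ2 hbd hBf
    hdb (fun t ht => by
      have hre : (3 + t * Complex.I : ℂ).re = 3 := by simp
      have him : (3 + t * Complex.I : ℂ).im = t := by simp
      have hbox : (3 + t * Complex.I : ℂ) ∈ box σ₁ t₀ h := by
        refine ⟨?_, ?_⟩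
        · rw [hre]
          linarith
        · rw [him]
          linarith
      have e1 := hFe _ hbox (by rw [hre]; norm_num)
      have e2 := hΨe _ hre
      have e3 := hMoe _ hre
      change F _ * Ψ _ * Mo _ = _
      rw [e1, e2, e3])
  have hq := (h1 ((σ₁ + 1) / 2) (h / 2) μ t₀ R Z).2 (fun m => dco β ν z X m a)
  refine le_trans ?_ hfin
  refine SU_num2 m₀ s₁ μ L lam CΨ CM C X
    (C * (Real.exp (κ * lam) * (CΨ * Real.exp (κ * lam)) * (CM * X) + 1)) _ R hm₀ hs hμ1 hμL hR hL1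
    (by linarith) (by linarith) hCΨ hCM hC hXup (by positivity) le_rfl ?_
  rw [hq]
  refine mul_le_mul_of_nonneg_left ?_ (by positivity)
  exact SU_sumb R (fun r => ‖∑ m ∈ Finset.Icc 1 Z, ((dco β ν z X m a : ℝ) : ℂ) *
    xf ((σ₁ + 1) / 2) (h / 2) μ t₀ m r‖) _ (fun r => norm_nonneg _) hk

end MP7ed9c3.Pz
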