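import Pool.Agent.Lib.MP_7ed9c3_nt.Pz.Parts
import Pool.Agent.Lib.MP_7ed9c3_nt.Pz.FibM
import Pool.Agent.Lib.MP_7ed9c3_nt.Pz.FibWk
import Pool.Agent.Lib.MP_7ed9c3_nt.Pz.FibPz
import Pool.Agent.Lib.MP_7ed9c3_nt.Pz.FibPzU
import Pool.Agent.Lib.MP_7ed9c3_nt.Tz.Div

/-!
# MP_7ed9c3_nt, part Pz, the fibre version: all parts except the moment theorem
-/

set_option autoImplicit false

namespace MP7ed9c3.Pz

open NumberField IsDedekindDomain MP7ed9c3 MP7ed9c3.Tw MP7ed9c3.Tz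

/-- The fibre version, `w` fixed. -/
theorem pzFOf (h : S_MT) : S_PZF :=
  pzF h (small quad fewPoints mollA rightA s_K2) (wkF tK1 win meanF divs) localA coord quad meanF

/-- The uniform version of `S_FewPoints`. -/
theorem fewPointsU : MP7ed9c3.Few.S_FPtU :=
  MP7ed9c3.Few.rFPtU (MP7ed9c3.Few.rFew MP7ed9c3.Few.rDsk
    (MP7ed9c3.Few.rChn (MP7ed9c3.Few.rStp MP7ed9c3.Few.rThr))) MP7ed9c3.Few.rFct

/-- The fibre version, all values `w` at once. -/
theorem pzFUOf (h : S_MT) : S_PZFU :=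
  pzFU h (smallU quad fewPointsU mollA rightA s_K2) (wkF tK1 win meanF divs) localA coord quad meanF

end MP7ed9c3.Pz
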