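import Pool.Agent.Lib.MP_7ed9c3_nt.Pz.MtAll
import Pool.Agent.Lib.MP_7ed9c3_nt.Pz.FibEnd

/-!
# MP_7ed9c3_nt, part Pz: assembly of the fibre version, all values at once
-/

set_option autoImplicit false

namespace MP7ed9c3.Pz

open NumberField IsDedekindDomain MP7ed9c3 MP7ed9c3.Tw MP7ed9c3.Tz

theorem pzfuAll : S_PZFU := pzFUOf mt

end MP7ed9c3.Pz
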