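import Pool.Agent.Lib.MP_7ed9c3_nt.Pz.FibEnd
import Pool.Agent.Lib.MP_7ed9c3_nt.Pz.MtAll

/-!
# MP_7ed9c3_nt, part Pz: the fibre version with all values at once, complete
-/

set_option autoImplicit false

namespace MP7ed9c3.Pz

theorem pzFUAll : S_PZFU := pzFUOf mt

theorem pzFAll : S_PZF := pzFOf mt

end MP7ed9c3.Pz
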