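import Pool.Agent.Lib.MP_7ed9c3_nt.Pz.FibAll

/-!
# MP_7ed9c3_nt, part Pz: the fibre version at all heights

From `S_PZFU` (windows of fixed height `h`) by double counting: outside one small set of `B` every continuation
takes every value `w` at least `c H log Y` times in every box `|Im s - t₀| < H`, `h ≤ H ≤ exp ((log Y)^(1/20))`.
-/

set_option autoImplicit false

namespace MP7ed9c3.Pz

open NumberField IsDedekindDomain MP7ed9c3 MP7ed9c3.Tw MP7ed9c3.Tz Filter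

/-- There is a function `F`, holomorphic and at most `b` in absolute value in the box `Re s > σ₁`,
`|Im s - t₀| < h`, which is equal to the Euler product of `E` in its part `Re s > 3/2` and takes the value `w`
in the box fewer than `N` times, with multiplicity. -/
def FewV {K : Type} [Field K] [NumberField K] (E : WeierstrassCurve K) (σ₁ t₀ h b : ℝ) (w : ℂ)
    (N : ℝ) : Prop :=
  ∃ (M : HeightOneSpectrum (𝓞 K) → WeierstrassCurve (𝓞 K)) (F : ℂ → ℂ),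
    (∀ v, IsMinAt E v (M v)) ∧ DifferentiableOn ℂ F (box σ₁ t₀ h) ∧
    (∀ s ∈ box σ₁ t₀ h, ‖F s‖ ≤ b) ∧
    (∀ s ∈ box σ₁ t₀ h, 3 / 2 < s.re →
      F s = ∏' v : HeightOneSpectrum (𝓞 K), (locDen (M v) v s)⁻¹) ∧
    ∀ T : Finset ℂ, (∀ ρ ∈ T, ρ ∈ box σ₁ t₀ h ∧ F ρ = w) →
      ∑ ρ ∈ T, (analyticOrderNatAt (fun s => F s - w) ρ : ℝ) < N

/-- **PZH, all heights at once.** -/
def S_PZH : Prop :=
  ∀ (K : Type) [Field K] [NumberField K] (σ₁ h C₀ κ : ℝ), σ₁ < 1 → 0 < h → 0 < C₀ → 0 < κ →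
  ∃ c δ Y₀ : ℝ, 0 < c ∧ 0 < δ ∧ ∀ (Y T₀ : ℝ) (A : 𝓞 K), Y₀ ≤ Y → A ≠ 0 → House A Y →
    ∀ S : Finset (𝓞 K),
    (∀ B ∈ S, House B Y ∧ 4 * A ^ 3 + 27 * B ^ 2 ≠ 0 ∧
      ∃ (t₀ H : ℝ) (w : ℂ), |t₀ - T₀| ≤ Real.log Y ^ (1 / 20 : ℝ) ∧ h ≤ H ∧
        H ≤ Real.exp (Real.log Y ^ (1 / 20 : ℝ)) ∧ κ ≤ ‖w - 1‖ ∧ ‖w‖ ≤ Y ^ δ ∧
        FewV (crv A B) σ₁ t₀ H (Y ^ C₀) w (c * H * Real.log Y)) →
    (S.card : ℝ) ≤ Y ^ (Module.finrank ℚ K : ℝ) * Real.log Y ^ (-(1 / 8 : ℝ))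

private theorem FibH_box {σ₁ t₀ t₁ H k : ℝ} (h : |t₁ - t₀| + k ≤ H) :
    box σ₁ t₁ k ⊆ box σ₁ t₀ H := by
  intro s hs
  refine ⟨hs.1, ?_⟩
  have h4 : |s.im - t₁| < k := hs.2
  have h6 := abs_add_le (s.im - t₁) (t₁ - t₀)
  have h5 : s.im - t₀ = (s.im - t₁) + (t₁ - t₀) := by ring
  rw [h5]
  linarith

open Classical in
/-- The windows which are not light. -/
private theorem FibH_heavy {K : Type} [Field K] [NumberField K] (E : WeierstrassCurve K)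
    {σ₁ t₀ H b N N' h : ℝ} {w : ℂ} (hF : FewV E σ₁ t₀ H b w N) (J : ℕ) (t : ℕ → ℝ)
    (hsub : ∀ j ∈ Finset.range J, |t j - t₀| + h ≤ H)
    (hdis : ∀ i ∈ Finset.range J, ∀ j ∈ Finset.range J, i ≠ j → 2 * h ≤ |t i - t j|) :
    (((Finset.range J).filter (fun j => ¬ FewV E σ₁ (t j) h b w N')).card : ℝ) * N' < N := by
  obtain ⟨M, F, hM, hF1, hF2, hF3, hF4⟩ := hF
  obtain ⟨X, hX⟩ : ∃ X : Finset ℕ,
    X = (Finset.range J).filter (fun j => ¬ FewV E σ₁ (t j) h b w N') := ⟨_, rfl⟩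
  rw [← hX]
  have hXJ : ∀ j ∈ X, j ∈ Finset.range J := fun j hj => by
    rw [hX] at hj
    exact (Finset.mem_filter.1 hj).1
  have hT : ∀ j ∈ X, ∃ T : Finset ℂ, (∀ ρ ∈ T, ρ ∈ box σ₁ (t j) h ∧ F ρ = w) ∧
      N' ≤ ∑ ρ ∈ T, (analyticOrderNatAt (fun s => F s - w) ρ : ℝ) := by
    intro j hj
    have hs := FibH_box (σ₁ := σ₁) (hsub j (hXJ j hj))
    rw [hX] at hj
    have h1 := (Finset.mem_filter.1 hj).2
    by_contra hcon
    push Not at hcon
    exact h1 ⟨M, F, hM, hF1.mono hs, fun s hs' => hF2 s (hs hs'), fun s hs' => hF3 s (hs hs'), hcon⟩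
  choose! T hT1 hT2 using hT
  have hd : (X : Set ℕ).PairwiseDisjoint T := by
    intro i hi j hj hij
    rw [Function.onFun, Finset.disjoint_left]
    intro ρ hρi hρj
    have h1 : |ρ.im - t i| < h := (hT1 i hi ρ hρi).1.2
    have h2 : |ρ.im - t j| < h := (hT1 j hj ρ hρj).1.2
    have h3 := hdis i (hXJ i hi) j (hXJ j hj) hij
    have h4 := abs_sub_le (t i) ρ.im (t j)
    rw [abs_sub_comm (t i) ρ.im] at h4
    linarith
  have h5 := hF4 (X.biUnion T) (fun ρ hρ => by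
    obtain ⟨j, hj, hρj⟩ := Finset.mem_biUnion.1 hρ
    exact ⟨FibH_box (hsub j (hXJ j hj)) (hT1 j hj ρ hρj).1, (hT1 j hj ρ hρj).2⟩)
  rw [Finset.sum_biUnion hd] at h5
  refine lt_of_le_of_lt ?_ h5
  calc (X.card : ℝ) * N' = ∑ _j ∈ X, N' := by rw [Finset.sum_const, nsmul_eq_mul]
    _ ≤ _ := Finset.sum_le_sum hT2

open Classical in
/-- At least half of the windows are light. -/
private theorem FibH_light {K : Type} [Field K] [NumberField K] (E : WeierstrassCurve K)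
    {σ₁ t₀ H b c l h : ℝ} {w : ℂ} (hc : 0 < c) (hl : 0 < l) (hh : 0 < h)
    (hF : FewV E σ₁ t₀ H b w (c / (8 * h) * H * l)) (J : ℕ) (t : ℕ → ℝ)
    (hsub : ∀ j ∈ Finset.range J, |t j - t₀| + h ≤ H)
    (hdis : ∀ i ∈ Finset.range J, ∀ j ∈ Finset.range J, i ≠ j → 2 * h ≤ |t i - t j|)
    (hJ : H ≤ 4 * (J * h)) :
    (J : ℝ) / 2 < (((Finset.range J).filter (fun j => FewV E σ₁ (t j) h b w (c * l))).card : ℝ) := by
  have h1 := FibH_heavy E (N' := c * l) hF J t hsub hdis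
  have h2 := Finset.card_filter_add_card_filter_not (s := Finset.range J)
    (fun j => FewV E σ₁ (t j) h b w (c * l))
  rw [Finset.card_range] at h2
  have h3 : (((Finset.range J).filter (fun j => FewV E σ₁ (t j) h b w (c * l))).card : ℝ) +
      (((Finset.range J).filter (fun j => ¬ FewV E σ₁ (t j) h b w (c * l))).card : ℝ) = J := by
    exact_mod_cast h2
  obtain ⟨x, hx⟩ : ∃ x : ℝ, x =
    (((Finset.range J).filter (fun j => ¬ FewV E σ₁ (t j) h b w (c * l))).card : ℝ) := ⟨_, rfl⟩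
  rw [← hx] at h1 h3
  have h4 : x < J / 2 := by
    have e1 : x * (c * l) < (J / 2) * (c * l) := by
      refine lt_of_lt_of_le h1 ?_
      have e2 : c / (8 * h) * H * l = (H / (8 * h)) * (c * l) := by
        field_simp
      rw [e2]
      refine mul_le_mul_of_nonneg_right ?_ (by positivity)
      rw [div_le_div_iff₀ (by positivity) (by norm_num)]
      linarith
    exact lt_of_mul_lt_mul_right e1 (by positivity)
  linarith

/-- The centres of `J` consecutive windows around `T`. -/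
private noncomputable def ctr (T h : ℝ) (J j : ℕ) : ℝ := T - J * h + (2 * j + 1) * h

private theorem ctr_abs {T h : ℝ} (hh : 0 < h) {J j : ℕ} (hj : j ∈ Finset.range J) :
    |ctr T h J j - T| + h ≤ J * h := by
  rw [Finset.mem_range] at hj
  have h1 : (j : ℝ) + 1 ≤ J := by exact_mod_cast hj
  have h0 : (0 : ℝ) ≤ j := Nat.cast_nonneg j
  have h2 : |ctr T h J j - T| ≤ J * h - h := by
    unfold ctr
    rw [abs_le]
    constructor <;> nlinarith
  linarith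

private theorem ctr_dis {T h : ℝ} (hh : 0 < h) {J i j : ℕ} (hij : i ≠ j) :
    2 * h ≤ |ctr T h J i - ctr T h J j| := by
  have h1 : ctr T h J i - ctr T h J j = 2 * h * ((i : ℝ) - j) := by
    unfold ctr
    ring
  rw [h1, abs_mul, abs_of_pos (by positivity : (0 : ℝ) < 2 * h)]
  have h2 : (1 : ℝ) ≤ |(i : ℝ) - j| := by
    have h3 : (1 : ℤ) ≤ |(i : ℤ) - j| := Int.one_le_abs (sub_ne_zero.2 (by exact_mod_cast hij))
    exact_mod_cast h3
  nlinarith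

private theorem FibH_num (h : ℝ) : ∀ᶠ Y : ℝ in atTop,
    (11 + 2 * ((⌈2 * (Real.log Y ^ (1 / 20 : ℝ) + |Real.log (2 * h)|)⌉₊ : ℝ) + 1)) *
      Real.log Y ^ (-(1 / 5 : ℝ)) ≤ Real.log Y ^ (-(1 / 8 : ℝ)) := by
  have hA : ∀ᶠ Y : ℝ in atTop,
      17 + (4 + 4 * |Real.log (2 * h)|) ≤ Real.log Y ^ (1 / 40 : ℝ) :=
    ((tendsto_rpow_atTop (by norm_num : (0 : ℝ) < 1 / 40)).comp
      Real.tendsto_log_atTop).eventually_ge_atTop _
  filter_upwards [hA, Real.tendsto_log_atTop.eventually_ge_atTop (1 : ℝ)] with Y h1 hl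
  have hl0 : 0 < Real.log Y := by linarith
  obtain ⟨ℓ, hℓ⟩ : ∃ ℓ : ℝ, ℓ = Real.log Y ^ (1 / 20 : ℝ) := ⟨_, rfl⟩
  rw [← hℓ]
  have hℓ1 : 1 ≤ ℓ := by rw [hℓ]; exact Real.one_le_rpow hl (by norm_num)
  have h2 : (⌈2 * (ℓ + |Real.log (2 * h)|)⌉₊ : ℝ) < 2 * (ℓ + |Real.log (2 * h)|) + 1 :=
    Nat.ceil_lt_add_one (by positivity)
  have hab := abs_nonneg (Real.log (2 * h))
  have h3 : 11 + 2 * ((⌈2 * (ℓ + |Real.log (2 * h)|)⌉₊ : ℝ) + 1) ≤
      (17 + (4 + 4 * |Real.log (2 * h)|)) * ℓ := by nlinarith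
  have h4 : Real.log Y ^ (1 / 40 : ℝ) * ℓ * Real.log Y ^ (-(1 / 5 : ℝ)) =
      Real.log Y ^ (-(1 / 8 : ℝ)) := by
    rw [hℓ, ← Real.rpow_add hl0, ← Real.rpow_add hl0]
    norm_num
  have h5 : 0 ≤ Real.log Y ^ (-(1 / 5 : ℝ)) := Real.rpow_nonneg hl0.le _
  calc (11 + 2 * ((⌈2 * (ℓ + |Real.log (2 * h)|)⌉₊ : ℝ) + 1)) * Real.log Y ^ (-(1 / 5 : ℝ))
      ≤ ((17 + (4 + 4 * |Real.log (2 * h)|)) * ℓ) * Real.log Y ^ (-(1 / 5 : ℝ)) :=
        mul_le_mul_of_nonneg_right h3 h5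
    _ ≤ (Real.log Y ^ (1 / 40 : ℝ) * ℓ) * Real.log Y ^ (-(1 / 5 : ℝ)) := by
        refine mul_le_mul_of_nonneg_right ?_ h5
        exact mul_le_mul_of_nonneg_right h1 (by linarith)
    _ = _ := h4

open Classical in
/-- Double counting. -/
private theorem FibH_dc {α : Type} (S : Finset α) (J : ℕ) (hJ : 0 < J) (R : α → ℕ → Prop) (U : ℝ)
    (h1 : ∀ B ∈ S, (J : ℝ) / 2 ≤ (((Finset.range J).filter (fun j => R B j)).card : ℝ))
    (h2 : ∀ j ∈ Finset.range J, ((S.filter (fun B => R B j)).card : ℝ) ≤ U) :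
    (S.card : ℝ) ≤ 2 * U := by
  have h3 : ∑ B ∈ S, (((Finset.range J).filter (fun j => R B j)).card : ℝ) =
      ∑ j ∈ Finset.range J, ((S.filter (fun B => R B j)).card : ℝ) := by
    simp only [Finset.card_filter, Nat.cast_sum]
    exact Finset.sum_comm
  have h4 : (S.card : ℝ) * (J / 2) ≤ ∑ B ∈ S, (((Finset.range J).filter (fun j => R B j)).card : ℝ) := by
    calc (S.card : ℝ) * (J / 2) = ∑ _B ∈ S, (J : ℝ) / 2 := by rw [Finset.sum_const, nsmul_eq_mul]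
      _ ≤ _ := Finset.sum_le_sum h1
  have h5 : ∑ j ∈ Finset.range J, ((S.filter (fun B => R B j)).card : ℝ) ≤ J * U := by
    calc ∑ j ∈ Finset.range J, ((S.filter (fun B => R B j)).card : ℝ) ≤ ∑ _j ∈ Finset.range J, U :=
          Finset.sum_le_sum h2
      _ = J * U := by rw [Finset.sum_const, nsmul_eq_mul, Finset.card_range]
  have hJ0 : (0 : ℝ) < J := by exact_mod_cast hJ
  have h6 : (S.card : ℝ) * J ≤ 2 * U * J := by linarith
  exact le_of_mul_le_mul_right h6 hJ0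

/-- A point within `5 ℓ` of `T` is within `ℓ` of one of the `11` points `T + (m - 5) ℓ`. -/
private theorem FibH_grid {t T ℓ : ℝ} (hℓ : 0 < ℓ) (h1 : |t - T| ≤ 5 * ℓ) :
    ∃ m ∈ Finset.range 11, |t - (T + ((m : ℝ) - 5) * ℓ)| ≤ ℓ := by
  obtain ⟨x, hx⟩ : ∃ x : ℝ, x = (t - T) / ℓ := ⟨_, rfl⟩
  have hxt : t - T = x * ℓ := by rw [hx]; field_simp
  have h2 : |x| ≤ 5 := by
    rw [hx, abs_div, abs_of_pos hℓ, div_le_iff₀ hℓ]
    exact h1
  have h3 := abs_le.1 h2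
  have h4 : (⌊x⌋ : ℝ) ≤ x := Int.floor_le x
  have h5 : x < ⌊x⌋ + 1 := Int.lt_floor_add_one x
  have h6 : -5 ≤ ⌊x⌋ := Int.le_floor.2 (by push_cast; linarith)
  have h7 : ⌊x⌋ ≤ 5 := by
    have : (⌊x⌋ : ℝ) ≤ 5 := by linarith
    exact_mod_cast this
  obtain ⟨m, hm⟩ := Int.eq_ofNat_of_zero_le (show 0 ≤ ⌊x⌋ + 5 by linarith)
  refine ⟨m, ?_, ?_⟩
  · rw [Finset.mem_range]
    omega
  · have h8 : (m : ℝ) = (⌊x⌋ : ℝ) + 5 := by
      have : ((m : ℤ) : ℝ) = ((⌊x⌋ + 5 : ℤ) : ℝ) := by rw [hm]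
      push_cast at this
      exact this
    have h9 : t - (T + ((m : ℝ) - 5) * ℓ) = (x - ⌊x⌋) * ℓ := by
      rw [h8]
      linear_combination hxt
    rw [h9, abs_mul, abs_of_pos hℓ]
    have h10 : |x - ⌊x⌋| ≤ 1 := by
      rw [abs_le]
      constructor <;> linarith
    nlinarith

/-- The dyadic number. -/
private theorem FibH_pow {H h ℓ : ℝ} (hh : 0 < h) (h1 : 4 * h ≤ H) (h2 : H ≤ Real.exp ℓ) :
    ∃ i : ℕ, i ∈ Finset.range (⌈2 * (ℓ + |Real.log (2 * h)|)⌉₊ + 1) ∧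
      ((2 ^ i : ℕ) : ℝ) * h ≤ H / 2 ∧ H ≤ 4 * (((2 ^ i : ℕ) : ℝ) * h) := by
  have h3 : (1 : ℝ) ≤ H / (2 * h) := by
    rw [le_div_iff₀ (by positivity)]
    linarith
  obtain ⟨i, hi1, hi2⟩ := exists_nat_pow_near h3 (by norm_num : (1 : ℝ) < 2)
  rw [le_div_iff₀ (by positivity)] at hi1
  rw [div_lt_iff₀ (by positivity), pow_succ] at hi2
  refine ⟨i, ?_, ?_, ?_⟩
  · rw [Finset.mem_range, Nat.lt_succ_iff]
    have h4 : (i : ℝ) ≤ 2 * (ℓ + |Real.log (2 * h)|) := by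
      have e1 : (2 : ℝ) ^ i * (2 * h) ≤ Real.exp ℓ := hi1.trans h2
      have e2 := Real.log_le_log (by positivity) e1
      rw [Real.log_exp, Real.log_mul (by positivity) (by positivity), Real.log_pow] at e2
      have e3 : (1 / 2 : ℝ) ≤ Real.log 2 := by
        have := Real.log_two_gt_d9
        linarith
      have e4 := neg_abs_le (Real.log (2 * h))
      have e5 : (i : ℝ) * (1 / 2) ≤ i * Real.log 2 :=
        mul_le_mul_of_nonneg_left e3 (Nat.cast_nonneg i)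
      linarith
    have h5 : (i : ℝ) ≤ (⌈2 * (ℓ + |Real.log (2 * h)|)⌉₊ : ℝ) := h4.trans (Nat.le_ceil _)
    exact_mod_cast h5
  · push_cast
    linarith
  · push_cast
    linarith

open Classical in
theorem pzHOf (hU : S_PZFU) : S_PZH := by
  intro K _ _ σ₁ h C₀ κ hσ hh hC hκ
  obtain ⟨c, δ, Y₁, hc, hδ, hmain⟩ := hU K σ₁ h C₀ κ hσ hh hC hκ
  obtain ⟨Y₂, hY₂⟩ := eventually_atTop.1 ((FibH_num h).and
    ((Real.tendsto_log_atTop.eventually_ge_atTop (1 : ℝ)).and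
    ((((tendsto_rpow_atTop (by norm_num : (0 : ℝ) < 1 / 20)).comp
      Real.tendsto_log_atTop).eventually_ge_atTop h).and (eventually_ge_atTop (0 : ℝ)))))
  refine ⟨c / (8 * h), δ, max Y₁ Y₂, by positivity, hδ, ?_⟩
  intro Y T₀ A hY hA hAY S hS
  obtain ⟨hnum, hl1, hℓh, hY0⟩ := hY₂ Y (le_trans (le_max_right _ _) hY)
  have hY1 : Y₁ ≤ Y := le_trans (le_max_left _ _) hY
  have hl0 : 0 < Real.log Y := by linarith
  obtain ⟨ℓ, hℓ⟩ : ∃ ℓ : ℝ, ℓ = Real.log Y ^ (1 / 20 : ℝ) := ⟨_, rfl⟩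
  have hℓh' : h ≤ ℓ := by rw [hℓ]; exact hℓh
  have hℓ0 : 0 < ℓ := by linarith
  rw [← hℓ] at hnum
  simp only [← hℓ] at hS
  obtain ⟨U, hUdef⟩ : ∃ U : ℝ, U = Y ^ (Module.finrank ℚ K : ℝ) * Real.log Y ^ (-(1 / 5 : ℝ)) :=
    ⟨_, rfl⟩
  obtain ⟨Lt, hLt⟩ : ∃ Lt : 𝓞 K → ℝ → Prop, Lt = fun B t => ∃ w : ℂ, κ ≤ ‖w - 1‖ ∧ ‖w‖ ≤ Y ^ δ ∧
    FewV (crv A B) σ₁ t h (Y ^ C₀) w (c * Real.log Y) := ⟨_, rfl⟩
  have hP : ∀ (T : ℝ) (S' : Finset (𝓞 K)), S' ⊆ S → (∀ B ∈ S', ∃ t, |t - T| ≤ ℓ ∧ Lt B t) →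
      (S'.card : ℝ) ≤ U := by
    intro T S' hsub hS'
    rw [hUdef]
    refine hmain Y T A hY1 hA hAY S' ?_
    intro B hB
    refine ⟨(hS B (hsub hB)).1, (hS B (hsub hB)).2.1, ?_⟩
    obtain ⟨t, ht, hL⟩ := hS' B hB
    rw [hLt] at hL
    obtain ⟨w, hw1, hw2, M, F, hM, hF1, hF2, hF3, hF4⟩ := hL
    exact ⟨t, M, F, w, hℓ ▸ ht, hM, hF1, hF2, hF3, hw1, hw2, hF4⟩
  obtain ⟨I, hI⟩ : ∃ I : ℕ, I = ⌈2 * (ℓ + |Real.log (2 * h)|)⌉₊ := ⟨_, rfl⟩
  rw [← hI] at hnum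
  -- the dichotomy
  have hdich : ∀ B ∈ S, (∃ m ∈ Finset.range 11, ∃ t, |t - (T₀ + ((m : ℝ) - 5) * ℓ)| ≤ ℓ ∧ Lt B t) ∨
      (∃ i ∈ Finset.range (I + 1), ((2 ^ i : ℕ) : ℝ) / 2 ≤
        (((Finset.range (2 ^ i)).filter (fun j => Lt B (ctr T₀ h (2 ^ i) j))).card : ℝ)) := by
    intro B hB
    obtain ⟨_, _, t₀, H, w, ht₀, hH1, hH2, hw1, hw2, hF⟩ := hS B hB
    by_cases hcase : H ≤ 4 * ℓ
    · left
      obtain ⟨J, hJ⟩ : ∃ J : ℕ, J = ⌊H / h⌋₊ := ⟨_, rfl⟩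
      have hx1 : 1 ≤ H / h := by rw [le_div_iff₀ hh]; linarith
      have hJ1 : 1 ≤ J := by
        rw [hJ]
        exact Nat.le_floor (by exact_mod_cast hx1)
      have hJ1' : (1 : ℝ) ≤ J := by exact_mod_cast hJ1
      have hJle : (J : ℝ) * h ≤ H := by
        have := Nat.floor_le (show 0 ≤ H / h by linarith)
        rw [← hJ, le_div_iff₀ hh] at this
        exact this
      have hJlt : H < (J + 1) * h := by
        have := Nat.lt_floor_add_one (H / h)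
        rw [← hJ, div_lt_iff₀ hh] at this
        exact this
      have hlight := FibH_light (crv A B) hc hl0 hh hF J (ctr t₀ h J)
        (fun j hj => (ctr_abs hh hj).trans hJle) (fun i _ j _ hij => ctr_dis hh hij) (by nlinarith)
      have hpos : 0 < ((Finset.range J).filter
          (fun j => FewV (crv A B) σ₁ (ctr t₀ h J j) h (Y ^ C₀) w (c * Real.log Y))).card := by
        have : (0 : ℝ) < (((Finset.range J).filter
          (fun j => FewV (crv A B) σ₁ (ctr t₀ h J j) h (Y ^ C₀) w (c * Real.log Y))).card : ℝ) :=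
          lt_trans (by linarith) hlight
        exact_mod_cast this
      obtain ⟨j, hj⟩ := Finset.card_pos.1 hpos
      rw [Finset.mem_filter] at hj
      have h1 := ctr_abs (T := t₀) hh hj.1
      have h2 := abs_sub_le (ctr t₀ h J j) t₀ T₀
      obtain ⟨m, hm1, hm2⟩ := FibH_grid (t := ctr t₀ h J j) (T := T₀) hℓ0 (by linarith)
      refine ⟨m, hm1, ctr t₀ h J j, hm2, ?_⟩
      rw [hLt]
      exact ⟨w, hw1, hw2, hj.2⟩
    · right
      have hcase' : 4 * ℓ < H := not_le.1 hcase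
      obtain ⟨i, hi1, hi2, hi3⟩ := FibH_pow hh (show 4 * h ≤ H by linarith) hH2
      rw [← hI] at hi1
      refine ⟨i, hi1, ?_⟩
      have hlight := FibH_light (crv A B) hc hl0 hh hF (2 ^ i) (ctr T₀ h (2 ^ i))
        (fun j hj => by
          have h1 := ctr_abs (T := T₀) hh hj
          have h2 := abs_sub_le (ctr T₀ h (2 ^ i) j) T₀ t₀
          rw [abs_sub_comm T₀ t₀] at h2
          linarith) (fun i _ j _ hij => ctr_dis hh hij) hi3
      refine hlight.le.trans ?_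
      rw [Nat.cast_le]
      refine Finset.card_le_card ?_
      intro j hj
      rw [Finset.mem_filter] at hj ⊢
      refine ⟨hj.1, ?_⟩
      rw [hLt]
      exact ⟨w, hw1, hw2, hj.2⟩
  -- the two families
  obtain ⟨SA, hSA⟩ : ∃ SA : ℕ → Finset (𝓞 K), SA = fun m : ℕ =>
    S.filter (fun B => ∃ t, |t - (T₀ + ((m : ℝ) - 5) * ℓ)| ≤ ℓ ∧ Lt B t) := ⟨_, rfl⟩
  obtain ⟨SB, hSB⟩ : ∃ SB : ℕ → Finset (𝓞 K), SB = fun i : ℕ =>
    S.filter (fun B => ((2 ^ i : ℕ) : ℝ) / 2 ≤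
      (((Finset.range (2 ^ i)).filter (fun j => Lt B (ctr T₀ h (2 ^ i) j))).card : ℝ)) := ⟨_, rfl⟩
  have hcover : S ⊆ (Finset.range 11).biUnion SA ∪ (Finset.range (I + 1)).biUnion SB := by
    intro B hB
    rw [Finset.mem_union, Finset.mem_biUnion, Finset.mem_biUnion]
    rcases hdich B hB with ⟨m, hm, hm'⟩ | ⟨i, hi, hi'⟩
    · exact Or.inl ⟨m, hm, by rw [hSA]; exact Finset.mem_filter.2 ⟨hB, hm'⟩⟩
    · exact Or.inr ⟨i, hi, by rw [hSB]; exact Finset.mem_filter.2 ⟨hB, hi'⟩⟩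
  have hA' : ∀ m ∈ Finset.range 11, ((SA m).card : ℝ) ≤ U := by
    intro m _
    refine hP (T₀ + ((m : ℝ) - 5) * ℓ) (SA m) ?_ ?_
    · rw [hSA]; exact Finset.filter_subset _ _
    · intro B hB
      rw [hSA] at hB
      exact (Finset.mem_filter.1 hB).2
  have hB' : ∀ i ∈ Finset.range (I + 1), ((SB i).card : ℝ) ≤ 2 * U := by
    intro i _
    refine FibH_dc (SB i) (2 ^ i) (by positivity) (fun B j => Lt B (ctr T₀ h (2 ^ i) j)) U ?_ ?_
    · intro B hB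
      rw [hSB] at hB
      exact (Finset.mem_filter.1 hB).2
    · intro j _
      refine hP (ctr T₀ h (2 ^ i) j) _ ?_ ?_
      · refine (Finset.filter_subset _ _).trans ?_
        rw [hSB]
        exact Finset.filter_subset _ _
      · intro B hB
        exact ⟨ctr T₀ h (2 ^ i) j, by rw [sub_self, abs_zero]; exact hℓ0.le,
          (Finset.mem_filter.1 hB).2⟩
  have hcard : (S.card : ℝ) ≤ (11 + 2 * ((I : ℝ) + 1)) * U := by
    have e1 : S.card ≤ ((Finset.range 11).biUnion SA).card +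
        ((Finset.range (I + 1)).biUnion SB).card :=
      (Finset.card_le_card hcover).trans (Finset.card_union_le _ _)
    have e2 : (((Finset.range 11).biUnion SA).card : ℝ) ≤ 11 * U := by
      have : (((Finset.range 11).biUnion SA).card : ℝ) ≤ ∑ m ∈ Finset.range 11, ((SA m).card : ℝ) := by
        exact_mod_cast Finset.card_biUnion_le
      refine this.trans ((Finset.sum_le_sum hA').trans ?_)
      rw [Finset.sum_const, Finset.card_range, nsmul_eq_mul]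
      norm_num
    have e3 : (((Finset.range (I + 1)).biUnion SB).card : ℝ) ≤ ((I : ℝ) + 1) * (2 * U) := by
      have : (((Finset.range (I + 1)).biUnion SB).card : ℝ) ≤
          ∑ i ∈ Finset.range (I + 1), ((SB i).card : ℝ) := by
        exact_mod_cast Finset.card_biUnion_le
      refine this.trans ((Finset.sum_le_sum hB').trans ?_)
      rw [Finset.sum_const, Finset.card_range, nsmul_eq_mul]
      push_cast
      exact le_refl _
    have e4 : (S.card : ℝ) ≤ (((Finset.range 11).biUnion SA).card : ℝ) +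
        (((Finset.range (I + 1)).biUnion SB).card : ℝ) := by exact_mod_cast e1
    linarith
  refine hcard.trans ?_
  rw [hUdef]
  have hYn : 0 ≤ Y ^ (Module.finrank ℚ K : ℝ) := Real.rpow_nonneg hY0 _
  calc (11 + 2 * ((I : ℝ) + 1)) * (Y ^ (Module.finrank ℚ K : ℝ) * Real.log Y ^ (-(1 / 5 : ℝ)))
      = Y ^ (Module.finrank ℚ K : ℝ) * ((11 + 2 * ((I : ℝ) + 1)) * Real.log Y ^ (-(1 / 5 : ℝ))) := by
        ring
    _ ≤ _ := mul_le_mul_of_nonneg_left hnum hYn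

/-- **All heights**: `S_PZH` holds. -/
theorem pzHAll : S_PZH := pzHOf pzFUAll

end MP7ed9c3.Pz
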