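import Pool.Agent.Lib.MP_7ed9c3_nt.Pz.SpecZ

/-!
# MP_7ed9c3_nt, part Pz, the fibre version: for every `A ≠ 0` almost all `B`

Statements.  The coordinates of `A` are fixed (`c : Ix K → ℤ`, `A = pt c`), those of `B` vary
(`b : Ix K → ℤ`); the point of `Ix K ⊕ Ix K → ℤ` is `Sum.elim c b`.
-/

set_option autoImplicit false

namespace MP7ed9c3.Pz

open NumberField IsDedekindDomain MP7ed9c3 MP7ed9c3.Tw MP7ed9c3.Tz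

open Classical in
/-- **F1, means in the fibre** (from `fibF` (Pz/FibF.lean), `hom` (Tz/Hom.lean), the Chinese remainder theorem as
in Tz/TrMean.lean). -/
def S_MeanF : Prop :=
  ∀ (K : Type) [Field K] [NumberField K] (p : ℕ), p.Prime → 3 < p → ∀ c : Ix K → ℤ,
    mean p (fun b : Ix K → ℤ => ∑ v ∈ D1 K p, trp v (Sum.elim c b)) = 0 ∧
    ((p : ℝ) - 3) * (((D1 K p).filter (fun v => pt c ∉ v.asIdeal)).card : ℝ) ≤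
      mean p (fun b : Ix K → ℤ => (∑ v ∈ D1 K p, trp v (Sum.elim c b)) ^ 2)

/-- **F2, the choice of the window in the fibre** (as `S_Wk`, Pz/Wk.lean; the `v` with `pt c ∈ v` are few by
`S_Div`). -/
def S_WkF : Prop :=
  ∀ (K : Type) [Field K] [NumberField K] (σ₂ h₂ : ℝ), 1 / 2 < σ₂ → σ₂ < 1 → 0 < h₂ → h₂ ≤ 1 / 2 →
    ∀ β : ℕ → ℕ → (Ix K ⊕ Ix K → ℤ) → ℝ,
    (∀ p : ℕ, p.Prime → 3 < p → ∀ a, β p 1 a = ∑ v ∈ D1 K p, trp v a) →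
    ∃ C₁ c₂ m₀ : ℝ, 0 < C₁ ∧ 0 < c₂ ∧ 0 < m₀ ∧ ∀ e : ℝ, 0 < e → e < 1 / 3 → ∃ Z₀ : ℕ,
    ∀ Z : ℕ, Z₀ ≤ Z → ∃ (μ : ℝ) (R : ℕ), m₀ * Real.log Z ≤ μ ∧
      μ * Real.sinh (Real.pi * (3 - σ₂) / (2 * h₂)) ≤ Real.log Z ∧
      (R : ℝ) ≤ μ * Real.sinh (a1 σ₂ h₂) / 2 ∧ ∀ t₀ : ℝ,
      (∀ l ∈ Finset.Icc 1 Z, ∀ m ∈ Finset.Icc 1 Z, |Kf σ₂ h₂ μ t₀ R l m| ≤ C₁ / ((l : ℝ) * m) ∧
        (Real.log Z ^ (2 / 3 : ℝ) < |Real.log l - Real.log m| →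
          |Kf σ₂ h₂ μ t₀ R l m| ≤ Real.exp (-(Real.log Z ^ (1 / 4 : ℝ))) / ((l : ℝ) * m))) ∧
      ∀ (c : Ix K → ℤ) (Y : ℝ), pt c ≠ 0 → 1 ≤ Y → House (pt c) Y → Real.log Y ≤ 48 * Real.log Z →
        c₂ ≤ ∑ p ∈ pr (zf e Z) Z, mean p (fun b : Ix K → ℤ => β p 1 (Sum.elim c b) ^ 2) *
          Kf σ₂ h₂ μ t₀ R p p

/-- **PZF, the fibre version of the main theorem**: for every `A ≠ 0` the bad `B` are few. -/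
def S_PZF : Prop :=
  ∀ (K : Type) [Field K] [NumberField K] (σ₁ h C₀ : ℝ) (w : ℂ), σ₁ < 1 → 0 < h → 0 < C₀ → w ≠ 1 →
  ∃ c Y₀ : ℝ, 0 < c ∧ ∀ (Y T₀ : ℝ) (A : 𝓞 K), Y₀ ≤ Y → A ≠ 0 → House A Y → ∀ S : Finset (𝓞 K),
    (∀ B ∈ S, House B Y ∧ 4 * A ^ 3 + 27 * B ^ 2 ≠ 0 ∧
      ∃ (t₀ : ℝ) (M : HeightOneSpectrum (𝓞 K) → WeierstrassCurve (𝓞 K)) (F : ℂ → ℂ),
        |t₀ - T₀| ≤ Real.log Y ^ (1 / 20 : ℝ) ∧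
        (∀ v, IsMinAt (crv A B) v (M v)) ∧ DifferentiableOn ℂ F (box σ₁ t₀ h) ∧
        (∀ s ∈ box σ₁ t₀ h, ‖F s‖ ≤ Y ^ C₀) ∧
        (∀ s ∈ box σ₁ t₀ h, 3 / 2 < s.re →
          F s = ∏' v : HeightOneSpectrum (𝓞 K), (locDen (M v) v s)⁻¹) ∧
        ∀ T : Finset ℂ, (∀ ρ ∈ T, ρ ∈ box σ₁ t₀ h ∧ F ρ = w) →
          ∑ ρ ∈ T, (analyticOrderNatAt (fun s => F s - w) ρ : ℝ) < c * Real.log Y) →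
    (S.card : ℝ) ≤ Y ^ (Module.finrank ℚ K : ℝ) * Real.log Y ^ (-(1 / 5 : ℝ))

end MP7ed9c3.Pz
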