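import Pool.Agent.Lib.MP_7ed9c3_nt.Pz.Def

/-!
# MP_7ed9c3_nt, part Pz: the mollifier (`S_Moll`)
-/

set_option autoImplicit false

namespace MP7ed9c3.Pz

open NumberField IsDedekindDomain MP7ed9c3 MP7ed9c3.Tw MP7ed9c3.Tz

/-- The divisor bound. -/
theorem Moll_div (E : ℕ) : ∃ C : ℝ, 0 < C ∧ ∀ m : ℕ, 1 ≤ m →
    ((m.divisors.card : ℕ) : ℝ) ^ E ≤ C * (m : ℝ) ^ (1 / 10 : ℝ) := by
  obtain ⟨r, hr⟩ : ∃ r : ℝ, r = (2 : ℝ) ^ (1 / 10 : ℝ) := ⟨_, rfl⟩
  have hr1 : 1 < r := by
    rw [hr]
    exact Real.one_lt_rpow (by norm_num) (by norm_num)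
  have hr10 : r ^ 10 = 2 := by
    rw [hr, ← Real.rpow_natCast, ← Real.rpow_mul (by norm_num)]
    norm_num
  have ht := tendsto_pow_const_div_const_pow_of_one_lt E hr1
  obtain ⟨B0, hB0⟩ := ht.bddAbove_range
  have hB0' : ∀ n : ℕ, (n : ℝ) ^ E / r ^ n ≤ B0 := fun n => hB0 ⟨n, rfl⟩
  obtain ⟨B, hB⟩ : ∃ B : ℝ, B = max 1 (B0 * r) := ⟨_, rfl⟩
  have hB1 : 1 ≤ B := by rw [hB]; exact le_max_left _ _
  have hsmall : ∀ i : ℕ, ((i : ℝ) + 1) ^ E ≤ B * r ^ i := by
    intro i
    have h1 := hB0' (i + 1)
    have hpos : 0 < r ^ (i + 1) := by positivity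
    rw [div_le_iff₀ hpos] at h1
    push_cast at h1
    have h2 : B0 * r ^ (i + 1) = (B0 * r) * r ^ i := by ring
    rw [h2] at h1
    refine h1.trans (mul_le_mul_of_nonneg_right ?_ (by positivity))
    rw [hB]
    exact le_max_right _ _
  have hone : ∀ i : ℕ, ((i : ℝ) + 1) ≤ 2 ^ i := by
    intro i
    have := Nat.lt_two_pow_self (n := i)
    have h2 : i + 1 ≤ 2 ^ i := this
    exact_mod_cast h2
  refine ⟨B ^ (2 ^ (10 * E)), by positivity, ?_⟩
  intro m hm
  have hm0 : m ≠ 0 := by omega
  have hcard : ((m.divisors.card : ℕ) : ℝ) = ∏ p ∈ m.primeFactors, ((m.factorization p : ℝ) + 1) := by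
    rw [Nat.card_divisors hm0]
    push_cast
    rfl
  have hmprod : ((m : ℝ)) ^ (1 / 10 : ℝ) = ∏ p ∈ m.primeFactors,
      ((p : ℝ) ^ (m.factorization p)) ^ (1 / 10 : ℝ) := by
    rw [Real.finset_prod_rpow _ _ (fun p _ => by positivity)]
    congr 1
    have h1 := Nat.prod_factorization_pow_eq_self hm0
    have h2 : (m : ℝ) = ((m.factorization.prod fun x1 x2 => x1 ^ x2 : ℕ) : ℝ) := by rw [h1]
    rw [h2, Finsupp.prod]
    push_cast
    rw [Nat.support_factorization]
  have hP : (∏ p ∈ m.primeFactors, (if p < 2 ^ (10 * E) then B else 1)) ≤ B ^ (2 ^ (10 * E)) := by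
    rw [Finset.prod_ite]
    simp only [Finset.prod_const, Finset.prod_const_one, mul_one, one_pow]
    refine pow_le_pow_right₀ hB1 ?_
    calc (m.primeFactors.filter (fun p => p < 2 ^ (10 * E))).card
        ≤ (Finset.range (2 ^ (10 * E))).card := by
          refine Finset.card_le_card ?_
          intro p hp
          rw [Finset.mem_filter] at hp
          exact Finset.mem_range.2 hp.2
      _ = 2 ^ (10 * E) := Finset.card_range _
  rw [hcard, ← Finset.prod_pow, hmprod]
  calc ∏ p ∈ m.primeFactors, ((m.factorization p : ℝ) + 1) ^ E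
      ≤ ∏ p ∈ m.primeFactors, ((if p < 2 ^ (10 * E) then B else 1) *
          ((p : ℝ) ^ (m.factorization p)) ^ (1 / 10 : ℝ)) := by
        refine Finset.prod_le_prod (fun p _ => by positivity) ?_
        intro p hp
        have hpp : p.Prime := Nat.prime_of_mem_primeFactors hp
        have hp2 : (2 : ℝ) ≤ p := by exact_mod_cast hpp.two_le
        have e1 : ((p : ℝ) ^ (m.factorization p)) ^ (1 / 10 : ℝ) =
            ((p : ℝ) ^ (1 / 10 : ℝ)) ^ (m.factorization p) := by
          rw [← Real.rpow_natCast, ← Real.rpow_natCast, ← Real.rpow_mul (by positivity),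
            ← Real.rpow_mul (by positivity), mul_comm]
        rw [e1]
        split_ifs with h
        · refine (hsmall _).trans (mul_le_mul_of_nonneg_left ?_ (by positivity))
          refine pow_le_pow_left₀ (by positivity) ?_ _
          rw [hr]
          exact Real.rpow_le_rpow (by norm_num) hp2 (by norm_num)
        · rw [one_mul]
          calc ((m.factorization p : ℝ) + 1) ^ E ≤ ((2 : ℝ) ^ (m.factorization p)) ^ E :=
                pow_le_pow_left₀ (by positivity) (hone _) _
            _ = ((2 : ℝ) ^ E) ^ (m.factorization p) := by rw [← pow_mul, ← pow_mul, mul_comm]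
            _ ≤ ((p : ℝ) ^ (1 / 10 : ℝ)) ^ (m.factorization p) := by
                refine pow_le_pow_left₀ (by positivity) ?_ _
                have h3 : ((2 : ℝ) ^ (10 * E)) ≤ p := by
                  have : 2 ^ (10 * E) ≤ p := not_lt.1 h
                  exact_mod_cast this
                have h4 : (2 : ℝ) ^ E = ((2 : ℝ) ^ (10 * E)) ^ (1 / 10 : ℝ) := by
                  rw [← Real.rpow_natCast, ← Real.rpow_natCast, ← Real.rpow_mul (by norm_num)]
                  congr 1
                  push_cast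
                  ring
                rw [h4]
                exact Real.rpow_le_rpow (by positivity) h3 (by norm_num)
    _ = (∏ p ∈ m.primeFactors, (if p < 2 ^ (10 * E) then B else 1)) *
          ∏ p ∈ m.primeFactors, ((p : ℝ) ^ (m.factorization p)) ^ (1 / 10 : ℝ) :=
        Finset.prod_mul_distrib
    _ ≤ B ^ (2 ^ (10 * E)) * ∏ p ∈ m.primeFactors, ((p : ℝ) ^ (m.factorization p)) ^ (1 / 10 : ℝ) :=
        mul_le_mul_of_nonneg_right hP (Finset.prod_nonneg fun p _ => by positivity)

theorem Moll_mulf {ι : Type} [Fintype ι] (D : ℕ) (u : ℕ → ℕ → (ι → ℤ) → ℝ)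
    (hu : ∀ p : ℕ, p.Prime → 3 < p → ∀ i a, |u p i a| ≤ ((i : ℝ) + 1) ^ D * √(p : ℝ) ^ i)
    (m : ℕ) (hm : 1 ≤ m) (a : ι → ℤ) :
    |mulf u m a| ≤ ((m.divisors.card : ℕ) : ℝ) ^ D * √(m : ℝ) := by
  have hm0 : m ≠ 0 := by omega
  unfold mulf
  split_ifs with h
  · have hcard : ((m.divisors.card : ℕ) : ℝ) =
        ∏ p ∈ m.primeFactors, ((m.factorization p : ℝ) + 1) := by
      rw [Nat.card_divisors hm0]
      push_cast
      rfl
    have hmprod : √(m : ℝ) = ∏ p ∈ m.primeFactors, √(p : ℝ) ^ (m.factorization p) := by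
      have h0 : ∀ p ∈ m.primeFactors, √(p : ℝ) ^ (m.factorization p) =
          ((p : ℝ) ^ (m.factorization p)) ^ (1 / 2 : ℝ) := by
        intro p _
        rw [Real.sqrt_eq_rpow, ← Real.rpow_natCast, ← Real.rpow_natCast,
          ← Real.rpow_mul (by positivity), ← Real.rpow_mul (by positivity), mul_comm]
      rw [Finset.prod_congr rfl h0, Real.finset_prod_rpow _ _ (fun p _ => by positivity),
        Real.sqrt_eq_rpow]
      congr 1
      have h1 := Nat.prod_factorization_pow_eq_self hm0
      have h2 : (m : ℝ) = ((m.factorization.prod fun x1 x2 => x1 ^ x2 : ℕ) : ℝ) := by rw [h1]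
      rw [h2, Finsupp.prod]
      push_cast
      rw [Nat.support_factorization]
    rw [Finset.abs_prod, hcard, ← Finset.prod_pow, hmprod, ← Finset.prod_mul_distrib]
    refine Finset.prod_le_prod (fun p _ => abs_nonneg _) ?_
    intro p hp
    have hpp : p.Prime := Nat.prime_of_mem_primeFactors hp
    have hpd : p ∣ m := Nat.dvd_of_mem_primeFactors hp
    refine hu p hpp ?_ _ a
    by_contra hlt
    have h6 : p ∣ 6 := by
      have h2 := hpp.two_le
      have h3 : p = 2 ∨ p = 3 := by omega
      rcases h3 with rfl | rfl <;> norm_num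
    have := Nat.dvd_gcd hpd h6
    rw [Nat.Coprime] at h
    rw [h] at this
    exact hpp.one_lt.ne' (Nat.dvd_one.1 this)
  · rw [abs_zero]
    positivity

theorem Moll_sqrt (m : ℕ) (hm : 1 ≤ m) :
    (m : ℝ) ^ (1 / 10 : ℝ) * √(m : ℝ) = (m : ℝ) ^ (3 / 5 : ℝ) := by
  have hm0 : (0 : ℝ) < m := by exact_mod_cast hm
  rw [Real.sqrt_eq_rpow, ← Real.rpow_add hm0]
  norm_num

theorem tMoll : S_Moll := by
  intro ι _ D
  obtain ⟨C1, hC1, h1⟩ := Moll_div D
  obtain ⟨C2, hC2, h2⟩ := Moll_div (2 * D + 1)
  refine ⟨C1 + C2, by positivity, ?_⟩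
  intro β ν hL z X a hX
  have hβ : ∀ p : ℕ, p.Prime → 3 < p → ∀ i a, |β p i a| ≤ ((i : ℝ) + 1) ^ D * √(p : ℝ) ^ i :=
    fun p hp h3 i a => ((hL p hp h3).2.2.1 i a).1
  have hν : ∀ p : ℕ, p.Prime → 3 < p → ∀ i a, |ν p i a| ≤ ((i : ℝ) + 1) ^ D * √(p : ℝ) ^ i :=
    fun p hp h3 i a => ((hL p hp h3).2.2.1 i a).2
  have bβ : ∀ m : ℕ, 1 ≤ m → |mulf β m a| ≤ C1 * (m : ℝ) ^ (3 / 5 : ℝ) := by
    intro m hm
    refine (Moll_mulf D β hβ m hm a).trans ?_
    rw [← Moll_sqrt m hm, ← mul_assoc]
    exact mul_le_mul_of_nonneg_right (h1 m hm) (Real.sqrt_nonneg _)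
  have bν : ∀ m : ℕ, 1 ≤ m → |mulf ν m a| ≤ C1 * (m : ℝ) ^ (3 / 5 : ℝ) := by
    intro m hm
    refine (Moll_mulf D ν hν m hm a).trans ?_
    rw [← Moll_sqrt m hm, ← mul_assoc]
    exact mul_le_mul_of_nonneg_right (h1 m hm) (Real.sqrt_nonneg _)
  have bd : ∀ m : ℕ, 1 ≤ m → |dco β ν z X m a| ≤ C2 * (m : ℝ) ^ (3 / 5 : ℝ) := by
    intro m hm
    have hm0 : m ≠ 0 := by omega
    have hm0' : (0 : ℝ) < m := by exact_mod_cast hm
    have hd0 : (0 : ℝ) ≤ ((m.divisors.card : ℕ) : ℝ) := by positivity
    have key : |dco β ν z X m a| ≤ ((m.divisors.card : ℕ) : ℝ) ^ (2 * D + 1) * √(m : ℝ) := by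
      unfold dco
      refine (Finset.abs_sum_le_sum_abs _ _).trans ?_
      calc _ ≤ ∑ k ∈ m.divisors, ((m.divisors.card : ℕ) : ℝ) ^ (2 * D) * √(m : ℝ) := by
            refine (Finset.sum_le_sum_of_subset_of_nonneg (Finset.filter_subset _ _)
              (fun _ _ _ => abs_nonneg _)).trans (Finset.sum_le_sum ?_)
            intro k hk
            have hkm : k ∣ m := Nat.dvd_of_mem_divisors hk
            have hk1 : 1 ≤ k := Nat.pos_of_mem_divisors hk
            have hq1 : 1 ≤ m / k := Nat.div_pos (Nat.le_of_dvd (by omega) hkm) hk1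
            have hqm : m / k ∣ m := Nat.div_dvd_of_dvd hkm
            have e1 : √(k : ℝ) * √((m / k : ℕ) : ℝ) = √(m : ℝ) := by
              rw [← Real.sqrt_mul (by positivity)]
              congr 1
              have := Nat.mul_div_cancel' hkm
              exact_mod_cast this
            have c1 : ((k.divisors.card : ℕ) : ℝ) ≤ ((m.divisors.card : ℕ) : ℝ) := by
              exact_mod_cast Finset.card_le_card (Nat.divisors_subset_of_dvd hm0 hkm)
            have c2 : (((m / k).divisors.card : ℕ) : ℝ) ≤ ((m.divisors.card : ℕ) : ℝ) := by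
              exact_mod_cast Finset.card_le_card (Nat.divisors_subset_of_dvd hm0 hqm)
            rw [abs_mul]
            calc |mulf ν k a| * |mulf β (m / k) a|
                ≤ (((k.divisors.card : ℕ) : ℝ) ^ D * √(k : ℝ)) *
                    ((((m / k).divisors.card : ℕ) : ℝ) ^ D * √((m / k : ℕ) : ℝ)) :=
                  mul_le_mul (Moll_mulf D ν hν k hk1 a) (Moll_mulf D β hβ (m / k) hq1 a)
                    (abs_nonneg _) (by positivity)
              _ = (((k.divisors.card : ℕ) : ℝ) ^ D * (((m / k).divisors.card : ℕ) : ℝ) ^ D) *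
                    (√(k : ℝ) * √((m / k : ℕ) : ℝ)) := by ring
              _ ≤ (((m.divisors.card : ℕ) : ℝ) ^ D * ((m.divisors.card : ℕ) : ℝ) ^ D) *
                    (√(k : ℝ) * √((m / k : ℕ) : ℝ)) := by
                  refine mul_le_mul_of_nonneg_right ?_ (by positivity)
                  exact mul_le_mul (pow_le_pow_left₀ (by positivity) c1 _)
                    (pow_le_pow_left₀ (by positivity) c2 _) (by positivity) (by positivity)
              _ = ((m.divisors.card : ℕ) : ℝ) ^ (2 * D) * √(m : ℝ) := by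
                  rw [e1, ← pow_add, two_mul]
        _ = ((m.divisors.card : ℕ) : ℝ) ^ (2 * D + 1) * √(m : ℝ) := by
            rw [Finset.sum_const, nsmul_eq_mul]
            ring
    refine key.trans ?_
    rw [← Moll_sqrt m hm, ← mul_assoc]
    exact mul_le_mul_of_nonneg_right (h2 m hm) (Real.sqrt_nonneg _)
  refine ⟨?_, ?_⟩
  · intro m hm
    have hm0' : (0 : ℝ) ≤ (m : ℝ) ^ (3 / 5 : ℝ) := by positivity
    refine (bd m hm).trans ?_
    nlinarith
  · classical
    obtain ⟨S, hS⟩ : ∃ S : Finset ℕ, S = (Finset.Icc 1 X).filter (fun k => ∀ p ∈ k.primeFactors, p ≤ z) :=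
      ⟨_, rfl⟩
    obtain ⟨f, hf⟩ : ∃ f : ℕ → ℂ, f = fun n => (mulf β n a : ℂ) := ⟨_, rfl⟩
    obtain ⟨g, hg⟩ : ∃ g : ℕ → ℂ, g = fun n => if n ∈ S then (mulf ν n a : ℂ) else 0 := ⟨_, rfl⟩
    have hS1 : ∀ k ∈ S, 1 ≤ k := by
      intro k hk
      rw [hS, Finset.mem_filter, Finset.mem_Icc] at hk
      exact hk.1.1
    refine ⟨fun s => ∑ k ∈ S, (mulf ν k a : ℂ) * ((k : ℕ) : ℂ) ^ (-s), ?_, ?_, ?_⟩
    · refine Differentiable.fun_sum ?_
      intro k hk
      have hk0 : ((k : ℕ) : ℂ) ≠ 0 := by
        have := hS1 k hk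
        exact_mod_cast (by omega : k ≠ 0)
      refine (differentiable_const _).mul ?_
      exact Differentiable.const_cpow differentiable_id.neg (Or.inl hk0)
    · intro s hs
      refine (norm_sum_le _ _).trans ?_
      calc ∑ k ∈ S, ‖(mulf ν k a : ℂ) * ((k : ℕ) : ℂ) ^ (-s)‖ ≤ ∑ k ∈ S, C1 := by
            refine Finset.sum_le_sum ?_
            intro k hk
            have hk1 := hS1 k hk
            have hk0 : (0 : ℝ) < k := by exact_mod_cast hk1
            have hk1' : (1 : ℝ) ≤ k := by exact_mod_cast hk1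
            rw [norm_mul, Complex.norm_real, Real.norm_eq_abs,
              Complex.norm_natCast_cpow_of_pos (by omega), Complex.neg_re]
            calc |mulf ν k a| * (k : ℝ) ^ (-s.re)
                ≤ (C1 * (k : ℝ) ^ (3 / 5 : ℝ)) * (k : ℝ) ^ (-s.re) :=
                  mul_le_mul_of_nonneg_right (bν k hk1) (by positivity)
              _ = C1 * (k : ℝ) ^ (3 / 5 - s.re : ℝ) := by
                  rw [mul_assoc, ← Real.rpow_add hk0]
                  ring_nf
              _ ≤ C1 * 1 := by
                  refine mul_le_mul_of_nonneg_left ?_ hC1.le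
                  exact Real.rpow_le_one_of_one_le_of_nonpos hk1' (by linarith)
              _ = C1 := mul_one _
        _ = S.card * C1 := by rw [Finset.sum_const, nsmul_eq_mul]
        _ ≤ (C1 + C2) * X := by
            have hc : (S.card : ℝ) ≤ X := by
              have : S.card ≤ X := by
                rw [hS]
                refine (Finset.card_filter_le _ _).trans ?_
                rw [Nat.card_Icc]
                omega
              exact_mod_cast this
            have hX0 : (0 : ℝ) ≤ X := by positivity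
            nlinarith [mul_le_mul_of_nonneg_right hc hC1.le, mul_nonneg hC2.le hX0]
    · intro s hs
      have hsf : LSeriesSummable f s := by
        refine LSeriesSummable_of_le_const_mul_rpow (x := 8 / 5) (by rw [hs]; norm_num) ⟨C1, ?_⟩
        intro n hn
        rw [hf, show (8 / 5 - 1 : ℝ) = 3 / 5 by norm_num]
        simp only [Complex.norm_real, Real.norm_eq_abs]
        exact bβ n (by omega)
      have hsg : LSeriesSummable g s := by
        refine LSeriesSummable_of_le_const_mul_rpow (x := 8 / 5) (by rw [hs]; norm_num) ⟨C1, ?_⟩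
        intro n hn
        rw [hg, show (8 / 5 - 1 : ℝ) = 3 / 5 by norm_num]
        simp only
        split_ifs with h
        · rw [Complex.norm_real, Real.norm_eq_abs]
          exact bν n (by omega)
        · rw [norm_zero]
          positivity
      have shift : ∀ w : ℕ → ℂ, LSeriesSummable w s →
          ∑' m : ℕ, w (m + 1) * ((m + 1 : ℕ) : ℂ) ^ (-s) = LSeries w s := by
        intro w hw
        unfold LSeries
        rw [hw.tsum_eq_zero_add]
        rw [LSeries.term_zero, zero_add]
        refine tsum_congr fun m => ?_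
        rw [LSeries.term_of_ne_zero (by omega), Complex.cpow_neg, div_eq_mul_inv]
      have hgL : LSeries g s = ∑ k ∈ S, (mulf ν k a : ℂ) * ((k : ℕ) : ℂ) ^ (-s) := by
        unfold LSeries
        rw [tsum_eq_sum (s := S)]
        · refine Finset.sum_congr rfl ?_
          intro k hk
          have := hS1 k hk
          rw [LSeries.term_of_ne_zero (by omega), Complex.cpow_neg, div_eq_mul_inv, hg]
          simp only [if_pos hk]
        · intro k hk
          rcases Nat.eq_zero_or_pos k with h0 | h0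
          · rw [h0, LSeries.term_zero]
          · rw [LSeries.term_of_ne_zero (by omega), hg]
            simp only [if_neg hk, zero_div]
      have hconv : ∀ n : ℕ, 1 ≤ n → (LSeries.convolution f g) n = (dco β ν z X n a : ℂ) := by
        intro n hn
        rw [LSeries.convolution_def]
        simp only
        rw [Nat.sum_divisorsAntidiagonal' (fun x y => f x * g y)]
        unfold dco
        rw [Finset.sum_filter, Complex.ofReal_sum]
        refine Finset.sum_congr rfl ?_
        intro k hk
        have hk1 : 1 ≤ k := Nat.pos_of_mem_divisors hk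
        rw [hf, hg]
        simp only
        by_cases h : k ≤ X ∧ ∀ p ∈ k.primeFactors, p ≤ z
        · have hkS : k ∈ S := by
            rw [hS, Finset.mem_filter, Finset.mem_Icc]
            exact ⟨⟨hk1, h.1⟩, h.2⟩
          rw [if_pos hkS, if_pos h]
          push_cast
          ring
        · have hkS : k ∉ S := by
            rw [hS, Finset.mem_filter, Finset.mem_Icc]
            intro h3
            exact h ⟨h3.1.2, h3.2⟩
          rw [if_neg hkS, if_neg h]
          simp
      have hcs : LSeriesSummable (LSeries.convolution f g) s := hsf.convolution hsg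
      have e1 := LSeries_convolution' hsf hsg
      have e2 : (∑' m : ℕ, (mulf β (m + 1) a : ℂ) * ((m + 1 : ℕ) : ℂ) ^ (-s)) = LSeries f s := by
        rw [← shift f hsf, hf]
      have e3 : (∑' m : ℕ, (dco β ν z X (m + 1) a : ℂ) * ((m + 1 : ℕ) : ℂ) ^ (-s)) =
          LSeries (LSeries.convolution f g) s := by
        rw [← shift _ hcs]
        refine tsum_congr fun m => ?_
        rw [hconv (m + 1) (by omega)]
      rw [e2, e3, e1, hgL]

end MP7ed9c3.Pz
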