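import Pool.Agent.Lib.MP_7ed9c3_nt.Pz.SpecK

/-! # MP_7ed9c3_nt, part Pz, module Kfi: the bounds of the kernel from the pointwise bounds -/

set_option autoImplicit false

namespace MP7ed9c3.Pz

open MP7ed9c3

/-- `‖Φ(log m + r)‖/P₀`. -/
noncomputable def Kfi_A (σ₂ h₂ μ : ℝ) (m r : ℕ) : ℝ :=
  ‖Ph σ₂ h₂ μ (Real.log m + r)‖ * Real.exp (-(μ * Real.sinh (a1 σ₂ h₂)))

theorem Kfi_A_nonneg (σ₂ h₂ μ : ℝ) (m r : ℕ) : 0 ≤ Kfi_A σ₂ h₂ μ m r :=
  mul_nonneg (norm_nonneg _) (Real.exp_pos _).le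

theorem Kfi_norm_xf (σ₂ h₂ μ t₀ : ℝ) (m r : ℕ) (hm : 1 ≤ m) :
    ‖xf σ₂ h₂ μ t₀ m r‖ = Real.exp (-(r : ℝ)) / m * ‖Ph σ₂ h₂ μ (Real.log m + r)‖ := by
  have hm0 : (0 : ℝ) < m := by exact_mod_cast hm
  have h1 : ‖Complex.exp (-(t₀ * Real.log m : ℝ) * Complex.I)‖ = 1 := by
    rw [Complex.norm_exp, neg_mul, Complex.neg_re, Complex.re_ofReal_mul, Complex.I_re, mul_zero,
      neg_zero, Real.exp_zero]
  have h2 : ‖Ph σ₂ h₂ μ (Real.log m + r)‖ =
      (m : ℝ) * Real.exp (r : ℝ) * ‖Gf σ₂ h₂ μ (Real.log m + r)‖ := by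
    unfold Ph
    rw [norm_mul, Complex.norm_exp, Complex.ofReal_re, Real.exp_add, Real.exp_log hm0]
  unfold xf
  rw [norm_mul, h1, one_mul, h2, Real.exp_neg]
  field_simp

theorem Kfi_term (σ₂ h₂ μ t₀ : ℝ) (l m r : ℕ) (hl : 1 ≤ l) (hm : 1 ≤ m) :
    Real.exp (-(2 * μ * Real.sinh (a1 σ₂ h₂))) *
      (Real.exp (2 * r) * (‖xf σ₂ h₂ μ t₀ l r‖ * ‖xf σ₂ h₂ μ t₀ m r‖)) =
      1 / ((l : ℝ) * m) * (Kfi_A σ₂ h₂ μ l r * Kfi_A σ₂ h₂ μ m r) := by
  rw [Kfi_norm_xf σ₂ h₂ μ t₀ l r hl, Kfi_norm_xf σ₂ h₂ μ t₀ m r hm]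
  unfold Kfi_A
  have e1 : Real.exp (-(2 * μ * Real.sinh (a1 σ₂ h₂))) =
      Real.exp (-(μ * Real.sinh (a1 σ₂ h₂))) * Real.exp (-(μ * Real.sinh (a1 σ₂ h₂))) := by
    rw [← Real.exp_add]; congr 1; ring
  have e2 : Real.exp (2 * (r : ℝ)) * Real.exp (-(r : ℝ)) * Real.exp (-(r : ℝ)) = 1 := by
    rw [← Real.exp_add, ← Real.exp_add]
    have : 2 * (r : ℝ) + -(r : ℝ) + -(r : ℝ) = 0 := by ring
    rw [this, Real.exp_zero]
  rw [e1]
  calc _ = (Real.exp (2 * (r : ℝ)) * Real.exp (-(r : ℝ)) * Real.exp (-(r : ℝ))) *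
        (1 / ((l : ℝ) * m) * ((‖Ph σ₂ h₂ μ (Real.log l + r)‖ *
          Real.exp (-(μ * Real.sinh (a1 σ₂ h₂)))) * (‖Ph σ₂ h₂ μ (Real.log m + r)‖ *
          Real.exp (-(μ * Real.sinh (a1 σ₂ h₂)))))) := by
        field_simp
    _ = _ := by rw [e2, one_mul]

theorem Kfi_abs (σ₂ h₂ μ t₀ : ℝ) (R l m : ℕ) (hl : 1 ≤ l) (hm : 1 ≤ m) :
    |Kf σ₂ h₂ μ t₀ R l m| ≤ √μ / ((l : ℝ) * m) *
      ∑ r ∈ Finset.range (R + 1), Kfi_A σ₂ h₂ μ l r * Kfi_A σ₂ h₂ μ m r := by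
  unfold Kf
  rw [mul_assoc, abs_mul, abs_of_nonneg (Real.sqrt_nonneg μ), abs_mul,
    abs_of_pos (Real.exp_pos _), div_mul_eq_mul_div, mul_div_assoc]
  apply mul_le_mul_of_nonneg_left _ (Real.sqrt_nonneg μ)
  calc _ ≤ Real.exp (-(2 * μ * Real.sinh (a1 σ₂ h₂))) * ∑ r ∈ Finset.range (R + 1),
        Real.exp (2 * r) * (‖xf σ₂ h₂ μ t₀ l r‖ * ‖xf σ₂ h₂ μ t₀ m r‖) := by
        apply mul_le_mul_of_nonneg_left _ (Real.exp_pos _).le
        refine (Finset.abs_sum_le_sum_abs _ _).trans (Finset.sum_le_sum (fun r _ => ?_))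
        rw [abs_mul, abs_of_pos (Real.exp_pos _)]
        apply mul_le_mul_of_nonneg_left _ (Real.exp_pos _).le
        refine (Complex.abs_re_le_norm _).trans (le_of_eq ?_)
        rw [norm_mul, RCLike.norm_conj]
    _ = ∑ r ∈ Finset.range (R + 1), 1 / ((l : ℝ) * m) *
        (Kfi_A σ₂ h₂ μ l r * Kfi_A σ₂ h₂ μ m r) := by
        rw [Finset.mul_sum]
        exact Finset.sum_congr rfl (fun r _ => Kfi_term σ₂ h₂ μ t₀ l m r hl hm)
    _ = _ := by rw [← Finset.mul_sum]; ring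

theorem Kfi_diag (σ₂ h₂ μ t₀ : ℝ) (R p : ℕ) (hp : 1 ≤ p) :
    Kf σ₂ h₂ μ t₀ R p p = √μ / (p : ℝ) ^ 2 *
      ∑ r ∈ Finset.range (R + 1), Kfi_A σ₂ h₂ μ p r ^ 2 := by
  unfold Kf
  rw [mul_assoc, Finset.mul_sum, div_mul_eq_mul_div, mul_div_assoc]
  congr 1
  rw [Finset.sum_div]
  apply Finset.sum_congr rfl
  intro r _
  have h1 : (xf σ₂ h₂ μ t₀ p r * (starRingEnd ℂ) (xf σ₂ h₂ μ t₀ p r)).re =
      ‖xf σ₂ h₂ μ t₀ p r‖ * ‖xf σ₂ h₂ μ t₀ p r‖ := by
    rw [Complex.mul_conj, Complex.ofReal_re, Complex.normSq_eq_norm_sq, sq]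
  rw [h1, Kfi_term σ₂ h₂ μ t₀ p p r hp hp]
  ring

theorem Kfi_ev1 (M a : ℝ) (ha : 0 < a) :
    ∃ L : ℝ, 1 ≤ L ∧ ∀ lam : ℝ, L ≤ lam → M * lam ^ 2 ≤ Real.exp (a * lam ^ (1 / 3 : ℝ)) := by
  refine ⟨max 1 ((M * 5040 / a ^ 7) ^ 3), le_max_left _ _, ?_⟩
  intro lam hlam
  have h1 : 1 ≤ lam := (le_max_left _ _).trans hlam
  have h2 : (M * 5040 / a ^ 7) ^ 3 ≤ lam := (le_max_right _ _).trans hlam
  have h0 : 0 < lam := by linarith
  set q := lam ^ (1 / 3 : ℝ) with hq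
  have hq0 : 0 < q := Real.rpow_pos_of_pos h0 _
  have hq3 : q ^ 3 = lam := by
    rw [hq, ← Real.rpow_natCast, ← Real.rpow_mul h0.le]
    norm_num
  have h3 : M * 5040 / a ^ 7 ≤ q := by
    rw [← hq3] at h2
    exact le_of_pow_le_pow_left₀ (by norm_num) hq0.le h2
  have h4 := Real.pow_div_factorial_le_exp (a * q) (by positivity) 7
  have h5 : ((Nat.factorial 7 : ℕ) : ℝ) = 5040 := by norm_num [Nat.factorial]
  rw [h5] at h4
  refine le_trans ?_ h4
  rw [← hq3]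
  have h6 : (a * q) ^ 7 / 5040 = (a ^ 7 * q / 5040) * q ^ 6 := by ring
  rw [h6]
  have h7 : M ≤ a ^ 7 * q / 5040 := by
    rw [div_le_iff₀ (by positivity)] at h3
    rw [le_div_iff₀ (by norm_num)]
    linarith
  calc M * (q ^ 3) ^ 2 = M * q ^ 6 := by ring
    _ ≤ _ := mul_le_mul_of_nonneg_right h7 (by positivity)

theorem Kfi_ev2 (a : ℝ) (ha : 0 < a) :
    ∃ L : ℝ, 1 ≤ L ∧ ∀ lam : ℝ, L ≤ lam → lam ^ (1 / 4 : ℝ) ≤ a * lam ^ (1 / 3 : ℝ) := by
  refine ⟨max 1 ((1 / a) ^ 12), le_max_left _ _, ?_⟩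
  intro lam hlam
  have h1 : 1 ≤ lam := (le_max_left _ _).trans hlam
  have h2 : (1 / a) ^ 12 ≤ lam := (le_max_right _ _).trans hlam
  have h0 : 0 < lam := by linarith
  set q := lam ^ (1 / 12 : ℝ) with hq
  have hq0 : 0 < q := Real.rpow_pos_of_pos h0 _
  have hq12 : q ^ 12 = lam := by
    rw [hq, ← Real.rpow_natCast, ← Real.rpow_mul h0.le]
    norm_num
  have h3 : lam ^ (1 / 4 : ℝ) = q ^ 3 := by
    rw [hq, ← Real.rpow_natCast, ← Real.rpow_mul h0.le]
    norm_num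
  have h4 : lam ^ (1 / 3 : ℝ) = q ^ 4 := by
    rw [hq, ← Real.rpow_natCast, ← Real.rpow_mul h0.le]
    norm_num
  have h5 : 1 / a ≤ q := by
    rw [← hq12] at h2
    exact le_of_pow_le_pow_left₀ (by norm_num) hq0.le h2
  have h6 : 1 ≤ a * q := by
    rw [div_le_iff₀ ha] at h5
    linarith
  rw [h3, h4]
  calc q ^ 3 = 1 * q ^ 3 := (one_mul _).symm
    _ ≤ (a * q) * q ^ 3 := mul_le_mul_of_nonneg_right h6 (by positivity)
    _ = _ := by ring

theorem Kfi_ev3 (a : ℝ) (ha : 0 < a) :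
    ∃ L : ℝ, 1 ≤ L ∧ ∀ lam : ℝ, L ≤ lam → a * √lam ≤ lam ^ (2 / 3 : ℝ) ∧ 2 ≤ a * √lam := by
  refine ⟨max 1 (max (a ^ 6) ((2 / a) ^ 2)), le_max_left _ _, ?_⟩
  intro lam hlam
  have h1 : 1 ≤ lam := (le_max_left _ _).trans hlam
  have h2 : a ^ 6 ≤ lam := ((le_max_left _ _).trans (le_max_right _ _)).trans hlam
  have h3 : (2 / a) ^ 2 ≤ lam := ((le_max_right _ _).trans (le_max_right _ _)).trans hlam
  have h0 : 0 < lam := by linarith
  refine ⟨?_, ?_⟩
  · set q := lam ^ (1 / 6 : ℝ) with hq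
    have hq0 : 0 < q := Real.rpow_pos_of_pos h0 _
    have hq6 : q ^ 6 = lam := by
      rw [hq, ← Real.rpow_natCast, ← Real.rpow_mul h0.le]
      norm_num
    have h4 : lam ^ (2 / 3 : ℝ) = q ^ 4 := by
      rw [hq, ← Real.rpow_natCast, ← Real.rpow_mul h0.le]
      norm_num
    have h5 : √lam = q ^ 3 := by
      rw [← hq6, show q ^ 6 = (q ^ 3) ^ 2 by ring]
      exact Real.sqrt_sq (by positivity)
    have h6 : a ≤ q := by
      rw [← hq6] at h2
      exact le_of_pow_le_pow_left₀ (by norm_num) hq0.le h2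
    rw [h4, h5]
    calc a * q ^ 3 ≤ q * q ^ 3 := mul_le_mul_of_nonneg_right h6 (by positivity)
      _ = _ := by ring
  · have h4 : 2 / a ≤ √lam := Real.le_sqrt_of_sq_le h3
    rw [div_le_iff₀ ha] at h4
    linarith

theorem Kfi_num {m₂ lam μ : ℝ} {R : ℕ} (hm2 : 0 < m₂) (hlam1 : 1 ≤ lam) (hμ1 : 1 ≤ μ)
    (hμ2 : μ ≤ m₂ * lam) (hR : (R : ℝ) ≤ μ) :
    √μ * ((R : ℝ) + 1) ≤ (m₂ + 1) ^ 2 * lam ^ 2 := by
  have h0 : μ + 1 ≤ (m₂ + 1) * lam := by linarith
  have h1 : (R : ℝ) + 1 ≤ (m₂ + 1) * lam := by linarith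
  have h3 : √μ ≤ μ := by
    rw [Real.sqrt_le_left (by linarith), sq]
    exact le_mul_of_one_le_left (by linarith) hμ1
  have h2 : √μ ≤ (m₂ + 1) * lam := by linarith
  calc √μ * ((R : ℝ) + 1) ≤ ((m₂ + 1) * lam) * ((m₂ + 1) * lam) :=
        mul_le_mul h2 h1 (by positivity) (by positivity)
    _ = _ := by ring

theorem Kfi_sq2 (x y : ℝ) : (x + y) ^ 2 ≤ 2 * x ^ 2 + 2 * y ^ 2 := by
  nlinarith [sq_nonneg (x - y)]

theorem Kfi_amgm (x y : ℝ) : x * y ≤ 1 / 2 * x ^ 2 + 1 / 2 * y ^ 2 := by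
  nlinarith [sq_nonneg (x - y)]

/-- **Kfi.** -/
theorem tKfi : S_Kfi := by
  intro hup hlo hsu σ₂ h₂ m₁ m₂ hσ hσ1 hh hh2 hm1 hm12
  have hm2 : 0 < m₂ := by linarith
  obtain ⟨C, c, L1, hC, hc, hL1, hK⟩ := hup σ₂ h₂ m₁ m₂ (1 + m₂) hσ hσ1 hh hh2 hm1 hm12
    (by linarith)
  obtain ⟨c', L2, hc', hL⟩ := hlo σ₂ h₂ m₁ m₂ hσ hσ1 hh hh2 hm1 hm12
  obtain ⟨C', hC', hS⟩ := hsu (2 * c) (by positivity)
  obtain ⟨L3, hL3, hev1⟩ := Kfi_ev1 ((m₂ + 1) ^ 2 * (C + 1) ^ 2) (c / 8) (by positivity)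
  obtain ⟨L4, hL4, hev2⟩ := Kfi_ev2 (c / 8) (by positivity)
  obtain ⟨L5, hL5, hev3⟩ := Kfi_ev3 c' hc'
  refine ⟨2 * C ^ 2 * C' / √m₁ + 2, c' ^ 3 / (2 * √m₂),
    max (max (max L1 L2) (max L3 L4)) (max L5 (1 / m₁)), by positivity, by positivity, ?_⟩
  intro lam μ t₀ R hlam hμ1 hμ2 hR
  have g1 : L1 ≤ lam := ((le_max_left _ _).trans ((le_max_left _ _).trans (le_max_left _ _))).trans hlam
  have g2 : L2 ≤ lam := ((le_max_right _ _).trans ((le_max_left _ _).trans (le_max_left _ _))).trans hlam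
  have g3 : L3 ≤ lam := ((le_max_left _ _).trans ((le_max_right _ _).trans (le_max_left _ _))).trans hlam
  have g4 : L4 ≤ lam := ((le_max_right _ _).trans ((le_max_right _ _).trans (le_max_left _ _))).trans hlam
  have g5 : L5 ≤ lam := ((le_max_left _ _).trans (le_max_right _ _)).trans hlam
  have g6 : 1 / m₁ ≤ lam := ((le_max_right _ _).trans (le_max_right _ _)).trans hlam
  have hlam1 : 1 ≤ lam := hL1.trans g1
  have hlam0 : 0 < lam := by linarith
  have hμ1' : 1 ≤ μ := by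
    rw [div_le_iff₀ hm1] at g6
    linarith
  have hμ0 : 0 < μ := by linarith
  have hsμ1 : 1 ≤ √μ := Real.one_le_sqrt.mpr hμ1'
  have hsμ0 : 0 < √μ := by linarith
  set P := Real.exp (μ * Real.sinh (a1 σ₂ h₂)) with hP
  have hPP : P * Real.exp (-(μ * Real.sinh (a1 σ₂ h₂))) = 1 := by
    rw [hP, ← Real.exp_add, add_neg_cancel, Real.exp_zero]
  have e13 : lam ^ (1 / 3 : ℝ) ≤ lam := by
    have := Real.rpow_le_rpow_of_exponent_le hlam1 (show (1 / 3 : ℝ) ≤ 1 by norm_num)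
    rwa [Real.rpow_one] at this
  have hq0 : 0 < lam ^ (1 / 3 : ℝ) := Real.rpow_pos_of_pos hlam0 _
  -- the number of terms
  have hRb : √μ * ((R : ℝ) + 1) ≤ (m₂ + 1) ^ 2 * lam ^ 2 := Kfi_num hm2 hlam1 hμ1' hμ2 hR
  have hCb : √μ * ((R : ℝ) + 1) * (C + 1) ^ 2 ≤ Real.exp (c / 8 * lam ^ (1 / 3 : ℝ)) := by
    refine le_trans ?_ (hev1 lam g3)
    calc _ ≤ (m₂ + 1) ^ 2 * lam ^ 2 * (C + 1) ^ 2 :=
          mul_le_mul_of_nonneg_right hRb (by positivity)
      _ = _ := by ring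
  have hRe : √μ * ((R : ℝ) + 1) ≤ Real.exp (c / 8 * lam ^ (1 / 3 : ℝ)) := by
    refine le_trans ?_ hCb
    have h1 : 1 ≤ (C + 1) ^ 2 := one_le_pow₀ (by linarith)
    have h2 : 0 ≤ √μ * ((R : ℝ) + 1) := by positivity
    exact le_mul_of_one_le_right h2 h1
  -- pointwise bound
  have hA : ∀ m : ℕ, 1 ≤ m → Real.log m ≤ lam → ∀ r ∈ Finset.range (R + 1),
      Kfi_A σ₂ h₂ μ m r ≤ C / √μ * Real.exp (-(c * (Real.log m + r - kst σ₂ h₂ μ) ^ 2 / lam)) +
        Real.exp (-(c * lam)) := by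
    intro m hm hml r hr
    have hr' : (r : ℝ) ≤ R := by
      exact_mod_cast Nat.lt_succ_iff.mp (Finset.mem_range.mp hr)
    have hlog : 0 ≤ Real.log m := Real.log_nonneg (by exact_mod_cast hm)
    have hk0 : 0 ≤ Real.log m + r := by positivity
    have hk1 : Real.log m + r ≤ (1 + m₂) * lam := by
      have e0 : (1 + m₂) * lam = lam + m₂ * lam := by ring
      rw [e0]; linarith
    have h1 := hK lam μ (Real.log m + r) g1 hμ1 hμ2 hk0 hk1
    unfold Kfi_A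
    have h2 := mul_le_mul_of_nonneg_right h1 (Real.exp_pos (-(μ * Real.sinh (a1 σ₂ h₂)))).le
    refine h2.trans (le_of_eq ?_)
    rw [← hP, mul_comm P, mul_assoc, hPP, mul_one]
  -- near bound for the squares
  have hsq : ∀ m : ℕ, 1 ≤ m → Real.log m ≤ lam →
      √μ * ∑ r ∈ Finset.range (R + 1), Kfi_A σ₂ h₂ μ m r ^ 2 ≤ 2 * C ^ 2 * C' / √m₁ + 2 := by
    intro m hm hml
    have h1 : ∀ r ∈ Finset.range (R + 1), Kfi_A σ₂ h₂ μ m r ^ 2 ≤
        2 * C ^ 2 / μ * Real.exp (-((2 * c) * ((Real.log m - kst σ₂ h₂ μ) + r) ^ 2 / lam)) +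
        2 * Real.exp (-(2 * c * lam)) := by
      intro r hr
      have h2 := hA m hm hml r hr
      have h3 := pow_le_pow_left₀ (Kfi_A_nonneg σ₂ h₂ μ m r) h2 2
      refine h3.trans ?_
      refine (Kfi_sq2 _ _).trans (le_of_eq ?_)
      have e1 : (C / √μ * Real.exp (-(c * (Real.log m + r - kst σ₂ h₂ μ) ^ 2 / lam))) ^ 2 =
          C ^ 2 / μ * Real.exp (-((2 * c) * ((Real.log m - kst σ₂ h₂ μ) + r) ^ 2 / lam)) := by
        rw [mul_pow, div_pow, Real.sq_sqrt hμ0.le, ← Real.exp_nat_mul]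
        congr 2
        push_cast
        ring
      have e2 : (Real.exp (-(c * lam))) ^ 2 = Real.exp (-(2 * c * lam)) := by
        rw [← Real.exp_nat_mul]
        congr 1
        push_cast
        ring
      rw [e1, e2]
      ring
    have h5 := Finset.sum_le_sum h1
    rw [Finset.sum_add_distrib, ← Finset.mul_sum, Finset.sum_const, Finset.card_range,
      nsmul_eq_mul] at h5
    have h6 := hS lam (Real.log m - kst σ₂ h₂ μ) R hlam1
    have h7 : √μ * (2 * C ^ 2 / μ * (C' * √lam)) ≤ 2 * C ^ 2 * C' / √m₁ := by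
      have e1 : √μ * (2 * C ^ 2 / μ * (C' * √lam)) = 2 * C ^ 2 * C' * (√lam / √μ) := by
        have : μ = √μ * √μ := (Real.mul_self_sqrt hμ0.le).symm
        rw [this]
        simp only [Real.sqrt_mul_self (Real.sqrt_nonneg μ)]
        field_simp
      rw [e1, div_eq_mul_one_div (2 * C ^ 2 * C') (√m₁)]
      apply mul_le_mul_of_nonneg_left _ (by positivity)
      have h8 : √m₁ * √lam ≤ √μ := by
        rw [← Real.sqrt_mul hm1.le]
        exact Real.sqrt_le_sqrt hμ1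
      rw [div_le_div_iff₀ hsμ0 (Real.sqrt_pos.mpr hm1), one_mul]
      linarith
    have h9 : √μ * (((R + 1 : ℕ) : ℝ) * (2 * Real.exp (-(2 * c * lam)))) ≤ 2 := by
      have e1 : √μ * (((R + 1 : ℕ) : ℝ) * (2 * Real.exp (-(2 * c * lam)))) =
          2 * ((√μ * ((R : ℝ) + 1)) * Real.exp (-(2 * c * lam))) := by
        push_cast; ring
      rw [e1]
      have h10 : (√μ * ((R : ℝ) + 1)) * Real.exp (-(2 * c * lam)) ≤
          Real.exp (c / 8 * lam ^ (1 / 3 : ℝ)) * Real.exp (-(2 * c * lam)) :=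
        mul_le_mul_of_nonneg_right hRe (Real.exp_pos _).le
      rw [← Real.exp_add] at h10
      have h11 : Real.exp (c / 8 * lam ^ (1 / 3 : ℝ) + -(2 * c * lam)) ≤ 1 := by
        apply Real.exp_le_one_iff.mpr
        have h14 : c / 8 * lam ^ (1 / 3 : ℝ) ≤ c / 8 * lam :=
          mul_le_mul_of_nonneg_left e13 (by positivity)
        have h15 : 0 < c * lam := by positivity
        linarith
      linarith
    have h12 : 2 * C ^ 2 / μ * ∑ r ∈ Finset.range (R + 1),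
        Real.exp (-((2 * c) * ((Real.log m - kst σ₂ h₂ μ) + r) ^ 2 / lam)) ≤
        2 * C ^ 2 / μ * (C' * √lam) := mul_le_mul_of_nonneg_left h6 (by positivity)
    have h13 := mul_le_mul_of_nonneg_left (h5.trans (add_le_add_left h12 _)) hsμ0.le
    rw [mul_add] at h13
    linarith
  refine ⟨?_, ?_⟩
  · intro l m hl hm hll hml
    have hl0 : (0 : ℝ) < l := by exact_mod_cast hl
    have hm0 : (0 : ℝ) < m := by exact_mod_cast hm
    have habs := Kfi_abs σ₂ h₂ μ t₀ R l m hl hm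
    refine ⟨?_, ?_⟩
    · refine habs.trans ?_
      have h1 : ∑ r ∈ Finset.range (R + 1), Kfi_A σ₂ h₂ μ l r * Kfi_A σ₂ h₂ μ m r ≤
          (1 / 2) * ∑ r ∈ Finset.range (R + 1), Kfi_A σ₂ h₂ μ l r ^ 2 +
          (1 / 2) * ∑ r ∈ Finset.range (R + 1), Kfi_A σ₂ h₂ μ m r ^ 2 := by
        rw [Finset.mul_sum, Finset.mul_sum, ← Finset.sum_add_distrib]
        apply Finset.sum_le_sum
        intro r _
        exact Kfi_amgm _ _
      have h2 := hsq l hl hll
      have h3 := hsq m hm hml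
      have h4 := mul_le_mul_of_nonneg_left h1 hsμ0.le
      rw [div_mul_eq_mul_div]
      apply div_le_div_of_nonneg_right _ (by positivity)
      linarith
    · intro hfar
      refine habs.trans ?_
      set W := lam ^ (2 / 3 : ℝ) with hW
      have hW0 : 0 < W := Real.rpow_pos_of_pos hlam0 _
      have hWW : W ^ 2 / lam = lam ^ (1 / 3 : ℝ) := by
        rw [hW, ← Real.rpow_natCast, ← Real.rpow_mul hlam0.le]
        rw [div_eq_iff hlam0.ne']
        nth_rewrite 3 [← Real.rpow_one lam]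
        rw [← Real.rpow_add hlam0]
        norm_num
      set E := Real.exp (-(c / 4 * lam ^ (1 / 3 : ℝ))) with hE
      have hsmall : ∀ n : ℕ, 1 ≤ n → Real.log n ≤ lam → ∀ r ∈ Finset.range (R + 1),
          W / 2 ≤ |Real.log n + r - kst σ₂ h₂ μ| → Kfi_A σ₂ h₂ μ n r ≤ (C + 1) * E := by
        intro n hn hnl r hr hx
        have h1 := hA n hn hnl r hr
        have h2 : (W / 2) ^ 2 ≤ (Real.log n + r - kst σ₂ h₂ μ) ^ 2 := by
          rw [← sq_abs (Real.log n + r - kst σ₂ h₂ μ)]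
          exact pow_le_pow_left₀ (by positivity) hx 2
        have h3 : c / 4 * lam ^ (1 / 3 : ℝ) ≤
            c * (Real.log n + r - kst σ₂ h₂ μ) ^ 2 / lam := by
          rw [← hWW]
          have h4 := mul_le_mul_of_nonneg_left h2 hc.le
          have h5 := div_le_div_of_nonneg_right h4 hlam0.le
          refine le_trans (le_of_eq ?_) h5
          ring
        have h6 : Real.exp (-(c * (Real.log n + r - kst σ₂ h₂ μ) ^ 2 / lam)) ≤ E :=
          Real.exp_le_exp.mpr (by linarith)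
        have h7 : Real.exp (-(c * lam)) ≤ E := by
          apply Real.exp_le_exp.mpr
          have h14 : c / 4 * lam ^ (1 / 3 : ℝ) ≤ c / 4 * lam :=
            mul_le_mul_of_nonneg_left e13 (by positivity)
          have h15 : 0 < c * lam := by positivity
          linarith
        have h8 : C / √μ ≤ C := div_le_self hC.le hsμ1
        have h9 : C / √μ * Real.exp (-(c * (Real.log n + r - kst σ₂ h₂ μ) ^ 2 / lam)) ≤ C * E :=
          mul_le_mul h8 h6 (Real.exp_pos _).le hC.le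
        linarith
      have hbig : ∀ n : ℕ, 1 ≤ n → Real.log n ≤ lam → ∀ r ∈ Finset.range (R + 1),
          Kfi_A σ₂ h₂ μ n r ≤ C + 1 := by
        intro n hn hnl r hr
        have h1 := hA n hn hnl r hr
        have h6 : Real.exp (-(c * (Real.log n + r - kst σ₂ h₂ μ) ^ 2 / lam)) ≤ 1 := by
          apply Real.exp_le_one_iff.mpr
          have : 0 ≤ c * (Real.log n + r - kst σ₂ h₂ μ) ^ 2 / lam := by positivity
          linarith
        have h7 : Real.exp (-(c * lam)) ≤ 1 := by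
          apply Real.exp_le_one_iff.mpr
          have : 0 ≤ c * lam := by positivity
          linarith
        have h8 : C / √μ ≤ C := div_le_self hC.le hsμ1
        have h9 : C / √μ * Real.exp (-(c * (Real.log n + r - kst σ₂ h₂ μ) ^ 2 / lam)) ≤ C * 1 :=
          mul_le_mul h8 h6 (Real.exp_pos _).le hC.le
        linarith
      have hprod : ∀ r ∈ Finset.range (R + 1), Kfi_A σ₂ h₂ μ l r * Kfi_A σ₂ h₂ μ m r ≤
          (C + 1) ^ 2 * E := by
        intro r hr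
        have hE0 : 0 < E := Real.exp_pos _
        by_cases hx : W / 2 ≤ |Real.log l + r - kst σ₂ h₂ μ|
        · calc _ ≤ ((C + 1) * E) * (C + 1) :=
                mul_le_mul (hsmall l hl hll r hr hx) (hbig m hm hml r hr)
                  (Kfi_A_nonneg _ _ _ _ _) (by positivity)
            _ = _ := by ring
        · have hx2 : W / 2 ≤ |Real.log m + r - kst σ₂ h₂ μ| := by
            by_contra hcon
            rw [not_le] at hx hcon
            have h1 := abs_sub (Real.log l + r - kst σ₂ h₂ μ) (Real.log m + r - kst σ₂ h₂ μ)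
            have e1 : (Real.log l + r - kst σ₂ h₂ μ) - (Real.log m + r - kst σ₂ h₂ μ) =
                Real.log l - Real.log m := by ring
            rw [e1] at h1
            linarith
          calc _ ≤ (C + 1) * ((C + 1) * E) :=
                mul_le_mul (hbig l hl hll r hr) (hsmall m hm hml r hr hx2)
                  (Kfi_A_nonneg _ _ _ _ _) (by positivity)
            _ = _ := by ring
      have hsum := Finset.sum_le_sum hprod
      rw [Finset.sum_const, Finset.card_range, nsmul_eq_mul] at hsum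
      have h1 := mul_le_mul_of_nonneg_left hsum hsμ0.le
      rw [div_mul_eq_mul_div]
      apply div_le_div_of_nonneg_right _ (by positivity)
      refine h1.trans ?_
      have e1 : √μ * (((R + 1 : ℕ) : ℝ) * ((C + 1) ^ 2 * E)) =
          (√μ * ((R : ℝ) + 1) * (C + 1) ^ 2) * E := by push_cast; ring
      rw [e1]
      refine (mul_le_mul_of_nonneg_right hCb (Real.exp_pos _).le).trans ?_
      rw [← Real.exp_add]
      apply Real.exp_le_exp.mpr
      have h2 := hev2 lam g4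
      linarith
  · intro p hp hp1 hp2
    obtain ⟨hw1, hw2⟩ := hev3 lam g5
    have hp0 : (0 : ℝ) < p := by exact_mod_cast hp
    have hlogp : 0 ≤ Real.log p := Real.log_nonneg (by exact_mod_cast hp)
    rw [Kfi_diag σ₂ h₂ μ t₀ R p hp]
    set s := kst σ₂ h₂ μ - Real.log p with hs
    have hs0 : 0 ≤ s := by
      have : 0 < lam ^ (2 / 3 : ℝ) := Real.rpow_pos_of_pos hlam0 _
      linarith
    set N := ⌊c' * √lam⌋₊ with hN
    have hNle : (N : ℝ) ≤ c' * √lam := Nat.floor_le (by positivity)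
    have hNge : c' * √lam / 2 ≤ N := by
      have := Nat.lt_floor_add_one (c' * √lam)
      rw [← hN] at this
      linarith
    have hceil1 : s ≤ (⌈s⌉₊ : ℝ) := Nat.le_ceil s
    have hceil2 : (⌈s⌉₊ : ℝ) < s + 1 := Nat.ceil_lt_add_one hs0
    have hterm : ∀ j ∈ Finset.range N, c' ^ 2 / μ ≤ Kfi_A σ₂ h₂ μ p (⌈s⌉₊ + j) ^ 2 := by
      intro j hj
      have hj' : (j : ℝ) + 1 ≤ N := by exact_mod_cast Finset.mem_range.mp hj
      have hj0 : (0 : ℝ) ≤ j := Nat.cast_nonneg j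
      have h1 : |Real.log p + ((⌈s⌉₊ + j : ℕ) : ℝ) - kst σ₂ h₂ μ| ≤ c' * √lam := by
        rw [abs_le]
        push_cast
        constructor
        · have : 0 ≤ c' * √lam := by positivity
          linarith
        · linarith
      have h2 := hL lam μ (Real.log p + ((⌈s⌉₊ + j : ℕ) : ℝ)) g2 hμ1 hμ2 (by positivity) h1
      have h3 := mul_le_mul_of_nonneg_right h2 (Real.exp_pos (-(μ * Real.sinh (a1 σ₂ h₂)))).le
      have h4 : c' * P / √μ * Real.exp (-(μ * Real.sinh (a1 σ₂ h₂))) = c' / √μ := by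
        have : c' * P / √μ * Real.exp (-(μ * Real.sinh (a1 σ₂ h₂))) =
            c' / √μ * (P * Real.exp (-(μ * Real.sinh (a1 σ₂ h₂)))) := by ring
        rw [this, hPP, mul_one]
      rw [← hP, h4] at h3
      have h5 := pow_le_pow_left₀ (by positivity) h3 2
      rw [div_pow, Real.sq_sqrt hμ0.le] at h5
      exact h5
    have hsub : (Finset.range N).map ⟨fun j => ⌈s⌉₊ + j, fun a b hab => by simpa using hab⟩ ⊆
        Finset.range (R + 1) := by
      intro x hx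
      rw [Finset.mem_map] at hx
      obtain ⟨j, hj, rfl⟩ := hx
      have hj' : (j : ℝ) + 1 ≤ N := by exact_mod_cast Finset.mem_range.mp hj
      rw [Finset.mem_range, Nat.lt_succ_iff]
      have : ((⌈s⌉₊ + j : ℕ) : ℝ) ≤ (R : ℝ) := by
        push_cast
        linarith
      exact_mod_cast this
    have h6 : (N : ℝ) * (c' ^ 2 / μ) ≤ ∑ r ∈ Finset.range (R + 1), Kfi_A σ₂ h₂ μ p r ^ 2 := by
      calc (N : ℝ) * (c' ^ 2 / μ) = ∑ _j ∈ Finset.range N, c' ^ 2 / μ := by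
            rw [Finset.sum_const, Finset.card_range, nsmul_eq_mul]
        _ ≤ ∑ j ∈ Finset.range N, Kfi_A σ₂ h₂ μ p (⌈s⌉₊ + j) ^ 2 := Finset.sum_le_sum hterm
        _ = ∑ r ∈ (Finset.range N).map ⟨fun j => ⌈s⌉₊ + j, fun a b hab => by simpa using hab⟩,
            Kfi_A σ₂ h₂ μ p r ^ 2 := by rw [Finset.sum_map]; rfl
        _ ≤ _ := Finset.sum_le_sum_of_subset_of_nonneg hsub (fun _ _ _ => sq_nonneg _)
    have h7 : c' ^ 3 / (2 * √m₂) ≤ √μ * ((N : ℝ) * (c' ^ 2 / μ)) := by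
      have h8 : √μ ≤ √m₂ * √lam := by
        rw [← Real.sqrt_mul hm2.le]
        exact Real.sqrt_le_sqrt hμ2
      have e1 : √μ * ((N : ℝ) * (c' ^ 2 / μ)) = N * c' ^ 2 / √μ := by
        have : μ = √μ * √μ := (Real.mul_self_sqrt hμ0.le).symm
        nth_rewrite 2 [this]
        field_simp
      rw [e1, div_le_div_iff₀ (by positivity) hsμ0]
      have h9 : c' * √lam ≤ 2 * N := by linarith
      have h10 : c' ^ 3 * √μ ≤ c' ^ 3 * (√m₂ * √lam) := mul_le_mul_of_nonneg_left h8 (by positivity)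
      have h11 : (c' * √lam) * (c' ^ 2 * √m₂) ≤ (2 * N) * (c' ^ 2 * √m₂) :=
        mul_le_mul_of_nonneg_right h9 (by positivity)
      calc _ ≤ _ := h10
        _ = (c' * √lam) * (c' ^ 2 * √m₂) := by ring
        _ ≤ _ := h11
        _ = _ := by ring
    have h12 := mul_le_mul_of_nonneg_left h6 hsμ0.le
    rw [div_mul_eq_mul_div]
    exact div_le_div_of_nonneg_right (h7.trans h12) (by positivity)

end MP7ed9c3.Pz
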