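import Pool.Agent.Lib.MP_7ed9c3_nt.Pz.SpecK

/-!
# MP_7ed9c3_nt, part Pz, K1: the pointwise lower bound
-/

set_option autoImplicit false

namespace MP7ed9c3.Pz

open MP7ed9c3

/-- the real part of the integrand on the line `Re u = 1` -/
private noncomputable def Klo_rho (σ₂ h₂ μ k y : ℝ) : ℝ :=
  Real.exp (μ * Real.sinh (a1 σ₂ h₂) * Real.cos (Real.pi * y / (2 * h₂))) *
    Real.cos (μ * Real.cosh (a1 σ₂ h₂) * Real.sin (Real.pi * y / (2 * h₂)) - k * y)

private theorem Klo_ri (a b : ℝ) : ((a : ℂ) + (b : ℂ) * Complex.I).re = a ∧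
    ((a : ℂ) + (b : ℂ) * Complex.I).im = b := by simp

private theorem Klo_re (σ₂ h₂ μ k y : ℝ) :
    (Complex.exp (k : ℂ) * kin σ₂ h₂ μ k 1 y).re = Klo_rho σ₂ h₂ μ k y := by
  have key : ((Real.pi : ℂ) * (((1 : ℝ) : ℂ) + (y : ℂ) * Complex.I - (σ₂ : ℂ)) / (2 * (h₂ : ℂ)) : ℂ) =
      ((a1 σ₂ h₂ : ℝ) : ℂ) + ((Real.pi * y / (2 * h₂) : ℝ) : ℂ) * Complex.I := by
    unfold a1; push_cast; ring
  unfold kin kap
  rw [key, Complex.sinh_add, Complex.sinh_mul_I, Complex.cosh_mul_I, ← Complex.ofReal_sinh,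
    ← Complex.ofReal_cosh, ← Complex.ofReal_cos, ← Complex.ofReal_sin, ← Complex.exp_add,
    ← Complex.exp_add, Complex.exp_re]
  unfold Klo_rho
  have e1 : ((k : ℂ) + (-(k : ℂ) * (((1 : ℝ) : ℂ) + (y : ℂ) * Complex.I) +
      (μ : ℂ) * ((Real.sinh (a1 σ₂ h₂) : ℂ) * (Real.cos (Real.pi * y / (2 * h₂)) : ℂ) +
        (Real.cosh (a1 σ₂ h₂) : ℂ) * ((Real.sin (Real.pi * y / (2 * h₂)) : ℂ) * Complex.I)))) =
      ((μ * Real.sinh (a1 σ₂ h₂) * Real.cos (Real.pi * y / (2 * h₂)) : ℝ) : ℂ) +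
      ((μ * Real.cosh (a1 σ₂ h₂) * Real.sin (Real.pi * y / (2 * h₂)) - k * y : ℝ) : ℂ) *
        Complex.I := by
    push_cast; ring
  rw [e1, (Klo_ri _ _).1, (Klo_ri _ _).2]

private theorem Klo_int (hK : S_Ksh) (σ₂ h₂ μ k : ℝ) (hh : 0 < h₂) (hk : 0 ≤ k) :
    (∫ y in (-h₂)..h₂, Klo_rho σ₂ h₂ μ k y) - 4 ≤ ‖Ph σ₂ h₂ μ k‖ := by
  obtain ⟨-, hcont, hsh⟩ := hK σ₂ h₂ μ k 1 hh hk
  have h1 := hsh (by norm_num)
  have h2 : ‖Ph σ₂ h₂ μ k - Complex.exp (k : ℂ) * ∫ y in (-h₂)..h₂, kin σ₂ h₂ μ k 1 y‖ ≤ 4 := by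
    have e1 : Ph σ₂ h₂ μ k - Complex.exp (k : ℂ) * ∫ y in (-h₂)..h₂, kin σ₂ h₂ μ k 1 y =
        Complex.exp (k : ℂ) * (Gf σ₂ h₂ μ k - ∫ y in (-h₂)..h₂, kin σ₂ h₂ μ k 1 y) := by
      unfold Ph; ring
    rw [e1, norm_mul, Complex.norm_exp, Complex.ofReal_re]
    calc Real.exp k * _ ≤ Real.exp k * (2 * (3 - 1) * Real.exp (-k * 1)) := by gcongr
      _ = 4 := by
        rw [mul_one, Real.exp_neg]
        field_simp
        norm_num
  have h3 : (Complex.exp (k : ℂ) * ∫ y in (-h₂)..h₂, kin σ₂ h₂ μ k 1 y).re =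
      ∫ y in (-h₂)..h₂, Klo_rho σ₂ h₂ μ k y := by
    rw [← intervalIntegral.integral_const_mul]
    have h4 : IntervalIntegrable (fun y => Complex.exp (k : ℂ) * kin σ₂ h₂ μ k 1 y)
        MeasureTheory.volume (-h₂) h₂ := (continuous_const.mul hcont).intervalIntegrable _ _
    have h5 := Complex.reCLM.intervalIntegral_comp_comm h4
    rw [Complex.reCLM_apply] at h5
    rw [← h5]
    refine intervalIntegral.integral_congr fun y _ => ?_
    simp only [Complex.reCLM_apply]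
    exact Klo_re σ₂ h₂ μ k y
  have h6 := Complex.re_le_norm (Complex.exp (k : ℂ) * ∫ y in (-h₂)..h₂, kin σ₂ h₂ μ k 1 y)
  rw [h3] at h6
  have h7 := norm_sub_norm_le (Complex.exp (k : ℂ) * ∫ y in (-h₂)..h₂, kin σ₂ h₂ μ k 1 y)
    (Ph σ₂ h₂ μ k)
  rw [norm_sub_rev] at h7
  linarith

/-- the integral of `ρ` from below -/
private theorem Klo_low (σ₂ h₂ μ k : ℝ) (T S b B ε u x : ℝ) (hh : 0 < h₂) (hμ : 0 < μ)
    (hS : 0 < S) (hSd : S = Real.sinh (a1 σ₂ h₂)) (hx : x = Real.pi / (2 * h₂))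
    (hb : b = 2 * x ^ 2 * S / Real.pi ^ 2) (hB : B = x ^ 2 * S / 2) (hT : 1 ≤ T)
    (hε : ε = Real.exp (-(b * T ^ 2 / 2))) (hu : u = 1 / √μ) (huh : u ≤ h₂)
    (hθ : ∀ y : ℝ, |y| ≤ T * u →
      |μ * Real.cosh (a1 σ₂ h₂) * Real.sin (Real.pi * y / (2 * h₂)) - k * y| ≤ 1) :
    Real.exp (μ * S) * u * (Real.exp (-B) - ε * √(2 * Real.pi / b)) ≤
      ∫ y in (-h₂)..h₂, Klo_rho σ₂ h₂ μ k y := by
  have hsq : 0 < √μ := Real.sqrt_pos.2 hμ
  have hu0 : 0 < u := by rw [hu]; positivity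
  have hx0 : 0 < x := by rw [hx]; have := Real.pi_pos; positivity
  have hb0 : 0 < b := by rw [hb]; have := Real.pi_pos; positivity
  have hε0 : 0 < ε := by rw [hε]; positivity
  have huμ : μ * u ^ 2 = 1 := by
    rw [hu, div_pow, one_pow, Real.sq_sqrt hμ.le]
    field_simp
  have hxy : ∀ y : ℝ, Real.pi * y / (2 * h₂) = x * y := fun y => by rw [hx]; ring
  have hxh : x * h₂ = Real.pi / 2 := by rw [hx]; field_simp
  have hcont : Continuous (Klo_rho σ₂ h₂ μ k) := by unfold Klo_rho; fun_prop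
  have hcG : Continuous (fun y : ℝ => Real.exp (-(b * μ / 2) * y ^ 2)) := by fun_prop
  set F : ℝ → ℝ := fun y => Klo_rho σ₂ h₂ μ k y +
    ε * Real.exp (μ * S) * Real.exp (-(b * μ / 2) * y ^ 2) with hF
  have hcF : Continuous F := by rw [hF]; fun_prop
  have hcos : ∀ y : ℝ, |y| ≤ T * u → 1 / 2 ≤
      Real.cos (μ * Real.cosh (a1 σ₂ h₂) * Real.sin (Real.pi * y / (2 * h₂)) - k * y) := by
    intro y hy
    have h1 := Real.one_sub_sq_div_two_le_cos
      (x := μ * Real.cosh (a1 σ₂ h₂) * Real.sin (Real.pi * y / (2 * h₂)) - k * y)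
    have h2 := hθ y hy
    have h3 : (μ * Real.cosh (a1 σ₂ h₂) * Real.sin (Real.pi * y / (2 * h₂)) - k * y) ^ 2 ≤ 1 := by
      rw [← sq_abs]
      exact pow_le_one₀ (abs_nonneg _) h2
    linarith
  have hF0 : ∀ y : ℝ, |y| ≤ h₂ → 0 ≤ F y := by
    intro y hy
    by_cases hc : |y| ≤ T * u
    · have h1 := hcos y hc
      have h2 : 0 ≤ Klo_rho σ₂ h₂ μ k y := by
        unfold Klo_rho
        exact mul_nonneg (Real.exp_pos _).le (by linarith)
      rw [hF]
      positivity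
    · push_neg at hc
      have h1 : |x * y| ≤ Real.pi := by
        rw [abs_mul, abs_of_pos hx0]
        have : x * |y| ≤ x * h₂ := mul_le_mul_of_nonneg_left hy hx0.le
        rw [hxh] at this
        have := Real.pi_pos
        linarith
      have h2 := Real.cos_le_one_sub_mul_cos_sq h1
      have h3 : Klo_rho σ₂ h₂ μ k y ≥ -Real.exp (μ * S * Real.cos (x * y)) := by
        unfold Klo_rho
        rw [hxy, ← hSd]
        have := Real.neg_one_le_cos (μ * Real.cosh (a1 σ₂ h₂) * Real.sin (x * y) - k * y)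
        have h4 := Real.exp_pos (μ * S * Real.cos (x * y))
        nlinarith
      have h5 : Real.exp (μ * S * Real.cos (x * y)) ≤
          ε * Real.exp (μ * S) * Real.exp (-(b * μ / 2) * y ^ 2) := by
        rw [hε, ← Real.exp_add, ← Real.exp_add]
        apply Real.exp_le_exp.2
        have h6 : μ * S * Real.cos (x * y) ≤ μ * S * (1 - 2 / Real.pi ^ 2 * (x * y) ^ 2) :=
          mul_le_mul_of_nonneg_left h2 (by positivity)
        have h7 : μ * S * (1 - 2 / Real.pi ^ 2 * (x * y) ^ 2) = μ * S - b * μ * y ^ 2 := by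
          rw [hb]; ring
        have h8 : T ^ 2 ≤ μ * y ^ 2 := by
          have h9 : (T * u) ^ 2 ≤ y ^ 2 := by
            rw [← sq_abs y]
            exact pow_le_pow_left₀ (by positivity) hc.le 2
          have h10 : μ * (T * u) ^ 2 = T ^ 2 := by
            rw [mul_pow]; linear_combination T ^ 2 * huμ
          rw [← h10]
          exact mul_le_mul_of_nonneg_left h9 hμ.le
        nlinarith
      rw [hF]
      simp only
      linarith
  have hF1 : ∀ y : ℝ, |y| ≤ u → 1 / 2 * Real.exp (μ * S) * Real.exp (-B) ≤ F y := by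
    intro y hy
    have h1 := hcos y (hy.trans (by nlinarith))
    have h2 : Real.exp (μ * S) * Real.exp (-B) ≤
        Real.exp (μ * Real.sinh (a1 σ₂ h₂) * Real.cos (Real.pi * y / (2 * h₂))) := by
      rw [← Real.exp_add, hxy, ← hSd]
      apply Real.exp_le_exp.2
      have h3 := Real.one_sub_sq_div_two_le_cos (x := x * y)
      have h4 : μ * S * (1 - (x * y) ^ 2 / 2) ≤ μ * S * Real.cos (x * y) :=
        mul_le_mul_of_nonneg_left h3 (by positivity)
      have h5 : μ * y ^ 2 ≤ 1 := by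
        rw [← huμ, ← sq_abs y]
        exact mul_le_mul_of_nonneg_left (pow_le_pow_left₀ (abs_nonneg _) hy 2) hμ.le
      have h6 : μ * S * (1 - (x * y) ^ 2 / 2) = μ * S - x ^ 2 * S / 2 * (μ * y ^ 2) := by ring
      have h7 : x ^ 2 * S / 2 * (μ * y ^ 2) ≤ x ^ 2 * S / 2 * 1 :=
        mul_le_mul_of_nonneg_left h5 (by positivity)
      rw [hB]
      linarith
    rw [hF]
    simp only
    have h8 : 1 / 2 * Real.exp (μ * S) * Real.exp (-B) ≤ Klo_rho σ₂ h₂ μ k y := by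
      unfold Klo_rho
      calc 1 / 2 * Real.exp (μ * S) * Real.exp (-B)
          = (Real.exp (μ * S) * Real.exp (-B)) * (1 / 2) := by ring
        _ ≤ _ := mul_le_mul h2 h1 (by norm_num) (Real.exp_pos _).le
    have h9 : 0 ≤ ε * Real.exp (μ * S) * Real.exp (-(b * μ / 2) * y ^ 2) := by positivity
    linarith
  have h1 : (∫ y in (-u)..u, F y) ≤ ∫ y in (-h₂)..h₂, F y := by
    refine intervalIntegral.integral_mono_interval (by linarith) (by linarith) huh ?_
      (hcF.intervalIntegrable _ _)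
    refine (MeasureTheory.ae_restrict_iff' measurableSet_Ioc).2 (Filter.Eventually.of_forall ?_)
    intro y hy
    exact hF0 y (abs_le.2 ⟨hy.1.le, hy.2⟩)
  have h2 : Real.exp (μ * S) * u * Real.exp (-B) ≤ ∫ y in (-u)..u, F y := by
    have h3 : (∫ _ in (-u)..u, 1 / 2 * Real.exp (μ * S) * Real.exp (-B)) ≤ ∫ y in (-u)..u, F y := by
      refine intervalIntegral.integral_mono_on (by linarith) (continuous_const.intervalIntegrable _ _)
        (hcF.intervalIntegrable _ _) ?_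
      intro y hy
      exact hF1 y (abs_le.2 ⟨hy.1, hy.2⟩)
    rw [intervalIntegral.integral_const, smul_eq_mul] at h3
    calc _ = (u - -u) * (1 / 2 * Real.exp (μ * S) * Real.exp (-B)) := by ring
      _ ≤ _ := h3
  have h4 : (∫ y in (-h₂)..h₂, F y) = (∫ y in (-h₂)..h₂, Klo_rho σ₂ h₂ μ k y) +
      ε * Real.exp (μ * S) * ∫ y in (-h₂)..h₂, Real.exp (-(b * μ / 2) * y ^ 2) := by
    have e := intervalIntegral.integral_add (μ := MeasureTheory.volume) (a := -h₂) (b := h₂)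
      (f := Klo_rho σ₂ h₂ μ k)
      (g := fun y => ε * Real.exp (μ * S) * Real.exp (-(b * μ / 2) * y ^ 2))
      (hcont.intervalIntegrable _ _) (Continuous.intervalIntegrable (by fun_prop) _ _)
    rw [intervalIntegral.integral_const_mul] at e
    exact e
  have h5 : (∫ y in (-h₂)..h₂, Real.exp (-(b * μ / 2) * y ^ 2)) ≤ √(2 * Real.pi / b) * u := by
    rw [intervalIntegral.integral_of_le (by linarith)]
    have h6 : (∫ y in Set.Ioc (-h₂) h₂, Real.exp (-(b * μ / 2) * y ^ 2)) ≤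
        ∫ y : ℝ, Real.exp (-(b * μ / 2) * y ^ 2) :=
      MeasureTheory.setIntegral_le_integral (integrable_exp_neg_mul_sq (by positivity))
        (Filter.Eventually.of_forall fun y => (Real.exp_pos _).le)
    rw [integral_gaussian] at h6
    refine h6.trans (le_of_eq ?_)
    have h7 : Real.pi / (b * μ / 2) = 2 * Real.pi / b / μ := by field_simp
    rw [h7, Real.sqrt_div (by have := Real.pi_pos; positivity), hu]
    ring
  have h8 : ε * Real.exp (μ * S) * (∫ y in (-h₂)..h₂, Real.exp (-(b * μ / 2) * y ^ 2)) ≤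
      ε * Real.exp (μ * S) * (√(2 * Real.pi / b) * u) :=
    mul_le_mul_of_nonneg_left h5 (by positivity)
  rw [h4] at h1
  calc _ = Real.exp (μ * S) * u * Real.exp (-B) -
        ε * Real.exp (μ * S) * (√(2 * Real.pi / b) * u) := by ring
    _ ≤ _ := by linarith

theorem tKlo : S_Ksh → S_Klo := by
  intro hK σ₂ h₂ m₁ m₂ _ hσ1 hh _ hm1 hm2
  have hpi := Real.pi_pos
  have ha1 : 0 < a1 σ₂ h₂ := by
    unfold a1
    have : 0 < 1 - σ₂ := by linarith
    positivity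
  obtain ⟨S, hSd⟩ : ∃ S, S = Real.sinh (a1 σ₂ h₂) := ⟨_, rfl⟩
  have hS : 0 < S := by rw [hSd]; exact Real.sinh_pos_iff.2 ha1
  obtain ⟨Ch, hCd⟩ : ∃ Ch, Ch = Real.cosh (a1 σ₂ h₂) := ⟨_, rfl⟩
  have hCh : 0 < Ch := by rw [hCd]; exact Real.cosh_pos _
  obtain ⟨x, hx⟩ : ∃ x, x = Real.pi / (2 * h₂) := ⟨_, rfl⟩
  have hx0 : 0 < x := by rw [hx]; positivity
  obtain ⟨b, hb⟩ : ∃ b, b = 2 * x ^ 2 * S / Real.pi ^ 2 := ⟨_, rfl⟩
  have hb0 : 0 < b := by rw [hb]; positivity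
  obtain ⟨B, hB⟩ : ∃ B, B = x ^ 2 * S / 2 := ⟨_, rfl⟩
  obtain ⟨s, hs⟩ : ∃ s, s = √(2 * Real.pi / b) := ⟨_, rfl⟩
  have hs0 : 0 < s := by rw [hs]; exact Real.sqrt_pos.2 (by positivity)
  obtain ⟨T, hTd⟩ : ∃ T, T = max 1 (4 * Real.exp B * s / b) := ⟨_, rfl⟩
  have hT1 : 1 ≤ T := by rw [hTd]; exact le_max_left _ _
  have hT2 : 4 * Real.exp B * s / b ≤ T := by rw [hTd]; exact le_max_right _ _
  have hε : Real.exp (-(b * T ^ 2 / 2)) * s ≤ 1 / 2 * Real.exp (-B) := by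
    have h1 : b * T ^ 2 / 2 ≤ Real.exp (b * T ^ 2 / 2) := by
      have := Real.add_one_le_exp (b * T ^ 2 / 2)
      linarith
    have h2 : 4 * Real.exp B * s ≤ b * T ^ 2 := by
      rw [div_le_iff₀ hb0] at hT2
      have h3 : T * b * 1 ≤ T * b * T := mul_le_mul_of_nonneg_left hT1 (by positivity)
      calc 4 * Real.exp B * s ≤ T * b * 1 := by rw [mul_one]; exact hT2
        _ ≤ T * b * T := h3
        _ = b * T ^ 2 := by ring
    rw [Real.exp_neg, Real.exp_neg, inv_mul_eq_div, div_le_iff₀ (Real.exp_pos _)]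
    have h3 : 2 * Real.exp B * s ≤ Real.exp (b * T ^ 2 / 2) := by linarith
    calc s = 1 / 2 * (Real.exp B)⁻¹ * (2 * Real.exp B * s) := by
          field_simp
      _ ≤ _ := mul_le_mul_of_nonneg_left h3 (by positivity)
  obtain ⟨M, hM⟩ : ∃ M, M = max (max (1 / h₂) (Ch * x ^ 3 * T ^ 3)) (16 * Real.exp B / S) := ⟨_, rfl⟩
  have hM1 : 1 / h₂ ≤ M := by rw [hM]; exact (le_max_left _ _).trans (le_max_left _ _)
  have hM2 : Ch * x ^ 3 * T ^ 3 ≤ M := by rw [hM]; exact (le_max_right _ _).trans (le_max_left _ _)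
  have hM3 : 16 * Real.exp B / S ≤ M := by rw [hM]; exact le_max_right _ _
  have hM0 : 0 < M := lt_of_lt_of_le (by positivity) hM1
  refine ⟨min (Real.exp (-B) / 4) (√m₁ / (2 * T)), M ^ 2 / m₁, by
    have := Real.sqrt_pos.2 hm1
    positivity, ?_⟩
  intro lam μ k hlam hμ1 hμ2 hk hkk
  have hlam0 : 0 < lam := lt_of_lt_of_le (by positivity) hlam
  have hμM : M ^ 2 ≤ μ := by
    rw [div_le_iff₀ hm1] at hlam
    linarith
  have hμ0 : 0 < μ := lt_of_lt_of_le (by positivity) hμM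
  have hsM : M ≤ √μ := Real.le_sqrt_of_sq_le hμM
  have hsq : 0 < √μ := Real.sqrt_pos.2 hμ0
  have hsl : √m₁ * √lam ≤ √μ := by
    rw [← Real.sqrt_mul hm1.le]
    exact Real.sqrt_le_sqrt hμ1
  have huh : 1 / √μ ≤ h₂ := by
    rw [div_le_iff₀ hsq]
    have h1 : 1 / h₂ ≤ √μ := hM1.trans hsM
    rw [div_le_iff₀ hh] at h1
    linarith
  have hθ : ∀ y : ℝ, |y| ≤ T * (1 / √μ) →
      |μ * Real.cosh (a1 σ₂ h₂) * Real.sin (Real.pi * y / (2 * h₂)) - k * y| ≤ 1 := by
    intro y hy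
    have e1 : Real.pi * y / (2 * h₂) = x * y := by rw [hx]; ring
    have e2 : μ * Real.cosh (a1 σ₂ h₂) * Real.sin (Real.pi * y / (2 * h₂)) - k * y =
        -(μ * Ch * (x * y - Real.sin (x * y))) - (k - kst σ₂ h₂ μ) * y := by
      rw [e1]; unfold kst; rw [← hCd, ← hx]; ring
    rw [e2]
    have h1 : |μ * Ch * (x * y - Real.sin (x * y))| ≤ 1 / 2 := by
      rw [abs_mul, abs_of_pos (by positivity : 0 < μ * Ch)]
      have h2 := Real.abs_sub_sin_le (x * y)
      have h3 : |x * y| ^ 3 ≤ (x * (T * (1 / √μ))) ^ 3 := by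
        apply pow_le_pow_left₀ (abs_nonneg _)
        rw [abs_mul, abs_of_pos hx0]
        exact mul_le_mul_of_nonneg_left hy hx0.le
      have h4 : μ * Ch * (x * (T * (1 / √μ))) ^ 3 = Ch * x ^ 3 * T ^ 3 / √μ := by
        have h5 : μ = √μ ^ 2 := (Real.sq_sqrt hμ0.le).symm
        nth_rewrite 1 [h5]
        field_simp
      have h6 : Ch * x ^ 3 * T ^ 3 / √μ ≤ 1 := by
        rw [div_le_one hsq]
        exact hM2.trans hsM
      calc μ * Ch * |x * y - Real.sin (x * y)| ≤ μ * Ch * ((x * (T * (1 / √μ))) ^ 3 / 6) :=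
            mul_le_mul_of_nonneg_left (h2.trans (by linarith)) (by positivity)
        _ = μ * Ch * (x * (T * (1 / √μ))) ^ 3 / 6 := by ring
        _ ≤ 1 / 2 := by rw [h4]; linarith
    have h7 : |(k - kst σ₂ h₂ μ) * y| ≤ 1 / 2 := by
      rw [abs_mul]
      have h8 : |k - kst σ₂ h₂ μ| ≤ √m₁ / (2 * T) * √lam :=
        hkk.trans (mul_le_mul_of_nonneg_right (min_le_right _ _) (Real.sqrt_nonneg _))
      calc |k - kst σ₂ h₂ μ| * |y| ≤ (√m₁ / (2 * T) * √lam) * (T * (1 / √μ)) :=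
            mul_le_mul h8 hy (abs_nonneg _) (by positivity)
        _ = (√m₁ * √lam) / (2 * √μ) := by
            have : T ≠ 0 := by linarith
            field_simp
        _ ≤ 1 / 2 := by
            rw [div_le_iff₀ (by positivity)]
            linarith
    have h9 := abs_sub (-(μ * Ch * (x * y - Real.sin (x * y)))) ((k - kst σ₂ h₂ μ) * y)
    rw [abs_neg] at h9
    linarith
  have h1 := Klo_low σ₂ h₂ μ k T S b B _ _ x hh hμ0 hS hSd hx hb hB hT1 rfl rfl huh hθ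
  have h2 := Klo_int hK σ₂ h₂ μ k hh hk
  rw [← hs] at h1
  rw [← hSd]
  have hP : 16 * Real.exp B * √μ ≤ Real.exp (μ * S) := by
    have h3 : μ * S ≤ Real.exp (μ * S) := by
      have := Real.add_one_le_exp (μ * S)
      linarith
    have h4 : 16 * Real.exp B ≤ √μ * S := by
      have := hM3.trans hsM
      rwa [div_le_iff₀ hS] at this
    have h5 : μ * S = √μ * (√μ * S) := by
      rw [← mul_assoc, Real.mul_self_sqrt hμ0.le]
    calc 16 * Real.exp B * √μ = √μ * (16 * Real.exp B) := by ring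
      _ ≤ √μ * (√μ * S) := mul_le_mul_of_nonneg_left h4 hsq.le
      _ ≤ _ := by rw [← h5]; exact h3
  have h6 : Real.exp (μ * S) * (1 / √μ) * (1 / 2 * Real.exp (-B)) ≤
      Real.exp (μ * S) * (1 / √μ) * (Real.exp (-B) - Real.exp (-(b * T ^ 2 / 2)) * s) :=
    mul_le_mul_of_nonneg_left (by linarith) (by positivity)
  have h7 : 4 ≤ Real.exp (μ * S) * (1 / √μ) * (1 / 4 * Real.exp (-B)) := by
    have h8 : 16 * Real.exp B * √μ * (1 / √μ) * (1 / 4 * Real.exp (-B)) = 4 := by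
      rw [Real.exp_neg]
      field_simp
      norm_num
    calc (4 : ℝ) = 16 * Real.exp B * √μ * (1 / √μ) * (1 / 4 * Real.exp (-B)) := h8.symm
      _ ≤ _ := by gcongr
  have h9 : min (Real.exp (-B) / 4) (√m₁ / (2 * T)) * Real.exp (μ * S) / √μ ≤
      Real.exp (μ * S) * (1 / √μ) * (1 / 4 * Real.exp (-B)) := by
    calc _ ≤ Real.exp (-B) / 4 * Real.exp (μ * S) / √μ := by
          gcongr
          exact min_le_left _ _
      _ = _ := by ring
  have h10 : Real.exp (μ * S) * (1 / √μ) * (1 / 2 * Real.exp (-B)) =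
      Real.exp (μ * S) * (1 / √μ) * (1 / 4 * Real.exp (-B)) +
      Real.exp (μ * S) * (1 / √μ) * (1 / 4 * Real.exp (-B)) := by ring
  linarith

end MP7ed9c3.Pz
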