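import Pool.Agent.Lib.MP_7ed9c3_nt.Pz.SpecK

/-! # MP_7ed9c3_nt, part Pz, module Ksu: a Gaussian sum over integers -/

set_option autoImplicit false

namespace MP7ed9c3.Pz

open MP7ed9c3

/-- `arctan (a + d) - arctan a` is at least `d/(4 (1 + a^2))` for `0 < d ≤ 1`. -/
theorem Ksu_atan (a d : ℝ) (hd : 0 < d) (hd1 : d ≤ 1) :
    d / (4 * (1 + a ^ 2)) ≤ Real.arctan (a + d) - Real.arctan a := by
  have hlt : a < a + d := by linarith
  obtain ⟨x, hx, hxe⟩ := exists_deriv_eq_slope Real.arctan hlt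
    Real.continuous_arctan.continuousOn (Real.differentiable_arctan.differentiableOn)
  rw [Real.deriv_arctan] at hxe
  simp only [] at hxe
  have e1 : Real.arctan (a + d) - Real.arctan a = d * (1 / (1 + x ^ 2)) := by
    rw [hxe, add_sub_cancel_left, mul_div_assoc']
    exact (mul_div_cancel_left₀ _ hd.ne').symm
  rw [e1]
  have h1 : 0 < 1 + x ^ 2 := by positivity
  have h2 : 1 + x ^ 2 ≤ 4 * (1 + a ^ 2) := by
    have h3 : (x - a) ^ 2 ≤ 1 := by
      have h4 : 0 ≤ x - a := by linarith [hx.1]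
      have h5 : x - a ≤ 1 := by linarith [hx.2]
      nlinarith
    nlinarith [sq_nonneg (x - 2 * a), sq_nonneg a]
  have h6 : 1 / (4 * (1 + a ^ 2)) ≤ 1 / (1 + x ^ 2) := one_div_le_one_div_of_le h1 h2
  calc d / (4 * (1 + a ^ 2)) = d * (1 / (4 * (1 + a ^ 2))) := by ring
    _ ≤ _ := mul_le_mul_of_nonneg_left h6 hd.le

/-- **Ksu.** -/
theorem tKsu : S_Ksu := by
  intro c hc
  refine ⟨4 * Real.pi * (1 + 1 / c), by positivity, ?_⟩
  intro lam s R hlam
  have hlam0 : 0 < lam := by linarith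
  have hq : 1 ≤ √lam := Real.one_le_sqrt.mpr hlam
  have hq0 : 0 < √lam := by linarith
  have hqq : √lam * √lam = lam := Real.mul_self_sqrt hlam0.le
  set d := 1 / √lam with hd
  have hd0 : 0 < d := by positivity
  have hd1 : d ≤ 1 := by
    rw [hd]; exact (div_le_one hq0).mpr hq
  have hterm : ∀ r : ℕ, Real.exp (-(c * (s + r) ^ 2 / lam)) ≤
      (1 + 1 / c) * (4 * √lam * (Real.arctan ((s + ((r + 1 : ℕ) : ℝ)) * d) -
        Real.arctan ((s + (r : ℝ)) * d))) := by
    intro r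
    set a := (s + (r : ℝ)) * d with ha
    have ha2 : a ^ 2 = (s + r) ^ 2 / lam := by
      rw [ha, hd, mul_pow, div_pow, one_pow, Real.sq_sqrt hlam0.le]
      ring
    have e1 : (s + ((r + 1 : ℕ) : ℝ)) * d = a + d := by
      rw [ha]; push_cast; ring
    rw [e1]
    have h1 := Ksu_atan a d hd0 hd1
    have h2 : 1 / (1 + a ^ 2) ≤ 4 * √lam * (Real.arctan (a + d) - Real.arctan a) := by
      have h3 := mul_le_mul_of_nonneg_left h1 (show 0 ≤ 4 * √lam by positivity)
      have h4 : 4 * √lam * (d / (4 * (1 + a ^ 2))) = 1 / (1 + a ^ 2) := by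
        rw [hd]; field_simp
      rwa [h4] at h3
    have h5 : Real.exp (-(c * (s + r) ^ 2 / lam)) ≤ (1 + 1 / c) * (1 / (1 + a ^ 2)) := by
      have e2 : c * (s + r) ^ 2 / lam = c * a ^ 2 := by rw [ha2]; ring
      rw [e2]
      have h6 : 1 + c * a ^ 2 ≤ Real.exp (c * a ^ 2) := by
        linarith [Real.add_one_le_exp (c * a ^ 2)]
      have h7 : 0 < 1 + c * a ^ 2 := by positivity
      rw [Real.exp_neg, ← one_div, mul_one_div]
      rw [div_le_div_iff₀ (Real.exp_pos _) (by positivity), one_mul]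
      have h8 : 1 + a ^ 2 ≤ (1 + 1 / c) * (1 + c * a ^ 2) := by
        have h9 : (1 + 1 / c) * (1 + c * a ^ 2) = 1 + a ^ 2 + (1 / c + c * a ^ 2) := by
          field_simp; ring
        rw [h9]
        have : 0 ≤ 1 / c + c * a ^ 2 := by positivity
        linarith
      exact h8.trans (mul_le_mul_of_nonneg_left h6 (by positivity))
    exact h5.trans (mul_le_mul_of_nonneg_left h2 (by positivity))
  have hsum : ∑ r ∈ Finset.range (R + 1), (Real.arctan ((s + ((r + 1 : ℕ) : ℝ)) * d) -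
      Real.arctan ((s + (r : ℝ)) * d)) ≤ Real.pi := by
    rw [Finset.sum_range_sub (fun r : ℕ => Real.arctan ((s + (r : ℝ)) * d))]
    have h1 := Real.arctan_lt_pi_div_two ((s + ((R + 1 : ℕ) : ℝ)) * d)
    have h2 := Real.neg_pi_div_two_lt_arctan ((s + ((0 : ℕ) : ℝ)) * d)
    calc _ ≤ Real.pi / 2 - -(Real.pi / 2) := sub_le_sub h1.le h2.le
      _ = Real.pi := by ring
  calc _ ≤ ∑ r ∈ Finset.range (R + 1), (1 + 1 / c) *
      (4 * √lam * (Real.arctan ((s + ((r + 1 : ℕ) : ℝ)) * d) -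
        Real.arctan ((s + (r : ℝ)) * d))) := Finset.sum_le_sum (fun r _ => hterm r)
    _ = (1 + 1 / c) * (4 * √lam) * ∑ r ∈ Finset.range (R + 1),
        (Real.arctan ((s + ((r + 1 : ℕ) : ℝ)) * d) - Real.arctan ((s + (r : ℝ)) * d)) := by
        rw [Finset.mul_sum]
        apply Finset.sum_congr rfl
        intro r _
        ring
    _ ≤ (1 + 1 / c) * (4 * √lam) * Real.pi := mul_le_mul_of_nonneg_left hsum (by positivity)
    _ = _ := by ring

end MP7ed9c3.Pz
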