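import Pool.Agent.Lib.MP_7ed9c3_nt.Pz.SpecK

/-!
# MP_7ed9c3_nt, part Pz, K1: the pointwise upper bound for the kernel integral
-/

set_option autoImplicit false

namespace MP7ed9c3.Pz

open MP7ed9c3 MeasureTheory

lemma Kup_taylor {A δ : ℝ} (hA : 0 ≤ A) (hδ : |δ| ≤ 1) :
    Real.sinh (A + δ) ≤ Real.sinh A + δ * Real.cosh A + Real.exp A * δ ^ 2 := by
  have h1 := abs_le.mp (Real.abs_exp_sub_one_sub_id_le hδ)
  have h2 := abs_le.mp (Real.abs_exp_sub_one_sub_id_le (x := -δ) (by rwa [abs_neg]))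
  have h3 : (-δ) ^ 2 = δ ^ 2 := by ring
  rw [h3] at h2
  have hs : Real.sinh δ ≤ δ + δ ^ 2 := by
    rw [Real.sinh_eq]
    linarith [h1.2, h2.1]
  have hc : Real.cosh δ ≤ 1 + δ ^ 2 := by
    rw [Real.cosh_eq]
    linarith [h1.2, h2.2]
  have hsA : 0 ≤ Real.sinh A := Real.sinh_nonneg_iff.mpr hA
  have hcA : 0 < Real.cosh A := Real.cosh_pos A
  have he : Real.exp A = Real.cosh A + Real.sinh A := (Real.cosh_add_sinh A).symm
  rw [Real.sinh_add, he]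
  have e1 := mul_le_mul_of_nonneg_left hs hcA.le
  have e2 := mul_le_mul_of_nonneg_left hc hsA
  linarith

lemma Kup_gauss {b μ h : ℝ} (hb : 0 < b) (hμ : 0 < μ) (hh : 0 < h) :
    ∫ y in (-h)..h, Real.exp (-(b * μ) * y ^ 2) ≤ √(Real.pi / b) / √μ := by
  have hint : Integrable (fun y : ℝ => Real.exp (-(b * μ) * y ^ 2)) :=
    integrable_exp_neg_mul_sq (by positivity)
  rw [intervalIntegral.integral_of_le (by linarith)]
  calc ∫ y in Set.Ioc (-h) h, Real.exp (-(b * μ) * y ^ 2)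
      ≤ ∫ y, Real.exp (-(b * μ) * y ^ 2) :=
        setIntegral_le_integral hint (Filter.Eventually.of_forall fun y => (Real.exp_pos _).le)
    _ = √(Real.pi / (b * μ)) := integral_gaussian (b * μ)
    _ = √(Real.pi / b) / √μ := by
        rw [← div_div, Real.sqrt_div (by positivity)]

/-- the choice of `τ` -/
lemma Kup_tau {P Q C3 C₀ r1 r2 : ℝ} (hP : 0 < P) (hQ : 0 < Q) (hC3 : 0 < C3) (hC0 : 0 < C₀)
    (hr1 : 0 < r1) (hr2 : 0 < r2) :
    ∃ τ : ℝ, 0 < τ ∧ τ * P ≤ 1 ∧ Q * (τ * C3) ≤ 1 ∧ τ * C3 ≤ r1 ∧ τ * C3 * C₀ ≤ r2 := by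
  have p2 : 0 < Q * C3 := by positivity
  have p3 : 0 < C3 * C₀ := by positivity
  obtain ⟨τ, h0, h1, h2, h3, h4⟩ : ∃ τ : ℝ, 0 < τ ∧ τ ≤ 1 / P ∧ τ ≤ 1 / (Q * C3) ∧ τ ≤ r1 / C3 ∧
      τ ≤ r2 / (C3 * C₀) :=
    ⟨min (min (1 / P) (1 / (Q * C3))) (min (r1 / C3) (r2 / (C3 * C₀))),
      lt_min (lt_min (by positivity) (by positivity)) (lt_min (by positivity) (by positivity)),
      (min_le_left _ _).trans (min_le_left _ _), (min_le_left _ _).trans (min_le_right _ _),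
      (min_le_right _ _).trans (min_le_left _ _), (min_le_right _ _).trans (min_le_right _ _)⟩
  refine ⟨τ, h0, (le_div_iff₀ hP).mp h1, ?_, (le_div_iff₀ hC3).mp h3, ?_⟩
  · have := (le_div_iff₀ p2).mp h2
    calc Q * (τ * C3) = τ * (Q * C3) := by ring
      _ ≤ 1 := this
  · have := (le_div_iff₀ p3).mp h4
    calc τ * C3 * C₀ = τ * (C3 * C₀) := by ring
      _ ≤ r2 := this

/-- the exponent on the shifted line -/
lemma Kup_exp {A x μ m₂ lam τ k ks e s : ℝ} (hlp : 0 < lam) (hμ : 0 < μ)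
    (hμ2 : μ ≤ m₂ * lam) (hτ : 0 < τ) (hτ1 : τ * (2 * m₂ * Real.exp A * x ^ 2) ≤ 1)
    (hks : ks = μ * x * Real.cosh A) (he : e = τ * (k - ks) / lam)
    (hT : s ≤ Real.sinh A + x * e * Real.cosh A + Real.exp A * (x * e) ^ 2) :
    -k * e + μ * s ≤ μ * Real.sinh A - τ / 2 * ((k - ks) ^ 2 / lam) := by
  have hquad : μ * (Real.exp A * (x * e) ^ 2) ≤ τ / 2 * ((k - ks) ^ 2 / lam) := by
    have h1 : μ * (Real.exp A * (x * e) ^ 2) ≤ m₂ * lam * (Real.exp A * (x * e) ^ 2) :=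
      mul_le_mul_of_nonneg_right hμ2 (by positivity)
    have h2 : m₂ * lam * (Real.exp A * (x * e) ^ 2) =
        (τ * (2 * m₂ * Real.exp A * x ^ 2)) * (τ / 2 * ((k - ks) ^ 2 / lam)) := by
      rw [he]; field_simp
    rw [h2] at h1
    exact h1.trans (mul_le_of_le_one_left (by positivity) hτ1)
  have h1 : μ * s ≤ μ * (Real.sinh A + x * e * Real.cosh A + Real.exp A * (x * e) ^ 2) :=
    mul_le_mul_of_nonneg_left hT hμ.le
  have h1' : μ * (Real.sinh A + x * e * Real.cosh A + Real.exp A * (x * e) ^ 2) =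
    μ * Real.sinh A + ks * e + μ * (Real.exp A * (x * e) ^ 2) := by rw [hks]; ring
  have h2 : k * e - ks * e = τ * ((k - ks) ^ 2 / lam) := by rw [he]; ring
  have h3 : -k * e = -(k * e) := by ring
  rw [h3]
  linarith

/-- the vertical integral -/
lemma Kup_vert {σ₂ h₂ μ k e x b s D : ℝ} (Hs : S_Ksh) (hh : 0 < h₂) (hk : 0 ≤ k)
    (hx : x = Real.pi / (2 * h₂)) (hb0 : 0 < b) (hμ : 0 < μ)
    (hs : s = Real.sinh (Real.pi * (1 + e - σ₂) / (2 * h₂)))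
    (hb : b ≤ s * (2 / Real.pi ^ 2) * x ^ 2) (hs0 : 0 ≤ s)
    (hexp : -k * e + μ * s ≤ D) :
    Real.exp k * ‖∫ y in (-h₂)..h₂, kin σ₂ h₂ μ k (1 + e) y‖ ≤
      Real.exp D * (√(Real.pi / b) / √μ) := by
  obtain ⟨hn, hcont, _⟩ := Hs σ₂ h₂ μ k (1 + e) hh hk
  have hxp : 0 < x := by rw [hx]; positivity
  have hpt : ∀ y ∈ Set.Icc (-h₂) h₂, Real.exp k * ‖kin σ₂ h₂ μ k (1 + e) y‖ ≤
      Real.exp D * Real.exp (-(b * μ) * y ^ 2) := by
    intro y hy
    have hxy : Real.pi * y / (2 * h₂) = x * y := by rw [hx]; ring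
    rw [hn, hxy, ← hs, ← Real.exp_add, ← Real.exp_add]
    apply Real.exp_le_exp.mpr
    have hxyπ : |x * y| ≤ Real.pi := by
      rw [abs_mul, abs_of_pos hxp]
      have h1 : |y| ≤ h₂ := abs_le.mpr ⟨by linarith [hy.1], hy.2⟩
      have h2 : x * |y| ≤ x * h₂ := mul_le_mul_of_nonneg_left h1 hxp.le
      have h3 : x * h₂ = Real.pi / 2 := by rw [hx]; field_simp
      linarith [Real.pi_pos]
    have hcos := Real.cos_le_one_sub_mul_cos_sq hxyπ
    have h4 : s * Real.cos (x * y) ≤ s * (1 - 2 / Real.pi ^ 2 * (x * y) ^ 2) :=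
      mul_le_mul_of_nonneg_left hcos hs0
    have h5 : b * y ^ 2 ≤ s * (2 / Real.pi ^ 2) * x ^ 2 * y ^ 2 :=
      mul_le_mul_of_nonneg_right hb (by positivity)
    have h6 : s * (1 - 2 / Real.pi ^ 2 * (x * y) ^ 2) =
      s - s * (2 / Real.pi ^ 2) * x ^ 2 * y ^ 2 := by ring
    have h7 : s * Real.cos (x * y) ≤ s - b * y ^ 2 := by linarith
    have h8 : μ * (s * Real.cos (x * y)) ≤ μ * (s - b * y ^ 2) :=
      mul_le_mul_of_nonneg_left h7 hμ.le
    have h9 : k + (-k * (1 + e) + μ * (s * Real.cos (x * y))) =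
      -k * e + μ * (s * Real.cos (x * y)) := by ring
    have h10 : μ * (s - b * y ^ 2) = μ * s + -(b * μ) * y ^ 2 := by ring
    rw [h9]
    linarith
  have h1 : ‖∫ y in (-h₂)..h₂, kin σ₂ h₂ μ k (1 + e) y‖ ≤
      ∫ y in (-h₂)..h₂, ‖kin σ₂ h₂ μ k (1 + e) y‖ :=
    intervalIntegral.norm_integral_le_integral_norm (by linarith)
  calc Real.exp k * ‖∫ y in (-h₂)..h₂, kin σ₂ h₂ μ k (1 + e) y‖
      ≤ Real.exp k * ∫ y in (-h₂)..h₂, ‖kin σ₂ h₂ μ k (1 + e) y‖ :=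
        mul_le_mul_of_nonneg_left h1 (Real.exp_pos _).le
    _ = ∫ y in (-h₂)..h₂, Real.exp k * ‖kin σ₂ h₂ μ k (1 + e) y‖ :=
        (intervalIntegral.integral_const_mul _ _).symm
    _ ≤ ∫ y in (-h₂)..h₂, Real.exp D * Real.exp (-(b * μ) * y ^ 2) := by
        apply intervalIntegral.integral_mono_on (by linarith) _ _ hpt
        · exact (continuous_const.mul hcont.norm).intervalIntegrable _ _
        · exact Continuous.intervalIntegrable (by fun_prop) _ _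
    _ = Real.exp D * ∫ y in (-h₂)..h₂, Real.exp (-(b * μ) * y ^ 2) :=
        intervalIntegral.integral_const_mul _ _
    _ ≤ _ := mul_le_mul_of_nonneg_left (Kup_gauss hb0 hμ hh) (Real.exp_pos _).le

/-- the horizontal part -/
lemma Kup_hor {k e lam c m₁ S μ C₀ E : ℝ} (hk : 0 ≤ k) (he1 : -1 ≤ e) (heb : |e| ≤ E)
    (hC0 : 0 < C₀) (hlp : 0 < lam) (hkC : k ≤ C₀ * lam) (hE : E * C₀ ≤ m₁ * S / 2) (hS : 0 < S)
    (hμ1 : m₁ * lam ≤ μ) (hc : c ≤ m₁ * S / 4) (h8 : 2 ≤ m₁ * S / 4 * lam) :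
    Real.exp k * (2 * (3 - (1 + e)) * Real.exp (-k * (1 + e))) ≤
      Real.exp (μ * S) * Real.exp (-(c * lam)) := by
  have h1 : Real.exp k * (2 * (3 - (1 + e)) * Real.exp (-k * (1 + e))) =
      2 * (3 - (1 + e)) * Real.exp (-(k * e)) := by
    have : Real.exp k * Real.exp (-k * (1 + e)) = Real.exp (-(k * e)) := by
      rw [← Real.exp_add]; congr 1; ring
    rw [← this]; ring
  rw [h1]
  have h2 : 2 * (3 - (1 + e)) ≤ 6 := by linarith
  have h3 : (6 : ℝ) ≤ Real.exp 2 := by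
    have h4 : Real.exp 2 = Real.exp 1 * Real.exp 1 := by rw [← Real.exp_add]; norm_num
    rw [h4]
    have h5 : (2.5 : ℝ) ≤ Real.exp 1 := by linarith [Real.exp_one_gt_d9]
    calc (6 : ℝ) ≤ 2.5 * 2.5 := by norm_num
      _ ≤ _ := mul_le_mul h5 h5 (by norm_num) (by linarith)
  have h4 : -(k * e) ≤ m₁ * S / 2 * lam := by
    have h5 : k * (-e) ≤ k * |e| := mul_le_mul_of_nonneg_left (neg_le_abs e) hk
    have h6 : k * |e| ≤ C₀ * lam * E :=
      mul_le_mul hkC heb (abs_nonneg _) (by positivity)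
    have h7 : E * C₀ * lam ≤ m₁ * S / 2 * lam := mul_le_mul_of_nonneg_right hE hlp.le
    calc -(k * e) = k * (-e) := by ring
      _ ≤ k * |e| := h5
      _ ≤ C₀ * lam * E := h6
      _ = E * C₀ * lam := by ring
      _ ≤ _ := h7
  calc 2 * (3 - (1 + e)) * Real.exp (-(k * e)) ≤ Real.exp 2 * Real.exp (-(k * e)) :=
        mul_le_mul_of_nonneg_right (h2.trans h3) (Real.exp_pos _).le
    _ = Real.exp (2 + -(k * e)) := (Real.exp_add _ _).symm
    _ ≤ Real.exp (μ * S + -(c * lam)) := by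
        apply Real.exp_le_exp.mpr
        have h6 : m₁ * lam * S ≤ μ * S := mul_le_mul_of_nonneg_right hμ1 hS.le
        have h7 : c * lam ≤ m₁ * S / 4 * lam := mul_le_mul_of_nonneg_right hc hlp.le
        linarith
    _ = _ := Real.exp_add _ _

theorem tKup : S_Ksh → S_Kup := by
  intro Hs σ₂ h₂ m₁ m₂ C₀ hσ1 hσ2 hh hh2 hm1 hm2 hC0
  obtain ⟨x, hx⟩ : ∃ x : ℝ, x = Real.pi / (2 * h₂) := ⟨_, rfl⟩
  have hxp : 0 < x := by rw [hx]; positivity
  obtain ⟨A, hA⟩ : ∃ A : ℝ, A = a1 σ₂ h₂ := ⟨_, rfl⟩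
  have hAx : A = x * (1 - σ₂) := by rw [hA, hx, a1]; ring
  have hAp : 0 < A := by rw [hAx]; exact mul_pos hxp (by linarith)
  have hsA : 0 < Real.sinh A := Real.sinh_pos_iff.mpr hAp
  have hcA : 0 < Real.cosh A := Real.cosh_pos A
  have hm2p : 0 < m₂ := by linarith
  obtain ⟨C3, hC3⟩ : ∃ C3 : ℝ, C3 = C₀ + m₂ * x * Real.cosh A := ⟨_, rfl⟩
  have hC3p : 0 < C3 := by rw [hC3]; positivity
  obtain ⟨τ, hτ, hτ1, hτ2, hτ3, hτ4⟩ := Kup_tau
    (P := 2 * m₂ * Real.exp A * x ^ 2) (Q := x) (C3 := C3) (C₀ := C₀) (r1 := (1 - σ₂) / 2)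
    (r2 := m₁ * Real.sinh A / 2) (by positivity) hxp hC3p hC0 (by linarith) (by positivity)
  obtain ⟨b, hb⟩ : ∃ b : ℝ, b = A / 2 * (2 / Real.pi ^ 2) * x ^ 2 := ⟨_, rfl⟩
  have hbp : 0 < b := by rw [hb]; positivity
  obtain ⟨c, hcp, hc1, hc2⟩ : ∃ c : ℝ, 0 < c ∧ c ≤ τ / 2 ∧ c ≤ m₁ * Real.sinh A / 4 :=
    ⟨min (τ / 2) (m₁ * Real.sinh A / 4), lt_min (by positivity) (by positivity), min_le_left _ _,
      min_le_right _ _⟩
  refine ⟨√(Real.pi / b), c, max 1 (8 / (m₁ * Real.sinh A)), by positivity, hcp,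
    le_max_left _ _, ?_⟩
  intro lam μ k hlam hμ1 hμ2 hk hkC
  have hlam1 : 1 ≤ lam := (le_max_left _ _).trans hlam
  have hlam8 : 8 / (m₁ * Real.sinh A) ≤ lam := (le_max_right _ _).trans hlam
  have hlp : 0 < lam := by linarith
  have hμ : 0 < μ := lt_of_lt_of_le (by positivity) hμ1
  rw [← hA]
  obtain ⟨ks, hks⟩ : ∃ ks : ℝ, ks = kst σ₂ h₂ μ := ⟨_, rfl⟩
  rw [← hks]
  have hks' : ks = μ * x * Real.cosh A := by rw [hks, kst, hA, hx]
  have hks0 : 0 ≤ ks := by rw [hks']; positivity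
  have hks1 : ks ≤ m₂ * x * Real.cosh A * lam := by
    have h1 : μ * (x * Real.cosh A) ≤ m₂ * lam * (x * Real.cosh A) :=
      mul_le_mul_of_nonneg_right hμ2 (by positivity)
    calc ks = μ * (x * Real.cosh A) := by rw [hks']; ring
      _ ≤ m₂ * lam * (x * Real.cosh A) := h1
      _ = _ := by ring
  have hd : |k - ks| ≤ C3 * lam := by
    have h1 : C3 * lam = C₀ * lam + m₂ * x * Real.cosh A * lam := by rw [hC3]; ring
    have h2 : 0 < C₀ * lam := by positivity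
    rw [abs_le, h1]
    constructor <;> linarith
  obtain ⟨e, he⟩ : ∃ e : ℝ, e = τ * (k - ks) / lam := ⟨_, rfl⟩
  have heb : |e| ≤ τ * C3 := by
    rw [he, abs_div, abs_mul, abs_of_pos hτ, abs_of_pos hlp, div_le_iff₀ hlp, mul_assoc]
    exact mul_le_mul_of_nonneg_left hd hτ.le
  have heb' := abs_le.mp heb
  have hxe : |x * e| ≤ 1 := by
    rw [abs_mul, abs_of_pos hxp]
    exact (mul_le_mul_of_nonneg_left heb hxp.le).trans hτ2
  have hσ3 : 1 + e ≤ 3 := by linarith [heb'.2]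
  have hsh := (Hs σ₂ h₂ μ k (1 + e) hh hk).2.2 hσ3
  have hAe : Real.pi * (1 + e - σ₂) / (2 * h₂) = A + x * e := by rw [hAx, hx]; ring
  have hT := Kup_taylor hAp.le hxe
  have hs0 : A / 2 ≤ Real.sinh (A + x * e) := by
    have h1 : A / 2 ≤ A + x * e := by
      have h3 : -e ≤ (1 - σ₂) / 2 := by linarith [heb'.1]
      have h4 := mul_le_mul_of_nonneg_left h3 hxp.le
      have h5 : A / 2 = x * ((1 - σ₂) / 2) := by rw [hAx]; ring
      linarith
    have h2 : A / 2 ≤ Real.sinh (A / 2) := Real.self_le_sinh_iff.mpr (by positivity)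
    exact h2.trans (Real.sinh_le_sinh.mpr h1)
  have hexp := Kup_exp hlp hμ hμ2 hτ hτ1 hks' he hT
  have hvert := Kup_vert (σ₂ := σ₂) Hs hh hk hx hbp hμ (s := Real.sinh (A + x * e))
    (by rw [hAe]) (by rw [hb]; gcongr) (by linarith) hexp
  have hhor := Kup_hor (E := τ * C3) hk (by linarith [heb'.1]) heb hC0 hlp hkC hτ4 hsA hμ1 hc2 (by
    rw [div_le_iff₀ (by positivity)] at hlam8
    linarith)
  have hPh : ‖Ph σ₂ h₂ μ k‖ = Real.exp k * ‖Gf σ₂ h₂ μ k‖ := by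
    rw [Ph, norm_mul, Complex.norm_exp, Complex.ofReal_re]
  have hG : ‖Gf σ₂ h₂ μ k‖ ≤ ‖∫ y in (-h₂)..h₂, kin σ₂ h₂ μ k (1 + e) y‖ +
      2 * (3 - (1 + e)) * Real.exp (-k * (1 + e)) := by
    have h1 := norm_add_le (Gf σ₂ h₂ μ k - ∫ y in (-h₂)..h₂, kin σ₂ h₂ μ k (1 + e) y)
      (∫ y in (-h₂)..h₂, kin σ₂ h₂ μ k (1 + e) y)
    rw [sub_add_cancel] at h1
    linarith
  rw [hPh]
  calc Real.exp k * ‖Gf σ₂ h₂ μ k‖
      ≤ Real.exp k * (‖∫ y in (-h₂)..h₂, kin σ₂ h₂ μ k (1 + e) y‖ +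
      2 * (3 - (1 + e)) * Real.exp (-k * (1 + e))) :=
        mul_le_mul_of_nonneg_left hG (Real.exp_pos _).le
    _ ≤ Real.exp (μ * Real.sinh A - τ / 2 * ((k - ks) ^ 2 / lam)) * (√(Real.pi / b) / √μ) +
        Real.exp (μ * Real.sinh A) * Real.exp (-(c * lam)) := by
        rw [mul_add]; exact add_le_add hvert hhor
    _ ≤ Real.exp (μ * Real.sinh A) * Real.exp (-(c * (k - ks) ^ 2 / lam)) * (√(Real.pi / b) / √μ) +
        Real.exp (μ * Real.sinh A) * Real.exp (-(c * lam)) := by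
        have h1 : c * ((k - ks) ^ 2 / lam) ≤ τ / 2 * ((k - ks) ^ 2 / lam) :=
          mul_le_mul_of_nonneg_right hc1 (by positivity)
        have h2 : c * (k - ks) ^ 2 / lam = c * ((k - ks) ^ 2 / lam) := by ring
        have h3 : Real.exp (μ * Real.sinh A - τ / 2 * ((k - ks) ^ 2 / lam)) ≤
            Real.exp (μ * Real.sinh A) * Real.exp (-(c * (k - ks) ^ 2 / lam)) := by
          rw [← Real.exp_add]
          apply Real.exp_le_exp.mpr
          rw [h2]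
          linarith
        have h4 := mul_le_mul_of_nonneg_right h3
          (by positivity : 0 ≤ √(Real.pi / b) / √μ)
        linarith
    _ = _ := by ring

end MP7ed9c3.Pz
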