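import Pool.Agent.Lib.MP_7ed9c3_nt.Pz.Ksh
import Pool.Agent.Lib.MP_7ed9c3_nt.Pz.Kup
import Pool.Agent.Lib.MP_7ed9c3_nt.Pz.Klo
import Pool.Agent.Lib.MP_7ed9c3_nt.Pz.Ksu
import Pool.Agent.Lib.MP_7ed9c3_nt.Pz.Kfi

/-! # MP_7ed9c3_nt, part Pz: the bounds for the kernel -/

set_option autoImplicit false

namespace MP7ed9c3.Pz

theorem tK1 : S_K1 := tKfi (tKup tKsh) (tKlo tKsh) tKsu

end MP7ed9c3.Pz
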