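import Pool.Agent.Lib.MP_7ed9c3_nt.Pz.Def

/-!
# Part K2 of Pz, contour: the integral over the right side is bounded by the three other sides
-/

set_option autoImplicit false

namespace MP7ed9c3.Pz

open Complex MeasureTheory MP7ed9c3.Tz

/-- The absolute value of the kernel. -/
theorem norm_kap (σ₂ h₂ μ x y : ℝ) :
    ‖kap σ₂ h₂ μ ((x : ℂ) + (y : ℂ) * I)‖ = Real.exp (μ * (Real.sinh (Real.pi * (x - σ₂) / (2 * h₂)) *
      Real.cos (Real.pi * y / (2 * h₂)))) := by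
  unfold kap
  rw [Complex.norm_exp]
  congr 1
  have h1 : (Real.pi : ℂ) * ((x : ℂ) + (y : ℂ) * I - (σ₂ : ℂ)) / (2 * (h₂ : ℂ)) =
      ((Real.pi * (x - σ₂) / (2 * h₂) : ℝ) : ℂ) + ((Real.pi * y / (2 * h₂) : ℝ) : ℂ) * I := by
    push_cast
    ring
  rw [h1, Complex.sinh_add, Complex.sinh_mul_I, Complex.cosh_mul_I, ← Complex.ofReal_sinh,
    ← Complex.ofReal_cosh, ← Complex.ofReal_sin, ← Complex.ofReal_cos]
  have h2 : (μ : ℂ) * (((Real.sinh (Real.pi * (x - σ₂) / (2 * h₂)) : ℝ) : ℂ) *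
      ((Real.cos (Real.pi * y / (2 * h₂)) : ℝ) : ℂ) +
      ((Real.cosh (Real.pi * (x - σ₂) / (2 * h₂)) : ℝ) : ℂ) *
        (((Real.sin (Real.pi * y / (2 * h₂)) : ℝ) : ℂ) * I)) =
      ((μ * (Real.sinh (Real.pi * (x - σ₂) / (2 * h₂)) * Real.cos (Real.pi * y / (2 * h₂))) : ℝ) : ℂ) +
      ((μ * (Real.cosh (Real.pi * (x - σ₂) / (2 * h₂)) * Real.sin (Real.pi * y / (2 * h₂))) : ℝ) : ℂ) * I := by
    push_cast
    ring
  rw [h2]
  simp only [Complex.add_re, Complex.ofReal_re, Complex.mul_re, Complex.I_re, Complex.I_im, Complex.ofReal_im]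
  ring

/-- **K2a, the contour**. -/
theorem k2a (σ₁ σ₂ h h₂ : ℝ) (hσ : 1 / 2 < σ₁) (hσ12 : σ₁ < σ₂) (hσ2 : σ₂ < 1) (hh2 : 0 < h₂) (hh : h₂ < h)
    (hhh : h₂ ≤ 1 / 2) (μ t₀ B : ℝ) (f : ℂ → ℂ) (hB : 0 ≤ B)
    (hf : DifferentiableOn ℂ f (box σ₁ t₀ h))
    (hfB : ∀ s : ℂ, σ₂ ≤ s.re → s.re ≤ 3 → |s.im - t₀| ≤ h₂ → ‖f s‖ ≤ B) (r : ℕ) :
    ‖∫ y in (-h₂)..h₂, f (3 + ((t₀ + y : ℝ) : ℂ) * I) *
      (Complex.exp (-(r : ℂ) * (3 + y * I)) * kap σ₂ h₂ μ (3 + y * I))‖ ≤ 7 * B := by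
  set g : ℂ → ℂ := fun u => f (u + t₀ * I) * (Complex.exp (-(r : ℂ) * u) * kap σ₂ h₂ μ u) with hg
  have hgd : DifferentiableOn ℂ g (Set.uIcc σ₂ 3 ×ℂ Set.uIcc (-h₂) h₂) := by
    intro u hu
    rw [mem_reProdIm, Set.uIcc_of_le (by linarith), Set.uIcc_of_le (by linarith)] at hu
    obtain ⟨⟨hu1, hu2⟩, hu3, hu4⟩ := hu
    have hmem : u + t₀ * I ∈ box σ₁ t₀ h := by
      refine ⟨?_, ?_⟩
      · simp only [add_re, mul_re, ofReal_re, I_re, ofReal_im, I_im]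
        linarith
      · simp only [add_im, mul_im, ofReal_re, I_re, ofReal_im, I_im]
        rw [abs_lt]
        constructor <;> linarith
    have hopen : IsOpen (box σ₁ t₀ h) :=
      IsOpen.inter (isOpen_lt continuous_const continuous_re)
        (isOpen_lt ((continuous_im.sub continuous_const).abs) continuous_const)
    have h1 : DifferentiableAt ℂ f (u + t₀ * I) := (hf _ hmem).differentiableAt (hopen.mem_nhds hmem)
    have h2 : DifferentiableAt ℂ (fun u : ℂ => f (u + t₀ * I)) u :=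
      DifferentiableAt.comp u (g := f) (f := fun u : ℂ => u + t₀ * I) h1 (by fun_prop)
    have h3 : DifferentiableAt ℂ (fun u : ℂ => Complex.exp (-(r : ℂ) * u) * kap σ₂ h₂ μ u) u := by
      unfold kap
      fun_prop
    exact (h2.mul h3).differentiableWithinAt
  have hc := Complex.integral_boundary_rect_eq_zero_of_differentiableOn g (⟨σ₂, -h₂⟩) (⟨3, h₂⟩) hgd
  simp only at hc
  have hgB : ∀ x y : ℝ, σ₂ ≤ x → x ≤ 3 → |y| ≤ h₂ → (x = σ₂ ∨ y = h₂ ∨ y = -h₂) →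
      ‖g ((x : ℂ) + (y : ℂ) * I)‖ ≤ B := by
    intro x y hx1 hx2 hy hxy
    have e1 : ‖f ((x : ℂ) + (y : ℂ) * I + t₀ * I)‖ ≤ B := by
      refine hfB _ ?_ ?_ ?_
      · simpa using hx1
      · simpa using hx2
      · simpa using hy
    have e2 : ‖Complex.exp (-(r : ℂ) * ((x : ℂ) + (y : ℂ) * I))‖ ≤ 1 := by
      rw [Complex.norm_exp]
      refine Real.exp_le_one_iff.2 ?_
      have : (-(r : ℂ) * ((x : ℂ) + (y : ℂ) * I)).re = -((r : ℝ) * x) := by simp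
      rw [this]
      have : 0 ≤ (r : ℝ) * x := mul_nonneg (Nat.cast_nonneg _) (by linarith)
      linarith
    have e3 : ‖kap σ₂ h₂ μ ((x : ℂ) + (y : ℂ) * I)‖ = 1 := by
      rw [norm_kap]
      have : Real.sinh (Real.pi * (x - σ₂) / (2 * h₂)) * Real.cos (Real.pi * y / (2 * h₂)) = 0 := by
        rcases hxy with rfl | rfl | rfl
        · simp
        · have : Real.pi * y / (2 * y) = Real.pi / 2 := by field_simp
          rw [this, Real.cos_pi_div_two, mul_zero]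
        · have : Real.pi * (-h₂) / (2 * h₂) = -(Real.pi / 2) := by field_simp
          rw [this, Real.cos_neg, Real.cos_pi_div_two, mul_zero]
      rw [this, mul_zero, Real.exp_zero]
    rw [hg]
    simp only [norm_mul]
    rw [e3, mul_one]
    calc _ ≤ B * 1 := mul_le_mul e1 e2 (norm_nonneg _) hB
      _ = B := mul_one B
  have hL : ‖∫ y : ℝ in (-h₂)..h₂, g ((σ₂ : ℂ) + y * I)‖ ≤ B * |h₂ - (-h₂)| := by
    refine intervalIntegral.norm_integral_le_of_norm_le_const fun y hy => ?_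
    rw [Set.uIoc_of_le (by linarith)] at hy
    exact hgB σ₂ y le_rfl (by linarith) (abs_le.2 ⟨by linarith [hy.1], hy.2⟩) (Or.inl rfl)
  have hD : ‖∫ x : ℝ in σ₂..3, g ((x : ℂ) + ((-h₂ : ℝ) : ℂ) * I)‖ ≤ B * |3 - σ₂| := by
    refine intervalIntegral.norm_integral_le_of_norm_le_const fun x hx => ?_
    rw [Set.uIoc_of_le (by linarith)] at hx
    exact hgB x (-h₂) hx.1.le hx.2 (by rw [abs_neg, abs_of_pos hh2]) (Or.inr (Or.inr rfl))
  have hU : ‖∫ x : ℝ in σ₂..3, g ((x : ℂ) + (h₂ : ℂ) * I)‖ ≤ B * |3 - σ₂| := by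
    refine intervalIntegral.norm_integral_le_of_norm_le_const fun x hx => ?_
    rw [Set.uIoc_of_le (by linarith)] at hx
    exact hgB x h₂ hx.1.le hx.2 (by rw [abs_of_pos hh2]) (Or.inr (Or.inl rfl))
  have hR : (∫ y in (-h₂)..h₂, f (3 + ((t₀ + y : ℝ) : ℂ) * I) *
      (Complex.exp (-(r : ℂ) * (3 + y * I)) * kap σ₂ h₂ μ (3 + y * I))) =
      ∫ y : ℝ in (-h₂)..h₂, g (((3 : ℝ) : ℂ) + y * I) := by
    refine intervalIntegral.integral_congr fun y _ => ?_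
    simp only [hg]
    have : (3 : ℂ) + ((t₀ + y : ℝ) : ℂ) * I = ((3 : ℝ) : ℂ) + y * I + t₀ * I := by
      push_cast
      ring
    rw [this]
    simp
  rw [hR]
  have hI : I * (∫ y : ℝ in (-h₂)..h₂, g (((3 : ℝ) : ℂ) + y * I)) =
      I * (∫ y : ℝ in (-h₂)..h₂, g ((σ₂ : ℂ) + y * I)) -
      (∫ x : ℝ in σ₂..3, g ((x : ℂ) + ((-h₂ : ℝ) : ℂ) * I)) +
      ∫ x : ℝ in σ₂..3, g ((x : ℂ) + (h₂ : ℂ) * I) := by
    simp only [smul_eq_mul] at hc
    linear_combination hc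
  have hn : ‖∫ y : ℝ in (-h₂)..h₂, g (((3 : ℝ) : ℂ) + y * I)‖ =
      ‖I * (∫ y : ℝ in (-h₂)..h₂, g (((3 : ℝ) : ℂ) + y * I))‖ := by
    rw [norm_mul, Complex.norm_I, one_mul]
  rw [hn, hI]
  have h1 := norm_add_le (I * (∫ y : ℝ in (-h₂)..h₂, g ((σ₂ : ℂ) + y * I)) -
      (∫ x : ℝ in σ₂..3, g ((x : ℂ) + ((-h₂ : ℝ) : ℂ) * I)))
      (∫ x : ℝ in σ₂..3, g ((x : ℂ) + (h₂ : ℂ) * I))
  have h2 := norm_sub_le (I * (∫ y : ℝ in (-h₂)..h₂, g ((σ₂ : ℂ) + y * I)))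
      (∫ x : ℝ in σ₂..3, g ((x : ℂ) + ((-h₂ : ℝ) : ℂ) * I))
  rw [norm_mul, Complex.norm_I, one_mul] at h2
  have q1 : B * |h₂ - (-h₂)| ≤ B * 1 := by
    refine mul_le_mul_of_nonneg_left ?_ hB
    rw [abs_of_pos (by linarith)]
    linarith
  have q2 : B * |3 - σ₂| ≤ B * (5 / 2) := by
    refine mul_le_mul_of_nonneg_left ?_ hB
    rw [abs_of_pos (by linarith)]
    linarith
  linarith

end MP7ed9c3.Pz
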