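import Pool.Agent.Lib.MP_7ed9c3_nt.Pz.K2a

/-!
# Part K2 of Pz: the tail, and the theorem
-/

set_option autoImplicit false

namespace MP7ed9c3.Pz

open Complex MeasureTheory Finset MP7ed9c3.Tz

private theorem K2b_cpow (m : ℕ) (hm : 1 ≤ m) (t₀ y : ℝ) (r : ℕ) :
    Complex.exp (-(t₀ * Real.log m : ℝ) * I) *
      Complex.exp (-(((Real.log m + r : ℝ)) : ℂ) * (3 + y * I)) =
    (m : ℂ) ^ (-(3 + ((t₀ + y : ℝ) : ℂ) * I)) * Complex.exp (-(r : ℂ) * (3 + y * I)) := by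
  have hm0 : (m : ℂ) ≠ 0 := by exact_mod_cast (by omega : m ≠ 0)
  rw [Complex.cpow_def_of_ne_zero hm0, ← Complex.natCast_log, ← Complex.exp_add, ← Complex.exp_add]
  congr 1
  push_cast
  ring

private theorem K2b_norm (m : ℕ) (hm : 1 ≤ m) (t : ℝ) :
    ‖(m : ℂ) ^ (-(3 + (t : ℂ) * I))‖ = (m : ℝ) ^ (-(3 : ℝ)) := by
  rw [Complex.norm_natCast_cpow_of_pos (by omega)]
  simp

private theorem K2b_term (C₀ x : ℝ) (hC₀ : 0 < C₀) (m : ℕ) (hm : 1 ≤ m) (hx : |x| ≤ C₀ * (m : ℝ) ^ (3 / 5 : ℝ))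
    (t : ℝ) : ‖(x : ℂ) * (m : ℂ) ^ (-(3 + (t : ℂ) * I))‖ ≤ C₀ * (m : ℝ) ^ (-(12 / 5 : ℝ)) := by
  have hm0 : (0 : ℝ) < m := by exact_mod_cast (by omega : 0 < m)
  rw [norm_mul, K2b_norm m hm, Complex.norm_real, Real.norm_eq_abs]
  calc |x| * (m : ℝ) ^ (-(3 : ℝ)) ≤ C₀ * (m : ℝ) ^ (3 / 5 : ℝ) * (m : ℝ) ^ (-(3 : ℝ)) :=
        mul_le_mul_of_nonneg_right hx (by positivity)
    _ = C₀ * (m : ℝ) ^ (-(12 / 5 : ℝ)) := by
        rw [mul_assoc, ← Real.rpow_add hm0]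
        norm_num

private theorem K2b_kap (σ₂ h₂ μ : ℝ) (hσ2 : σ₂ < 1) (hh2 : 0 < h₂) (hμ : 0 < μ) (Z : ℕ) (hZ : 1 ≤ Z)
    (hμZ : μ * Real.sinh (Real.pi * (3 - σ₂) / (2 * h₂)) ≤ Real.log Z) (y : ℝ) (r : ℕ) :
    ‖Complex.exp (-(r : ℂ) * (3 + y * I)) * kap σ₂ h₂ μ (3 + y * I)‖ ≤ Z := by
  have h1 : ‖Complex.exp (-(r : ℂ) * (3 + y * I))‖ ≤ 1 := by
    rw [Complex.norm_exp]
    refine Real.exp_le_one_iff.2 ?_
    have : (-(r : ℂ) * (3 + y * I)).re = -((r : ℝ) * 3) := by simp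
    rw [this]
    have : 0 ≤ (r : ℝ) * 3 := by positivity
    linarith
  have h2 : ‖kap σ₂ h₂ μ (3 + y * I)‖ ≤ Z := by
    have := norm_kap σ₂ h₂ μ 3 y
    rw [show ((3 : ℝ) : ℂ) = 3 by norm_num] at this
    rw [this]
    have hs : 0 ≤ Real.sinh (Real.pi * (3 - σ₂) / (2 * h₂)) := by
      refine Real.sinh_nonneg_iff.2 ?_
      have : 0 < 3 - σ₂ := by linarith
      positivity
    have hZ0 : (0 : ℝ) < Z := by exact_mod_cast (by omega : 0 < Z)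
    calc Real.exp (μ * (Real.sinh (Real.pi * (3 - σ₂) / (2 * h₂)) * Real.cos (Real.pi * y / (2 * h₂))))
        ≤ Real.exp (Real.log Z) := by
          refine Real.exp_le_exp.2 (le_trans ?_ hμZ)
          refine mul_le_mul_of_nonneg_left ?_ hμ.le
          calc _ ≤ Real.sinh (Real.pi * (3 - σ₂) / (2 * h₂)) * 1 :=
                mul_le_mul_of_nonneg_left (Real.cos_le_one _) hs
            _ = _ := mul_one _
      _ = Z := Real.exp_log hZ0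
  rw [norm_mul]
  calc _ ≤ 1 * (Z : ℝ) := mul_le_mul h1 h2 (norm_nonneg _) zero_le_one
    _ = Z := one_mul _

/-- **K2b, the tail**. -/
theorem k2b (σ₂ h₂ C₀ : ℝ) (hσ2 : σ₂ < 1) (hh2 : 0 < h₂) (hhh : h₂ ≤ 1 / 2) (hC₀ : 0 < C₀) :
    ∃ C : ℝ, 0 < C ∧ ∀ (Z : ℕ) (μ t₀ : ℝ) (d : ℕ → ℝ), 1 ≤ Z → 0 < μ →
      μ * Real.sinh (Real.pi * (3 - σ₂) / (2 * h₂)) ≤ Real.log Z →
      (∀ m : ℕ, 1 ≤ m → |d m| ≤ C₀ * (m : ℝ) ^ (3 / 5 : ℝ)) → ∀ r : ℕ,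
      ‖∑ m ∈ Finset.Icc 1 Z, (d m : ℂ) * xf σ₂ h₂ μ t₀ m r -
        ∫ y in (-h₂)..h₂, (∑' m : ℕ, (d (m + 1) : ℂ) *
          ((m + 1 : ℕ) : ℂ) ^ (-(3 + ((t₀ + y : ℝ) : ℂ) * I))) *
          (Complex.exp (-(r : ℂ) * (3 + y * I)) * kap σ₂ h₂ μ (3 + y * I))‖ ≤ C := by
  have hs7 : Summable fun i : ℕ => C₀ * ((i + 1 : ℕ) : ℝ) ^ (-(7 / 5 : ℝ)) := by
    refine Summable.mul_left _ ?_
    have := (summable_nat_add_iff 1).2 (Real.summable_nat_rpow.2 (by norm_num : (-(7 / 5 : ℝ)) < -1))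
    exact this
  have hs12 : Summable fun i : ℕ => C₀ * ((i + 1 : ℕ) : ℝ) ^ (-(12 / 5 : ℝ)) := by
    refine Summable.mul_left _ ?_
    have := (summable_nat_add_iff 1).2 (Real.summable_nat_rpow.2 (by norm_num : (-(12 / 5 : ℝ)) < -1))
    exact this
  have hS0 : 0 ≤ ∑' i : ℕ, C₀ * ((i + 1 : ℕ) : ℝ) ^ (-(7 / 5 : ℝ)) := tsum_nonneg fun i => by positivity
  refine ⟨∑' i : ℕ, C₀ * ((i + 1 : ℕ) : ℝ) ^ (-(7 / 5 : ℝ)) + 1, by positivity, ?_⟩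
  intro Z μ t₀ d hZ hμ hμZ hd r
  set Kr : ℝ → ℂ := fun y => Complex.exp (-(r : ℂ) * (3 + y * I)) * kap σ₂ h₂ μ (3 + y * I) with hKr
  set a : ℕ → ℝ → ℂ := fun i y => (d (i + 1) : ℂ) *
    ((i + 1 : ℕ) : ℂ) ^ (-(3 + ((t₀ + y : ℝ) : ℂ) * I)) with ha
  have hKc : Continuous Kr := by
    simp only [hKr, kap]
    fun_prop
  have hac : ∀ i, Continuous (a i) := by
    intro i
    have hne : ((i + 1 : ℕ) : ℂ) ≠ 0 := by exact_mod_cast (by omega : i + 1 ≠ 0)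
    simp only [ha]
    refine continuous_const.mul ?_
    refine Continuous.const_cpow ?_ (Or.inl hne)
    fun_prop
  have han : ∀ i y, ‖a i y‖ ≤ C₀ * ((i + 1 : ℕ) : ℝ) ^ (-(12 / 5 : ℝ)) := by
    intro i y
    exact K2b_term C₀ (d (i + 1)) hC₀ (i + 1) (by omega) (hd _ (by omega)) (t₀ + y)
  have hsum : ∀ y, Summable fun i => a i y := fun y =>
    Summable.of_norm_bounded hs12 (fun i => han i y)
  have htc : Continuous fun y => ∑' i, a i y := continuous_tsum hac hs12 han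
  -- the finite sum is an integral
  have hfin : ∑ m ∈ Finset.Icc 1 Z, (d m : ℂ) * xf σ₂ h₂ μ t₀ m r =
      ∫ y in (-h₂)..h₂, (∑ i ∈ Finset.range Z, a i y) * Kr y := by
    have e1 : ∑ m ∈ Finset.Icc 1 Z, (d m : ℂ) * xf σ₂ h₂ μ t₀ m r =
        ∑ i ∈ Finset.range Z, (d (i + 1) : ℂ) * xf σ₂ h₂ μ t₀ (i + 1) r := by
      have : Finset.Icc 1 Z = Finset.Ico (0 + 1) (Z + 1) := by
        ext x
        simp only [Finset.mem_Icc, Finset.mem_Ico]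
        omega
      rw [this, ← Finset.sum_Ico_add' (fun m => (d m : ℂ) * xf σ₂ h₂ μ t₀ m r) 0 Z 1,
        Finset.range_eq_Ico]
    rw [e1]
    have e2 : (fun y : ℝ => (∑ i ∈ Finset.range Z, a i y) * Kr y) =
        fun y => ∑ i ∈ Finset.range Z, a i y * Kr y := by
      funext y
      rw [Finset.sum_mul]
    have e4 : (∫ y in (-h₂)..h₂, ∑ i ∈ Finset.range Z, a i y * Kr y) =
        ∑ i ∈ Finset.range Z, ∫ y in (-h₂)..h₂, a i y * Kr y :=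
      intervalIntegral.integral_finsetSum (fun i _ => ((hac i).mul hKc).intervalIntegrable _ _)
    rw [e2, e4]
    refine Finset.sum_congr rfl fun i _ => ?_
    unfold xf Gf
    rw [← mul_assoc, ← intervalIntegral.integral_const_mul]
    refine intervalIntegral.integral_congr fun y _ => ?_
    simp only [ha, hKr]
    have := K2b_cpow (i + 1) (by omega) t₀ y r
    linear_combination (d (i + 1) : ℂ) * kap σ₂ h₂ μ (3 + y * I) * this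
  have hint1 : IntervalIntegrable (fun y => (∑ i ∈ Finset.range Z, a i y) * Kr y) volume (-h₂) h₂ :=
    ((continuous_finsetSum _ fun i _ => hac i).mul hKc).intervalIntegrable _ _
  have hint2 : IntervalIntegrable (fun y => (∑' i, a i y) * Kr y) volume (-h₂) h₂ :=
    (htc.mul hKc).intervalIntegrable _ _
  have hgoal : (∫ y in (-h₂)..h₂, (∑' m : ℕ, (d (m + 1) : ℂ) *
      ((m + 1 : ℕ) : ℂ) ^ (-(3 + ((t₀ + y : ℝ) : ℂ) * I))) *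
      (Complex.exp (-(r : ℂ) * (3 + y * I)) * kap σ₂ h₂ μ (3 + y * I))) =
      ∫ y in (-h₂)..h₂, (∑' i, a i y) * Kr y := rfl
  rw [hgoal, hfin, ← intervalIntegral.integral_sub hint1 hint2]
  have hb : ∀ y ∈ Set.uIoc (-h₂) h₂, ‖(∑ i ∈ Finset.range Z, a i y) * Kr y - (∑' i, a i y) * Kr y‖ ≤
      ∑' i : ℕ, C₀ * ((i + 1 : ℕ) : ℝ) ^ (-(7 / 5 : ℝ)) := by
    intro y _
    have e3 : (∑ i ∈ Finset.range Z, a i y) * Kr y - (∑' i, a i y) * Kr y =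
        -((∑' i, a (i + Z) y) * Kr y) := by
      rw [← (hsum y).sum_add_tsum_nat_add Z]
      ring
    rw [e3, norm_neg, norm_mul]
    have hsn : Summable fun i => ‖a (i + Z) y‖ :=
      (summable_nat_add_iff Z (f := fun i => ‖a i y‖)).2
        (Summable.of_nonneg_of_le (fun i => norm_nonneg _) (fun i => han i y) hs12)
    have hK := K2b_kap σ₂ h₂ μ hσ2 hh2 hμ Z hZ hμZ y r
    have hs7' : Summable fun i : ℕ => C₀ * ((i + Z + 1 : ℕ) : ℝ) ^ (-(7 / 5 : ℝ)) :=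
      (summable_nat_add_iff Z (f := fun i : ℕ => C₀ * ((i + 1 : ℕ) : ℝ) ^ (-(7 / 5 : ℝ)))).2 hs7
    calc ‖∑' i, a (i + Z) y‖ * ‖Kr y‖ ≤ (∑' i, ‖a (i + Z) y‖) * Z :=
          mul_le_mul (norm_tsum_le_tsum_norm hsn) hK (norm_nonneg _) (tsum_nonneg fun _ => norm_nonneg _)
      _ = ∑' i, ‖a (i + Z) y‖ * Z := by rw [tsum_mul_right]
      _ ≤ ∑' i : ℕ, C₀ * ((i + Z + 1 : ℕ) : ℝ) ^ (-(7 / 5 : ℝ)) := by
          refine Summable.tsum_le_tsum (fun i => ?_) (hsn.mul_right _) hs7'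
          have hpos : (0 : ℝ) < ((i + Z + 1 : ℕ) : ℝ) := by exact_mod_cast (by omega : 0 < i + Z + 1)
          have hZle : (Z : ℝ) ≤ ((i + Z + 1 : ℕ) : ℝ) := by exact_mod_cast (by omega : Z ≤ i + Z + 1)
          calc ‖a (i + Z) y‖ * Z ≤ (C₀ * ((i + Z + 1 : ℕ) : ℝ) ^ (-(12 / 5 : ℝ))) * ((i + Z + 1 : ℕ) : ℝ) :=
                mul_le_mul (han (i + Z) y) hZle (by positivity) (by positivity)
            _ = C₀ * (((i + Z + 1 : ℕ) : ℝ) ^ (-(12 / 5 : ℝ)) * ((i + Z + 1 : ℕ) : ℝ) ^ (1 : ℝ)) := by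
                rw [Real.rpow_one]
                ring
            _ = C₀ * ((i + Z + 1 : ℕ) : ℝ) ^ (-(7 / 5 : ℝ)) := by
                rw [← Real.rpow_add hpos]
                norm_num
      _ ≤ ∑' i : ℕ, C₀ * ((i + 1 : ℕ) : ℝ) ^ (-(7 / 5 : ℝ)) := by
          rw [← hs7.sum_add_tsum_nat_add Z]
          have : 0 ≤ ∑ i ∈ Finset.range Z, C₀ * ((i + 1 : ℕ) : ℝ) ^ (-(7 / 5 : ℝ)) :=
            Finset.sum_nonneg fun i _ => by positivity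
          linarith
  refine (intervalIntegral.norm_integral_le_of_norm_le_const hb).trans ?_
  have h1 : |h₂ - (-h₂)| ≤ 1 := by
    rw [abs_of_pos (by linarith)]
    linarith
  calc _ ≤ (∑' i : ℕ, C₀ * ((i + 1 : ℕ) : ℝ) ^ (-(7 / 5 : ℝ))) * 1 := mul_le_mul_of_nonneg_left h1 hS0
    _ ≤ _ := by linarith

/-- **K2**. -/
theorem s_K2 : S_K2 := by
  intro σ₁ σ₂ h h₂ C₀ hσ hσ12 hσ2 hh2 hh hhh hC₀
  obtain ⟨C, hC, hb⟩ := k2b σ₂ h₂ C₀ hσ2 hh2 hhh hC₀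
  refine ⟨C + 7, by linarith, ?_⟩
  intro Z μ t₀ B f d hZ hμ hB hμZ hf hfB hd hfd r
  have h1 := hb Z μ t₀ d hZ hμ hμZ hd r
  have h2 := k2a σ₁ σ₂ h h₂ hσ hσ12 hσ2 hh2 hh hhh μ t₀ B f hB hf hfB r
  have h3 : (∫ y in (-h₂)..h₂, (∑' m : ℕ, (d (m + 1) : ℂ) *
      ((m + 1 : ℕ) : ℂ) ^ (-(3 + ((t₀ + y : ℝ) : ℂ) * I))) *
      (Complex.exp (-(r : ℂ) * (3 + y * I)) * kap σ₂ h₂ μ (3 + y * I))) =
      ∫ y in (-h₂)..h₂, f (3 + ((t₀ + y : ℝ) : ℂ) * I) *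
      (Complex.exp (-(r : ℂ) * (3 + y * I)) * kap σ₂ h₂ μ (3 + y * I)) := by
    refine intervalIntegral.integral_congr fun y hy => ?_
    rw [Set.uIcc_of_le (by linarith)] at hy
    have := hfd (t₀ + y) (by
      rw [add_sub_cancel_left]
      exact abs_le.2 ⟨hy.1, hy.2⟩)
    rw [this]
  rw [h3] at h1
  have h4 := norm_le_norm_sub_add (∑ m ∈ Finset.Icc 1 Z, (d m : ℂ) * xf σ₂ h₂ μ t₀ m r)
    (∫ y in (-h₂)..h₂, f (3 + ((t₀ + y : ℝ) : ℂ) * I) *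
      (Complex.exp (-(r : ℂ) * (3 + y * I)) * kap σ₂ h₂ μ (3 + y * I)))
  have h5 : 0 ≤ C * B := by positivity
  have h6 : (C + 7) * (B + 1) = C * B + C + 7 * B + 7 := by ring
  rw [h6]
  linarith

end MP7ed9c3.Pz
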