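import Pool.Agent.Lib.MP_7ed9c3_nt.Pz.SpecK

/-!
# MP_7ed9c3_nt, part Pz, K1: shift of the line of integration
-/

set_option autoImplicit false

namespace MP7ed9c3.Pz

open MP7ed9c3

lemma Ksh_sinh (a b : ℝ) :
    Complex.sinh ((a:ℂ) + (b:ℂ) * Complex.I) =
      ((Real.sinh a * Real.cos b : ℝ):ℂ) + ((Real.cosh a * Real.sin b : ℝ):ℂ) * Complex.I := by
  rw [Complex.sinh_add, Complex.sinh_mul_I, Complex.cosh_mul_I]
  push_cast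
  ring

lemma Ksh_arg (σ₂ h₂ σ y : ℝ) :
    (Real.pi : ℂ) * ((σ:ℂ) + (y:ℂ) * Complex.I - (σ₂:ℂ)) / (2 * (h₂:ℂ)) =
      ((Real.pi * (σ - σ₂) / (2 * h₂) : ℝ) : ℂ) + ((Real.pi * y / (2 * h₂) : ℝ):ℂ) * Complex.I := by
  push_cast
  ring

/-- The value of the kernel. -/
lemma Ksh_kap (σ₂ h₂ μ σ y : ℝ) :
    kap σ₂ h₂ μ ((σ:ℂ) + (y:ℂ) * Complex.I) = Complex.exp
      (((μ * (Real.sinh (Real.pi * (σ - σ₂) / (2 * h₂)) * Real.cos (Real.pi * y / (2 * h₂))) : ℝ) : ℂ) +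
       ((μ * (Real.cosh (Real.pi * (σ - σ₂) / (2 * h₂)) * Real.sin (Real.pi * y / (2 * h₂))) : ℝ) : ℂ)
        * Complex.I) := by
  unfold kap
  rw [Ksh_arg, Ksh_sinh]
  congr 1
  push_cast
  ring

lemma Ksh_norm (σ₂ h₂ μ k σ y : ℝ) : ‖kin σ₂ h₂ μ k σ y‖ =
    Real.exp (-k * σ + μ * (Real.sinh (Real.pi * (σ - σ₂) / (2 * h₂)) *
      Real.cos (Real.pi * y / (2 * h₂)))) := by
  unfold kin
  rw [norm_mul, Ksh_kap, Complex.norm_exp, Complex.norm_exp, Real.exp_add]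
  congr 2
  · simp [Complex.mul_re]
  · rw [Complex.add_re, Complex.ofReal_re, Complex.re_ofReal_mul, Complex.I_re, mul_zero, add_zero]

lemma Ksh_cont (σ₂ h₂ μ k σ : ℝ) : Continuous (kin σ₂ h₂ μ k σ) := by
  unfold kin kap
  have := Complex.continuous_sinh
  fun_prop

theorem tKsh : S_Ksh := by
  intro σ₂ h₂ μ k σ hh hk
  refine ⟨Ksh_norm σ₂ h₂ μ k σ, Ksh_cont σ₂ h₂ μ k σ, fun hσ3 => ?_⟩
  set F : ℂ → ℂ := fun s => Complex.exp (-(k:ℂ) * s) * kap σ₂ h₂ μ s with hF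
  have hd : Differentiable ℂ F := by
    rw [hF]
    unfold kap
    have := Complex.differentiable_sinh
    fun_prop
  have hrect := Complex.integral_boundary_rect_eq_zero_of_differentiableOn F
    ((σ:ℂ) + ((-h₂:ℝ):ℂ) * Complex.I) ((3:ℂ) + ((h₂:ℝ):ℂ) * Complex.I) hd.differentiableOn
  have r1 : ((σ:ℂ) + ((-h₂:ℝ):ℂ) * Complex.I).re = σ := by simp
  have r2 : ((σ:ℂ) + ((-h₂:ℝ):ℂ) * Complex.I).im = -h₂ := by simp
  have r3 : ((3:ℂ) + ((h₂:ℝ):ℂ) * Complex.I).re = 3 := by simp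
  have r4 : ((3:ℂ) + ((h₂:ℝ):ℂ) * Complex.I).im = h₂ := by simp
  rw [r1, r2, r3, r4] at hrect
  have g1 : Gf σ₂ h₂ μ k = ∫ y in (-h₂)..h₂, F ((3:ℂ) + (y:ℂ) * Complex.I) := rfl
  have g2 : (∫ y in (-h₂)..h₂, kin σ₂ h₂ μ k σ y) =
    ∫ y in (-h₂)..h₂, F ((σ:ℂ) + (y:ℂ) * Complex.I) := rfl
  have key : Complex.I * (Gf σ₂ h₂ μ k - ∫ y in (-h₂)..h₂, kin σ₂ h₂ μ k σ y)
      = (∫ u in σ..3, F ((u:ℂ) + ((h₂:ℝ):ℂ) * Complex.I)) -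
        ∫ u in σ..3, F ((u:ℂ) + ((-h₂:ℝ):ℂ) * Complex.I) := by
    rw [g1, g2]
    simp only [smul_eq_mul, Complex.ofReal_ofNat] at hrect
    linear_combination hrect
  have nb : ∀ (t : ℝ), Real.cos (Real.pi * t / (2 * h₂)) = 0 →
      ‖∫ u in σ..3, F ((u:ℂ) + ((t:ℝ):ℂ) * Complex.I)‖ ≤ (3 - σ) * Real.exp (-k*σ) := by
    intro t ht
    have hb : ∀ u ∈ Set.uIoc σ 3, ‖F ((u:ℂ) + ((t:ℝ):ℂ) * Complex.I)‖ ≤ Real.exp (-k*σ) := by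
      intro u hu
      rw [Set.uIoc_of_le hσ3] at hu
      have : F ((u:ℂ) + ((t:ℝ):ℂ) * Complex.I) = kin σ₂ h₂ μ k u t := rfl
      rw [this, Ksh_norm, ht]
      apply Real.exp_le_exp.mpr
      nlinarith [hu.1]
    have := intervalIntegral.norm_integral_le_of_norm_le_const hb
    rw [abs_of_nonneg (by linarith)] at this
    linarith
  have e1 : Real.pi * h₂ / (2 * h₂) = Real.pi / 2 := by field_simp
  have e2 : Real.pi * (-h₂) / (2 * h₂) = -(Real.pi / 2) := by field_simp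
  have c1 : Real.cos (Real.pi * h₂ / (2 * h₂)) = 0 := by rw [e1]; exact Real.cos_pi_div_two
  have c2 : Real.cos (Real.pi * (-h₂) / (2 * h₂)) = 0 := by
    rw [e2, Real.cos_neg]; exact Real.cos_pi_div_two
  have n1 := nb h₂ c1
  have n2 := nb (-h₂) c2
  have : ‖Gf σ₂ h₂ μ k - ∫ y in (-h₂)..h₂, kin σ₂ h₂ μ k σ y‖ =
      ‖Complex.I * (Gf σ₂ h₂ μ k - ∫ y in (-h₂)..h₂, kin σ₂ h₂ μ k σ y)‖ := by
    rw [norm_mul, Complex.norm_I, one_mul]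
  rw [this, key]
  calc _ ≤ ‖∫ u in σ..3, F ((u:ℂ) + ((h₂:ℝ):ℂ) * Complex.I)‖ +
        ‖∫ u in σ..3, F ((u:ℂ) + ((-h₂:ℝ):ℂ) * Complex.I)‖ := norm_sub_le _ _
    _ ≤ (3 - σ) * Real.exp (-k*σ) + (3 - σ) * Real.exp (-k*σ) := add_le_add n1 n2
    _ = _ := by ring

end MP7ed9c3.Pz
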