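import Pool.Agent.Lib.MP_7ed9c3_nt.Pz.SpecMb
import Pool.Agent.Lib.MP_7ed9c3_nt.Tz.Equi

/-!
# MP_7ed9c3_nt, part Pz, module Mh (helper61): the average of a product of multiplicative functions
-/

set_option autoImplicit false

namespace MP7ed9c3.Pz

open MP7ed9c3.Tz

private noncomputable def Mh_f {ι κ : Type} [Fintype κ] (u : κ → ℕ → ℕ → (ι → ℤ) → ℝ) (m : κ → ℕ)
    (p : ℕ) (a : ι → ℤ) : ℝ :=
  ∏ i, if p ∣ m i then u i p ((m i).factorization p) a else 1

private noncomputable def Mh_H {κ : Type} [Fintype κ] (D : ℕ) (m : κ → ℕ) (p : ℕ) : ℝ :=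
  ∏ i, ((((m i).factorization p : ℕ) : ℝ) + 1) ^ D * √(p : ℝ) ^ ((m i).factorization p)

private theorem Mh_abs_mean {ι : Type} [Fintype ι] {p : ℕ} (hp : 0 < p) (h : (ι → ℤ) → ℝ) {B : ℝ}
    (hB : ∀ a, |h a| ≤ B) : |mean p h| ≤ B := by
  classical
  unfold mean
  have hc : (0 : ℝ) < (p : ℝ) ^ Fintype.card ι := by positivity
  rw [abs_div, abs_of_pos hc, div_le_iff₀ hc]
  refine (Finset.abs_sum_le_sum_abs _ _).trans ((Finset.sum_le_sum fun a _ => hB _).trans ?_)
  rw [Finset.sum_const, Finset.card_univ, Fintype.card_fun, Fintype.card_fin, nsmul_eq_mul]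
  push_cast
  rw [mul_comm]

private theorem Mh_mulf_prod {ι κ : Type} [Fintype κ] (u : κ → ℕ → ℕ → (ι → ℤ) → ℝ) (m : κ → ℕ)
    (hm : ∀ i, m i ≠ 0) (hc : ∀ i, (m i).Coprime 6) (a : ι → ℤ) :
    ∏ i, mulf (u i) (m i) a = ∏ p ∈ (∏ i, m i).primeFactors, Mh_f u m p a := by
  unfold Mh_f
  rw [Finset.prod_comm]
  refine Finset.prod_congr rfl fun i _ => ?_
  rw [mulf, if_pos (hc i)]
  have hsub : (m i).primeFactors ⊆ (∏ i, m i).primeFactors :=
    Nat.primeFactors_mono (Finset.dvd_prod_of_mem m (Finset.mem_univ i))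
      (Finset.prod_ne_zero_iff.mpr fun i _ => hm i)
  rw [← Finset.prod_subset hsub]
  · refine Finset.prod_congr rfl fun p hp => ?_
    rw [if_pos (Nat.dvd_of_mem_primeFactors hp)]
  · intro p hp hnp
    rw [if_neg]
    intro hd
    exact hnp (Nat.mem_primeFactors.mpr ⟨Nat.prime_of_mem_primeFactors hp, hd, hm i⟩)

private theorem Mh_f_per {ι κ : Type} [Fintype κ] {u : κ → ℕ → ℕ → (ι → ℤ) → ℝ} {m : κ → ℕ} {p : ℕ}
    (h : ∀ i j, Per p (u i p j)) : Per p (Mh_f u m p) := by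
  intro a b
  unfold Mh_f
  refine Finset.prod_congr rfl fun i _ => ?_
  split_ifs
  · exact h i _ a b
  · rfl

private theorem Mh_f_le {ι κ : Type} [Fintype κ] {u : κ → ℕ → ℕ → (ι → ℤ) → ℝ} {m : κ → ℕ} {p D : ℕ}
    (h : ∀ i j a, |u i p j a| ≤ ((j : ℝ) + 1) ^ D * √(p : ℝ) ^ j) (a : ι → ℤ) :
    |Mh_f u m p a| ≤ Mh_H D m p := by
  unfold Mh_f Mh_H
  rw [Finset.abs_prod]
  refine Finset.prod_le_prod (fun i _ => abs_nonneg _) fun i _ => ?_
  split_ifs with hd
  · exact h i _ a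
  · rw [Nat.factorization_eq_zero_of_not_dvd hd]
    simp

private theorem Mh_H_nonneg {κ : Type} [Fintype κ] (D : ℕ) (m : κ → ℕ) (p : ℕ) : 0 ≤ Mh_H D m p := by
  unfold Mh_H
  positivity

private theorem Mh_prodH {κ : Type} [Fintype κ] (D : ℕ) (m : κ → ℕ) (hm : ∀ i, m i ≠ 0) :
    ∏ p ∈ (∏ i, m i).primeFactors, Mh_H D m p ≤
      √((∏ i, m i : ℕ) : ℝ) * tc (D * Fintype.card κ) (∏ i, m i) := by
  have hM : (∏ i, m i) ≠ 0 := Finset.prod_ne_zero_iff.mpr fun i _ => hm i
  unfold Mh_H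
  rw [Finset.prod_comm]
  have h1 : ∀ i, ∏ p ∈ (∏ i, m i).primeFactors,
      (((((m i).factorization p : ℕ) : ℝ) + 1) ^ D * √(p : ℝ) ^ ((m i).factorization p)) =
        tc D (m i) * √((m i : ℕ) : ℝ) := by
    intro i
    have hsub : (m i).primeFactors ⊆ (∏ i, m i).primeFactors :=
      Nat.primeFactors_mono (Finset.dvd_prod_of_mem m (Finset.mem_univ i)) hM
    have h0 : ∀ p, p ∉ (m i).primeFactors → (m i).factorization p = 0 := by
      intro p hp
      exact Finsupp.notMem_support_iff.mp (by rwa [Nat.support_factorization])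
    rw [← Finset.prod_subset hsub
      (fun p _ hnp => by rw [h0 p hnp]; simp), Finset.prod_mul_distrib]
    congr 1
    · unfold tc
      rw [Nat.card_divisors (hm i)]
      push_cast
      rw [← Finset.prod_pow]
    · have e : ((m i : ℕ) : ℝ) = ∏ p ∈ (m i).primeFactors, (p : ℝ) ^ ((m i).factorization p) := by
        conv_lhs => rw [← Nat.prod_factorization_pow_eq_self (hm i)]
        rw [Finsupp.prod, Nat.support_factorization]
        push_cast
        rfl
      rw [e, Real.sqrt_prod _ (fun p _ => by positivity)]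
      refine Finset.prod_congr rfl fun p _ => ?_
      have h2 : (√(p : ℝ) ^ ((m i).factorization p)) ^ 2 = (p : ℝ) ^ ((m i).factorization p) := by
        rw [← pow_mul, mul_comm, pow_mul, Real.sq_sqrt (Nat.cast_nonneg _)]
      rw [← h2, Real.sqrt_sq (by positivity)]
  rw [Finset.prod_congr rfl fun i _ => h1 i, Finset.prod_mul_distrib, mul_comm]
  push_cast
  rw [Real.sqrt_prod _ (fun i _ => Nat.cast_nonneg _)]
  refine mul_le_mul_of_nonneg_left ?_ (by positivity)
  calc ∏ i, tc D (m i) ≤ ∏ _i : κ, tc D (∏ i, m i) := by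
        refine Finset.prod_le_prod (fun i _ => by unfold tc; positivity) fun i _ => ?_
        unfold tc
        refine pow_le_pow_left₀ (Nat.cast_nonneg _) ?_ D
        exact_mod_cast Finset.card_le_card
          (Nat.divisors_subset_of_dvd hM (Finset.dvd_prod_of_mem m (Finset.mem_univ i)))
    _ = tc (D * Fintype.card κ) (∏ i, m i) := by
        rw [Finset.prod_const, Finset.card_univ]
        unfold tc
        rw [pow_mul]

private theorem Mh_exact {ι κ : Type} [Fintype ι] [Fintype κ] {u : κ → ℕ → ℕ → (ι → ℤ) → ℝ}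
    {m : κ → ℕ} {p : ℕ} (hp : p.Prime) (hm : ∀ i, m i ≠ 0) (h : ∀ i, mean p (u i p 1) = 0)
    (h1 : (∏ i, m i).factorization p = 1) : mean p (Mh_f u m p) = 0 := by
  classical
  rw [Nat.factorization_prod (fun i _ => hm i), Finsupp.finset_sum_apply] at h1
  obtain ⟨i₀, hi₀⟩ : ∃ i, (m i).factorization p ≠ 0 := by
    by_contra hno
    push Not at hno
    rw [Finset.sum_eq_zero fun i _ => hno i] at h1
    exact absurd h1 (by norm_num)
  rw [← Finset.add_sum_erase _ _ (Finset.mem_univ i₀)] at h1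
  have h2 : (m i₀).factorization p = 1 := by omega
  have h3 : ∑ i ∈ Finset.univ.erase i₀, (m i).factorization p = 0 := by omega
  have h4 : Mh_f u m p = u i₀ p 1 := by
    funext a
    unfold Mh_f
    rw [Finset.prod_eq_single i₀]
    · rw [if_pos (Nat.dvd_of_factorization_pos (by omega)), h2]
    · intro j _ hj
      rw [if_neg]
      intro hd
      have h5 := Finset.sum_eq_zero_iff.mp h3 j (Finset.mem_erase.mpr ⟨hj, Finset.mem_univ j⟩)
      exact absurd h5 (hp.factorization_pos_of_dvd (hm j) hd).ne'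
    · intro hn
      exact absurd (Finset.mem_univ i₀) hn
  rw [h4]
  exact h i₀

theorem tMh : S_Mh := by
  classical
  intro ι κ _ _ D u m L A₀ hu hm hL
  have hM : (∏ i, m i) ≠ 0 := Finset.prod_ne_zero_iff.mpr fun i _ => hm i
  have hM1 : 1 ≤ ∏ i, m i := Nat.one_le_iff_ne_zero.mpr hM
  have hL1 : 1 ≤ L := hM1.trans hL
  have hLr : (0 : ℝ) < L := by exact_mod_cast hL1
  have hR : 0 ≤ (L : ℝ) ^ Fintype.card ι *
      (√((∏ i, m i : ℕ) : ℝ) * tc (D * Fintype.card κ) (∏ i, m i)) *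
        ((if Pw (∏ i, m i) then 1 else 0) + 2 * Fintype.card ι * ((∏ i, m i : ℕ) : ℝ) / L) := by
    have h1 : (0 : ℝ) ≤ (if Pw (∏ i, m i) then 1 else 0) := by split_ifs <;> norm_num
    have h2 : 0 ≤ tc (D * Fintype.card κ) (∏ i, m i) := by unfold tc; positivity
    positivity
  by_cases hc : ∀ i, (m i).Coprime 6
  swap
  · push Not at hc
    obtain ⟨i, hi⟩ := hc
    have h0 : bsum L A₀ (fun a => ∏ i, mulf (u i) (m i) a) = 0 := by
      unfold bsum
      refine Finset.sum_eq_zero fun a _ => ?_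
      refine Finset.prod_eq_zero (Finset.mem_univ i) ?_
      rw [mulf, if_neg hi]
    rw [h0, abs_zero]
    exact hR
  set T := (∏ i, m i).primeFactors with hT
  have hT3 : ∀ p ∈ T, p.Prime ∧ 3 < p := by
    intro p hp
    have hpp := Nat.prime_of_mem_primeFactors hp
    refine ⟨hpp, ?_⟩
    obtain ⟨i, _, hi⟩ := (Prime.dvd_finset_prod_iff hpp.prime _).mp (Nat.dvd_of_mem_primeFactors hp)
    have h6 : p.Coprime 6 := Nat.Coprime.coprime_dvd_left hi (hc i)
    by_contra hle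
    push Not at hle
    interval_cases p
    · exact absurd hpp (by norm_num)
    · exact absurd hpp (by norm_num)
    · exact absurd h6 (by norm_num)
    · exact absurd h6 (by norm_num)
  have hE := equi ι T (Mh_f u m) (Mh_H D m) L A₀ (fun p hp => ⟨(hT3 p hp).1,
    Mh_f_per (fun i j => (hu i p (hT3 p hp).1 (hT3 p hp).2).1 j),
    Mh_f_le (fun i j a => (hu i p (hT3 p hp).1 (hT3 p hp).2).2.1 j a)⟩)
    ((Nat.le_of_dvd (Nat.pos_of_ne_zero hM) (Nat.prod_primeFactors_dvd _)).trans hL)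
  have hfun : (fun a => ∏ i, mulf (u i) (m i) a) = (fun a => ∏ p ∈ T, Mh_f u m p a) :=
    funext fun a => Mh_mulf_prod u m hm hc a
  rw [hfun]
  set b := bsum L A₀ (fun a => ∏ p ∈ T, Mh_f u m p a) with hb
  set P := ∏ p ∈ T, Mh_H D m p with hP
  have hP0 : 0 ≤ P := Finset.prod_nonneg fun p _ => Mh_H_nonneg D m p
  have hPle := Mh_prodH D m hm
  rw [← hT, ← hP] at hPle
  have hmean : |∏ p ∈ T, mean p (Mh_f u m p)| ≤ P * (if Pw (∏ i, m i) then 1 else 0) := by
    by_cases hpw : Pw (∏ i, m i)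
    · rw [if_pos hpw, mul_one, Finset.abs_prod]
      exact Finset.prod_le_prod (fun p _ => abs_nonneg _) fun p hp =>
        Mh_abs_mean (hT3 p hp).1.pos _
          (Mh_f_le (fun i j a => (hu i p (hT3 p hp).1 (hT3 p hp).2).2.1 j a))
    · rw [if_neg hpw, mul_zero]
      unfold Pw at hpw
      push Not at hpw
      obtain ⟨p, hp, h1⟩ := hpw
      have hpT : p ∈ T := by
        rw [hT, Nat.mem_primeFactors]
        exact ⟨hp, Nat.dvd_of_factorization_pos (by omega), hM⟩
      rw [Finset.prod_eq_zero hpT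
        (Mh_exact hp hm (fun i => (hu i p hp (hT3 p hpT).2).2.2) h1), abs_zero]
  have hTM : ∏ p ∈ T, (p : ℝ) ≤ ((∏ i, m i : ℕ) : ℝ) := by
    have h := Nat.le_of_dvd (Nat.pos_of_ne_zero hM) (Nat.prod_primeFactors_dvd (∏ i, m i))
    rw [← Nat.cast_prod]
    exact Nat.cast_le.mpr h
  set q := ∏ p ∈ T, mean p (Mh_f u m p) with hq
  set Lr := (L : ℝ) ^ Fintype.card ι with hLrd
  have hLr0 : 0 ≤ Lr := by positivity
  set Mr := ((∏ i, m i : ℕ) : ℝ) with hMr
  have hMr0 : 0 ≤ Mr := Nat.cast_nonneg _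
  have h1 : |b - Lr * q| ≤ 2 * Fintype.card ι * Mr * Lr * P / L := by
    rw [le_div_iff₀ hLr]
    refine hE.trans ?_
    have : 2 * (Fintype.card ι : ℝ) * (∏ p ∈ T, (p : ℝ)) * Lr ≤ 2 * Fintype.card ι * Mr * Lr :=
      mul_le_mul_of_nonneg_right (mul_le_mul_of_nonneg_left hTM (by positivity)) hLr0
    exact mul_le_mul_of_nonneg_right this hP0
  set w : ℝ := (if Pw (∏ i, m i) then 1 else 0) with hw
  have hw0 : 0 ≤ w := by rw [hw]; split_ifs <;> norm_num
  calc |b| = |(b - Lr * q) + Lr * q| := by ring_nf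
    _ ≤ |b - Lr * q| + |Lr * q| := abs_add_le _ _
    _ ≤ 2 * Fintype.card ι * Mr * Lr * P / L + Lr * (P * w) := by
        rw [abs_mul, abs_of_nonneg hLr0]
        exact add_le_add h1 (mul_le_mul_of_nonneg_left hmean hLr0)
    _ = Lr * P * (w + 2 * Fintype.card ι * Mr / L) := by ring
    _ ≤ _ := by
        refine mul_le_mul_of_nonneg_right (mul_le_mul_of_nonneg_left hPle hLr0) ?_
        positivity

end MP7ed9c3.Pz
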