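import Pool.Agent.Lib.MP_7ed9c3_nt.Pz.SpecMb
import Pool.Agent.Lib.MP_7ed9c3_nt.Tz.Equi

/-!
# MP_7ed9c3_nt, part Pz.  Module Mk: the variance of the diagonal part
-/

set_option autoImplicit false

namespace MP7ed9c3.Pz

open MP7ed9c3.Tz

private theorem Mk_sum_const {ι : Type} [Fintype ι] [DecidableEq ι] (L : ℕ) (H : ℝ) :
    ∑ _a : ι → Fin L, H = (L : ℝ) ^ Fintype.card ι * H := by
  rw [Finset.sum_const, Finset.card_univ, Fintype.card_fun, Fintype.card_fin, nsmul_eq_mul]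
  push_cast
  ring

private theorem Mk_bsum_le {ι : Type} [Fintype ι] (L : ℕ) (A₀ : ι → ℤ) (F : (ι → ℤ) → ℝ) (H : ℝ)
    (hF : ∀ a, F a ≤ H) : bsum L A₀ F ≤ (L : ℝ) ^ Fintype.card ι * H := by
  classical
  rw [← Mk_sum_const (ι := ι) L H, EquiM.bsum_def]
  exact Finset.sum_le_sum fun a _ => hF _

private theorem Mk_mean_le {ι : Type} [Fintype ι] (p : ℕ) (hp : 0 < p) (F : (ι → ℤ) → ℝ) (H : ℝ)
    (hF : ∀ a, F a ≤ H) : mean p F ≤ H := by
  classical
  have hp' : (0 : ℝ) < (p : ℝ) ^ Fintype.card ι := pow_pos (by exact_mod_cast hp) _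
  rw [EquiM.mean_def, div_le_iff₀ hp', mul_comm, ← Mk_sum_const (ι := ι) p H]
  exact Finset.sum_le_sum fun a _ => hF _

private theorem Mk_mean_nonneg {ι : Type} [Fintype ι] (p : ℕ) (F : (ι → ℤ) → ℝ)
    (hF : ∀ a, 0 ≤ F a) : 0 ≤ mean p F := by
  classical
  rw [EquiM.mean_def]
  exact div_nonneg (Finset.sum_nonneg fun a _ => hF _) (by positivity)

private theorem Mk_mean_sub {ι : Type} [Fintype ι] (p : ℕ) (hp : 0 < p) (F : (ι → ℤ) → ℝ) (c : ℝ) :
    mean p (fun a => F a - c) = mean p F - c := by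
  classical
  have hp' : (0 : ℝ) < (p : ℝ) ^ Fintype.card ι := pow_pos (by exact_mod_cast hp) _
  rw [EquiM.mean_def, EquiM.mean_def, Finset.sum_sub_distrib, Mk_sum_const (ι := ι) p c]
  field_simp

private theorem Mk_sq {ι : Type} [Fintype ι] (L : ℕ) (A₀ : ι → ℤ) (P : Finset ℕ)
    (h : ℕ → (ι → ℤ) → ℝ) (κ : ℕ → ℝ) :
    bsum L A₀ (fun a => (∑ p ∈ P, h p a * κ p) ^ 2) =
      ∑ p ∈ P, ∑ l ∈ P, κ p * κ l * bsum L A₀ (fun a => h p a * h l a) := by
  classical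
  simp only [EquiM.bsum_def, Finset.mul_sum]
  rw [Finset.sum_congr rfl fun p _ => Finset.sum_comm, Finset.sum_comm]
  refine Finset.sum_congr rfl fun a _ => ?_
  rw [sq, Finset.sum_mul_sum]
  exact Finset.sum_congr rfl fun p _ => Finset.sum_congr rfl fun l _ => by ring

theorem tMk : S_Mk := by
  classical
  intro ι _ D β ν hL z Z L A₀ κ C₁ hz hZL hκ
  obtain ⟨h, hh⟩ : ∃ h : ℕ → (ι → ℤ) → ℝ,
      h = fun p a => β p 1 a ^ 2 - mean p (fun b => β p 1 b ^ 2) := ⟨_, rfl⟩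
  have hP : ∀ p ∈ pr z Z, p.Prime ∧ z < p ∧ p ≤ Z := by
    intro p hp
    rw [pr, Finset.mem_filter, Finset.mem_Ioc] at hp
    exact ⟨hp.2, hp.1.1, hp.1.2⟩
  have hb : ∀ p ∈ pr z Z, ∀ a, β p 1 a ^ 2 ≤ 4 ^ D * p := by
    intro p hp a
    obtain ⟨h1, h2, h3⟩ := hP p hp
    have h4 := ((hL p h1 (by omega)).2.2.1 1 a).1
    have h5 : (1 : ℕ) + (1 : ℝ) = 2 := by norm_num
    rw [h5, pow_one] at h4
    have h6 : |β p 1 a| ^ 2 ≤ (2 ^ D * √(p : ℝ)) ^ 2 := pow_le_pow_left₀ (abs_nonneg _) h4 2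
    rw [sq_abs, mul_pow, Real.sq_sqrt (Nat.cast_nonneg p), ← pow_mul, mul_comm D 2, pow_mul] at h6
    norm_num at h6
    exact h6
  have hh1 : ∀ p ∈ pr z Z, Per p (h p) := by
    intro p hp a b
    obtain ⟨h1, h2, h3⟩ := hP p hp
    have h4 := ((hL p h1 (by omega)).1 1).1 a b
    rw [hh]
    show β p 1 (a + (p : ℤ) • b) ^ 2 - _ = β p 1 a ^ 2 - _
    rw [h4]
  have hh2 : ∀ p ∈ pr z Z, ∀ a, |h p a| ≤ 4 ^ D * p := by
    intro p hp a
    have h1 := hb p hp a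
    have h2 := Mk_mean_nonneg p (fun b => β p 1 b ^ 2) (fun b => sq_nonneg _)
    have h3 := Mk_mean_le p (hP p hp).1.pos (fun b => β p 1 b ^ 2) _ (hb p hp)
    have h4 := sq_nonneg (β p 1 a)
    rw [hh, abs_le]
    constructor
    · show -(4 ^ D * (p : ℝ)) ≤ β p 1 a ^ 2 - _
      linarith
    · show β p 1 a ^ 2 - _ ≤ _
      linarith
  have hh3 : ∀ p ∈ pr z Z, mean p (h p) = 0 := by
    intro p hp
    rw [hh]
    show mean p (fun a => β p 1 a ^ 2 - _) = 0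
    rw [Mk_mean_sub p (hP p hp).1.pos, sub_self]
  have hsq := Mk_sq L A₀ (pr z Z) h κ
  have hgoal : bsum L A₀ (fun a => (∑ p ∈ pr z Z,
      (β p 1 a ^ 2 - mean p (fun b => β p 1 b ^ 2)) * κ p) ^ 2) =
      ∑ p ∈ pr z Z, ∑ l ∈ pr z Z, κ p * κ l * bsum L A₀ (fun a => h p a * h l a) := by
    rw [← hsq, hh]
  rw [hgoal]
  have h16 : (16 : ℝ) ^ D = 4 ^ D * 4 ^ D := by
    rw [← mul_pow]
    norm_num
  have hn : (0 : ℝ) ≤ (L : ℝ) ^ Fintype.card ι := by positivity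
  -- the diagonal terms
  have hdiag : ∀ p ∈ pr z Z, κ p * κ p * bsum L A₀ (fun a => h p a * h p a) ≤
      16 ^ D * C₁ ^ 2 * (L : ℝ) ^ Fintype.card ι * ((p : ℝ) ^ 2)⁻¹ := by
    intro p hp
    have hp0 : (0 : ℝ) < p := by exact_mod_cast (hP p hp).1.pos
    have h1 : κ p * κ p ≤ (C₁ / (p : ℝ) ^ 2) * (C₁ / (p : ℝ) ^ 2) := by
      have h2 := hκ p hp
      calc κ p * κ p = |κ p| * |κ p| := (abs_mul_abs_self _).symm
        _ ≤ _ := mul_le_mul h2 h2 (abs_nonneg _) ((abs_nonneg _).trans h2)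
    have h3 : bsum L A₀ (fun a => h p a * h p a) ≤
        (L : ℝ) ^ Fintype.card ι * ((4 ^ D * p) * (4 ^ D * p)) := by
      refine Mk_bsum_le L A₀ _ _ fun a => ?_
      have h2 := hh2 p hp a
      calc h p a * h p a = |h p a| * |h p a| := (abs_mul_abs_self _).symm
        _ ≤ _ := mul_le_mul h2 h2 (abs_nonneg _) ((abs_nonneg _).trans h2)
    have h4 : κ p * κ p * bsum L A₀ (fun a => h p a * h p a) ≤
        κ p * κ p * ((L : ℝ) ^ Fintype.card ι * ((4 ^ D * p) * (4 ^ D * p))) :=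
      mul_le_mul_of_nonneg_left h3 (mul_self_nonneg _)
    have h5 : κ p * κ p * ((L : ℝ) ^ Fintype.card ι * ((4 ^ D * p) * (4 ^ D * p))) ≤
        (C₁ / (p : ℝ) ^ 2) * (C₁ / (p : ℝ) ^ 2) *
          ((L : ℝ) ^ Fintype.card ι * ((4 ^ D * p) * (4 ^ D * p))) :=
      mul_le_mul_of_nonneg_right h1 (by positivity)
    refine (h4.trans h5).trans (le_of_eq ?_)
    rw [h16]
    field_simp
  -- the other terms
  have hoff : ∀ p ∈ pr z Z, ∀ l ∈ pr z Z, p ≠ l →
      κ p * κ l * bsum L A₀ (fun a => h p a * h l a) ≤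
      16 ^ D * C₁ ^ 2 * (L : ℝ) ^ Fintype.card ι * (2 * Fintype.card ι / L) := by
    intro p hp l hl hpl
    have hp0 : (0 : ℝ) < p := by exact_mod_cast (hP p hp).1.pos
    have hl0 : (0 : ℝ) < l := by exact_mod_cast (hP l hl).1.pos
    have hLn : p * l ≤ L := by
      have h1 := (hP p hp).2.2
      have h2 := (hP l hl).2.2
      calc p * l ≤ Z * Z := Nat.mul_le_mul h1 h2
        _ = Z ^ 2 := (sq Z).symm
        _ ≤ L := hZL
    have hL0 : (0 : ℝ) < L := by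
      have h1 : 0 < p * l := Nat.mul_pos (hP p hp).1.pos (hP l hl).1.pos
      exact_mod_cast lt_of_lt_of_le h1 hLn
    have he := equi ι {p, l} h (fun q => 4 ^ D * (q : ℝ)) L A₀ (by
      intro q hq
      rw [Finset.mem_insert, Finset.mem_singleton] at hq
      rcases hq with rfl | rfl
      · exact ⟨(hP _ hp).1, hh1 _ hp, hh2 _ hp⟩
      · exact ⟨(hP _ hl).1, hh1 _ hl, hh2 _ hl⟩) (by
      rw [Finset.prod_pair hpl]
      exact hLn)
    simp only [Finset.prod_pair hpl] at he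
    rw [hh3 p hp, zero_mul, mul_zero, sub_zero] at he
    have h1 : |κ p * κ l| ≤ (C₁ / (p : ℝ) ^ 2) * (C₁ / (l : ℝ) ^ 2) := by
      rw [abs_mul]
      exact mul_le_mul (hκ p hp) (hκ l hl) (abs_nonneg _) ((abs_nonneg _).trans (hκ p hp))
    have h2 : |bsum L A₀ (fun a => h p a * h l a)| ≤
        2 * Fintype.card ι * ((p : ℝ) * l) * (L : ℝ) ^ Fintype.card ι *
          ((4 ^ D * p) * (4 ^ D * l)) / L := by
      rw [le_div_iff₀ hL0]
      exact he
    calc κ p * κ l * bsum L A₀ (fun a => h p a * h l a)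
        ≤ |κ p * κ l * bsum L A₀ (fun a => h p a * h l a)| := le_abs_self _
      _ = |κ p * κ l| * |bsum L A₀ (fun a => h p a * h l a)| := abs_mul _ _
      _ ≤ (C₁ / (p : ℝ) ^ 2) * (C₁ / (l : ℝ) ^ 2) *
          (2 * Fintype.card ι * ((p : ℝ) * l) * (L : ℝ) ^ Fintype.card ι *
          ((4 ^ D * p) * (4 ^ D * l)) / L) :=
        mul_le_mul h1 h2 (abs_nonneg _) ((abs_nonneg _).trans h1)
      _ = _ := by
        rw [h16]
        field_simp
  -- all terms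
  have hall : ∀ p ∈ pr z Z, ∑ l ∈ pr z Z, κ p * κ l * bsum L A₀ (fun a => h p a * h l a) ≤
      16 ^ D * C₁ ^ 2 * (L : ℝ) ^ Fintype.card ι * ((p : ℝ) ^ 2)⁻¹ +
      Z * (16 ^ D * C₁ ^ 2 * (L : ℝ) ^ Fintype.card ι * (2 * Fintype.card ι / L)) := by
    intro p hp
    rw [← Finset.add_sum_erase _ _ hp]
    refine add_le_add (hdiag p hp) ?_
    have h1 : ∀ l ∈ (pr z Z).erase p, κ p * κ l * bsum L A₀ (fun a => h p a * h l a) ≤
        16 ^ D * C₁ ^ 2 * (L : ℝ) ^ Fintype.card ι * (2 * Fintype.card ι / L) := by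
      intro l hl
      rw [Finset.mem_erase] at hl
      exact hoff p hp l hl.2 (Ne.symm hl.1)
    refine (Finset.sum_le_card_nsmul _ _ _ h1).trans ?_
    rw [nsmul_eq_mul]
    refine mul_le_mul_of_nonneg_right ?_ (by positivity)
    have h2 : ((pr z Z).erase p).card ≤ Z := by
      refine (Finset.card_le_card (Finset.erase_subset _ _)).trans ?_
      refine (Finset.card_filter_le _ _).trans ?_
      rw [Nat.card_Ioc]
      exact Nat.sub_le _ _
    exact_mod_cast h2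
  refine (Finset.sum_le_sum hall).trans ?_
  rw [Finset.sum_add_distrib, ← Finset.mul_sum, Finset.sum_const, nsmul_eq_mul, mul_add, add_comm,
    add_comm (16 ^ D * C₁ ^ 2 * (L : ℝ) ^ Fintype.card ι * (1 / (z : ℝ)))]
  have hc : ((pr z Z).card : ℝ) ≤ Z := by
    have h2 : (pr z Z).card ≤ Z := by
      refine (Finset.card_filter_le _ _).trans ?_
      rw [Nat.card_Ioc]
      exact Nat.sub_le _ _
    exact_mod_cast h2
  refine add_le_add ?_ ?_
  · calc ((pr z Z).card : ℝ) *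
          (Z * (16 ^ D * C₁ ^ 2 * (L : ℝ) ^ Fintype.card ι * (2 * Fintype.card ι / L)))
        ≤ Z * (Z * (16 ^ D * C₁ ^ 2 * (L : ℝ) ^ Fintype.card ι * (2 * Fintype.card ι / L))) :=
          mul_le_mul_of_nonneg_right hc (by positivity)
      _ = _ := by ring
  · refine mul_le_mul_of_nonneg_left ?_ (by positivity)
    rcases le_total z Z with hzZ | hzZ
    · have h1 : ∑ p ∈ pr z Z, ((p : ℝ) ^ 2)⁻¹ ≤ ∑ p ∈ Finset.Ioc z Z, ((p : ℝ) ^ 2)⁻¹ :=
        Finset.sum_le_sum_of_subset_of_nonneg (Finset.filter_subset _ _)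
          (fun _ _ _ => by positivity)
      have h2 := sum_Ioc_inv_sq_le_sub (α := ℝ) (k := z) (n := Z) (by omega) hzZ
      have h3 : (0 : ℝ) ≤ (Z : ℝ)⁻¹ := by positivity
      rw [one_div]
      linarith
    · have h1 : pr z Z = ∅ := by
        rw [pr, Finset.Ioc_eq_empty (by omega), Finset.filter_empty]
      rw [h1, Finset.sum_empty]
      positivity

end MP7ed9c3.Pz
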