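import Pool.Agent.Lib.MP_7ed9c3_nt.Pz.SpecMb

/-!
# MP_7ed9c3_nt, part Pz.  Ml: the off-diagonal part (from `S_Mb`, `S_Mi`)
-/

set_option autoImplicit false

namespace MP7ed9c3.Pz

open MP7ed9c3.Tz

private lemma Ml_expand {ι α : Type} [Fintype ι] (L : ℕ) (A₀ : ι → ℤ) (T : Finset α) (w : α → ℝ)
    (f : α → (ι → ℤ) → ℝ) :
    bsum L A₀ (fun a => (∑ x ∈ T, w x * f x a) ^ 2) =
      ∑ x ∈ T, ∑ y ∈ T, w x * w y * bsum L A₀ (fun a => f x a * f y a) := by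
  classical
  unfold bsum
  have h1 : ∀ a : ι → Fin L, (∑ x ∈ T, w x * f x (fun i => A₀ i + ((a i : ℕ) : ℤ))) ^ 2 =
      ∑ x ∈ T, ∑ y ∈ T, (w x * f x (fun i => A₀ i + ((a i : ℕ) : ℤ))) *
        (w y * f y (fun i => A₀ i + ((a i : ℕ) : ℤ))) := by
    intro a
    rw [sq, Finset.sum_mul_sum]
  rw [Finset.sum_congr rfl fun a _ => h1 a, Finset.sum_comm]
  refine Finset.sum_congr rfl fun x _ => ?_
  rw [Finset.sum_comm]
  refine Finset.sum_congr rfl fun y _ => ?_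
  rw [Finset.mul_sum]
  refine Finset.sum_congr rfl fun a _ => ?_
  ring

private lemma Ml_off (P : Finset ℕ) (g : ℕ → ℕ → ℝ) :
    ∑ p ∈ P, ∑ l ∈ P.erase p, g p l = ∑ x ∈ P.offDiag, g x.1 x.2 := by
  have h : P.offDiag = (P ×ˢ P).filter (fun x => x.1 ≠ x.2) := by
    ext x
    rw [Finset.mem_offDiag, Finset.mem_filter, Finset.mem_product, and_assoc]
  rw [h, Finset.sum_filter, Finset.sum_product]
  refine Finset.sum_congr rfl fun p _ => ?_
  rw [← Finset.filter_ne, Finset.sum_filter]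

private lemma Ml_tc (C p l p' l' : ℕ) (hp : p.Prime) (hl : l.Prime) (hp' : p'.Prime)
    (hl' : l'.Prime) : tc C (p * l * p' * l') ≤ 16 ^ C := by
  classical
  have h2 : ∀ q : ℕ, q.Prime → q.divisors.card = 2 := by
    intro q hq
    rw [hq.divisors, Finset.card_pair hq.one_lt.ne]
  have hmul : ∀ a b : ℕ, (a * b).divisors.card ≤ a.divisors.card * b.divisors.card := by
    intro a b
    rw [Nat.divisors_mul]
    exact Finset.card_mul_le
  have h3 : (p * l * p' * l').divisors.card ≤ 16 := by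
    refine (hmul _ _).trans ?_
    have h4 := hmul (p * l) p'
    have h5 := hmul p l
    rw [h2 p hp, h2 l hl] at h5
    rw [h2 p' hp'] at h4
    rw [h2 l' hl']
    omega
  unfold tc
  have h6 : ((p * l * p' * l').divisors.card : ℝ) ≤ 16 := by exact_mod_cast h3
  exact pow_le_pow_left₀ (Nat.cast_nonneg _) h6 C

private lemma Ml_pw (p l p' l' : ℕ) (hp : p.Prime) (hl : l.Prime) (hp' : p'.Prime)
    (hl' : l'.Prime) (h1 : p ≠ l) (h : Pw (p * l * p' * l')) :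
    (p' = p ∧ l' = l) ∨ (p' = l ∧ l' = p) := by
  have hf : ∀ q, (p * l * p' * l').factorization q = (if p = q then 1 else 0) +
      (if l = q then 1 else 0) + (if p' = q then 1 else 0) + (if l' = q then 1 else 0) := by
    intro q
    rw [Nat.factorization_mul (mul_ne_zero (mul_ne_zero hp.ne_zero hl.ne_zero) hp'.ne_zero)
      hl'.ne_zero, Nat.factorization_mul (mul_ne_zero hp.ne_zero hl.ne_zero) hp'.ne_zero,
      Nat.factorization_mul hp.ne_zero hl.ne_zero, hp.factorization, hl.factorization,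
      hp'.factorization, hl'.factorization]
    simp only [Finsupp.add_apply, Finsupp.single_apply]
  have h3 := h p hp
  have h4 := h l hl
  rw [hf, if_pos rfl, if_neg h1.symm] at h3
  rw [hf, if_neg h1, if_pos rfl] at h4
  by_cases h5 : p' = p
  · left
    refine ⟨h5, ?_⟩
    by_contra h6
    have h7 : p' ≠ l := by
      rw [h5]
      exact h1
    rw [if_neg h7, if_neg h6] at h4
    exact h4 rfl
  · right
    rw [if_neg h5] at h3
    have h6 : l' = p := by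
      by_contra h7
      rw [if_neg h7] at h3
      exact h3 rfl
    refine ⟨?_, h6⟩
    by_contra h7
    have h8 : l' ≠ l := by
      rw [h6]
      exact h1
    rw [if_neg h7, if_neg h8] at h4
    exact h4 rfl

/-- The sum of the squares. -/
private lemma Ml_diag (hMb : S_Mb) (z Z : ℕ) (K : ℕ → ℕ → ℝ) (C₁ ε W u : ℝ) (hε : 0 ≤ ε)
    (hC₁ : 0 ≤ C₁) (hW : 0 ≤ W) (hu1 : 1 ≤ u) (hu2 : u ≤ Real.log ((z : ℝ) + 1))
    (hKb : Kbd Z C₁ ε W K) :
    ∑ x ∈ (pr z Z).offDiag, K x.1 x.2 ^ 2 * ((x.1 : ℝ) * x.2) ≤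
      8 * (C₁ ^ 2 * ((W + 1) / u) * ∑ p ∈ pr z Z, (1 : ℝ) / p) +
        ε ^ 2 * (∑ p ∈ pr z Z, (1 : ℝ) / p) ^ 2 := by
  classical
  have hmem : ∀ p ∈ pr z Z, p.Prime ∧ z < p ∧ p ≤ Z := by
    intro p hp
    unfold pr at hp
    rw [Finset.mem_filter, Finset.mem_Ioc] at hp
    exact ⟨hp.2, hp.1.1, hp.1.2⟩
  have h1 : ∑ x ∈ (pr z Z).offDiag, K x.1 x.2 ^ 2 * ((x.1 : ℝ) * x.2) ≤
      ∑ x ∈ (pr z Z) ×ˢ (pr z Z), ((if |Real.log (x.2 : ℕ) - Real.log (x.1 : ℕ)| ≤ W then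
        C₁ ^ 2 * (1 / (x.1 : ℝ)) * (1 / (x.2 : ℝ)) else 0) +
          ε ^ 2 * (1 / (x.1 : ℝ)) * (1 / (x.2 : ℝ))) := by
    refine (Finset.sum_le_sum fun x hx => ?_).trans
      (Finset.sum_le_sum_of_subset_of_nonneg (s := (pr z Z).offDiag) ?_ fun x _ _ => ?_)
    · rw [Finset.mem_offDiag] at hx
      obtain ⟨hp, hzp, hpZ⟩ := hmem _ hx.1
      obtain ⟨hl, hzl, hlZ⟩ := hmem _ hx.2.1
      have hp0 : (0 : ℝ) < (x.1 : ℝ) := by exact_mod_cast hp.pos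
      have hl0 : (0 : ℝ) < (x.2 : ℝ) := by exact_mod_cast hl.pos
      obtain ⟨k1, k2⟩ := hKb x.1 (Finset.mem_Icc.mpr ⟨hp.pos, hpZ⟩) x.2
        (Finset.mem_Icc.mpr ⟨hl.pos, hlZ⟩)
      have key : ∀ c : ℝ, 0 ≤ c → |K x.1 x.2| ≤ c / ((x.1 : ℝ) * x.2) →
          K x.1 x.2 ^ 2 * ((x.1 : ℝ) * x.2) ≤ c ^ 2 * (1 / (x.1 : ℝ)) * (1 / (x.2 : ℝ)) := by
        intro c hc h
        have h3 : K x.1 x.2 ^ 2 ≤ (c / ((x.1 : ℝ) * x.2)) ^ 2 := by
          rw [← sq_abs (K x.1 x.2)]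
          exact pow_le_pow_left₀ (abs_nonneg _) h 2
        have h4 : (c / ((x.1 : ℝ) * x.2)) ^ 2 * ((x.1 : ℝ) * x.2) =
            c ^ 2 * (1 / (x.1 : ℝ)) * (1 / (x.2 : ℝ)) := by
          field_simp
        rw [← h4]
        exact mul_le_mul_of_nonneg_right h3 (by positivity)
      by_cases hc : |Real.log (x.2 : ℕ) - Real.log (x.1 : ℕ)| ≤ W
      · rw [if_pos hc]
        have h5 := key C₁ hC₁ k1
        have h6 : 0 ≤ ε ^ 2 * (1 / (x.1 : ℝ)) * (1 / (x.2 : ℝ)) := by positivity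
        linarith
      · rw [if_neg hc, zero_add]
        have hc' : W < |Real.log (x.1 : ℕ) - Real.log (x.2 : ℕ)| := by
          rw [abs_sub_comm]
          exact not_le.mp hc
        exact key ε hε (k2 hc')
    · intro x hx
      rw [Finset.mem_offDiag] at hx
      exact Finset.mem_product.mpr ⟨hx.1, hx.2.1⟩
    · split_ifs <;> positivity
  refine h1.trans ?_
  rw [Finset.sum_add_distrib, Finset.sum_product, Finset.sum_product]
  refine add_le_add ?_ ?_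
  · have h2 : ∀ p ∈ pr z Z, ∑ l ∈ pr z Z, (if |Real.log (l : ℕ) - Real.log (p : ℕ)| ≤ W then
        C₁ ^ 2 * (1 / (p : ℝ)) * (1 / (l : ℝ)) else 0) ≤
          C₁ ^ 2 * (1 / (p : ℝ)) * (8 * (W + 1) / u) := by
      intro p hp
      rw [← Finset.sum_filter, ← Finset.mul_sum]
      refine mul_le_mul_of_nonneg_left (hMb u (Real.log p) W _ hu1 hW ?_) (by positivity)
      intro l hl
      rw [Finset.mem_filter] at hl
      obtain ⟨h3, h4, -⟩ := hmem l hl.1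
      refine ⟨h3, hu2.trans (Real.log_le_log (by positivity) ?_), hl.2⟩
      exact_mod_cast h4
    refine (Finset.sum_le_sum h2).trans_eq ?_
    rw [← Finset.sum_mul, ← Finset.mul_sum]
    ring
  · refine le_of_eq ?_
    have h2 : ∀ p ∈ pr z Z, ∑ l ∈ pr z Z, ε ^ 2 * (1 / (p : ℝ)) * (1 / (l : ℝ)) =
        ε ^ 2 * (1 / (p : ℝ)) * ∑ l ∈ pr z Z, (1 : ℝ) / l := by
      intro p _
      rw [Finset.mul_sum]
    rw [Finset.sum_congr rfl h2, ← Finset.sum_mul, ← Finset.mul_sum]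
    ring

private lemma Ml_card (z Z : ℕ) : ((pr z Z).offDiag.card : ℝ) ≤ (Z : ℝ) ^ 2 := by
  have h1 : (pr z Z).card ≤ (Finset.Ioc z Z).card := Finset.card_filter_le _ _
  rw [Nat.card_Ioc] at h1
  have h2 : (pr z Z).card ≤ Z := h1.trans (Nat.sub_le _ _)
  have h3 : (pr z Z).offDiag.card ≤ Z * Z := by
    rw [Finset.offDiag_card]
    exact (Nat.sub_le _ _).trans (Nat.mul_le_mul h2 h2)
  rw [sq]
  exact_mod_cast h3

theorem tMl (hMb : S_Mb) (hMi : S_Mi) : S_Ml := by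
  classical
  intro ι _ D
  obtain ⟨n, hn⟩ : ∃ n : ℕ, Fintype.card ι = n := ⟨_, rfl⟩
  obtain ⟨T, hT⟩ : ∃ T : ℝ, (16 : ℝ) ^ (8 * D + 4) = T := ⟨_, rfl⟩
  have hT0 : 0 < T := by
    rw [← hT]
    positivity
  refine ⟨T * (16 + 2 * n), by positivity, ?_⟩
  intro β ν hLD z X Z L A₀ K C₁ ε W u hz hZL hε hC₁ hW hu1 hu2 hK hKb
  rw [hn]
  have hmem : ∀ p ∈ pr z Z, p.Prime ∧ z < p ∧ p ≤ Z := by
    intro p hp
    unfold pr at hp
    rw [Finset.mem_filter, Finset.mem_Ioc] at hp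
    exact ⟨hp.2, hp.1.1, hp.1.2⟩
  have hsum : (fun a => (∑ p ∈ pr z Z, ∑ l ∈ (pr z Z).erase p,
      dco β ν z X p a * dco β ν z X l a * K p l) ^ 2) =
      fun a => (∑ x ∈ (pr z Z).offDiag,
        K x.1 x.2 * (dco β ν z X x.1 a * dco β ν z X x.2 a)) ^ 2 := by
    funext a
    rw [Ml_off (pr z Z) (fun p l => dco β ν z X p a * dco β ν z X l a * K p l)]
    congr 1
    exact Finset.sum_congr rfl fun x _ => mul_comm _ _
  rw [hsum, Ml_expand L A₀ (pr z Z).offDiag (fun x => K x.1 x.2)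
    (fun x a => dco β ν z X x.1 a * dco β ν z X x.2 a)]
  obtain ⟨A, hA⟩ : ∃ A : ℝ, (L : ℝ) ^ n = A := ⟨_, rfl⟩
  have hA0 : 0 ≤ A := by
    rw [← hA]
    positivity
  rw [hA]
  obtain ⟨O, hO⟩ : ∃ O : Finset (ℕ × ℕ), (pr z Z).offDiag = O := ⟨_, rfl⟩
  have hterm : ∀ x ∈ O, ∀ y ∈ O, K x.1 x.2 * K y.1 y.2 * bsum L A₀ (fun a =>
      dco β ν z X x.1 a * dco β ν z X x.2 a * (dco β ν z X y.1 a * dco β ν z X y.2 a)) ≤
      A * T * ((if y = x then K x.1 x.2 ^ 2 * ((x.1 : ℝ) * x.2) else 0) +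
        (if y = x.swap then K x.1 x.2 ^ 2 * ((x.1 : ℝ) * x.2) else 0) +
          2 * n * C₁ ^ 2 * (Z : ℝ) ^ 2 / L) := by
    intro x hx y hy
    rw [← hO, Finset.mem_offDiag] at hx hy
    obtain ⟨hx1, hx2, hx3⟩ := hx
    obtain ⟨hy1, hy2, hy3⟩ := hy
    obtain ⟨p, l⟩ := x
    obtain ⟨p', l'⟩ := y
    simp only at hx1 hx2 hx3 hy1 hy2 hy3 ⊢
    obtain ⟨hp, -, hpZ⟩ := hmem p hx1
    obtain ⟨hl, -, hlZ⟩ := hmem l hx2
    obtain ⟨hp', -, hpZ'⟩ := hmem p' hy1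
    obtain ⟨hl', -, hlZ'⟩ := hmem l' hy2
    have hp0 : (0 : ℝ) < (p : ℝ) := by exact_mod_cast hp.pos
    have hl0 : (0 : ℝ) < (l : ℝ) := by exact_mod_cast hl.pos
    have hp0' : (0 : ℝ) < (p' : ℝ) := by exact_mod_cast hp'.pos
    have hl0' : (0 : ℝ) < (l' : ℝ) := by exact_mod_cast hl'.pos
    have hM4 : p * l * p' * l' ≤ Z ^ 4 := by
      calc p * l * p' * l' ≤ Z * Z * Z * Z :=
            Nat.mul_le_mul (Nat.mul_le_mul (Nat.mul_le_mul hpZ hlZ) hpZ') hlZ'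
        _ = Z ^ 4 := by ring
    have hMi' := hMi ι D β ν hLD z X L A₀ ![p, l, p', l'] (by
      intro i
      fin_cases i
      · exact hp.ne_zero
      · exact hl.ne_zero
      · exact hp'.ne_zero
      · exact hl'.ne_zero) (by
      rw [Fin.prod_univ_four]
      exact hM4.trans hZL)
    simp only [Fin.prod_univ_four] at hMi'
    change |bsum L A₀ (fun a => dco β ν z X p a * dco β ν z X l a * dco β ν z X p' a *
      dco β ν z X l' a)| ≤ (L : ℝ) ^ Fintype.card ι * (√((p * l * p' * l' : ℕ) : ℝ) *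
        tc (8 * D + 4) (p * l * p' * l')) * ((if Pw (p * l * p' * l') then 1 else 0) +
          2 * Fintype.card ι * ((p * l * p' * l' : ℕ) : ℝ) / L) at hMi'
    rw [hn, hA] at hMi'
    have hfun : (fun a => dco β ν z X p a * dco β ν z X l a * dco β ν z X p' a *
        dco β ν z X l' a) = fun a => dco β ν z X p a * dco β ν z X l a *
          (dco β ν z X p' a * dco β ν z X l' a) := by
      funext a
      ring
    rw [hfun] at hMi'
    have htc := Ml_tc (8 * D + 4) p l p' l' hp hl hp' hl'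
    rw [hT] at htc
    obtain ⟨M, hM⟩ : ∃ M : ℝ, ((p * l * p' * l' : ℕ) : ℝ) = M := ⟨_, rfl⟩
    have hMe : M = p * l * (p' * l') := by
      rw [← hM]
      push_cast
      ring
    have hM0 : 0 < M := by
      rw [hMe]
      positivity
    have hMZ : √M ≤ (Z : ℝ) ^ 2 := by
      rw [Real.sqrt_le_left (by positivity), ← hM]
      have h5 : ((p * l * p' * l' : ℕ) : ℝ) ≤ (Z : ℝ) ^ 4 := by exact_mod_cast hM4
      refine h5.trans_eq ?_
      ring
    rw [hM] at hMi'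
    obtain ⟨k1, -⟩ := hKb p (Finset.mem_Icc.mpr ⟨hp.pos, hpZ⟩) l
      (Finset.mem_Icc.mpr ⟨hl.pos, hlZ⟩)
    obtain ⟨k2, -⟩ := hKb p' (Finset.mem_Icc.mpr ⟨hp'.pos, hpZ'⟩) l'
      (Finset.mem_Icc.mpr ⟨hl'.pos, hlZ'⟩)
    obtain ⟨I, hI⟩ : ∃ I : ℝ, (if Pw (p * l * p' * l') then (1 : ℝ) else 0) = I := ⟨_, rfl⟩
    have hI0 : 0 ≤ I := by
      rw [← hI]
      split_ifs <;> norm_num
    rw [hI] at hMi'
    have hLi : (0 : ℝ) ≤ (L : ℝ)⁻¹ := by positivity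
    have hb1 : |bsum L A₀ (fun a => dco β ν z X p a * dco β ν z X l a *
        (dco β ν z X p' a * dco β ν z X l' a))| ≤ A * T * (√M * (I + 2 * n * M / L)) := by
      refine hMi'.trans ?_
      have h6 : A * (√M * tc (8 * D + 4) (p * l * p' * l')) ≤ A * (√M * T) :=
        mul_le_mul_of_nonneg_left (mul_le_mul_of_nonneg_left htc (Real.sqrt_nonneg _)) hA0
      have h7 : A * (√M * tc (8 * D + 4) (p * l * p' * l')) * (I + 2 * n * M / L) ≤
          A * (√M * T) * (I + 2 * n * M / L) := mul_le_mul_of_nonneg_right h6 (by positivity)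
      refine h7.trans_eq ?_
      ring
    have hKK : |K p l| * |K p' l'| ≤ C₁ ^ 2 / M := by
      have h6 : |K p l| * |K p' l'| ≤ C₁ / ((p : ℝ) * l) * (C₁ / ((p' : ℝ) * l')) :=
        mul_le_mul k1 k2 (abs_nonneg _) (by positivity)
      refine h6.trans_eq ?_
      rw [hMe]
      field_simp
    refine (le_abs_self _).trans ?_
    rw [abs_mul, abs_mul]
    have h8 : |K p l| * |K p' l'| * |bsum L A₀ (fun a => dco β ν z X p a * dco β ν z X l a *
        (dco β ν z X p' a * dco β ν z X l' a))| ≤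
        |K p l| * |K p' l'| * (A * T * (√M * (I + 2 * n * M / L))) :=
      mul_le_mul_of_nonneg_left hb1 (by positivity)
    refine h8.trans ?_
    have h9 : |K p l| * |K p' l'| * (A * T * (√M * (I + 2 * n * M / L))) =
        A * T * (|K p l| * |K p' l'| * √M * I + |K p l| * |K p' l'| * (√M * (2 * n * M / L))) := by
      ring
    rw [h9]
    refine mul_le_mul_of_nonneg_left (add_le_add ?_ ?_) (by positivity)
    · by_cases hPw : Pw (p * l * p' * l')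
      · rw [if_pos hPw] at hI
        rw [← hI, mul_one]
        rcases Ml_pw p l p' l' hp hl hp' hl' hx3 hPw with ⟨e1, e2⟩ | ⟨e1, e2⟩
        · subst e1 e2
          rw [if_pos rfl]
          have h10 : √M = (p' : ℝ) * l' := by
            rw [hMe, Real.sqrt_mul_self (by positivity)]
          rw [h10, ← sq, sq_abs]
          have h11 : 0 ≤ (if (p', l') = (p', l').swap then
              K p' l' ^ 2 * ((p' : ℝ) * l') else 0) := by
            split_ifs <;> positivity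
          linarith
        · subst e1 e2
          have h10 : √M = (l' : ℝ) * p' := by
            rw [hMe, mul_comm (p' : ℝ) (l' : ℝ), Real.sqrt_mul_self (by positivity)]
          have h12 : (p', l') = (l', p').swap := rfl
          rw [if_pos h12, h10, hK p' l', ← sq, sq_abs]
          have h11 : 0 ≤ (if (p', l') = (l', p') then
              K l' p' ^ 2 * ((l' : ℝ) * p') else 0) := by
            split_ifs <;> positivity
          linarith
      · rw [if_neg hPw] at hI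
        rw [← hI, mul_zero]
        have h10 : 0 ≤ (if (p', l') = (p, l) then K p l ^ 2 * ((p : ℝ) * l) else 0) := by
          split_ifs <;> positivity
        have h11 : 0 ≤ (if (p', l') = (p, l).swap then K p l ^ 2 * ((p : ℝ) * l) else 0) := by
          split_ifs <;> positivity
        linarith
    · have h10 : |K p l| * |K p' l'| * (√M * (2 * n * M / L)) ≤
          C₁ ^ 2 / M * ((Z : ℝ) ^ 2 * (2 * n * M / L)) :=
        mul_le_mul hKK (mul_le_mul_of_nonneg_right hMZ (by positivity)) (by positivity)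
          (by positivity)
      refine h10.trans_eq ?_
      rw [div_mul_eq_mul_div, div_eq_iff hM0.ne']
      ring
  rw [hO]
  have hS1 : ∑ x ∈ O, ∑ y ∈ O, K x.1 x.2 * K y.1 y.2 * bsum L A₀ (fun a =>
      dco β ν z X x.1 a * dco β ν z X x.2 a * (dco β ν z X y.1 a * dco β ν z X y.2 a)) ≤
      ∑ x ∈ O, A * T * (2 * (K x.1 x.2 ^ 2 * ((x.1 : ℝ) * x.2)) +
        (Z : ℝ) ^ 2 * (2 * n * C₁ ^ 2 * (Z : ℝ) ^ 2 / L)) := by
    refine Finset.sum_le_sum fun x hx => ?_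
    refine (Finset.sum_le_sum fun y hy => hterm x hx y hy).trans ?_
    rw [← Finset.mul_sum, Finset.sum_add_distrib, Finset.sum_add_distrib, Finset.sum_const,
      nsmul_eq_mul, Finset.sum_ite_eq', Finset.sum_ite_eq', if_pos hx]
    refine mul_le_mul_of_nonneg_left ?_ (by positivity)
    have h1 : (0 : ℝ) ≤ K x.1 x.2 ^ 2 * ((x.1 : ℝ) * x.2) := by positivity
    have h2 : (if x.swap ∈ O then K x.1 x.2 ^ 2 * ((x.1 : ℝ) * x.2) else 0) ≤
        K x.1 x.2 ^ 2 * ((x.1 : ℝ) * x.2) := by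
      split_ifs
      · exact le_rfl
      · exact h1
    have h3 : (O.card : ℝ) ≤ (Z : ℝ) ^ 2 := by
      rw [← hO]
      exact Ml_card z Z
    have h4 : (O.card : ℝ) * (2 * n * C₁ ^ 2 * (Z : ℝ) ^ 2 / L) ≤
        (Z : ℝ) ^ 2 * (2 * n * C₁ ^ 2 * (Z : ℝ) ^ 2 / L) :=
      mul_le_mul_of_nonneg_right h3 (by positivity)
    linarith
  refine hS1.trans ?_
  rw [← Finset.mul_sum, Finset.sum_add_distrib, ← Finset.mul_sum, Finset.sum_const, nsmul_eq_mul]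
  have hd := Ml_diag hMb z Z K C₁ ε W u hε hC₁ hW hu1 hu2 hKb
  rw [hO] at hd
  obtain ⟨S, hS⟩ : ∃ S : ℝ, ∑ p ∈ pr z Z, (1 : ℝ) / p = S := ⟨_, rfl⟩
  have hS0 : 0 ≤ S := by
    rw [← hS]
    exact Finset.sum_nonneg fun p _ => by positivity
  rw [hS] at hd ⊢
  have h3 : (O.card : ℝ) ≤ (Z : ℝ) ^ 2 := by
    rw [← hO]
    exact Ml_card z Z
  have hZ68 : (Z : ℝ) ^ 6 ≤ (Z : ℝ) ^ 8 := by
    rcases Nat.eq_zero_or_pos Z with h | h
    · rw [h]
      norm_num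
    · exact pow_le_pow_right₀ (by exact_mod_cast h) (by norm_num)
  have h4 : (O.card : ℝ) * ((Z : ℝ) ^ 2 * (2 * n * C₁ ^ 2 * (Z : ℝ) ^ 2 / L)) ≤
      2 * n * (C₁ ^ 2 * (Z : ℝ) ^ 8 / L) := by
    have h5 : (O.card : ℝ) * ((Z : ℝ) ^ 2 * (2 * n * C₁ ^ 2 * (Z : ℝ) ^ 2 / L)) ≤
        (Z : ℝ) ^ 2 * ((Z : ℝ) ^ 2 * (2 * n * C₁ ^ 2 * (Z : ℝ) ^ 2 / L)) :=
      mul_le_mul_of_nonneg_right h3 (by positivity)
    have h6 : (Z : ℝ) ^ 2 * ((Z : ℝ) ^ 2 * (2 * n * C₁ ^ 2 * (Z : ℝ) ^ 2 / L)) =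
        2 * n * (C₁ ^ 2 * (Z : ℝ) ^ 6 / L) := by ring
    have h7 : 2 * n * (C₁ ^ 2 * (Z : ℝ) ^ 6 / L) ≤ 2 * n * (C₁ ^ 2 * (Z : ℝ) ^ 8 / L) := by
      refine mul_le_mul_of_nonneg_left ?_ (by positivity)
      exact div_le_div_of_nonneg_right (mul_le_mul_of_nonneg_left hZ68 (by positivity))
        (by positivity)
    linarith
  have ha : 0 ≤ C₁ ^ 2 * ((W + 1) / u) * S := by
    have : 0 < u := by linarith
    positivity
  have hb : 0 ≤ ε ^ 2 * S ^ 2 := by positivity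
  have hc : 0 ≤ C₁ ^ 2 * (Z : ℝ) ^ 8 / L := by positivity
  have hfin : 2 * ∑ x ∈ O, K x.1 x.2 ^ 2 * ((x.1 : ℝ) * x.2) +
      (O.card : ℝ) * ((Z : ℝ) ^ 2 * (2 * n * C₁ ^ 2 * (Z : ℝ) ^ 2 / L)) ≤
      (16 + 2 * n) * (C₁ ^ 2 * ((W + 1) / u) * S + ε ^ 2 * S ^ 2 +
        C₁ ^ 2 * (Z : ℝ) ^ 8 / L) := by
    have hn0 : (0 : ℝ) ≤ n := Nat.cast_nonneg n
    have h5 : 0 ≤ (n : ℝ) * (C₁ ^ 2 * ((W + 1) / u) * S) := mul_nonneg hn0 ha
    have h6 : 0 ≤ (n : ℝ) * (ε ^ 2 * S ^ 2) := mul_nonneg hn0 hb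
    have h7 : (16 + 2 * (n : ℝ)) * (C₁ ^ 2 * ((W + 1) / u) * S + ε ^ 2 * S ^ 2 +
        C₁ ^ 2 * (Z : ℝ) ^ 8 / L) = 16 * (C₁ ^ 2 * ((W + 1) / u) * S) + 16 * (ε ^ 2 * S ^ 2) +
          16 * (C₁ ^ 2 * (Z : ℝ) ^ 8 / L) + 2 * ((n : ℝ) * (C₁ ^ 2 * ((W + 1) / u) * S)) +
            2 * ((n : ℝ) * (ε ^ 2 * S ^ 2)) + 2 * (n : ℝ) * (C₁ ^ 2 * (Z : ℝ) ^ 8 / L) := by
      ring
    rw [h7]
    linarith
  calc A * T * (2 * ∑ x ∈ O, K x.1 x.2 ^ 2 * ((x.1 : ℝ) * x.2) +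
      (O.card : ℝ) * ((Z : ℝ) ^ 2 * (2 * n * C₁ ^ 2 * (Z : ℝ) ^ 2 / L))) ≤
      A * T * ((16 + 2 * n) * (C₁ ^ 2 * ((W + 1) / u) * S + ε ^ 2 * S ^ 2 +
        C₁ ^ 2 * (Z : ℝ) ^ 8 / L)) := mul_le_mul_of_nonneg_left hfin (by positivity)
    _ = T * (16 + 2 * n) * A * (C₁ ^ 2 * ((W + 1) / u) * S + ε ^ 2 * S ^ 2 +
        C₁ ^ 2 * (Z : ℝ) ^ 8 / L) := by ring

end MP7ed9c3.Pz
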