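import Pool.Agent.Lib.MP_7ed9c3_nt.Pz.SpecMa

/-!
# MP_7ed9c3_nt, part Pz: the case analysis of Mn (rough numbers close to primes)
-/

set_option autoImplicit false

namespace MP7ed9c3.Pz

theorem MnC_one {z : ℝ} (hz : 0 < z) {l : ℕ} (hl : l ≠ 0) (hr : ∀ q : ℕ, q.Prime → q ∣ l → z < q)
    (h : Real.log l < Real.log z) : l = 1 := by
  by_contra h1
  obtain ⟨q, hq, hql⟩ := Nat.exists_prime_and_dvd h1
  have h2 : z < q := hr q hq hql
  have h3 : (q : ℝ) ≤ l := by exact_mod_cast Nat.le_of_dvd (Nat.pos_of_ne_zero hl) hql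
  have h4 : Real.log z ≤ Real.log l := Real.log_le_log hz (by linarith)
  linarith

theorem MnC_dvd {z W : ℝ} (hz : 0 < z) (hW : W < Real.log z) {p m : ℕ} (hp : p.Prime) (hm : m ≠ 0)
    (hr : ∀ q : ℕ, q.Prime → q ∣ m → z < q) (hmp : ¬ m.Prime)
    (h : |Real.log p - Real.log m| ≤ W) : ¬ p ∣ m := by
  rintro ⟨l, rfl⟩
  have hl : l ≠ 0 := by
    rintro rfl
    exact hm (mul_zero p)
  have hp0 : (p : ℝ) ≠ 0 := by exact_mod_cast hp.ne_zero
  have hl0 : (l : ℝ) ≠ 0 := by exact_mod_cast hl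
  have h1 : Real.log ((p * l : ℕ) : ℝ) = Real.log p + Real.log l := by
    rw [Nat.cast_mul, Real.log_mul hp0 hl0]
  rw [h1] at h
  have h2 : Real.log l ≤ W := by
    have := (abs_le.1 h).1
    linarith
  have h3 := MnC_one hz hl (fun q hq hql => hr q hq (hql.mul_left p)) (by linarith)
  subst h3
  exact hmp (by rwa [mul_one])

theorem MnC_core {z W : ℝ} (hz : 0 < z) (hW0 : 0 ≤ W) (hW : 2 * W < Real.log z) {p p' m m' : ℕ}
    (hp : p.Prime) (hp' : p'.Prime) (hm : m ≠ 0) (hm' : m' ≠ 0)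
    (hr : ∀ q : ℕ, q.Prime → q ∣ m → z < q) (hr' : ∀ q : ℕ, q.Prime → q ∣ m' → z < q)
    (hmp : ¬ m.Prime) (hmp' : ¬ m'.Prime)
    (h : |Real.log p - Real.log m| ≤ W) (h' : |Real.log p' - Real.log m'| ≤ W)
    (hP : Pw (p * p' * (m * m'))) : p = p' ∧ ¬ p ∣ m ∧ ¬ p ∣ m' ∧ Pw (m * m') := by
  have hW1 : W < Real.log z := by linarith
  have h1 : ¬ p ∣ m := MnC_dvd hz hW1 hp hm hr hmp h
  have h2 : ¬ p' ∣ m' := MnC_dvd hz hW1 hp' hm' hr' hmp' h'
  have hfac : ∀ q : ℕ, (p * p' * (m * m')).factorization q =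
      p.factorization q + p'.factorization q + (m.factorization q + m'.factorization q) := by
    intro q
    rw [Nat.factorization_mul (mul_ne_zero hp.ne_zero hp'.ne_zero) (mul_ne_zero hm hm'),
      Nat.factorization_mul hp.ne_zero hp'.ne_zero, Nat.factorization_mul hm hm']
    simp
  have hpp : p = p' := by
    by_contra hne
    have h3 : p ∣ m' := by
      by_contra h3
      refine hP p hp ?_
      rw [hfac, Nat.Prime.factorization_self hp, Nat.factorization_eq_zero_of_not_dvd h1,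
        Nat.factorization_eq_zero_of_not_dvd h3, Nat.factorization_eq_zero_of_not_dvd]
      intro h4
      exact hne ((Nat.prime_dvd_prime_iff_eq hp hp').1 h4)
    have h4 : p' ∣ m := by
      by_contra h4
      refine hP p' hp' ?_
      rw [hfac, Nat.Prime.factorization_self hp', Nat.factorization_eq_zero_of_not_dvd h4,
        Nat.factorization_eq_zero_of_not_dvd h2, Nat.factorization_eq_zero_of_not_dvd]
      intro h5
      exact hne ((Nat.prime_dvd_prime_iff_eq hp' hp).1 h5).symm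
    obtain ⟨l', rfl⟩ := h3
    obtain ⟨l, rfl⟩ := h4
    have hl : l ≠ 0 := by
      rintro rfl
      exact hm (mul_zero p')
    have hl' : l' ≠ 0 := by
      rintro rfl
      exact hm' (mul_zero p)
    have hp0 : (p : ℝ) ≠ 0 := by exact_mod_cast hp.ne_zero
    have hp0' : (p' : ℝ) ≠ 0 := by exact_mod_cast hp'.ne_zero
    have hl0 : (l : ℝ) ≠ 0 := by exact_mod_cast hl
    have hl0' : (l' : ℝ) ≠ 0 := by exact_mod_cast hl'
    rw [Nat.cast_mul, Real.log_mul hp0' hl0] at h
    rw [Nat.cast_mul, Real.log_mul hp0 hl0'] at h'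
    have h5 := (abs_le.1 h).1
    have h6 := (abs_le.1 h').1
    have h7 : 0 ≤ Real.log l := Real.log_natCast_nonneg l
    have h8 : 0 ≤ Real.log l' := Real.log_natCast_nonneg l'
    have h9 := MnC_one hz hl (fun q hq hql => hr q hq (hql.mul_left p')) (by linarith)
    subst h9
    exact hmp (by rwa [mul_one])
  subst hpp
  refine ⟨rfl, h1, h2, ?_⟩
  intro q hq h3
  rw [Nat.factorization_mul hm hm'] at h3
  have h3' : m.factorization q + m'.factorization q = 1 := by simpa using h3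
  have hqp : q ≠ p := by
    rintro rfl
    rw [Nat.factorization_eq_zero_of_not_dvd h1, Nat.factorization_eq_zero_of_not_dvd h2] at h3'
    omega
  refine hP q hq ?_
  rw [hfac, Nat.factorization_eq_zero_of_not_dvd (n := p)]
  · omega
  · intro h4
    exact hqp ((Nat.prime_dvd_prime_iff_eq hq hp).1 h4)

end MP7ed9c3.Pz
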