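import Pool.Agent.Lib.MP_7ed9c3_nt.Pz.SpecMb

/-!
# MP_7ed9c3_nt, part Pz: Mo, the part with large smooth part
-/

set_option autoImplicit false

namespace MP7ed9c3.Pz

open MP7ed9c3.Tz

private theorem Mo_smz_le (z : ℝ) (m m' : ℕ) (hm : m ≠ 0) (hm' : m' ≠ 0) :
    smz z m ≤ smz z (m * m') := by
  unfold smz
  have hsub : m.primeFactors ⊆ (m * m').primeFactors :=
    Nat.primeFactors_mono (Dvd.intro _ rfl) (mul_ne_zero hm hm')
  have hstep : ∀ p ∈ m.primeFactors.filter (fun p : ℕ => (p : ℝ) ≤ z),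
      p ^ m.factorization p ≤ p ^ (m * m').factorization p := by
    intro p hp
    have hp' : p.Prime := Nat.prime_of_mem_primeFactors (Finset.mem_filter.mp hp).1
    refine Nat.pow_le_pow_right hp'.pos ?_
    rw [Nat.factorization_mul hm hm']
    simp
  refine (Finset.prod_le_prod' hstep).trans ?_
  refine Finset.prod_le_prod_of_subset_of_one_le' (Finset.filter_subset_filter _ hsub) ?_
  intro p hp _
  have hp' : p.Prime := Nat.prime_of_mem_primeFactors (Finset.mem_filter.mp hp).1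
  exact Nat.one_le_pow _ _ hp'.pos

private theorem Mo_mem {z X Z m : ℕ} (h : m ∈ Qs z X Z) :
    1 ≤ m ∧ m ≤ Z ∧ m.Coprime 6 ∧ X < smz z m := by
  unfold Qs at h
  rw [Finset.mem_filter, Finset.mem_Icc] at h
  exact ⟨h.1.1, h.1.2, h.2.1, h.2.2⟩

private theorem Mo_pr {p Z : ℕ} (h : p ∈ pr 3 Z) : p.Prime ∧ 5 ≤ p := by
  unfold pr at h
  rw [Finset.mem_filter, Finset.mem_Ioc] at h
  refine ⟨h.2, ?_⟩
  rcases Nat.lt_or_ge p 5 with h5 | h5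
  · have h4 : p = 4 := by omega
    rw [h4] at h
    exact absurd h.2 (by norm_num)
  · exact h5

private theorem Mo_sub {m Z : ℕ} (h1 : 1 ≤ m) (h2 : m ≤ Z) (h3 : m.Coprime 6) :
    m.primeFactors ⊆ pr 3 Z := by
  intro p hp
  have hpp := Nat.prime_of_mem_primeFactors hp
  have hd := Nat.dvd_of_mem_primeFactors hp
  unfold pr
  rw [Finset.mem_filter, Finset.mem_Ioc]
  refine ⟨⟨?_, (Nat.le_of_dvd (by omega) hd).trans h2⟩, hpp⟩
  by_contra hlt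
  have hp3 : p = 2 ∨ p = 3 := by
    have := hpp.two_le
    omega
  have h6 : p ∣ 6 := by
    rcases hp3 with h | h
    · rw [h]; norm_num
    · rw [h]; norm_num
  have h7 := Nat.dvd_gcd hd h6
  rw [Nat.Coprime.gcd_eq_one h3] at h7
  exact hpp.one_lt.ne' (Nat.dvd_one.mp h7)

open Classical in
private theorem Mo_first (C : ℕ) (D' : ℝ)
    (hMw : ∀ (S : Finset ℕ) (B : Finset (Fin 2 → ℕ)) (z δ : ℝ), 0 ≤ δ →
      z ^ δ ≤ 8 / 7 → (∀ p ∈ S, p.Prime ∧ 5 ≤ p) →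
      (∀ m ∈ B, (∀ i, m i ≠ 0 ∧ (m i).primeFactors ⊆ S) ∧ Pw (∏ i, m i)) →
      ∑ m ∈ B, (√((∏ i, m i : ℕ) : ℝ))⁻¹ * tc C (∏ i, m i) * (smz z (∏ i, m i) : ℝ) ^ δ ≤
        Real.exp (D' * ∑ p ∈ S, (1 : ℝ) / p))
    (z X Z : ℕ) (δ : ℝ) (hX : 1 ≤ X) (hδ : 0 ≤ δ) (hz : (z : ℝ) ^ δ ≤ 8 / 7) :
    ∑ m ∈ Qs z X Z, ∑ m' ∈ Qs z X Z,
      (if Pw (m * m') then (√((m * m' : ℕ) : ℝ))⁻¹ * tc C (m * m') else 0) ≤
      (X : ℝ) ^ (-δ) * Real.exp (D' * ∑ p ∈ pr 3 Z, (1 : ℝ) / p) := by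
  obtain ⟨e, he⟩ : ∃ e : ℕ × ℕ → (Fin 2 → ℕ), e = fun q => ![q.1, q.2] := ⟨_, rfl⟩
  have he0 : ∀ q, e q 0 = q.1 := fun q => by rw [he]; rfl
  have he1 : ∀ q, e q 1 = q.2 := fun q => by rw [he]; rfl
  have hinj : Function.Injective e := by
    intro a b h
    have h0 := congrFun h 0
    have h1 := congrFun h 1
    rw [he0, he0] at h0
    rw [he1, he1] at h1
    exact Prod.ext h0 h1
  have hprod : ∀ q : ℕ × ℕ, ∏ i, e q i = q.1 * q.2 := fun q => by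
    rw [Fin.prod_univ_two, he0, he1]
  have hXpos : (0 : ℝ) < X := by exact_mod_cast hX
  have h := hMw (pr 3 Z)
    (((Qs z X Z ×ˢ Qs z X Z).filter (fun q => Pw (q.1 * q.2))).image e) z δ hδ hz
    (fun p hp => Mo_pr hp) (by
      intro m hm
      obtain ⟨q, hq, rfl⟩ := Finset.mem_image.mp hm
      rw [Finset.mem_filter, Finset.mem_product] at hq
      obtain ⟨⟨hq1, hq2⟩, hq3⟩ := hq
      obtain ⟨a1, a2, a3, -⟩ := Mo_mem hq1
      obtain ⟨b1, b2, b3, -⟩ := Mo_mem hq2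
      refine ⟨?_, by rw [hprod]; exact hq3⟩
      intro i
      rcases Fin.exists_fin_two.mp ⟨i, rfl⟩ with hi | hi
      · rw [hi, he0]
        exact ⟨by omega, Mo_sub a1 a2 a3⟩
      · rw [hi, he1]
        exact ⟨by omega, Mo_sub b1 b2 b3⟩)
  rw [Finset.sum_image (fun a _ b _ h => hinj h)] at h
  have hre : ∑ m ∈ Qs z X Z, ∑ m' ∈ Qs z X Z,
      (if Pw (m * m') then (√((m * m' : ℕ) : ℝ))⁻¹ * tc C (m * m') else 0) =
      ∑ q ∈ (Qs z X Z ×ˢ Qs z X Z).filter (fun q => Pw (q.1 * q.2)),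
        (√((q.1 * q.2 : ℕ) : ℝ))⁻¹ * tc C (q.1 * q.2) := by
    rw [Finset.sum_filter, Finset.sum_product]
  rw [hre]
  have hle : ∀ q ∈ (Qs z X Z ×ˢ Qs z X Z).filter (fun q => Pw (q.1 * q.2)),
      (√((q.1 * q.2 : ℕ) : ℝ))⁻¹ * tc C (q.1 * q.2) ≤
      (X : ℝ) ^ (-δ) * ((√((∏ i, e q i : ℕ) : ℝ))⁻¹ * tc C (∏ i, e q i) *
        (smz z (∏ i, e q i) : ℝ) ^ δ) := by
    intro q hq
    rw [Finset.mem_filter, Finset.mem_product] at hq
    obtain ⟨⟨hq1, hq2⟩, hq3⟩ := hq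
    obtain ⟨a1, a2, a3, a4⟩ := Mo_mem hq1
    obtain ⟨b1, b2, b3, b4⟩ := Mo_mem hq2
    rw [hprod]
    have hs : X ≤ smz z (q.1 * q.2) :=
      a4.le.trans (Mo_smz_le z q.1 q.2 (by omega) (by omega))
    have hs' : (X : ℝ) ≤ (smz z (q.1 * q.2) : ℝ) := by exact_mod_cast hs
    have h1 : 1 ≤ (X : ℝ) ^ (-δ) * (smz z (q.1 * q.2) : ℝ) ^ δ := by
      have h2 : (X : ℝ) ^ δ ≤ (smz z (q.1 * q.2) : ℝ) ^ δ :=
        Real.rpow_le_rpow hXpos.le hs' hδ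
      have h3 : (X : ℝ) ^ (-δ) * (X : ℝ) ^ δ = 1 := by
        rw [← Real.rpow_add hXpos, neg_add_cancel, Real.rpow_zero]
      rw [← h3]
      exact mul_le_mul_of_nonneg_left h2 (Real.rpow_nonneg hXpos.le _)
    have h4 : 0 ≤ (√((q.1 * q.2 : ℕ) : ℝ))⁻¹ * tc C (q.1 * q.2) :=
      mul_nonneg (inv_nonneg.mpr (Real.sqrt_nonneg _)) (pow_nonneg (Nat.cast_nonneg _) _)
    calc (√((q.1 * q.2 : ℕ) : ℝ))⁻¹ * tc C (q.1 * q.2)
        = ((√((q.1 * q.2 : ℕ) : ℝ))⁻¹ * tc C (q.1 * q.2)) * 1 := (mul_one _).symm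
      _ ≤ ((√((q.1 * q.2 : ℕ) : ℝ))⁻¹ * tc C (q.1 * q.2)) *
          ((X : ℝ) ^ (-δ) * (smz z (q.1 * q.2) : ℝ) ^ δ) := mul_le_mul_of_nonneg_left h1 h4
      _ = _ := by ring
  refine (Finset.sum_le_sum hle).trans ?_
  rw [← Finset.mul_sum]
  exact mul_le_mul_of_nonneg_left h (Real.rpow_nonneg hXpos.le _)

private theorem Mo_swap {ι : Type} [Fintype ι] (L : ℕ) (A₀ : ι → ℤ) (K : ℕ → ℕ → ℝ)
    (Q : Finset ℕ) (x : ℕ → (ι → ℤ) → ℝ) :
    bsum L A₀ (fun a => bf K Q Q (fun m => x m a)) =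
      ∑ l ∈ Q, ∑ m ∈ Q, bsum L A₀ (fun a => x l a * x m a) * K l m := by
  simp only [bsum, bf]
  rw [Finset.sum_comm]
  refine Finset.sum_congr rfl fun l _ => ?_
  rw [Finset.sum_comm]
  refine Finset.sum_congr rfl fun m _ => ?_
  rw [Finset.sum_mul]

open Classical in
private theorem Mo_term (Ln t i C₁ N n L C' Z2 b k : ℝ) (hLn : 0 ≤ Ln) (ht : 0 ≤ t) (hi : 0 ≤ i)
    (hC₁ : 0 ≤ C₁) (hN : 0 < N) (hn : 0 ≤ n) (hL : 0 < L) (hC' : 0 ≤ C') (hNZ : N ≤ Z2)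
    (htN : t ≤ C' * √N) (hb : |b| ≤ Ln * (√N * t) * (i + 2 * n * N / L)) (hk : |k| ≤ C₁ / N) :
    b * k ≤ C₁ * Ln * (i * ((√N)⁻¹ * t) + 2 * n * C' * Z2 / L) := by
  have hs : 0 < √N := Real.sqrt_pos.mpr hN
  have hss : √N * √N = N := Real.mul_self_sqrt hN.le
  have h1 : b * k ≤ |b| * |k| := by
    rw [← abs_mul]
    exact le_abs_self _
  have h2 : |b| * |k| ≤ (Ln * (√N * t) * (i + 2 * n * N / L)) * (C₁ / N) :=
    mul_le_mul hb hk (abs_nonneg _) (by positivity)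
  have h3 : √N / N = (√N)⁻¹ := by
    field_simp
    nlinarith [hss]
  have h4 : (Ln * (√N * t) * (i + 2 * n * N / L)) * (C₁ / N) =
      C₁ * Ln * (i * ((√N)⁻¹ * t) + 2 * n * ((√N)⁻¹ * t) * N / L) := by
    rw [← h3]
    ring
  have h5 : (√N)⁻¹ * t ≤ C' := by
    rw [inv_mul_le_iff₀ hs]
    linarith [mul_comm C' (√N)]
  have h6 : 2 * n * ((√N)⁻¹ * t) * N / L ≤ 2 * n * C' * Z2 / L := by
    refine div_le_div_of_nonneg_right ?_ hL.le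
    refine mul_le_mul (mul_le_mul_of_nonneg_left h5 (by positivity)) hNZ hN.le (by positivity)
  refine h1.trans (h2.trans ?_)
  rw [h4]
  exact mul_le_mul_of_nonneg_left (by linarith) (by positivity)

open Classical in
/-- Mo. -/
theorem tMo (hMi : S_Mi) (hMj : S_Mj) (hMt : S_Mt) (hMw : S_Mw) : S_Mo := by
  intro ι _ D
  obtain ⟨C', hC', hT⟩ := hMt (8 * D + 4)
  obtain ⟨D', hD', hW⟩ := hMw (8 * D + 4) 2
  refine ⟨D' + 2 * (Fintype.card ι : ℝ) * C' + 1, by positivity, ?_⟩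
  intro β ν hloc z X Z L A₀ K C₁ ε W δ hz hX hZL hC₁ hδ hzδ hK
  have hfirst := Mo_first (8 * D + 4) D' hW z X Z δ hX hδ hzδ
  rw [Mo_swap]
  have hS : 0 ≤ ∑ p ∈ pr 3 Z, (1 : ℝ) / p := Finset.sum_nonneg fun p _ => by positivity
  have hXpos : (0 : ℝ) < X := by exact_mod_cast hX
  have hpair : ∀ m ∈ Qs z X Z, ∀ m' ∈ Qs z X Z,
      bsum L A₀ (fun a => dco β ν z X m a * dco β ν z X m' a) * K m m' ≤
      C₁ * (L : ℝ) ^ Fintype.card ι *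
        ((if Pw (m * m') then (√((m * m' : ℕ) : ℝ))⁻¹ * tc (8 * D + 4) (m * m') else 0) +
          2 * (Fintype.card ι : ℝ) * C' * (Z : ℝ) ^ 2 / L) := by
    intro m hm m' hm'
    obtain ⟨a1, a2, a3, -⟩ := Mo_mem hm
    obtain ⟨b1, b2, b3, -⟩ := Mo_mem hm'
    have hmm : m * m' ≤ Z ^ 2 := by
      rw [pow_two]
      exact Nat.mul_le_mul a2 b2
    have hZ1 : 1 ≤ Z := a1.trans a2
    have hZ24 : Z ^ 2 ≤ Z ^ 4 := Nat.pow_le_pow_right hZ1 (by norm_num)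
    have hmL : m * m' ≤ L := hmm.trans (hZ24.trans hZL)
    have hmm1 : 1 ≤ m * m' := Nat.mul_pos a1 b1
    have hL0 : 0 < L := hmm1.trans hmL
    have hprod : ∏ i, (![m, m', 1, 1] : Fin 4 → ℕ) i = m * m' := by
      simp [Fin.prod_univ_four]
    have hfun : (fun a => ∏ i, dco β ν z X ((![m, m', 1, 1] : Fin 4 → ℕ) i) a) =
        fun a => dco β ν z X m a * dco β ν z X m' a := by
      funext a
      have h1 := (hMj ι D β ν hloc z X a hz hX).2.2.2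
      simp [Fin.prod_univ_four, h1]
    have hI := hMi ι D β ν hloc z X L A₀ (![m, m', 1, 1] : Fin 4 → ℕ) (by
      intro i
      fin_cases i
      · show m ≠ 0
        omega
      · show m' ≠ 0
        omega
      · show (1 : ℕ) ≠ 0
        omega
      · show (1 : ℕ) ≠ 0
        omega) (by rw [hprod]; exact hmL)
    rw [hprod, hfun] at hI
    have hkk := (hK m (Finset.mem_Icc.mpr ⟨a1, a2⟩) m' (Finset.mem_Icc.mpr ⟨b1, b2⟩)).1
    have hN : (0 : ℝ) < ((m * m' : ℕ) : ℝ) := by exact_mod_cast hmm1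
    have hNZ : ((m * m' : ℕ) : ℝ) ≤ (Z : ℝ) ^ 2 := by exact_mod_cast hmm
    have hLr : (0 : ℝ) < L := by exact_mod_cast hL0
    have hres := Mo_term ((L : ℝ) ^ Fintype.card ι) (tc (8 * D + 4) (m * m'))
      (if Pw (m * m') then 1 else 0) C₁ ((m * m' : ℕ) : ℝ) (Fintype.card ι : ℝ) (L : ℝ) C'
      ((Z : ℝ) ^ 2) _ (K m m') (by positivity) (pow_nonneg (Nat.cast_nonneg _) _)
      (by split_ifs <;> norm_num) hC₁ hN (Nat.cast_nonneg _) hLr hC'.le hNZ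
      (hT _ hmm1) hI (by push_cast; exact hkk)
    refine hres.trans (le_of_eq ?_)
    split_ifs
    · rw [one_mul]
    · rw [zero_mul]
  refine (Finset.sum_le_sum fun m hm => Finset.sum_le_sum fun m' hm' => hpair m hm m' hm').trans ?_
  have hcard : ((Qs z X Z).card : ℝ) ≤ Z := by
    have h1 : (Qs z X Z).card ≤ (Finset.Icc 1 Z).card :=
      Finset.card_le_card (by unfold Qs; exact Finset.filter_subset _ _)
    rw [Nat.card_Icc] at h1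
    have h2 : (Qs z X Z).card ≤ Z := by omega
    exact_mod_cast h2
  have hsum : ∑ m ∈ Qs z X Z, ∑ m' ∈ Qs z X Z, C₁ * (L : ℝ) ^ Fintype.card ι *
        ((if Pw (m * m') then (√((m * m' : ℕ) : ℝ))⁻¹ * tc (8 * D + 4) (m * m') else 0) +
          2 * (Fintype.card ι : ℝ) * C' * (Z : ℝ) ^ 2 / L) =
      C₁ * (L : ℝ) ^ Fintype.card ι * ((∑ m ∈ Qs z X Z, ∑ m' ∈ Qs z X Z,
        (if Pw (m * m') then (√((m * m' : ℕ) : ℝ))⁻¹ * tc (8 * D + 4) (m * m') else 0)) +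
        ((Qs z X Z).card : ℝ) * ((Qs z X Z).card : ℝ) *
          (2 * (Fintype.card ι : ℝ) * C' * (Z : ℝ) ^ 2 / L)) := by
    simp only [← Finset.mul_sum, Finset.sum_add_distrib, Finset.sum_const, nsmul_eq_mul]
    ring
  rw [hsum]
  have hcc : ((Qs z X Z).card : ℝ) * ((Qs z X Z).card : ℝ) ≤ (Z : ℝ) ^ 2 := by
    rw [pow_two]
    exact mul_le_mul hcard hcard (Nat.cast_nonneg _) (Nat.cast_nonneg _)
  have hsec : ((Qs z X Z).card : ℝ) * ((Qs z X Z).card : ℝ) *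
      (2 * (Fintype.card ι : ℝ) * C' * (Z : ℝ) ^ 2 / L) ≤
      (D' + 2 * (Fintype.card ι : ℝ) * C' + 1) * ((Z : ℝ) ^ 4 / L) := by
    calc ((Qs z X Z).card : ℝ) * ((Qs z X Z).card : ℝ) *
        (2 * (Fintype.card ι : ℝ) * C' * (Z : ℝ) ^ 2 / L)
        ≤ (Z : ℝ) ^ 2 * (2 * (Fintype.card ι : ℝ) * C' * (Z : ℝ) ^ 2 / L) :=
          mul_le_mul_of_nonneg_right hcc (by positivity)
      _ = (2 * (Fintype.card ι : ℝ) * C') * ((Z : ℝ) ^ 4 / L) := by ring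
      _ ≤ (D' + 2 * (Fintype.card ι : ℝ) * C' + 1) * ((Z : ℝ) ^ 4 / L) :=
          mul_le_mul_of_nonneg_right (by linarith) (by positivity)
  have hfst : (X : ℝ) ^ (-δ) * Real.exp (D' * ∑ p ∈ pr 3 Z, (1 : ℝ) / p) ≤
      (D' + 2 * (Fintype.card ι : ℝ) * C' + 1) * ((X : ℝ) ^ (-δ) *
        Real.exp ((D' + 2 * (Fintype.card ι : ℝ) * C' + 1) * ∑ p ∈ pr 3 Z, (1 : ℝ) / p)) := by
    have hnn : 0 ≤ 2 * (Fintype.card ι : ℝ) * C' := by positivity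
    have h1 : Real.exp (D' * ∑ p ∈ pr 3 Z, (1 : ℝ) / p) ≤
        Real.exp ((D' + 2 * (Fintype.card ι : ℝ) * C' + 1) * ∑ p ∈ pr 3 Z, (1 : ℝ) / p) :=
      Real.exp_le_exp.mpr (mul_le_mul_of_nonneg_right (by linarith) hS)
    have h2 : (X : ℝ) ^ (-δ) * Real.exp (D' * ∑ p ∈ pr 3 Z, (1 : ℝ) / p) ≤
        (X : ℝ) ^ (-δ) *
        Real.exp ((D' + 2 * (Fintype.card ι : ℝ) * C' + 1) * ∑ p ∈ pr 3 Z, (1 : ℝ) / p) :=
      mul_le_mul_of_nonneg_left h1 (Real.rpow_nonneg hXpos.le _)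
    refine h2.trans ?_
    refine le_mul_of_one_le_left ?_ (by linarith)
    exact mul_nonneg (Real.rpow_nonneg hXpos.le _) (Real.exp_pos _).le
  have hfin := add_le_add (hfirst.trans hfst) hsec
  calc C₁ * (L : ℝ) ^ Fintype.card ι * ((∑ m ∈ Qs z X Z, ∑ m' ∈ Qs z X Z,
        (if Pw (m * m') then (√((m * m' : ℕ) : ℝ))⁻¹ * tc (8 * D + 4) (m * m') else 0)) +
        ((Qs z X Z).card : ℝ) * ((Qs z X Z).card : ℝ) *
          (2 * (Fintype.card ι : ℝ) * C' * (Z : ℝ) ^ 2 / L))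
      ≤ C₁ * (L : ℝ) ^ Fintype.card ι * ((D' + 2 * (Fintype.card ι : ℝ) * C' + 1) *
        ((X : ℝ) ^ (-δ) *
        Real.exp ((D' + 2 * (Fintype.card ι : ℝ) * C' + 1) * ∑ p ∈ pr 3 Z, (1 : ℝ) / p)) +
        (D' + 2 * (Fintype.card ι : ℝ) * C' + 1) * ((Z : ℝ) ^ 4 / L)) :=
        mul_le_mul_of_nonneg_left hfin (by positivity)
    _ = _ := by ring

end MP7ed9c3.Pz
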