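import Pool.Agent.Lib.MP_7ed9c3_nt.Pz.SpecMb

/-!
# MP_7ed9c3_nt, part Pz, module Mt: the divisor bound
-/

set_option autoImplicit false

namespace MP7ed9c3.Pz

open MP7ed9c3.Tz

private lemma Mt_seq (K : ℕ) : ∃ B : ℝ, 1 ≤ B ∧ ∀ v : ℕ, ((v : ℝ) + 1) ^ K ≤ B * 2 ^ v := by
  have h := tendsto_pow_const_div_const_pow_of_one_lt K (r := (2 : ℝ)) one_lt_two
  obtain ⟨b, hb⟩ := h.bddAbove_range
  refine ⟨max 1 (2 * b), le_max_left _ _, fun v => ?_⟩
  have h1 : (((v + 1 : ℕ) : ℝ)) ^ K / 2 ^ (v + 1) ≤ b := hb ⟨v + 1, rfl⟩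
  rw [div_le_iff₀ (by positivity)] at h1
  push_cast at h1
  calc ((v : ℝ) + 1) ^ K ≤ b * 2 ^ (v + 1) := h1
    _ = (2 * b) * 2 ^ v := by ring
    _ ≤ max 1 (2 * b) * 2 ^ v :=
        mul_le_mul_of_nonneg_right (le_max_right _ _) (by positivity)

private lemma Mt_main (K : ℕ) : ∃ B : ℝ, 1 ≤ B ∧ ∀ m : ℕ, 1 ≤ m →
    (m.divisors.card : ℝ) ^ K ≤ B * m := by
  obtain ⟨B, hB, hv⟩ := Mt_seq K
  refine ⟨B ^ (2 ^ K), one_le_pow₀ hB, fun m hm => ?_⟩
  have hm0 : m ≠ 0 := by omega
  have hfac : (m : ℝ) = ∏ p ∈ m.primeFactors, (p : ℝ) ^ m.factorization p := by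
    conv_lhs => rw [← Nat.prod_factorization_pow_eq_self hm0]
    rw [Finsupp.prod, Nat.support_factorization]
    push_cast
    rfl
  have hcard : (m.divisors.card : ℝ) ^ K =
      ∏ p ∈ m.primeFactors, ((m.factorization p : ℝ) + 1) ^ K := by
    rw [Nat.card_divisors hm0]
    push_cast
    rw [Finset.prod_pow]
  rw [hcard]
  calc ∏ p ∈ m.primeFactors, ((m.factorization p : ℝ) + 1) ^ K
      ≤ ∏ p ∈ m.primeFactors, ((if p < 2 ^ K then B else 1) * (p : ℝ) ^ m.factorization p) := by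
        refine Finset.prod_le_prod (fun _ _ => by positivity) fun p hp => ?_
        have hpp := Nat.prime_of_mem_primeFactors hp
        have hp2 : (2 : ℝ) ≤ p := by exact_mod_cast hpp.two_le
        by_cases h : p < 2 ^ K
        · rw [if_pos h]
          exact (hv _).trans (mul_le_mul_of_nonneg_left
            (pow_le_pow_left₀ (by norm_num) hp2 _) (by linarith))
        · rw [if_neg h, one_mul]
          have h' : ((2 : ℝ) ^ K) ≤ p := by exact_mod_cast not_lt.mp h
          have h2 : ((m.factorization p : ℝ) + 1) ≤ 2 ^ m.factorization p := by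
            exact_mod_cast Nat.lt_two_pow_self
          calc ((m.factorization p : ℝ) + 1) ^ K ≤ (2 ^ m.factorization p) ^ K :=
                pow_le_pow_left₀ (by positivity) h2 K
            _ = (2 ^ K) ^ m.factorization p := by rw [← pow_mul, ← pow_mul, mul_comm]
            _ ≤ (p : ℝ) ^ m.factorization p := pow_le_pow_left₀ (by positivity) h' _
    _ = (∏ p ∈ m.primeFactors, (if p < 2 ^ K then B else 1)) * m := by
        rw [Finset.prod_mul_distrib, ← hfac]
    _ ≤ B ^ (2 ^ K) * m := by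
        refine mul_le_mul_of_nonneg_right ?_ (Nat.cast_nonneg _)
        rw [Finset.prod_ite, Finset.prod_const, Finset.prod_const_one, mul_one]
        refine pow_le_pow_right₀ hB ?_
        calc (m.primeFactors.filter fun p => p < 2 ^ K).card ≤ (Finset.range (2 ^ K)).card := by
              refine Finset.card_le_card fun p hp => ?_
              exact Finset.mem_range.mpr (Finset.mem_filter.mp hp).2
          _ = 2 ^ K := Finset.card_range _

theorem tMt : S_Mt := by
  intro C
  obtain ⟨B, hB, h⟩ := Mt_main (2 * C)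
  refine ⟨√B, Real.sqrt_pos.mpr (by linarith), fun m hm => ?_⟩
  have h1 := h m hm
  unfold tc
  rw [← Real.sqrt_mul (by linarith)]
  refine Real.le_sqrt_of_sq_le ?_
  rw [← pow_mul, mul_comm C 2]
  exact h1

end MP7ed9c3.Pz
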