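import Pool.Agent.Lib.MP_7ed9c3_nt.Pz.SpecMb

/-!
MP_7ed9c3_nt, part Pz, module Mw: sums over tuples whose product has no exact prime.
-/

set_option autoImplicit false

namespace MP7ed9c3.Pz

theorem tMw (hMf : S_Mf) (hMg : S_Mg) : S_Mw := by
  intro C k
  obtain ⟨D, hD, h⟩ := hMf (C + k)
  refine ⟨D, hD, ?_⟩
  intro S B z δ hδ hz hS hB
  have h1 := hMg (Fin k) B (fun N => (√(N : ℝ))⁻¹ * tc C N * (smz z N : ℝ) ^ δ)
    (fun N => by
      have e1 : (0 : ℝ) ≤ tc C N := by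
        unfold tc
        positivity
      have e2 : (0 : ℝ) ≤ (smz z N : ℝ) ^ δ := Real.rpow_nonneg (Nat.cast_nonneg _) _
      positivity)
    (fun m hm i => ((hB m hm).1 i).1)
  refine h1.trans ?_
  have h2 := h S (B.image fun m => ∏ i, m i) z δ hδ hz hS (by
    intro N hN
    obtain ⟨m, hm, rfl⟩ := Finset.mem_image.1 hN
    have hne : ∀ i ∈ (Finset.univ : Finset (Fin k)), m i ≠ 0 := fun i _ => ((hB m hm).1 i).1
    refine ⟨Finset.prod_ne_zero_iff.2 hne, ?_, (hB m hm).2⟩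
    intro p hp
    have hp1 : p.Prime := Nat.prime_of_mem_primeFactors hp
    have hp2 : p ∣ ∏ i, m i := Nat.dvd_of_mem_primeFactors hp
    obtain ⟨i, -, hi⟩ := (Prime.dvd_finsetProd_iff hp1.prime m).1 hp2
    exact ((hB m hm).1 i).2 (Nat.mem_primeFactors.2 ⟨hp1, hi, ((hB m hm).1 i).1⟩))
  refine le_trans (le_of_eq ?_) h2
  refine Finset.sum_congr rfl ?_
  intro N _
  have e3 : tc (C + k) N = tc C N * tc k N := by
    unfold tc
    rw [pow_add]
  rw [e3, Fintype.card_fin]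
  ring

end MP7ed9c3.Pz
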