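import Pool.Agent.Lib.MP_7ed9c3_nt.Pz.SpecZ

/-!
# MP_7ed9c3_nt, part Pz, module Quad: the quadratic form of the kernel
-/

set_option autoImplicit false

namespace MP7ed9c3.Pz

open NumberField IsDedekindDomain MP7ed9c3 MP7ed9c3.Tw MP7ed9c3.Tz

private theorem quad_re (s : Finset ℕ) (x : ℕ → ℝ) (y : ℕ → ℂ) :
    ‖∑ m ∈ s, (x m : ℂ) * y m‖ ^ 2 =
      ∑ l ∈ s, ∑ m ∈ s, x l * x m * (y l * (starRingEnd ℂ) (y m)).re := by
  have h : ((‖∑ m ∈ s, (x m : ℂ) * y m‖ ^ 2 : ℝ) : ℂ) =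
      ∑ l ∈ s, ∑ m ∈ s, ((x l * x m : ℝ) : ℂ) * (y l * (starRingEnd ℂ) (y m)) := by
    rw [Complex.ofReal_pow, ← Complex.mul_conj', map_sum, Finset.sum_mul_sum]
    refine Finset.sum_congr rfl fun l _ => Finset.sum_congr rfl fun m _ => ?_
    rw [map_mul, Complex.conj_ofReal]
    push_cast
    ring
  have h2 := congrArg Complex.re h
  rw [Complex.ofReal_re] at h2
  rw [h2, Complex.re_sum]
  refine Finset.sum_congr rfl fun l _ => ?_
  rw [Complex.re_sum]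
  refine Finset.sum_congr rfl fun m _ => ?_
  rw [Complex.re_ofReal_mul]

theorem quad : S_Quad := by
  intro σ₂ h₂ μ t₀ R Z
  refine ⟨?_, ?_⟩
  · intro l m
    unfold Kf
    congr 1
    refine Finset.sum_congr rfl fun r _ => ?_
    congr 1
    rw [← Complex.conj_re, map_mul, Complex.conj_conj, mul_comm]
  · intro x
    have e : ∀ l m : ℕ, x l * x m * Kf σ₂ h₂ μ t₀ R l m =
        ∑ r ∈ Finset.range (R + 1), √μ * Real.exp (-(2 * μ * Real.sinh (a1 σ₂ h₂))) *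
          (Real.exp (2 * r) * (x l * x m *
            (xf σ₂ h₂ μ t₀ l r * (starRingEnd ℂ) (xf σ₂ h₂ μ t₀ m r)).re)) := by
      intro l m
      unfold Kf
      rw [Finset.mul_sum, Finset.mul_sum]
      refine Finset.sum_congr rfl fun r _ => ?_
      ring
    have e2 : ∑ l ∈ Finset.Icc 1 Z, ∑ m ∈ Finset.Icc 1 Z, x l * x m * Kf σ₂ h₂ μ t₀ R l m =
        ∑ l ∈ Finset.Icc 1 Z, ∑ m ∈ Finset.Icc 1 Z,
        ∑ r ∈ Finset.range (R + 1), √μ * Real.exp (-(2 * μ * Real.sinh (a1 σ₂ h₂))) *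
          (Real.exp (2 * r) * (x l * x m *
            (xf σ₂ h₂ μ t₀ l r * (starRingEnd ℂ) (xf σ₂ h₂ μ t₀ m r)).re)) :=
      Finset.sum_congr rfl fun l _ => Finset.sum_congr rfl fun m _ => e l m
    rw [e2, Finset.mul_sum]
    have e3 : ∀ l ∈ Finset.Icc 1 Z, ∑ m ∈ Finset.Icc 1 Z,
        ∑ r ∈ Finset.range (R + 1), √μ * Real.exp (-(2 * μ * Real.sinh (a1 σ₂ h₂))) *
          (Real.exp (2 * r) * (x l * x m *
            (xf σ₂ h₂ μ t₀ l r * (starRingEnd ℂ) (xf σ₂ h₂ μ t₀ m r)).re)) =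
        ∑ r ∈ Finset.range (R + 1), ∑ m ∈ Finset.Icc 1 Z,
          √μ * Real.exp (-(2 * μ * Real.sinh (a1 σ₂ h₂))) *
          (Real.exp (2 * r) * (x l * x m *
            (xf σ₂ h₂ μ t₀ l r * (starRingEnd ℂ) (xf σ₂ h₂ μ t₀ m r)).re)) :=
      fun l _ => Finset.sum_comm
    rw [Finset.sum_congr rfl e3, Finset.sum_comm]
    refine Finset.sum_congr rfl fun r _ => ?_
    rw [quad_re, Finset.mul_sum, Finset.mul_sum]
    refine Finset.sum_congr rfl fun l _ => ?_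
    rw [Finset.mul_sum, Finset.mul_sum]

end MP7ed9c3.Pz
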