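import Pool.Agent.Lib.MP_7ed9c3_nt.Pz.WinCore
import Pool.Agent.Lib.MP_7ed9c3_nt.Tz.DegOne
import Pool.Agent.Lib.MP_7ed9c3_nt.Tz.Prim
import Pool.Agent.Lib.MP_7ed9c3_nt.Tw.D7
import Pool.Agent.Lib.MP_7ed9c3_nt.Tw.All

/-!
# MP_7ed9c3_nt, part Pz, WinK: primes of degree one in windows `Y^al < p ≤ Y^be`
-/

set_option autoImplicit false

namespace MP7ed9c3.Pz

open NumberField IsDedekindDomain Filter Topology MP7ed9c3.Tw MP7ed9c3.Zs MP7ed9c3.Tz

namespace WinKM

variable {K : Type} [Field K] [NumberField K]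

open Classical in
/-- the weight of the primes of degree one -/
noncomputable def aw (v : HeightOneSpectrum (𝓞 K)) : ℝ :=
  if (nm v).Prime then (nm v : ℝ) ^ (-(1 : ℝ)) else 0

theorem aw_nonneg (v : HeightOneSpectrum (𝓞 K)) : 0 ≤ aw v := by
  unfold aw
  split_ifs
  · exact Real.rpow_nonneg (Nat.cast_nonneg _) _
  · exact le_refl _

theorem nm1 (v : HeightOneSpectrum (𝓞 K)) : (1 : ℝ) ≤ nm v := by
  have := DegOneM.nm_two v
  linarith

theorem nm0 (v : HeightOneSpectrum (𝓞 K)) : (0 : ℝ) < nm v := by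
  have := DegOneM.nm_two v
  linarith

theorem rp (v : HeightOneSpectrum (𝓞 K)) (x : ℝ) :
    (nm v : ℝ) ^ (-(1 : ℝ)) * Real.exp (-(x * Real.log (nm v))) = (nm v : ℝ) ^ (-(1 + x)) := by
  have h1 : Real.exp (-(x * Real.log (nm v))) = (nm v : ℝ) ^ (-x) := by
    rw [Real.rpow_def_of_pos (nm0 v)]
    congr 1
    ring
  rw [h1, ← Real.rpow_add (nm0 v)]
  congr 1
  ring

theorem summable_nm (x : ℝ) (hx : 0 < x) :
    Summable fun v : HeightOneSpectrum (𝓞 K) => (nm v : ℝ) ^ (-(1 + x)) :=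
  (zetaSum K).2.1 (1 + x) (by linarith)

theorem summable_aw (x : ℝ) (hx : 0 < x) :
    Summable fun v : HeightOneSpectrum (𝓞 K) => aw v * Real.exp (-(x * Real.log (nm v))) := by
  refine Summable.of_nonneg_of_le (fun v => mul_nonneg (aw_nonneg v) (Real.exp_pos _).le)
    (fun v => ?_) (summable_nm (K := K) x hx)
  rw [← rp v x]
  refine mul_le_mul_of_nonneg_right ?_ (Real.exp_pos _).le
  unfold aw
  split_ifs
  · exact le_refl _
  · exact Real.rpow_nonneg (Nat.cast_nonneg _) _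

theorem diff_bound (x : ℝ) (hx : 0 < x) (v : HeightOneSpectrum (𝓞 K)) :
    0 ≤ (nm v : ℝ) ^ (-(1 + x)) - aw v * Real.exp (-(x * Real.log (nm v))) ∧
    (nm v : ℝ) ^ (-(1 + x)) - aw v * Real.exp (-(x * Real.log (nm v))) ≤ DegOneM.ew v := by
  rw [← rp v x]
  unfold aw DegOneM.ew
  split_ifs with h
  · simp
  · rw [zero_mul, sub_zero, rp v x]
    refine ⟨Real.rpow_nonneg (Nat.cast_nonneg _) _, ?_⟩
    exact Real.rpow_le_rpow_of_exponent_le (nm1 v) (by linarith)

theorem f_bound (K : Type) [Field K] [NumberField K] :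
    ∃ A : ℝ, ∀ x : ℝ, 0 < x → x ≤ 1 →
      |∑' v : HeightOneSpectrum (𝓞 K), aw v * Real.exp (-(x * Real.log (nm v))) -
        Real.log (1 / x)| ≤ A := by
  obtain ⟨C, hC⟩ := D7.zero_case (K := K) zetaSum contAll
  have hE := DegOneM.summable_ew (K := K) prim
  refine ⟨C + ∑' v : HeightOneSpectrum (𝓞 K), DegOneM.ew v, fun x hx hx1 => ?_⟩
  have h1 := hC x hx hx1
  have h2 : primeSum K x 0 = ∑' v : HeightOneSpectrum (𝓞 K), (nm v : ℝ) ^ (-(1 + x)) := by
    unfold primeSum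
    refine tsum_congr fun v => ?_
    rw [zero_mul, Real.cos_zero, mul_one]
    rfl
  have hs1 := summable_nm (K := K) x hx
  have hs2 := summable_aw (K := K) x hx
  have h3 : |∑' v : HeightOneSpectrum (𝓞 K), (nm v : ℝ) ^ (-(1 + x)) -
      ∑' v : HeightOneSpectrum (𝓞 K), aw v * Real.exp (-(x * Real.log (nm v)))| ≤
      ∑' v : HeightOneSpectrum (𝓞 K), DegOneM.ew v := by
    rw [← hs1.tsum_sub hs2, abs_of_nonneg (tsum_nonneg fun v => (diff_bound x hx v).1)]
    exact (hs1.sub hs2).tsum_le_tsum (fun v => (diff_bound x hx v).2) hE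
  rw [h2] at h1
  have h4 := abs_le.1 h1
  have h5 := abs_le.1 h3
  rw [abs_le]
  constructor <;> linarith [h4.1, h4.2, h5.1, h5.2]

end WinKM

open WinKM in
/-- Primes of degree one: for every `M` and `be > 0` there is `al > 0` such that for large `L` the sum of
`r_p / p` over `al L < log p ≤ be L` is at least `M`. -/
theorem winK (K : Type) [Field K] [NumberField K] (M be : ℝ) (hM : 0 ≤ M) (hbe : 0 < be) :
    ∃ al : ℝ, 0 < al ∧ al < be ∧ ∃ L₀ : ℝ, ∀ L : ℝ, L₀ ≤ L → ∀ T : Finset ℕ,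
      (∀ p : ℕ, p.Prime → al * L < Real.log p → Real.log p ≤ be * L → p ∈ T) →
        M ≤ ∑ p ∈ T, ((D1 K p).card : ℝ) / p := by
  classical
  obtain ⟨A, hA⟩ := f_bound K
  obtain ⟨al, h1, h2, L₀, hL₀⟩ := winCore (ι := HeightOneSpectrum (𝓞 K)) aw
    (fun v => Real.log (nm v)) (fun v => Real.log_nonneg (nm1 v)) aw_nonneg
    (fun x hx => summable_aw x hx) A hA M be hM hbe
  refine ⟨al, h1, h2, L₀, fun L hL T hT => ?_⟩
  have hD : ∀ (p : ℕ) (v : HeightOneSpectrum (𝓞 K)), v ∈ D1 K p ↔ nm v = p := by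
    intro p v
    unfold D1
    rw [Set.Finite.mem_toFinset]
    rfl
  have h3 := hL₀ L hL (T.biUnion (D1 K)) (fun v hv h4 h5 => by
    have hp : (nm v).Prime := by
      by_contra hnp
      exact hv (by unfold aw; rw [if_neg hnp])
    exact Finset.mem_biUnion.2 ⟨nm v, hT (nm v) hp h4 h5, (hD (nm v) v).2 rfl⟩)
  refine h3.trans ?_
  have hdis : Set.PairwiseDisjoint (T : Set ℕ) (D1 K) := by
    intro p _ q _ hpq
    show Disjoint (D1 K p) (D1 K q)
    rw [Finset.disjoint_left]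
    intro v hv hv'
    exact hpq (((hD p v).1 hv).symm.trans ((hD q v).1 hv'))
  rw [Finset.sum_biUnion hdis]
  refine Finset.sum_le_sum fun p _ => ?_
  calc ∑ v ∈ D1 K p, aw v ≤ ∑ _v ∈ D1 K p, (1 : ℝ) / p := by
        refine Finset.sum_le_sum fun v hv => ?_
        have h4 : nm v = p := (hD p v).1 hv
        unfold aw
        split_ifs
        · rw [h4, Real.rpow_neg_one, one_div]
        · positivity
    _ = ((D1 K p).card : ℝ) / p := by
        rw [Finset.sum_const, nsmul_eq_mul]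
        ring

end MP7ed9c3.Pz
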