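import Pool.Agent.Lib.MP_7ed9c3_nt.Pz.Def
import Pool.Agent.Lib.MP_7ed9c3_nt.Pz.WinK

/-!
# MP_7ed9c3_nt, part Pz, part N: windows with many primes of degree one (`S_Win`)
-/

set_option autoImplicit false

namespace MP7ed9c3.Pz

open NumberField IsDedekindDomain Filter Topology MP7ed9c3.Tw MP7ed9c3.Zs MP7ed9c3.Tz

namespace WinM

/-- a point between `θ^J B` and `B` is in one of the geometric windows -/
theorem geo {θ B x : ℝ} (J : ℕ) (h1 : θ ^ J * B < x) (h2 : x ≤ B) :
    ∃ j : ℕ, j < J ∧ θ * (θ ^ j * B) ≤ x ∧ x ≤ θ ^ j * B := by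
  induction J with
  | zero =>
    rw [pow_zero, one_mul] at h1
    linarith
  | succ J ih =>
    rcases lt_or_ge (θ ^ J * B) x with h3 | h3
    · obtain ⟨j, hj, h4, h5⟩ := ih h3
      exact ⟨j, by omega, h4, h5⟩
    · refine ⟨J, by omega, ?_, h3⟩
      have h4 : θ * (θ ^ J * B) = θ ^ (J + 1) * B := by ring
      rw [h4]
      exact h1.le

end WinM

open WinM in
open Classical in
theorem win : S_Win := by
  intro K _ _ θ b hθ hθ1 hb
  obtain ⟨al, hal, halb, L₀, hL₀⟩ := winK K 1 b zero_le_one hb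
  obtain ⟨J₀, hJ₀⟩ := exists_pow_lt_of_lt_one (div_pos hal hb) hθ1
  set J : ℕ := J₀ + 1 with hJ
  have hθJ : θ ^ J * b < al := by
    have h1 : θ ^ J ≤ θ ^ J₀ := pow_le_pow_of_le_one hθ.le hθ1.le (by omega)
    calc θ ^ J * b ≤ θ ^ J₀ * b := mul_le_mul_of_nonneg_right h1 hb.le
      _ < al / b * b := mul_lt_mul_of_pos_right hJ₀ hb
      _ = al := by field_simp
  have hθJ0 : 0 < θ ^ J := pow_pos hθ J
  have hJ0 : (0 : ℝ) < J := by rw [hJ]; positivity
  refine ⟨θ ^ J * b, 1 / J, max L₀ (max 1 (Real.log 3 / al)), by positivity, by linarith,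
    by positivity, fun lam hlam => ?_⟩
  have hl1 : L₀ ≤ lam := (le_max_left _ _).trans hlam
  have hl2 : 1 ≤ lam := ((le_max_left _ _).trans (le_max_right _ _)).trans hlam
  have hl3 : Real.log 3 / al ≤ lam := ((le_max_right _ _).trans (le_max_right _ _)).trans hlam
  have hlam0 : 0 < lam := by linarith
  have hl4 : Real.log 3 ≤ al * lam := by
    rw [div_le_iff₀ hal] at hl3
    linarith
  set T : Finset ℕ := (pr 3 ⌊Real.exp (b * lam)⌋₊).filter (fun p : ℕ => al * lam < Real.log p)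
    with hT
  set W : ℕ → Finset ℕ := fun j => (pr 3 ⌊Real.exp (θ ^ j * (b * lam))⌋₊).filter
    (fun p : ℕ => θ * (θ ^ j * (b * lam)) ≤ Real.log p) with hW
  set f : ℕ → ℝ := fun p => ((D1 K p).card : ℝ) / p with hf
  have hf0 : ∀ p, 0 ≤ f p := fun p => by positivity
  have hmem : ∀ (p : ℕ) (B : ℝ), p.Prime → Real.log 3 < Real.log p → Real.log p ≤ B →
      p ∈ pr 3 ⌊Real.exp B⌋₊ := by
    intro p B hp h3 h4
    have hp0 : (0 : ℝ) < p := by exact_mod_cast hp.pos
    have h5 : (3 : ℝ) < p := (Real.log_lt_log_iff (by norm_num) hp0).1 h3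
    refine Finset.mem_filter.2 ⟨Finset.mem_Ioc.2 ⟨by exact_mod_cast h5, Nat.le_floor ?_⟩, hp⟩
    rw [← Real.exp_log hp0]
    exact Real.exp_le_exp.2 h4
  have h1 : 1 ≤ ∑ p ∈ T, f p := hL₀ lam hl1 T fun p hp h3 h4 =>
    Finset.mem_filter.2 ⟨hmem p _ hp (lt_of_le_of_lt hl4 h3) h4, h3⟩
  have h2 : ∑ p ∈ T, f p ≤ ∑ j ∈ Finset.range J, ∑ p ∈ W j, f p := by
    calc ∑ p ∈ T, f p ≤ ∑ p ∈ T, ∑ j ∈ Finset.range J, (if p ∈ W j then f p else 0) := by
          refine Finset.sum_le_sum fun p hp => ?_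
          obtain ⟨hp1, hp2⟩ := Finset.mem_filter.1 hp
          obtain ⟨hp3, hp4⟩ := Finset.mem_filter.1 hp1
          obtain ⟨hp5, hp6⟩ := Finset.mem_Ioc.1 hp3
          have hp0 : (0 : ℝ) < p := by exact_mod_cast hp4.pos
          have h3 : Real.log p ≤ b * lam := by
            rw [← Real.log_exp (b * lam)]
            refine Real.log_le_log hp0 ?_
            exact (Nat.cast_le.2 hp6).trans (Nat.floor_le (Real.exp_pos _).le)
          have h4 : θ ^ J * (b * lam) < Real.log p := by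
            refine lt_trans ?_ hp2
            rw [← mul_assoc]
            exact mul_lt_mul_of_pos_right hθJ hlam0
          obtain ⟨j, hj, h5, h6⟩ := geo J h4 h3
          have h7 : p ∈ W j := by
            refine Finset.mem_filter.2 ⟨hmem p _ hp4 ?_ h6, h5⟩
            exact Real.log_lt_log (by norm_num) (by exact_mod_cast hp5)
          calc f p = if p ∈ W j then f p else 0 := by rw [if_pos h7]
            _ ≤ _ := Finset.single_le_sum (f := fun j => if p ∈ W j then f p else 0)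
                (fun i _ => by
                  show 0 ≤ if p ∈ W i then f p else 0
                  split_ifs
                  · exact hf0 p
                  · exact le_refl _) (Finset.mem_range.2 hj)
      _ = ∑ j ∈ Finset.range J, ∑ p ∈ T, (if p ∈ W j then f p else 0) := Finset.sum_comm
      _ ≤ ∑ j ∈ Finset.range J, ∑ p ∈ W j, f p := by
          refine Finset.sum_le_sum fun j _ => ?_
          rw [← Finset.sum_filter]
          refine Finset.sum_le_sum_of_subset_of_nonneg ?_ fun p _ _ => hf0 p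
          intro p hp
          exact (Finset.mem_filter.1 hp).2
  obtain ⟨j, hj, h3⟩ : ∃ j ∈ Finset.range J, (1 : ℝ) / J ≤ ∑ p ∈ W j, f p := by
    refine Finset.exists_le_of_sum_le (s := Finset.range J) ⟨0, Finset.mem_range.2 (by omega)⟩ ?_
    rw [Finset.sum_const, Finset.card_range, nsmul_eq_mul]
    calc (J : ℝ) * (1 / J) = 1 := by field_simp
      _ ≤ _ := h1.trans h2
  have hjJ : j < J := Finset.mem_range.1 hj
  have hj1 : θ ^ J ≤ θ ^ j := pow_le_pow_of_le_one hθ.le hθ1.le hjJ.le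
  have hj2 : θ ^ j ≤ 1 := pow_le_one₀ hθ.le hθ1.le
  have hbl : 0 < b * lam := by positivity
  refine ⟨θ ^ j * (b * lam), ?_, ?_, h3⟩
  · rw [mul_assoc]
    exact mul_le_mul_of_nonneg_right hj1 hbl.le
  · exact mul_le_of_le_one_left hbl.le hj2

end MP7ed9c3.Pz
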