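import Pool.Agent.Lib.MP_7ed9c3_nt.Pz.SpecZ

/-!
# MP_7ed9c3_nt, part Pz.  Z3, the choice of the window (helper63)
-/

set_option autoImplicit false

namespace MP7ed9c3.Pz

open NumberField IsDedekindDomain MP7ed9c3 MP7ed9c3.Tw MP7ed9c3.Tz

private theorem Wk_pow (s ε : ℝ) (hs : s < 1) (hε : 0 < ε) :
    ∀ᶠ lam : ℝ in Filter.atTop, lam ^ s < ε * lam := by
  filter_upwards [(tendsto_rpow_atTop (sub_pos.2 hs)).eventually_gt_atTop (1 / ε),
    Filter.eventually_gt_atTop 0] with lam h1 h2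
  have e : lam ^ s * lam ^ (1 - s) = lam := by
    rw [← Real.rpow_add h2]
    simp
  have h3 : 0 < lam ^ s := Real.rpow_pos_of_pos h2 s
  have h4 : 1 < ε * lam ^ (1 - s) := by
    rw [div_lt_iff₀ hε] at h1
    linarith
  calc lam ^ s = lam ^ s * 1 := (mul_one _).symm
    _ < lam ^ s * (ε * lam ^ (1 - s)) := mul_lt_mul_of_pos_left h4 h3
    _ = ε * (lam ^ s * lam ^ (1 - s)) := by ring
    _ = ε * lam := by rw [e]

private theorem Wk_large (e ε δ Λ : ℝ) (he : 0 < e) (hε : 0 < ε) (hδ : 0 < δ) :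
    ∃ Z₀ : ℕ, ∀ Z : ℕ, Z₀ ≤ Z → 1 ≤ Z ∧ 1 ≤ Real.log Z ∧ Λ ≤ Real.log Z ∧
      Real.log Z ^ (2 / 3 : ℝ) < ε * Real.log Z ∧ Real.log Z ^ (1 - e) < δ * Real.log Z := by
  have t : Filter.Tendsto (fun Z : ℕ => Real.log (Z : ℝ)) Filter.atTop Filter.atTop :=
    Real.tendsto_log_atTop.comp tendsto_natCast_atTop_atTop
  obtain ⟨Z₀, h⟩ := Filter.eventually_atTop.1 (((((Filter.eventually_ge_atTop (1 : ℕ)).and
    (t.eventually_ge_atTop 1)).and (t.eventually_ge_atTop Λ)).and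
    (t.eventually (Wk_pow (2 / 3) ε (by norm_num) hε))).and
    (t.eventually (Wk_pow (1 - e) δ (by linarith) hδ)))
  refine ⟨Z₀, fun Z hZ => ?_⟩
  obtain ⟨⟨⟨⟨a1, a2⟩, a3⟩, a4⟩, a5⟩ := h Z hZ
  exact ⟨a1, a2, a3, a4, a5⟩

private theorem Wk_mean_sum {ι : Type} [Fintype ι] {J : Type} (s : Finset J) (p : ℕ)
    (f : J → (ι → ℤ) → ℝ) :
    mean p (fun a => ∑ j ∈ s, f j a) = ∑ j ∈ s, mean p (f j) := by
  classical
  unfold mean
  rw [Finset.sum_comm, Finset.sum_div]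

private theorem Wk_mean_sq {K : Type} [Field K] [NumberField K] (h4 : S_TrMean) {p : ℕ} (hp : p.Prime)
    (h3 : 3 < p) :
    mean p (fun a : Ix K ⊕ Ix K → ℤ => (∑ v ∈ D1 K p, trp v a) ^ 2) =
      ((D1 K p).card : ℝ) * ((p : ℝ) - 1) := by
  classical
  have e : (fun a : Ix K ⊕ Ix K → ℤ => (∑ v ∈ D1 K p, trp v a) ^ 2) =
      fun a => ∑ v ∈ D1 K p, ∑ w ∈ D1 K p, trp v a * trp w a := by
    funext a
    rw [sq, Finset.sum_mul_sum]
  rw [e, Wk_mean_sum]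
  have e2 : ∀ v ∈ D1 K p,
      mean p (fun a : Ix K ⊕ Ix K → ℤ => ∑ w ∈ D1 K p, trp v a * trp w a) = (p : ℝ) - 1 := by
    intro v hv
    rw [Wk_mean_sum]
    obtain ⟨-, -, h5, h6⟩ := h4 K p hp h3 v hv
    rw [Finset.sum_eq_single_of_mem v hv (fun w hw hwv => h6 w hw hwv), ← h5]
    congr 1
    funext a
    ring
  rw [Finset.sum_congr rfl e2, Finset.sum_const, nsmul_eq_mul]

private theorem Wk_mean_nonneg {ι : Type} [Fintype ι] (p : ℕ) (f : (ι → ℤ) → ℝ) :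
    0 ≤ mean p (fun a => f a ^ 2) := by
  unfold mean
  exact div_nonneg (Finset.sum_nonneg fun _ _ => sq_nonneg _) (pow_nonneg (Nat.cast_nonneg _) _)

private theorem Wk_Kf_nonneg (σ₂ h₂ μ t₀ : ℝ) (R p : ℕ) : 0 ≤ Kf σ₂ h₂ μ t₀ R p p := by
  unfold Kf
  refine mul_nonneg (mul_nonneg (Real.sqrt_nonneg _) (Real.exp_pos _).le)
    (Finset.sum_nonneg fun r _ => mul_nonneg (Real.exp_pos _).le ?_)
  rw [Complex.mul_conj, Complex.ofReal_re]
  exact Complex.normSq_nonneg _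

private theorem Wk_sum (K : Type) [Field K] [NumberField K] (S T : Finset ℕ) (hST : S ⊆ T)
    (c₁ c : ℝ) (hc₁ : 0 < c₁) (g k : ℕ → ℝ) (hT : ∀ p ∈ T, 0 ≤ g p * k p)
    (hg : ∀ p ∈ S, ((D1 K p).card : ℝ) * ((p : ℝ) / 2) ≤ g p)
    (hk : ∀ p ∈ S, c₁ / (p : ℝ) ^ 2 ≤ k p) (hpos : ∀ p ∈ S, (0 : ℝ) < (p : ℝ))
    (hc : c ≤ ∑ p ∈ S, ((D1 K p).card : ℝ) / p) :
    c₁ * c / 2 ≤ ∑ p ∈ T, g p * k p := by
  calc c₁ * c / 2 = c₁ / 2 * c := by ring
    _ ≤ c₁ / 2 * ∑ p ∈ S, ((D1 K p).card : ℝ) / p :=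
        mul_le_mul_of_nonneg_left hc (by linarith)
    _ = ∑ p ∈ S, ((D1 K p).card : ℝ) * ((p : ℝ) / 2) * (c₁ / (p : ℝ) ^ 2) := by
        rw [Finset.mul_sum]
        refine Finset.sum_congr rfl fun p hp => ?_
        have hp0 := hpos p hp
        field_simp
    _ ≤ ∑ p ∈ S, g p * k p := Finset.sum_le_sum fun p hp => by
        have hp0 := hpos p hp
        have hn : 0 ≤ ((D1 K p).card : ℝ) * ((p : ℝ) / 2) := by positivity
        exact mul_le_mul (hg p hp) (hk p hp) (by positivity) (hn.trans (hg p hp))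
    _ ≤ ∑ p ∈ T, g p * k p := Finset.sum_le_sum_of_subset_of_nonneg hST fun p hp _ => hT p hp

theorem wk (h1 : S_K1) (h2 : S_Win) (h3 : S_TrMean) (h4 : S_Prim) : S_Wk := by
  intro K _ _ σ₂ h₂ hσ hσ1 hh hh2 β hβ
  obtain ⟨x, hx⟩ : ∃ x : ℝ, x = Real.pi / (2 * h₂) := ⟨_, rfl⟩
  have hx1 : 1 ≤ x := by
    rw [hx, le_div_iff₀ (by linarith)]
    have := Real.pi_gt_three
    linarith
  obtain ⟨a, ha⟩ : ∃ a : ℝ, a = x * (1 - σ₂) := ⟨_, rfl⟩
  have ha1 : a1 σ₂ h₂ = a := by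
    unfold a1
    rw [ha, hx]
    ring
  have ha3 : Real.pi * (3 - σ₂) / (2 * h₂) = a + 2 * x := by
    rw [ha, hx]
    ring
  have ha0 : 0 < a := by
    rw [ha]
    exact mul_pos (by linarith) (by linarith)
  have hsh : 0 < Real.sinh a := Real.sinh_pos_iff.2 ha0
  have hch : 1 ≤ Real.cosh a := Real.one_le_cosh a
  obtain ⟨y, hy⟩ : ∃ y : ℝ, y = x * Real.cosh a := ⟨_, rfl⟩
  have hy1 : 1 ≤ y := by
    rw [hy]
    nlinarith
  obtain ⟨s₃, hs₃⟩ : ∃ s : ℝ, s = Real.sinh (a + 2 * x) := ⟨_, rfl⟩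
  have hys : y ≤ s₃ := by
    rw [hy, hs₃, Real.sinh_add]
    have i1 : 2 * x ≤ Real.sinh (2 * x) := Real.self_le_sinh_iff.2 (by linarith)
    have i3 : 0 < Real.sinh a * Real.cosh (2 * x) := mul_pos hsh (Real.cosh_pos _)
    have i4 : Real.cosh a * (2 * x) ≤ Real.cosh a * Real.sinh (2 * x) :=
      mul_le_mul_of_nonneg_left i1 (by linarith)
    have i5 : 0 ≤ x * Real.cosh a := mul_nonneg (by linarith) (by linarith)
    linarith
  have hs0 : 0 < s₃ := by linarith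
  have hy0 : 0 < y := by linarith
  obtain ⟨b, hb⟩ : ∃ b : ℝ, b = y / (2 * s₃) := ⟨_, rfl⟩
  have hb0 : 0 < b := by
    rw [hb]
    positivity
  have hb1 : b ≤ 1 / 2 := by
    rw [hb, div_le_iff₀ (by linarith)]
    linarith
  have hbs : 2 * b * s₃ = y := by
    rw [hb]
    field_simp
  obtain ⟨mn, hmn⟩ : ∃ mn : ℝ, mn = min (Real.sinh a) 1 := ⟨_, rfl⟩
  have hmn0 : 0 < mn := by
    rw [hmn]
    exact lt_min hsh one_pos
  have hmn1 : mn ≤ 1 := by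
    rw [hmn]
    exact min_le_right _ _
  have hmns : mn ≤ Real.sinh a := by
    rw [hmn]
    exact min_le_left _ _
  obtain ⟨d, hd⟩ : ∃ d : ℝ, d = mn / (4 * y) := ⟨_, rfl⟩
  have hd0 : 0 < d := by
    rw [hd]
    positivity
  have hd1 : d ≤ 1 / 4 := by
    rw [hd, div_le_iff₀ (by linarith)]
    linarith
  have hdy : d * y = mn / 4 := by
    rw [hd]
    field_simp
  obtain ⟨α, c, lam₀, hα, hαb, hc, hW⟩ := h2 K (1 - d) b (by linarith) (by linarith) hb0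
  obtain ⟨m₀, hm₀⟩ : ∃ m : ℝ, m = α / y := ⟨_, rfl⟩
  have hm0 : 0 < m₀ := by
    rw [hm₀]
    positivity
  have hm1 : m₀ ≤ 1 := by
    rw [hm₀, div_le_one hy0]
    linarith
  have hmy : m₀ * y = α := by
    rw [hm₀]
    field_simp
  obtain ⟨C₁, c₁, lam₁, hC₁, hc₁, hK⟩ := h1 σ₂ h₂ m₀ 1 hσ hσ1 hh hh2 hm0 hm1
  refine ⟨C₁, c₁ * c / 2, m₀, hC₁, by positivity, hm0, ?_⟩
  intro e he he3
  obtain ⟨Z₀, hZ₀⟩ := Wk_large e (min b (m₀ * mn / 12)) ((1 - d) * α) (max lam₀ lam₁) he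
    (lt_min hb0 (by positivity)) (mul_pos (by linarith) hα)
  refine ⟨Z₀, fun Z hZ => ?_⟩
  obtain ⟨hZ1, hl1, hlΛ, hp1, hp2⟩ := hZ₀ Z hZ
  have hZ0 : (0 : ℝ) < Z := by
    have : (1 : ℝ) ≤ Z := by exact_mod_cast hZ1
    linarith
  have hZe : Real.exp (Real.log Z) = (Z : ℝ) := Real.exp_log hZ0
  obtain ⟨lam, hlam⟩ : ∃ lam : ℝ, lam = Real.log Z := ⟨_, rfl⟩
  have hzf : zf e Z = ⌊Real.exp (lam ^ (1 - e))⌋₊ := by
    unfold zf
    rw [hlam]
  rw [← hlam] at hl1 hlΛ hp1 hp2 hZe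
  rw [← hlam]
  obtain ⟨u, hu1, hu2, hu3⟩ := hW lam ((le_max_left _ _).trans hlΛ)
  obtain ⟨q, hq⟩ : ∃ q : ℝ, q = lam ^ (2 / 3 : ℝ) := ⟨_, rfl⟩
  have hq1 : 1 ≤ q := by
    rw [hq]
    exact Real.one_le_rpow hl1 (by norm_num)
  have hp3 : q < b * lam := by
    rw [hq]
    exact hp1.trans_le (mul_le_mul_of_nonneg_right (min_le_left _ _) (by linarith))
  have hp4 : 12 * q < m₀ * mn * lam := by
    have i1 : q < m₀ * mn / 12 * lam := by
      rw [hq]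
      exact hp1.trans_le (mul_le_mul_of_nonneg_right (min_le_right _ _) (by linarith))
    linarith
  obtain ⟨μ, hμ⟩ : ∃ μ : ℝ, μ = (u + q) / y := ⟨_, rfl⟩
  have hμy : μ * y = u + q := by
    rw [hμ]
    field_simp
  have hαl : 0 < α * lam := mul_pos hα (by linarith)
  have hμ0 : 0 < μ := by
    rw [hμ]
    exact div_pos (by linarith) hy0
  have hμm : m₀ * lam ≤ μ := by
    have i1 : m₀ * lam * y ≤ μ * y := by
      have : m₀ * lam * y = α * lam := by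
        rw [← hmy]
        ring
      rw [this, hμy]
      linarith
    exact le_of_mul_le_mul_right i1 hy0
  have hμs : μ * s₃ ≤ lam := by
    have i1 : μ * y ≤ 2 * b * lam := by
      rw [hμy]
      linarith
    have i2 : μ * s₃ * (2 * b) ≤ lam * (2 * b) := by
      calc μ * s₃ * (2 * b) = μ * (2 * b * s₃) := by ring
        _ = μ * y := by rw [hbs]
        _ ≤ 2 * b * lam := i1
        _ = lam * (2 * b) := by ring
    exact le_of_mul_le_mul_right i2 (by linarith)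
  have hμl : μ ≤ 1 * lam := by
    have i1 : μ * 1 ≤ μ * s₃ := mul_le_mul_of_nonneg_left (by linarith) hμ0.le
    linarith
  have hkst : kst σ₂ h₂ μ = u + q := by
    unfold kst
    rw [ha1, ← hx, ← hμy, hy]
    ring
  have hR : (⌈d * u + 2 * q⌉₊ : ℝ) ≤ μ * mn / 2 := by
    have i0 : 0 ≤ d * u + 2 * q := by
      have : 0 < d * u := mul_pos hd0 (by linarith)
      linarith
    have i1 : (⌈d * u + 2 * q⌉₊ : ℝ) < d * u + 2 * q + 1 := Nat.ceil_lt_add_one i0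
    have i2 : d * u ≤ μ * mn / 4 := by
      calc d * u ≤ d * (μ * y) := mul_le_mul_of_nonneg_left (by linarith) hd0.le
        _ = μ * (d * y) := by ring
        _ = μ * mn / 4 := by
          rw [hdy]
          ring
    have i3 : m₀ * mn * lam ≤ μ * mn := by
      calc m₀ * mn * lam = m₀ * lam * mn := by ring
        _ ≤ μ * mn := mul_le_mul_of_nonneg_right hμm hmn0.le
    linarith
  have hRs : (⌈d * u + 2 * q⌉₊ : ℝ) ≤ μ * Real.sinh a / 2 := by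
    have i1 : μ * mn ≤ μ * Real.sinh a := mul_le_mul_of_nonneg_left hmns hμ0.le
    linarith
  have hRμ : (⌈d * u + 2 * q⌉₊ : ℝ) ≤ μ := by
    have i1 : μ * mn ≤ μ * 1 := mul_le_mul_of_nonneg_left hmn1 hμ0.le
    linarith
  refine ⟨μ, ⌈d * u + 2 * q⌉₊, hμm, ?_, ?_, ?_⟩
  · rw [ha3, ← hs₃]
    exact hμs
  · rw [ha1]
    exact hRs
  intro t₀
  obtain ⟨hK1, hK2⟩ := hK lam μ t₀ ⌈d * u + 2 * q⌉₊ ((le_max_right _ _).trans hlΛ) hμm hμl hRμ
  have hlog : ∀ l ∈ Finset.Icc 1 Z, 1 ≤ l ∧ Real.log l ≤ lam := by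
    intro l hl
    obtain ⟨l1, l2⟩ := Finset.mem_Icc.1 hl
    refine ⟨l1, ?_⟩
    rw [hlam]
    exact Real.log_le_log (by exact_mod_cast l1) (by exact_mod_cast l2)
  refine ⟨fun l hl m hm => hK1 l m (hlog l hl).1 (hlog m hm).1 (hlog l hl).2 (hlog m hm).2, ?_⟩
  have hmem : ∀ p : ℕ, p ∈ pr 3 ⌊Real.exp u⌋₊ → (1 - d) * u ≤ Real.log p →
      p.Prime ∧ 3 < p ∧ Real.log p ≤ u ∧ p ∈ pr (zf e Z) Z := by
    intro p hp hpu
    unfold pr at hp
    obtain ⟨hp', hpp⟩ := Finset.mem_filter.1 hp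
    obtain ⟨hp3', hpe⟩ := Finset.mem_Ioc.1 hp'
    have hp0 : (0 : ℝ) < p := by exact_mod_cast hpp.pos
    have hpe' : (p : ℝ) ≤ Real.exp u := (Nat.le_floor_iff (Real.exp_pos u).le).1 hpe
    have hlu : Real.log p ≤ u := (Real.log_le_iff_le_exp hp0).2 hpe'
    refine ⟨hpp, hp3', hlu, ?_⟩
    unfold pr
    refine Finset.mem_filter.2 ⟨Finset.mem_Ioc.2 ⟨?_, ?_⟩, hpp⟩
    · rw [hzf, Nat.floor_lt (Real.exp_pos _).le, ← Real.lt_log_iff_exp_lt hp0]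
      have i1 : (1 - d) * α * lam ≤ (1 - d) * u := by
        rw [mul_assoc]
        exact mul_le_mul_of_nonneg_left hu1 (by linarith)
      linarith
    · have i1 : u ≤ lam := by
        have : b * lam ≤ 1 / 2 * lam := mul_le_mul_of_nonneg_right hb1 (by linarith)
        linarith
      have i2 : (p : ℝ) ≤ Z := by
        rw [← hZe]
        exact hpe'.trans (Real.exp_le_exp.2 i1)
      exact_mod_cast i2
  refine Wk_sum K _ _ ?_ c₁ c hc₁ _ _ ?_ ?_ ?_ ?_ hu3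
  · intro p hp
    obtain ⟨hp1', hp2'⟩ := Finset.mem_filter.1 hp
    exact (hmem p hp1' hp2').2.2.2
  · intro p _
    exact mul_nonneg (Wk_mean_nonneg p _) (Wk_Kf_nonneg _ _ _ _ _ _)
  · intro p hp
    obtain ⟨hp1', hp2'⟩ := Finset.mem_filter.1 hp
    obtain ⟨hpp, hp3', -, -⟩ := hmem p hp1' hp2'
    have e1 : (fun a : Ix K ⊕ Ix K → ℤ => β p 1 a ^ 2) = fun a => (∑ v ∈ D1 K p, trp v a) ^ 2 := by
      funext a
      rw [hβ p hpp hp3' a]
    rw [e1, Wk_mean_sq h3 hpp hp3']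
    have i1 : (3 : ℝ) < p := by exact_mod_cast hp3'
    exact mul_le_mul_of_nonneg_left (by linarith) (Nat.cast_nonneg _)
  · intro p hp
    obtain ⟨hp1', hp2'⟩ := Finset.mem_filter.1 hp
    obtain ⟨hpp, -, hlu, -⟩ := hmem p hp1' hp2'
    refine hK2 p hpp.one_le ?_ ?_
    · rw [hkst, ← hq]
      linarith
    · rw [hkst, ← hq]
      have i1 : d * u + 2 * q ≤ (⌈d * u + 2 * q⌉₊ : ℝ) := Nat.le_ceil _
      linarith
  · intro p hp
    obtain ⟨hp1', hp2'⟩ := Finset.mem_filter.1 hp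
    exact_mod_cast (hmem p hp1' hp2').1.pos

end MP7ed9c3.Pz
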