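import Pool.Agent.Lib.MP_7ed9c3_nt.Pz.PzMain
import Pool.Agent.Lib.MP_7ed9c3_nt.Pz.Small
import Pool.Agent.Lib.MP_7ed9c3_nt.Pz.Wk
import Pool.Agent.Lib.MP_7ed9c3_nt.Pz.Quad
import Pool.Agent.Lib.MP_7ed9c3_nt.Pz.K1
import Pool.Agent.Lib.MP_7ed9c3_nt.Pz.K2b
import Pool.Agent.Lib.MP_7ed9c3_nt.Pz.Win
import Pool.Agent.Lib.MP_7ed9c3_nt.Few.Asm
import Pool.Agent.Lib.MP_7ed9c3_nt.Pz.H.AllH

/-!
# MP_7ed9c3_nt, part Pz: all parts except the moment theorem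
-/

set_option autoImplicit false

namespace MP7ed9c3.Pz

open NumberField IsDedekindDomain MP7ed9c3 MP7ed9c3.Tw MP7ed9c3.Tz

theorem pzOf (h : S_MT) : S_PZ :=
  pz h (small quad fewPoints mollA rightA s_K2) (wk tK1 win trMeanA prim) localA coord quad

end MP7ed9c3.Pz
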