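import Pool.Agent.Lib.MP_7ed9c3_nt.Pz.SpecZ

/-!
# MP_7ed9c3_nt, part Pz: proof of `S_PZ` from the parts
-/

set_option autoImplicit false

namespace MP7ed9c3.Pz

open NumberField IsDedekindDomain MP7ed9c3 MP7ed9c3.Tw MP7ed9c3.Tz Filter

private theorem box_sub {σ₁ σ t₀ t₁ h k : ℝ} (h1 : σ₁ ≤ σ) (h2 : |t₀ - t₁| ≤ k) (h3 : k + k ≤ h) :
    box σ t₁ k ⊆ box σ₁ t₀ h := by
  intro s hs
  refine ⟨lt_of_le_of_lt h1 hs.1, ?_⟩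
  have h4 : |s.im - t₁| < k := hs.2
  have h5 : s.im - t₀ = (s.im - t₁) + (t₁ - t₀) := by ring
  rw [h5]
  have h6 := abs_add_le (s.im - t₁) (t₁ - t₀)
  rw [abs_sub_comm t₁ t₀] at h6
  linarith

/-- A nearby point of the grid. -/
private theorem grid {x T k H : ℝ} (hk : 0 < k) (h1 : |x - T| ≤ H) :
    ∃ j : ℕ, j ∈ Finset.range (2 * (⌈H / k⌉₊ + 1) + 1) ∧
      |x - (T + (((j : ℤ) - ((⌈H / k⌉₊ + 1 : ℕ) : ℤ) : ℤ) : ℝ) * k)| ≤ k := by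
  set J : ℕ := ⌈H / k⌉₊ + 1 with hJ
  set i : ℤ := ⌊(x - T) / k⌋ with hi
  have h2 : (i : ℝ) ≤ (x - T) / k := Int.floor_le _
  have h3 : (x - T) / k < i + 1 := Int.lt_floor_add_one _
  have h4 : |(x - T) / k| ≤ H / k := by
    rw [abs_div, abs_of_pos hk]
    exact div_le_div_of_nonneg_right h1 hk.le
  have h5 : H / k ≤ (⌈H / k⌉₊ : ℝ) := Nat.le_ceil _
  have h6 := abs_le.1 h4
  have h7 : (-(J : ℤ) : ℝ) ≤ i := by
    have : ((J : ℕ) : ℝ) = (⌈H / k⌉₊ : ℝ) + 1 := by rw [hJ]; push_cast; ring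
    push_cast
    rw [this]
    linarith
  have h8 : (i : ℝ) ≤ J := by
    have : ((J : ℕ) : ℝ) = (⌈H / k⌉₊ : ℝ) + 1 := by rw [hJ]; push_cast; ring
    rw [this]
    linarith
  have h9 : -(J : ℤ) ≤ i := by exact_mod_cast h7
  have h10 : i ≤ (J : ℤ) := by exact_mod_cast h8
  obtain ⟨j, hj⟩ := Int.eq_ofNat_of_zero_le (show 0 ≤ i + J by linarith)
  refine ⟨j, ?_, ?_⟩
  · rw [Finset.mem_range]
    have : (j : ℤ) ≤ 2 * (J : ℤ) := by rw [← hj]; linarith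
    omega
  · have h11 : (((j : ℤ) - (J : ℤ) : ℤ) : ℝ) = i := by
      rw [← hj]; push_cast; ring
    rw [h11]
    have h12 : x - (T + (i : ℝ) * k) = ((x - T) / k - i) * k := by
      field_simp; ring
    rw [h12, abs_mul, abs_of_pos hk]
    have h13 : |(x - T) / k - i| ≤ 1 := by
      rw [abs_le]; constructor <;> linarith
    nlinarith

private theorem ev_num (n : ℕ) (C k : ℝ) (hC : 1 ≤ C) (hk : 0 < k) :
    ∀ᶠ Y : ℝ in atTop, ((2 * (⌈Real.log Y ^ (1 / 20 : ℝ) / k⌉₊ + 1) + 1 : ℕ) : ℝ) *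
      (((2 * ⌈C * Y⌉₊ + 1 : ℕ) : ℝ) ^ (2 * n) * Real.log ⌊Y ^ (1 / 24 : ℝ)⌋₊ ^ (-(3 / 10 : ℝ))) ≤
        Y ^ (2 * (n : ℝ)) * Real.log Y ^ (-(1 / 5 : ℝ)) := by
  have hA : ∀ᶠ Y : ℝ in atTop,
      (5 + 2 / k + 1) * ((7 * C) ^ (2 * n) * (48 : ℝ) ^ (3 / 10 : ℝ)) ≤ Real.log Y ^ (1 / 20 : ℝ) :=
    ((tendsto_rpow_atTop (by norm_num : (0 : ℝ) < 1 / 20)).comp Real.tendsto_log_atTop).eventually_ge_atTop _
  filter_upwards [hA, eventually_ge_atTop (1 : ℝ), Real.tendsto_log_atTop.eventually_ge_atTop (96 : ℝ)]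
    with Y h1 hY hl
  have hl0 : 0 < Real.log Y := by linarith
  have hY0 : 0 < Y := by linarith
  set P : ℝ := Real.log Y ^ (1 / 20 : ℝ) with hP
  have hP1 : 1 ≤ P := Real.one_le_rpow (by linarith) (by norm_num)
  have e1 : ((2 * (⌈P / k⌉₊ + 1) + 1 : ℕ) : ℝ) ≤ (5 + 2 / k + 1) * P := by
    have h2 : (⌈P / k⌉₊ : ℝ) < P / k + 1 := Nat.ceil_lt_add_one (by positivity)
    push_cast
    have h3 : P / k = (1 / k) * P := by ring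
    have h4 : (2 / k) * P = 2 * ((1 / k) * P) := by ring
    nlinarith
  have e2 : ((2 * ⌈C * Y⌉₊ + 1 : ℕ) : ℝ) ≤ 7 * C * Y := by
    have h2 : (⌈C * Y⌉₊ : ℝ) < C * Y + 1 := Nat.ceil_lt_add_one (by positivity)
    have h3 : 1 ≤ C * Y := by nlinarith
    push_cast
    linarith
  have e3 : Real.log Y / 48 ≤ Real.log ⌊Y ^ (1 / 24 : ℝ)⌋₊ := by
    have h2 : (Y : ℝ) ^ (1 / 24 : ℝ) = Real.exp (Real.log Y / 24) := by
      rw [Real.rpow_def_of_pos hY0]; congr 1; ring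
    have h3 : Real.exp (Real.log Y / 24) ≥ 2 := by
      have : Real.exp 1 ≤ Real.exp (Real.log Y / 24) := Real.exp_le_exp.2 (by linarith)
      have := Real.exp_one_gt_d9
      linarith
    have h4 : Real.exp (Real.log Y / 24) - 1 < (⌊Y ^ (1 / 24 : ℝ)⌋₊ : ℝ) := by
      rw [h2]; have := Nat.lt_floor_add_one (Real.exp (Real.log Y / 24)); linarith
    have h5 : Real.exp (Real.log Y / 48) ≤ (⌊Y ^ (1 / 24 : ℝ)⌋₊ : ℝ) := by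
      have h6 : Real.exp (Real.log Y / 24) = Real.exp (Real.log Y / 48) * Real.exp (Real.log Y / 48) := by
        rw [← Real.exp_add]; congr 1; ring
      have h7 : 2 ≤ Real.exp (Real.log Y / 48) := by
        have : Real.exp 1 ≤ Real.exp (Real.log Y / 48) := Real.exp_le_exp.2 (by linarith)
        have := Real.exp_one_gt_d9
        linarith
      nlinarith
    calc Real.log Y / 48 = Real.log (Real.exp (Real.log Y / 48)) := (Real.log_exp _).symm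
      _ ≤ _ := Real.log_le_log (Real.exp_pos _) h5
  have e4 : Real.log ⌊Y ^ (1 / 24 : ℝ)⌋₊ ^ (-(3 / 10 : ℝ)) ≤
      (48 : ℝ) ^ (3 / 10 : ℝ) * Real.log Y ^ (-(3 / 10 : ℝ)) := by
    have h2 : Real.log ⌊Y ^ (1 / 24 : ℝ)⌋₊ ^ (-(3 / 10 : ℝ)) ≤ (Real.log Y / 48) ^ (-(3 / 10 : ℝ)) :=
      Real.rpow_le_rpow_of_nonpos (by positivity) e3 (by norm_num)
    refine h2.trans (le_of_eq ?_)
    rw [Real.div_rpow hl0.le (by norm_num), Real.rpow_neg (by norm_num : (0 : ℝ) ≤ 48)]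
    field_simp
  have e5 : (((2 * ⌈C * Y⌉₊ + 1 : ℕ) : ℝ)) ^ (2 * n) ≤ (7 * C) ^ (2 * n) * Y ^ (2 * (n : ℝ)) := by
    have h2 : (((2 * ⌈C * Y⌉₊ + 1 : ℕ) : ℝ)) ^ (2 * n) ≤ (7 * C * Y) ^ (2 * n) :=
      pow_le_pow_left₀ (by positivity) e2 _
    have h3 : Y ^ (2 * (n : ℝ)) = Y ^ (2 * n) := by
      rw [← Real.rpow_natCast]; push_cast; ring_nf
    rw [h3, ← mul_pow]
    exact h2
  have e6 : Real.log Y ^ (-(3 / 10 : ℝ)) * P * P = Real.log Y ^ (-(1 / 5 : ℝ)) := by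
    rw [hP, ← Real.rpow_add hl0, ← Real.rpow_add hl0]; norm_num
  have hYn : 0 ≤ Y ^ (2 * (n : ℝ)) := Real.rpow_nonneg hY0.le _
  have hl3 : 0 ≤ Real.log Y ^ (-(3 / 10 : ℝ)) := Real.rpow_nonneg hl0.le _
  have hlz : 0 ≤ Real.log (⌊Y ^ (1 / 24 : ℝ)⌋₊ : ℝ) ^ (-(3 / 10 : ℝ)) :=
    Real.rpow_nonneg (by linarith [e3, div_nonneg hl0.le (by norm_num : (0:ℝ) ≤ 48)]) _
  calc ((2 * (⌈P / k⌉₊ + 1) + 1 : ℕ) : ℝ) *
      (((2 * ⌈C * Y⌉₊ + 1 : ℕ) : ℝ) ^ (2 * n) * Real.log ⌊Y ^ (1 / 24 : ℝ)⌋₊ ^ (-(3 / 10 : ℝ)))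
      ≤ ((5 + 2 / k + 1) * P) * (((7 * C) ^ (2 * n) * Y ^ (2 * (n : ℝ))) *
        ((48 : ℝ) ^ (3 / 10 : ℝ) * Real.log Y ^ (-(3 / 10 : ℝ)))) := by
        gcongr
    _ = ((5 + 2 / k + 1) * ((7 * C) ^ (2 * n) * (48 : ℝ) ^ (3 / 10 : ℝ))) *
        (Y ^ (2 * (n : ℝ)) * (Real.log Y ^ (-(3 / 10 : ℝ)) * P)) := by ring
    _ ≤ P * (Y ^ (2 * (n : ℝ)) * (Real.log Y ^ (-(3 / 10 : ℝ)) * P)) := by
        apply mul_le_mul_of_nonneg_right h1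
        positivity
    _ = Y ^ (2 * (n : ℝ)) * Real.log Y ^ (-(1 / 5 : ℝ)) := by rw [← e6]; ring

/-- `S_MT` in a form without instances. -/
private theorem mt_use (h1 : S_MT) (ι : Type) [Fintype ι] [Nonempty ι] (D : ℕ) (C₁ c₂ η : ℝ)
    (hC₁ : 0 < C₁) (hc₂ : 0 < c₂) (hη : 0 < η) :
    ∃ (e : ℝ) (Z₀ : ℕ), 0 < e ∧ e < 1 / 3 ∧
    ∀ β ν : ℕ → ℕ → (ι → ℤ) → ℝ, LocData D β ν →
    ∀ (Z X L : ℕ) (A₀ : ι → ℤ) (K : ℕ → ℕ → ℝ), Z₀ ≤ Z → η * Real.log Z ≤ Real.log X → Z ^ 24 ≤ L →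
      (∀ l m, K l m = K m l) →
      (∀ x : ℕ → ℝ, 0 ≤ ∑ l ∈ Finset.Icc 1 Z, ∑ m ∈ Finset.Icc 1 Z, x l * x m * K l m) →
      (∀ l ∈ Finset.Icc 1 Z, ∀ m ∈ Finset.Icc 1 Z, |K l m| ≤ C₁ / ((l : ℝ) * m) ∧
        (Real.log Z ^ (2 / 3 : ℝ) < |Real.log l - Real.log m| →
          |K l m| ≤ Real.exp (-(Real.log Z ^ (1 / 4 : ℝ))) / ((l : ℝ) * m))) →
      c₂ ≤ ∑ p ∈ pr (zf e Z) Z, mean p (fun a => β p 1 a ^ 2) * K p p →
      ∃ B : Finset (ι → Fin L), (∀ a : ι → Fin L, ∑ l ∈ Finset.Icc 1 Z, ∑ m ∈ Finset.Icc 1 Z,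
          dco β ν (zf e Z) X l (sh A₀ a) * dco β ν (zf e Z) X m (sh A₀ a) * K l m ≤
            Real.log Z ^ (-(1 / 10 : ℝ)) → a ∈ B) ∧
        (B.card : ℝ) ≤ (L : ℝ) ^ Fintype.card ι * Real.log Z ^ (-(3 / 10 : ℝ)) := by
  obtain ⟨e, Z₀, he, he3, H⟩ := h1 ι D C₁ c₂ η hC₁ hc₂ hη
  refine ⟨e, Z₀, he, he3, fun β ν hL Z X L A₀ K hZ hX hZL hs hp hb hc => ?_⟩
  have hfin := H β ν hL Z X L A₀ K hZ hX hZL hs hp hb hc
  refine ⟨_, ?_, hfin⟩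
  intro a ha
  simp only [Finset.mem_filter, Finset.mem_univ, true_and]
  exact ha

open Classical in
theorem pz (h1 : S_MT) (h2 : S_Small) (h3 : S_Wk) (h4 : S_Local) (h5 : S_Coord) (h6 : S_Quad) :
    S_PZ := by
  intro K _ _ σ₁ h C₀ w hσ hh hC hw
  set σ : ℝ := max σ₁ (9 / 10) with hσdef
  set k : ℝ := min h 1 / 2 with hkdef
  have hσ1 : σ₁ ≤ σ := le_max_left _ _
  have hσ2 : 9 / 10 ≤ σ := le_max_right _ _
  have hσ3 : σ < 1 := max_lt hσ (by norm_num)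
  have hk0 : 0 < k := by have : 0 < min h 1 := lt_min hh one_pos; simp only [hkdef]; linarith
  have hk1 : k + k ≤ h := by have : min h 1 ≤ h := min_le_left _ _; simp only [hkdef]; linarith
  have hk2 : k ≤ 1 / 2 := by have : min h 1 ≤ 1 := min_le_right _ _; simp only [hkdef]; linarith
  obtain ⟨D, β, ν, hL, hβ, hLP⟩ := h4 K
  obtain ⟨hcard, hpt, Cc, hCc, hbd⟩ := h5 K
  obtain ⟨C₁, c₂, m₀, hC₁, hc₂, hm₀, H3⟩ := h3 K ((σ + 1) / 2) (k / 2) (by linarith) (by linarith)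
    (by linarith) (by linarith) β hβ
  obtain ⟨η, c, Y₁, hη, hc, H2⟩ := h2 K σ k C₀ w hσ2 hσ3 hk0 (by linarith) hC hw D β ν hL hLP m₀ hm₀
  have hn : 0 < Module.finrank ℚ K := Module.finrank_pos
  have : Nonempty (Ix K) := Fintype.card_pos_iff.1 (by rw [hcard]; exact hn)
  obtain ⟨e, Z₁, he, he3, H1⟩ := mt_use h1 (Ix K ⊕ Ix K) D C₁ c₂ η hC₁ hc₂ hη
  obtain ⟨Z₂, H3'⟩ := H3 e he he3
  have hevZ : ∀ᶠ Y : ℝ in atTop, max Z₁ Z₂ ≤ ⌊Y ^ (1 / 24 : ℝ)⌋₊ :=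
    (tendsto_nat_floor_atTop.comp (tendsto_rpow_atTop (by norm_num : (0 : ℝ) < 1 / 24))).eventually_ge_atTop _
  have hev := ((ev_num (Module.finrank ℚ K) Cc k hCc hk0).and hevZ).and
    ((eventually_ge_atTop Y₁).and (eventually_ge_atTop (1 : ℝ)))
  obtain ⟨Y₀, hY₀⟩ := eventually_atTop.1 hev
  refine ⟨c, Y₀, hc, fun Y T₀ hY S hS => ?_⟩
  obtain ⟨⟨hnum, hZ⟩, hY1, hY2⟩ := hY₀ Y hY
  have H2' := fun (t₀ μ : ℝ) (R z : ℕ) => H2 Y t₀ μ R z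
  obtain ⟨Z, hZdef⟩ : ∃ Z : ℕ, Z = ⌊Y ^ (1 / 24 : ℝ)⌋₊ := ⟨_, rfl⟩
  rw [← hZdef] at hnum hZ H2'
  obtain ⟨μ, R, hμ1, hμ2, hR, H3''⟩ := H3' Z (le_trans (le_max_right _ _) hZ)
  obtain ⟨b, hb⟩ : ∃ b : ℕ, b = ⌈Cc * Y⌉₊ := ⟨_, rfl⟩
  obtain ⟨L, hLdef⟩ : ∃ L : ℕ, L = 2 * b + 1 := ⟨_, rfl⟩
  obtain ⟨A₀, hA₀⟩ : ∃ A₀ : Ix K ⊕ Ix K → ℤ, A₀ = fun _ => -(b : ℤ) := ⟨_, rfl⟩
  obtain ⟨X, hX⟩ : ∃ X : ℕ, X = ⌈(Z : ℝ) ^ η⌉₊ := ⟨_, rfl⟩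
  obtain ⟨J, hJ⟩ : ∃ J : ℕ, J = ⌈Real.log Y ^ (1 / 20 : ℝ) / k⌉₊ + 1 := ⟨_, rfl⟩
  obtain ⟨tj, htj⟩ : ∃ tj : ℕ → ℝ, tj = fun j : ℕ => T₀ + (((j : ℤ) - (J : ℤ) : ℤ) : ℝ) * k := ⟨_, rfl⟩
  rw [← hX] at H2'
  rw [← hb, ← hLdef, ← hJ] at hnum
  have hY0 : 0 < Y := by linarith
  have hZL : Z ^ 24 ≤ L := by
    have h7 : ((Z : ℝ)) ≤ Y ^ (1 / 24 : ℝ) := by
      rw [hZdef]; exact Nat.floor_le (Real.rpow_nonneg hY0.le _)
    have h8 : ((Z : ℝ)) ^ 24 ≤ Y := by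
      calc ((Z : ℝ)) ^ 24 ≤ (Y ^ (1 / 24 : ℝ)) ^ 24 := pow_le_pow_left₀ (Nat.cast_nonneg _) h7 _
        _ = Y := by rw [← Real.rpow_natCast, ← Real.rpow_mul hY0.le]; norm_num
    have h9 : Y ≤ L := by
      have : Cc * Y ≤ b := by rw [hb]; exact Nat.le_ceil _
      rw [hLdef]; push_cast; nlinarith
    have h10 : ((Z ^ 24 : ℕ) : ℝ) ≤ (L : ℝ) := by rw [Nat.cast_pow]; exact h8.trans h9
    exact Nat.cast_le.1 h10
  have hXη : η * Real.log Z ≤ Real.log X := by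
    rcases Nat.eq_zero_or_pos Z with h0 | h0
    · rw [h0]; simp only [Nat.cast_zero, Real.log_zero, mul_zero]
      exact Real.log_natCast_nonneg _
    · have h7 : (0 : ℝ) < Z := by exact_mod_cast h0
      rw [← Real.log_rpow h7]
      rw [hX]
      exact Real.log_le_log (Real.rpow_pos_of_pos h7 _) (Nat.le_ceil _)
  -- the bad set of one window
  have hBadEx : ∀ j : ℕ, ∃ B : Finset (Ix K ⊕ Ix K → Fin L),
      (∀ a : Ix K ⊕ Ix K → Fin L, ∑ l ∈ Finset.Icc 1 Z, ∑ m ∈ Finset.Icc 1 Z,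
          dco β ν (zf e Z) X l (sh A₀ a) * dco β ν (zf e Z) X m (sh A₀ a) *
            Kf ((σ + 1) / 2) (k / 2) μ (tj j) R l m ≤ Real.log Z ^ (-(1 / 10 : ℝ)) → a ∈ B) ∧
      (B.card : ℝ) ≤ (L : ℝ) ^ Fintype.card (Ix K ⊕ Ix K) * Real.log Z ^ (-(3 / 10 : ℝ)) := by
    intro j
    have hq := h6 ((σ + 1) / 2) (k / 2) μ (tj j) R Z
    have hpsd : ∀ x : ℕ → ℝ, 0 ≤ ∑ l ∈ Finset.Icc 1 Z, ∑ m ∈ Finset.Icc 1 Z,
        x l * x m * Kf ((σ + 1) / 2) (k / 2) μ (tj j) R l m := by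
      intro x
      rw [hq.2 x]
      exact mul_nonneg (mul_nonneg (Real.sqrt_nonneg _) (Real.exp_pos _).le)
        (Finset.sum_nonneg fun r _ => mul_nonneg (Real.exp_pos _).le (sq_nonneg _))
    exact H1 β ν hL Z X L A₀ (Kf ((σ + 1) / 2) (k / 2) μ (tj j) R)
      (le_trans (le_max_left _ _) hZ) hXη hZL hq.1 hpsd (H3'' (tj j)).1 (H3'' (tj j)).2
  choose Bad hB1 hBadc using hBadEx
  -- coordinates
  have hco : ∀ z ∈ S, ∃ a : Ix K ⊕ Ix K → Fin L,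
      pt (fun i => sh A₀ a (Sum.inl i)) = z.1 ∧ pt (fun i => sh A₀ a (Sum.inr i)) = z.2 ∧
        ∃ j ∈ Finset.range (2 * J + 1), a ∈ Bad j := by
    intro z hz
    obtain ⟨hz1, hz2, hz3, t₀, M, F, ht, hM, hF1, hF2, hF3, hF4⟩ := hS z hz
    obtain ⟨a1, ha1, -⟩ := hpt z.1
    obtain ⟨a2, ha2, -⟩ := hpt z.2
    have hb1 : ∀ i, |(a1 i : ℝ)| ≤ b := fun i =>
      (hbd a1 Y (by rw [ha1]; exact hz1) i).trans (by rw [hb]; exact Nat.le_ceil _)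
    have hb2 : ∀ i, |(a2 i : ℝ)| ≤ b := fun i =>
      (hbd a2 Y (by rw [ha2]; exact hz2) i).trans (by rw [hb]; exact Nat.le_ceil _)
    have hFin : ∀ x : ℤ, |(x : ℝ)| ≤ b → ∃ y : Fin L, -(b : ℤ) + ((y : ℕ) : ℤ) = x := by
      intro x hx
      have hx' : |x| ≤ (b : ℤ) := by exact_mod_cast hx
      have hx2 := abs_le.1 hx'
      obtain ⟨y, hy⟩ := Int.eq_ofNat_of_zero_le (show 0 ≤ x + b by linarith)
      refine ⟨⟨y, ?_⟩, ?_⟩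
      · have : (y : ℤ) ≤ 2 * b := by rw [← hy]; linarith
        omega
      · simp only
        rw [← hy]; ring
    choose f1 hf1 using fun i => hFin (a1 i) (hb1 i)
    choose f2 hf2 using fun i => hFin (a2 i) (hb2 i)
    have hs1 : (fun i => sh A₀ (Sum.elim f1 f2) (Sum.inl i)) = a1 := by
      funext i; simp only [sh, hA₀, Sum.elim_inl]; exact hf1 i
    have hs2 : (fun i => sh A₀ (Sum.elim f1 f2) (Sum.inr i)) = a2 := by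
      funext i; simp only [sh, hA₀, Sum.elim_inr]; exact hf2 i
    obtain ⟨j, hj, hj2⟩ := grid (x := t₀) (T := T₀) hk0 ht
    rw [← hJ] at hj hj2
    have hj3 : |t₀ - tj j| ≤ k := by rw [htj]; exact hj2
    refine ⟨Sum.elim f1 f2, by rw [hs1, ha1], by rw [hs2, ha2], j, hj, ?_⟩
    have hsub : box σ (tj j) k ⊆ box σ₁ t₀ h := box_sub hσ1 hj3 hk1
    refine hB1 j _ ?_
    refine H2' (tj j) μ R (zf e Z) (sh A₀ (Sum.elim f1 f2)) M F hY1 hμ1 hμ2 hR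
      (by rw [hs1, ha1]; exact hz1) (by rw [hs2, ha2]; exact hz2) (by rw [hs1, hs2, ha1, ha2]; exact hz3)
      (by rw [hs1, hs2, ha1, ha2]; exact hM) (hF1.mono hsub) (fun s hs => hF2 s (hsub hs))
      (fun s hs => hF3 s (hsub hs)) (fun T hT => hF4 T fun ρ hρ => ⟨hsub (hT ρ hρ).1, (hT ρ hρ).2⟩)
  have hNe : Nonempty (Ix K ⊕ Ix K → Fin L) := ⟨fun _ => ⟨0, by rw [hLdef]; omega⟩⟩
  choose! g hg1 hg2 hg3 using hco
  have hinj : Set.InjOn g (↑S : Set (𝓞 K × 𝓞 K)) := by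
    intro z hz z' hz' hzz
    have e1 := hg1 z hz
    have e2 := hg1 z' hz'
    have e3 := hg2 z hz
    have e4 := hg2 z' hz'
    rw [hzz] at e1 e3
    exact Prod.ext (e1.symm.trans e2) (e3.symm.trans e4)
  have hsub : S.image g ⊆ (Finset.range (2 * J + 1)).biUnion Bad := by
    intro a ha
    obtain ⟨z, hz, rfl⟩ := Finset.mem_image.1 ha
    obtain ⟨j, hj, hj2⟩ := hg3 z hz
    exact Finset.mem_biUnion.2 ⟨j, hj, hj2⟩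
  have hcardS : (S.card : ℝ) ≤ ∑ j ∈ Finset.range (2 * J + 1), ((Bad j).card : ℝ) := by
    rw [← Finset.card_image_of_injOn hinj]
    exact_mod_cast (Finset.card_le_card hsub).trans Finset.card_biUnion_le
  have hcι : Fintype.card (Ix K ⊕ Ix K) = 2 * Module.finrank ℚ K := by
    rw [Fintype.card_sum, hcard]; ring
  calc (S.card : ℝ) ≤ ∑ j ∈ Finset.range (2 * J + 1), ((Bad j).card : ℝ) := hcardS
    _ ≤ ∑ _j ∈ Finset.range (2 * J + 1),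
        ((L : ℝ) ^ Fintype.card (Ix K ⊕ Ix K) * Real.log Z ^ (-(3 / 10 : ℝ))) :=
        Finset.sum_le_sum fun j _ => hBadc j
    _ = ((2 * J + 1 : ℕ) : ℝ) * ((L : ℝ) ^ (2 * Module.finrank ℚ K) * Real.log Z ^ (-(3 / 10 : ℝ))) := by
        rw [Finset.sum_const, Finset.card_range, nsmul_eq_mul, hcι]
    _ ≤ _ := hnum

end MP7ed9c3.Pz
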