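import Pool.Agent.Lib.MP_7ed9c3_nt.Pz.Def

/-!
# MP_7ed9c3_nt, part Pz.  Statements H (local data, mollifier, right half plane)

Theorem PZ, note 5286; this file: `S_Local`, `S_Moll`, `S_Right`.

RULES.  Module `X`: file `Pool/Agent/Lib/MP_7ed9c3_nt/Pz/H/X.lean`, first line
`import Pool.Agent.Lib.MP_7ed9c3_nt.Pz.SpecH` (plus already proved files if needed), then
`namespace MP7ed9c3.Pz`, `open NumberField IsDedekindDomain MP7ed9c3 MP7ed9c3.Tw MP7ed9c3.Tz`, auxiliary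
lemmas private or with names starting with `X_`, final theorem `theorem tX : S_X`; the statements listed
under Uses are HYPOTHESES of `tX`, in this order: `theorem tX (h1 : S_A) (h2 : S_B) : S_X`.  All modules are
independent.  (`S_Loc`, `S_Prim`, `S_Div`, `S_TrGood`, `S_Hom`, `S_FF` are the statements of Tz/SpecL, SpecM.)
Always `q = nm v`, `n = finrank ℚ K`, `x = p^(-s)`.
-/

set_option autoImplicit false

namespace MP7ed9c3.Pz

open NumberField IsDedekindDomain MP7ed9c3 MP7ed9c3.Tw MP7ed9c3.Tz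

section
variable {K : Type} [Field K] [NumberField K]

/-- The curve `y² = x³ + A x + B` with the coordinates `a` of `A`, `B`. -/
noncomputable def sw (a : Ix K ⊕ Ix K → ℤ) : WeierstrassCurve (𝓞 K) :=
  short (pt (fun i => a (Sum.inl i))) (pt (fun i => a (Sum.inr i)))

/-- The number `6 (4A³ + 27B²)`. -/
noncomputable def dK (a : Ix K ⊕ Ix K → ℤ) : 𝓞 K :=
  6 * (4 * pt (fun i => a (Sum.inl i)) ^ 3 + 27 * pt (fun i => a (Sum.inr i)) ^ 2)

/-- The exponent `f` with `nm v = p^f`. -/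
noncomputable def fx (p : ℕ) (v : HeightOneSpectrum (𝓞 K)) : ℕ := Nat.log p (nm v)

open Classical in
/-- `nm v` if the discriminant is a unit at `v`, otherwise `0`. -/
noncomputable def gd (v : HeightOneSpectrum (𝓞 K)) (a : Ix K ⊕ Ix K → ℤ) : ℝ :=
  if (sw a).Δ ∉ v.asIdeal then (nm v : ℝ) else 0

open Classical in
/-- The naive Euler factor at `v`, `1` if `6 ∈ v`. -/
noncomputable def gK (a : Ix K ⊕ Ix K → ℤ) (s : ℂ) (v : HeightOneSpectrum (𝓞 K)) : ℂ :=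
  if (6 : 𝓞 K) ∈ v.asIdeal then 1 else (locDen (sw a) v s)⁻¹

/-- The correction: the product over `T` of the Euler denominators of `M` and the naive factors. -/
noncomputable def PsiK (a : Ix K ⊕ Ix K → ℤ) (M : HeightOneSpectrum (𝓞 K) → WeierstrassCurve (𝓞 K))
    (T : Finset (HeightOneSpectrum (𝓞 K))) (s : ℂ) : ℂ :=
  ∏ v ∈ T, (locDen (M v) v s * gK a s v)

end

/-- The product over the `v` over `p` of `1 - tr X^f + g X^(2f)`. -/
noncomputable def NP (K : Type) [Field K] [NumberField K] (p : ℕ) (a : Ix K ⊕ Ix K → ℤ) :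
    PowerSeries ℝ :=
  ∏ v ∈ Ov K p, (1 - PowerSeries.C (trp v a) * PowerSeries.X ^ fx p v +
    PowerSeries.C (gd v a) * PowerSeries.X ^ (2 * fx p v))

/-- The coefficients of `NP`. -/
noncomputable def nuK (K : Type) [Field K] [NumberField K] (p i : ℕ) (a : Ix K ⊕ Ix K → ℤ) : ℝ :=
  PowerSeries.coeff i (NP K p a)

/-- The coefficients of the inverse of `NP`. -/
noncomputable def beK (K : Type) [Field K] [NumberField K] (p i : ℕ) (a : Ix K ⊕ Ix K → ℤ) : ℝ :=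
  PowerSeries.coeff i (NP K p a)⁻¹

/-- Module CfB (coefficients).  Uses: nothing.

Proof.  Induction on `s`.  `A` = the product without the factor `j`, `|A_i| ≤ (i+1)^d r^i`.  First claim: the
coefficient `i` of `A (1 - αX^f)` is `A_i - α A_{i-f}` (the second term only for `f ≤ i`, and then `i ≥ 1`), at most
`(i+1)^d r^i (1 + 1) ≤ (i+1)^(d+1) r^i`.  Second claim: `B (1 - αX^f) = A⁻¹` for the new inverse `B`
(`PowerSeries.mul_inv_rev`, or: `B · (1 - αX^f) · A = 1`; the constant coefficients are 1), so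
`B_i = (A⁻¹)_i + α B_{i-f}`, and by strong induction on `i`
`|B_i| ≤ (i+1)^d r^i + r^f (i-f+1)^(d+1) r^(i-f) ≤ (i+1)^d r^i (1 + (i-f+1)) ≤ (i+1)^(d+1) r^i` (`f ≥ 1`). -/
def S_CfB : Prop :=
  ∀ (J : Type) (s : Finset J) (r : ℝ) (α : J → ℂ) (f : J → ℕ), 0 ≤ r →
    (∀ j ∈ s, 1 ≤ f j ∧ ‖α j‖ ≤ r ^ f j) → ∀ i : ℕ,
    ‖PowerSeries.coeff i (∏ j ∈ s, (1 - PowerSeries.C (α j) * PowerSeries.X ^ f j))‖ ≤
      ((i : ℝ) + 1) ^ s.card * r ^ i ∧
    ‖PowerSeries.coeff i (∏ j ∈ s, (1 - PowerSeries.C (α j) * PowerSeries.X ^ f j))⁻¹‖ ≤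
      ((i : ℝ) + 1) ^ s.card * r ^ i

/-- Module RtK (roots).  Uses: `S_Loc`, `S_Prim`.

Proof.  `S_Loc` for the constant family `M = fun _ => sw a`: `α, β` with
`locDen (sw a) v s = (1 - α q^(-s)) (1 - β q^(-s))`, `α + β = tr (sw a) v = trp v a` (by definition),
`‖α‖, ‖β‖ ≤ √q` if `6 ∉ v`, `αβ = q` if `Δ ∉ v`; if `Δ ∈ v` then `αβ = 0` (put `s = 0` in the identity:
`eden` is `1 - tr`).  So `αβ = gd v a` in both cases.  For `v ∈ Ov K p`: `p ∈ v`, `6 ∉ v` (`gcd(6, p) = 1`, otherwise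
`1 ∈ v`; see `TrMeanM.not_mem` in Tz/TrMean.lean), `q = p^f`, `f ≥ 1` (`S_Prim`), `fx p v = f` (`Nat.log_pow`), and
`√q = √p^f`.  `(1 - αX^f)(1 - βX^f) = 1 - (α+β) X^f + αβ X^(2f)`; `map_prod`. -/
def S_RtK : Prop :=
  ∀ (K : Type) [Field K] [NumberField K] (p : ℕ), p.Prime → 3 < p → ∀ a : Ix K ⊕ Ix K → ℤ,
    ∃ α β : HeightOneSpectrum (𝓞 K) → ℂ,
      PowerSeries.map Complex.ofRealHom (NP K p a) =
        ∏ v ∈ Ov K p, ((1 - PowerSeries.C (α v) * PowerSeries.X ^ fx p v) *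
          (1 - PowerSeries.C (β v) * PowerSeries.X ^ fx p v)) ∧
      ∀ v ∈ Ov K p, 1 ≤ fx p v ∧ nm v = p ^ fx p v ∧
        ‖α v‖ ≤ √(p : ℝ) ^ fx p v ∧ ‖β v‖ ≤ √(p : ℝ) ^ fx p v

/-- Module PeK (periods).  Uses: `S_Prim`.

Proof.  For `v ∈ Ov K p` (`p ∈ v`): `pt (c + p • b) = pt c + p • pt b` is congruent to `pt c` modulo `v`, so
`red (sw (a + p • b)) v = red (sw a) v` (`W3.red_short`, see `TrMeanM.phi`, `TrMeanM.trp_eq`, `smul_zero'` in
Tz/TrMean.lean: `trp v a = cf v (phi v a)`), hence `trp v (a + p • b) = trp v a`; and `Δ ∈ v` if and only if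
the class of `Δ` in `𝓞 K ⧸ v` is `0`, which depends only on the classes of `A`, `B` (`W3.Δ_short`), so
`gd v (a + p • b) = gd v a`.  So `NP K p (a + p • b) = NP K p a`. -/
def S_PeK : Prop :=
  ∀ (K : Type) [Field K] [NumberField K] (p : ℕ), p.Prime → 3 < p → ∀ i : ℕ,
    Per p (beK K p i) ∧ Per p (nuK K p i)

/-- Module CoK (coefficient identities).  Uses: `S_Prim`.

Proof.  Constant coefficient of `NP`: `1` (`fx p v ≥ 1` for `v ∈ Ov K p`).  `NP * NP⁻¹ = 1`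
(`PowerSeries.mul_inv_cancel`), so `∑_{i ≤ k} nuK i · beK (k-i)` is `1` for `k = 0` and `0` for `k ≥ 1`
(`PowerSeries.coeff_mul`, `Finset.Nat.sum_antidiagonal_eq_sum_range_succ`).  `k = 1`: `nuK 1 = -beK 1`.
Coefficient of `X` in `NP`: `NP ≡ ∏ (1 - trp v X^f) ≡ 1 - ∑_{v, f = 1} trp v X` modulo `X²` (induction on the
product: the coefficient of `X` in a product of series with constant coefficient `1` is the sum of the coefficients
of `X`), and `{v ∈ Ov K p | fx p v = 1} = D1 K p` (`S_Prim`: `nm v = p^f`, `D1 ⊆ Ov`). -/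
def S_CoK : Prop :=
  ∀ (K : Type) [Field K] [NumberField K] (p : ℕ), p.Prime → 3 < p → ∀ a : Ix K ⊕ Ix K → ℤ,
    beK K p 0 a = 1 ∧ nuK K p 0 a = 1 ∧ nuK K p 1 a = -beK K p 1 a ∧
    beK K p 1 a = ∑ v ∈ D1 K p, trp v a ∧
    ∀ k, 1 ≤ k → ∑ i ∈ Finset.range (k + 1), nuK K p i a * beK K p (k - i) a = 0

/-- Module Me0 (mean values of the traces).  Uses: `S_Hom`, `S_FF`.

Proof.  As in `trMean` (Tz/TrMean.lean; import it): `trp v a = cf v (phi v a)`, `phi v` surjective, so by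
`S_Hom` the mean is `(∑ g, cf v g)/card = 0` (`TrMeanM.sums`). -/
def S_Me0 : Prop :=
  ∀ (K : Type) [Field K] [NumberField K] (p : ℕ), p.Prime → 3 < p → ∀ v ∈ D1 K p,
    mean p (trp v) = 0

/-- Module LdK (the local data).  Uses: `S_CfB`, `S_RtK`, `S_PeK`, `S_CoK`, `S_Me0`, `S_Prim`.

Proof.  Bounds: `S_RtK` and `S_CfB` with the index set `Ov K p × Bool` (at most `2n` elements), `r = √p`:
`((i+1))^(card) ≤ ((i+1))^(2n)`; `PowerSeries.coeff_map`, and the inverse: `map (NP⁻¹) = (map NP)⁻¹` (both are inverse to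
`map NP`; or `PowerSeries.map_inv`), `‖((x : ℝ) : ℂ)‖ = |x|`.  Mean: `beK 1 = ∑_{v ∈ D1} trp v` (`S_CoK`), the mean is
additive, `S_Me0`. -/
def S_LdK : Prop :=
  ∀ (K : Type) [Field K] [NumberField K],
    LocData (2 * Module.finrank ℚ K) (beK K) (nuK K)

/-- Module MuB (size of the multiplicative functions).  Uses: nothing.

Proof.  If `gcd(m,6) ≠ 1` the value is `0`.  Otherwise all prime factors of `m` are `> 3` and
`|∏_p u p i_p a| ≤ ∏ (i_p+1)^D √p^(i_p) = d(m)^D √m` (`Nat.card_divisors`, `Nat.prod_factorization_pow_eq_self`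
or `Nat.factorization_prod_pow_eq_self`). -/
def S_MuB : Prop :=
  ∀ (ι : Type) [Fintype ι] (D : ℕ) (β ν : ℕ → ℕ → (ι → ℤ) → ℝ), LocData D β ν →
    ∀ (m : ℕ) (a : ι → ℤ), 1 ≤ m →
      |mulf β m a| ≤ (m.divisors.card : ℝ) ^ D * √(m : ℝ) ∧
      |mulf ν m a| ≤ (m.divisors.card : ℝ) ^ D * √(m : ℝ)

/-- Module DvB (divisor bound).  Uses: nothing (`MP_640417_ag.All.divisor_bound` in
Pool/Agent/Lib/MP_640417_ag/All/Divisor.lean with `δ = 1/(10 (A+1))`; import it). -/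
def S_DvB : Prop :=
  ∀ A : ℕ, ∃ C : ℝ, 0 < C ∧ ∀ m : ℕ, 1 ≤ m →
    (m.divisors.card : ℝ) ^ A ≤ C * (m : ℝ) ^ (1 / 10 : ℝ)

/-- Module EuP (Euler product of a multiplicative function).  Uses: `S_MuB`, `S_DvB`.

Proof.  `F(m) = mulf β m a · m^(-s)` (`F(0) = 0` because `gcd(0,6) = 6`; `F(1) = 1`), multiplicative on coprime
arguments (`Nat.Coprime.primeFactors_mul`/`Nat.Coprime.factorization_mul`, `(m n).Coprime 6` iff both), `|F(m)| ≤
C m^(3/5 - 3)` (`S_MuB`, `S_DvB`), summable; `EulerProduct.eulerProduct_hasProd`, with `F(p^e) = β p e a (p^(-s))^e` for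
`p > 3` (`e = 0`: `β p 0 = 1` by `LocData`), and for `p ≤ 3`: `F(p^e) = 0` for `e ≥ 1`, so the inner sum is `1`.
`∑' m, F m = ∑' m, F (m+1)`.  The first claim: the terms are at most `(e+1)^D (√p p^(-3))^e`. -/
def S_EuP : Prop :=
  ∀ (ι : Type) [Fintype ι] (D : ℕ) (β ν : ℕ → ℕ → (ι → ℤ) → ℝ), LocData D β ν →
    ∀ (a : ι → ℤ) (s : ℂ), s.re = 3 →
      (∀ p : ℕ, p.Prime → 3 < p →
        Summable (fun e : ℕ => ‖(β p e a : ℂ) * ((p : ℂ) ^ (-s)) ^ e‖)) ∧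
      HasProd (fun p : Nat.Primes => if 3 < (p : ℕ) then
          ∑' e : ℕ, (β (p : ℕ) e a : ℂ) * (((p : ℕ) : ℂ) ^ (-s)) ^ e else 1)
        (∑' m : ℕ, (mulf β (m + 1) a : ℂ) * ((m + 1 : ℕ) : ℂ) ^ (-s))

/-- Module Inv (the local series).  Uses: `S_LdK`, `S_Prim`.

Proof.  `x = p^(-s)`, `|x| = p^(-3)`.  The series `∑ β_e x^e` and `∑ ν_e x^e` converge absolutely
(`LocData`: terms `≤ (e+1)^(2n) (√p p^(-3))^e`), their Cauchy product is `1` by the convolution identity of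
`LocData` (`tsum_mul_tsum_eq_tsum_sum_antidiagonal_of_summable_norm`).  `∑ ν_e x^e` is the value of the polynomial
`∏_v (1 - tr X^f + g X^(2f))` at `x` (`NP` is the image of this polynomial under
`Polynomial.coeToPowerSeries.ringHom`; its coefficients vanish above the degree), and the factor at `x` is
`locDen (sw a) v s = eden q (tr) (Δ ∉ v) s = 1 - tr q^(-s) + [Δ ∉ v] q^(1-2s)`, because `q = p^f`, `q^(-s) = x^f`
(`Zs.seriesz_pow`), `q^(1-2s) = q (q^(-s))²`. -/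
def S_Inv : Prop :=
  ∀ (K : Type) [Field K] [NumberField K] (p : ℕ), p.Prime → 3 < p →
    ∀ (a : Ix K ⊕ Ix K → ℤ) (s : ℂ), s.re = 3 →
      ∑' e : ℕ, (beK K p e a : ℂ) * ((p : ℂ) ^ (-s)) ^ e = (∏ v ∈ Ov K p, locDen (sw a) v s)⁻¹

/-- Module Mul (absolute convergence of the Euler product).  Uses: `S_Loc`.

Proof.  `σ = Re s ≥ 3`, `t = q^(1-σ) ≤ q^(-2) ≤ 1/4` (`q ≥ 2`).  `S_Loc`: `‖α‖, ‖β‖ ≤ max(√q, q-1) ≤ q`, so
`‖α q^(-s)‖, ‖β q^(-s)‖ ≤ t`; `locDen = (1-X)(1-Z)` with `‖X‖, ‖Z‖ ≤ t`, not `0`, and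
`‖1/((1-X)(1-Z)) - 1‖ = ‖X + Z - XZ‖/‖(1-X)(1-Z)‖ ≤ (9/4) t (16/9) = 4t`.  `∑_v q^(-2)` converges
(`countPrimes K`, `a9_summable sparseSums`, as in Zs/Series.lean).  `multipliable_one_add_of_summable`. -/
def S_Mul : Prop :=
  ∀ (K : Type) [Field K] [NumberField K] (M : HeightOneSpectrum (𝓞 K) → WeierstrassCurve (𝓞 K))
    (s : ℂ), 3 ≤ s.re →
    (∀ v, 2 ≤ nm v ∧ locDen (M v) v s ≠ 0 ∧
      ‖(locDen (M v) v s)⁻¹ - 1‖ ≤ 4 * (nm v : ℝ) ^ (1 - s.re)) ∧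
    Summable (fun v : HeightOneSpectrum (𝓞 K) => (nm v : ℝ) ^ (-(2 : ℝ))) ∧
    Summable (fun v => ‖(locDen (M v) v s)⁻¹ - 1‖) ∧
    Multipliable (fun v => (locDen (M v) v s)⁻¹)

/-- Module Reg (regrouping over the prime numbers).  Uses: `S_Prim`.

Proof.  Every `v` contains exactly one prime number (`G12.nm_pow` or the like gives one; two different prime numbers
in `v` give `1 ∈ v`), so `v ↦ (p, v)` is an equivalence with the sigma type of the `{v // v ∈ Ov K p}`, `p : Nat.Primes`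
(`S_Prim`: `v ∈ Ov K p ↔ p ∈ v`).  `HasProd.sigma` (with `hasProd_fintype` for the fibres, `Finset.prod_coe_sort` or
`Finset.prod_attach`) applied to `Multipliable.hasProd`. -/
def S_Reg : Prop :=
  ∀ (K : Type) [Field K] [NumberField K] (g : HeightOneSpectrum (𝓞 K) → ℂ), Multipliable g →
    HasProd (fun p : Nat.Primes => ∏ v ∈ Ov K (p : ℕ), g v) (∏' v, g v)

/-- Module EuK (the naive Euler product is the Dirichlet series).  Uses: `S_EuP`, `S_Inv`, `S_Mul`, `S_Reg`,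
`S_LdK`, `S_Prim`.

Proof.  `gK a s` differs from the function `(locDen (sw a) v s)⁻¹` only for the finitely many `v` with `6 ∈ v`
(`N5.finite_mem`), so `∑ ‖gK - 1‖` converges and `gK a s` is multipliable.  `S_Reg`: `∏' gK = ∏'_p ∏_{v ∈ Ov K p} gK v`.
For `p > 3` no `v ∈ Ov K p` contains `6` (`TrMeanM.not_mem`), so the inner product is `(∏ locDen)⁻¹ = ∑' β x^e`
(`S_Inv`); for `p = 2, 3` all `v ∈ Ov K p` contain `6`, so it is `1`.  Compare with `S_EuP` (`HasProd.unique`). -/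
def S_EuK : Prop :=
  ∀ (K : Type) [Field K] [NumberField K] (a : Ix K ⊕ Ix K → ℤ) (s : ℂ), s.re = 3 →
    Multipliable (gK a s) ∧
    ∏' v, gK a s v = ∑' m : ℕ, (mulf (beK K) (m + 1) a : ℂ) * ((m + 1 : ℕ) : ℂ) ^ (-s)

/-- Module PsD (the correction is holomorphic).  Uses: `S_Loc`.

Proof.  A finite product (`DifferentiableOn.finset_prod` or `DifferentiableOn.fun_finset_prod`).  `locDen (M v) v s` is
a combination of `q^(-s)` and `q^(1-2s)`, entire (`q ≥ 1`: `q ≠ 0`).  If `6 ∉ v`: `locDen (sw a) v s =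
(1 - α q^(-s)) (1 - β q^(-s))`, `‖α q^(-s)‖ ≤ q^(1/2 - σ) < 1` for `σ > 1/2` (`S_Loc` for the constant family,
`q ≥ 2`), so it is not `0` there and its inverse is differentiable. -/
def S_PsD : Prop :=
  ∀ (K : Type) [Field K] [NumberField K] (a : Ix K ⊕ Ix K → ℤ)
    (M : HeightOneSpectrum (𝓞 K) → WeierstrassCurve (𝓞 K)) (T : Finset (HeightOneSpectrum (𝓞 K))),
    DifferentiableOn ℂ (PsiK a M T) {s : ℂ | 1 / 2 < s.re}

/-- Module PsC (changing finitely many factors).  Uses: `S_Mul`, `S_TrGood`.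

Proof.  `f v = (locDen (M v) v s)⁻¹` is multipliable, no factor is `0` (`S_Mul`).  `h v = locDen (M v) v s · gK a s v` for
`v ∈ T`, `1` otherwise; `HasProd h (∏_T h) = HasProd h (PsiK a M T s)` (`hasProd_prod_of_ne_finset_one`).
`HasProd.mul`: `f h` has the product `(∏' f) PsiK`.  `f h = gK`: for `v ∈ T` clear; for `v ∉ T`, that is `dK a ∉ v`, `6 ∉ v`,
and by `S_TrGood` `(M v).Δ ∉ v`, `tr (M v) v = tr (sw a) v`, and `(sw a).Δ = -16(4A³+27B²) ∉ v` (`W3.Δ_short`; the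
ideal is prime, `2 ∉ v`), so `locDen (M v) v s = locDen (sw a) v s` (same `eden`). -/
def S_PsC : Prop :=
  ∀ (K : Type) [Field K] [NumberField K] (a : Ix K ⊕ Ix K → ℤ)
    (M : HeightOneSpectrum (𝓞 K) → WeierstrassCurve (𝓞 K)) (T : Finset (HeightOneSpectrum (𝓞 K))),
    (∀ v, v ∈ T ↔ dK a ∈ v.asIdeal) →
    (∀ v, IsMinAt (crv (pt (fun i => a (Sum.inl i))) (pt (fun i => a (Sum.inr i)))) v (M v)) →
    ∀ s : ℂ, s.re = 3 →
      (∏' v : HeightOneSpectrum (𝓞 K), (locDen (M v) v s)⁻¹) * PsiK a M T s = ∏' v, gK a s v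

/-- Module PsB (size of the correction).  Uses: `S_Loc`, `S_Div`.

Proof.  `σ = Re s ≥ 9/10`.  For `v` with `6 ∈ v` (all in `T`, a finite set `T₆` which depends only on `K`, `N5.finite_mem`):
`gK = 1`, `‖locDen (M v) v s‖ ≤ (1 + q · q^(-9/10))² ≤ (1+q)²` (`S_Loc`: roots `≤ max(√q, q-1) ≤ q`); the product over
`T₆` of `(1+q)² ≥ 1` is a constant `C₆`.  For `v ∈ T`, `6 ∉ v`: `q ≥ 5` (`q` is a power of a prime `≠ 2, 3`), `y = q^(-2/5)`,
`y⁵ = q^(-2) ≤ 1/25`, so `y ≤ 3/5`; the roots of both factors are at most `√q`, so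
`‖locDen (M v) v s‖ ≤ (1+y)² ≤ exp(2y)` and `‖(locDen (sw a) v s)⁻¹‖ ≤ (1-y)^(-2) ≤ exp(5y)`
(`1/(1-y) = 1 + y/(1-y) ≤ 1 + (5/2) y`).  So `‖PsiK‖ ≤ C₆ exp(7 ∑_{v ∈ T} q^(-2/5))`.  For a natural number `B`: the `v`
with `q ≤ B` are finitely many (`fin_nm`), `c_B` of them, and give at most `c_B` (`y ≤ 1`), the others at most
`B^(-2/5) |T|`, `|T| = ncard ≤ 2n log(186 Y³) ≤ 2n (6 + 3 log Y)` (`S_Div` for `e = dK a`, `House (dK a) (186 Y³)`:
`|φ(6(4A³+27B²))| ≤ 6 (4Y³ + 27Y²)`).  Choose `B ≥ 1` with `42 n B^(-2/5) ≤ η`: the exponent is at most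
`7 c_B + 84 n B^(-2/5) + η log Y ≤ 7 c_B + 2 η + η log Y`. -/
def S_PsB : Prop :=
  ∀ (K : Type) [Field K] [NumberField K] (η : ℝ), 0 < η → ∃ C : ℝ, 0 < C ∧
    ∀ (Y : ℝ) (a : Ix K ⊕ Ix K → ℤ) (M : HeightOneSpectrum (𝓞 K) → WeierstrassCurve (𝓞 K))
      (T : Finset (HeightOneSpectrum (𝓞 K))), 1 ≤ Y →
      House (pt (fun i => a (Sum.inl i))) Y → House (pt (fun i => a (Sum.inr i))) Y →
      4 * pt (fun i => a (Sum.inl i)) ^ 3 + 27 * pt (fun i => a (Sum.inr i)) ^ 2 ≠ 0 →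
      (∀ v, v ∈ T ↔ dK a ∈ v.asIdeal) →
      ∀ s : ℂ, 9 / 10 ≤ s.re → ‖PsiK a M T s‖ ≤ C * Y ^ η

/-- Module DcB (size of the coefficients `dco`).  Uses: `S_MuB`, `S_DvB`.

Proof.  Every term of `dco` is at most `d(k)^D √k d(m/k)^D √(m/k) ≤ d(m)^(2D) √m` (`k ∣ m`, divisors of `k` are divisors of
`m`; `√k √(m/k) = √m`), the number of terms is at most `d(m)`: `d(m)^(2D+1) √m ≤ C m^(1/10) m^(1/2)`. -/
def S_DcB : Prop :=
  ∀ D : ℕ, ∃ C : ℝ, 0 < C ∧ ∀ (ι : Type) [Fintype ι] (β ν : ℕ → ℕ → (ι → ℤ) → ℝ), LocData D β ν →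
    ∀ (z X m : ℕ) (a : ι → ℤ), 1 ≤ m →
      |dco β ν z X m a| ≤ C * (m : ℝ) ^ (3 / 5 : ℝ) ∧
      |mulf β m a| ≤ C * (m : ℝ) ^ (3 / 5 : ℝ) ∧ |mulf ν m a| ≤ C * (m : ℝ) ^ (3 / 5 : ℝ)

/-- The coefficients of the mollifier. -/
noncomputable def mco {ι : Type} (ν : ℕ → ℕ → (ι → ℤ) → ℝ) (z X k : ℕ) (a : ι → ℤ) : ℝ :=
  if k ≤ X ∧ ∀ p ∈ k.primeFactors, p ≤ z then mulf ν k a else 0

/-- Module Moll (the mollifier).  Uses: `S_DcB`.

Proof.  `C` from `S_DcB` for `D`.  `Mo s = ∑_{k ∈ Icc 1 X} mco ν z X k a · k^(-s)`, entire; for `σ ≥ 9/10`: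
`|k^(-s)| ≤ k^(-9/10)`, `‖Mo s‖ ≤ ∑_{k ≤ X} C k^(3/5 - 9/10) ≤ C X`.  For `Re s = 3`: `b m = mulf β m a`, `t k = mco ν z X k a`
(both are `0` at `0`: `gcd(0,6) = 6`); `LSeriesSummable b 3`, `LSeriesSummable t` (coefficients `O(m^(3/5))`,
`LSeriesSummable_of_le_const_mul_rpow` or by comparison), `LSeries_convolution'`, and
`dco m = ∑_{k ∣ m} t k b(m/k) = (t ⍟ b) m` (`LSeries.convolution`, `Nat.sum_divisorsAntidiagonal`).
`LSeries f s = ∑' m, f (m+1) (m+1)^(-s)` (`tsum_eq_zero_add`, `LSeries.term_zero`, `Complex.cpow_neg`). -/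
def S_Mol : Prop := S_Moll

/-- Module Rig (the right half plane).  Uses: `S_Mul`.

Proof.  `u v = (locDen (M v) v s)⁻¹ - 1`, `‖u v‖ ≤ 4 q^(1-σ) = 4 q^(-2) q^(3-σ) ≤ 4 q^(-2) 2^(3-σ)`, so with
`c = 32 ∑_v q^(-2)` (for `s = 3` and the summability of `q^(-2)`) `∑ ‖u v‖ ≤ c 2^(-σ) ≤ c/8`.  For finite products
`‖∏ (1 + u) - 1‖ ≤ exp(∑ ‖u‖) - 1` (`Finset.norm_prod_one_add_sub_one_le`), pass to the limit
(`Multipliable.hasProd`, `le_of_tendsto`); `exp(y) - 1 ≤ y exp(y)`: `B = c exp(c) + 1`. -/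
def S_Rig : Prop := S_Right

/-- Module LocF (assembly of `S_Local`).  Uses: `S_LdK`, `S_CoK`, `S_EuK`, `S_PsD`, `S_PsC`, `S_PsB`.

Proof.  `D = 2n`, `β = beK K`, `ν = nuK K`.  `C` from `S_PsB`.  `T` = the finite set of the `v` with `dK a ∈ v`
(`N5.finite_mem`, `dK a ≠ 0`: `6 ≠ 0` and the second factor is `≠ 0`), `Ψ = PsiK a M T`. -/
def S_LocF : Prop := S_Local

end MP7ed9c3.Pz
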