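import Pool.Agent.Lib.MP_7ed9c3_nt.Pz.Def

/-!
# MP_7ed9c3_nt, part Pz, K1: bounds for the kernel (statements)

`x = π/(2 h₂)`, `a₁ = x (1 - σ₂)`, `k* = μ x cosh a₁`, `P₀ = exp(μ sinh a₁)`, `Φ(k) = e^k G(k)`.
-/

set_option autoImplicit false

namespace MP7ed9c3.Pz

open MP7ed9c3

/-- `Φ(k) = e^k G(k)`. -/
noncomputable def Ph (σ₂ h₂ μ k : ℝ) : ℂ := Complex.exp (k : ℂ) * Gf σ₂ h₂ μ k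

/-- the integrand on the line `Re u = σ`. -/
noncomputable def kin (σ₂ h₂ μ k σ y : ℝ) : ℂ :=
  Complex.exp (-(k : ℂ) * (σ + y * Complex.I)) * kap σ₂ h₂ μ (σ + y * Complex.I)

/-- **Ksh** (shift of the line; helper91). Cauchy on the rectangle `[σ,3] × [-h₂,h₂]`; on the horizontal
sides `‖kap‖ = 1`. Also the norm of the integrand:
`‖kin‖ = exp(-kσ + μ sinh(π(σ-σ₂)/(2h₂)) cos(πy/(2h₂)))`. -/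
def S_Ksh : Prop := ∀ σ₂ h₂ μ k σ : ℝ, 0 < h₂ → 0 ≤ k →
  (∀ y : ℝ, ‖kin σ₂ h₂ μ k σ y‖ = Real.exp (-k * σ + μ * (Real.sinh (Real.pi * (σ - σ₂) / (2 * h₂)) *
    Real.cos (Real.pi * y / (2 * h₂))))) ∧
  Continuous (kin σ₂ h₂ μ k σ) ∧
  (σ ≤ 3 → ‖Gf σ₂ h₂ μ k - ∫ y in (-h₂)..h₂, kin σ₂ h₂ μ k σ y‖ ≤
    2 * (3 - σ) * Real.exp (-k * σ))

/-- **Kup** (pointwise upper bound; helper91). Shift to `σ = 1 + e`, `e = τ (k-k*)/lam`, `τ` small: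
`‖Φ(k)‖ ≤ e^(-ke) (∫ exp(μ sinh(a₁+xe) cos(xy)) dy + 6)`, `cos t ≤ 1 - 2t²/π²`, so the integral is at most
`exp(μ sinh(a₁+xe)) C/√μ`; `μ sinh(a₁+xe) - ke ≤ μ sinh a₁ - e(k-k*) + C μ e² ≤ μ sinh a₁ - (τ/2)(k-k*)²/lam`,
and `6 e^(-ke) ≤ exp(μ sinh a₁ - c lam)` as `|e|` is small. -/
def S_Kup : Prop := ∀ σ₂ h₂ m₁ m₂ C₀ : ℝ, 1 / 2 < σ₂ → σ₂ < 1 → 0 < h₂ → h₂ ≤ 1 / 2 → 0 < m₁ → m₁ ≤ m₂ →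
  0 < C₀ → ∃ C c lam₀ : ℝ, 0 < C ∧ 0 < c ∧ 1 ≤ lam₀ ∧ ∀ lam μ k : ℝ, lam₀ ≤ lam → m₁ * lam ≤ μ →
    μ ≤ m₂ * lam → 0 ≤ k → k ≤ C₀ * lam →
    ‖Ph σ₂ h₂ μ k‖ ≤ Real.exp (μ * Real.sinh (a1 σ₂ h₂)) *
      (C / √μ * Real.exp (-(c * (k - kst σ₂ h₂ μ) ^ 2 / lam)) + Real.exp (-(c * lam)))

/-- **Klo** (pointwise lower bound; helper73). By `Ksh` with `σ = 1`: `‖Φ(k) - Φ₁(k)‖ ≤ 4`,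
`Φ₁(k) = e^k ∫ kin(1, y) dy = ∫ exp(μ sinh(a₁ + i x y) - i k y) dy`, with real part of the integrand
`ρ(y) = exp(μ sinh a₁ cos(xy)) cos θ(y)`, `θ(y) = μ cosh a₁ sin(xy) - k y = (k*-k) y + μ cosh a₁ (sin(xy) - xy)`.
Let `u = μ^(-1/2)`, `T ≥ 1` a large constant, `b = 2 x² sinh(a₁)/π²`, `B = x² sinh(a₁)/2`. For `|y| ≤ T u`:
`|θ| ≤ |k-k*| T u + μ cosh(a₁) x³ T³ u³ ≤ 1` if `|k-k*| ≤ c √lam` with `c` small and `lam` large, so `ρ ≥ 0`,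
and `ρ(y) ≥ (1/2) P₀ e^(-B)` for `|y| ≤ u` (`cos t ≥ 1 - t²/2`). For `T u ≤ |y| ≤ h₂`:
`ρ(y) ≥ -P₀ exp(-b μ y²) ≥ -P₀ exp(-b T²/2) exp(-b μ y²/2)` (`cos t ≤ 1 - 2t²/π²` for `|t| ≤ π`). So
`Re Φ₁ ≥ P₀ (e^(-B) u - exp(-bT²/2) √(2π/b) u) ≥ (1/2) P₀ e^(-B) u` for `T` large, and `4 ≤ (1/4) P₀ e^(-B) u`
for `lam` large. -/
def S_Klo : Prop := ∀ σ₂ h₂ m₁ m₂ : ℝ, 1 / 2 < σ₂ → σ₂ < 1 → 0 < h₂ → h₂ ≤ 1 / 2 → 0 < m₁ → m₁ ≤ m₂ →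
  ∃ c lam₀ : ℝ, 0 < c ∧ ∀ lam μ k : ℝ, lam₀ ≤ lam → m₁ * lam ≤ μ → μ ≤ m₂ * lam → 0 ≤ k →
    |k - kst σ₂ h₂ μ| ≤ c * √lam →
    c * Real.exp (μ * Real.sinh (a1 σ₂ h₂)) / √μ ≤ ‖Ph σ₂ h₂ μ k‖

/-- **Ksu** (a Gaussian sum; helper16). `exp(-t) ≤ 1/(1+t)`; with `a = (s+r)/√lam`, `δ = 1/√lam ≤ 1`:
`1/(1+a²) ≤ 4 √lam (arctan(a+δ) - arctan a)` (mean value theorem, `1+ξ² ≤ 4(1+a²)` for `a ≤ ξ ≤ a+1`), telescopes.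
(`1/(1+c a²) ≤ max 1 (1/c)/(1+a²)`.) -/
def S_Ksu : Prop := ∀ c : ℝ, 0 < c → ∃ C : ℝ, 0 < C ∧ ∀ (lam s : ℝ) (R : ℕ), 1 ≤ lam →
  ∑ r ∈ Finset.range (R + 1), Real.exp (-(c * (s + r) ^ 2 / lam)) ≤ C * √lam

/-- **Kfi** (assembly; helper16). `e^(2r) |xf l r| |xf m r| = ‖Ph(log l + r)‖ ‖Ph(log m + r)‖/(l m)`
(`‖Gf k‖ = e^(-k) ‖Ph k‖`, `e^(log l) = l`), `k = log l + r ≤ (1 + m₂) lam`, `C₀ = 1 + m₂` in `Kup`. With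
`A_r = ‖Ph(log l + r)‖/P₀ ≤ (C/√μ) g + e^(-c lam)`, `|Kf| ≤ √μ/(lm) ∑ A_r B_r ≤ √μ/(2lm) ∑ (A_r² + B_r²)`,
`A_r² ≤ 2 C²/μ g² + 2 e^(-2c lam)`, `Ksu` for `2c`: `≤ C'`. Far: for every `r` one of `|log l + r - k*|`,
`|log m + r - k*|` is `≥ lam^(2/3)/2`, so `A_r B_r ≤ C'' exp(-c lam^(1/3)/4)`, `R + 1 ≤ m₂ lam + 1`, and
`√μ (R+1) C'' exp(-c lam^(1/3)/4) ≤ exp(-lam^(1/4))` for `lam ≥ lam₀`. Diagonal: `Kf p p =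
√μ P₀^(-2) p^(-2) ∑ ‖Ph(log p + r)‖²`; the `r` with `|log p + r - k*| ≤ c √lam` are in `range (R+1)` (`c√lam ≤
lam^(2/3)` for large `lam`), at least `c √lam` of them (`lam` large), each contributes `≥ c² P₀²/μ`. -/
def S_Kfi : Prop := S_Kup → S_Klo → S_Ksu → S_K1

end MP7ed9c3.Pz
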