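import Mathlib

/-!
# MP_7ed9c3_nt, part Pz.  Statements M, first part: sums over primes and over integers

Every statement is a separate module; the complete proof is in the docstring.
-/

set_option autoImplicit false

namespace MP7ed9c3.Pz

/-- `τ(m)^C`. -/
noncomputable def tc (C m : ℕ) : ℝ := (m.divisors.card : ℝ) ^ C

/-- No prime divides `m` exactly once. -/
def Pw (m : ℕ) : Prop := ∀ p : ℕ, p.Prime → m.factorization p ≠ 1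

open Classical in
/-- The part of `m` made of primes `≤ z`. -/
noncomputable def smz (z : ℝ) (m : ℕ) : ℕ :=
  ∏ p ∈ m.primeFactors.filter (fun p : ℕ => (p : ℝ) ≤ z), p ^ m.factorization p

/-- **Ma, primes in a unit interval.**

Proof.  `θ(x) = ∑_{p ≤ x} log p ≤ (log 4) x` (`Chebyshev.theta_le_log4_mul_x`).  For `p ∈ S`: `p ≥ e^u` and
`log p ≥ u > 0`, so `1/p ≤ e^(-u) (log p)/u`; the sum of `log p` over `S` is at most `θ(e^(u+1))`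
(`Chebyshev.theta_eq_sum_Icc`).  Total `≤ (log 4) e^(u+1) e^(-u)/u = (log 4) e/u ≤ 4/u`
(`log 4 = 2 log 2 ≤ 1.3863`, `e ≤ 2.7183`). -/
def S_Ma : Prop :=
  ∀ (u : ℝ) (S : Finset ℕ), 1 ≤ u →
    (∀ p ∈ S, p.Prime ∧ u ≤ Real.log p ∧ Real.log p ≤ u + 1) → ∑ p ∈ S, (1 : ℝ) / p ≤ 4 / u

/-- **Mb, primes in a short interval** (from Ma).

Proof.  `y = max u (x - W)`: for `p ∈ S` `y ≤ log p ≤ x + W ≤ y + 2W`.  With `j = ⌊log p - y⌋₊ ≤ ⌊2W⌋₊` one has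
`y + j ≤ log p ≤ y + j + 1`, so by Ma the sum is at most `∑_{j ≤ ⌊2W⌋₊} 4/(y+j) ≤ (2W+1) 4/u ≤ 8 (W+1)/u`
(`Finset.sum_fiberwise_of_maps_to` with the map `p ↦ ⌊log p - y⌋₊` into `range (⌊2W⌋₊ + 1)`). -/
def S_Mb : Prop :=
  ∀ (u x W : ℝ) (S : Finset ℕ), 1 ≤ u → 0 ≤ W →
    (∀ p ∈ S, p.Prime ∧ u ≤ Real.log p ∧ |Real.log p - x| ≤ W) →
    ∑ p ∈ S, (1 : ℝ) / p ≤ 8 * (W + 1) / u

/-- **Mc, an upper bound for the sum of `1/p`** (from Ma).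

Proof.  With `j = ⌊log p - u⌋₊ ≤ J = ⌊v - u⌋₊` the sum is at most `∑_{j ≤ J} 4/(u+j)`; the term `j = 0` is `≤ 4`;
for `j ≥ 1`: `1/(u+j) ≤ log((u+j)/(u+j-1))` (`1 - 1/y ≤ log y`, `Real.one_sub_inv_le_log_of_pos`), the sum
telescopes (induction on `J`): `∑_{j=1}^J 1/(u+j) ≤ log((u+J)/u) ≤ log(v/u)`. -/
def S_Mc : Prop :=
  ∀ (u v : ℝ) (S : Finset ℕ), 1 ≤ u → u ≤ v →
    (∀ p ∈ S, p.Prime ∧ u ≤ Real.log p ∧ Real.log p ≤ v) →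
    ∑ p ∈ S, (1 : ℝ) / p ≤ 4 + 4 * Real.log (v / u)

/-- **Md, a finite Euler product.**

Proof.  `N ↦ (p ↦ N.factorization p)` is injective on `T` (`Nat.eq_of_factorization_eq`; outside `S` the
exponents are `0` because `primeFactors ⊆ S`) with values in `S.pi (fun _ => range J)`.
`∏_{p ∈ S} ∑_{j ∈ range J} φ p j = ∑_{e ∈ S.pi (fun _ => range J)} ∏_{p ∈ S.attach} φ p (e p)` (`Finset.prod_sum`),
all terms are `≥ 0`, so the sum over the image of `T` is at most the whole sum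
(`Finset.sum_le_sum_of_subset_of_nonneg`, `Finset.sum_image`). -/
def S_Md : Prop :=
  ∀ (S T : Finset ℕ) (φ : ℕ → ℕ → ℝ) (J : ℕ),
    (∀ p ∈ S, ∀ j, 0 ≤ φ p j) →
    (∀ N ∈ T, N ≠ 0 ∧ N.primeFactors ⊆ S ∧ ∀ p ∈ S, N.factorization p < J) →
    ∑ N ∈ T, ∏ p ∈ S, φ p (N.factorization p) ≤ ∏ p ∈ S, ∑ j ∈ Finset.range J, φ p j

/-- **Me, the local sum.**

Proof.  `x ≤ (8/7)/√5 ≤ 13/25`.  The term `j = 0` is `1`, the term `j = 1` is `0`, and for `j ≥ 2`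
`x^j (j+1)^C = x² x^(j-2) (j+1)^C ≤ (64/49) (1/p) (13/25)^(j-2) (j+1)^C`.  `D = 2 ∑'_i (13/25)^i (i+3)^C + 1`
(summable: `summable_pow_mul_geometric_of_norm_lt_one`, or bound `(i+3)^C ≤ 3^C (i+1)^C`). -/
def S_Me : Prop :=
  ∀ C : ℕ, ∃ D : ℝ, 0 < D ∧ ∀ (p : ℕ) (x : ℝ) (J : ℕ), 5 ≤ p → 0 ≤ x → x ≤ 8 / 7 / √(p : ℝ) →
    ∑ j ∈ Finset.range J, (if j = 1 then 0 else x ^ j * ((j : ℝ) + 1) ^ C) ≤ 1 + D / p

/-- **Mf, sums over integers without exact primes** (from Md, Me).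

Proof.  `D` from Me.  For `N ∈ T` the term is `∏_{p ∈ S} φ p (v_p N)`, `φ p j = 0` for `j = 1` and
`x_p^j (j+1)^C` otherwise, `x_p = p^(-1/2) p^δ` if `p ≤ z` and `p^(-1/2)` if `p > z`: indeed
`N = ∏_{p ∈ S} p^(v_p)` (`Nat.factorization_prod_pow_eq_self`, the primes outside `primeFactors` contribute `1`),
`card divisors = ∏ (v_p + 1)` (`Nat.card_divisors`), `smz z N = ∏_{p ≤ z} p^(v_p)`; no `v_p` is `1`.
`p^δ ≤ z^δ ≤ 8/7` for `p ≤ z` (`δ ≥ 0`; if some `p ≤ z` then `z ≥ 1`), so `x_p ≤ (8/7)/√p`.  Take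
`J > v_p(N)` for all `N ∈ T`, `p ∈ S` (for example `J = 1 + ∑_{N ∈ T} N`, `Nat.factorization_lt`).  Md, Me:
the sum is at most `∏ (1 + D/p) ≤ exp(D ∑ 1/p)` (`Real.add_one_le_exp`). -/
def S_Mf : Prop :=
  ∀ C : ℕ, ∃ D : ℝ, 0 < D ∧ ∀ (S T : Finset ℕ) (z δ : ℝ), 0 ≤ δ → z ^ δ ≤ 8 / 7 →
    (∀ p ∈ S, p.Prime ∧ 5 ≤ p) → (∀ N ∈ T, N ≠ 0 ∧ N.primeFactors ⊆ S ∧ Pw N) →
    ∑ N ∈ T, (√(N : ℝ))⁻¹ * tc C N * (smz z N : ℝ) ^ δ ≤ Real.exp (D * ∑ p ∈ S, (1 : ℝ) / p)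

/-- **Mg, from tuples to products.**

Proof.  `Finset.sum_fiberwise_of_maps_to` with `m ↦ ∏ m i`: the fibre of `N` is contained in
`Fintype.piFinset (fun _ => N.divisors)` (every `m i` divides the product `N ≠ 0`), which has
`(card N.divisors)^(card κ)` elements. -/
def S_Mg : Prop :=
  ∀ (κ : Type) [Fintype κ] (B : Finset (κ → ℕ)) (G : ℕ → ℝ), (∀ N, 0 ≤ G N) →
    (∀ m ∈ B, ∀ i, m i ≠ 0) →
    ∑ m ∈ B, G (∏ i, m i) ≤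
      ∑ N ∈ B.image (fun m => ∏ i, m i), tc (Fintype.card κ) N * G N

end MP7ed9c3.Pz
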