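import Pool.Agent.Lib.MP_7ed9c3_nt.Pz.Def
import Pool.Agent.Lib.MP_7ed9c3_nt.Pz.SpecMa

/-!
# MP_7ed9c3_nt, part Pz.  Statements M, second part: averages over the box

Every statement is a separate module; the complete proof is in the docstring.
-/

set_option autoImplicit false

namespace MP7ed9c3.Pz

open MP7ed9c3.Tz

/-- **Mt, the divisor bound.**

Proof.  `tc C m / √m = ∏_{p ∣ m} (v+1)^C p^(-v/2)` (`v = v_p(m)`; `Nat.card_divisors`,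
`Nat.factorization_prod_pow_eq_self`).  For `p ≥ 4^C` and `v ≥ 1` the factor is `≤ 1`
(`(v+1)^C ≤ 2^(vC) ≤ p^(v/2)`); for the `p < 4^C` it is at most `B = 1 + sup_v (v+1)^C 2^(-v/2)`, finite (the
sequence tends to `0`; or `(v+1)^C ≤ B 2^(v/2)` from `summable_pow_mul_geometric_of_norm_lt_one`).
So `C' = B^(4^C)`. -/
def S_Mt : Prop :=
  ∀ C : ℕ, ∃ C' : ℝ, 0 < C' ∧ ∀ m : ℕ, 1 ≤ m → tc C m ≤ C' * √(m : ℝ)

open Classical in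
/-- **Mw, sums over tuples whose product has no exact prime** (from Mf, Mg).

Proof.  Mg with `G N = (√N)⁻¹ tc C N (smz z N)^δ` (`≥ 0`), then Mf for `C + k` and `T = B.image`
(`tc k N * tc C N = tc (C + k) N`; the prime factors of a product of nonzero numbers are those of the
factors, `Nat.primeFactors_prod` or `Nat.Prime.dvd` through `Prime.exists_mem_finset_dvd`). -/
def S_Mw : Prop :=
  ∀ C k : ℕ, ∃ D : ℝ, 0 < D ∧ ∀ (S : Finset ℕ) (B : Finset (Fin k → ℕ)) (z δ : ℝ), 0 ≤ δ →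
    z ^ δ ≤ 8 / 7 → (∀ p ∈ S, p.Prime ∧ 5 ≤ p) →
    (∀ m ∈ B, (∀ i, m i ≠ 0 ∧ (m i).primeFactors ⊆ S) ∧ Pw (∏ i, m i)) →
    ∑ m ∈ B, (√((∏ i, m i : ℕ) : ℝ))⁻¹ * tc C (∏ i, m i) * (smz z (∏ i, m i) : ℝ) ^ δ ≤
      Real.exp (D * ∑ p ∈ S, (1 : ℝ) / p)

open Classical in
/-- **Mh, the average of a product of multiplicative functions** (from `S_Equi`, theorem in Tz/Equi.lean).

Proof.  `n = card ι`, `M = ∏ m i ≥ 1`, so `L ≥ 1`.  If some `m i` is not prime to `6` the left hand side is `0`.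
Otherwise every prime factor of `M` is `> 3`.  `T = M.primeFactors`;
`f p a = ∏ i, if p ∣ m i then u i p (v_p(m i)) a else 1`, `H p = ∏ i, (v_p(m i) + 1)^D √p^(v_p(m i))`.
`∏_i mulf (u i) (m i) a = ∏_{p ∈ T} f p a` (`primeFactors (m i) = T.filter (· ∣ m i)`, `Finset.prod_filter`,
`Finset.prod_comm`); `f p` has period `p` and `|f p a| ≤ H p`;
`∏_{p ∈ T} H p = ∏_i tc D (m i) √(m i) ≤ tc (D * card κ) M √M` (`Nat.card_divisors`, `m i ∣ M`).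
`|mean p (f p)| ≤ H p`, so `|∏ mean p (f p)| ≤ ∏ H p`.  If `M` has an exact prime `p` then exactly one
`i₀` has `v_p(m i₀) = 1` and the others have `0`, so `f p = u i₀ p 1` and `mean p (f p) = 0`.
`S_Equi` (`∏_{p ∈ T} p ≤ M ≤ L`, `Nat.prod_primeFactors_dvd`), divided by `L`:
`|bsum| ≤ L^n ∏ H ([Pw M] + 2 n M/L)`. -/
def S_Mh : Prop :=
  ∀ (ι κ : Type) [Fintype ι] [Fintype κ] (D : ℕ) (u : κ → ℕ → ℕ → (ι → ℤ) → ℝ) (m : κ → ℕ) (L : ℕ)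
    (A₀ : ι → ℤ),
    (∀ i p, p.Prime → 3 < p → (∀ j, Per p (u i p j)) ∧
      (∀ j a, |u i p j a| ≤ ((j : ℝ) + 1) ^ D * √(p : ℝ) ^ j) ∧ mean p (u i p 1) = 0) →
    (∀ i, m i ≠ 0) → ∏ i, m i ≤ L →
    |bsum L A₀ (fun a => ∏ i, mulf (u i) (m i) a)| ≤
      (L : ℝ) ^ Fintype.card ι * (√((∏ i, m i : ℕ) : ℝ) * tc (D * Fintype.card κ) (∏ i, m i)) *
        ((if Pw (∏ i, m i) then 1 else 0) + 2 * Fintype.card ι * ((∏ i, m i : ℕ) : ℝ) / L)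

open Classical in
/-- **Mi, the average of a product of four coefficients** (from Mh).

Proof.  `Finset.prod_univ_sum`: the product is the sum over `k ∈ Fintype.piFinset (..)` (`k i` a divisor of
`m i`) of `∏ i, mulf ν (k i) a * mulf β (m i / k i) a`, a product of eight functions indexed by
`κ = Fin 4 ⊕ Fin 4` (`Fintype.prod_sum_type`, `Finset.prod_mul_distrib`) with product of the arguments
`∏ k i (m i / k i) = ∏ m i` (`Nat.mul_div_cancel'`, `Nat.mem_divisors`).  Hypotheses of Mh from `LocData`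
(`ν p 1 = - β p 1` has mean `0`).  `bsum` is linear; the number of `k` is at most
`∏ card (divisors (m i)) ≤ tc 4 (∏ m i)`; `C = 8 D + 4`. -/
def S_Mi : Prop :=
  ∀ (ι : Type) [Fintype ι] (D : ℕ) (β ν : ℕ → ℕ → (ι → ℤ) → ℝ), LocData D β ν →
    ∀ (z X L : ℕ) (A₀ : ι → ℤ) (m : Fin 4 → ℕ), (∀ i, m i ≠ 0) → ∏ i, m i ≤ L →
    |bsum L A₀ (fun a => ∏ i, dco β ν z X (m i) a)| ≤
      (L : ℝ) ^ Fintype.card ι * (√((∏ i, m i : ℕ) : ℝ) * tc (8 * D + 4) (∏ i, m i)) *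
        ((if Pw (∏ i, m i) then 1 else 0) + 2 * Fintype.card ι * ((∏ i, m i : ℕ) : ℝ) / L)

/-- **Mj, the structure of the coefficients.**

Proof.  (1) The divisors of the prime `p` are `1, p`; `p` has the prime factor `p > z`; so the sum is
`mulf ν 1 a * mulf β p a = 1 * β p 1 a` (`p > 3` is prime to `6`; the empty product is `1`).
(3) If `m` is not prime to `6`, then for `m = k l` one of `k`, `l` is not prime to `6` (`Nat.Coprime.mul_left`),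
and the product is `0` (also clear for `m = 0`).  (4) Clear.
(2) By (3) let `m` be prime to `6`.  `s = smz z m`, `m = s r`, all prime factors of `r` are `> z`, those of `s` are
`≤ z`, `gcd(s, r) = 1`.  The divisors `k` of `m` without prime factors `> z` are the divisors of `s`, all
`≤ s ≤ X`, and `mulf β (m/k) = mulf β (s/k) mulf β r`.  So `dco = mulf β r a ∑_{k ∣ s} mulf ν k a mulf β (s/k) a`.
`k ↦ mulf ν k a`, `k ↦ mulf β k a` define multiplicative `ArithmeticFunction`s, so their Dirichlet product is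
multiplicative (`ArithmeticFunction.IsMultiplicative.mul`) and its value at `s` is the product over
`p ∣ s` of its values at `p^v`, `v = v_p(s) ≥ 1` (`IsMultiplicative.multiplicative_factorization`), which are
`∑_{i ≤ v} ν p i a β p (v-i) a = 0` (`Nat.sum_divisors_prime_pow` or
`Nat.divisors_prime_pow`; LocData).  There is at least one `p ∣ s` (the given prime factor `≤ z` of `m`). -/
def S_Mj : Prop :=
  ∀ (ι : Type) [Fintype ι] (D : ℕ) (β ν : ℕ → ℕ → (ι → ℤ) → ℝ), LocData D β ν →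
    ∀ (z X : ℕ) (a : ι → ℤ), 3 ≤ z → 1 ≤ X →
    (∀ p : ℕ, p.Prime → z < p → dco β ν z X p a = β p 1 a) ∧
    (∀ m : ℕ, 1 ≤ m → (∃ p ∈ m.primeFactors, p ≤ z) → smz z m ≤ X → dco β ν z X m a = 0) ∧
    (∀ m : ℕ, ¬ m.Coprime 6 → dco β ν z X m a = 0) ∧ dco β ν z X 1 a = 1

/-- **Mk, the variance of the diagonal part** (from `S_Equi`).

Proof.  `n = card ι`, `h p a = (β p 1 a)² - μ_p`, `μ_p = mean p (β p 1 ²)`, `0 ≤ (β p 1)² ≤ 4^D p`, so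
`0 ≤ μ_p ≤ 4^D p`, `|h p| ≤ 4^D p`, `mean p (h p) = 0`, period `p`.  `P = pr z Z`.  Expand the square:
`∑_{p,l ∈ P} κ p κ l bsum(h p h l)`.  `p ≠ l`: `S_Equi` with `T = {p, l}` (`p l ≤ Z² ≤ L`):
`|bsum(h p h l)| L ≤ 2n p l L^n 16^D p l`, so the terms together are at most
`∑_{p,l} C₁² p^(-2) l^(-2) 2n p² l² 16^D L^n/L ≤ 2n 16^D C₁² L^n Z²/L` (`P ⊆ [1,Z]`; `P` nonempty gives `Z ≥ 1`,
`L ≥ 1`).  `p = l`: `κ p² bsum(h p²) ≤ C₁² p^(-4) 16^D p² L^n`, and `∑_{p > z} p^(-2) ≤ 1/z`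
(`∑_{z < p ≤ Z} 1/(p(p-1))` telescopes, or `sum_Ioc_inv_sq_le_sub`). -/
def S_Mk : Prop :=
  ∀ (ι : Type) [Fintype ι] (D : ℕ) (β ν : ℕ → ℕ → (ι → ℤ) → ℝ), LocData D β ν →
    ∀ (z Z L : ℕ) (A₀ : ι → ℤ) (κ : ℕ → ℝ) (C₁ : ℝ), 3 ≤ z → Z ^ 2 ≤ L →
    (∀ p ∈ pr z Z, |κ p| ≤ C₁ / (p : ℝ) ^ 2) →
    bsum L A₀ (fun a => (∑ p ∈ pr z Z,
      (β p 1 a ^ 2 - mean p (fun b => β p 1 b ^ 2)) * κ p) ^ 2) ≤
      16 ^ D * C₁ ^ 2 * (L : ℝ) ^ Fintype.card ι * (1 / z + 2 * Fintype.card ι * (Z : ℝ) ^ 2 / L)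

/-- The bounds for the kernel. -/
def Kbd (Z : ℕ) (C₁ ε W : ℝ) (K : ℕ → ℕ → ℝ) : Prop :=
  ∀ l ∈ Finset.Icc 1 Z, ∀ m ∈ Finset.Icc 1 Z, |K l m| ≤ C₁ / ((l : ℝ) * m) ∧
    (W < |Real.log l - Real.log m| → |K l m| ≤ ε / ((l : ℝ) * m))

/-- The bilinear form. -/
noncomputable def bf (K : ℕ → ℕ → ℝ) (A B : Finset ℕ) (x : ℕ → ℝ) : ℝ :=
  ∑ l ∈ A, ∑ m ∈ B, x l * x m * K l m

open Classical in
/-- The numbers in `[1, Z]` which are not prime and have only prime factors `> z`. -/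
noncomputable def Qr (z Z : ℕ) : Finset ℕ :=
  (Finset.Icc 1 Z).filter (fun m : ℕ => ¬ m.Prime ∧ ∀ p ∈ m.primeFactors, z < p)

open Classical in
/-- The numbers in `[1, Z]`, prime to `6`, with `z`-smooth part `> X`. -/
noncomputable def Qs (z X Z : ℕ) : Finset ℕ :=
  (Finset.Icc 1 Z).filter (fun m : ℕ => m.Coprime 6 ∧ X < smz z m)

/-- **Ml, the off-diagonal part of the square of the prime sum** (from Mb, Mi).

Proof.  `n = card ι`, `d p = dco β ν z X p a`, `P = pr z Z`, `S = ∑_{p ∈ P} 1/p`.  The square is the sum over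
`p ≠ l`, `p' ≠ l'` in `P` of `d p d l d p' d l' K p l K p' l'`.  Mi with `m = ![p, l, p', l']`, `M = p l p' l' ≤ Z⁴ ≤ L`;
`τ(M) ≤ 16`.  If `Pw M`, then (`v_p(M) ≥ 2` and `p ≠ l`, the same for `l`) `(p', l') = (p, l)` or `(l, p)`, so
`|K p' l'| = |K p l|` (symmetry), `√M = p l`.  So
`bsum ≤ L^n [2 · 16^(8D+4) ∑_{p ≠ l} (K p l)² p l + ∑_{all} |K p l| |K p' l'| √M 16^(8D+4) 2n M/L]`.
Second sum: `|K p l| |K p' l'| ≤ C₁²/M`, `√M ≤ Z²`, at most `Z⁴` tuples: `≤ 2n 16^(8D+4) C₁² Z⁶/L ≤ .. Z⁸/L`.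
First sum: `(K p l)² p l ≤ C₁²/(p l)` if `|log p - log l| ≤ W` and `≤ ε²/(p l)` otherwise; by Mb (`x = log p`; the
elements of `P` are `≥ z + 1`, so `log ≥ u`) it is at most `C₁² S 8 (W+1)/u + ε² S²`. -/
def S_Ml : Prop :=
  ∀ (ι : Type) [Fintype ι] (D : ℕ), ∃ C : ℝ, 0 < C ∧
    ∀ β ν : ℕ → ℕ → (ι → ℤ) → ℝ, LocData D β ν →
    ∀ (z X Z L : ℕ) (A₀ : ι → ℤ) (K : ℕ → ℕ → ℝ) (C₁ ε W u : ℝ), 3 ≤ z → Z ^ 4 ≤ L →
    0 ≤ ε → 0 ≤ C₁ → 0 ≤ W → 1 ≤ u → u ≤ Real.log ((z : ℝ) + 1) → (∀ l m, K l m = K m l) →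
    Kbd Z C₁ ε W K →
    bsum L A₀ (fun a => (∑ p ∈ pr z Z, ∑ l ∈ (pr z Z).erase p,
      dco β ν z X p a * dco β ν z X l a * K p l) ^ 2) ≤
      C * (L : ℝ) ^ Fintype.card ι * (C₁ ^ 2 * ((W + 1) / u) * ∑ p ∈ pr z Z, (1 : ℝ) / p +
        ε ^ 2 * (∑ p ∈ pr z Z, (1 : ℝ) / p) ^ 2 + C₁ ^ 2 * (Z : ℝ) ^ 8 / L)

/-- **Mn, the case analysis.**

Proof.  `W ≥ 0`.  (0) If `l ≥ 1` has only prime factors `> z` and `log l ≤ 2W`, then `l = 1` (otherwise `l` has a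
prime factor `≥ z + 1 > exp(2W)`).  (1) `p ∤ m`: if `m = p l` then `log l = log m - log p ≤ W`, so `l = 1` and
`m = p` is prime, excluded.  In the same way `p' ∤ m'`.  (2) Let `p ≠ p'`.  `v_p(p m p' m') = 1 + v_p(m')`, which
is not `1`, so `p ∣ m'`; in the same way `p' ∣ m`.  `m' = p l'`, `m = p' l`,
`log l + log l' = (log m - log p) + (log m' - log p') ≤ 2W`, so `l = l' = 1` and `m = p'` is prime, excluded.
(3) `p = p'`, `p ∤ m`, `p ∤ m'`; if `q` is an exact prime of `m m'` then `q ≠ p` and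
`v_q(p m p' m') = v_q(m m') = 1`, excluded. -/
def S_Mn : Prop :=
  ∀ (z : ℕ) (W : ℝ) (p p' m m' : ℕ), Real.exp (2 * W) < (z : ℝ) + 1 → p.Prime → p'.Prime →
    z < p → z < p' → 1 ≤ m → 1 ≤ m' → ¬ m.Prime → ¬ m'.Prime →
    (∀ q ∈ m.primeFactors, z < q) → (∀ q ∈ m'.primeFactors, z < q) →
    |Real.log p - Real.log m| ≤ W → |Real.log p' - Real.log m'| ≤ W → Pw (p * m * (p' * m')) →
    p = p' ∧ ¬ p ∣ m ∧ ¬ p ∣ m' ∧ Pw (m * m')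

open Classical in
/-- **Mu, the sum over the close terms** (from Mb, Mw).

Proof.  For fixed `m, m'` the sum over `p` is at most `8 (W+1)/u` by Mb (`x = log m`, `P = pr z Z`, `log p ≥ u`).
The sum of `(√(m m'))⁻¹ tc C (m m')` over the pairs `(m, m')` in `Qr z Z` with `Pw (m m')` is at most
`exp(D S)` by Mw with `k = 2`, `z = 1`, `δ = 0`, the set `pr z Z` (its elements are `≥ 5` because `z ≥ 4`;
the prime factors of `m ∈ Qr z Z` are `> z` and `≤ m ≤ Z`), `Fin.prod_univ_two`, `![m, m']`.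
`C' = max 8 D`. -/
def S_Mu : Prop :=
  ∀ C : ℕ, ∃ C' : ℝ, 0 < C' ∧ ∀ (z Z : ℕ) (W u : ℝ), 4 ≤ z → 0 ≤ W → 1 ≤ u →
    u ≤ Real.log ((z : ℝ) + 1) →
    ∑ p ∈ pr z Z, ∑ m ∈ Qr z Z, ∑ m' ∈ Qr z Z,
      (if |Real.log p - Real.log m| ≤ W ∧ Pw (m * m') then
        1 / (p : ℝ) * ((√((m * m' : ℕ) : ℝ))⁻¹ * tc C (m * m')) else 0) ≤
      C' * ((W + 1) / u) * Real.exp (C' * ∑ p ∈ pr z Z, (1 : ℝ) / p)

/-- **Mm, the cross term** (from Mi, Mn, Mt, Mu, Mw).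

Proof.  `n = card ι`, `P = pr z Z`, `Q = Qr z Z`, `C₀ = 8 D + 4`.  The square is the sum over `p, p' ∈ P`,
`m, m' ∈ Q` of `d p d m d p' d m' K p m K p' m'`.  Mi with `![p, m, p', m']`, `M = p m p' m' ≤ Z⁴ ≤ L`:
`bsum ≤ L^n ∑ |K p m| |K p' m'| √M tc C₀ M ([Pw M] + 2n M/L)`, `|K p m| |K p' m'| ≤ C₁²/M`.
(E) The part with `2n M/L`: `C₁² √M tc C₀ M 2n/L ≤ C₁² C' M 2n/L ≤ 2n C' C₁² Z⁴/L` (Mt) for each of the at most `Z⁴`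
tuples: `≤ 2n C' C₁² Z⁸/L`.
(F) `Pw M` and one of the pairs is far (`W < |log p - log m|` or `W < |log p' - log m'|`):
`|K p m| |K p' m'| ≤ C₁ ε/M`; the sum is at most `C₁ ε ∑ (√M)⁻¹ tc C₀ M ≤ C₁ ε exp(D' S)` by Mw (`k = 4`, `z = 1`,
`δ = 0`, set `P`).
(N) `Pw M` and both pairs are close: by Mn `p = p'`, `p ∤ m m'`, `Pw (m m')`, so `√M = p √(m m')`,
`tc C₀ M = 3^C₀ tc C₀ (m m')` (`Nat.Coprime.card_divisors_mul`, `p²` has three divisors), and the term is at most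
`C₁² 3^C₀ (1/p) (√(m m'))⁻¹ tc C₀ (m m')`; Mu. -/
def S_Mm : Prop :=
  ∀ (ι : Type) [Fintype ι] (D : ℕ), ∃ C : ℝ, 0 < C ∧
    ∀ β ν : ℕ → ℕ → (ι → ℤ) → ℝ, LocData D β ν →
    ∀ (z X Z L : ℕ) (A₀ : ι → ℤ) (K : ℕ → ℕ → ℝ) (C₁ ε W u : ℝ), 4 ≤ z → Z ^ 4 ≤ L →
    0 ≤ ε → 0 ≤ C₁ → 0 ≤ W → 1 ≤ u → u ≤ Real.log ((z : ℝ) + 1) →
    Real.exp (2 * W) < (z : ℝ) + 1 → Kbd Z C₁ ε W K →
    bsum L A₀ (fun a => (bf K (pr z Z) (Qr z Z) (fun m => dco β ν z X m a)) ^ 2) ≤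
      C * (L : ℝ) ^ Fintype.card ι * ((C₁ ^ 2 * ((W + 1) / u) + C₁ * ε) *
        Real.exp (C * ∑ p ∈ pr z Z, (1 : ℝ) / p) + C₁ ^ 2 * (Z : ℝ) ^ 8 / L)

/-- **Mo, the part with large smooth part (Rankin)** (from Mi, Mj, Mt, Mw).

Proof.  `n = card ι`, `Q = Qs z X Z`.  `bsum = ∑_{m, m' ∈ Q} K m m' bsum(d m d m')`; Mi with `![m, m', 1, 1]`
(`dco β ν z X 1 a = 1`, Mj), `N = m m' ≤ Z² ≤ L`:
`bsum ≤ L^n ∑ C₁/N √N tc C₀ N ([Pw N] + 2n N/L)`, `C₀ = 8 D + 4`.  The part with `2n N/L`: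
`C₁ √N tc C₀ N 2n/L ≤ 2n C' C₁ N/L` (Mt), at most `Z²` pairs, `N ≤ Z²`: `≤ 2n C' C₁ Z⁴/L`.
`Pw N`: `smz z m ∣ smz z N` so `smz z N ≥ smz z m > X` and `1 ≤ X^(-δ) (smz z N)^δ` (`X ≥ 1`, `δ ≥ 0`); the sum of
`(√N)⁻¹ tc C₀ N (smz z N)^δ` over the pairs is at most `exp(D' S)` by Mw (`k = 2`, set `pr 3 Z`: the prime
factors of `m ∈ Q` are not `2, 3` and at most `Z`; they are `≥ 5`). -/
def S_Mo : Prop :=
  ∀ (ι : Type) [Fintype ι] (D : ℕ), ∃ C : ℝ, 0 < C ∧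
    ∀ β ν : ℕ → ℕ → (ι → ℤ) → ℝ, LocData D β ν →
    ∀ (z X Z L : ℕ) (A₀ : ι → ℤ) (K : ℕ → ℕ → ℝ) (C₁ ε W δ : ℝ), 3 ≤ z → 1 ≤ X → Z ^ 4 ≤ L →
    0 ≤ C₁ → 0 ≤ δ → (z : ℝ) ^ δ ≤ 8 / 7 → Kbd Z C₁ ε W K →
    bsum L A₀ (fun a => bf K (Qs z X Z) (Qs z X Z) (fun m => dco β ν z X m a)) ≤
      C * C₁ * (L : ℝ) ^ Fintype.card ι * ((X : ℝ) ^ (-δ) *
        Real.exp (C * ∑ p ∈ pr 3 Z, (1 : ℝ) / p) + (Z : ℝ) ^ 4 / L)

/-- **Mp, the end of the argument, linear algebra.**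

Proof.  `q(x, y) = ∑_{l,m ∈ [1,Z]} x l y m K l m`, symmetric, `q(x, x) ≥ 0`.  `T, R, R'` are `x` restricted to
`P, Q, Q'` (extended by `0`), `V = T + R + R' = x` on `[1,Z]`.  `q(V, V) ≤ δ`, `q(R', R') ≤ δ`.
`0 ≤ q(V + R', V + R')` gives `q(V - R', V - R') ≤ 2 q(V, V) + 2 q(R', R') ≤ 4δ`, and `V - R' = T + R =: U`.
`0 ≤ q(T - 2U, T - 2U) = q(T,T) - 4 q(T,U) + 4 q(U,U)` gives `q(T,U) ≤ q(T,T)/4 + 4δ`; `q(T,U) = q(T,T) + q(T,R)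
≥ q(T,T) - c/4`.  So `(3/4) q(T,T) ≤ c/4 + 4δ < 3c/8`. -/
def S_Mp : Prop :=
  ∀ (Z : ℕ) (K : ℕ → ℕ → ℝ) (P Q Q' : Finset ℕ) (x : ℕ → ℝ) (c δ : ℝ), (∀ l m, K l m = K m l) →
    (∀ y : ℕ → ℝ, 0 ≤ ∑ l ∈ Finset.Icc 1 Z, ∑ m ∈ Finset.Icc 1 Z, y l * y m * K l m) →
    P ⊆ Finset.Icc 1 Z → Q ⊆ Finset.Icc 1 Z → Q' ⊆ Finset.Icc 1 Z →
    Disjoint P Q → Disjoint P Q' → Disjoint Q Q' →
    (∀ m ∈ Finset.Icc 1 Z, m ∉ P → m ∉ Q → m ∉ Q' → x m = 0) → 32 * δ < c →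
    bf K (Finset.Icc 1 Z) (Finset.Icc 1 Z) x ≤ δ → bf K Q' Q' x ≤ δ → |bf K P Q x| ≤ c / 4 →
    bf K P P x < c / 2

open Classical in
/-- **Mq, the number of exceptional points** (from Mj, Mk, Ml, Mm, Mo, Mp).

Proof.  `d m = dco β ν z X m a` at the point `a`; the points of the box are `A₀ + a`, `a : ι → Fin L`, and
`bsum L A₀ G = ∑_a G(sh A₀ a)` by definition.  `P = pr z Z`, `Q = Qr z Z`, `Q' = Qs z X Z`: disjoint subsets of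
`[1, Z]` (elements of `Q'` have `smz z m > X ≥ 1`, so a prime factor `≤ z`), and `d m = 0` for the other `m`
(Mj: such `m` has a prime factor `≤ z`, and it is not prime to `6` or `smz z m ≤ X`).  Mp with `c = c₂`: if the
quadratic form is `≤ δ` at `a`, then (i) `bf K Q' Q' d > δ`, or (ii) `|bf K P Q d| > c₂/4`, or
(iii) `bf K P P d < c₂/2`.  In case (iii): `d p = β p 1` for `p ∈ P` (Mj), so
`bf K P P d = ∑ μ_p K p p + ∑ ((β p 1)² - μ_p) K p p + ∑_{p ≠ l} d p d l K p l`, the first sum is `≥ c₂`, so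
one of the two others has absolute value `≥ c₂/4`.  Markov's inequality: the number of `a` with (i) is at
most `bsum(bf K Q' Q' d)/δ` (`bf K Q' Q' d ≥ 0`: extend by `0`), with (ii) at most
`(16/c₂²) bsum((bf K P Q d)²)`, with (iii) at most `(16/c₂²)` times the two sums of Mk (`κ p = K p p`,
`|K p p| ≤ C₁/p²`) and Ml. -/
def S_Mq : Prop :=
  ∀ (ι : Type) [Fintype ι] (D : ℕ), ∃ C : ℝ, 0 < C ∧
    ∀ β ν : ℕ → ℕ → (ι → ℤ) → ℝ, LocData D β ν →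
    ∀ (z X Z L : ℕ) (A₀ : ι → ℤ) (K : ℕ → ℕ → ℝ) (C₁ c₂ ε W u δ δ' : ℝ), 4 ≤ z → 1 ≤ X → 1 ≤ Z →
    Z ^ 4 ≤ L → 0 ≤ ε → 0 ≤ C₁ → 0 < c₂ → 0 ≤ W → 1 ≤ u → u ≤ Real.log ((z : ℝ) + 1) →
    Real.exp (2 * W) < (z : ℝ) + 1 → 0 ≤ δ' → (z : ℝ) ^ δ' ≤ 8 / 7 → 0 < δ → 32 * δ < c₂ →
    (∀ l m, K l m = K m l) →
    (∀ x : ℕ → ℝ, 0 ≤ ∑ l ∈ Finset.Icc 1 Z, ∑ m ∈ Finset.Icc 1 Z, x l * x m * K l m) →
    Kbd Z C₁ ε W K → c₂ ≤ ∑ p ∈ pr z Z, mean p (fun a => β p 1 a ^ 2) * K p p →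
    ((Finset.univ.filter (fun a : ι → Fin L =>
      bf K (Finset.Icc 1 Z) (Finset.Icc 1 Z) (fun m => dco β ν z X m (sh A₀ a)) ≤ δ)).card : ℝ) ≤
      (L : ℝ) ^ Fintype.card ι * (C / c₂ ^ 2 * (C₁ ^ 2 * (1 / z) +
        C₁ ^ 2 * ((W + 1) / u) * ∑ p ∈ pr z Z, (1 : ℝ) / p + ε ^ 2 * (∑ p ∈ pr z Z, (1 : ℝ) / p) ^ 2 +
        (C₁ ^ 2 * ((W + 1) / u) + C₁ * ε) * Real.exp (C * ∑ p ∈ pr z Z, (1 : ℝ) / p) +
        C₁ ^ 2 * (Z : ℝ) ^ 8 / L) +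
        C * C₁ / δ * ((X : ℝ) ^ (-δ') * Real.exp (C * ∑ p ∈ pr 3 Z, (1 : ℝ) / p) + (Z : ℝ) ^ 8 / L))

end MP7ed9c3.Pz
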