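import Pool.Agent.Lib.MP_7ed9c3_nt.Pz.Def
import Pool.Agent.Lib.MP_7ed9c3_nt.Pz.SpecMa

/-!
# MP_7ed9c3_nt, part Pz.  Statements X: the second half of part M (the moment theorem)

Every statement is a separate module `Pz/X?.lean`; the complete proof is in the docstring.  Notation in the
docstrings: `n = card ι`, `lam = log Z`, `d m a = dco β ν z X m a`.
-/

set_option autoImplicit false

namespace MP7ed9c3.Pz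

open MP7ed9c3.Tz

/-- Powerful, prime to 6, not zero. -/
def Pg (N : ℕ) : Prop := N ≠ 0 ∧ Pw N ∧ N.Coprime 6

open Classical in
/-- `N^(-1/2) τ(N)^C` if `N` is powerful and prime to 6, otherwise 0. -/
noncomputable def gw (C N : ℕ) : ℝ := if Pg N then (√(N : ℝ))⁻¹ * tc C N else 0

/-- The size of the kernel. -/
def KB (C₁ : ℝ) (Z : ℕ) (K : ℕ → ℕ → ℝ) : Prop :=
  (∀ l m, K l m = K m l) ∧
  ∀ l ∈ Finset.Icc 1 Z, ∀ m ∈ Finset.Icc 1 Z, |K l m| ≤ C₁ / ((l : ℝ) * m) ∧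
    (Real.log Z ^ (2 / 3 : ℝ) < |Real.log l - Real.log m| →
      |K l m| ≤ Real.exp (-(Real.log Z ^ (1 / 4 : ℝ))) / ((l : ℝ) * m))

/-- **X1, the structure of dco.**

Proof.  (1) the divisors of a prime `p > z` without prime factors `> z` are `{1}`; `mulf ν 1 = 1`.
(2) `m = s r`, `s = smz z m`; if `s ≤ X` then
`dco m = (∑_{k ∣ s} ν_k β_(s/k)) β_r`, and the sum over `k ∣ s` is the product over the primes of `s` of the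
sums `∑_i ν p i β p (v_p - i) = 0`. -/
def S_X1 : Prop :=
  ∀ (ι : Type) [Fintype ι] (D : ℕ) (β ν : ℕ → ℕ → (ι → ℤ) → ℝ), LocData D β ν →
    ∀ (z X : ℕ) (a : ι → ℤ), 1 ≤ X →
    (∀ p : ℕ, p.Prime → 3 < p → z < p → dco β ν z X p a = β p 1 a) ∧
    ∀ m : ℕ, 1 ≤ m → 1 < smz z m → smz z m ≤ X → dco β ν z X m a = 0

/-- **X2, two and four point bounds** (from `Tz.S_Equi`). -/
def S_X2 : Prop :=
  ∀ (ι : Type) [Fintype ι] (D : ℕ), ∃ C Z₀ : ℕ, ∀ β ν : ℕ → ℕ → (ι → ℤ) → ℝ, LocData D β ν →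
    ∀ (z X Z L : ℕ) (A₀ : ι → ℤ), Z₀ ≤ Z → Z ^ 24 ≤ L →
    ∀ l ∈ Finset.Icc 1 Z, ∀ m ∈ Finset.Icc 1 Z,
      |bsum L A₀ (fun a => dco β ν z X l a * dco β ν z X m a)| ≤
        (L : ℝ) ^ Fintype.card ι * (((l * m : ℕ) : ℝ) * gw C (l * m) + ((Z : ℝ) ^ 14)⁻¹) ∧
      ∀ l' ∈ Finset.Icc 1 Z, ∀ m' ∈ Finset.Icc 1 Z,
        |bsum L A₀ (fun a => dco β ν z X l a * dco β ν z X m a *
            (dco β ν z X l' a * dco β ν z X m' a))| ≤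
          (L : ℝ) ^ Fintype.card ι *
            (((l * m * (l' * m') : ℕ) : ℝ) * gw C (l * m * (l' * m')) + ((Z : ℝ) ^ 14)⁻¹)

/-- **X3, from pairs and quadruples to products** (from `S_Mg`).

Proof.  `S_Mg` for `κ = Fin 2`, `κ = Fin 4` (a pair/quadruple is a function; or directly: the fibre of `N` is
contained in the pairs/quadruples of divisors of `N`) with `G = gw C`; `tc j N * gw C N = gw (C + j) N`
(`pow_add`). -/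
def S_X3 : Prop :=
  (∀ (C : ℕ) (Q : Finset (ℕ × ℕ)), (∀ q ∈ Q, q.1 ≠ 0 ∧ q.2 ≠ 0) →
    ∑ q ∈ Q, gw C (q.1 * q.2) ≤ ∑ N ∈ Q.image (fun q => q.1 * q.2), gw (C + 2) N) ∧
  (∀ (C : ℕ) (Q : Finset (ℕ × ℕ)) (G : ℕ → ℝ), (∀ N, 0 ≤ G N) → (∀ q ∈ Q, q.1 ≠ 0 ∧ q.2 ≠ 0) →
    ∑ q ∈ Q, gw C (q.1 * q.2) * G (q.1 * q.2) ≤
      ∑ N ∈ Q.image (fun q => q.1 * q.2), gw (C + 2) N * G N) ∧
  ∀ (C : ℕ) (Q : Finset ((ℕ × ℕ) × (ℕ × ℕ))),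
    (∀ q ∈ Q, (q.1.1 ≠ 0 ∧ q.1.2 ≠ 0) ∧ (q.2.1 ≠ 0 ∧ q.2.2 ≠ 0)) →
    ∑ q ∈ Q, gw C (q.1.1 * q.1.2 * (q.2.1 * q.2.2)) ≤
      ∑ N ∈ Q.image (fun q => q.1.1 * q.1.2 * (q.2.1 * q.2.2)), gw (C + 4) N

/-- **X4, all powerful integers** (from `S_Mf`, `S_Mc`).

Proof.  Drop the `N` with `gw C N = 0` (`¬ Pg N`).  `S_Mf` with `S` = the primes `5 ≤ p ≤ Z^4`
(a prime factor of `N`, `N` prime to 6, is `≥ 5`): the sum is at most `exp(D ∑_{p ∈ S} 1/p)`, and by `S_Mc` with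
`u = 1`, `v = 4 lam` (`log p ≥ log 5 ≥ 1`, `log p ≤ 4 lam`) `∑ 1/p ≤ 4 + 4 log(4 lam)`; so the sum is at most
`e^(4D) (4 lam)^(4D) ≤ lam^D'` for `D' ≥ 12 D + 1` and large `Z` (`lam ≥ 4 e`). -/
def S_X4 : Prop :=
  ∀ C : ℕ, ∃ D' Z₀ : ℕ, ∀ (Z : ℕ) (z δ : ℝ) (T : Finset ℕ), Z₀ ≤ Z → 0 ≤ δ → z ^ δ ≤ 8 / 7 →
    (∀ N ∈ T, N ≤ Z ^ 4) → ∑ N ∈ T, gw C N * (smz z N : ℝ) ^ δ ≤ Real.log Z ^ D'

/-- **X5, powerful integers without small prime factors** (from `S_Mf`, `S_Mc`).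

Proof.  As X4 with `δ = 0` (`smz ^ 0 = 1`, `z ^ 0 = 1 ≤ 8/7`), `S` = the primes with `zf e Z < p ≤ Z^4`, `5 ≤ p`.
`p ≥ zf e Z + 1 > exp(lam^(1-e))`, so `log p ≥ u = lam^(1-e) ≥ 1`, `v = 4 lam`: `∑ 1/p ≤ 4 + 4 log(4 lam^e)`, the
sum is at most `e^(4D) (4 lam^e)^(4D) = (4e)^(4D) lam^(4De) ≤ lam^((4D+1)e)` for `Z ≥ Z₀(C,e)`. -/
def S_X5 : Prop :=
  ∀ C : ℕ, ∃ D' : ℝ, 0 < D' ∧ ∀ e : ℝ, 0 < e → e < 1 / 3 → ∃ Z₀ : ℕ, ∀ (Z : ℕ) (T : Finset ℕ), Z₀ ≤ Z →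
    (∀ N ∈ T, N ≤ Z ^ 4 ∧ ∀ p ∈ N.primeFactors, zf e Z < p) → ∑ N ∈ T, gw C N ≤ Real.log Z ^ (D' * e)

open Classical in
/-- **X6, the second moment of a quadratic form** (from X2, X3, X4).

Proof.  `C` from X2.  The square is the sum over `(u, v) ∈ U × U` of `d_{u1} d_{u2} d_{v1} d_{v2} K(u) K(v)`;
`bsum` is linear, so by X2 the left side is at most `L^n ∑_{(u,v)} |K u| |K v| (N gw C N + Z^(-14))`,
`N = u1 u2 v1 v2`.  `|K u K v| ≤ C₁²/N`, and `≤ C₁ exp(-lam^(1/4))/N` if `u` or `v` is not in the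
set of the close pairs (`C₁ ≥ 1` without loss of generality: or use `max C₁ 1`; `exp(..) ≤ 1`).  So it is at most
`L^n (C₁² ∑_{close} gw C N + C' exp(-lam^(1/4)) ∑_{all} gw C N + C₁² Z^4 Z^(-14))`.  X3 and X4 (`δ = 0`, `z = 1`)
with `C + 4`: `∑_{all} gw C N ≤ lam^D'`.  The last two terms together are `≤ 1/lam` for large `Z`. -/
def S_X6 : Prop :=
  ∀ (ι : Type) [Fintype ι] (D : ℕ) (C₁ : ℝ), 0 < C₁ → ∃ C Z₀ : ℕ, ∀ β ν : ℕ → ℕ → (ι → ℤ) → ℝ,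
    LocData D β ν → ∀ (z X Z L : ℕ) (A₀ : ι → ℤ) (K : ℕ → ℕ → ℝ) (U : Finset (ℕ × ℕ)),
    Z₀ ≤ Z → Z ^ 24 ≤ L → KB C₁ Z K → (∀ u ∈ U, u.1 ∈ Finset.Icc 1 Z ∧ u.2 ∈ Finset.Icc 1 Z) →
    bsum L A₀ (fun a => (∑ u ∈ U, dco β ν z X u.1 a * dco β ν z X u.2 a * K u.1 u.2) ^ 2) ≤
      (L : ℝ) ^ Fintype.card ι * (C₁ ^ 2 *
        (∑ u ∈ U.filter (fun u => |Real.log u.1 - Real.log u.2| ≤ Real.log Z ^ (2 / 3 : ℝ)),
          ∑ v ∈ U.filter (fun u => |Real.log u.1 - Real.log u.2| ≤ Real.log Z ^ (2 / 3 : ℝ)),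
            gw C (u.1 * u.2 * (v.1 * v.2))) + (Real.log Z)⁻¹)

/-- The rough integers which are not prime. -/
noncomputable def Rset (z Z : ℕ) : Finset ℕ :=
  (Finset.Icc 1 Z).filter (fun m => (∀ p ∈ m.primeFactors, z < p) ∧ ¬ m.Prime)

open Classical in
/-- **X7, off diagonal pairs of primes** (from `S_Mb`, `S_Mc`).

Proof.  `P = pr (zf e Z) Z`, `u₀ = lam^(1-e)`, `W = lam^(2/3)`; `log p ≥ u₀ ≥ 1`, `p ≥ 5` for `p ∈ P` and large `Z`.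
If `p ≠ q`, `p' ≠ q'` and `gw C (p q p' q') ≠ 0` then no prime divides `p q p' q'` exactly once, so
`(p', q') = (p, q)` or `(q, p)`, and `gw C (p² q²) = (p q)⁻¹ 9^C` (`p² q²` has 9 divisors; or `≤ (p q)⁻¹ 16^C` from
`card divisors (a b) ≤ ..`).  So the sum is at most `2 · 9^C ∑_{p ∈ P} 1/p ∑_{q ∈ P, |log q - log p| ≤ W} 1/q`
`≤ 2 · 9^C (8 (W+1)/u₀) (4 + 4 log(lam/u₀))`, `log (lam/u₀) = e log lam`; this is `≤ lam^(-1/3 + 2e)` for large `Z`. -/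
def S_X7 : Prop :=
  ∀ (C : ℕ) (e : ℝ), 0 < e → e < 1 / 3 → ∃ Z₀ : ℕ, ∀ (Z : ℕ) (V : Finset (ℕ × ℕ)), Z₀ ≤ Z →
    (∀ u ∈ V, u.1 ∈ pr (zf e Z) Z ∧ u.2 ∈ pr (zf e Z) Z ∧ u.1 ≠ u.2 ∧
      |Real.log u.1 - Real.log u.2| ≤ Real.log Z ^ (2 / 3 : ℝ)) →
    ∑ u ∈ V, ∑ v ∈ V, gw C (u.1 * u.2 * (v.1 * v.2)) ≤ Real.log Z ^ (-(1 / 3) + 2 * e)

/-- **X8, the pattern of the mixed terms.**

Proof.  Let `p ∣ m`, `m = p l`: `log l = log m - log p ≤ W < log z'`, all prime factors of `l` are `> z'`-large,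
so `l = 1` (a prime factor `q` of `l` has `log q ≤ log l`, but `2 W < log q`), `m = p` is prime: excluded.
So `p ∤ m`, `p' ∤ m'`.  If `p ≠ p'`: `p` divides `p m p' m'`, not exactly once, `p ∤ m`, `p ∤ p'`, so
`p ∣ m'`, and `p' ∣ m`: `m' = p l'`, `m = p' l`; `log m + log m' = log p + log p' + log (l l')`, so
`log (l l') ≤ 2W`, `l = l' = 1` as before, `m = p'` is prime: excluded.  So `p = p'`, `p ∤ m m'`, and no prime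
divides `m m'` exactly once (such a prime is `≠ p` and would divide `p m p m'` exactly once). -/
def S_X8 : Prop :=
  ∀ (y W : ℝ) (p m p' m' : ℕ), 0 ≤ W → 2 * W < y → p.Prime → p'.Prime → y < Real.log p → y < Real.log p' →
    1 ≤ m → 1 ≤ m' → (∀ q ∈ m.primeFactors, y < Real.log q) → (∀ q ∈ m'.primeFactors, y < Real.log q) →
    ¬ m.Prime → ¬ m'.Prime → |Real.log p - Real.log m| ≤ W → |Real.log p' - Real.log m'| ≤ W →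
    Pw (p * m * (p' * m')) → p = p' ∧ ¬ p ∣ m ∧ ¬ p ∣ m' ∧ Pw (m * m')

open Classical in
/-- **X9, mixed terms** (from X3, X5, X8, `S_Mb`).

Proof.  `u₀ = lam^(1-e)`, `W = lam^(2/3)`, `2 W < u₀` for large `Z` because `1 - e > 2/3`.  If
`gw C (p m p' m') ≠ 0` then by X8 (`y = u₀`; primes `> zf e Z` have `log > u₀`) `p = p'`, `p ∤ m m'`,
`Pw (m m')`, and `gw C (p² m m') = 3^C p⁻¹ gw C (m m')` (`card divisors (p² M) = 3 card divisors M` for `p ∤ M`;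
`m m'` is prime to 6).  So the sum is at most `3^C ∑_{(m, m')} gw C (m m') ∑_{p ∈ P, |log p - log m| ≤ W} 1/p
≤ 3^C (8 (W+1)/u₀) ∑_{(m,m') ∈ R × R} gw C (m m')`; X3 (first part) and X5 with `C + 2` (`m m' ≤ Z² ≤ Z^4`,
without prime factors `≤ zf e Z`) bound the last sum by `lam^(D' e)`. -/
def S_X9 : Prop :=
  ∀ C : ℕ, ∃ D' : ℝ, 0 < D' ∧ ∀ e : ℝ, 0 < e → e < 1 / 3 → ∃ Z₀ : ℕ, ∀ (Z : ℕ) (V : Finset (ℕ × ℕ)), Z₀ ≤ Z →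
    (∀ u ∈ V, u.1 ∈ pr (zf e Z) Z ∧ u.2 ∈ Rset (zf e Z) Z ∧
      |Real.log u.1 - Real.log u.2| ≤ Real.log Z ^ (2 / 3 : ℝ)) →
    ∑ u ∈ V, ∑ v ∈ V, gw C (u.1 * u.2 * (v.1 * v.2)) ≤ Real.log Z ^ (-(1 / 3) + D' * e)

/-- **X10, large smooth part** (from X2, X3, X4).

Proof.  `C, Z₀` from X2.  `δ = 1/(10 log z₀)` with `z₀ = zf e Z ≥ 2`, `z₀^δ = e^(1/10) ≤ 8/7`;
`log z₀ ≤ lam^(1-e)`, so `δ log X ≥ η lam^e/10`.  By linearity and X2 the left side is at most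
`L^n ∑_{l,m} (C₁/(l m)) (l m gw C (l m) + Z^(-14)) ≤ L^n (C₁ ∑ gw C (l m) + C₁ Z² Z^(-14))`.
`smz z₀ (l m) ≥ smz z₀ l > X` (`smz` is multiplicative over the factorization, `smz l ∣ smz (l m)`), so
`gw C (l m) ≤ gw C (l m) (smz z₀ (l m))^δ X^(-δ)`; X3 (second part, `G N = (smz z₀ N)^δ`) and X4:
`∑ ≤ X^(-δ) lam^D' ≤ exp(-η lam^e/10) lam^D'`.  All together `≤ 1/lam` for large `Z`. -/
def S_X10 : Prop :=
  ∀ (ι : Type) [Fintype ι] (D : ℕ) (C₁ η e : ℝ), 0 < C₁ → 0 < η → 0 < e → e < 1 / 3 → ∃ Z₀ : ℕ,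
    ∀ β ν : ℕ → ℕ → (ι → ℤ) → ℝ, LocData D β ν →
    ∀ (Z X L : ℕ) (A₀ : ι → ℤ) (K : ℕ → ℕ → ℝ) (S : Finset ℕ), Z₀ ≤ Z → η * Real.log Z ≤ Real.log X →
      Z ^ 24 ≤ L → KB C₁ Z K → (∀ m ∈ S, m ∈ Finset.Icc 1 Z ∧ X < smz (zf e Z : ℝ) m) →
      bsum L A₀ (fun a => ∑ l ∈ S, ∑ m ∈ S,
        dco β ν (zf e Z) X l a * dco β ν (zf e Z) X m a * K l m) ≤
        (L : ℝ) ^ Fintype.card ι * (Real.log Z)⁻¹

/-- **X11, the diagonal** (from `Tz.S_Equi`).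

Proof.  `f p = β p 1 ^ 2 - mean p (β p 1 ^ 2)`: period `p`, mean `0`, `|f p| ≤ B p`, `B = 2 (2^D)²`
(`|β p 1| ≤ 2^D √p`; the mean of a function with `0 ≤ g ≤ H` is in `[0, H]`).  Expand the square:
`p = q`: `|bsum (f p)²| ≤ L^n B² p²`, weight `≤ C₁² p^(-4)`, sum `≤ L^n B² C₁² ∑_{p > z} p^(-2) ≤ L^n B² C₁²/z`.
`p ≠ q`: `S_Equi` with `T = {p, q}`: `|bsum (f p f q)| L ≤ 2 n p q L^n B² p q`, weight `≤ C₁² p^(-2) q^(-2)`, at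
most `Z²` pairs: `≤ L^n 2 n B² C₁² Z²/L ≤ L^n 2 n B² C₁²/z` (`Z^24 ≤ L`, `z ≤ Z`).  `C = (2n + 1) B² C₁²`. -/
def S_X11 : Prop :=
  ∀ (ι : Type) [Fintype ι] (D : ℕ) (C₁ : ℝ), 0 < C₁ → ∃ C : ℝ, 0 < C ∧ ∀ β ν : ℕ → ℕ → (ι → ℤ) → ℝ,
    LocData D β ν → ∀ (z Z L : ℕ) (A₀ : ι → ℤ) (w : ℕ → ℝ), 3 ≤ z → z ≤ Z → Z ^ 24 ≤ L →
    (∀ p ∈ pr z Z, |w p| ≤ C₁ / (p : ℝ) ^ 2) →
    bsum L A₀ (fun a => (∑ p ∈ pr z Z, w p * (β p 1 a ^ 2 - mean p (fun a => β p 1 a ^ 2))) ^ 2) ≤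
      (L : ℝ) ^ Fintype.card ι * (C / z)

open Classical in
/-- **X12, the decomposition** (from X1).

Proof.  Let `1 ≤ m ≤ Z`.  If `m` is a prime `> z` then `m ∈ pr z Z`, `m ∉ Rset`, `smz z m = 1 ≤ X`, and
`dco m a = β m 1 a` by X1.  If all prime factors of `m` are `> z` and `m` is not prime then `m ∈ Rset`,
`m ∉ pr`, `smz z m = 1 ≤ X`.  Otherwise some prime factor is `≤ z`, `smz z m > 1` (a product over a nonempty set of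
powers of primes with positive exponents), `m ∉ pr`, `m ∉ Rset`; if `smz z m ≤ X` then `dco m a = 0` by X1. -/
def S_X12 : Prop :=
  ∀ (ι : Type) [Fintype ι] (D : ℕ) (β ν : ℕ → ℕ → (ι → ℤ) → ℝ), LocData D β ν →
    ∀ (z X Z : ℕ) (a : ι → ℤ), 3 ≤ z → 1 ≤ X → ∀ m ∈ Finset.Icc 1 Z,
    dco β ν z X m a = (if m ∈ pr z Z then β m 1 a else 0) + (if m ∈ Rset z Z then dco β ν z X m a else 0) +
      (if X < smz (z : ℝ) m then dco β ν z X m a else 0) ∧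
    (m ∈ pr z Z → dco β ν z X m a = β m 1 a)

end MP7ed9c3.Pz
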