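import Pool.Agent.Lib.MP_7ed9c3_nt.Pz.Def

/-!
# MP_7ed9c3_nt, part Pz.  Assembly statements
-/

set_option autoImplicit false

namespace MP7ed9c3.Pz

open NumberField IsDedekindDomain MP7ed9c3 MP7ed9c3.Tw MP7ed9c3.Tz

/-- **Z1, the quadratic form of the kernel.**

Proof.  Symmetry: `(x conj y).re = (y conj x).re`.  Expand `‖∑ x_m xf m r‖² = ∑_l ∑_m x_l x_m (xf l r conj (xf m r)).re`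
(`Complex.mul_conj`, `normSq`, `x` real) and interchange the finite sums. -/
def S_Quad : Prop :=
  ∀ (σ₂ h₂ μ t₀ : ℝ) (R Z : ℕ),
    (∀ l m : ℕ, Kf σ₂ h₂ μ t₀ R l m = Kf σ₂ h₂ μ t₀ R m l) ∧
    ∀ x : ℕ → ℝ, ∑ l ∈ Finset.Icc 1 Z, ∑ m ∈ Finset.Icc 1 Z, x l * x m * Kf σ₂ h₂ μ t₀ R l m =
      √μ * Real.exp (-(2 * μ * Real.sinh (a1 σ₂ h₂))) * ∑ r ∈ Finset.range (R + 1),
        Real.exp (2 * r) * ‖∑ m ∈ Finset.Icc 1 Z, (x m : ℂ) * xf σ₂ h₂ μ t₀ m r‖ ^ 2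

/-- The second half of `S_Local`. -/
def LocProp (K : Type) [Field K] [NumberField K] (β : ℕ → ℕ → (Ix K ⊕ Ix K → ℤ) → ℝ) : Prop :=
  ∀ η : ℝ, 0 < η → ∃ C : ℝ, 0 < C ∧ ∀ (Y : ℝ) (a : Ix K ⊕ Ix K → ℤ)
      (M : HeightOneSpectrum (𝓞 K) → WeierstrassCurve (𝓞 K)), 1 ≤ Y →
      House (pt (fun i => a (Sum.inl i))) Y → House (pt (fun i => a (Sum.inr i))) Y →
      4 * pt (fun i => a (Sum.inl i)) ^ 3 + 27 * pt (fun i => a (Sum.inr i)) ^ 2 ≠ 0 →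
      (∀ v, IsMinAt (crv (pt (fun i => a (Sum.inl i))) (pt (fun i => a (Sum.inr i)))) v (M v)) →
      ∃ Ψ : ℂ → ℂ, DifferentiableOn ℂ Ψ {s : ℂ | 1 / 2 < s.re} ∧
        (∀ s : ℂ, 9 / 10 ≤ s.re → ‖Ψ s‖ ≤ C * Y ^ η) ∧
        ∀ s : ℂ, s.re = 3 → (∏' v : HeightOneSpectrum (𝓞 K), (locDen (M v) v s)⁻¹) * Ψ s =
          ∑' m : ℕ, (mulf β (m + 1) a : ℂ) * ((m + 1 : ℕ) : ℂ) ^ (-s)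

/-- **Z2, curves with few `w`-points have a small quadratic form** (from Z1 `S_Quad`, `S_FewPoints`,
`S_Moll`, `S_Right`, `S_K2`).

Proof.  `σ₂ = (σ₁+1)/2`, `h₂ = h/2` (`19/20 ≤ σ₂ < 1`, `h₂ ≤ 1/2`), `s₁ = sinh (a1 σ₂ h₂) > 0`, `lam = log Y`,
`lamZ = log Z`, `Z = ⌊Y^(1/24)⌋`, so `lam/48 ≤ lamZ ≤ lam/24` for large `Y`.  Let `κ = m₀ s₁/1000 > 0`,
`c₃ = κ`, `η = κ`.  `S_FewPoints` for `σ₁ h C₀ B w` (`B` from `S_Right`) and `c₃` gives `ε, lam₀`; let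
`c = ε`.  Constants `C_Ψ` from `LocProp` for `η`, `C_M` from `S_Moll` (`ι = Ix K ⊕ Ix K`, `D`), `C` from `S_K2` for
`σ₁ σ₂ h h₂` and `C₀ := C_M`.  Given `F`: on `box σ₁ t₀ h`: `‖F‖ ≤ Y^C₀ = exp(C₀ lam)`; for `3 ≤ Re s`
`F s = ∏' ...`, so `‖F s - 1‖ ≤ B 2^(-Re s)`; so `‖F s‖ ≤ exp(c₃ lam)` on `Q : σ₂ ≤ Re s ≤ 3, |Im s - t₀| ≤ h₂`.
`Ψ` from `LocProp` (for `Y, a, M`), `Mo` from `S_Moll` (for `z, X = ⌈Z^η⌉₊, a`).  `f = F Ψ Mo` is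
differentiable on the box (`σ₁ ≥ 9/10 > 1/2`), `‖f‖ ≤ exp(c₃ lam) C_Ψ Y^η C_M X =: B_f` on `Q`; on `Re s = 3` (`3 > 3/2`,
the point is in the box because `h₂ < h`): `f(s) = ∑' dco ... (m+1) (m+1)^(-s)`.  `d m = dco β ν z X m a`,
`|d m| ≤ C_M m^(3/5)`.  `S_K2`: `‖∑_{m ≤ Z} d m xf m r‖ ≤ C (B_f + 1)` for all `r`.  Z1: the quadratic form is at
most `√μ exp(-2 μ s₁) (R+1) exp(2R) C² (B_f+1)² ≤ √μ (R+1) exp(-μ s₁) C² (B_f+1)²` (`2R ≤ μ s₁`).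
`X ≤ Z^η + 1 ≤ 2 Z^κ`, so `B_f + 1 ≤ C' exp(3 κ lam) ≤ C' exp(m₀ s₁ lamZ/6)` (`lam ≤ 48 lamZ`: `3·48/1000 ≤ 1/6`), and
`μ s₁ ≥ m₀ s₁ lamZ`, `μ ≤ lamZ / sinh(..) ≤ lamZ` (`sinh(π(3-σ₂)/(2h₂)) ≥ 1`), `R + 1 ≤ μ s₁ + 1`; so the form is at
most `C'' lamZ^2 exp(-m₀ s₁ lamZ (1 - 1/3)) ≤ lamZ^(-1/10)` for large `Y`. -/
def S_Small : Prop :=
  ∀ (K : Type) [Field K] [NumberField K] (σ₁ h C₀ : ℝ) (w : ℂ), 9 / 10 ≤ σ₁ → σ₁ < 1 → 0 < h →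
    h ≤ 1 → 0 < C₀ → w ≠ 1 →
    ∀ (D : ℕ) (β ν : ℕ → ℕ → (Ix K ⊕ Ix K → ℤ) → ℝ), LocData D β ν → LocProp K β →
    ∀ m₀ : ℝ, 0 < m₀ → ∃ η c Y₀ : ℝ, 0 < η ∧ 0 < c ∧
    ∀ (Y t₀ μ : ℝ) (R z : ℕ) (a : Ix K ⊕ Ix K → ℤ)
      (M : HeightOneSpectrum (𝓞 K) → WeierstrassCurve (𝓞 K)) (F : ℂ → ℂ), Y₀ ≤ Y →
      m₀ * Real.log ⌊Y ^ (1 / 24 : ℝ)⌋₊ ≤ μ →
      μ * Real.sinh (Real.pi * (3 - (σ₁ + 1) / 2) / (2 * (h / 2))) ≤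
        Real.log ⌊Y ^ (1 / 24 : ℝ)⌋₊ →
      (R : ℝ) ≤ μ * Real.sinh (a1 ((σ₁ + 1) / 2) (h / 2)) / 2 →
      House (pt (fun i => a (Sum.inl i))) Y → House (pt (fun i => a (Sum.inr i))) Y →
      4 * pt (fun i => a (Sum.inl i)) ^ 3 + 27 * pt (fun i => a (Sum.inr i)) ^ 2 ≠ 0 →
      (∀ v, IsMinAt (crv (pt (fun i => a (Sum.inl i))) (pt (fun i => a (Sum.inr i)))) v (M v)) →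
      DifferentiableOn ℂ F (box σ₁ t₀ h) → (∀ s ∈ box σ₁ t₀ h, ‖F s‖ ≤ Y ^ C₀) →
      (∀ s ∈ box σ₁ t₀ h, 3 / 2 < s.re →
        F s = ∏' v : HeightOneSpectrum (𝓞 K), (locDen (M v) v s)⁻¹) →
      (∀ T : Finset ℂ, (∀ ρ ∈ T, ρ ∈ box σ₁ t₀ h ∧ F ρ = w) →
        ∑ ρ ∈ T, (analyticOrderNatAt (fun s => F s - w) ρ : ℝ) < c * Real.log Y) →
      ∑ l ∈ Finset.Icc 1 ⌊Y ^ (1 / 24 : ℝ)⌋₊, ∑ m ∈ Finset.Icc 1 ⌊Y ^ (1 / 24 : ℝ)⌋₊,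
        dco β ν z ⌈(⌊Y ^ (1 / 24 : ℝ)⌋₊ : ℝ) ^ η⌉₊ l a * dco β ν z ⌈(⌊Y ^ (1 / 24 : ℝ)⌋₊ : ℝ) ^ η⌉₊ m a *
          Kf ((σ₁ + 1) / 2) (h / 2) μ t₀ R l m ≤
        Real.log ⌊Y ^ (1 / 24 : ℝ)⌋₊ ^ (-(1 / 10 : ℝ))

/-- **Z3, the choice of the window** (from `S_K1`, `S_Win`, `S_TrMean` (Tz), `S_Prim` (Tz)).

Proof.  `x = π/(2 h₂) ≥ π`, `a = a1 σ₂ h₂ = x (1 - σ₂) > 0`, `s₃ = sinh(x (3 - σ₂))`; `k* = kst σ₂ h₂ μ = μ x cosh a`.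
`b = x cosh a/(2 s₃)`; `b ≤ 1` because `s₃ ≥ sinh(2x) ... ≥ x cosh a` (`sinh(y + 2x) ≥ sinh(2x) cosh y ≥ x cosh y`,
`y = a`, `x(3-σ₂) = a + 2x`).  `θ = 1 - min (tanh a) (1/cosh a)/(4x) ∈ (0,1)`.  `α, c, lam₀` from `S_Win` for
`θ, b`.  `m₀ = α/(x cosh a)`; `m₁ = m₀`, `m₂ = 1` in `S_K1`, constants `C₁, c₁`.  `c₂ = c₁ c/2`.
Given `e` and large `Z`, `lam = log Z`: `u` from `S_Win` (`α lam ≤ u ≤ b lam`), `μ = (u + lam^(2/3))/(x cosh a)`, so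
`k* = u + lam^(2/3)`, `μ ≥ m₀ lam`, `μ s₃ ≤ (b lam + lam^(2/3)) s₃/(x cosh a) = lam/2 + O(lam^(2/3)) ≤ lam`, so also
`μ ≤ lam` (`s₃ ≥ 1`).  `R = ⌈(1-θ) u + 2 lam^(2/3)⌉₊`: `R ≤ (1-θ) u + 2 lam^(2/3) + 1`, and
`(1-θ) u ≤ (1-θ) μ x cosh a ≤ μ min (sinh a) 1/4`, so `R ≤ μ sinh a/2` and `R ≤ μ` for large `lam` (`μ ≥ m₀ lam`).
`S_K1` gives the bounds (`l, m ≤ Z`: `log l ≤ lam`).  For a prime `p ∈ pr 3 ⌊exp u⌋` with `θ u ≤ log p`: `log p ≤ u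
= k* - lam^(2/3)` and `log p + R ≥ θ u + (1-θ) u + 2 lam^(2/3) = k* + lam^(2/3)`, so `Kf p p ≥ c₁/p²`; `p ≤ exp u ≤ Z`
(`u ≤ b lam ≤ lam`) and `p > zf e Z` because `log p ≥ θ α lam > lam^(1-e)` for large `lam`.  By `S_TrMean`
`mean p ((β p 1)²) = ∑_{v,w ∈ D1 K p} mean p (trp v trp w) = |D1 K p| (p - 1) ≥ |D1 K p| p/2`.  The other terms of
the sum over `pr (zf e Z) Z` are `≥ 0` (`mean` of a square is `≥ 0`, `Kf p p ≥ 0` by the definition: it is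
`√μ exp(..) ∑ exp(2r) ‖xf‖²`).  So the sum is at least `∑ |D1 K p| (p/2) c₁/p² ≥ c₁ c/2`. -/
def S_Wk : Prop :=
  ∀ (K : Type) [Field K] [NumberField K] (σ₂ h₂ : ℝ), 1 / 2 < σ₂ → σ₂ < 1 → 0 < h₂ → h₂ ≤ 1 / 2 →
    ∀ β : ℕ → ℕ → (Ix K ⊕ Ix K → ℤ) → ℝ,
    (∀ p : ℕ, p.Prime → 3 < p → ∀ a, β p 1 a = ∑ v ∈ D1 K p, trp v a) →
    ∃ C₁ c₂ m₀ : ℝ, 0 < C₁ ∧ 0 < c₂ ∧ 0 < m₀ ∧ ∀ e : ℝ, 0 < e → e < 1 / 3 → ∃ Z₀ : ℕ,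
    ∀ Z : ℕ, Z₀ ≤ Z → ∃ (μ : ℝ) (R : ℕ), m₀ * Real.log Z ≤ μ ∧
      μ * Real.sinh (Real.pi * (3 - σ₂) / (2 * h₂)) ≤ Real.log Z ∧
      (R : ℝ) ≤ μ * Real.sinh (a1 σ₂ h₂) / 2 ∧ ∀ t₀ : ℝ,
      (∀ l ∈ Finset.Icc 1 Z, ∀ m ∈ Finset.Icc 1 Z, |Kf σ₂ h₂ μ t₀ R l m| ≤ C₁ / ((l : ℝ) * m) ∧
        (Real.log Z ^ (2 / 3 : ℝ) < |Real.log l - Real.log m| →
          |Kf σ₂ h₂ μ t₀ R l m| ≤ Real.exp (-(Real.log Z ^ (1 / 4 : ℝ))) / ((l : ℝ) * m))) ∧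
      c₂ ≤ ∑ p ∈ pr (zf e Z) Z, mean p (fun a => β p 1 a ^ 2) * Kf σ₂ h₂ μ t₀ R p p

end MP7ed9c3.Pz
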