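import Mathlib

/-!
# MP_7ed9c3_nt, part Pz, WinCore: windows of a Dirichlet series with a logarithmic singularity

Elementary Tauberian lemma: if `∑ a_i q_i^(-x) = log(1/x) + O(1)` for `0 < x ≤ 1`, `a_i ≥ 0`, then for every
`M` and `be > 0` there is `al > 0` such that for all large `L` the sum of the `a_i` over
`al L < log q_i ≤ be L` is at least `M`.
-/

set_option autoImplicit false

namespace MP7ed9c3.Pz

open Filter Topology

namespace WinCoreM

theorem small_ineq {t : ℝ} (h0 : 0 ≤ t) (h1 : t ≤ 1) :
    t ≤ 2 * Real.exp 1 * (Real.exp (-t) - Real.exp (-(2 * t))) := by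
  have h2 : Real.exp (-(2 * t)) = Real.exp (-t) * Real.exp (-t) := by
    rw [← Real.exp_add]
    congr 1
    ring
  have h3 : Real.exp (-1) ≤ Real.exp (-t) := Real.exp_le_exp.2 (by linarith)
  have h4 : Real.exp (-t) ≤ 1 - t / 2 := by
    have h5 : 1 + t + t ^ 2 / 2 ≤ Real.exp t := Real.quadratic_le_exp_of_nonneg h0
    have h6 : Real.exp (-t) = (Real.exp t)⁻¹ := Real.exp_neg t
    rw [h6, inv_le_comm₀ (Real.exp_pos t) (by linarith)]
    refine le_trans ?_ h5
    rw [inv_le_iff_one_le_mul₀ (by linarith)]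
    nlinarith [mul_nonneg h0 (sub_nonneg.2 h1), mul_nonneg (mul_nonneg h0 h0) (sub_nonneg.2 h1)]
  have h7 : Real.exp 1 * Real.exp (-1) = 1 := by
    rw [← Real.exp_add]
    simp
  have h8 : t / 2 ≤ 1 - Real.exp (-t) := by linarith
  have h9 : Real.exp (-1) * (t / 2) ≤ Real.exp (-t) * (1 - Real.exp (-t)) :=
    mul_le_mul h3 h8 (by linarith) (Real.exp_pos _).le
  have h10 : 0 < Real.exp 1 := Real.exp_pos 1
  have h11 : Real.exp 1 * (Real.exp (-1) * (t / 2)) ≤
      Real.exp 1 * (Real.exp (-t) * (1 - Real.exp (-t))) := mul_le_mul_of_nonneg_left h9 h10.le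
  have h12 : Real.exp 1 * (Real.exp (-1) * (t / 2)) = t / 2 := by
    rw [← mul_assoc, h7, one_mul]
  rw [h12] at h11
  rw [h2]
  nlinarith

theorem diff_le {s u l : ℝ} (hs : 0 ≤ s) (hl : 0 ≤ l) :
    Real.exp (-(s * l)) - Real.exp (-(u * l)) ≤ u * l := by
  have h1 : Real.exp (-(s * l)) ≤ 1 := Real.exp_le_one_iff.2 (by nlinarith [mul_nonneg hs hl])
  have h2 : 1 - u * l ≤ Real.exp (-(u * l)) := by
    have := Real.add_one_le_exp (-(u * l))
    linarith
  linarith

end WinCoreM

open WinCoreM in
/-- the window lemma, with `q = exp l` -/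
theorem winCore {ι : Type} (a l : ι → ℝ) (hl : ∀ i, 0 ≤ l i) (ha : ∀ i, 0 ≤ a i)
    (hs : ∀ x : ℝ, 0 < x → Summable fun i => a i * Real.exp (-(x * l i))) (A : ℝ)
    (hA : ∀ x : ℝ, 0 < x → x ≤ 1 → |∑' i, a i * Real.exp (-(x * l i)) - Real.log (1 / x)| ≤ A)
    (M be : ℝ) (hM : 0 ≤ M) (hbe : 0 < be) :
    ∃ al : ℝ, 0 < al ∧ al < be ∧ ∃ L₀ : ℝ, ∀ L : ℝ, L₀ ≤ L → ∀ S : Finset ι,
      (∀ i, a i ≠ 0 → al * L < l i → l i ≤ be * L → i ∈ S) → M ≤ ∑ i ∈ S, a i := by
  classical
  set f : ℝ → ℝ := fun x => ∑' i, a i * Real.exp (-(x * l i)) with hf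
  have hA0 : 0 ≤ A := (abs_nonneg _).trans (hA 1 one_pos le_rfl)
  -- differences
  have hdl : ∀ x u : ℝ, 0 < x → x ≤ u → u ≤ 1 → f x - f u ≤ Real.log (u / x) + 2 * A ∧
      Real.log (u / x) - 2 * A ≤ f x - f u := by
    intro x u hx hxu hu
    have hu0 : 0 < u := lt_of_lt_of_le hx hxu
    have h1 := abs_le.1 (hA x hx (hxu.trans hu))
    have h2 := abs_le.1 (hA u hu0 hu)
    have h3 : Real.log (u / x) = Real.log (1 / x) - Real.log (1 / u) := by
      rw [Real.log_div hu0.ne' hx.ne', Real.log_div one_ne_zero hx.ne',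
        Real.log_div one_ne_zero hu0.ne']
      ring
    simp only [hf]
    constructor <;> linarith [h1.1, h1.2, h2.1, h2.2]
  -- the constants
  set Q : ℝ := Real.log 3 + 2 * A + 1 with hQ
  have hlog3 : 0 ≤ Real.log 3 := Real.log_nonneg (by norm_num)
  have hlog2 : 0 ≤ Real.log 2 := Real.log_nonneg (by norm_num)
  have hQ1 : 1 ≤ Q := by rw [hQ]; linarith
  set k : ℝ := 1 + Real.log (2 * Q) with hk
  have hk1 : 1 ≤ k := by
    have : 0 ≤ Real.log (2 * Q) := Real.log_nonneg (by linarith)
    linarith
  have hkQ : 2 * Real.exp (-k) * Q ≤ 1 := by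
    have h1 : Real.exp (-k) ≤ Real.exp (-Real.log (2 * Q)) := Real.exp_le_exp.2 (by linarith)
    rw [Real.exp_neg (Real.log (2 * Q)), Real.exp_log (by linarith)] at h1
    calc 2 * Real.exp (-k) * Q ≤ 2 * (2 * Q)⁻¹ * Q := by
          apply mul_le_mul_of_nonneg_right _ (by linarith)
          linarith
      _ = 1 := by field_simp
  set E : ℝ := Real.exp (M + 2 + 2 * A) with hE
  have hE1 : 1 ≤ E := Real.one_le_exp (by linarith)
  set D : ℝ := 2 * Real.exp 1 * (2 * k / be * E) * (Real.log 2 + 2 * A + 1) with hD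
  have hD0 : 0 < D := by positivity
  set al : ℝ := min (be / 2) (1 / D) with hal
  have hal0 : 0 < al := lt_min (by positivity) (by positivity)
  have halbe : al < be := lt_of_le_of_lt (min_le_left _ _) (by linarith)
  have halD : D * al ≤ 1 := by
    have h1 : al ≤ 1 / D := min_le_right _ _
    calc D * al ≤ D * (1 / D) := mul_le_mul_of_nonneg_left h1 hD0.le
      _ = 1 := by field_simp
  refine ⟨al, hal0, halbe, max (2 / al) (max (2 * k / be * E) (3 * k / be)) + 1, fun L hL S hS => ?_⟩
  have hL1 : 2 / al ≤ L := le_trans (le_max_left _ _) (by linarith)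
  have hL2 : 2 * k / be * E ≤ L :=
    le_trans ((le_max_left _ _).trans (le_max_right _ _)) (by linarith)
  have hL3 : 3 * k / be ≤ L :=
    le_trans ((le_max_right _ _).trans (le_max_right _ _)) (by linarith)
  have hL0 : 0 < L := lt_of_lt_of_le (by positivity) hL1
  set y : ℝ := k / (be * L) with hy
  have hy0 : 0 < y := by positivity
  have hybe : y * (be * L) = k := by rw [hy]; field_simp
  set X : ℝ := 1 / (al * L) with hX
  have hX0 : 0 < X := by positivity
  have hXal : X * (al * L) = 1 := by rw [hX]; field_simp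
  have hx2 : 2 * y * E ≤ 1 := by
    have h1 : 2 * y * E = (2 * k / be * E) / L := by rw [hy]; field_simp
    rw [h1]
    exact (div_le_one hL0).2 hL2
  have h3y : 3 * y ≤ 1 := by
    have h1 : 3 * y = (3 * k / be) / L := by rw [hy]; field_simp
    rw [h1]
    exact (div_le_one hL0).2 hL3
  have h2X : 2 * X ≤ 1 := by
    have h1 : 2 * X = (2 / al) / L := by rw [hX]; field_simp
    rw [h1]
    exact (div_le_one hL0).2 hL1
  have hXE : 2 * Real.exp 1 * (2 * y * E * (al * L)) * (Real.log 2 + 2 * A + 1) ≤ 1 := by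
    have h1 : 2 * Real.exp 1 * (2 * y * E * (al * L)) * (Real.log 2 + 2 * A + 1) = D * al := by
      rw [hD, hy]
      field_simp
    rw [h1]
    exact halD
  set c₁ : ℝ := 2 * Real.exp 1 * (2 * y * E * (al * L)) with hc₁
  have hc₁0 : 0 ≤ c₁ := by positivity
  set c₂ : ℝ := 2 * Real.exp (-k) with hc₂
  have hc₂0 : 0 ≤ c₂ := by positivity
  have hyE : 2 * y ≤ 2 * y * E := le_mul_of_one_le_right (by positivity) hE1
  -- the pointwise bound
  have hpt : ∀ i, a i * Real.exp (-(2 * y * l i)) - a i * Real.exp (-(2 * y * E * l i)) ≤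
      (if i ∈ S then a i else 0) +
        (c₁ * (a i * Real.exp (-(X * l i)) - a i * Real.exp (-(2 * X * l i))) +
          c₂ * (a i * Real.exp (-(y * l i)) - a i * Real.exp (-(3 * y * l i)))) := by
    intro i
    have hli := hl i
    have hai := ha i
    have hi0 : (0 : ℝ) ≤ if i ∈ S then a i else 0 := by
      split_ifs
      · exact hai
      · exact le_rfl
    have h1 : 0 ≤ Real.exp (-(X * l i)) - Real.exp (-(2 * X * l i)) := by
      rw [sub_nonneg, Real.exp_le_exp]
      nlinarith [mul_nonneg hX0.le hli]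
    have h2 : 0 ≤ Real.exp (-(y * l i)) - Real.exp (-(3 * y * l i)) := by
      rw [sub_nonneg, Real.exp_le_exp]
      nlinarith [mul_nonneg hy0.le hli]
    have h3 : 0 ≤ c₁ * (a i * Real.exp (-(X * l i)) - a i * Real.exp (-(2 * X * l i))) := by
      rw [← mul_sub]
      exact mul_nonneg hc₁0 (mul_nonneg hai h1)
    have h4 : 0 ≤ c₂ * (a i * Real.exp (-(y * l i)) - a i * Real.exp (-(3 * y * l i))) := by
      rw [← mul_sub]
      exact mul_nonneg hc₂0 (mul_nonneg hai h2)
    rw [← mul_sub]
    rcases le_or_gt (l i) (al * L) with h5 | h5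
    · -- small
      have h6 := diff_le (s := 2 * y) (u := 2 * y * E) (l := l i) (by positivity) hli
      have h7 : X * l i ≤ 1 := by
        calc X * l i ≤ X * (al * L) := mul_le_mul_of_nonneg_left h5 hX0.le
          _ = 1 := hXal
      have h8 := small_ineq (mul_nonneg hX0.le hli) h7
      have h9 : 2 * y * E * l i = 2 * y * E * (al * L) * (X * l i) := by
        calc 2 * y * E * l i = 2 * y * E * l i * (X * (al * L)) := by rw [hXal, mul_one]
          _ = _ := by ring
      have h10 : Real.exp (-(2 * y * l i)) - Real.exp (-(2 * y * E * l i)) ≤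
          c₁ * (Real.exp (-(X * l i)) - Real.exp (-(2 * X * l i))) := by
        refine h6.trans ?_
        rw [h9, hc₁]
        have h11 : 0 ≤ 2 * y * E * (al * L) := by positivity
        calc 2 * y * E * (al * L) * (X * l i) ≤ 2 * y * E * (al * L) *
              (2 * Real.exp 1 * (Real.exp (-(X * l i)) - Real.exp (-(2 * (X * l i))))) :=
              mul_le_mul_of_nonneg_left h8 h11
          _ = _ := by
            have h12 : 2 * (X * l i) = 2 * X * l i := by ring
            rw [h12]
            ring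
      have h11 := mul_le_mul_of_nonneg_left h10 hai
      have h12 : a i * (c₁ * (Real.exp (-(X * l i)) - Real.exp (-(2 * X * l i)))) =
          c₁ * (a i * Real.exp (-(X * l i)) - a i * Real.exp (-(2 * X * l i))) := by ring
      rw [h12] at h11
      linarith
    · rcases le_or_gt (l i) (be * L) with h6 | h6
      · -- window
        by_cases ha0 : a i = 0
        · rw [ha0, zero_mul]
          rw [ha0] at hi0 h3 h4
          linarith
        rw [if_pos (hS i ha0 h5 h6)]
        have h7 : Real.exp (-(2 * y * l i)) - Real.exp (-(2 * y * E * l i)) ≤ 1 := by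
          have h8 : Real.exp (-(2 * y * l i)) ≤ 1 :=
            Real.exp_le_one_iff.2 (by nlinarith [mul_nonneg hy0.le hli])
          have h9 := Real.exp_pos (-(2 * y * E * l i))
          linarith
        have h8 := mul_le_mul_of_nonneg_left h7 hai
        linarith
      · -- large
        have h7 : k ≤ y * l i := by
          rw [← hybe]
          exact mul_le_mul_of_nonneg_left h6.le hy0.le
        have h8 : Real.exp (-(2 * y * l i)) ≤
            c₂ * (Real.exp (-(y * l i)) - Real.exp (-(3 * y * l i))) := by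
          have e1 : Real.exp (-(2 * y * l i)) = Real.exp (-(y * l i)) * Real.exp (-(y * l i)) := by
            rw [← Real.exp_add]
            congr 1
            ring
          have e2 : Real.exp (-(3 * y * l i)) =
              Real.exp (-(y * l i)) * Real.exp (-(2 * y * l i)) := by
            rw [← Real.exp_add]
            congr 1
            ring
          have h9 : Real.exp (-(y * l i)) ≤ Real.exp (-k) := Real.exp_le_exp.2 (by linarith)
          have h10 : Real.exp (-(2 * y * l i)) ≤ 1 / 2 := by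
            have h11 : Real.exp (-(2 * y * l i)) ≤ Real.exp (-1) :=
              Real.exp_le_exp.2 (by nlinarith)
            have h12 : Real.exp (-1) ≤ 1 / 2 := by
              rw [Real.exp_neg, inv_le_comm₀ (Real.exp_pos 1) (by norm_num)]
              have := Real.add_one_le_exp (1 : ℝ)
              norm_num at this ⊢
              exact this
            exact h11.trans h12
          have hp := Real.exp_pos (-(y * l i))
          rw [e2, e1, hc₂]
          rw [e1] at h10
          have h13 : Real.exp (-(y * l i)) * Real.exp (-(y * l i)) ≤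
              Real.exp (-(y * l i)) * Real.exp (-k) := mul_le_mul_of_nonneg_left h9 hp.le
          have h14 : 0 < Real.exp (-k) := Real.exp_pos _
          nlinarith [mul_nonneg (mul_nonneg hp.le h14.le) (sub_nonneg.2 h10)]
        have h9 : Real.exp (-(2 * y * l i)) - Real.exp (-(2 * y * E * l i)) ≤
            c₂ * (Real.exp (-(y * l i)) - Real.exp (-(3 * y * l i))) := by
          have := Real.exp_pos (-(2 * y * E * l i))
          linarith
        have h10 := mul_le_mul_of_nonneg_left h9 hai
        have h11 : a i * (c₂ * (Real.exp (-(y * l i)) - Real.exp (-(3 * y * l i)))) =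
            c₂ * (a i * Real.exp (-(y * l i)) - a i * Real.exp (-(3 * y * l i))) := by ring
        rw [h11] at h10
        linarith
  -- summation
  have hsum : ∀ x u : ℝ, 0 < x → 0 < u → HasSum (fun i => a i * Real.exp (-(x * l i)) -
      a i * Real.exp (-(u * l i))) (f x - f u) := fun x u hx hu =>
    (hs x hx).hasSum.sub (hs u hu).hasSum
  have hSs : HasSum (fun i => if i ∈ S then a i else 0) (∑ i ∈ S, a i) := by
    have h3 : HasSum (fun i => if i ∈ S then a i else 0) (∑ i ∈ S, (if i ∈ S then a i else 0)) :=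
      hasSum_sum_of_ne_finset_zero (fun i hi => if_neg hi)
    have h4 : ∑ i ∈ S, (if i ∈ S then a i else 0) = ∑ i ∈ S, a i :=
      Finset.sum_congr rfl fun i hi => if_pos hi
    rwa [h4] at h3
  have hleft := hsum (2 * y) (2 * y * E) (by positivity) (by positivity)
  have hright := hSs.add (((hsum X (2 * X) hX0 (by positivity)).mul_left c₁).add
    ((hsum y (3 * y) hy0 (by positivity)).mul_left c₂))
  have hmain : f (2 * y) - f (2 * y * E) ≤ ∑ i ∈ S, a i +
      (c₁ * (f X - f (2 * X)) + c₂ * (f y - f (3 * y))) :=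
    hasSum_le hpt hleft hright
  have d1 := (hdl (2 * y) (2 * y * E) (by positivity) hyE hx2).2
  have d2 := (hdl X (2 * X) hX0 (by linarith) h2X).1
  have d3 := (hdl y (3 * y) hy0 (by linarith) h3y).1
  have e1 : 2 * y * E / (2 * y) = E := by field_simp
  have e2 : 2 * X / X = 2 := by field_simp
  have e3 : 3 * y / y = 3 := by field_simp
  rw [e1, hE, Real.log_exp] at d1
  rw [e2] at d2
  rw [e3] at d3
  have d4 : c₁ * (f X - f (2 * X)) ≤ 1 := by
    refine le_trans ?_ hXE
    exact mul_le_mul_of_nonneg_left (by linarith) hc₁0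
  have d5 : c₂ * (f y - f (3 * y)) ≤ 1 := by
    refine le_trans ?_ hkQ
    exact mul_le_mul_of_nonneg_left (by rw [hQ]; linarith) hc₂0
  linarith

end MP7ed9c3.Pz
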