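import Pool.Agent.Lib.MP_7ed9c3_nt.Pz.SpecMx

/-!
# MP_7ed9c3_nt, part Pz, module X12: the decomposition
-/

set_option autoImplicit false

namespace MP7ed9c3.Pz

open MP7ed9c3.Tz

private theorem X12_one {z m : ℕ} (h : ∀ p ∈ m.primeFactors, z < p) : smz (z : ℝ) m = 1 := by
  classical
  unfold smz
  refine Finset.prod_eq_one fun p hp => ?_
  exfalso
  have h1 := h p (Finset.mem_filter.1 hp).1
  have h2 : (p : ℝ) ≤ (z : ℝ) := (Finset.mem_filter.1 hp).2
  have h3 : p ≤ z := by exact_mod_cast h2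
  omega

private theorem X12_big {z m q : ℕ} (hm : m ≠ 0) (hq : q ∈ m.primeFactors) (hz : q ≤ z) :
    1 < smz (z : ℝ) m := by
  classical
  unfold smz
  have hpos : ∀ p ∈ m.primeFactors.filter (fun p : ℕ => (p : ℝ) ≤ (z : ℝ)), 1 ≤ p ^ m.factorization p :=
    fun p hp => Nat.one_le_pow _ _ (Nat.prime_of_mem_primeFactors (Finset.mem_filter.1 hp).1).pos
  have hmem : q ∈ m.primeFactors.filter (fun p : ℕ => (p : ℝ) ≤ (z : ℝ)) :=
    Finset.mem_filter.2 ⟨hq, by exact_mod_cast hz⟩
  have h1 : q ^ m.factorization q ≤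
      ∏ p ∈ m.primeFactors.filter (fun p : ℕ => (p : ℝ) ≤ (z : ℝ)), p ^ m.factorization p :=
    Finset.single_le_prod' hpos hmem
  have h2 : 1 < q ^ m.factorization q := by
    refine Nat.one_lt_pow ?_ (Nat.prime_of_mem_primeFactors hq).one_lt
    have h3 := (Nat.support_factorization m).symm ▸ hq
    exact Finsupp.mem_support_iff.1 h3
  exact lt_of_lt_of_le h2 h1

theorem tX12 (h1 : S_X1) : S_X12 := by
  classical
  intro ι _ D β ν hL z X Z a hz hX m hm
  have hm1 := (Finset.mem_Icc.1 hm).1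
  have hm2 := (Finset.mem_Icc.1 hm).2
  obtain ⟨hA, hB⟩ := h1 ι D β ν hL z X a hX
  have hP : m ∈ pr z Z → dco β ν z X m a = β m 1 a := by
    intro h
    unfold pr at h
    have h2 := Finset.mem_filter.1 h
    have h3 := Finset.mem_Ioc.1 h2.1
    exact hA m h2.2 (by omega) h3.1
  refine ⟨?_, hP⟩
  by_cases hr : ∀ p ∈ m.primeFactors, z < p
  · have hs : ¬ X < smz (z : ℝ) m := by
      rw [X12_one hr]
      omega
    rw [if_neg hs, add_zero]
    by_cases hp : m.Prime
    · have h2 : m ∈ pr z Z := by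
        unfold pr
        refine Finset.mem_filter.2 ⟨Finset.mem_Ioc.2 ⟨?_, hm2⟩, hp⟩
        exact hr m (Nat.mem_primeFactors.2 ⟨hp, dvd_rfl, hp.ne_zero⟩)
      have h3 : m ∉ Rset z Z := by
        unfold Rset
        intro h
        exact (Finset.mem_filter.1 h).2.2 hp
      rw [if_pos h2, if_neg h3, add_zero, hP h2]
    · have h2 : m ∉ pr z Z := by
        unfold pr
        intro h
        exact hp (Finset.mem_filter.1 h).2
      have h3 : m ∈ Rset z Z := by
        unfold Rset
        exact Finset.mem_filter.2 ⟨hm, hr, hp⟩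
      rw [if_neg h2, if_pos h3, zero_add]
  · push Not at hr
    obtain ⟨q, hq, hqz⟩ := hr
    have hs1 := X12_big (by omega : m ≠ 0) hq hqz
    have h2 : m ∉ pr z Z := by
      unfold pr
      intro h
      have g1 := Finset.mem_filter.1 h
      have g2 := Finset.mem_Ioc.1 g1.1
      rw [Nat.Prime.primeFactors g1.2, Finset.mem_singleton] at hq
      omega
    have h3 : m ∉ Rset z Z := by
      unfold Rset
      intro h
      have g1 := (Finset.mem_filter.1 h).2.1 q hq
      omega
    rw [if_neg h2, if_neg h3, zero_add, zero_add]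
    by_cases hx : X < smz (z : ℝ) m
    · rw [if_pos hx]
    · rw [if_neg hx]
      exact hB m hm1 hs1 (not_lt.1 hx)

end MP7ed9c3.Pz
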