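import Pool.Agent.Lib.MP_7ed9c3_nt.Pz.SpecMx
import Pool.Agent.Lib.MP_7ed9c3_nt.Pz.Moll

/-!
# MP_7ed9c3_nt, part Pz, module X2: two and four point bounds
-/

set_option autoImplicit false

namespace MP7ed9c3.Pz

open MP7ed9c3.Tz

namespace X2M

variable {ι : Type}

/-- a multiplicative function as a product over a larger set of primes -/
private theorem X2_mulf (u : ℕ → ℕ → (ι → ℤ) → ℝ) (m : ℕ) (T : Finset ℕ) (a : ι → ℤ)
    (hc : m.Coprime 6) (hT : m.primeFactors ⊆ T) (h0 : ∀ p ∈ T, u p 0 a = 1) :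
    mulf u m a = ∏ p ∈ T, u p (m.factorization p) a := by
  unfold mulf
  rw [if_pos hc]
  refine Finset.prod_subset hT fun p hp hpm => ?_
  have : m.factorization p = 0 := by
    rw [← Finsupp.notMem_support_iff, Nat.support_factorization]
    exact hpm
  rw [this, h0 p hp]

/-- primes dividing a number prime to 6 -/
private theorem X2_gt {m p : ℕ} (hc : m.Coprime 6) (hp : p.Prime) (hd : p ∣ m) : 3 < p := by
  by_contra hcon
  have h1 : p.Coprime 6 := Nat.Coprime.coprime_dvd_left hd hc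
  have h2 := hp.two_le
  have h3 : p = 2 ∨ p = 3 := by omega
  rcases h3 with rfl | rfl
  · exact absurd h1 (by decide)
  · exact absurd h1 (by decide)

private theorem X2_tau {M : ℕ} (hM : M ≠ 0) (m : ℕ) (hm : m ∣ M) (D : ℕ) :
    ∏ p ∈ M.primeFactors, (((m.factorization p : ℕ) : ℝ) + 1) ^ D * √(p : ℝ) ^ m.factorization p ≤
      tc D M * √(m : ℝ) := by
  have hm0 : m ≠ 0 := fun h => hM (by rw [h] at hm; exact Nat.eq_zero_of_zero_dvd hm)
  have hsub : m.primeFactors ⊆ M.primeFactors := Nat.primeFactors_mono hm hM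
  rw [Finset.prod_mul_distrib]
  have e1 : ∏ p ∈ M.primeFactors, √(p : ℝ) ^ m.factorization p = √(m : ℝ) := by
    have h1 : ∏ p ∈ M.primeFactors, √(p : ℝ) ^ m.factorization p =
        ∏ p ∈ m.primeFactors, √(p : ℝ) ^ m.factorization p := by
      symm
      refine Finset.prod_subset hsub fun p _ hpm => ?_
      have : m.factorization p = 0 := by
        rw [← Finsupp.notMem_support_iff, Nat.support_factorization]
        exact hpm
      rw [this, pow_zero]
    rw [h1]
    have h2 : (m : ℝ) = ∏ p ∈ m.primeFactors, (p : ℝ) ^ m.factorization p := by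
      conv_lhs => rw [← Nat.prod_factorization_pow_eq_self hm0]
      rw [Finsupp.prod, Nat.support_factorization]
      push_cast
      rfl
    conv_rhs => rw [h2]
    rw [Real.sqrt_prod _ (fun p _ => by positivity)]
    refine Finset.prod_congr rfl fun p _ => ?_
    rw [← Real.sqrt_sq (by positivity : (0 : ℝ) ≤ √(p : ℝ) ^ m.factorization p), ← pow_mul, mul_comm _ 2, pow_mul,
      Real.sq_sqrt (by positivity)]
  have e2 : ∏ p ∈ M.primeFactors, (((m.factorization p : ℕ) : ℝ) + 1) ^ D ≤ tc D M := by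
    unfold tc
    rw [Nat.card_divisors hM, Finset.prod_pow]
    push_cast
    refine pow_le_pow_left₀ (Finset.prod_nonneg fun p _ => by positivity) ?_ D
    refine Finset.prod_le_prod (fun p _ => by positivity) fun p _ => ?_
    have : m.factorization p ≤ M.factorization p := (Nat.factorization_le_iff_dvd hm0 hM).2 hm p
    have h2 : ((m.factorization p : ℕ) : ℝ) ≤ ((M.factorization p : ℕ) : ℝ) := by exact_mod_cast this
    linarith
  rw [e1]
  exact mul_le_mul_of_nonneg_right e2 (Real.sqrt_nonneg _)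


private theorem X2_per {κ : Type} [Fintype κ] (p : ℕ) (g : κ → (ι → ℤ) → ℝ) (h : ∀ i, Per p (g i)) :
    Per p (fun a => ∏ i, g i a) := by
  intro a b
  exact Finset.prod_congr rfl fun i _ => h i a b

private theorem X2_core [Fintype ι] {κ : Type} [Fintype κ] (hE : S_Equi) (D : ℕ)
    (β ν : ℕ → ℕ → (ι → ℤ) → ℝ) (hL : LocData D β ν) (u : κ → ℕ → ℕ → (ι → ℤ) → ℝ)
    (hu : ∀ i, u i = β ∨ u i = ν) (m : κ → ℕ) (hm : ∀ i, m i ≠ 0) (L : ℕ) (A₀ : ι → ℤ)
    (hc : ∀ i, (m i).Coprime 6) (hML : ∏ i, m i ≤ L) (b : ℝ) (hb0 : 0 ≤ b) (hb : Pw (∏ i, m i) → b = 1) :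
    |bsum L A₀ (fun a => ∏ i, mulf (u i) (m i) a)| * L ≤
      (L : ℝ) ^ Fintype.card ι * (√((∏ i, m i : ℕ) : ℝ) * tc (D * Fintype.card κ) (∏ i, m i)) *
        (b * L + 2 * Fintype.card ι * (∏ i, m i : ℕ)) := by
  classical
  set M := ∏ i, m i with hMdef
  have hM : M ≠ 0 := Finset.prod_ne_zero_iff.2 fun i _ => hm i
  have hdvd : ∀ i, m i ∣ M := fun i => Finset.dvd_prod_of_mem m (Finset.mem_univ i)
  have hT : ∀ p ∈ M.primeFactors, p.Prime ∧ 3 < p := by
    intro p hp
    have hp1 := Nat.prime_of_mem_primeFactors hp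
    refine ⟨hp1, ?_⟩
    obtain ⟨i, _, hi⟩ := (Prime.dvd_finsetProd_iff hp1.prime m).1 (Nat.dvd_of_mem_primeFactors hp)
    exact X2_gt (hc i) hp1 hi
  have hL' : ∀ p ∈ M.primeFactors, _ := fun p hp => hL p (hT p hp).1 (hT p hp).2
  -- the data of the functions u i
  have hu0 : ∀ i, ∀ p ∈ M.primeFactors, ∀ a, u i p 0 a = 1 := by
    intro i p hp a
    rcases hu i with h | h <;> rw [h]
    · exact ((hL' p hp).2.1 a).1
    · exact ((hL' p hp).2.1 a).2.1
  have hub : ∀ i, ∀ p ∈ M.primeFactors, ∀ k a, |u i p k a| ≤ ((k : ℝ) + 1) ^ D * √(p : ℝ) ^ k := by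
    intro i p hp k a
    rcases hu i with h | h <;> rw [h]
    · exact ((hL' p hp).2.2.1 k a).1
    · exact ((hL' p hp).2.2.1 k a).2
  have hup : ∀ i, ∀ p ∈ M.primeFactors, ∀ k, Per p (u i p k) := by
    intro i p hp k
    rcases hu i with h | h <;> rw [h]
    · exact ((hL' p hp).1 k).1
    · exact ((hL' p hp).1 k).2
  have hum : ∀ i, ∀ p ∈ M.primeFactors, mean p (u i p 1) = 0 := by
    intro i p hp
    have h0 : mean p (β p 1) = 0 := (hL' p hp).2.2.2.2
    rcases hu i with h | h <;> rw [h]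
    · exact h0
    · have h1 : ν p 1 = fun a => -β p 1 a := funext fun a => ((hL' p hp).2.1 a).2.2
      rw [h1]
      unfold mean at h0 ⊢
      rw [Finset.sum_neg_distrib, neg_div, h0, neg_zero]
  set f : ℕ → (ι → ℤ) → ℝ := fun p a => ∏ i, u i p ((m i).factorization p) a with hf
  set H : ℕ → ℝ := fun p => ∏ i, ((((m i).factorization p : ℕ) : ℝ) + 1) ^ D * √(p : ℝ) ^ (m i).factorization p
    with hH
  have e1 : (fun a => ∏ i, mulf (u i) (m i) a) = fun a => ∏ p ∈ M.primeFactors, f p a := by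
    funext a
    rw [hf]
    simp only
    rw [Finset.prod_comm]
    exact Finset.prod_congr rfl fun i _ => X2_mulf (u i) (m i) M.primeFactors a (hc i)
      (Nat.primeFactors_mono (hdvd i) hM) fun p hp => hu0 i p hp a
  have e2 : ∀ p ∈ M.primeFactors, p.Prime ∧ Per p (f p) ∧ ∀ a, |f p a| ≤ H p := by
    intro p hp
    refine ⟨(hT p hp).1, ?_, ?_⟩
    · exact X2_per p (fun i => u i p ((m i).factorization p)) fun i => hup i p hp _
    · intro a
      rw [hf, hH]
      simp only
      rw [Finset.abs_prod]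
      exact Finset.prod_le_prod (fun i _ => abs_nonneg _) fun i _ => hub i p hp _ a
  have hrad : ∏ p ∈ M.primeFactors, p ≤ M := Nat.le_of_dvd (Nat.pos_of_ne_zero hM) (Nat.prod_primeFactors_dvd M)
  have hradR : (∏ p ∈ M.primeFactors, (p : ℝ)) ≤ (M : ℝ) := by
    have : ((∏ p ∈ M.primeFactors, p : ℕ) : ℝ) ≤ (M : ℝ) := by exact_mod_cast hrad
    rwa [Nat.cast_prod] at this
  have e3 := hE ι M.primeFactors f H L A₀ e2 (hrad.trans hML)
  have hH0 : ∀ p, 0 ≤ H p := fun p => Finset.prod_nonneg fun i _ => by positivity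
  have e4 : ∏ p ∈ M.primeFactors, H p ≤ √(M : ℝ) * tc (D * Fintype.card κ) M := by
    rw [hH]
    simp only
    rw [Finset.prod_comm]
    calc ∏ i, ∏ p ∈ M.primeFactors,
          ((((m i).factorization p : ℕ) : ℝ) + 1) ^ D * √(p : ℝ) ^ (m i).factorization p
        ≤ ∏ i, tc D M * √(m i : ℝ) := by
          refine Finset.prod_le_prod (fun i _ => Finset.prod_nonneg fun p _ => by positivity) fun i _ => ?_
          exact X2_tau hM (m i) (hdvd i) D
      _ = √(M : ℝ) * tc (D * Fintype.card κ) M := by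
          rw [Finset.prod_mul_distrib, Finset.prod_const, Finset.card_univ, mul_comm]
          congr 1
          · rw [hMdef]
            push_cast
            rw [Real.sqrt_prod _ (fun i _ => by positivity)]
          · unfold tc
            rw [← pow_mul]
  have hP0 : 0 ≤ ∏ p ∈ M.primeFactors, H p := Finset.prod_nonneg fun p _ => hH0 p
  -- the mean value
  have e5 : |∏ p ∈ M.primeFactors, mean p (f p)| ≤ b * ∏ p ∈ M.primeFactors, H p := by
    by_cases hpw : Pw M
    · rw [hb hpw, one_mul, Finset.abs_prod]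
      refine Finset.prod_le_prod (fun p _ => abs_nonneg _) fun p hp => ?_
      have hpp : (0 : ℝ) < p := by exact_mod_cast (hT p hp).1.pos
      unfold mean
      rw [abs_div, abs_of_pos (pow_pos hpp _), div_le_iff₀ (pow_pos hpp _)]
      calc |∑ a : ι → Fin p, f p (fun i => ((a i : ℕ) : ℤ))|
          ≤ ∑ a : ι → Fin p, |f p (fun i => ((a i : ℕ) : ℤ))| := Finset.abs_sum_le_sum_abs _ _
        _ ≤ ∑ _a : ι → Fin p, H p := Finset.sum_le_sum fun a _ => (e2 p hp).2.2 _
        _ = H p * (p : ℝ) ^ Fintype.card ι := by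
            rw [Finset.sum_const, Finset.card_univ, nsmul_eq_mul, Fintype.card_fun, Fintype.card_fin]
            push_cast
            ring
    · unfold Pw at hpw
      push Not at hpw
      obtain ⟨p, hp, hp1⟩ := hpw
      have hpM : p ∈ M.primeFactors := by
        rw [← Nat.support_factorization, Finsupp.mem_support_iff, hp1]
        exact one_ne_zero
      have hz : mean p (f p) = 0 := by
        have hs : ∑ i, (m i).factorization p = 1 := by
          rw [← hp1, hMdef, Nat.factorization_prod fun i _ => hm i, Finsupp.finsetSum_apply]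
        have hex : ∃ i, (m i).factorization p ≠ 0 := by
          by_contra hcon
          push Not at hcon
          rw [Finset.sum_eq_zero fun i _ => hcon i] at hs
          exact absurd hs (by norm_num)
        obtain ⟨i, hi⟩ := hex
        have hs2 : (m i).factorization p + ∑ j ∈ Finset.univ.erase i, (m j).factorization p = 1 := by
          rw [← hs]
          exact Finset.add_sum_erase _ (fun j => (m j).factorization p) (Finset.mem_univ i)
        have hi1 : (m i).factorization p = 1 := by omega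
        have hj : ∀ j, j ≠ i → (m j).factorization p = 0 := by
          intro j hj
          have h0 : ∑ j ∈ Finset.univ.erase i, (m j).factorization p = 0 := by omega
          exact (Finset.sum_eq_zero_iff.1 h0) j (Finset.mem_erase.2 ⟨hj, Finset.mem_univ j⟩)
        have hfp : f p = u i p 1 := by
          funext a
          rw [hf]
          simp only
          rw [Finset.prod_eq_single i]
          · rw [hi1]
          · intro j _ hji
            rw [hj j hji, hu0 j p hpM a]
          · intro h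
            exact absurd (Finset.mem_univ i) h
        rw [hfp]
        exact hum i p hpM
      rw [Finset.prod_eq_zero hpM hz, abs_zero]
      exact mul_nonneg hb0 hP0
  have hLn : (0 : ℝ) ≤ (L : ℝ) ^ Fintype.card ι := by positivity
  have hL0 : (0 : ℝ) ≤ (L : ℝ) := by positivity
  rw [e1]
  set S := bsum L A₀ (fun a => ∏ p ∈ M.primeFactors, f p a) with hS
  set E := ∏ p ∈ M.primeFactors, mean p (f p) with hEdef
  set PH := ∏ p ∈ M.primeFactors, H p with hPH
  have t1 : |S| ≤ |S - (L : ℝ) ^ Fintype.card ι * E| + (L : ℝ) ^ Fintype.card ι * |E| := by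
    have h1 : S = (S - (L : ℝ) ^ Fintype.card ι * E) + (L : ℝ) ^ Fintype.card ι * E := by ring
    calc |S| = |(S - (L : ℝ) ^ Fintype.card ι * E) + (L : ℝ) ^ Fintype.card ι * E| := by rw [← h1]
      _ ≤ |S - (L : ℝ) ^ Fintype.card ι * E| + |(L : ℝ) ^ Fintype.card ι * E| := abs_add_le _ _
      _ = _ := by rw [abs_mul, abs_of_nonneg hLn]
  have t2 : |S| * L ≤ 2 * Fintype.card ι * (∏ p ∈ M.primeFactors, (p : ℝ)) * (L : ℝ) ^ Fintype.card ι * PH +
      (L : ℝ) ^ Fintype.card ι * (b * PH) * L := by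
    calc |S| * L ≤ (|S - (L : ℝ) ^ Fintype.card ι * E| + (L : ℝ) ^ Fintype.card ι * |E|) * L :=
          mul_le_mul_of_nonneg_right t1 hL0
      _ = |S - (L : ℝ) ^ Fintype.card ι * E| * L + (L : ℝ) ^ Fintype.card ι * |E| * L := by ring
      _ ≤ _ := add_le_add e3 (mul_le_mul_of_nonneg_right (mul_le_mul_of_nonneg_left e5 hLn) hL0)
  have t3 : 2 * Fintype.card ι * (∏ p ∈ M.primeFactors, (p : ℝ)) * (L : ℝ) ^ Fintype.card ι * PH ≤
      2 * Fintype.card ι * (M : ℝ) * (L : ℝ) ^ Fintype.card ι * PH := by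
    refine mul_le_mul_of_nonneg_right (mul_le_mul_of_nonneg_right (mul_le_mul_of_nonneg_left hradR ?_) hLn) hP0
    positivity
  calc |S| * L ≤ 2 * Fintype.card ι * (M : ℝ) * (L : ℝ) ^ Fintype.card ι * PH +
      (L : ℝ) ^ Fintype.card ι * (b * PH) * L := t2.trans (by linarith)
    _ = (L : ℝ) ^ Fintype.card ι * PH * (b * L + 2 * Fintype.card ι * (M : ℝ)) := by ring
    _ ≤ (L : ℝ) ^ Fintype.card ι * (√(M : ℝ) * tc (D * Fintype.card κ) M) *
        (b * L + 2 * Fintype.card ι * (M : ℝ)) := by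
        refine mul_le_mul_of_nonneg_right (mul_le_mul_of_nonneg_left e4 hLn) ?_
        positivity


private theorem X2_dco [Fintype ι] {κ : Type} [Fintype κ] (hE : S_Equi) (D : ℕ)
    (β ν : ℕ → ℕ → (ι → ℤ) → ℝ) (hL : LocData D β ν) (z X : ℕ) (m : κ → ℕ) (hm : ∀ i, m i ≠ 0) (L : ℕ)
    (A₀ : ι → ℤ) (hML : ∏ i, m i ≤ L) (b : ℝ) (hb0 : 0 ≤ b) (hb : Pw (∏ i, m i) → b = 1) :
    |bsum L A₀ (fun a => ∏ i, dco β ν z X (m i) a)| * L ≤
      (L : ℝ) ^ Fintype.card ι * (√((∏ i, m i : ℕ) : ℝ) * tc ((2 * D + 1) * Fintype.card κ) (∏ i, m i)) *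
        (b * L + 2 * Fintype.card ι * (∏ i, m i : ℕ)) := by
  classical
  set N := ∏ i, m i with hN
  have hN0 : N ≠ 0 := Finset.prod_ne_zero_iff.2 fun i _ => hm i
  have hdvd : ∀ i, m i ∣ N := fun i => Finset.dvd_prod_of_mem m (Finset.mem_univ i)
  set S : κ → Finset ℕ := fun i => (m i).divisors.filter (fun k => k ≤ X ∧ ∀ p ∈ k.primeFactors, p ≤ z) with hS
  have e1 : (fun a => ∏ i, dco β ν z X (m i) a) =
      fun a => ∑ k ∈ Fintype.piFinset S, ∏ i, (mulf ν (k i) a * mulf β (m i / k i) a) := by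
    funext a
    have h1 := Finset.prod_univ_sum S (fun (i : κ) (k : ℕ) => mulf ν k a * mulf β (m i / k) a)
    rw [← h1]
    refine Finset.prod_congr rfl fun i _ => ?_
    unfold dco
    rfl
  have e2 : bsum L A₀ (fun a => ∏ i, dco β ν z X (m i) a) =
      ∑ k ∈ Fintype.piFinset S, bsum L A₀ (fun a => ∏ i, (mulf ν (k i) a * mulf β (m i / k i) a)) := by
    rw [e1]
    unfold bsum
    rw [Finset.sum_comm]
  have hB0 : 0 ≤ (L : ℝ) ^ Fintype.card ι * (√(N : ℝ) * tc (D * (2 * Fintype.card κ)) N) *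
      (b * L + 2 * Fintype.card ι * (N : ℝ)) := by
    unfold tc
    positivity
  have e3 : ∀ k ∈ Fintype.piFinset S,
      |bsum L A₀ (fun a => ∏ i, (mulf ν (k i) a * mulf β (m i / k i) a))| * L ≤
        (L : ℝ) ^ Fintype.card ι * (√(N : ℝ) * tc (D * (2 * Fintype.card κ)) N) *
          (b * L + 2 * Fintype.card ι * (N : ℝ)) := by
    intro k hk
    have hkd : ∀ i, k i ∣ m i := fun i =>
      Nat.dvd_of_mem_divisors (Finset.mem_filter.1 ((Fintype.mem_piFinset.1 hk) i)).1
    set u : κ × Bool → ℕ → ℕ → (ι → ℤ) → ℝ := fun x => if x.2 = true then ν else β with hu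
    set m' : κ × Bool → ℕ := fun x => if x.2 = true then k x.1 else m x.1 / k x.1 with hm'
    have f1 : (fun a => ∏ i, (mulf ν (k i) a * mulf β (m i / k i) a)) =
        fun a => ∏ x : κ × Bool, mulf (u x) (m' x) a := by
      funext a
      rw [Fintype.prod_prod_type]
      refine Finset.prod_congr rfl fun i _ => ?_
      rw [Fintype.prod_bool]
      simp [hu, hm']
    have f2 : ∏ x : κ × Bool, m' x = N := by
      rw [Fintype.prod_prod_type, hN]
      refine Finset.prod_congr rfl fun i _ => ?_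
      rw [Fintype.prod_bool]
      simp only [hm', if_true, Bool.false_eq_true, if_false]
      exact Nat.mul_div_cancel' (hkd i)
    have hk0 : ∀ i, k i ≠ 0 := fun i h => hm i (by have := hkd i; rw [h] at this; exact Nat.eq_zero_of_zero_dvd this)
    have f3 : ∀ x, m' x ≠ 0 := by
      rintro ⟨i, c⟩
      cases c
      · simp only [hm', Bool.false_eq_true, if_false]
        exact (Nat.div_pos (Nat.le_of_dvd (Nat.pos_of_ne_zero (hm i)) (hkd i)) (Nat.pos_of_ne_zero (hk0 i))).ne'
      · simp only [hm', if_true]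
        exact hk0 i
    rw [f1]
    by_cases hc : ∀ x, (m' x).Coprime 6
    · have h := X2_core hE D β ν hL u (fun x => by
        simp only [hu]
        split_ifs
        · exact Or.inr rfl
        · exact Or.inl rfl) m' f3 L A₀ hc (by rw [f2]; exact hML) b hb0 (by rw [f2]; exact hb)
      rw [f2, Fintype.card_prod, Fintype.card_bool, mul_comm (Fintype.card κ) 2] at h
      exact h
    · push Not at hc
      obtain ⟨x, hx⟩ := hc
      have f4 : (fun a => ∏ x : κ × Bool, mulf (u x) (m' x) a) = fun _ => 0 := by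
        funext a
        refine Finset.prod_eq_zero (Finset.mem_univ x) ?_
        unfold mulf
        rw [if_neg hx]
      rw [f4]
      have f5 : bsum L A₀ (fun _ : ι → ℤ => (0 : ℝ)) = 0 := by
        unfold bsum
        exact Finset.sum_const_zero
      rw [f5, abs_zero, zero_mul]
      exact hB0
  have hcard : ((Fintype.piFinset S).card : ℝ) ≤ tc (Fintype.card κ) N := by
    rw [Fintype.card_piFinset]
    push_cast
    unfold tc
    calc ∏ i, ((S i).card : ℝ) ≤ ∏ _i : κ, (N.divisors.card : ℝ) := by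
          refine Finset.prod_le_prod (fun i _ => by positivity) fun i _ => ?_
          have h1 : (S i).card ≤ N.divisors.card :=
            (Finset.card_filter_le _ _).trans (Finset.card_le_card (Nat.divisors_subset_of_dvd hN0 (hdvd i)))
          exact_mod_cast h1
      _ = (N.divisors.card : ℝ) ^ Fintype.card κ := by
          rw [Finset.prod_const, Finset.card_univ]
  have hL0 : (0 : ℝ) ≤ (L : ℝ) := by positivity
  rw [e2]
  calc |∑ k ∈ Fintype.piFinset S, bsum L A₀ (fun a => ∏ i, (mulf ν (k i) a * mulf β (m i / k i) a))| * L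
      ≤ (∑ k ∈ Fintype.piFinset S,
          |bsum L A₀ (fun a => ∏ i, (mulf ν (k i) a * mulf β (m i / k i) a))|) * L :=
        mul_le_mul_of_nonneg_right (Finset.abs_sum_le_sum_abs _ _) hL0
    _ = ∑ k ∈ Fintype.piFinset S,
          |bsum L A₀ (fun a => ∏ i, (mulf ν (k i) a * mulf β (m i / k i) a))| * L := by
        rw [Finset.sum_mul]
    _ ≤ ∑ _k ∈ Fintype.piFinset S, (L : ℝ) ^ Fintype.card ι * (√(N : ℝ) * tc (D * (2 * Fintype.card κ)) N) *
          (b * L + 2 * Fintype.card ι * (N : ℝ)) := Finset.sum_le_sum e3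
    _ = ((Fintype.piFinset S).card : ℝ) * ((L : ℝ) ^ Fintype.card ι *
          (√(N : ℝ) * tc (D * (2 * Fintype.card κ)) N) * (b * L + 2 * Fintype.card ι * (N : ℝ))) := by
        rw [Finset.sum_const, nsmul_eq_mul]
    _ ≤ tc (Fintype.card κ) N * ((L : ℝ) ^ Fintype.card ι *
          (√(N : ℝ) * tc (D * (2 * Fintype.card κ)) N) * (b * L + 2 * Fintype.card ι * (N : ℝ))) :=
        mul_le_mul_of_nonneg_right hcard hB0
    _ = (L : ℝ) ^ Fintype.card ι * (√(N : ℝ) * tc ((2 * D + 1) * Fintype.card κ) N) *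
        (b * L + 2 * Fintype.card ι * (N : ℝ)) := by
        have h1 : tc ((2 * D + 1) * Fintype.card κ) N =
            tc (Fintype.card κ) N * tc (D * (2 * Fintype.card κ)) N := by
          unfold tc
          rw [← pow_add]
          congr 1
          ring
        rw [h1]
        ring


/-- the final form of the bound -/
private theorem X2_fin [Fintype ι] {κ : Type} [Fintype κ] (hE : S_Equi) (D : ℕ) (C : ℝ) (hC : 0 < C)
    (hdiv : ∀ m : ℕ, 1 ≤ m → ((m.divisors.card : ℕ) : ℝ) ^ ((2 * D + 1) * Fintype.card κ) ≤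
      C * (m : ℝ) ^ (1 / 10 : ℝ))
    (hκ : Fintype.card κ ≤ 4)
    (β ν : ℕ → ℕ → (ι → ℤ) → ℝ) (hL : LocData D β ν) (z X Z L : ℕ) (A₀ : ι → ℤ) (hZ : 1 ≤ Z)
    (hZC : 2 * Fintype.card ι * C ≤ (Z : ℝ) ^ 2) (hZL : Z ^ 24 ≤ L)
    (m : κ → ℕ) (hm : ∀ i, m i ∈ Finset.Icc 1 Z) :
    |bsum L A₀ (fun a => ∏ i, dco β ν z X (m i) a)| ≤ (L : ℝ) ^ Fintype.card ι *
      (((∏ i, m i : ℕ) : ℝ) * gw ((2 * D + 1) * Fintype.card κ) (∏ i, m i) + ((Z : ℝ) ^ 14)⁻¹) := by
  classical
  have hm0 : ∀ i, m i ≠ 0 := fun i => by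
    have := (Finset.mem_Icc.1 (hm i)).1
    omega
  set N := ∏ i, m i with hN
  have hN0 : N ≠ 0 := Finset.prod_ne_zero_iff.2 fun i _ => hm0 i
  have hN1 : 1 ≤ N := Nat.one_le_iff_ne_zero.2 hN0
  have hNZ : N ≤ Z ^ 4 := by
    calc N ≤ ∏ _i : κ, Z := Finset.prod_le_prod' fun i _ => (Finset.mem_Icc.1 (hm i)).2
      _ = Z ^ Fintype.card κ := by rw [Finset.prod_const, Finset.card_univ]
      _ ≤ Z ^ 4 := Nat.pow_le_pow_right hZ hκ
  have hNL : N ≤ L := hNZ.trans ((Nat.pow_le_pow_right hZ (by norm_num)).trans hZL)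
  have hLn : (0 : ℝ) ≤ (L : ℝ) ^ Fintype.card ι := by positivity
  have hgw : 0 ≤ gw ((2 * D + 1) * Fintype.card κ) N := by
    unfold gw tc
    split_ifs
    · positivity
    · exact le_refl _
  by_cases hc : N.Coprime 6
  · have hNR : (1 : ℝ) ≤ (N : ℝ) := by exact_mod_cast hN1
    have hNR0 : (0 : ℝ) < (N : ℝ) := by linarith
    have hZR : (1 : ℝ) ≤ (Z : ℝ) := by exact_mod_cast hZ
    have hL0 : (0 : ℝ) < (L : ℝ) := by
      have : 0 < L := lt_of_lt_of_le hN1 hNL
      exact_mod_cast this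
    have h := X2_dco hE D β ν hL z X m hm0 L A₀ hNL (if Pw N then 1 else 0) (by split_ifs <;> norm_num)
      (fun h => if_pos h)
    rw [← hN] at h
    have h2 : √(N : ℝ) * tc ((2 * D + 1) * Fintype.card κ) N * (if Pw N then 1 else 0) =
        (N : ℝ) * gw ((2 * D + 1) * Fintype.card κ) N := by
      unfold gw
      by_cases hp : Pw N
      · have hs : √(N : ℝ) = (N : ℝ) * (√(N : ℝ))⁻¹ := by
          have h3 : 0 < √(N : ℝ) := Real.sqrt_pos.2 hNR0
          field_simp
          exact Real.sq_sqrt hNR0.le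
        rw [if_pos hp, if_pos ⟨hN0, hp, hc⟩, mul_one]
        conv_lhs => rw [hs]
        ring
      · rw [if_neg hp, if_neg fun h => hp h.2.1]
        ring
    have h3 : √(N : ℝ) * tc ((2 * D + 1) * Fintype.card κ) N * (2 * Fintype.card ι * (N : ℝ)) ≤
        (Z : ℝ) ^ 10 := by
      have g1 : tc ((2 * D + 1) * Fintype.card κ) N ≤ C * (N : ℝ) ^ (1 / 10 : ℝ) := hdiv N hN1
      have g2 : (N : ℝ) ^ (1 / 10 : ℝ) ≤ √(N : ℝ) := by
        rw [Real.sqrt_eq_rpow]
        exact Real.rpow_le_rpow_of_exponent_le hNR (by norm_num)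
      have g3 : √(N : ℝ) * tc ((2 * D + 1) * Fintype.card κ) N ≤ C * (N : ℝ) := by
        calc √(N : ℝ) * tc ((2 * D + 1) * Fintype.card κ) N
            ≤ √(N : ℝ) * (C * √(N : ℝ)) :=
              mul_le_mul_of_nonneg_left (g1.trans (mul_le_mul_of_nonneg_left g2 hC.le)) (Real.sqrt_nonneg _)
          _ = C * (√(N : ℝ) * √(N : ℝ)) := by ring
          _ = C * (N : ℝ) := by rw [Real.mul_self_sqrt hNR0.le]
      have g4 : (N : ℝ) ≤ (Z : ℝ) ^ 4 := by exact_mod_cast hNZ
      calc √(N : ℝ) * tc ((2 * D + 1) * Fintype.card κ) N * (2 * Fintype.card ι * (N : ℝ))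
          ≤ C * (N : ℝ) * (2 * Fintype.card ι * (N : ℝ)) :=
            mul_le_mul_of_nonneg_right g3 (by positivity)
        _ = (2 * Fintype.card ι * C) * ((N : ℝ) * (N : ℝ)) := by ring
        _ ≤ (Z : ℝ) ^ 2 * ((Z : ℝ) ^ 4 * (Z : ℝ) ^ 4) := by
            refine mul_le_mul hZC (mul_le_mul g4 g4 hNR0.le (by positivity)) (by positivity) (by positivity)
        _ = (Z : ℝ) ^ 10 := by ring
    have h4 : (Z : ℝ) ^ 10 ≤ ((Z : ℝ) ^ 14)⁻¹ * L := by
      have h5 : (Z : ℝ) ^ 24 ≤ (L : ℝ) := by exact_mod_cast hZL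
      have h6 : (0 : ℝ) < (Z : ℝ) ^ 14 := by positivity
      rw [inv_mul_eq_div, le_div_iff₀ h6]
      calc (Z : ℝ) ^ 10 * (Z : ℝ) ^ 14 = (Z : ℝ) ^ 24 := by ring
        _ ≤ (L : ℝ) := h5
    have h5 : |bsum L A₀ (fun a => ∏ i, dco β ν z X (m i) a)| * L ≤ ((L : ℝ) ^ Fintype.card ι *
        ((N : ℝ) * gw ((2 * D + 1) * Fintype.card κ) N + ((Z : ℝ) ^ 14)⁻¹)) * L := by
      calc |bsum L A₀ (fun a => ∏ i, dco β ν z X (m i) a)| * L
          ≤ (L : ℝ) ^ Fintype.card ι * (√(N : ℝ) * tc ((2 * D + 1) * Fintype.card κ) N) *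
            ((if Pw N then 1 else 0) * L + 2 * Fintype.card ι * (N : ℝ)) := h
        _ = (L : ℝ) ^ Fintype.card ι *
            ((√(N : ℝ) * tc ((2 * D + 1) * Fintype.card κ) N * (if Pw N then 1 else 0)) * L +
              √(N : ℝ) * tc ((2 * D + 1) * Fintype.card κ) N * (2 * Fintype.card ι * (N : ℝ))) := by ring
        _ ≤ (L : ℝ) ^ Fintype.card ι *
            (((N : ℝ) * gw ((2 * D + 1) * Fintype.card κ) N) * L + ((Z : ℝ) ^ 14)⁻¹ * L) := by
            rw [h2]
            exact mul_le_mul_of_nonneg_left (add_le_add le_rfl (h3.trans h4)) hLn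
        _ = _ := by ring
    exact le_of_mul_le_mul_right h5 hL0
  · have hex : ∃ i, ¬ (m i).Coprime 6 := by
      by_contra hcon
      push Not at hcon
      exact hc (Nat.Coprime.prod_left fun i _ => hcon i)
    obtain ⟨i, hi⟩ := hex
    have f4 : (fun a => ∏ i, dco β ν z X (m i) a) = fun _ => 0 := by
      funext a
      refine Finset.prod_eq_zero (Finset.mem_univ i) ?_
      unfold dco
      refine Finset.sum_eq_zero fun k hk => ?_
      have hkd := Nat.dvd_of_mem_divisors (Finset.mem_filter.1 hk).1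
      by_cases h1 : k.Coprime 6
      · have h2 : ¬ (m i / k).Coprime 6 := by
          intro h2
          apply hi
          have := Nat.Coprime.mul_left h1 h2
          rwa [Nat.mul_div_cancel' hkd] at this
        unfold mulf
        rw [if_neg h2, mul_zero]
      · unfold mulf
        rw [if_neg h1, zero_mul]
    have f5 : bsum L A₀ (fun _ : ι → ℤ => (0 : ℝ)) = 0 := by
      unfold bsum
      exact Finset.sum_const_zero
    rw [f4, f5, abs_zero]
    positivity

private theorem X2_mono {C C' N : ℕ} (h : C ≤ C') : gw C N ≤ gw C' N := by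
  unfold gw
  by_cases hp : Pg N
  · rw [if_pos hp, if_pos hp]
    refine mul_le_mul_of_nonneg_left ?_ (inv_nonneg.2 (Real.sqrt_nonneg _))
    unfold tc
    have h1 : 1 ≤ N.divisors.card := Finset.card_pos.2 ⟨1, Nat.one_mem_divisors.2 hp.1⟩
    exact pow_le_pow_right₀ (by exact_mod_cast h1) h
  · rw [if_neg hp, if_neg hp]

end X2M

open X2M in
theorem tX2 (hE : MP7ed9c3.Tz.S_Equi) : S_X2 := by
  intro ι _ D
  obtain ⟨C2, hC2, hd2⟩ := Moll_div ((2 * D + 1) * Fintype.card (Fin 2))
  obtain ⟨C4, hC4, hd4⟩ := Moll_div ((2 * D + 1) * Fintype.card (Fin 4))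
  refine ⟨(2 * D + 1) * 4, ⌈2 * Fintype.card ι * C2⌉₊ + ⌈2 * Fintype.card ι * C4⌉₊ + 1, ?_⟩
  intro β ν hL z X Z L A₀ hZ hZL l hl m hm
  have hZ1 : 1 ≤ Z := by omega
  have hZR : (1 : ℝ) ≤ (Z : ℝ) := by exact_mod_cast hZ1
  have hZ2 : (Z : ℝ) ≤ (Z : ℝ) ^ 2 := by nlinarith
  have b2 : 2 * Fintype.card ι * C2 ≤ (Z : ℝ) ^ 2 := by
    have h1 : 2 * Fintype.card ι * C2 ≤ (⌈2 * Fintype.card ι * C2⌉₊ : ℝ) := Nat.le_ceil _
    have h2 : (⌈2 * Fintype.card ι * C2⌉₊ : ℝ) ≤ (Z : ℝ) := by
      have : ⌈2 * Fintype.card ι * C2⌉₊ ≤ Z := by omega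
      exact_mod_cast this
    linarith
  have b4 : 2 * Fintype.card ι * C4 ≤ (Z : ℝ) ^ 2 := by
    have h1 : 2 * Fintype.card ι * C4 ≤ (⌈2 * Fintype.card ι * C4⌉₊ : ℝ) := Nat.le_ceil _
    have h2 : (⌈2 * Fintype.card ι * C4⌉₊ : ℝ) ≤ (Z : ℝ) := by
      have : ⌈2 * Fintype.card ι * C4⌉₊ ≤ Z := by omega
      exact_mod_cast this
    linarith
  have hLn : (0 : ℝ) ≤ (L : ℝ) ^ Fintype.card ι := by positivity
  constructor
  · have h := X2_fin (κ := Fin 2) hE D C2 hC2 hd2 (by simp) β ν hL z X Z L A₀ hZ1 b2 hZL ![l, m] (by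
      intro i
      fin_cases i
      · exact hl
      · exact hm)
    simp only [Fin.prod_univ_two, Matrix.cons_val_zero, Matrix.cons_val_one, Fintype.card_fin] at h
    refine h.trans (mul_le_mul_of_nonneg_left (add_le_add ?_ le_rfl) hLn)
    exact mul_le_mul_of_nonneg_left (X2_mono (by omega)) (by positivity)
  · intro l' hl' m' hm'
    have h := X2_fin (κ := Fin 4) hE D C4 hC4 hd4 (by simp) β ν hL z X Z L A₀ hZ1 b4 hZL ![l, m, l', m'] (by
      intro i
      fin_cases i
      · exact hl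
      · exact hm
      · exact hl'
      · exact hm')
    have e1 : ∀ g : ℕ → (ι → ℤ) → ℝ, (fun a => ∏ i : Fin 4, g (![l, m, l', m'] i) a) =
        fun a => g l a * g m a * (g l' a * g m' a) := by
      intro g
      funext a
      rw [Fin.prod_univ_four]
      simp only [Matrix.cons_val_zero, Matrix.cons_val_one, Matrix.cons_val]
      ring
    have e2 : ∏ i : Fin 4, (![l, m, l', m'] i) = l * m * (l' * m') := by
      rw [Fin.prod_univ_four]
      simp only [Matrix.cons_val_zero, Matrix.cons_val_one, Matrix.cons_val]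
      ring
    rw [e1 (fun k => dco β ν z X k), e2, Fintype.card_fin] at h
    exact h

end MP7ed9c3.Pz
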